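import Pool.Agent.WOM.StB

/-!
WOM: definable sets of elements over the range of a tuple (helper46)
-/

set_option autoImplicit false

namespace Pool.Agent.WOM

open FirstOrder.Language Set
open scoped FirstOrder

private theorem DEF1_snoc_comp {M : Type} {n : ℕ} (a : Fin n → M) (x : M) :
    (Fin.snoc a x : Fin (n + 1) → M) ∘
      (Sum.elim Fin.castSucc (fun _ => Fin.last n) : Fin n ⊕ Fin 1 → Fin (n + 1)) =
      Sum.elim a (fun _ : Fin 1 => x) := by
  funext t
  rcases t with t | t
  · simp [Fin.snoc_castSucc]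
  · simp [Fin.snoc_last]

private theorem DEF1_elim_comp {M : Type} {n : ℕ} (a : Fin n → M) (v : Fin 1 → M) :
    Sum.elim a v ∘ (Fin.snoc Sum.inl (Sum.inr 0) : Fin (n + 1) → Fin n ⊕ Fin 1) =
      (Fin.snoc a (v 0) : Fin (n + 1) → M) := by
  funext t
  refine Fin.lastCases ?_ (fun i => ?_) t
  · simp [Fin.snoc_last]
  · simp [Fin.snoc_castSucc]

theorem thm_DEF1 (h : St_DEFF) : St_DEF1 := by
  intro L M _ n a
  have key : ∀ s : Set M, (range a).Definable₁ L s ↔
      ∃ φ : L.Formula (Fin (n + 1)), s = {x | φ.Realize (Fin.snoc a x : Fin (n + 1) → M)} := by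
    intro s
    unfold Set.Definable₁
    rw [h L M n a]
    constructor
    · rintro ⟨φ, hφ⟩
      refine ⟨φ.relabel (Sum.elim Fin.castSucc (fun _ => Fin.last n)), ?_⟩
      ext x
      rw [mem_ofPred_eq, FirstOrder.Language.Formula.realize_relabel, DEF1_snoc_comp]
      have := Set.ext_iff.1 hφ (fun _ => x)
      simpa using this
    · rintro ⟨φ, rfl⟩
      refine ⟨φ.relabel (Fin.snoc Sum.inl (Sum.inr 0) : Fin (n + 1) → Fin n ⊕ Fin 1), ?_⟩
      ext v
      rw [mem_ofPred_eq, mem_ofPred_eq, mem_ofPred_eq,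
        FirstOrder.Language.Formula.realize_relabel, DEF1_elim_comp]
  refine ⟨key, fun x y => ?_⟩
  constructor
  · intro hxy
    ext φ
    have := hxy {x | φ.Realize (Fin.snoc a x : Fin (n + 1) → M)} ((key _).2 ⟨φ, rfl⟩)
    simpa [tp] using this
  · intro hxy s hs
    obtain ⟨φ, rfl⟩ := (key s).1 hs
    have := Set.ext_iff.1 hxy φ
    simpa [tp] using this

end Pool.Agent.WOM
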