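import Pool.Agent.WOM.StC

/-! WOM: module DNS, isolated types are dense (helper89). -/

set_option autoImplicit false

namespace Pool.Agent.WOM

open FirstOrder.Language Set
open scoped FirstOrder

private theorem DNS_fin {U : Type} {X : ℕ → Set U} (hX : Antitone X) {G : Set (Set U)}
    (hG : G.Finite) (h : ∀ s ∈ G, ∃ k, X k = s) : ∃ N, X N ⊆ ⋂₀ G := by
  induction G, hG using Set.Finite.induction_on with
  | empty =>
    refine ⟨0, ?_⟩
    rw [sInter_empty]
    exact subset_univ _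
  | insert _ _ ih =>
    obtain ⟨N, hN⟩ := ih fun s hs => h s (mem_insert_of_mem _ hs)
    obtain ⟨k, hk⟩ := h _ (mem_insert _ _)
    refine ⟨max N k, ?_⟩
    rw [sInter_insert]
    refine subset_inter ?_ ((hX (le_max_left N k)).trans hN)
    rw [← hk]
    exact hX (le_max_right N k)

theorem thm_DNS (hORB : St_ORB) : St_DNS := by
  intro L U _ hM A s hA hs hne
  obtain ⟨o1, o2, -, -, -, o6, o7, -, -⟩ := hORB L U hM
  by_contra hcon
  push Not at hcon
  have step : ∀ (X : Set U) (u : U), A.Definable₁ L X → X.Nonempty → X ⊆ s →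
      ∃ X' : Set U, A.Definable₁ L X' ∧ X'.Nonempty ∧ X' ⊆ X ∧ u ∉ X' := by
    intro X u hX hXn hXs
    by_cases hu : u ∈ X
    · have h1 : ¬ X ⊆ Orb L A u := by
        intro h2
        have h3 : X = Orb L A u := Subset.antisymm h2 (o6 A X hX u hu)
        have h4 := hcon u (hXs hu)
        unfold Isd at h4
        rw [← h3] at h4
        exact h4 hX
      obtain ⟨w, hw, hw'⟩ := not_subset.1 h1
      have h5 : u ∉ Orb L A w := by
        intro h6
        apply hw'
        rw [o2 A w u h6]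
        exact o1 A w
      obtain ⟨t, ht, hwt, hut⟩ := o7 A w u hA h5
      exact ⟨X ∩ t, Set.Definable.inter hX ht, ⟨w, hw, hwt⟩, inter_subset_left,
        fun h => hut h.2⟩
    · exact ⟨X, hX, hXn, Subset.rfl, hu⟩
  have := hM.ctb
  have := hM.inf
  obtain ⟨u, hu⟩ := exists_surjective_nat U
  choose! f hf using step
  obtain ⟨X, hX0, hXs⟩ : ∃ X : ℕ → Set U, X 0 = s ∧ ∀ k, X (k + 1) = f (X k) (u k) :=
    ⟨fun n => Nat.rec s (fun k Y => f Y (u k)) n, rfl, fun _ => rfl⟩
  have key : ∀ k, A.Definable₁ L (X k) ∧ (X k).Nonempty ∧ X k ⊆ s := by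
    intro k
    induction k with
    | zero =>
      rw [hX0]
      exact ⟨hs, hne, Subset.rfl⟩
    | succ k ih =>
      rw [hXs]
      obtain ⟨h1, h2, h3, -⟩ := hf (X k) (u k) ih.1 ih.2.1 ih.2.2
      exact ⟨h1, h2, h3.trans ih.2.2⟩
  have hstep : ∀ k, X (k + 1) ⊆ X k ∧ u k ∉ X (k + 1) := by
    intro k
    rw [hXs]
    obtain ⟨-, -, h3, h4⟩ := hf (X k) (u k) (key k).1 (key k).2.1 (key k).2.2
    exact ⟨h3, h4⟩
  have hanti : Antitone X := antitone_nat_of_succ_le fun k => (hstep k).1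
  obtain ⟨y, hy⟩ := hM.sat A hA (range X) (by
    rintro _ ⟨k, rfl⟩
    exact (key k).1) (by
    intro G hG hGf
    obtain ⟨N, hN⟩ := DNS_fin hanti hGf fun t ht => hG ht
    exact (key N).2.1.mono hN)
  obtain ⟨k, rfl⟩ := hu y
  exact (hstep k).2 (hy (X (k + 1)) ⟨k + 1, rfl⟩)

end Pool.Agent.WOM
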