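import Pool.Agent.WOM.StB

/-!
WOM, module AUT: automorphisms of the saturated model and definable sets.
-/

set_option autoImplicit false

namespace Pool.Agent.WOM

open FirstOrder.Language Set
open scoped FirstOrder

private theorem AUT_img {L : FirstOrder.Language.{0, 0}} {U : Type} [L.Structure U] (g : U ≃[L] U)
    (A : Set U) (k : ℕ) (s : Set (Fin k → U)) (h : A.Definable L s) :
    (g '' A).Definable L ((fun v => g ∘ v) '' s) := by
  rw [definable_iff_exists_formula_sum] at h ⊢
  obtain ⟨φ, rfl⟩ := h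
  refine ⟨φ.relabel (Sum.map (fun a : A => (⟨g a, mem_image_of_mem g a.2⟩ : (g '' A : Set U)))
    (id : Fin k → Fin k)), ?_⟩
  ext w
  rw [mem_ofPred_eq, FirstOrder.Language.Formula.realize_relabel]
  constructor
  · rintro ⟨v, hv, rfl⟩
    have h1 := (FirstOrder.Language.StrongHomClass.realize_formula g φ).2 hv
    have h2 : (Sum.elim (fun a : (g '' A : Set U) => (a : U)) (g ∘ v)) ∘
        (Sum.map (fun a : A => (⟨g a, mem_image_of_mem g a.2⟩ : (g '' A : Set U)))
          (id : Fin k → Fin k)) = g ∘ Sum.elim (fun a : A => (a : U)) v := by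
      funext i
      rcases i with i | i <;> rfl
    rw [h2]
    exact h1
  · intro hw
    refine ⟨g.symm ∘ w, ?_, ?_⟩
    · rw [mem_ofPred_eq]
      apply (FirstOrder.Language.StrongHomClass.realize_formula g φ).1
      have h2 : (Sum.elim (fun a : (g '' A : Set U) => (a : U)) w) ∘
          (Sum.map (fun a : A => (⟨g a, mem_image_of_mem g a.2⟩ : (g '' A : Set U)))
            (id : Fin k → Fin k)) = g ∘ Sum.elim (fun a : A => (a : U)) (g.symm ∘ w) := by
        funext i
        rcases i with i | i
        · rfl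
        · show w i = g (g.symm (w i))
          rw [FirstOrder.Language.Equiv.apply_symm_apply]
      rw [← h2]
      exact hw
    · funext i
      show g (g.symm (w i)) = w i
      rw [FirstOrder.Language.Equiv.apply_symm_apply]

private theorem AUT_img1 {L : FirstOrder.Language.{0, 0}} {U : Type} [L.Structure U]
    (g : U ≃[L] U) (A : Set U) (s : Set U) (h : A.Definable₁ L s) :
    (g '' A).Definable₁ L (g '' s) := by
  have h1 := AUT_img g A 1 _ h
  have h2 : ((fun v : Fin 1 → U => g ∘ v) '' {x : Fin 1 → U | x 0 ∈ s}) =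
      {x : Fin 1 → U | x 0 ∈ g '' s} := by
    ext w
    constructor
    · rintro ⟨v, hv, rfl⟩
      exact ⟨v 0, hv, rfl⟩
    · rintro ⟨u, hu, hw⟩
      refine ⟨fun _ => u, hu, ?_⟩
      funext i
      rw [Subsingleton.elim i 0]
      exact hw
  rw [h2] at h1
  exact h1

theorem thm_AUT (_ : St_DEFF) (h2 : St_DEF1) (L : FirstOrder.Language.{0, 0}) (U : Type)
    [L.Structure U] : St_AUT L U := by
  intro hM
  refine ⟨AUT_img, AUT_img1, ?_⟩
  intro A x y hA
  constructor
  · intro h
    obtain ⟨n, a, ha⟩ : ∃ (n : ℕ) (a : Fin n → U), range a = A := by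
      have := hA.fintype
      refine ⟨Fintype.card A, fun i => ((Fintype.equivFin A).symm i : U), ?_⟩
      ext z
      constructor
      · rintro ⟨i, rfl⟩
        exact ((Fintype.equivFin A).symm i).2
      · intro hz
        exact ⟨Fintype.equivFin A ⟨z, hz⟩, by simp⟩
    subst ha
    obtain ⟨g, hg⟩ := hM.hom (n + 1) _ _ (((h2 L U n a).2 x y).1 h)
    refine ⟨g, ?_, ?_⟩
    · rintro _ ⟨i, rfl⟩
      have h3 := hg (Fin.castSucc i)
      rwa [Fin.snoc_castSucc, Fin.snoc_castSucc] at h3
    · have h3 := hg (Fin.last n)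
      rwa [Fin.snoc_last, Fin.snoc_last] at h3
  · rintro ⟨g, hg, rfl⟩ s hs
    unfold Definable₁ at hs
    rw [definable_iff_exists_formula_sum] at hs
    obtain ⟨φ, hφ⟩ := hs
    have key : ∀ z : U, z ∈ s ↔ φ.Realize (Sum.elim (fun a : A => (a : U)) (fun _ : Fin 1 => z)) := by
      intro z
      have h3 := congrArg (fun t : Set (Fin 1 → U) => (fun _ : Fin 1 => z) ∈ t) hφ
      exact iff_of_eq h3
    rw [key, key, ← FirstOrder.Language.StrongHomClass.realize_formula g φ]
    have h4 : g ∘ Sum.elim (fun a : A => (a : U)) (fun _ : Fin 1 => x) =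
        Sum.elim (fun a : A => (a : U)) (fun _ : Fin 1 => g x) := by
      funext i
      rcases i with i | i
      · exact hg i i.2
      · rfl
    rw [h4]

end Pool.Agent.WOM
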