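import Pool.Agent.WOM.StB

/-!
WOM: definable sets over the range of a tuple (helper87)
-/

set_option autoImplicit false

namespace Pool.Agent.WOM

open FirstOrder.Language Set
open scoped FirstOrder

theorem thm_DEFF : St_DEFF := by
  intro L M _ n a α s
  rw [definable_iff_exists_formula_sum]
  constructor
  · rintro ⟨φ, rfl⟩
    choose f hf using fun x : range a => x.2
    refine ⟨φ.relabel (Sum.map f id), ?_⟩
    ext v
    rw [mem_ofPred_eq, mem_ofPred_eq, FirstOrder.Language.Formula.realize_relabel]
    have h1 : Sum.elim a v ∘ Sum.map f id = Sum.elim (fun x : range a => (x : M)) v := by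
      funext t
      rcases t with t | t
      · exact hf t
      · rfl
    rw [h1]
  · rintro ⟨φ, rfl⟩
    refine ⟨φ.relabel (Sum.map (fun i => (⟨a i, i, rfl⟩ : range a)) id), ?_⟩
    ext v
    rw [mem_ofPred_eq, mem_ofPred_eq, FirstOrder.Language.Formula.realize_relabel]
    have h1 : Sum.elim (fun x : range a => (x : M)) v ∘
        Sum.map (fun i => (⟨a i, i, rfl⟩ : range a)) id = Sum.elim a v := by
      funext t
      rcases t with t | t <;> rfl
    rw [h1]

end Pool.Agent.WOM
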