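import Pool.Agent.WOM.StB

/-! WOM: module INV (helper40). -/

set_option autoImplicit false

namespace Pool.Agent.WOM

open FirstOrder.Language Set
open scoped FirstOrder

section
variable {L : FirstOrder.Language.{0, 0}} {U : Type} [L.Structure U]

private theorem INV_compl {A : Set U} {s : Set U} (h : A.Definable₁ L s) : A.Definable₁ L sᶜ :=
  Set.Definable.compl h

private theorem INV_mono {A B : Set U} (hAB : A ⊆ B) {s : Set U} (h : A.Definable₁ L s) :
    B.Definable₁ L s :=
  Set.Definable.mono h hAB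

private theorem INV_univ (A : Set U) : A.Definable₁ L (univ : Set U) :=
  Set.definable_univ (α := Fin 1)

private theorem INV_inter {A : Set U} {s t : Set U} (h : A.Definable₁ L s)
    (h' : A.Definable₁ L t) : A.Definable₁ L (s ∩ t) :=
  Set.Definable.inter h h'

private theorem INV_sInter {A : Set U} {G : Set (Set U)} (hG : G.Finite)
    (h : ∀ s ∈ G, A.Definable₁ L s) : A.Definable₁ L (⋂₀ G) := by
  induction G, hG using Set.Finite.induction_on with
  | empty =>
    rw [sInter_empty]
    exact INV_univ A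
  | insert _ _ ih =>
    rw [sInter_insert]
    exact INV_inter (h _ (mem_insert _ _)) (ih fun s hs => h s (mem_insert_of_mem _ hs))

end

theorem thm_INV (h1 : ∀ (L : FirstOrder.Language.{0, 0}) (U : Type) [L.Structure U], St_AUT L U)
    (L : FirstOrder.Language.{0, 0}) (U : Type) [L.Structure U] : St_INV L U := by
  intro hM A B s hA hB hs hg
  have hAB : (A ∪ B).Finite := hA.union hB
  have hsep : ∀ x ∈ s, ∀ y, y ∉ s → ∃ t : Set U, A.Definable₁ L t ∧ x ∈ t ∧ y ∉ t := by
    intro x hx y hy
    by_contra hcon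
    push Not at hcon
    have hE : Eqv L A x y := by
      intro t ht
      refine ⟨fun h => hcon t ht h, fun h => ?_⟩
      by_contra h'
      exact hcon tᶜ (INV_compl ht) h' h
    obtain ⟨g, hgA, hgx⟩ := ((h1 L U hM).2.2 A x y hA).1 hE
    have h2 : y ∈ g '' s := ⟨x, hx, hgx⟩
    rw [hg g hgA] at h2
    exact hy h2
  have hin : ∀ x ∈ s, ∃ t : Set U, A.Definable₁ L t ∧ x ∈ t ∧ t ⊆ s := by
    intro x hx
    by_contra hcon
    push Not at hcon
    have hne : (⋂₀ ({t | A.Definable₁ L t ∧ x ∈ t} ∪ {sᶜ})).Nonempty → False := by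
      rintro ⟨y, hy⟩
      have hys : y ∉ s := hy sᶜ (Or.inr rfl)
      obtain ⟨t, ht, hxt, hyt⟩ := hsep x hx y hys
      exact hyt (hy t (Or.inl ⟨ht, hxt⟩))
    refine hne (hM.sat (A ∪ B) hAB ({t | A.Definable₁ L t ∧ x ∈ t} ∪ {sᶜ}) ?_ ?_)
    · rintro t (ht | ht)
      · exact INV_mono subset_union_left ht.1
      · rw [mem_singleton_iff.1 ht]
        exact INV_mono subset_union_right (INV_compl hs)
    · intro G hG hGf
      have hG' : (G ∩ {t | A.Definable₁ L t ∧ x ∈ t}).Finite := hGf.subset inter_subset_left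
      have ht := INV_sInter (L := L) hG' (fun t ht => ht.2.1)
      have hxt : x ∈ ⋂₀ (G ∩ {t | A.Definable₁ L t ∧ x ∈ t}) := fun t ht => ht.2.2
      have hns := hcon _ ht hxt
      obtain ⟨z, hz, hzs⟩ := not_subset.1 hns
      refine ⟨z, fun t ht => ?_⟩
      rcases hG ht with h | h
      · exact hz t ⟨ht, h⟩
      · rw [mem_singleton_iff.1 h]
        exact hzs
  by_contra hcon
  have hne : (⋂₀ ({t | A.Definable₁ L t ∧ tᶜ ⊆ s} ∪ {s})).Nonempty → False := by
    rintro ⟨y, hy⟩
    have hys : y ∈ s := hy s (Or.inr rfl)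
    obtain ⟨t, ht, hyt, hts⟩ := hin y hys
    exact hy tᶜ (Or.inl ⟨INV_compl ht, by rwa [compl_compl]⟩) hyt
  refine hne (hM.sat (A ∪ B) hAB ({t | A.Definable₁ L t ∧ tᶜ ⊆ s} ∪ {s}) ?_ ?_)
  · rintro t (ht | ht)
    · exact INV_mono subset_union_left ht.1
    · rw [mem_singleton_iff.1 ht]
      exact INV_mono subset_union_right hs
  · intro G hG hGf
    by_contra hemp
    apply hcon
    have hG' : (G ∩ {t | A.Definable₁ L t ∧ tᶜ ⊆ s}).Finite := hGf.subset inter_subset_left
    have ht := INV_sInter (L := L) hG' (fun t ht => ht.2.1)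
    have h3 : s = (⋂₀ (G ∩ {t | A.Definable₁ L t ∧ tᶜ ⊆ s}))ᶜ := by
      ext z
      constructor
      · intro hz hz'
        apply hemp
        refine ⟨z, fun t ht => ?_⟩
        rcases hG ht with h | h
        · exact hz' t ⟨ht, h⟩
        · rw [mem_singleton_iff.1 h]
          exact hz
      · intro hz
        by_contra hzs
        apply hz
        intro t ht
        by_contra hzt
        exact hzs (ht.2.2 hzt)
    rw [h3]
    exact INV_compl ht

end Pool.Agent.WOM
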