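import Pool.Agent.WOM.StC
import Pool.Agent.WOM.AUT
import Pool.Agent.WOM.INV
import Pool.Agent.WOM.DEFF

/-! WOM: module ORB, orbits (helper89). -/

set_option autoImplicit false

namespace Pool.Agent.WOM

open FirstOrder.Language Set
open scoped FirstOrder

section
variable {L : FirstOrder.Language.{0, 0}} {U : Type} [L.Structure U]

private theorem ORB_self (A : Set U) (x : U) : x ∈ Orb L A x :=
  ⟨FirstOrder.Language.Equiv.refl L U, fun _ _ => rfl, rfl⟩

private theorem ORB_trans (A : Set U) (x y z : U) (h : y ∈ Orb L A x) (h' : z ∈ Orb L A y) :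
    z ∈ Orb L A x := by
  obtain ⟨g, hg, rfl⟩ := h
  obtain ⟨k, hk, rfl⟩ := h'
  refine ⟨k.comp g, fun a ha => ?_, rfl⟩
  show k (g a) = a
  rw [hg a ha, hk a ha]

private theorem ORB_symmFx {A : Set U} {g : U ≃[L] U} (hg : Fx L A g) : Fx L A g.symm := by
  intro a ha
  have h := hg a ha
  calc g.symm a = g.symm (g a) := by rw [h]
    _ = a := g.symm_apply_apply a

private theorem ORB_symm (A : Set U) (x y : U) (h : y ∈ Orb L A x) : x ∈ Orb L A y := by
  obtain ⟨g, hg, rfl⟩ := h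
  exact ⟨g.symm, ORB_symmFx hg, g.symm_apply_apply x⟩

private theorem ORB_eq (A : Set U) (x y : U) (h : y ∈ Orb L A x) : Orb L A y = Orb L A x := by
  ext z
  exact ⟨fun hz => ORB_trans A x y z h hz, fun hz => ORB_trans A y x z (ORB_symm A x y h) hz⟩

private theorem ORB_im (σ : U ≃[L] U) (A : Set U) (x : U) :
    Orb L (σ '' A) (σ x) = σ '' Orb L A x := by
  ext z
  constructor
  · rintro ⟨g, hg, rfl⟩
    refine ⟨σ.symm (g (σ x)), ⟨σ.symm.comp (g.comp σ), fun a ha => ?_, rfl⟩,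
      σ.apply_symm_apply _⟩
    show σ.symm (g (σ a)) = a
    rw [hg (σ a) (mem_image_of_mem σ ha), σ.symm_apply_apply]
  · rintro ⟨_, ⟨g, hg, rfl⟩, rfl⟩
    refine ⟨σ.comp (g.comp σ.symm), ?_, ?_⟩
    · rintro _ ⟨a, ha, rfl⟩
      show σ (g (σ.symm (σ a))) = σ a
      rw [σ.symm_apply_apply, hg a ha]
    · show σ (g (σ.symm (σ x))) = σ (g x)
      rw [σ.symm_apply_apply]

private theorem ORB_def {A s : Set U} (hs : A.Definable₁ L s) (g : U ≃[L] U) (hg : Fx L A g)
    (x : U) : x ∈ s ↔ g x ∈ s := by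
  unfold Definable₁ at hs
  rw [definable_iff_exists_formula_sum] at hs
  obtain ⟨φ, hφ⟩ := hs
  have key : ∀ z : U, z ∈ s ↔ φ.Realize (Sum.elim (fun a : A => (a : U)) (fun _ : Fin 1 => z)) := by
    intro z
    have h3 := congrArg (fun t : Set (Fin 1 → U) => (fun _ : Fin 1 => z) ∈ t) hφ
    exact iff_of_eq h3
  rw [key, key, ← FirstOrder.Language.StrongHomClass.realize_formula g φ]
  have h4 : g ∘ Sum.elim (fun a : A => (a : U)) (fun _ : Fin 1 => x) =
      Sum.elim (fun a : A => (a : U)) (fun _ : Fin 1 => g x) := by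
    funext i
    rcases i with i | i
    · exact hg i i.2
    · rfl
  rw [h4]

end

theorem thm_ORB (h1 : St_DEF1) : St_ORB := by
  intro L U _ hM
  have hAUT : ∀ (L : FirstOrder.Language.{0, 0}) (U : Type) [L.Structure U], St_AUT L U :=
    fun L U _ => thm_AUT thm_DEFF h1 L U
  obtain ⟨-, h2, h3⟩ := hAUT L U hM
  have hINV := thm_INV hAUT L U hM
  refine ⟨ORB_self, ORB_eq, ?_, ORB_im, ?_, ?_, ?_, ?_, h2⟩
  · rintro A B x hAB y ⟨g, hg, hy⟩
    exact ⟨g, fun a ha => hg a (hAB ha), hy⟩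
  · intro A x hx
    ext y
    constructor
    · rintro ⟨g, hg, rfl⟩
      exact hg x hx
    · intro hy
      rw [mem_singleton_iff.1 hy]
      exact ORB_self A x
  · rintro A s hs x hx y ⟨g, hg, rfl⟩
    exact (ORB_def hs g hg x).1 hx
  · intro A x y hA hy
    have h4 : ¬ Eqv L A x y := fun h => hy ((h3 A x y hA).1 h)
    unfold Eqv at h4
    push Not at h4
    obtain ⟨s, hs, hxy⟩ := h4
    rcases hxy with ⟨h5, h6⟩ | ⟨h5, h6⟩
    · exact ⟨s, hs, h5, h6⟩
    · exact ⟨sᶜ, Set.Definable.compl hs, h5, fun h => h h6⟩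
  · intro A B s hA hB hs h
    refine hINV A B s hA hB hs fun g hg => ?_
    ext x
    constructor
    · rintro ⟨y, hy, rfl⟩
      exact h y hy ⟨g, hg, rfl⟩
    · intro hx
      exact ⟨g.symm x, h x hx ⟨g.symm, ORB_symmFx hg, rfl⟩, g.apply_symm_apply x⟩

end Pool.Agent.WOM
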