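import Pool.Agent.WOM.Defs
import Pool.Agent.VB.A

/-!
WOM: statements of the base part (helper45), with proofs in the docstrings.
-/

set_option autoImplicit false

namespace Pool.Agent.WOM

open FirstOrder.Language Set
open scoped FirstOrder

/-! ### Formulas and definable sets -/

/-- [DEFF].  PROOF.  `definable_iff_exists_formula_sum`; choose for every `x ∈ A = range a` an index,
and conversely map the index `i` to the element `a i` of `A` (`Formula.relabel`). -/
def St_DEFF : Prop :=
  ∀ (L : FirstOrder.Language.{0, 0}) (M : Type) [L.Structure M] (n : ℕ) (a : Fin n → M)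
    (α : Type) (s : Set (α → M)),
    (range a).Definable L s ↔ ∃ φ : L.Formula (Fin n ⊕ α), s = {v | φ.Realize (Sum.elim a v)}

/-- [DEF1].  PROOF.  DEFF with `α = Fin 1` and relabelling along the bijection of `Fin n ⊕ Fin 1` and
`Fin (n+1)`. -/
def St_DEF1 : Prop :=
  ∀ (L : FirstOrder.Language.{0, 0}) (M : Type) [L.Structure M] (n : ℕ) (a : Fin n → M),
    (∀ s : Set M, (range a).Definable₁ L s ↔
      ∃ φ : L.Formula (Fin (n + 1)), s = {x | φ.Realize (Fin.snoc a x : Fin (n + 1) → M)}) ∧
    ∀ x y : M, Eqv L (range a) x y ↔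
      tp (L := L) (Fin.snoc a x : Fin (n + 1) → M) = tp (Fin.snoc a y : Fin (n + 1) → M)

/-! ### Construction of the saturated model -/

section

variable (L : FirstOrder.Language.{0, 0})

/-- saturation over finite tuples, for formulas -/
def SatF (V : Type) [L.Structure V] : Prop :=
  ∀ (n : ℕ) (a : Fin n → V) (F : Set (L.Formula (Fin (n + 1)))),
    (∀ G ⊆ F, G.Finite → ∃ c : V, ∀ φ ∈ G, φ.Realize (Fin.snoc a c : Fin (n + 1) → V)) →
    ∃ c : V, ∀ φ ∈ F, φ.Realize (Fin.snoc a c : Fin (n + 1) → V)

/-- the complete theory of a structure on `ℕ` -/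
def ThS (S : L.Structure ℕ) : L.Theory := @FirstOrder.Language.completeTheory L ℕ S

/-- countably many types of tuples in the models on `ℕ` -/
def Small (T : L.Theory) : Prop :=
  {p : (n : ℕ) × Set (L.Formula (Fin n)) | ∃ S : L.Structure ℕ,
    @FirstOrder.Language.Theory.Model L ℕ S T ∧ ∃ a : Fin p.1 → ℕ, p.2 = @tp L ℕ S p.1 a}.Countable

/-- first alternative -/
def CtT (T : L.Theory) : Prop :=
  ∃ g : ℕ → L.Structure ℕ, ∀ S : L.Structure ℕ,
    @FirstOrder.Language.Theory.Model L ℕ S T →
      ∃ n : ℕ, Nonempty (@FirstOrder.Language.Equiv L ℕ ℕ S (g n))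

/-- second alternative -/
def PerfT (T : L.Theory) : Prop :=
  ∃ f : (ℕ → Bool) → L.Structure ℕ,
    (∀ x : ℕ → Bool, @FirstOrder.Language.Theory.Model L ℕ (f x) T) ∧
    (∀ x y : ℕ → Bool, Nonempty (@FirstOrder.Language.Equiv L ℕ ℕ (f x) (f y)) → x = y) ∧
    (∀ (n : ℕ) (R : L.Relations n) (a : Fin n → ℕ),
      IsClopen {x : ℕ → Bool | @FirstOrder.Language.Structure.RelMap L ℕ (f x) n R a}) ∧
    (∀ (n : ℕ) (F : L.Functions n) (a : Fin n → ℕ) (b : ℕ),
      IsOpen {x : ℕ → Bool | @FirstOrder.Language.Structure.funMap L ℕ (f x) n F a = b})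

end

/-- [ULT].  PROOF.  `V` = the ultrapower of `M` for the hyperfilter on `ℕ` (`Filter.Product`,
`Ultraproduct.realize_formula_cast`, `sentence_realize`).  Saturation: `F = {φ_0, φ_1, ...}` (countable
since `L` is; `F` empty is trivial), `ψ_k` = conjunction of `φ_0, ..., φ_k`, representatives `a_i : ℕ → M`.
`X_k = {i ≥ k : M ⊨ ∃ x ψ_k(a(i), x)}` is in the ultrafilter (Los).  For `i` in `X_0` choose the largest
`k ≤ i` with `i ∈ X_k` and `c(i)` a witness for it.  For `i ∈ X_k` (the `ψ_k` decrease) `ψ_k(a(i), c(i))`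
holds. -/
def St_ULT : Prop :=
  ∀ (L : FirstOrder.Language.{0, 0}), Countable L.Symbols → ∀ S : L.Structure ℕ,
    ∃ (V : Type) (_ : L.Structure V), Nonempty V ∧ V ⊨ ThS L S ∧ SatF L V

/-- [SUBM].  PROOF.  Every tuple of `V` lies in a countable elementary substructure of `V` (downward
Loewenheim-Skolem, `exists_elementarySubstructure_card_eq` or a direct closure; it is infinite
since `V ≡ S`), which is isomorphic to a structure on `ℕ`; so `{⟨n, tp a⟩ : a in V}` is countable
(Small).  For all `n`, `a : Fin n → V` and `c ∈ V` there is a type; so there is a countable `M ⊆ V`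
such that for all `a` in `M` and `c ∈ V` some `c' ∈ M` has `tp (snoc a c') = tp (snoc a c)` (close off
`ω` times: for every tuple `a` of the countable set and each of the countably many types
`tp (snoc a c)` choose one `c`).  `M` is an elementary substructure by Tarski-Vaught
(`Substructure.isElementary_of_exists`), so types in `M` are the types in `V`, and `SatF L M` follows
from `SatF L V`. -/
def St_SUBM : Prop :=
  ∀ (L : FirstOrder.Language.{0, 0}), Countable L.Symbols → ∀ S : L.Structure ℕ,
    Small L (ThS L S) → ∀ (V : Type) [L.Structure V], V ⊨ ThS L S → SatF L V →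
      ∃ (U : Type) (_ : L.Structure U), Countable U ∧ Infinite U ∧ U ⊨ ThS L S ∧ SatF L U

/-- [HOMG].  PROOF.  `sat`: `A = range a` (`Set.Finite`), DEF1.  `hom`: back and forth: if
`tp a = tp b` and `c ∈ U` then SatF gives `d` with `tp (snoc a c) = tp (snoc b d)` (the set of the formulas
`φ` with `φ(a,c)`; finite conjunctions: `∃ x φ(a,x)` is a formula in `tp a = tp b`).  Enumerate `U` and
alternate; the union of the finite maps is a bijection which preserves all formulas, so it is an
`L`-isomorphism (apply it to `R(x)` and `F(x) = y`). -/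
def St_HOMG : Prop :=
  ∀ (L : FirstOrder.Language.{0, 0}) (U : Type) [L.Structure U],
    Countable U → Infinite U → SatF L U → Mon L U

/-- [EMB].  PROOF.  `0, 1, 2, ...` one after the other: given `f` on `{0,..,k-1}` with
`tp^S(0,..,k-1) = tp(f 0,..,f (k-1))`, saturation gives `f k`.  `IsEl`: an `(range f)`-definable set is
definable over `f 0, ..., f (k-1)` for some `k` by a formula (`definable_iff_finitely_definable`, DEF1);
if it is nonempty then `S ⊨ ∃ x φ(0,..,k-1,x)`, take the witness. -/
def St_EMB : Prop :=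
  ∀ (L : FirstOrder.Language.{0, 0}) (U : Type) [L.Structure U], Mon L U → ∀ S : L.Structure ℕ,
    U ⊨ ThS L S → ∃ f : ℕ → U, Function.Injective f ∧
      (∀ (n : ℕ) (a : Fin n → ℕ), @tp L ℕ S n a = tp (L := L) (f ∘ a)) ∧ IsEl L (range f)

/-- [PULL].  PROOF.  `range u` is closed under the functions (`{F(a)}` is definable over `range u` and
nonempty), define the structure on `ℕ` by pulling back; Tarski-Vaught by induction on the formulas
(or `Substructure.isElementary_of_exists`). -/
def St_PULL : Prop :=
  ∀ (L : FirstOrder.Language.{0, 0}) (U : Type) [L.Structure U] (u : ℕ → U),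
    Function.Injective u → IsEl L (range u) → ∃ S : L.Structure ℕ,
      ∀ (n : ℕ) (a : Fin n → ℕ), @tp L ℕ S n a = tp (L := L) (u ∘ a)

/-! ### The space of the structures -/

section

variable {L : FirstOrder.Language.{0, 0}}

variable (L) in
/-- codes of structures on `ℕ` -/
abbrev CodeF : Type :=
  (((n : ℕ) × (L.Relations n × (Fin n → ℕ))) → Bool) ×
    (((n : ℕ) × (L.Functions n × (Fin n → ℕ))) → ℕ)

/-- the structure with a given code -/
@[instance_reducible]
def strF (c : CodeF L) : L.Structure ℕ :=
  { funMap := fun {n} F a => c.2 ⟨n, (F, a)⟩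
    RelMap := fun {n} R a => c.1 ⟨n, (R, a)⟩ = true }

end

/-- [MEAS].  PROOF.  Induction on terms: `{c | t^c(v) = m}` is measurable (a countable union over the
values of the arguments); induction on formulas, compare `measurableSet_realize` in
`Pool/Agent/Helper6/StructFO.lean`.  Polish: countable products. -/
def St_MEAS : Prop :=
  ∀ (L : FirstOrder.Language.{0, 0}), Countable L.Symbols →
    PolishSpace (CodeF L) ∧ BorelSpace (CodeF L) ∧
    ∀ (n k : ℕ) (φ : L.BoundedFormula (Fin n) k) (v : Fin n → ℕ) (w : Fin k → ℕ),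
      MeasurableSet {c : CodeF L |
        @FirstOrder.Language.BoundedFormula.Realize L ℕ (strF c) (Fin n) k φ v w}

/-- [REAL] (perfectly many models from a countable family of Borel invariants).  PROOF.
`Pool.Agent.Helper6.exists_cantor_of_reals` (Pool/Agent/VB/A.lean, the namespace may differ) with
`X = CodeF L`, `B j = {c | strF c ⊨ T}` (measurable: MEAS, countably many sentences), `E` =
isomorphism of `strF c`, `strF d`; `f x = strF (g x)`. -/
def St_REAL : Prop :=
  ∀ (L : FirstOrder.Language.{0, 0}), Countable L.Symbols → ∀ T : L.Theory,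
    ∀ (J I : Type) [Countable J] [Countable I] (Z : J → CodeF L → I → Bool),
      (∀ j i, MeasurableSet {c | Z j c i = true}) →
      (∀ j c d, @FirstOrder.Language.Theory.Model L ℕ (strF c) T →
        @FirstOrder.Language.Theory.Model L ℕ (strF d) T →
        Nonempty (@FirstOrder.Language.Equiv L ℕ ℕ (strF c) (strF d)) → ∃ k, Z j c = Z k d) →
      ¬ (⋃ j, Z j '' {c | @FirstOrder.Language.Theory.Model L ℕ (strF c) T}).Countable →
      PerfT L T

/-- [INC].  PROOF.  REAL with `J = Unit`, `Z c σ = (strF c ⊨ σ)`: either `PerfT L T` or the models of `T` on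
`ℕ` have countably many complete theories `ThS S`.  In the latter case: if one of them has
`PerfT` then so does `T` (models of `ThS S` are models of `T`); otherwise all have `CtT` and the
countable union of the lists shows `CtT L T`. -/
def St_INC : Prop :=
  ∀ (L : FirstOrder.Language.{0, 0}), Countable L.Symbols → ∀ T : L.Theory,
    (∀ S : L.Structure ℕ, @FirstOrder.Language.Theory.Model L ℕ S T →
      CtT L (ThS L S) ∨ PerfT L (ThS L S)) → CtT L T ∨ PerfT L T

/-- [NSM].  PROOF.  REAL with `J = (n : ℕ) × (Fin n → ℕ)`, `I = (n : ℕ) × L.Formula (Fin n)`,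
`Z ⟨n, a⟩ c ⟨m, φ⟩ = (n = m and strF c ⊨ φ(a))` (cast); every structure on `ℕ` is `strF c` for its code. -/
def St_NSM : Prop :=
  ∀ (L : FirstOrder.Language.{0, 0}), Countable L.Symbols → ∀ T : L.Theory,
    ¬ Small L T → PerfT L T

/-! ### Transfer -/

/-- [TRC].  PROOF.  EMB for every model `S`, isomorphic to `range f`; CtU gives countably many
classes; for every `n` choose (if possible) a model `S_n` on `ℕ` with `IsoM (range f) (g n)`. -/
def St_TRC : Prop :=
  ∀ (L : FirstOrder.Language.{0, 0}) (U : Type) [L.Structure U], Mon L U → CtU L U →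
    ∀ S : L.Structure ℕ, U ⊨ ThS L S → CtT L (ThS L S)

/-- [TRP].  PROOF.  PULL for every `u x`: `f x`.  It is a model of `ThS S` (types of the empty tuple).
Atomic formulas are formulas, so the relations and functions of `f x` are determined by the values
of `u x` at finitely many places and (functions) one more value; `Fam.cont`.  An isomorphism of
`f x` and `f y` gives `IsoM (range (u x)) (range (u y))`. -/
def St_TRP : Prop :=
  ∀ (L : FirstOrder.Language.{0, 0}) (U : Type) [L.Structure U], Mon L U → PfU L U →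
    ∀ S : L.Structure ℕ, U ⊨ ThS L S → PerfT L (ThS L S)

/-- [TRW].  PROOF.  `U` is isomorphic to a structure on `ℕ` (countable, infinite) which is a model
of `T`. Both properties are invariant under isomorphism. -/
def St_TRW : Prop :=
  ∀ (L : FirstOrder.Language.{0, 0}) (T : L.Theory) (lt : L.Formula (Fin 2)),
    (∀ S : L.Structure ℕ, @FirstOrder.Language.Theory.Model L ℕ S T →
      @WOMin L ℕ S lt ∧ @NoAdic L ℕ S) →
    ∀ (U : Type) [L.Structure U], Countable U → Infinite U → U ⊨ T → WOMin U lt ∧ NoAdic L U

/-- [TOP].  Assembly. -/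
def St_TOP : Prop := St_NAU → St_NA

/-! ### Tools in the saturated model -/

section

variable (L : FirstOrder.Language.{0, 0}) (U : Type) [L.Structure U]

/-- [AUT].  Automorphisms, over finite sets `A`.  PROOF.  (1) the image of a definable set under an
automorphism is definable over the image of the parameters (`StrongHomClass.realize_formula`).
(2) `A = range a`, DEF1, `Mon.hom` for `snoc a x`, `snoc a y`. (3) from (1). -/
def St_AUT : Prop := Mon L U →
  (∀ (g : U ≃[L] U) (A : Set U) (k : ℕ) (s : Set (Fin k → U)), A.Definable L s →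
    (g '' A).Definable L ((fun v => g ∘ v) '' s)) ∧
  (∀ (g : U ≃[L] U) (A : Set U) (s : Set U), A.Definable₁ L s → (g '' A).Definable₁ L (g '' s)) ∧
  (∀ (A : Set U) (x y : U), A.Finite → (Eqv L A x y ↔
    ∃ g : U ≃[L] U, (∀ a ∈ A, g a = a) ∧ g x = y))

/-- [INV] (invariant definable sets).  PROOF.  For `x ∈ s`, `y ∉ s` some `A`-definable set contains `x`
and not `y` (otherwise `Eqv L A x y`, an automorphism over `A` maps `x` to `y`, contradiction).  Let
`x ∈ s`: the `A`-definable sets containing `x` and the complement of `s` have no common point, so by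
saturation (over `A ∪ B`) finitely many of them have none: there is an `A`-definable `t` with
`x ∈ t ⊆ s`.  The complements of these `t` and `s` have no common point: finitely many `t` cover `s`. -/
def St_INV : Prop := Mon L U →
  ∀ (A B : Set U) (s : Set U), A.Finite → B.Finite → B.Definable₁ L s →
    (∀ g : U ≃[L] U, (∀ a ∈ A, g a = a) → g '' s = s) → A.Definable₁ L s

/-- [CPL].  PROOF.  `→`: `s` is `B`-definable with `c ∈ s`, `t`: `y ∈ t`; if `t ⊆ sᶜ` then `c ∉ s`.  `←`: let `s`
be `B`-definable, say `c ∈ s` (otherwise use the complement).  The `A`-definable sets containing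
`c` and `sᶜ` have no common point (such a `y` has `Eqv A c y`, so `Eqv B c y`, `y ∈ s`).  Saturation over
`A ∪ B`. -/
def St_CPL : Prop := Mon L U →
  ∀ (A B : Set U) (c : U), A.Finite → B.Finite → A ⊆ B →
    (CplE L A B c ↔ ∀ y, Eqv L A c y → Eqv L B c y)

/-- [WO] (symmetry of weak orthogonality).  PROOF.  CPL and AUT: suppose the type of `c` over `A` is
complete over `A a`, and `Eqv A a a'`.  `g` over `A` with `g a' = a`; `Eqv A c (g c)`, so `Eqv (A a) c (g c)`:
`h` over `A a` with `h (g c) = c`.  `h g` fixes `A` and `c` and maps `a'` to `a`. -/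
def St_WO : Prop := Mon L U →
  ∀ (A : Set U) (a c : U), A.Finite → CplE L A (insert a A) c → CplE L A (insert c A) a

/-- [DEC] (decoding by parameters).  `Q n M a`: a property of the model `M` and a `k`-tuple `a` in it.
PROOF.  `exists_cantor_of_decode` (Pool/Agent/VB/A.lean) with `ι = Fin k → ℕ`,
`D i n = {y | Q n (range (u y)) (u y ∘ i)}` and `E x y = IsoM (range (u x)) (range (u y))`: if `e` is the
isomorphism, `i` = the positions of the `e (u x j)`, `j < k`, in the enumeration `u y`. -/
def St_DEC : Prop := Mon L U →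
  ∀ (k : ℕ) (Q : ℕ → Set U → (Fin k → U) → Prop) (u : (ℕ → Bool) → ℕ → U), Fam L u →
    (∀ (n : ℕ) (M M' : Set U) (e : M ≃ M'), (∀ (m : ℕ) (a : Fin m → M),
      tp (L := L) (fun i => (a i : U)) = tp (fun i => (e (a i) : U))) → ∀ a : Fin k → M,
      Q n M (fun i => a i) → Q n M' (fun i => e (a i))) →
    (∀ x n, Q n (range (u x)) (fun j => u x j) ↔ x n = true) →
    (∀ (n : ℕ) (i : Fin k → ℕ), MeasurableSet {x | Q n (range (u x)) (u x ∘ i)}) →
    PfU L U

/-- [BFM] (back and forth).  PROOF.  Enumerate `M` and `M'`, alternate; the union of the finite maps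
`g` restricted to `A` is the isomorphism (tuples have the same type by
`StrongHomClass.realize_formula`). -/
def St_BFM : Prop :=
  ∀ (M M' : Set U), M.Countable → M'.Countable → ∀ P : Set U → (U ≃[L] U) → Prop,
    (∃ A g, A.Finite ∧ A ⊆ M ∧ P A g) →
    (∀ A g, A.Finite → A ⊆ M → P A g → g '' A ⊆ M') →
    (∀ A g, A.Finite → A ⊆ M → P A g → ∀ x ∈ M, ∃ g' : U ≃[L] U, (∀ a ∈ A, g' a = g a) ∧
      P (insert x A) g') →
    (∀ A g, A.Finite → A ⊆ M → P A g → ∀ y ∈ M', ∃ g' : U ≃[L] U, ∃ x ∈ M,
      (∀ a ∈ A, g' a = g a) ∧ g' x = y ∧ P (insert x A) g') →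
    IsoM L M M'

end

end Pool.Agent.WOM
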