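import Pool.Agent.WOM.StB

/-!
WOM, module PULL: the structure on `ℕ` of an enumerated elementary submodel.
-/

set_option autoImplicit false

namespace Pool.Agent.WOM

open FirstOrder.Language Set
open scoped FirstOrder

/-- sets given by a formula with parameters in `M` -/
private theorem PULL_def (h1 : St_DEF1) (L : FirstOrder.Language.{0, 0}) (U : Type) [L.Structure U]
    (M : Set U) (n : ℕ) (x : Fin n → U) (hx : ∀ i, x i ∈ M) (φ : L.Formula (Fin (n + 1))) :
    M.Definable₁ L {y | φ.Realize (Fin.snoc x y : Fin (n + 1) → U)} := by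
  have h2 := ((h1 L U n x).1 {y | φ.Realize (Fin.snoc x y : Fin (n + 1) → U)}).2 ⟨φ, rfl⟩
  refine Set.Definable.mono h2 ?_
  rintro _ ⟨i, rfl⟩
  exact hx i

theorem thm_PULL (h1 : St_DEF1) : St_PULL := by
  intro L U _ u hu hel
  -- closed under the functions
  have hfun : ∀ {n : ℕ} (F : L.Functions n) (x : Fin n → U), (∀ i, x i ∈ range u) →
      FirstOrder.Language.Structure.funMap F x ∈ range u := by
    intro n F x hx
    let φ : L.Formula (Fin (n + 1)) :=
      Term.equal (Term.func F fun i => Term.var i.castSucc) (Term.var (Fin.last n))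
    obtain ⟨y, hy, hyu⟩ := hel _ (PULL_def h1 L U (range u) n x hx φ)
      ⟨FirstOrder.Language.Structure.funMap F x, by
        show φ.Realize _
        simp [φ, Formula.realize_equal, Term.realize_func]⟩
    have h2 : φ.Realize (Fin.snoc x y : Fin (n + 1) → U) := hy
    have h3 : FirstOrder.Language.Structure.funMap F x = y := by
      simpa [φ, Formula.realize_equal, Term.realize_func] using h2
    rw [h3]
    exact hyu
  let N : L.Substructure U := ⟨range u, fun F x hx => hfun F x hx⟩
  have hN : N.IsElementary := by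
    apply Substructure.isElementary_of_exists
    intro n φ x a ha
    let ψ : L.Formula (Fin (n + 1)) :=
      (BoundedFormula.toFormula φ).relabel (Sum.elim Empty.elim id : Empty ⊕ Fin (n + 1) → Fin (n + 1))
    have hψ : ∀ v : Fin (n + 1) → U, ψ.Realize v ↔ φ.Realize default v := by
      intro v
      simp only [ψ, Formula.realize_relabel, BoundedFormula.realize_toFormula]
      have h2 : ((v ∘ (Sum.elim Empty.elim id : Empty ⊕ Fin (n + 1) → Fin (n + 1))) ∘ Sum.inl :
          Empty → U) = default := Subsingleton.elim _ _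
      have h3 : ((v ∘ (Sum.elim Empty.elim id : Empty ⊕ Fin (n + 1) → Fin (n + 1))) ∘ Sum.inr) = v :=
        rfl
      rw [h2, h3]
    obtain ⟨y, hy, hyu⟩ := hel _ (PULL_def h1 L U (range u) n (fun i => (x i : U))
      (fun i => (x i).2) ψ)
      ⟨a, (hψ _).2 ha⟩
    exact ⟨⟨y, hyu⟩, (hψ _).1 hy⟩
  let e : ℕ ≃ N := Equiv.ofBijective (fun n => (⟨u n, ⟨n, rfl⟩⟩ : N))
    ⟨fun i j hij => hu (congrArg Subtype.val hij), fun ⟨_, n, hn⟩ => ⟨n, Subtype.ext hn⟩⟩
  refine ⟨e.symm.inducedStructure, fun n a => ?_⟩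
  let _ : L.Structure ℕ := e.symm.inducedStructure
  ext φ
  have h2 : φ.Realize a ↔ φ.Realize (e ∘ a) := by
    have h3 := StrongHomClass.realize_formula (e.symm.inducedStructureEquiv (L := L)) φ
      (v := e ∘ a)
    rw [← h3]
    have h4 : ⇑(e.symm.inducedStructureEquiv (L := L)) ∘ (e ∘ a) = a := by
      funext i
      show e.symm (e (a i)) = a i
      exact e.symm_apply_apply _
    rw [h4]
  have h3 : φ.Realize (((↑) : N → U) ∘ (e ∘ a)) ↔ φ.Realize (e ∘ a) := hN φ (e ∘ a)
  show φ.Realize a ↔ φ.Realize (u ∘ a)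
  rw [h2, ← h3]
  rfl

end Pool.Agent.WOM
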