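import Pool.Agent.WOM.StB

/-!
WOM, [EMB]: embedding of countable models in the saturated model (helper49).
-/

set_option autoImplicit false

namespace Pool.Agent.WOM

open FirstOrder.Language Set
open scoped FirstOrder

section gen

variable {L : FirstOrder.Language.{0, 0}}

/-- the formula `∃ x, φ (v, x)` -/
noncomputable def EMB_ex {n : ℕ} (φ : L.Formula (Fin (n + 1))) : L.Formula (Fin n) :=
  (φ.relabel (Fin.snoc (fun i => Sum.inl i) (Sum.inr 0) : Fin (n + 1) → Fin n ⊕ Fin 1)).iExs (Fin 1)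

theorem EMB_snoc {M : Type} {n : ℕ} (v : Fin n → M) (i : Fin 1 → M) :
    Sum.elim v i ∘ (Fin.snoc (fun i => Sum.inl i) (Sum.inr 0) : Fin (n + 1) → Fin n ⊕ Fin 1) =
      (Fin.snoc v (i 0) : Fin (n + 1) → M) := by
  funext k
  refine Fin.lastCases ?_ (fun k => ?_) k
  · simp
  · simp

theorem EMB_ex_realize {M : Type} [L.Structure M] {n : ℕ} (φ : L.Formula (Fin (n + 1)))
    (v : Fin n → M) :
    (EMB_ex φ).Realize v ↔ ∃ x : M, φ.Realize (Fin.snoc v x : Fin (n + 1) → M) := by
  unfold EMB_ex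
  rw [FirstOrder.Language.Formula.realize_iExs]
  constructor
  · rintro ⟨i, hi⟩
    rw [FirstOrder.Language.Formula.realize_relabel, EMB_snoc] at hi
    exact ⟨i 0, hi⟩
  · rintro ⟨x, hx⟩
    refine ⟨fun _ => x, ?_⟩
    rw [FirstOrder.Language.Formula.realize_relabel, EMB_snoc]
    exact hx

variable {M U : Type} [L.Structure M] [L.Structure U]

theorem EMB_relabel {n k : ℕ} (b : Fin n → M) (a : Fin n → U) (h : tp (L := L) b = tp a)
    (g : Fin k → Fin n) : tp (L := L) (b ∘ g) = tp (a ∘ g) := by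
  ext φ
  have h1 : φ.relabel g ∈ tp (L := L) b ↔ φ.relabel g ∈ tp (L := L) a := by rw [h]
  unfold tp at h1 ⊢
  rw [mem_setOf_eq, mem_setOf_eq, FirstOrder.Language.Formula.realize_relabel,
    FirstOrder.Language.Formula.realize_relabel] at h1
  exact h1

theorem EMB_step (h1 : St_DEF1) (hU : Mon L U) {n : ℕ} (b : Fin n → M) (a : Fin n → U)
    (h : tp (L := L) b = tp a) (c : M) :
    ∃ c' : U, tp (L := L) (Fin.snoc b c : Fin (n + 1) → M) = tp (Fin.snoc a c' : Fin (n + 1) → U) := by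
  have h2 : (⋂₀ {s : Set U | ∃ φ ∈ tp (L := L) (Fin.snoc b c : Fin (n + 1) → M),
      s = {x | φ.Realize (Fin.snoc a x : Fin (n + 1) → U)}}).Nonempty := by
    apply hU.sat (range a) (finite_range a)
    · rintro s ⟨φ, -, rfl⟩
      exact ((h1 L U n a).1 _).2 ⟨φ, rfl⟩
    · intro G hG hGf
      have hGf' : Finite G := hGf
      have h3 : ∀ s : G, ∃ φ ∈ tp (L := L) (Fin.snoc b c : Fin (n + 1) → M),
          (s : Set U) = {x | φ.Realize (Fin.snoc a x : Fin (n + 1) → U)} := fun s => hG s.2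
      choose f hf hf' using h3
      have h4 : EMB_ex (FirstOrder.Language.Formula.iInf f) ∈ tp (L := L) b := by
        unfold tp
        rw [mem_setOf_eq, EMB_ex_realize]
        refine ⟨c, ?_⟩
        rw [FirstOrder.Language.Formula.realize_iInf]
        exact fun s => hf s
      rw [h] at h4
      unfold tp at h4
      rw [mem_setOf_eq, EMB_ex_realize] at h4
      obtain ⟨x, hx⟩ := h4
      rw [FirstOrder.Language.Formula.realize_iInf] at hx
      refine ⟨x, fun s hs => ?_⟩
      have h5 := hx ⟨s, hs⟩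
      have h6 := hf' ⟨s, hs⟩
      have h7 : s = {x | (f ⟨s, hs⟩).Realize (Fin.snoc a x : Fin (n + 1) → U)} := h6
      rw [h7]
      exact h5
  obtain ⟨c', hc'⟩ := h2
  have h3 : ∀ φ ∈ tp (L := L) (Fin.snoc b c : Fin (n + 1) → M),
      φ ∈ tp (L := L) (Fin.snoc a c' : Fin (n + 1) → U) := by
    intro φ hφ
    exact hc' _ ⟨φ, hφ, rfl⟩
  refine ⟨c', Set.Subset.antisymm h3 ?_⟩
  intro φ hφ
  by_contra h4
  have h5 : φ.not ∈ tp (L := L) (Fin.snoc b c : Fin (n + 1) → M) := by
    unfold tp at h4 ⊢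
    rw [mem_setOf_eq] at h4 ⊢
    rw [FirstOrder.Language.Formula.realize_not]
    exact h4
  have h6 := h3 _ h5
  unfold tp at h6 hφ
  rw [mem_setOf_eq] at h6 hφ
  rw [FirstOrder.Language.Formula.realize_not] at h6
  exact h6 hφ

theorem EMB_zero (h : ∀ σ : L.Sentence, U ⊨ σ ↔ M ⊨ σ) (b : Fin 0 → M) (a : Fin 0 → U) :
    tp (L := L) b = tp a := by
  ext φ
  have h1 := h (φ.relabel (Fin.elim0 : Fin 0 → Empty))
  unfold FirstOrder.Language.Sentence.Realize at h1
  rw [FirstOrder.Language.Formula.realize_relabel,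
    FirstOrder.Language.Formula.realize_relabel] at h1
  unfold tp
  rw [mem_setOf_eq, mem_setOf_eq, Subsingleton.elim b ((default : Empty → M) ∘ Fin.elim0),
    Subsingleton.elim a ((default : Empty → U) ∘ Fin.elim0)]
  exact h1.symm

theorem EMB_seq (h1 : St_DEF1) (hU : Mon L U) (h : ∀ σ : L.Sentence, U ⊨ σ ↔ M ⊨ σ)
    (m : ℕ → M) : ∃ f : ℕ → U, ∀ n, tp (L := L) (fun i : Fin n => m i) =
      tp (fun i : Fin n => f i) := by
  have key : ∀ (n : ℕ) (a : Fin n → U), tp (L := L) (fun i : Fin n => m i) = tp a →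
      ∃ c' : U, tp (L := L) (fun i : Fin (n + 1) => m i) = tp (Fin.snoc a c' : Fin (n + 1) → U) := by
    intro n a ha
    obtain ⟨c', hc'⟩ := EMB_step h1 hU (fun i : Fin n => m i) a ha (m n)
    refine ⟨c', ?_⟩
    rw [← hc']
    congr 1
    funext k
    refine Fin.lastCases ?_ (fun k => ?_) k
    · simp
    · simp
  choose g hg using key
  let A : (n : ℕ) → {a : Fin n → U // tp (L := L) (fun i : Fin n => m i) = tp a} := fun n =>
    Nat.rec ⟨Fin.elim0, EMB_zero h _ _⟩
      (fun n a => ⟨(Fin.snoc a.1 (g n a.1 a.2) : Fin (n + 1) → U), hg n a.1 a.2⟩) n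
  let f : ℕ → U := fun n => g n (A n).1 (A n).2
  have hA : ∀ n, (A n).1 = fun i : Fin n => f i := by
    intro n
    induction n with
    | zero => exact Subsingleton.elim _ _
    | succ n ih =>
      have h2 : (A (n + 1)).1 = (Fin.snoc (A n).1 (f n) : Fin (n + 1) → U) := rfl
      rw [h2, ih]
      funext k
      refine Fin.lastCases ?_ (fun k => ?_) k
      · simp
      · simp
  refine ⟨f, fun n => ?_⟩
  rw [← hA n]
  exact (A n).2

theorem EMB_main (h1 : St_DEF1) (hU : Mon L U) (h : ∀ σ : L.Sentence, U ⊨ σ ↔ M ⊨ σ)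
    (m : ℕ → M) (hm : Function.Injective m) (hm' : Function.Surjective m) :
    ∃ f : ℕ → U, Function.Injective f ∧
      (∀ (n : ℕ) (a : Fin n → ℕ), tp (L := L) (m ∘ a) = tp (f ∘ a)) ∧ IsEl L (range f) := by
  obtain ⟨f, hf⟩ := EMB_seq h1 hU h m
  have htp : ∀ (n : ℕ) (a : Fin n → ℕ), tp (L := L) (m ∘ a) = tp (f ∘ a) := by
    intro n a
    let N : ℕ := Finset.univ.sup a + 1
    have hN : ∀ i, a i < N := fun i =>
      Nat.lt_succ_of_le (Finset.le_sup (f := a) (Finset.mem_univ i))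
    exact EMB_relabel (fun i : Fin N => m i) (fun i : Fin N => f i) (hf N) (fun i => ⟨a i, hN i⟩)
  refine ⟨f, ?_, htp, ?_⟩
  · intro i j hij
    have h2 := htp 2 ![i, j]
    have h3 : (FirstOrder.Language.Term.equal (FirstOrder.Language.var 0)
        (FirstOrder.Language.var 1) : L.Formula (Fin 2)) ∈ tp (L := L) (f ∘ ![i, j]) := by
      unfold tp
      rw [mem_setOf_eq, FirstOrder.Language.Formula.realize_equal]
      simpa using hij
    rw [← h2] at h3
    unfold tp at h3
    rw [mem_setOf_eq, FirstOrder.Language.Formula.realize_equal] at h3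
    have h4 : m i = m j := by simpa using h3
    exact hm h4
  · intro s hs hne
    unfold Set.Definable₁ at hs
    rw [definable_iff_finitely_definable] at hs
    obtain ⟨A0, hA0, hs⟩ := hs
    -- the parameters are among `f 0, ..., f (N-1)`
    obtain ⟨N, hN⟩ : ∃ N : ℕ, (A0 : Set U) ⊆ range (fun i : Fin N => f i) := by
      have h2 : ∀ x : A0, ∃ i : ℕ, f i = x := fun x => hA0 x.2
      choose g hg using h2
      refine ⟨Finset.univ.sup g + 1, ?_⟩
      intro x hx
      exact ⟨⟨g ⟨x, hx⟩, Nat.lt_succ_of_le (Finset.le_sup (f := g) (Finset.mem_univ _))⟩, hg ⟨x, hx⟩⟩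
    have hs' : (range (fun i : Fin N => f i)).Definable₁ L s := hs.mono hN
    obtain ⟨φ, rfl⟩ := ((h1 L U N (fun i : Fin N => f i)).1 s).1 hs'
    obtain ⟨x, hx⟩ := hne
    have h3 : EMB_ex φ ∈ tp (L := L) (fun i : Fin N => f i) := by
      unfold tp
      rw [mem_setOf_eq, EMB_ex_realize]
      exact ⟨x, hx⟩
    rw [← hf N] at h3
    unfold tp at h3
    rw [mem_setOf_eq, EMB_ex_realize] at h3
    obtain ⟨y, hy⟩ := h3
    obtain ⟨k, rfl⟩ := hm' y
    refine ⟨f k, ?_, ⟨k, rfl⟩⟩
    have h4 := htp (N + 1) (Fin.snoc (fun i : Fin N => (i : ℕ)) k : Fin (N + 1) → ℕ)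
    have h5 : m ∘ (Fin.snoc (fun i : Fin N => (i : ℕ)) k : Fin (N + 1) → ℕ) =
        (Fin.snoc (fun i : Fin N => m i) (m k) : Fin (N + 1) → M) := by
      funext l
      refine Fin.lastCases ?_ (fun l => ?_) l
      · simp
      · simp
    have h6 : f ∘ (Fin.snoc (fun i : Fin N => (i : ℕ)) k : Fin (N + 1) → ℕ) =
        (Fin.snoc (fun i : Fin N => f i) (f k) : Fin (N + 1) → U) := by
      funext l
      refine Fin.lastCases ?_ (fun l => ?_) l
      · simp
      · simp
    rw [h5, h6] at h4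
    have h7 : φ ∈ tp (L := L) (Fin.snoc (fun i : Fin N => m i) (m k) : Fin (N + 1) → M) := hy
    rw [h4] at h7
    exact h7

end gen

theorem thm_EMB (h1 : St_DEF1) : St_EMB := by
  intro L U _ hU S hUS
  let _ : L.Structure ℕ := S
  have h : ∀ σ : L.Sentence, U ⊨ σ ↔ ℕ ⊨ σ := by
    have hUS' : U ⊨ L.completeTheory ℕ := hUS
    exact fun σ => FirstOrder.Language.realize_iff_of_model_completeTheory ℕ U σ
  exact EMB_main h1 hU h id Function.injective_id Function.surjective_id

end Pool.Agent.WOM
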