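import Pool.Agent.WOM.StB

/-!
WOM, module TRP: perfectly many elementary submodels give perfectly many models on `ℕ` (helper89).
-/

set_option autoImplicit false

namespace Pool.Agent.WOM

open FirstOrder.Language Set
open scoped FirstOrder

section

variable {L : FirstOrder.Language.{0, 0}} {U : Type} [L.Structure U]

theorem TRP_mem (S : L.Structure ℕ) (w : ℕ → U)
    (h : ∀ (n : ℕ) (a : Fin n → ℕ), @tp L ℕ S n a = tp (L := L) (w ∘ a)) (n : ℕ)
    (φ : L.Formula (Fin n)) (a : Fin n → ℕ) :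
    @FirstOrder.Language.Formula.Realize L ℕ S (Fin n) φ a ↔ φ.Realize (w ∘ a) := by
  have h1 : φ ∈ @tp L ℕ S n a ↔ φ ∈ tp (L := L) (w ∘ a) := by rw [h n a]
  exact h1

theorem TRP_sent (S : L.Structure ℕ) (w : ℕ → U)
    (h : ∀ (n : ℕ) (a : Fin n → ℕ), @tp L ℕ S n a = tp (L := L) (w ∘ a)) (φ : L.Sentence) :
    @FirstOrder.Language.Sentence.Realize L ℕ S φ ↔ U ⊨ φ := by
  have h1 := TRP_mem S w h 0 (FirstOrder.Language.Formula.relabel (Empty.elim : Empty → Fin 0) φ)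
    Fin.elim0
  have h2 := @FirstOrder.Language.Formula.realize_relabel L ℕ S Empty (Fin 0) φ Empty.elim Fin.elim0
  have h3 := FirstOrder.Language.Formula.realize_relabel (M := U) (φ := φ)
    (g := (Empty.elim : Empty → Fin 0)) (v := w ∘ Fin.elim0)
  rw [h2, h3] at h1
  unfold FirstOrder.Language.Sentence.Realize
  have e1 : ∀ v : Empty → ℕ, (Fin.elim0 : Fin 0 → ℕ) ∘ (Empty.elim : Empty → Fin 0) = v :=
    fun v => Subsingleton.elim _ _
  have e2 : ∀ v : Empty → U,
      (w ∘ (Fin.elim0 : Fin 0 → ℕ)) ∘ (Empty.elim : Empty → Fin 0) = v :=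
    fun v => Subsingleton.elim _ _
  rw [e1, e2] at h1
  exact h1

theorem TRP_open {u : (ℕ → Bool) → ℕ → U} (hu : ∀ (n : ℕ) (v : U),
    IsOpen {x : ℕ → Bool | u x n = v}) (n : ℕ) (a : Fin n → ℕ) (P : (Fin n → U) → Prop) :
    IsOpen {x : ℕ → Bool | P (u x ∘ a)} := by
  have h1 : {x : ℕ → Bool | P (u x ∘ a)} =
      ⋃ v : {v : Fin n → U // P v}, ⋂ i : Fin n, {x : ℕ → Bool | u x (a i) = v.1 i} := by
    ext x
    rw [mem_iUnion]
    constructor
    · intro hx
      exact ⟨⟨u x ∘ a, hx⟩, mem_iInter.2 fun i => rfl⟩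
    · rintro ⟨⟨v, hv⟩, hx⟩
      have h2 : u x ∘ a = v := funext fun i => mem_iInter.1 hx i
      rw [← h2] at hv
      exact hv
  rw [h1]
  exact isOpen_iUnion fun v => isOpen_iInter_of_finite fun i => hu _ _

theorem TRP_clopen {u : (ℕ → Bool) → ℕ → U} (hu : ∀ (n : ℕ) (v : U),
    IsOpen {x : ℕ → Bool | u x n = v}) (n : ℕ) (a : Fin n → ℕ) (P : (Fin n → U) → Prop) :
    IsClopen {x : ℕ → Bool | P (u x ∘ a)} := by
  refine ⟨⟨?_⟩, TRP_open hu n a P⟩
  exact TRP_open hu n a fun v => ¬ P v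

theorem TRP_iso {u w : ℕ → U} (hu : Function.Injective u) (hw : Function.Injective w)
    (S T : L.Structure ℕ)
    (hS : ∀ (n : ℕ) (a : Fin n → ℕ), @tp L ℕ S n a = tp (L := L) (u ∘ a))
    (hT : ∀ (n : ℕ) (a : Fin n → ℕ), @tp L ℕ T n a = tp (L := L) (w ∘ a))
    (e : @FirstOrder.Language.Equiv L ℕ ℕ S T) : IsoM L (range u) (range w) := by
  obtain ⟨f, hf⟩ : ∃ f : ℕ ≃ ℕ, ∀ (n : ℕ) (a : Fin n → ℕ), @tp L ℕ S n a = @tp L ℕ T n (f ∘ a) := by
    refine ⟨@FirstOrder.Language.Equiv.toEquiv L ℕ ℕ S T e, fun n a => ?_⟩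
    ext φ
    exact (@FirstOrder.Language.StrongHomClass.realize_formula L ℕ ℕ S T _ _ _ _ e φ a).symm
  refine ⟨(Equiv.ofInjective u hu).symm.trans (f.trans (Equiv.ofInjective w hw)), fun n a => ?_⟩
  obtain ⟨b, hb⟩ : ∃ b : Fin n → ℕ, b = fun i => (Equiv.ofInjective u hu).symm (a i) := ⟨_, rfl⟩
  have h1 : (fun i => (a i : U)) = u ∘ b := by
    funext i
    rw [hb]
    exact (congrArg Subtype.val ((Equiv.ofInjective u hu).apply_symm_apply (a i))).symm
  have h2 : (fun i => ((((Equiv.ofInjective u hu).symm.trans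
      (f.trans (Equiv.ofInjective w hw))) (a i) : range w) : U)) = w ∘ (f ∘ b) := by
    funext i
    rw [hb]
    rfl
  rw [h1, h2, ← hS, hf, hT]

end

theorem thm_TRP (h1 : St_PULL) : St_TRP := by
  intro L U _ _ hP S hS
  obtain ⟨u, hfam, hinj⟩ := hP
  choose f hf using fun x => h1 L U (u x) (hfam.inj x) (hfam.el x)
  refine ⟨f, fun x => ?_, fun x y hxy => ?_, fun n R a => ?_, fun n F a b => ?_⟩
  · rw [@FirstOrder.Language.Theory.model_iff L ℕ (f x)]
    intro φ hφ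
    rw [FirstOrder.Language.Theory.model_iff] at hS
    exact (TRP_sent (f x) (u x) (hf x) φ).2 (hS φ hφ)
  · obtain ⟨e⟩ := hxy
    exact hinj x y (TRP_iso (hfam.inj x) (hfam.inj y) (f x) (f y) (hf x) (hf y) e)
  · have h2 : {x : ℕ → Bool | @FirstOrder.Language.Structure.RelMap L ℕ (f x) n R a} =
        {x : ℕ → Bool | (R.formula (fun i : Fin n => (var i : L.Term (Fin n)))).Realize
          (u x ∘ a)} := by
      ext x
      rw [mem_ofPred_eq, mem_ofPred_eq, ← TRP_mem (f x) (u x) (hf x)]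
      let _ : L.Structure ℕ := f x
      exact (FirstOrder.Language.Formula.realize_rel (L := L) (M := ℕ) (R := R)
        (ts := fun i : Fin n => (var i : L.Term (Fin n))) (v := a)).symm
    rw [h2]
    exact TRP_clopen hfam.cont n a _
  · have h2 : {x : ℕ → Bool | @FirstOrder.Language.Structure.funMap L ℕ (f x) n F a = b} =
        {x : ℕ → Bool | (FirstOrder.Language.Formula.graph F).Realize
          (u x ∘ (Fin.cons b a : Fin (n + 1) → ℕ))} := by
      ext x
      rw [mem_ofPred_eq, mem_ofPred_eq, ← TRP_mem (f x) (u x) (hf x)]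
      exact (@FirstOrder.Language.Formula.realize_graph L ℕ (f x) n F a b).symm
    rw [h2]
    exact TRP_open hfam.cont (n + 1) (Fin.cons b a) _

end Pool.Agent.WOM
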