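import Pool.Agent.WOM.StB

/-!
WOM [HOMG]: a countable saturated structure is homogeneous (helper18).
-/

set_option autoImplicit false

namespace Pool.Agent.WOM

open FirstOrder.Language Set
open scoped FirstOrder

section

variable {L : FirstOrder.Language.{0, 0}} {U : Type} [L.Structure U]

/-- existential quantification over the last variable -/
theorem HOMG_ex {n : ℕ} (φ : L.Formula (Fin (n + 1))) :
    ∃ ψ : L.Formula (Fin n), ∀ a : Fin n → U,
      ψ.Realize a ↔ ∃ c : U, φ.Realize (Fin.snoc a c : Fin (n + 1) → U) := by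
  let σ : Fin (n + 1) → Fin n ⊕ Fin 1 :=
    Fin.snoc (α := fun _ => Fin n ⊕ Fin 1) (fun j => Sum.inl j) (Sum.inr 0)
  refine ⟨FirstOrder.Language.Formula.iExs (Fin 1) (φ.relabel σ), fun a => ?_⟩
  rw [FirstOrder.Language.Formula.realize_iExs]
  have h : ∀ i : Fin 1 → U, (Sum.elim a i ∘ σ) = (Fin.snoc a (i 0) : Fin (n + 1) → U) := by
    intro i
    funext j
    refine Fin.lastCases ?_ (fun j => ?_) j
    · show Sum.elim a i (σ (Fin.last n)) = _
      simp only [σ, Fin.snoc_last, Sum.elim_inr]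
    · show Sum.elim a i (σ j.castSucc) = _
      simp only [σ, Fin.snoc_castSucc, Sum.elim_inl]
  constructor
  · rintro ⟨i, hi⟩
    have hi' : (φ.relabel σ).Realize (Sum.elim a i) := hi
    rw [FirstOrder.Language.Formula.realize_relabel, h i] at hi'
    exact ⟨i 0, hi'⟩
  · rintro ⟨c, hc⟩
    refine ⟨fun _ => c, ?_⟩
    show (φ.relabel σ).Realize (Sum.elim a fun _ => c)
    rw [FirstOrder.Language.Formula.realize_relabel, h (fun _ => c)]
    exact hc

theorem HOMG_comp {n m : ℕ} (a b : Fin n → U) (σ : Fin m → Fin n)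
    (h : tp (L := L) a = tp b) : tp (L := L) (a ∘ σ) = tp (b ∘ σ) := by
  ext φ
  show φ.Realize (a ∘ σ) ↔ φ.Realize (b ∘ σ)
  rw [← FirstOrder.Language.Formula.realize_relabel,
    ← FirstOrder.Language.Formula.realize_relabel]
  exact Set.ext_iff.1 h (φ.relabel σ)

theorem HOMG_step (hS : SatF L U) {n : ℕ} (a b : Fin n → U) (h : tp (L := L) a = tp b) (c : U) :
    ∃ d : U, tp (L := L) (Fin.snoc a c : Fin (n + 1) → U) =
      tp (Fin.snoc b d : Fin (n + 1) → U) := by
  obtain ⟨d, hd⟩ := hS n b (tp (L := L) (Fin.snoc a c : Fin (n + 1) → U)) (by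
    intro G hG hfin
    haveI : Finite G := hfin.to_subtype
    obtain ⟨ψ, hψ⟩ := HOMG_ex (U := U)
      (FirstOrder.Language.Formula.iInf (fun g : G => (g.1 : L.Formula (Fin (n + 1)))))
    have h1 : ψ.Realize a := (hψ a).2 ⟨c, by
      rw [FirstOrder.Language.Formula.realize_iInf]
      exact fun g => hG g.2⟩
    have h2 : ψ.Realize b := (Set.ext_iff.1 h ψ).1 h1
    obtain ⟨d, hd⟩ := (hψ b).1 h2
    rw [FirstOrder.Language.Formula.realize_iInf] at hd
    exact ⟨d, fun φ hφ => hd ⟨φ, hφ⟩⟩)
  refine ⟨d, Set.Subset.antisymm (fun φ hφ => hd φ hφ) ?_⟩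
  intro φ hφ
  by_contra hn
  exact hd φ.not hn hφ

variable (L) in
/-- elementary relations -/
def HOMG_El (R : Set (U × U)) : Prop :=
  ∀ (n : ℕ) (p : Fin n → U × U), (∀ i, p i ∈ R) →
    tp (L := L) (fun i => (p i).1) = tp (fun i => (p i).2)

theorem HOMG_mono {R R' : Set (U × U)} (h : R ⊆ R') (hE : HOMG_El L R') : HOMG_El L R :=
  fun n p hp => hE n p fun i => h (hp i)

theorem HOMG_swap {R : Set (U × U)} (hE : HOMG_El L R) : HOMG_El L (Prod.swap ⁻¹' R) :=
  fun n p hp => (hE n (fun i => (p i).swap) hp).symm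

theorem HOMG_forth (hS : SatF L U) {R : Set (U × U)} (hR : R.Finite) (hE : HOMG_El L R) (c : U) :
    ∃ d : U, HOMG_El L (insert (c, d) R) := by
  obtain ⟨n, f, hf⟩ := hR.fin_embedding
  have h := hE n f (fun i => by rw [← hf]; exact mem_range_self i)
  obtain ⟨d, hd⟩ := HOMG_step hS _ _ h c
  refine ⟨d, fun m q hq => ?_⟩
  have hσ : ∀ j, ∃ i : Fin (n + 1), q j =
      (Fin.snoc (α := fun _ => U × U) f (c, d) : Fin (n + 1) → U × U) i := by
    intro j
    rcases hq j with h | h
    · exact ⟨Fin.last n, by rw [Fin.snoc_last]; exact h⟩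
    · rw [← hf] at h
      obtain ⟨i, hi⟩ := h
      exact ⟨i.castSucc, by rw [Fin.snoc_castSucc]; exact hi.symm⟩
  choose σ hσ using hσ
  have e1 : (fun j => (q j).1) = (Fin.snoc (fun i => (f i).1) c : Fin (n + 1) → U) ∘ σ := by
    funext j
    show (q j).1 = (Fin.snoc (fun i => (f i).1) c : Fin (n + 1) → U) (σ j)
    rw [hσ j]
    generalize σ j = i
    refine Fin.lastCases ?_ (fun i => ?_) i
    · rw [Fin.snoc_last, Fin.snoc_last]
    · rw [Fin.snoc_castSucc, Fin.snoc_castSucc]
  have e2 : (fun j => (q j).2) = (Fin.snoc (fun i => (f i).2) d : Fin (n + 1) → U) ∘ σ := by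
    funext j
    show (q j).2 = (Fin.snoc (fun i => (f i).2) d : Fin (n + 1) → U) (σ j)
    rw [hσ j]
    generalize σ j = i
    refine Fin.lastCases ?_ (fun i => ?_) i
    · rw [Fin.snoc_last, Fin.snoc_last]
    · rw [Fin.snoc_castSucc, Fin.snoc_castSucc]
  rw [e1, e2]
  exact HOMG_comp _ _ σ hd

theorem HOMG_back (hS : SatF L U) {R : Set (U × U)} (hR : R.Finite) (hE : HOMG_El L R) (d : U) :
    ∃ c : U, HOMG_El L (insert (c, d) R) := by
  obtain ⟨c, hc⟩ := HOMG_forth hS (hR.preimage (Prod.swap_injective.injOn)) (HOMG_swap hE) d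
  refine ⟨c, HOMG_mono ?_ (HOMG_swap hc)⟩
  intro p hp
  rcases hp with h | h
  · left
    rw [h]
    rfl
  · right
    show p.swap.swap ∈ R
    rw [Prod.swap_swap]
    exact h

theorem HOMG_inj {R : Set (U × U)} (hE : HOMG_El L R) {x y x' y' : U} (h : (x, y) ∈ R)
    (h' : (x', y') ∈ R) : x = x' ↔ y = y' := by
  have h1 := hE 2 ![(x, y), (x', y')] (by
    intro i
    refine Fin.cases h (fun i => ?_) i
    refine Fin.cases h' (fun i => ?_) i
    exact i.elim0)
  have h2 := Set.ext_iff.1 h1
    ((FirstOrder.Language.Term.var 0 : L.Term (Fin 2)).equal (FirstOrder.Language.Term.var 1))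
  have h3 : ∀ v : Fin 2 → U, ((FirstOrder.Language.Term.var 0 : L.Term (Fin 2)).equal
      (FirstOrder.Language.Term.var 1)) ∈ tp (L := L) v ↔ v 0 = v 1 := by
    intro v
    show FirstOrder.Language.Formula.Realize _ _ ↔ _
    rw [FirstOrder.Language.Formula.realize_equal]
    rfl
  rw [h3, h3] at h2
  exact h2

end

/-- [HOMG] -/
theorem thm_HOMG (h1 : St_DEF1) : St_HOMG := by
  intro L U _ hct hinf hS
  refine ⟨hinf, hct, ?_, ?_⟩
  · intro A hA F hF hfip
    obtain ⟨n, a, rfl⟩ := hA.fin_embedding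
    have hD := (h1 L U n a).1
    obtain ⟨c, hc⟩ := hS n a
      {φ | {x : U | φ.Realize (Fin.snoc a x : Fin (n + 1) → U)} ∈ F} (by
      intro G hG hfin
      obtain ⟨c, hc⟩ := hfip
        ((fun φ : L.Formula (Fin (n + 1)) =>
          {x : U | φ.Realize (Fin.snoc a x : Fin (n + 1) → U)}) '' G)
        (by
          rintro _ ⟨φ, hφ, rfl⟩
          exact hG hφ) (hfin.image _)
      exact ⟨c, fun φ hφ => hc _ ⟨φ, hφ, rfl⟩⟩)
    refine ⟨c, fun s hs => ?_⟩
    obtain ⟨φ, rfl⟩ := (hD s).1 (hF s hs)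
    exact hc φ hs
  · intro n a b hab
    haveI : Nonempty U := inferInstance
    obtain ⟨e, he⟩ := exists_surjective_nat U
    have step : ∀ (k : ℕ) (R : Set (U × U)), ∃ R' : Set (U × U), R.Finite → HOMG_El L R →
        R'.Finite ∧ HOMG_El L R' ∧ R ⊆ R' ∧ (∃ y, (e k, y) ∈ R') ∧ ∃ x, (x, e k) ∈ R' := by
      intro k R
      by_cases hR : R.Finite ∧ HOMG_El L R
      · obtain ⟨hf, hE⟩ := hR
        obtain ⟨d, hd⟩ := HOMG_forth hS hf hE (e k)
        have hf' := hf.insert (e k, d)
        obtain ⟨c, hc⟩ := HOMG_back hS hf' hd (e k)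
        refine ⟨insert (c, e k) (insert (e k, d) R), fun _ _ => ⟨hf'.insert _, hc, ?_, ?_, ?_⟩⟩
        · exact (subset_insert _ _).trans (subset_insert _ _)
        · exact ⟨d, Or.inr (Or.inl rfl)⟩
        · exact ⟨c, Or.inl rfl⟩
      · exact ⟨R, fun h h' => absurd ⟨h, h'⟩ hR⟩
    choose F hF using step
    let R0 : Set (U × U) := range fun i => (a i, b i)
    let Rk : ℕ → Set (U × U) := fun k => Nat.rec R0 F k
    have hR0 : HOMG_El L R0 := by
      intro m q hq
      choose σ hσ using hq
      have e1 : (fun j => (q j).1) = a ∘ σ := by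
        funext j
        show (q j).1 = a (σ j)
        rw [← hσ j]
      have e2 : (fun j => (q j).2) = b ∘ σ := by
        funext j
        show (q j).2 = b (σ j)
        rw [← hσ j]
      rw [e1, e2]
      exact HOMG_comp _ _ σ hab
    have hRk : ∀ k, (Rk k).Finite ∧ HOMG_El L (Rk k) := by
      intro k
      induction k with
      | zero => exact ⟨finite_range _, hR0⟩
      | succ k ih =>
        have := hF k (Rk k) ih.1 ih.2
        exact ⟨this.1, this.2.1⟩
    have hmono : Monotone Rk := monotone_nat_of_le_succ fun k =>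
      (hF k (Rk k) (hRk k).1 (hRk k).2).2.2.1
    have hE : HOMG_El L (⋃ k, Rk k) := by
      intro m q hq
      have h2 : ∀ j, ∃ k, q j ∈ Rk k := fun j => mem_iUnion.1 (hq j)
      choose κ hκ using h2
      exact (hRk (Finset.univ.sup κ)).2 m q fun j =>
        hmono (Finset.le_sup (f := κ) (Finset.mem_univ j)) (hκ j)
    have hdom : ∀ x : U, ∃ y, (x, y) ∈ ⋃ k, Rk k := by
      intro x
      obtain ⟨k, rfl⟩ := he x
      obtain ⟨y, hy⟩ := (hF k (Rk k) (hRk k).1 (hRk k).2).2.2.2.1
      exact ⟨y, mem_iUnion.2 ⟨k + 1, hy⟩⟩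
    have hcod : ∀ y : U, ∃ x, (x, y) ∈ ⋃ k, Rk k := by
      intro y
      obtain ⟨k, rfl⟩ := he y
      obtain ⟨x, hx⟩ := (hF k (Rk k) (hRk k).1 (hRk k).2).2.2.2.2
      exact ⟨x, mem_iUnion.2 ⟨k + 1, hx⟩⟩
    choose g hg using hdom
    choose g' hg' using hcod
    refine ⟨{ toFun := g
              invFun := g'
              left_inv := fun x => (HOMG_inj hE (hg' (g x)) (hg x)).2 rfl
              right_inv := fun y => (HOMG_inj hE (hg (g' y)) (hg' y)).1 rfl
              map_fun' := ?_
              map_rel' := ?_ }, ?_⟩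
    · intro m f x
      have h2 := hE (m + 1) (Fin.cons (FirstOrder.Language.Structure.funMap f x,
        g (FirstOrder.Language.Structure.funMap f x)) fun i => (x i, g (x i))) (by
          intro i
          refine Fin.cases (hg _) (fun i => ?_) i
          exact hg _)
      have h3 := Set.ext_iff.1 h2 (FirstOrder.Language.Formula.graph f)
      have e1 : (fun i => ((Fin.cons (FirstOrder.Language.Structure.funMap f x,
          g (FirstOrder.Language.Structure.funMap f x)) (fun i => (x i, g (x i))) :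
            Fin (m + 1) → U × U) i).1) =
          (Fin.cons (FirstOrder.Language.Structure.funMap f x) x : Fin (m + 1) → U) := by
        funext i
        refine Fin.cases rfl (fun i => rfl) i
      have e2 : (fun i => ((Fin.cons (FirstOrder.Language.Structure.funMap f x,
          g (FirstOrder.Language.Structure.funMap f x)) (fun i => (x i, g (x i))) :
            Fin (m + 1) → U × U) i).2) =
          (Fin.cons (g (FirstOrder.Language.Structure.funMap f x)) (g ∘ x) :
            Fin (m + 1) → U) := by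
        funext i
        refine Fin.cases rfl (fun i => rfl) i
      rw [e1, e2] at h3
      have h4 := h3.1 (FirstOrder.Language.Formula.realize_graph.2 rfl)
      exact (FirstOrder.Language.Formula.realize_graph.1 h4).symm
    · intro m r x
      have h2 := hE m (fun i => (x i, g (x i))) (fun i => hg _)
      have h3 := Set.ext_iff.1 h2 (r.formula fun i => FirstOrder.Language.Term.var i)
      have h4 : ∀ v : Fin m → U, (r.formula fun i => (FirstOrder.Language.Term.var i :
          L.Term (Fin m))) ∈ tp (L := L) v ↔ FirstOrder.Language.Structure.RelMap r v := by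
        intro v
        show FirstOrder.Language.Formula.Realize _ _ ↔ _
        rw [FirstOrder.Language.Formula.realize_rel]
        rfl
      rw [h4, h4] at h3
      exact h3.symm
    · intro i
      show g (a i) = b i
      have h2 : (a i, b i) ∈ ⋃ k, Rk k := mem_iUnion.2 ⟨0, ⟨i, rfl⟩⟩
      exact (HOMG_inj hE (hg (a i)) h2).1 rfl

end Pool.Agent.WOM
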