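import Pool.Agent.WOM.StB

/-!
WOM: the reduction to complete theories (INC).
-/

set_option autoImplicit false

namespace Pool.Agent.WOM

open FirstOrder.Language Set
open scoped FirstOrder

variable {L : FirstOrder.Language.{0, 0}}

open Classical in
/-- the code of a structure -/
private noncomputable def INC_code (S : L.Structure ℕ) : CodeF L :=
  (fun p => decide (@FirstOrder.Language.Structure.RelMap L ℕ S p.1 p.2.1 p.2.2),
    fun p => @FirstOrder.Language.Structure.funMap L ℕ S p.1 p.2.1 p.2.2)

private theorem INC_strF (S : L.Structure ℕ) : strF (INC_code S) = S := by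
  cases S with
  | mk f r =>
    unfold strF INC_code
    congr 1
    funext n R a
    simp only [decide_eq_true_eq]

private theorem INC_mono {S : L.Structure ℕ} {T : L.Theory}
    (hS : @FirstOrder.Language.Theory.Model L ℕ S T) (S' : L.Structure ℕ)
    (h : @FirstOrder.Language.Theory.Model L ℕ S' (ThS L S)) :
    @FirstOrder.Language.Theory.Model L ℕ S' T := by
  refine ⟨fun φ hφ => h.1 φ ?_⟩
  exact hS.1 φ hφ

private theorem INC_perf {S : L.Structure ℕ} {T : L.Theory}
    (hS : @FirstOrder.Language.Theory.Model L ℕ S T) (h : PerfT L (ThS L S)) : PerfT L T := by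
  obtain ⟨f, h1, h2, h3, h4⟩ := h
  exact ⟨f, fun x => INC_mono hS _ (h1 x), h2, h3, h4⟩

open Classical in
/-- the theory of a structure, as a point of a product -/
private noncomputable def INC_Z (_ : Unit) (c : CodeF L) (σ : L.Sentence) : Bool :=
  decide (@FirstOrder.Language.Sentence.Realize L ℕ (strF c) σ)

private theorem INC_Z_eq {c d : CodeF L} (h : INC_Z () c = INC_Z () d) :
    ThS L (strF c) = ThS L (strF d) := by
  ext σ
  have h1 := congrFun h σ
  unfold INC_Z at h1
  exact decide_eq_decide.1 h1

theorem thm_INC (h1 : St_MEAS) (h2 : St_REAL) : St_INC := by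
  intro L hL T hT
  classical
  by_cases hP : ∃ S : L.Structure ℕ, @FirstOrder.Language.Theory.Model L ℕ S T ∧
      PerfT L (ThS L S)
  · obtain ⟨S, hS, hS2⟩ := hP
    exact Or.inr (INC_perf hS hS2)
  · push Not at hP
    have hC : ∀ S : L.Structure ℕ, @FirstOrder.Language.Theory.Model L ℕ S T →
        CtT L (ThS L S) := fun S hS => (hT S hS).resolve_right (hP S hS)
    have hcs : Countable L.Sentence := inferInstanceAs (Countable (L.Formula Empty))
    obtain ⟨-, -, hM⟩ := h1 L hL
    by_cases hc : (⋃ j : Unit, INC_Z j '' {c : CodeF L |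
        @FirstOrder.Language.Theory.Model L ℕ (strF c) T}).Countable
    · left
      have h5 : ∀ z : ↥(⋃ j : Unit, INC_Z j '' {c : CodeF L |
          @FirstOrder.Language.Theory.Model L ℕ (strF c) T}), ∃ c : CodeF L,
          @FirstOrder.Language.Theory.Model L ℕ (strF c) T ∧ INC_Z () c = z.1 := by
        intro z
        obtain ⟨j, hj⟩ := mem_iUnion.1 z.2
        obtain ⟨c, hc, hcz⟩ := hj
        exact ⟨c, hc, hcz⟩
      choose c hc1 hc2 using h5
      choose g hg using fun z => hC (strF (c z)) (hc1 z)
      have hcount : Countable ↥(⋃ j : Unit, INC_Z j '' {c : CodeF L |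
          @FirstOrder.Language.Theory.Model L ℕ (strF c) T}) := hc.to_subtype
      have hne : Nonempty (L.Structure ℕ) := ⟨strF (fun _ => true, fun _ => 0)⟩
      obtain ⟨G, hG⟩ := (countable_iff_exists_subset_range (α := L.Structure ℕ)).1
        (countable_range (fun p : ↥(⋃ j : Unit, INC_Z j '' {c : CodeF L |
          @FirstOrder.Language.Theory.Model L ℕ (strF c) T}) × ℕ => g p.1 p.2))
      refine ⟨G, fun S hS => ?_⟩
      have hSm : INC_Z () (INC_code S) ∈ (⋃ j : Unit, INC_Z j '' {c : CodeF L |
          @FirstOrder.Language.Theory.Model L ℕ (strF c) T}) := by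
        refine mem_iUnion.2 ⟨(), INC_code S, ?_, rfl⟩
        show @FirstOrder.Language.Theory.Model L ℕ (strF (INC_code S)) T
        rw [INC_strF]
        exact hS
      let z : ↥(⋃ j : Unit, INC_Z j '' {c : CodeF L |
          @FirstOrder.Language.Theory.Model L ℕ (strF c) T}) := ⟨_, hSm⟩
      have hz : INC_Z () (c z) = INC_Z () (INC_code S) := hc2 z
      have hTh := INC_Z_eq hz
      rw [INC_strF] at hTh
      have hSmod : @FirstOrder.Language.Theory.Model L ℕ S (ThS L (strF (c z))) := by
        rw [hTh]
        exact ⟨fun φ hφ => hφ⟩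
      obtain ⟨n, hn⟩ := hg z S hSmod
      obtain ⟨m, hm⟩ := hG ⟨(z, n), rfl⟩
      refine ⟨m, ?_⟩
      rw [hm]
      exact hn
    · right
      refine h2 L hL T Unit L.Sentence INC_Z ?_ ?_ hc
      · intro _ σ
        have h3 : MeasurableSet {c : CodeF L |
            @FirstOrder.Language.Formula.Realize L ℕ (strF c) (Fin 0)
              (FirstOrder.Language.Formula.relabel (Empty.elim : Empty → Fin 0) σ)
              Fin.elim0} :=
          hM 0 0 (FirstOrder.Language.Formula.relabel (Empty.elim : Empty → Fin 0) σ)
            Fin.elim0 _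
        have h4 : {c : CodeF L | INC_Z () c σ = true} = {c : CodeF L |
            @FirstOrder.Language.Formula.Realize L ℕ (strF c) (Fin 0)
              (FirstOrder.Language.Formula.relabel (Empty.elim : Empty → Fin 0) σ)
              Fin.elim0} := by
          ext c
          have h5 := @FirstOrder.Language.Formula.realize_relabel L ℕ (strF c) Empty (Fin 0) σ
            (Empty.elim : Empty → Fin 0) Fin.elim0
          have h8 : INC_Z () c σ = true ↔
              @FirstOrder.Language.Sentence.Realize L ℕ (strF c) σ := by
            show decide _ = true ↔ _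
            rw [decide_eq_true_iff]
          refine h8.trans (Iff.trans ?_ h5.symm)
          unfold FirstOrder.Language.Sentence.Realize
          rw [Subsingleton.elim (Fin.elim0 ∘ (Empty.elim : Empty → Fin 0) : Empty → ℕ)]
        exact h4 ▸ h3
      · intro _ c d hc hd hcd
        refine ⟨(), ?_⟩
        obtain ⟨e⟩ := hcd
        funext σ
        refine decide_eq_decide.2 ?_
        exact @FirstOrder.Language.StrongHomClass.realize_sentence L ℕ ℕ (strF c) (strF d) _ _ _
          e σ

end Pool.Agent.WOM
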