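import Pool.Agent.WOM.StB

/-!
WOM, module MEAS (helper65): measurability of truth in the space of the structures on `ℕ`.
-/

set_option autoImplicit false

namespace Pool.Agent.WOM

open FirstOrder.Language Set
open scoped FirstOrder

section

variable {L : FirstOrder.Language.{0, 0}}

private theorem MEAS_rel (hc : Countable L.Symbols) (n : ℕ) : Countable (L.Relations n) := by
  have hf : Function.Injective
      (fun R : L.Relations n => (Sum.inr ⟨n, R⟩ : L.Symbols)) := by
    intro R R' h
    have h1 := Sum.inr.inj h
    exact eq_of_heq (Sigma.mk.inj h1).2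
  exact hf.countable

private theorem MEAS_fun (hc : Countable L.Symbols) (n : ℕ) : Countable (L.Functions n) := by
  have hf : Function.Injective
      (fun R : L.Functions n => (Sum.inl ⟨n, R⟩ : L.Symbols)) := by
    intro R R' h
    have h1 := Sum.inl.inj h
    exact eq_of_heq (Sigma.mk.inj h1).2
  exact hf.countable

private theorem MEAS_term {α : Type} (t : L.Term α) (v : α → ℕ) (m : ℕ) :
    MeasurableSet {c : CodeF L |
      @FirstOrder.Language.Term.realize L ℕ (strF c) α v t = m} := by
  induction t generalizing m with
  | var a =>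
    have h1 : {c : CodeF L | @FirstOrder.Language.Term.realize L ℕ (strF c) α v
        (FirstOrder.Language.Term.var a) = m} = {c : CodeF L | v a = m} := rfl
    rw [h1]
    exact MeasurableSet.const (v a = m)
  | @func l f ts ih =>
    have h1 : {c : CodeF L | @FirstOrder.Language.Term.realize L ℕ (strF c) α v
        (FirstOrder.Language.Term.func f ts) = m} =
        ⋃ b : Fin l → ℕ, ({c : CodeF L | c.2 ⟨l, (f, b)⟩ = m} ∩
          ⋂ i : Fin l, {c : CodeF L |
            @FirstOrder.Language.Term.realize L ℕ (strF c) α v (ts i) = b i}) := by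
      ext c
      simp only [mem_ofPred_eq, mem_iUnion, mem_inter_iff, mem_iInter]
      constructor
      · intro h
        exact ⟨fun i => @FirstOrder.Language.Term.realize L ℕ (strF c) α v (ts i), h,
          fun i => rfl⟩
      · rintro ⟨b, hb, hi⟩
        have hb' : (fun i => @FirstOrder.Language.Term.realize L ℕ (strF c) α v (ts i)) = b :=
          funext hi
        change c.2 ⟨l, (f, fun i => @FirstOrder.Language.Term.realize L ℕ (strF c) α v (ts i))⟩
          = m
        rw [hb']
        exact hb
    rw [h1]
    refine MeasurableSet.iUnion fun b => MeasurableSet.inter ?_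
      (MeasurableSet.iInter fun i => ih i (b i))
    have h2 : Measurable (fun c : CodeF L => c.2 ⟨l, (f, b)⟩) :=
      (measurable_pi_apply _).comp measurable_snd
    exact h2 (measurableSet_singleton m)

private theorem MEAS_form {α : Type} {n : ℕ} (φ : L.BoundedFormula α n) (v : α → ℕ)
    (xs : Fin n → ℕ) : MeasurableSet {c : CodeF L |
      @FirstOrder.Language.BoundedFormula.Realize L ℕ (strF c) α n φ v xs} := by
  induction φ with
  | falsum => exact MeasurableSet.const _
  | @equal n t₁ t₂ =>
    have h1 : {c : CodeF L | @FirstOrder.Language.BoundedFormula.Realize L ℕ (strF c) α _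
        (FirstOrder.Language.BoundedFormula.equal t₁ t₂) v xs} =
        ⋃ m : ℕ, ({c : CodeF L | @FirstOrder.Language.Term.realize L ℕ (strF c) _
          (Sum.elim v xs) t₁ = m} ∩ {c : CodeF L |
            @FirstOrder.Language.Term.realize L ℕ (strF c) _ (Sum.elim v xs) t₂ = m}) := by
      ext c
      simp only [mem_ofPred_eq, mem_iUnion, mem_inter_iff]
      constructor
      · intro h
        exact ⟨_, rfl, Eq.symm h⟩
      · rintro ⟨m, h2, h3⟩
        exact h2.trans h3.symm
    rw [h1]
    exact MeasurableSet.iUnion fun m => (MEAS_term _ _ _).inter (MEAS_term _ _ _)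
  | @rel n l R ts =>
    have h1 : {c : CodeF L | @FirstOrder.Language.BoundedFormula.Realize L ℕ (strF c) α _
        (FirstOrder.Language.BoundedFormula.rel R ts) v xs} =
        ⋃ b : Fin l → ℕ, ({c : CodeF L | c.1 ⟨l, (R, b)⟩ = true} ∩
          ⋂ i : Fin l, {c : CodeF L |
            @FirstOrder.Language.Term.realize L ℕ (strF c) _ (Sum.elim v xs) (ts i) = b i}) := by
      ext c
      simp only [mem_ofPred_eq, mem_iUnion, mem_inter_iff, mem_iInter]
      constructor
      · intro h
        exact ⟨fun i => @FirstOrder.Language.Term.realize L ℕ (strF c) _ (Sum.elim v xs) (ts i),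
          h, fun i => rfl⟩
      · rintro ⟨b, hb, hi⟩
        have hb' : (fun i => @FirstOrder.Language.Term.realize L ℕ (strF c) _
          (Sum.elim v xs) (ts i)) = b := funext hi
        change c.1 ⟨l, (R, fun i =>
          @FirstOrder.Language.Term.realize L ℕ (strF c) _ (Sum.elim v xs) (ts i))⟩ = true
        rw [hb']
        exact hb
    rw [h1]
    refine MeasurableSet.iUnion fun b => MeasurableSet.inter ?_
      (MeasurableSet.iInter fun i => MEAS_term _ _ _)
    have h2 : Measurable (fun c : CodeF L => c.1 ⟨l, (R, b)⟩) :=
      (measurable_pi_apply _).comp measurable_fst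
    exact h2 (measurableSet_singleton true)
  | imp f₁ f₂ ih₁ ih₂ =>
    have h1 := ih₁ xs
    have h2 := ih₂ xs
    have h3 : {c : CodeF L | @FirstOrder.Language.BoundedFormula.Realize L ℕ (strF c) α _
        (f₁.imp f₂) v xs} =
        {c : CodeF L | @FirstOrder.Language.BoundedFormula.Realize L ℕ (strF c) α _ f₁ v xs}ᶜ ∪
        {c : CodeF L | @FirstOrder.Language.BoundedFormula.Realize L ℕ (strF c) α _ f₂ v xs} := by
      ext c
      simp only [mem_ofPred_eq, mem_union, mem_compl_iff,
        FirstOrder.Language.BoundedFormula.realize_imp]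
      tauto
    rw [h3]
    exact h1.compl.union h2
  | all f ih =>
    have h1 : {c : CodeF L | @FirstOrder.Language.BoundedFormula.Realize L ℕ (strF c) α _
        f.all v xs} = ⋂ a : ℕ, {c : CodeF L |
        @FirstOrder.Language.BoundedFormula.Realize L ℕ (strF c) α _ f v (Fin.snoc xs a)} := by
      ext c
      simp only [mem_ofPred_eq, mem_iInter, FirstOrder.Language.BoundedFormula.realize_all]
    rw [h1]
    exact MeasurableSet.iInter fun a => ih _

end

theorem thm_MEAS : St_MEAS := by
  intro L hc
  have h1 : ∀ n, Countable (L.Relations n) := MEAS_rel hc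
  have h2 : ∀ n, Countable (L.Functions n) := MEAS_fun hc
  exact ⟨inferInstance, inferInstance, fun n k φ v w => MEAS_form φ v w⟩

end Pool.Agent.WOM
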