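import Pool.Agent.WOM.StB

/-!
# WOM, module NSM: theories with uncountably many types have perfectly many models
-/

set_option autoImplicit false

namespace Pool.Agent.WOM

open FirstOrder.Language Set
open scoped FirstOrder

variable {L : FirstOrder.Language.{0, 0}}

/-- every structure has a code -/
theorem NSM_code (S : L.Structure ℕ) : ∃ c : CodeF L, strF c = S := by
  classical
  obtain ⟨fm, rm⟩ := S
  refine ⟨(fun p => decide (rm p.2.1 p.2.2), fun p => fm p.2.1 p.2.2), ?_⟩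
  unfold strF
  congr 1
  funext n R a
  exact decide_eq_true_iff.eq

open Classical in
/-- the invariants: the types of the tuples -/
noncomputable def NSM_Z (j : (n : ℕ) × (Fin n → ℕ)) (c : CodeF L)
    (i : (m : ℕ) × L.Formula (Fin m)) : Bool :=
  decide (∃ h : i.1 = j.1, i.2 ∈ @tp L ℕ (strF c) i.1 (j.2 ∘ Fin.cast h))

theorem NSM_Z_self (n : ℕ) (a : Fin n → ℕ) (c : CodeF L) (φ : L.Formula (Fin n)) :
    NSM_Z ⟨n, a⟩ c ⟨n, φ⟩ = true ↔ φ ∈ @tp L ℕ (strF c) n a := by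
  unfold NSM_Z
  simp only [decide_eq_true_eq]
  exact ⟨fun ⟨_, h⟩ => h, fun h => ⟨trivial, h⟩⟩

theorem NSM_Z_ne (n m : ℕ) (a : Fin n → ℕ) (c : CodeF L) (φ : L.Formula (Fin m)) (h : m ≠ n) :
    NSM_Z ⟨n, a⟩ c ⟨m, φ⟩ = false := by
  unfold NSM_Z
  simp only [decide_eq_false_iff_not]
  exact fun ⟨h1, _⟩ => h h1

/-- isomorphisms preserve types -/
theorem NSM_iso0 {M N : Type} [L.Structure M] [L.Structure N] (e : M ≃[L] N) (n : ℕ)
    (a : Fin n → M) : tp (L := L) a = tp (L := L) (e ∘ a) := by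
  ext φ
  exact (FirstOrder.Language.StrongHomClass.realize_formula e φ).symm

theorem NSM_iso (S S' : L.Structure ℕ) (e : @FirstOrder.Language.Equiv L ℕ ℕ S S') (n : ℕ)
    (a : Fin n → ℕ) : ∃ b : Fin n → ℕ, @tp L ℕ S n a = @tp L ℕ S' n b :=
  ⟨_, @NSM_iso0 L ℕ ℕ S S' e n a⟩

theorem NSM_mem (c : CodeF L) (n : ℕ) (a : Fin n → ℕ) (φ : L.Formula (Fin n)) (w : Fin 0 → ℕ) :
    φ ∈ @tp L ℕ (strF c) n a ↔
      @FirstOrder.Language.BoundedFormula.Realize L ℕ (strF c) (Fin n) 0 φ a w := by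
  unfold tp
  rw [mem_ofPred_eq]
  obtain rfl : w = (Unique.instInhabited.default : Fin 0 → ℕ) := Subsingleton.elim _ _
  exact Iff.rfl

theorem thm_NSM (h1 : St_MEAS) (h2 : St_REAL) : St_NSM := by
  intro L hL T hT
  have hJ : Countable ((n : ℕ) × (Fin n → ℕ)) := inferInstance
  have hI : Countable ((m : ℕ) × L.Formula (Fin m)) := inferInstance
  refine h2 L hL T ((n : ℕ) × (Fin n → ℕ)) ((m : ℕ) × L.Formula (Fin m)) NSM_Z ?_ ?_ ?_
  · rintro ⟨n, a⟩ ⟨m, φ⟩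
    by_cases h : m = n
    · subst h
      have h3 := (h1 L hL).2.2 m 0 φ a default
      have h4 : {c : CodeF L | NSM_Z ⟨m, a⟩ c ⟨m, φ⟩ = true} =
          {c : CodeF L | @FirstOrder.Language.BoundedFormula.Realize L ℕ (strF c) (Fin m) 0 φ a
            default} := by
        ext c
        rw [mem_ofPred_eq, mem_ofPred_eq, NSM_Z_self m a c φ,
          NSM_mem c m a φ default]
      rw [h4]
      exact h3
    · have h4 : {c : CodeF L | NSM_Z ⟨n, a⟩ c ⟨m, φ⟩ = true} = ∅ := by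
        ext c
        rw [mem_ofPred_eq, NSM_Z_ne n m a c φ h]
        simp
      rw [h4]
      exact MeasurableSet.empty
  · rintro ⟨n, a⟩ c d _ _ ⟨e⟩
    obtain ⟨b, hb⟩ := NSM_iso (strF c) (strF d) e n a
    refine ⟨⟨n, b⟩, ?_⟩
    funext ⟨m, φ⟩
    by_cases h : m = n
    · subst h
      rw [Bool.eq_iff_iff, NSM_Z_self, NSM_Z_self, hb]
    · rw [NSM_Z_ne n m a c φ h, NSM_Z_ne n m b d φ h]
  · intro hc
    apply hT
    have h3 : (⋃ n : ℕ, (fun z : ((m : ℕ) × L.Formula (Fin m)) → Bool =>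
        (⟨n, {φ | z ⟨n, φ⟩ = true}⟩ : (n : ℕ) × Set (L.Formula (Fin n)))) ''
        (⋃ j, NSM_Z j '' {c : CodeF L |
          @FirstOrder.Language.Theory.Model L ℕ (strF c) T})).Countable :=
      countable_iUnion fun n => hc.image _
    refine h3.mono ?_
    rintro ⟨n, p⟩ ⟨S, hS, a, hp⟩
    obtain ⟨c, rfl⟩ := NSM_code S
    refine mem_iUnion.2 ⟨n, NSM_Z ⟨n, a⟩ c, mem_iUnion.2 ⟨⟨n, a⟩, c, hS, rfl⟩, ?_⟩
    have h4 : {φ : L.Formula (Fin n) | NSM_Z ⟨n, a⟩ c ⟨n, φ⟩ = true} = p := by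
      have h5 : p = @tp L ℕ (strF c) n a := hp
      rw [h5]
      ext φ
      exact NSM_Z_self n a c φ
    show (⟨n, {φ : L.Formula (Fin n) | NSM_Z ⟨n, a⟩ c ⟨n, φ⟩ = true}⟩ :
      (n : ℕ) × Set (L.Formula (Fin n))) = ⟨n, p⟩
    rw [h4]

end Pool.Agent.WOM
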