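import Pool.Agent.WOM.StB

/-!
# WOM: module REAL (helper55)
-/

set_option autoImplicit false

namespace Pool.Agent.WOM

open FirstOrder.Language Set
open scoped FirstOrder

private theorem REAL_sent {L : FirstOrder.Language.{0, 0}} [L.Structure ℕ] (σ : L.Sentence)
    (v w : Fin 0 → ℕ) : FirstOrder.Language.Sentence.Realize ℕ σ ↔
      FirstOrder.Language.BoundedFormula.Realize
        (FirstOrder.Language.Formula.relabel (Empty.elim : Empty → Fin 0) σ) v w := by
  have h3 : FirstOrder.Language.Formula.Realize
      (FirstOrder.Language.Formula.relabel (Empty.elim : Empty → Fin 0) σ) v ↔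
      FirstOrder.Language.Formula.Realize σ (v ∘ (Empty.elim : Empty → Fin 0)) :=
    FirstOrder.Language.Formula.realize_relabel
  have h4 : ∀ u u' : Empty → ℕ, FirstOrder.Language.Formula.Realize σ u ↔
      FirstOrder.Language.Formula.Realize σ u' := fun u u' => by rw [Subsingleton.elim u u']
  have h5 : ∀ u u' : Fin 0 → ℕ, FirstOrder.Language.BoundedFormula.Realize
      (FirstOrder.Language.Formula.relabel (Empty.elim : Empty → Fin 0) σ) v u ↔
      FirstOrder.Language.BoundedFormula.Realize
      (FirstOrder.Language.Formula.relabel (Empty.elim : Empty → Fin 0) σ) v u' :=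
    fun u u' => by rw [Subsingleton.elim u u']
  exact (h4 _ _).trans (h3.symm.trans (h5 _ _))

private theorem REAL_model {L : FirstOrder.Language.{0, 0}} (hL : Countable L.Symbols)
    (hM : ∀ (n k : ℕ) (φ : L.BoundedFormula (Fin n) k) (v : Fin n → ℕ) (w : Fin k → ℕ),
      MeasurableSet {c : CodeF L |
        @FirstOrder.Language.BoundedFormula.Realize L ℕ (strF c) (Fin n) k φ v w}) (T : L.Theory) :
    MeasurableSet {c : CodeF L | @FirstOrder.Language.Theory.Model L ℕ (strF c) T} := by
  have hcs : Countable L.Sentence := inferInstanceAs (Countable (L.Formula Empty))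
  have h1 : {c : CodeF L | @FirstOrder.Language.Theory.Model L ℕ (strF c) T} =
      ⋂ σ ∈ T, {c : CodeF L | @FirstOrder.Language.BoundedFormula.Realize L ℕ (strF c) (Fin 0) 0
        (FirstOrder.Language.Formula.relabel (Empty.elim : Empty → Fin 0) σ) default default} := by
    ext c
    rw [mem_iInter₂]
    let _ : L.Structure ℕ := strF c
    have h2 : ∀ σ : L.Sentence, FirstOrder.Language.Sentence.Realize ℕ σ ↔
        FirstOrder.Language.BoundedFormula.Realize
          (FirstOrder.Language.Formula.relabel (Empty.elim : Empty → Fin 0) σ)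
          (default : Fin 0 → ℕ) (default : Fin 0 → ℕ) := fun σ => REAL_sent σ _ _
    constructor
    · intro h σ hσ
      exact (h2 σ).1 (FirstOrder.Language.Theory.Model.realize_of_mem (self := h) σ hσ)
    · intro h
      exact ⟨fun σ hσ => (h2 σ).2 (h σ hσ)⟩
  rw [h1]
  exact MeasurableSet.biInter (to_countable T) fun σ _ => hM 0 0 _ _ _

theorem thm_REAL (h1 : St_MEAS) : St_REAL := by
  intro L hL T J I _ _ Z hZ hE hunc
  obtain ⟨hP, hB, hM⟩ := h1 L hL
  obtain ⟨j, g, hg, hgB, hgE⟩ := Pool.Agent.Helper6.exists_cantor_of_reals (X := CodeF L)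
    (Y := I → Bool) (J := J) (Z := Z)
    (fun j => measurable_pi_iff.2 fun i => measurable_to_bool (hZ j i))
    (B := fun _ => {c | @FirstOrder.Language.Theory.Model L ℕ (strF c) T})
    (fun _ => REAL_model hL hM T)
    (fun c d => Nonempty (@FirstOrder.Language.Equiv L ℕ ℕ (strF c) (strF d)))
    (fun j _ c hc d hd hcd => hE j c d hc hd hcd) hunc
  refine ⟨fun x => strF (g x), hgB, fun x y hxy => ?_, fun n R a => ?_, fun n F a b => ?_⟩
  · by_contra hne
    exact hgE x y hne hxy
  · have h2 : IsClopen {c : CodeF L | c.1 ⟨n, (R, a)⟩ = true} := by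
      have h3 : Continuous fun c : CodeF L => c.1 ⟨n, (R, a)⟩ :=
        (continuous_apply _).comp continuous_fst
      exact (isClopen_discrete ({true} : Set Bool)).preimage h3
    exact h2.preimage hg
  · have h2 : IsOpen {c : CodeF L | c.2 ⟨n, (F, a)⟩ = b} := by
      have h3 : Continuous fun c : CodeF L => c.2 ⟨n, (F, a)⟩ :=
        (continuous_apply _).comp continuous_snd
      exact (isOpen_discrete ({b} : Set ℕ)).preimage h3
    exact h2.preimage hg

end Pool.Agent.WOM
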