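import Pool.Agent.WOM.StB

/-!
WOM, module SUBM: a countable saturated elementary submodel (helper72).
Statement and proof: see `St_SUBM` in `Pool/Agent/WOM/StB.lean`.
-/

set_option autoImplicit false

namespace Pool.Agent.WOM

open FirstOrder.Language Set
open scoped FirstOrder

section

variable {L : FirstOrder.Language.{0, 0}}

theorem SUBM_inf (S : L.Structure ℕ) (V : Type) [L.Structure V] (hV : V ⊨ ThS L S) :
    Infinite V := by
  rw [← model_infiniteTheory_iff L, Theory.model_iff_subset_completeTheory]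
  have h1 : ThS L S ⊆ L.completeTheory V := Theory.model_iff_subset_completeTheory.1 hV
  refine Subset.trans ?_ h1
  exact Theory.model_iff_subset_completeTheory.1
    (@model_infiniteTheory_iff L ℕ S |>.2 inferInstance)

/-- a countable elementary substructure is isomorphic to a structure on `ℕ` -/
theorem SUBM_types (hL : Countable L.Symbols) (S : L.Structure ℕ) (V : Type) [L.Structure V]
    (hV : V ⊨ ThS L S) (n : ℕ) (a : Fin n → V) :
    (⟨n, tp (L := L) a⟩ : (n : ℕ) × Set (L.Formula (Fin n))) ∈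
      {p : (n : ℕ) × Set (L.Formula (Fin n)) | ∃ S' : L.Structure ℕ,
        @FirstOrder.Language.Theory.Model L ℕ S' (ThS L S) ∧
          ∃ a : Fin p.1 → ℕ, p.2 = @tp L ℕ S' p.1 a} := by
  have hinf := SUBM_inf S V hV
  obtain ⟨N, hN, hcard⟩ := exists_elementarySubstructure_card_eq L (range a) Cardinal.aleph0
    le_rfl (by
      rw [Cardinal.lift_id, Cardinal.lift_id, Cardinal.mk_le_aleph0_iff]
      exact (finite_range a).countable) (by
      rw [Cardinal.lift_id, Cardinal.lift_id]
      exact Cardinal.mk_le_aleph0_iff.2 hL) (by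
      rw [Cardinal.lift_id, Cardinal.lift_id]
      exact Cardinal.aleph0_le_mk V)
  rw [Cardinal.lift_id, Cardinal.lift_id] at hcard
  obtain ⟨e⟩ : Nonempty (N ≃ ℕ) := by
    rw [← Cardinal.eq, hcard, Cardinal.mk_nat]
  let S' : L.Structure ℕ := _root_.Equiv.inducedStructure (L := L) e
  let e' : @FirstOrder.Language.Equiv L N ℕ _ S' :=
    _root_.Equiv.inducedStructureEquiv (L := L) e
  let a' : Fin n → N := fun i => ⟨a i, hN ⟨i, rfl⟩⟩
  refine ⟨S', ?_, fun i => e (a' i), ?_⟩
  · have h1 : N ⊨ ThS L S := (N.subtype.theory_model_iff (ThS L S)).2 hV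
    exact @StrongHomClass.theory_model L N ℕ _ S' (ThS L S) _ _ _ e' h1
  · ext φ
    have h1 : φ.Realize (fun i => ((a' i : N) : V)) ↔ φ.Realize a' :=
      N.subtype.map_formula φ a'
    have h2 := @StrongHomClass.realize_formula L N ℕ _ S' _ _ _ _ e' φ a'
    exact h1.trans h2.symm

end

theorem thm_SUBM (h1 : St_DEF1) : St_SUBM := by
  clear h1
  intro L hL S hsm V _ hV hsat
  have hinf := SUBM_inf S V hV
  -- countably many types over every tuple
  have hw : ∀ (n : ℕ) (a : Fin n → V), ∃ w : ℕ → V, ∀ c : V, ∃ k : ℕ,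
      tp (L := L) (Fin.snoc a (w k) : Fin (n + 1) → V) =
        tp (L := L) (Fin.snoc a c : Fin (n + 1) → V) := by
    intro n a
    have h2 : (range fun c : V => tp (L := L) (Fin.snoc a c : Fin (n + 1) → V)).Countable := by
      have h3 : Function.Injective fun p : Set (L.Formula (Fin (n + 1))) =>
          (⟨n + 1, p⟩ : (n : ℕ) × Set (L.Formula (Fin n))) := by
        intro p q hpq
        simpa using hpq
      refine (Set.Countable.preimage_of_injOn (s := {p : (n : ℕ) × Set (L.Formula (Fin n)) |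
        ∃ S' : L.Structure ℕ, @FirstOrder.Language.Theory.Model L ℕ S' (ThS L S) ∧
          ∃ a : Fin p.1 → ℕ, p.2 = @tp L ℕ S' p.1 a}) hsm h3.injOn).mono ?_
      rintro _ ⟨c, rfl⟩
      exact SUBM_types hL S V hV (n + 1) _
    have hne : (range fun c : V => tp (L := L) (Fin.snoc a c : Fin (n + 1) → V)).Nonempty :=
      range_nonempty _
    obtain ⟨f, hf⟩ := h2.exists_eq_range hne
    have h4 : ∀ k, ∃ c : V, tp (L := L) (Fin.snoc a c : Fin (n + 1) → V) = f k := by
      intro k
      have h5 : f k ∈ range f := ⟨k, rfl⟩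
      rw [← hf] at h5
      exact h5
    choose w hw using h4
    refine ⟨w, fun c => ?_⟩
    have h6 : tp (L := L) (Fin.snoc a c : Fin (n + 1) → V) ∈ range f := by
      rw [← hf]
      exact ⟨c, rfl⟩
    obtain ⟨k, hk⟩ := h6
    exact ⟨k, by rw [hw, hk]⟩
  choose w hw using hw
  -- closing off
  obtain ⟨step, hstep⟩ : ∃ step : Set V → Set V, ∀ A, step A = A ∪ ⋃ n : ℕ, ⋃ a : Fin n → A,
    range (w n (fun i => (a i : V))) := ⟨_, fun _ => rfl⟩
  obtain ⟨M, hM0, hMs⟩ : ∃ M : ℕ → Set V, M 0 = ∅ ∧ ∀ k, M (k + 1) = step (M k) :=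
    ⟨fun k => Nat.rec ∅ (fun _ A => step A) k, rfl, fun _ => rfl⟩
  have hMc : ∀ k, (M k).Countable := by
    intro k
    induction k with
    | zero =>
      rw [hM0]
      exact countable_empty
    | succ k ih =>
      rw [hMs, hstep]
      have hck : Countable ↥(M k) := ih
      refine Set.Countable.union ih ?_
      refine countable_iUnion fun n => ?_
      exact countable_iUnion fun a => countable_range _
  have hMm : Monotone M := monotone_nat_of_le_succ fun k => by
    rw [hMs, hstep]
    exact subset_union_left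
  let W : Set V := ⋃ k, M k
  have hWc : W.Countable := countable_iUnion hMc
  have hWw : ∀ (n : ℕ) (a : Fin n → W) (j : ℕ), w n (fun i => (a i : V)) j ∈ W := by
    intro n a j
    have h2 : ∀ i, ∃ k, (a i : V) ∈ M k := fun i => mem_iUnion.1 (a i).2
    choose k hk using h2
    obtain ⟨m, hm⟩ : ∃ m, ∀ i, k i ≤ m := by
      obtain ⟨m, hm⟩ := (finite_range k).bddAbove
      exact ⟨m, fun i => hm ⟨i, rfl⟩⟩
    refine mem_iUnion.2 ⟨m + 1, ?_⟩
    rw [hMs, hstep]
    refine Or.inr (mem_iUnion.2 ⟨n, mem_iUnion.2 ⟨fun i => ⟨a i, hMm (hm i) (hk i)⟩, ?_⟩⟩)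
    exact ⟨j, rfl⟩
  have hWt : ∀ (n : ℕ) (a : Fin n → W) (c : V), ∃ c' : W,
      tp (L := L) (Fin.snoc (fun i => (a i : V)) (c' : V) : Fin (n + 1) → V) =
        tp (L := L) (Fin.snoc (fun i => (a i : V)) c : Fin (n + 1) → V) := by
    intro n a c
    obtain ⟨j, hj⟩ := hw n (fun i => (a i : V)) c
    exact ⟨⟨_, hWw n a j⟩, hj⟩
  -- the substructure
  let N : L.Substructure V :=
    { carrier := W
      fun_mem := by
        intro n F x hx
        obtain ⟨c', hc'⟩ := hWt n (fun i => ⟨x i, hx i⟩) (Structure.funMap F x)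
        have h2 : (Term.equal (Term.func F (fun i : Fin n => Term.var (Fin.castSucc i)))
            (Term.var (Fin.last n)) : L.Formula (Fin (n + 1))) ∈
            tp (L := L) (Fin.snoc x (Structure.funMap F x) : Fin (n + 1) → V) := by
          show Formula.Realize _ _
          simp
        have h3 : tp (L := L) (Fin.snoc x (c' : V) : Fin (n + 1) → V) =
            tp (L := L) (Fin.snoc x (Structure.funMap F x) : Fin (n + 1) → V) := hc'
        rw [← h3] at h2
        have h4 : Formula.Realize _ _ := h2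
        simp at h4
        rw [h4]
        exact c'.2 }
  let N' : L.ElementarySubstructure V := N.toElementarySubstructure (by
    intro n φ x a hφ
    obtain ⟨c', hc'⟩ := hWt n x a
    refine ⟨c', ?_⟩
    obtain ⟨ψ, hψ⟩ : ∃ ψ : L.Formula (Fin (n + 1)), ψ =
      (φ.toFormula.relabel (Sum.elim (fun e : Empty => e.elim) id)) := ⟨_, rfl⟩
    have h2 : ∀ v : Fin (n + 1) → V, ψ.Realize v ↔ φ.Realize default v := by
      intro v
      rw [hψ, Formula.realize_relabel, BoundedFormula.realize_toFormula]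
      have e1 : (v ∘ Sum.elim (fun e : Empty => e.elim) id) ∘ Sum.inl = default :=
        Subsingleton.elim _ _
      have e2 : (v ∘ Sum.elim (fun e : Empty => e.elim) id) ∘ Sum.inr = v := by
        funext i
        rfl
      rw [e1, e2]
    have h3 : ψ ∈ tp (L := L) (Fin.snoc (fun i => (x i : V)) a : Fin (n + 1) → V) :=
      (h2 _).2 hφ
    rw [← hc'] at h3
    exact (h2 _).1 h3)
  have hN'V : N' ⊨ ThS L S := (N'.subtype.theory_model_iff (ThS L S)).2 hV
  refine ⟨N', inferInstance, ?_, SUBM_inf S N' hN'V, hN'V, ?_⟩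
  · exact hWc
  · intro n a F hF
    have hreal : ∀ (x : N') (φ : L.Formula (Fin (n + 1))),
        φ.Realize (Fin.snoc (fun i => (a i : V)) (x : V) : Fin (n + 1) → V) ↔
          φ.Realize (Fin.snoc a x : Fin (n + 1) → N') := by
      intro x φ
      have e1 : (Fin.snoc (fun i => (a i : V)) (x : V) : Fin (n + 1) → V) =
          N'.subtype ∘ (Fin.snoc a x : Fin (n + 1) → N') := by
        funext i
        refine Fin.lastCases ?_ (fun j => ?_) i
        · simp
        · simp
      rw [e1]
      exact N'.subtype.map_formula φ _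
    obtain ⟨c, hc⟩ := hsat n (fun i => (a i : V)) F (fun G hG hGf => by
      obtain ⟨c, hc⟩ := hF G hG hGf
      exact ⟨c, fun φ hφ => (hreal c φ).2 (hc φ hφ)⟩)
    obtain ⟨c', hc'⟩ := hWt n a c
    refine ⟨c', fun φ hφ => (hreal c' φ).1 ?_⟩
    have h2 : φ ∈ tp (L := L) (Fin.snoc (fun i => (a i : V)) c : Fin (n + 1) → V) := hc φ hφ
    rw [← hc'] at h2
    exact h2

end Pool.Agent.WOM
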