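import Pool.Agent.WOM.StB

/-!
WOM, module TOP: assembly of the base part (helper45).
-/

set_option autoImplicit false

namespace Pool.Agent.WOM

open FirstOrder.Language Set
open scoped FirstOrder

theorem TOP_self (L : FirstOrder.Language.{0, 0}) (S : L.Structure ℕ) :
    @FirstOrder.Language.Theory.Model L ℕ S (ThS L S) := by
  let _ := S
  exact ⟨fun φ hφ => hφ⟩

theorem TOP_mono (L : FirstOrder.Language.{0, 0}) (T : L.Theory) (S : L.Structure ℕ)
    (hS : @FirstOrder.Language.Theory.Model L ℕ S T) (U : Type) [L.Structure U]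
    (hU : U ⊨ ThS L S) : U ⊨ T := by
  refine ⟨fun φ hφ => ?_⟩
  refine hU.realize_of_mem φ ?_
  let _ := S
  exact FirstOrder.Language.Theory.realize_sentence_of_mem T hφ

theorem thm_TOP (hULT : St_ULT) (hSUBM : St_SUBM) (hHOMG : St_HOMG) (hINC : St_INC)
    (hNSM : St_NSM) (hTRC : St_TRC) (hTRP : St_TRP) (hTRW : St_TRW) : St_TOP := by
  intro hNAU L hL T lt hT
  refine hINC L hL T fun S hS => ?_
  by_cases hsm : Small L (ThS L S)
  · obtain ⟨V, _, _, hV, hsV⟩ := hULT L hL S
    obtain ⟨U, _, hc, hi, hU, hsU⟩ := hSUBM L hL S hsm V hV hsV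
    have hM : Mon L U := hHOMG L U hc hi hsU
    obtain ⟨hW, hN⟩ := hTRW L T lt hT U hc hi (TOP_mono L T S hS U hU)
    rcases hNAU L hL U lt hM hW hN with h | h
    · exact Or.inl (hTRC L U hM h S hU)
    · exact Or.inr (hTRP L U hM h S hU)
  · exact Or.inr (hNSM L hL _ hsm)

end Pool.Agent.WOM
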