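import Pool.Agent.WOM.StB

/-!
WOM: countably many elementary submodels of `U` give countably many models (TRC).
-/

set_option autoImplicit false

namespace Pool.Agent.WOM

open FirstOrder.Language Set
open scoped FirstOrder

variable {L : FirstOrder.Language.{0, 0}}

private theorem TRC_iso (S S' : L.Structure ℕ) (h : ℕ ≃ ℕ)
    (H : ∀ (n : ℕ) (a : Fin n → ℕ), @tp L ℕ S n a = @tp L ℕ S' n (h ∘ a)) :
    Nonempty (@FirstOrder.Language.Equiv L ℕ ℕ S S') := by
  have hf : ∀ (n : ℕ) (a : Fin n → ℕ) (φ : L.Formula (Fin n)),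
      @FirstOrder.Language.Formula.Realize L ℕ S (Fin n) φ a ↔
        @FirstOrder.Language.Formula.Realize L ℕ S' (Fin n) φ (h ∘ a) := by
    intro n a φ
    have h1 : φ ∈ @tp L ℕ S n a ↔ φ ∈ @tp L ℕ S' n (h ∘ a) := by rw [H n a]
    exact h1
  refine ⟨@FirstOrder.Language.Equiv.mk L ℕ ℕ S S' h ?_ ?_⟩
  · intro n F x
    have h1 := hf (n + 1) (Fin.cons (@FirstOrder.Language.Structure.funMap L ℕ S n F x) x)
      (FirstOrder.Language.Formula.graph F)
    have h2 := (@FirstOrder.Language.Formula.realize_graph L ℕ S n F x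
      (@FirstOrder.Language.Structure.funMap L ℕ S n F x)).2 rfl
    have h3 := h1.1 h2
    have h4 : (h ∘ (Fin.cons (@FirstOrder.Language.Structure.funMap L ℕ S n F x) x :
        Fin (n + 1) → ℕ)) = Fin.cons (h (@FirstOrder.Language.Structure.funMap L ℕ S n F x))
          (h ∘ x) := by
      funext i
      refine Fin.cases ?_ (fun i => ?_) i
      · rfl
      · rfl
    rw [h4] at h3
    exact ((@FirstOrder.Language.Formula.realize_graph L ℕ S' n F (h ∘ x)
      (h (@FirstOrder.Language.Structure.funMap L ℕ S n F x))).1 h3).symm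
  · intro n R x
    have h1 := hf n x (R.formula fun i => FirstOrder.Language.Term.var i)
    rw [@FirstOrder.Language.Formula.realize_rel L ℕ S, @FirstOrder.Language.Formula.realize_rel
      L ℕ S'] at h1
    exact h1.symm

private theorem TRC_th (S S' : L.Structure ℕ)
    (h : @FirstOrder.Language.Theory.Model L ℕ S' (ThS L S)) : ThS L S' = ThS L S := by
  ext φ
  constructor
  · intro h1
    by_contra h2
    have h3 : φ.not ∈ ThS L S := h2
    have h4 := h.1 _ h3
    exact h4 h1
  · intro h1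
    exact h.1 _ h1

theorem thm_TRC (h1 : St_EMB) : St_TRC := by
  intro L U _ hU hC S hS
  classical
  obtain ⟨g, hg⟩ := hC
  let P : ℕ → L.Structure ℕ → Prop := fun n S' => ∃ f : ℕ → U, Function.Injective f ∧
    (∀ (n : ℕ) (a : Fin n → ℕ), @tp L ℕ S' n a = tp (L := L) (f ∘ a)) ∧
      IsoM L (range f) (g n)
  let G : ℕ → L.Structure ℕ := fun n => if h : ∃ S', P n S' then h.choose else S
  refine ⟨G, fun S'' hS'' => ?_⟩
  have hth := TRC_th S S'' hS''
  obtain ⟨f, hf1, hf2, hf3⟩ := h1 L U hU S'' (by rw [hth]; exact hS)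
  obtain ⟨n, hn⟩ := hg (range f) hf3
  have hex : ∃ S', P n S' := ⟨S'', f, hf1, hf2, hn⟩
  refine ⟨n, ?_⟩
  have hG : G n = hex.choose := dif_pos hex
  rw [hG]
  obtain ⟨f', hf1', hf2', hn'⟩ := hex.choose_spec
  obtain ⟨e, he⟩ := hn
  obtain ⟨e', he'⟩ := hn'
  let E : ℕ ≃ ℕ := (Equiv.ofInjective f hf1).trans (e.trans (e'.symm.trans
    (Equiv.ofInjective f' hf1').symm))
  refine TRC_iso S'' hex.choose E fun k a => ?_
  rw [hf2, hf2']
  have h5 := he k (fun i => Equiv.ofInjective f hf1 (a i))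
  have h6 := he' k (fun i => Equiv.ofInjective f' hf1' (E (a i)))
  have h7 : ∀ i, e' (Equiv.ofInjective f' hf1' (E (a i))) = e (Equiv.ofInjective f hf1 (a i)) := by
    intro i
    show e' (Equiv.ofInjective f' hf1' ((Equiv.ofInjective f' hf1').symm (e'.symm
      (e (Equiv.ofInjective f hf1 (a i)))))) = _
    rw [Equiv.apply_symm_apply, Equiv.apply_symm_apply]
  simp only [h7] at h6
  exact h5.trans h6.symm

end Pool.Agent.WOM
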