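import Pool.Agent.WOM.StB

/-!
WOM module ULT (helper74): countably saturated models via ultrapowers.
-/

set_option autoImplicit false

namespace Pool.Agent.WOM

open FirstOrder.Language Set
open scoped FirstOrder

/-- the ultrapower of `S` for the hyperfilter -/
private abbrev ULT_V : Type := ((Filter.hyperfilter ℕ : Ultrafilter ℕ) : Filter ℕ).Product (fun _ : ℕ => ℕ)

private theorem ULT_snoc {n : ℕ} (a : Fin n → ULT_V) (a' : Fin n → ℕ → ℕ)
    (ha : ∀ i, ((a' i : ℕ → ℕ) : ULT_V) = a i) (c : ULT_V) (c' : ℕ → ℕ) (hc : ((c' : ℕ → ℕ) : ULT_V) = c) :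
    (Fin.snoc a c : Fin (n + 1) → ULT_V) =
      fun i => (((Fin.snoc a' c' : Fin (n + 1) → ℕ → ℕ) i : ℕ → ℕ) : ULT_V) := by
  funext i
  refine Fin.lastCases ?_ (fun j => ?_) i
  · rw [Fin.snoc_last, Fin.snoc_last, hc]
  · rw [Fin.snoc_castSucc, Fin.snoc_castSucc, ha]

private theorem ULT_snoc' {n : ℕ} (a' : Fin n → ℕ → ℕ) (c' : ℕ → ℕ) (m : ℕ) :
    (fun i => (Fin.snoc a' c' : Fin (n + 1) → ℕ → ℕ) i m) =
      (Fin.snoc (fun i => a' i m) (c' m) : Fin (n + 1) → ℕ) := by
  funext i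
  refine Fin.lastCases ?_ (fun j => ?_) i
  · rw [Fin.snoc_last, Fin.snoc_last]
  · rw [Fin.snoc_castSucc, Fin.snoc_castSucc]

theorem thm_ULT (_h1 : St_DEF1) : St_ULT := by
  classical
  intro L hL S
  let _ : L.Structure ℕ := S
  have _ : Countable L.Symbols := hL
  refine ⟨ULT_V, inferInstance, inferInstance, ?_, ?_⟩
  · refine ⟨fun φ hφ => ?_⟩
    rw [Ultraproduct.sentence_realize]
    refine Filter.Eventually.of_forall (fun _ => ?_)
    exact hφ
  · intro n a F hF
    rcases F.eq_empty_or_nonempty with rfl | hne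
    · obtain ⟨c⟩ : Nonempty ULT_V := inferInstance
      exact ⟨c, fun φ hφ => absurd hφ (notMem_empty φ)⟩
    obtain ⟨φ, hφ⟩ := (F.to_countable).exists_eq_range hne
    have hrep : ∀ i, ∃ a' : ℕ → ℕ, ((a' : ℕ → ℕ) : ULT_V) = a i := fun i => Quotient.exists_rep (a i)
    choose a' ha' using hrep
    set Y : ℕ → ℕ → Prop := fun k m => ∃ x : ℕ, ∀ j ≤ k,
      (φ j).Realize (Fin.snoc (fun i => a' i m) x : Fin (n + 1) → ℕ) with hY
    have hYu : ∀ k, ∀ᶠ m in ((Filter.hyperfilter ℕ : Ultrafilter ℕ) : Filter ℕ), Y k m := by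
      intro k
      obtain ⟨c, hc⟩ := hF (φ '' Iic k) (by rintro _ ⟨j, -, rfl⟩; rw [hφ]; exact mem_range_self j)
        ((finite_Iic k).image φ)
      obtain ⟨c', hc'⟩ : ∃ c' : ℕ → ℕ, ((c' : ℕ → ℕ) : ULT_V) = c := Quotient.exists_rep c
      have h1 : ∀ᶠ m in ((Filter.hyperfilter ℕ : Ultrafilter ℕ) : Filter ℕ), ∀ j ∈ Iic k,
          (φ j).Realize (Fin.snoc (fun i => a' i m) (c' m) : Fin (n + 1) → ℕ) := by
        rw [Filter.eventually_all_finite (finite_Iic k)]
        intro j hj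
        have h2 := hc (φ j) (mem_image_of_mem φ hj)
        rw [ULT_snoc a a' ha' c c' hc'] at h2
        have h6 := (Ultraproduct.realize_formula_cast (M := fun _ : ℕ => ℕ)
          (u := Filter.hyperfilter ℕ) (φ j) (Fin.snoc a' c' : Fin (n + 1) → ℕ → ℕ)).1 h2
        filter_upwards [h6] with m hm
        rw [ULT_snoc'] at hm
        exact hm
      filter_upwards [h1] with m hm
      exact ⟨c' m, fun j hj => hm j hj⟩
    have hbig : ∀ k, ∀ᶠ m in ((Filter.hyperfilter ℕ : Ultrafilter ℕ) : Filter ℕ), k ≤ m := by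
      intro k
      have h1 : ∀ᶠ m in Filter.cofinite, k ≤ m := by
        rw [Nat.cofinite_eq_atTop]
        exact Filter.eventually_ge_atTop k
      exact h1.filter_mono Filter.hyperfilter_le_cofinite
    let c' : ℕ → ℕ := fun m =>
      if h : Y (Nat.findGreatest (fun k => Y k m) m) m then Classical.choose h else 0
    refine ⟨((c' : ℕ → ℕ) : ULT_V), ?_⟩
    intro ψ hψ
    rw [hφ] at hψ
    obtain ⟨k, rfl⟩ := hψ
    rw [ULT_snoc a a' ha' _ c' rfl]
    refine (Ultraproduct.realize_formula_cast (M := fun _ : ℕ => ℕ)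
          (u := Filter.hyperfilter ℕ) (φ k) (Fin.snoc a' c' : Fin (n + 1) → ℕ → ℕ)).2 ?_
    filter_upwards [hYu k, hbig k] with m hm hkm
    rw [ULT_snoc']
    have h3 : Y (Nat.findGreatest (fun k => Y k m) m) m :=
      Nat.findGreatest_spec (P := fun k => Y k m) hkm hm
    have h4 : k ≤ Nat.findGreatest (fun k => Y k m) m := Nat.le_findGreatest hkm hm
    have h5 : c' m = Classical.choose h3 := dif_pos h3
    rw [h5]
    exact Classical.choose_spec h3 k h4

end Pool.Agent.WOM
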