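import Mathlib

/-!
WOM: Vaught's conjecture for weakly o-minimal theories without adic types.  Base definitions
(helper45).  Everything takes place in a countable saturated model `U` (`Mon`).
-/

set_option autoImplicit false

namespace Pool.Agent.WOM

open FirstOrder.Language Set
open scoped FirstOrder

section gen

variable {L : FirstOrder.Language.{0, 0}} {M : Type} [L.Structure M]

/-- the type of a tuple -/
def tp {n : ℕ} (a : Fin n → M) : Set (L.Formula (Fin n)) := {φ | φ.Realize a}

variable (L) in
/-- `x` and `y` have the same type over `A` -/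
def Eqv (A : Set M) (x y : M) : Prop := ∀ s : Set M, A.Definable₁ L s → (x ∈ s ↔ y ∈ s)

variable (L) in
/-- The type of `c` over `A` is complete over `B` (elementary form, for every structure):
every `B`-definable set contains or avoids some `A`-definable set around `c`. -/
def CplE (A B : Set M) (c : M) : Prop :=
  ∀ s : Set M, B.Definable₁ L s → ∃ t : Set M, A.Definable₁ L t ∧ c ∈ t ∧ (t ⊆ s ∨ t ⊆ sᶜ)

/-- the order relation defined by the formula `lt` -/
def ltR (lt : L.Formula (Fin 2)) (x y : M) : Prop := lt.Realize ![x, y]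

/-- convex sets -/
def Cnv (lt : L.Formula (Fin 2)) (C : Set M) : Prop :=
  ∀ x ∈ C, ∀ z ∈ C, ∀ y, ltR lt x y → ltR lt y z → y ∈ C

variable (M) in
/-- `M` is weakly o-minimal: `lt` is a strict linear order, and every definable set (with parameters)
is a finite union of convex sets. -/
structure WOMin (lt : L.Formula (Fin 2)) : Prop where
  irrefl : ∀ x : M, ¬ ltR lt x x
  trans : ∀ x y z : M, ltR lt x y → ltR lt y z → ltR lt x z
  total : ∀ x y : M, x ≠ y → ltR lt x y ∨ ltR lt y x
  fin : ∀ s : Set M, (univ : Set M).Definable₁ L s →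
    ∃ (n : ℕ) (C : Fin n → Set M), (∀ i, Cnv lt (C i)) ∧ s = ⋃ i, C i

variable (L M) in
/-- No adic types: if `a`, `a'` have the same type over the finite set `A`, and the type of `c` over
`A` is complete over `A` and `a`, then it is complete over `A`, `a`, `a'`. -/
def NoAdic : Prop :=
  ∀ (A : Set M) (a a' c : M), A.Finite → Eqv L A a a' → CplE L A (insert a A) c →
    CplE L A (insert a' (insert a A)) c

end gen

/-! ### The statement -/

/-- The dichotomy: countably many models on `ℕ` up to isomorphism, or a continuous map from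
Cantor space to the models with pairwise nonisomorphic values (as in S14759). -/
def Dichotomy (L : FirstOrder.Language.{0, 0}) (T : L.Theory) : Prop :=
  (∃ g : ℕ → L.Structure ℕ, ∀ S : L.Structure ℕ,
      @FirstOrder.Language.Theory.Model L ℕ S T → ∃ n : ℕ, Nonempty (@FirstOrder.Language.Equiv L ℕ ℕ S (g n))) ∨
  (∃ f : (ℕ → Bool) → L.Structure ℕ,
      (∀ x : ℕ → Bool, @FirstOrder.Language.Theory.Model L ℕ (f x) T) ∧
      (∀ x y : ℕ → Bool, Nonempty (@FirstOrder.Language.Equiv L ℕ ℕ (f x) (f y)) → x = y) ∧
      (∀ (n : ℕ) (R : L.Relations n) (a : Fin n → ℕ),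
          IsClopen {x : ℕ → Bool | @FirstOrder.Language.Structure.RelMap L ℕ (f x) n R a}) ∧
      (∀ (n : ℕ) (F : L.Functions n) (a : Fin n → ℕ) (b : ℕ),
          IsOpen {x : ℕ → Bool | @FirstOrder.Language.Structure.funMap L ℕ (f x) n F a = b}))

/-- THE THEOREM -/
def St_NA : Prop :=
  ∀ (L : FirstOrder.Language.{0, 0}), Countable L.Symbols → ∀ (T : L.Theory) (lt : L.Formula (Fin 2)),
    (∀ S : L.Structure ℕ, @FirstOrder.Language.Theory.Model L ℕ S T → @WOMin L ℕ S lt ∧ @NoAdic L ℕ S) →
    Dichotomy L T

/-! ### The saturated model -/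

section U

variable (L : FirstOrder.Language.{0, 0}) (U : Type) [L.Structure U]

/-- `U` is infinite, countable, saturated and homogeneous -/
structure Mon : Prop where
  inf : Infinite U
  ctb : Countable U
  sat : ∀ A : Set U, A.Finite → ∀ F : Set (Set U), (∀ s ∈ F, A.Definable₁ L s) →
    (∀ G ⊆ F, G.Finite → (⋂₀ G).Nonempty) → (⋂₀ F).Nonempty
  hom : ∀ (n : ℕ) (a b : Fin n → U), tp (L := L) a = tp b → ∃ g : U ≃[L] U, ∀ i, g (a i) = b i

variable {U}

/-- elementary submodels of `U` -/
def IsEl (M : Set U) : Prop := ∀ s : Set U, M.Definable₁ L s → s.Nonempty → (s ∩ M).Nonempty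

/-- elementary isomorphism of subsets of `U` -/
def IsoM (M M' : Set U) : Prop :=
  ∃ e : M ≃ M', ∀ (n : ℕ) (a : Fin n → M),
    tp (L := L) (fun i => (a i : U)) = tp (fun i => (e (a i) : U))

variable (U) in
/-- countably many elementary submodels up to isomorphism -/
def CtU : Prop := ∃ g : ℕ → Set U, ∀ M : Set U, IsEl L M → ∃ n, IsoM L M (g n)

/-- continuous families of elementary submodels, with injective enumerations -/
structure Fam (u : (ℕ → Bool) → ℕ → U) : Prop where
  inj : ∀ x, Function.Injective (u x)
  el : ∀ x, IsEl L (range (u x))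
  cont : ∀ (n : ℕ) (v : U), IsOpen {x : ℕ → Bool | u x n = v}

variable (U) in
/-- perfectly many elementary submodels -/
def PfU : Prop := ∃ u : (ℕ → Bool) → ℕ → U, Fam L u ∧
  ∀ x y, IsoM L (range (u x)) (range (u y)) → x = y

end U

/-- THE THEOREM for the saturated model -/
def St_NAU : Prop :=
  ∀ (L : FirstOrder.Language.{0, 0}), Countable L.Symbols → ∀ (U : Type) [L.Structure U]
    (lt : L.Formula (Fin 2)), Mon L U → WOMin U lt → NoAdic L U → CtU L U ∨ PfU L U

end Pool.Agent.WOM
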