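import Pool.Agent.WOM.StC

/-!
WOM, module LV0: equivalence of level `ω` gives automorphisms (helper34).
-/

set_option autoImplicit false
set_option linter.unusedVariables false
set_option linter.unusedSectionVars false

namespace Pool.Agent.WOM

open FirstOrder.Language Set
open scoped FirstOrder

section

variable {L : FirstOrder.Language.{0, 0}} {U : Type} [S : L.Structure U]

private theorem LV0_def {M : Set U} {α : Type} {k : ℕ} (ψ : L.BoundedFormula α (k + 1))
    (a : α → U) (b : Fin k → U) (ha : ∀ i, a i ∈ M) (hb : ∀ i, b i ∈ M) :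
    M.Definable₁ L {u : U | ψ.Realize a (Fin.snoc b u : Fin (k + 1) → U)} := by
  unfold Definable₁
  rw [definable_iff_exists_formula_sum]
  refine ⟨ψ.toFormula.relabel (Sum.elim (fun i => Sum.inl ⟨a i, ha i⟩)
    (Fin.snoc (α := fun _ => M ⊕ Fin 1) (fun j => Sum.inl ⟨b j, hb j⟩) (Sum.inr 0))), ?_⟩
  ext v
  rw [mem_ofPred_eq, mem_ofPred_eq, mem_ofPred_eq, FirstOrder.Language.Formula.realize_relabel,
    FirstOrder.Language.BoundedFormula.realize_toFormula]
  have h1 : ((Sum.elim (fun x : M => (x : U)) v ∘ Sum.elim (fun i => Sum.inl ⟨a i, ha i⟩)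
    (Fin.snoc (α := fun _ => M ⊕ Fin 1) (fun j => Sum.inl ⟨b j, hb j⟩) (Sum.inr 0))) ∘ Sum.inl) = a := by
    funext i
    rfl
  have h2 : ((Sum.elim (fun x : M => (x : U)) v ∘ Sum.elim (fun i => Sum.inl ⟨a i, ha i⟩)
    (Fin.snoc (α := fun _ => M ⊕ Fin 1) (fun j => Sum.inl ⟨b j, hb j⟩) (Sum.inr 0))) ∘ Sum.inr) =
      (Fin.snoc b (v 0) : Fin (k + 1) → U) := by
    funext j
    refine Fin.lastCases ?_ (fun i => ?_) j
    · simp
    · simp
  rw [h1, h2]

private theorem LV0_term [∀ n, IsEmpty (L.Functions n)] {β : Type} (t : L.Term β) :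
    ∃ i : β, t = FirstOrder.Language.Term.var i := by
  cases t with
  | var i => exact ⟨i, rfl⟩
  | func f ts => exact isEmptyElim f

/-- formulas are preserved at some finite level -/
private theorem LV0_form [∀ n, IsEmpty (L.Functions n)] {M M' : Set U} (hM : IsEl L M)
    (hM' : IsEl L M') {α : Type} {k : ℕ} (φ : L.BoundedFormula α k) :
    ∃ N : ℕ, ∀ (Γ : Set (U × U)) (v : α → U × U) (w : Fin k → U × U),
      (∀ p ∈ Γ, p.1 ∈ M ∧ p.2 ∈ M') → (∀ i, v i ∈ Γ) → (∀ i, w i ∈ Γ) →
      Pool.Agent.Helper79.VC.BFR S S M M' (N : Ordinal.{0}) Γ →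
      (φ.Realize (fun i => (v i).1) (fun i => (w i).1) ↔
        φ.Realize (fun i => (v i).2) (fun i => (w i).2)) := by
  induction φ with
  | falsum => exact ⟨0, fun Γ v w _ _ _ _ => Iff.rfl⟩
  | @equal n t₁ t₂ =>
    refine ⟨0, fun Γ v w hΓ hv hw h => ?_⟩
    obtain ⟨i, rfl⟩ := LV0_term t₁
    obtain ⟨j, rfl⟩ := LV0_term t₂
    have h1 : ∀ i : α ⊕ Fin n, ∃ p ∈ Γ, Sum.elim (fun i => (v i).1) (fun i => (w i).1) i = p.1 ∧
        Sum.elim (fun i => (v i).2) (fun i => (w i).2) i = p.2 := by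
      rintro (i | i)
      · exact ⟨v i, hv i, rfl, rfl⟩
      · exact ⟨w i, hw i, rfl, rfl⟩
    obtain ⟨p, hp, hp1, hp2⟩ := h1 i
    obtain ⟨q, hq, hq1, hq2⟩ := h1 j
    show Sum.elim (fun i => (v i).1) (fun i => (w i).1) i =
        Sum.elim (fun i => (v i).1) (fun i => (w i).1) j ↔
      Sum.elim (fun i => (v i).2) (fun i => (w i).2) i =
        Sum.elim (fun i => (v i).2) (fun i => (w i).2) j
    rw [hp1, hp2, hq1, hq2]
    exact h.atEq.1 p hp q hq
  | @rel n l R ts =>
    refine ⟨0, fun Γ v w hΓ hv hw h => ?_⟩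
    choose c hc using fun i => LV0_term (ts i)
    have h1 : ∀ i : α ⊕ Fin n, ∃ p ∈ Γ, Sum.elim (fun i => (v i).1) (fun i => (w i).1) i = p.1 ∧
        Sum.elim (fun i => (v i).2) (fun i => (w i).2) i = p.2 := by
      rintro (i | i)
      · exact ⟨v i, hv i, rfl, rfl⟩
      · exact ⟨w i, hw i, rfl, rfl⟩
    choose p hp hp1 hp2 using h1
    have h2 := h.atEq.2 l R (fun i => p (c i)) (fun i => hp _)
    have e1 : (fun i => (ts i).realize (Sum.elim (fun i => (v i).1) (fun i => (w i).1))) =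
        fun i => (p (c i)).1 := by
      funext i
      rw [hc i]
      exact hp1 (c i)
    have e2 : (fun i => (ts i).realize (Sum.elim (fun i => (v i).2) (fun i => (w i).2))) =
        fun i => (p (c i)).2 := by
      funext i
      rw [hc i]
      exact hp2 (c i)
    show S.RelMap R (fun i => (ts i).realize (Sum.elim (fun i => (v i).1) (fun i => (w i).1))) ↔
      S.RelMap R (fun i => (ts i).realize (Sum.elim (fun i => (v i).2) (fun i => (w i).2)))
    rw [e1, e2]
    exact h2
  | @imp n φ₁ φ₂ ih₁ ih₂ =>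
    obtain ⟨N₁, h₁⟩ := ih₁
    obtain ⟨N₂, h₂⟩ := ih₂
    refine ⟨max N₁ N₂, fun Γ v w hΓ hv hw h => ?_⟩
    have e1 := h₁ Γ v w hΓ hv hw (h.mono (by exact_mod_cast le_max_left _ _))
    have e2 := h₂ Γ v w hΓ hv hw (h.mono (by exact_mod_cast le_max_right _ _))
    rw [FirstOrder.Language.BoundedFormula.realize_imp,
      FirstOrder.Language.BoundedFormula.realize_imp, e1, e2]
  | @all n ψ ih =>
    obtain ⟨N, hN⟩ := ih
    refine ⟨N + 1, fun Γ v w hΓ hv hw h => ?_⟩
    have hlt : ((N : ℕ) : Ordinal.{0}) < ((N + 1 : ℕ) : Ordinal.{0}) := by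
      exact_mod_cast Nat.lt_succ_self N
    have key : ∀ x y : U, x ∈ M → y ∈ M' →
        Pool.Agent.Helper79.VC.BFR S S M M' (N : Ordinal.{0}) (insert (x, y) Γ) →
        (ψ.Realize (fun i => (v i).1) (Fin.snoc (fun i => (w i).1) x : Fin (n + 1) → U) ↔
          ψ.Realize (fun i => (v i).2) (Fin.snoc (fun i => (w i).2) y : Fin (n + 1) → U)) := by
      intro x y hx hy hxy
      have h3 := hN (insert (x, y) Γ) v (Fin.snoc w (x, y) : Fin (n + 1) → U × U) (by
        rintro p (rfl | hp)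
        · exact ⟨hx, hy⟩
        · exact hΓ p hp) (fun i => mem_insert_of_mem _ (hv i)) (by
        intro i
        refine Fin.lastCases ?_ (fun j => ?_) i
        · rw [Fin.snoc_last]
          exact mem_insert _ _
        · rw [Fin.snoc_castSucc]
          exact mem_insert_of_mem _ (hw j)) hxy
      have e1 : (fun i => ((Fin.snoc w (x, y) : Fin (n + 1) → U × U) i).1) =
          (Fin.snoc (fun i => (w i).1) x : Fin (n + 1) → U) := by
        funext i
        refine Fin.lastCases ?_ (fun j => ?_) i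
        · rw [Fin.snoc_last, Fin.snoc_last]
        · rw [Fin.snoc_castSucc, Fin.snoc_castSucc]
      have e2 : (fun i => ((Fin.snoc w (x, y) : Fin (n + 1) → U × U) i).2) =
          (Fin.snoc (fun i => (w i).2) y : Fin (n + 1) → U) := by
        funext i
        refine Fin.lastCases ?_ (fun j => ?_) i
        · rw [Fin.snoc_last, Fin.snoc_last]
        · rw [Fin.snoc_castSucc, Fin.snoc_castSucc]
      rw [e1, e2] at h3
      exact h3
    rw [FirstOrder.Language.BoundedFormula.realize_all,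
      FirstOrder.Language.BoundedFormula.realize_all]
    constructor
    · intro h1
      by_contra h2
      push Not at h2
      obtain ⟨u, hu⟩ := h2
      have h3 := LV0_def (L := L) (M := M') ψ.not (fun i => (v i).2) (fun i => (w i).2)
        (fun i => (hΓ _ (hv i)).2) (fun i => (hΓ _ (hw i)).2)
      obtain ⟨y, hy1, hy2⟩ := hM' _ h3 ⟨u, hu⟩
      obtain ⟨x, hx, hxy⟩ := h.back hlt hy2
      exact hy1 ((key x y hx hy2 hxy).1 (h1 x))
    · intro h1
      by_contra h2
      push Not at h2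
      obtain ⟨u, hu⟩ := h2
      have h3 := LV0_def (L := L) (M := M) ψ.not (fun i => (v i).1) (fun i => (w i).1)
        (fun i => (hΓ _ (hv i)).1) (fun i => (hΓ _ (hw i)).1)
      obtain ⟨x, hx1, hx2⟩ := hM _ h3 ⟨u, hu⟩
      obtain ⟨y, hy, hxy⟩ := h.forth hlt hx2
      exact hx1 ((key x y hx2 hy hxy).2 (h1 y))

end

theorem thm_LV0 : St_LV0 := by
  intro L _ U S hU M M' Γ γ hM hM' hΓf hΓ hγ h
  obtain ⟨n, p, hp⟩ : ∃ (n : ℕ) (p : Fin n → U × U), range p = Γ := by
    have := hΓf.fintype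
    refine ⟨Fintype.card Γ, fun i => ((Fintype.equivFin Γ).symm i : U × U), ?_⟩
    ext z
    constructor
    · rintro ⟨i, rfl⟩
      exact ((Fintype.equivFin Γ).symm i).2
    · intro hz
      exact ⟨Fintype.equivFin Γ ⟨z, hz⟩, by simp⟩
  have htp : tp (L := L) (fun i => (p i).1) = tp (fun i => (p i).2) := by
    ext φ
    obtain ⟨N, hN⟩ := LV0_form hM hM' φ
    have h1 := hN Γ p (fun i => i.elim0) hΓ (fun i => hp ▸ mem_range_self i)
      (fun i => i.elim0) (h.mono ((Ordinal.natCast_lt_omega0 N).le.trans hγ))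
    have e1 : (fun i : Fin 0 => ((i.elim0 : U × U)).1) = (default : Fin 0 → U) :=
      Subsingleton.elim _ _
    have e2 : (fun i : Fin 0 => ((i.elim0 : U × U)).2) = (default : Fin 0 → U) :=
      Subsingleton.elim _ _
    rw [e1, e2] at h1
    exact h1
  obtain ⟨σ, hσ⟩ := hU.hom n _ _ htp
  refine ⟨σ, fun q hq => ?_⟩
  rw [← hp] at hq
  obtain ⟨i, rfl⟩ := hq
  exact hσ i

end Pool.Agent.WOM
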