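import Pool.Agent.WOM.StB

/-!
WOM, module TRW: weak o-minimality and the absence of adic types are invariant under isomorphism.
-/

set_option autoImplicit false

namespace Pool.Agent.WOM

open FirstOrder.Language Set
open scoped FirstOrder

section

variable {L : FirstOrder.Language.{0, 0}} {M N : Type} [L.Structure M] [L.Structure N]

theorem TRW_def (g : M ≃[L] N) (A s : Set M) (h : A.Definable₁ L s) :
    (g '' A).Definable₁ L (g '' s) := by
  have h1 : A.Definable L {x : Fin 1 → M | x 0 ∈ s} := h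
  show (g '' A).Definable L {x : Fin 1 → N | x 0 ∈ g '' s}
  rw [Set.definable_iff_exists_formula_sum] at h1 ⊢
  obtain ⟨φ, hφ⟩ := h1
  refine ⟨φ.relabel (Sum.map (fun a : A => (⟨g a, mem_image_of_mem g a.2⟩ : ↥(g '' A))) id), ?_⟩
  ext v
  rw [Set.mem_ofPred_eq, Set.mem_ofPred_eq, FirstOrder.Language.Formula.realize_relabel]
  have h2 : (fun i => g.symm (v i)) ∈ {x : Fin 1 → M | x 0 ∈ s} ↔
      φ.Realize (Sum.elim (fun a : A => (a : M)) (fun i => g.symm (v i))) := by
    rw [hφ]
    rfl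
  have h3 : φ.Realize (Sum.elim (fun a : A => (a : M)) (fun i => g.symm (v i))) ↔
      φ.Realize (g ∘ Sum.elim (fun a : A => (a : M)) (fun i => g.symm (v i))) :=
    (FirstOrder.Language.StrongHomClass.realize_formula g φ).symm
  have h4 : g ∘ Sum.elim (fun a : A => (a : M)) (fun i => g.symm (v i)) =
      Sum.elim (fun a : ↥(g '' A) => (a : N)) v ∘
        Sum.map (fun a : A => (⟨g a, mem_image_of_mem g a.2⟩ : ↥(g '' A))) id := by
    funext i
    rcases i with a | i
    · rfl
    · show g (g.symm (v i)) = v i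
      exact g.apply_symm_apply _
  rw [← h4, ← h3, ← h2]
  show v 0 ∈ g '' s ↔ g.symm (v 0) ∈ s
  constructor
  · rintro ⟨x, hx, hx2⟩
    rw [← hx2, g.symm_apply_apply]
    exact hx
  · intro hx
    exact ⟨_, hx, g.apply_symm_apply _⟩

theorem TRW_sym (g : M ≃[L] N) (A : Set M) : g.symm '' (g '' A) = A := by
  rw [image_image]
  simp only [g.symm_apply_apply]
  exact image_id' A

theorem TRW_mem (g : M ≃[L] N) (s : Set N) (x : M) : x ∈ g.symm '' s ↔ g x ∈ s := by
  constructor
  · rintro ⟨y, hy, rfl⟩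
    rw [g.apply_symm_apply]
    exact hy
  · intro hx
    exact ⟨_, hx, g.symm_apply_apply _⟩

theorem TRW_back (g : M ≃[L] N) (A : Set M) (s : Set N) (h : (g '' A).Definable₁ L s) :
    A.Definable₁ L (g.symm '' s) := by
  have h1 := TRW_def g.symm (g '' A) s h
  rwa [TRW_sym] at h1

theorem TRW_lt (g : M ≃[L] N) (lt : L.Formula (Fin 2)) (x y : M) :
    ltR lt x y ↔ ltR lt (g x) (g y) := by
  unfold ltR
  rw [← FirstOrder.Language.StrongHomClass.realize_formula g lt]
  have h1 : g ∘ ![x, y] = ![g x, g y] := by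
    funext i
    refine Fin.cases rfl (fun i => ?_) i
    refine Fin.cases rfl (fun i => i.elim0) i
  rw [h1]

theorem TRW_wo (g : M ≃[L] N) (lt : L.Formula (Fin 2)) (h : WOMin N lt) : WOMin M lt where
  irrefl x hx := h.irrefl (g x) ((TRW_lt g lt x x).1 hx)
  trans x y z h1 h2 := (TRW_lt g lt x z).2
    (h.trans _ _ _ ((TRW_lt g lt x y).1 h1) ((TRW_lt g lt y z).1 h2))
  total x y hxy := by
    rcases h.total (g x) (g y) (fun h1 => hxy (g.injective h1)) with h1 | h1
    · exact Or.inl ((TRW_lt g lt x y).2 h1)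
    · exact Or.inr ((TRW_lt g lt y x).2 h1)
  fin s hs := by
    have h1 := TRW_def g univ s hs
    rw [image_univ_of_surjective g.surjective] at h1
    obtain ⟨n, C, hC, hU⟩ := h.fin _ h1
    refine ⟨n, fun i => g ⁻¹' C i, fun i x hx z hz y hxy hyz => ?_, ?_⟩
    · exact hC i (g x) hx (g z) hz (g y) ((TRW_lt g lt x y).1 hxy) ((TRW_lt g lt y z).1 hyz)
    · rw [← preimage_iUnion, ← hU, preimage_image_eq _ g.injective]

theorem TRW_eqv (g : M ≃[L] N) (A : Set M) (a a' : M) (h : Eqv L A a a') :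
    Eqv L (g '' A) (g a) (g a') := by
  intro s hs
  rw [← TRW_mem, ← TRW_mem]
  exact h _ (TRW_back g A s hs)

theorem TRW_cpl (g : M ≃[L] N) (A B : Set M) (c : M) (h : CplE L A B c) :
    CplE L (g '' A) (g '' B) (g c) := by
  intro s hs
  obtain ⟨t, ht, hc, hts⟩ := h _ (TRW_back g B s hs)
  refine ⟨g '' t, TRW_def g A t ht, mem_image_of_mem g hc, ?_⟩
  rcases hts with h1 | h1
  · left
    rintro _ ⟨x, hx, rfl⟩
    exact (TRW_mem g s x).1 (h1 hx)
  · right
    rintro _ ⟨x, hx, rfl⟩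
    exact fun h2 => h1 hx ((TRW_mem g s x).2 h2)

theorem TRW_na (g : M ≃[L] N) (h : NoAdic L N) : NoAdic L M := by
  intro A a a' c hA haa hc
  have h1 := TRW_cpl g A _ c hc
  rw [image_insert_eq] at h1
  have h2 := h (g '' A) (g a) (g a') (g c) (hA.image g) (TRW_eqv g A a a' haa) h1
  rw [← image_insert_eq, ← image_insert_eq] at h2
  have h3 := TRW_cpl g.symm _ _ _ h2
  rwa [TRW_sym, TRW_sym, g.symm_apply_apply] at h3

end

theorem thm_TRW : St_TRW := by
  intro L T lt h U _ hc hi hT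
  obtain ⟨e⟩ : Nonempty (U ≃ ℕ) := nonempty_equiv_of_countable
  let S : L.Structure ℕ := e.inducedStructure
  let g : U ≃[L] ℕ := e.inducedStructureEquiv
  have h1 : ℕ ⊨ T := FirstOrder.Language.StrongHomClass.theory_model g
  obtain ⟨h2, h3⟩ := h S h1
  exact ⟨TRW_wo g lt h2, TRW_na g h3⟩

end Pool.Agent.WOM
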