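import Pool.Agent.WOM.StD

/-!
WOM: the standing hypotheses (helper25)
-/

set_option autoImplicit false

namespace Pool.Agent.WOM

open FirstOrder.Language Set
open scoped FirstOrder

section

variable {L : FirstOrder.Language.{0, 0}} {U : Type} [L.Structure U]

open Classical in
/-- the linear order defined by the formula -/
@[instance_reducible]
noncomputable def WMX_ord (lt : L.Formula (Fin 2)) (h : WOMin U lt) : LinearOrder U where
  le := fun x y => x = y ∨ ltR lt x y
  lt := fun x y => ltR lt x y
  le_refl := fun x => Or.inl rfl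
  le_trans := by
    rintro x y z (rfl | h1) (rfl | h2)
    · exact Or.inl rfl
    · exact Or.inr h2
    · exact Or.inr h1
    · exact Or.inr (h.trans _ _ _ h1 h2)
  lt_iff_le_not_ge := by
    intro x y
    constructor
    · intro h1
      refine ⟨Or.inr h1, ?_⟩
      rintro (rfl | h2)
      · exact h.irrefl _ h1
      · exact h.irrefl _ (h.trans _ _ _ h1 h2)
    · rintro ⟨rfl | h1, h2⟩
      · exact absurd (Or.inl rfl) h2
      · exact h1
  le_antisymm := by
    rintro x y (rfl | h1) (h2 | h2)
    · rfl
    · rfl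
    · exact h2.symm
    · exact absurd (h.trans _ _ _ h1 h2) (h.irrefl _)
  le_total := by
    intro x y
    by_cases hxy : x = y
    · exact Or.inl (Or.inl hxy)
    · rcases h.total x y hxy with h1 | h1
      · exact Or.inl (Or.inr h1)
      · exact Or.inr (Or.inr h1)
  toDecidableLE := Classical.decRel _
  toDecidableEq := Classical.decEq _
  toDecidableLT := Classical.decRel _

theorem WMX_nn (hAUT : St_AUT L U) (hCPL : St_CPL L U) (hM : Mon L U) (A : Set U) (a c : U) (hA : A.Finite) :
    ¬ Nn L A a c ↔ CplE L A (insert a A) c := by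
  have hc := hCPL hM A (insert a A) c hA (hA.insert a) (Set.subset_insert _ _)
  have h1 := (hAUT hM).2.2
  rw [hc]
  unfold Nn
  rw [not_not]
  constructor
  · intro h y hy
    have h2 : y ∈ Orb L A c := (h1 A c y hA).1 hy
    rw [← h] at h2
    exact (h1 (insert a A) c y (hA.insert a)).2 h2
  · intro h
    apply Set.Subset.antisymm
    · rintro y ⟨g, hg, hy⟩
      exact ⟨g, fun b hb => hg b (Set.mem_insert_of_mem _ hb), hy⟩
    · intro y hy
      exact (h1 (insert a A) c y (hA.insert a)).1 (h y ((h1 A c y hA).2 hy))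

end

theorem thm_WMX (hAUT : ∀ (L : FirstOrder.Language.{0, 0}) (U : Type) [L.Structure U], St_AUT L U)
    (hCPL : ∀ (L : FirstOrder.Language.{0, 0}) (U : Type) [L.Structure U], St_CPL L U) :
    St_WMX := by
  intro L U _ lt hM hW hS
  let _ := WMX_ord lt hW
  refine ⟨WMX_ord lt hW, ?_⟩
  refine { mon := hM, ord := ?_, fin := ?_, na := ?_ }
  · rw [Set.empty_definable_iff]
    refine ⟨lt, ?_⟩
    ext v
    have h1 : (![v 0, v 1] : Fin 2 → U) = v := by
      funext i
      fin_cases i <;> rfl
    show lt.Realize ![v 0, v 1] ↔ lt.Realize v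
    rw [h1]
  · intro s hs
    obtain ⟨n, C, hC, hs'⟩ := hW.fin s hs
    refine ⟨n, C, fun i => ?_, hs'⟩
    refine ⟨fun x hx z hz y hy => ?_⟩
    rcases hy.1 with h1 | h1
    · rw [← h1]
      exact hx
    · rcases hy.2 with h2 | h2
      · rw [h2]
        exact hz
      · exact hC i x hx z hz y h1 h2
  · intro A a c d hA h
    rw [WMX_nn (hAUT L U) (hCPL L U) hM A a c hA] at h
    rw [WMX_nn (hAUT L U) (hCPL L U) hM (insert d A) a c (hA.insert d)]
    exact hS A a c d hA h

end Pool.Agent.WOM
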