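import Pool.Agent.WOM.StS3

/-!
WOM [SAT]: atomic extensions (helper98; statement and proof by helper41).
-/

set_option autoImplicit false
set_option linter.unusedVariables false

namespace Pool.Agent.WOM

open FirstOrder.Language Set
open scoped FirstOrder

theorem thm_SAT (hORB : St_ORB) (hSDI : St_nSDI) (hISO : St_nISO) : St_SAT := by
  intro L U _ _ hW A hA D hD
  obtain ⟨-, -, -, -, o5, -, -, -, -⟩ := hORB L U hW.mon
  obtain ⟨-, -, s3, -, -⟩ := hSDI L U hW
  have h1 : ∀ E : Set U, Atm L A E → E.Finite ∧ A ⊆ E := by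
    intro E hE
    induction hE with
    | base => exact ⟨hA, Subset.refl A⟩
    | step E y _ _ ih => exact ⟨ih.1.insert y, ih.2.trans (subset_insert y E)⟩
  have h2 : ∀ E : Set U, Atm L A E → ∀ z, ¬ Isd L A z →
      Orb L E z = Orb L A z ∧ Atm L (insert z A) (insert z E) := by
    intro E hE
    induction hE with
    | base => exact fun z _ => ⟨rfl, Atm.base⟩
    | step E y hE' hy ih =>
      intro z hz
      obtain ⟨i1, i2⟩ := ih z hz
      obtain ⟨hf, hs⟩ := h1 E hE'
      have hzE : ¬ Isd L E z := fun h => hz ((s3 A E z hs hf i1).1.1 h)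
      obtain ⟨n1, n2⟩ := hISO L U hW E y z hf hy hzE
      unfold Nn at n1 n2
      push Not at n1 n2
      refine ⟨n1.trans i1, ?_⟩
      rw [insert_comm]
      refine Atm.step (insert z E) y i2 ?_
      unfold Isd at hy ⊢
      rw [n2]
      exact hy.mono (subset_insert z E)
  have h3 : ∀ E : Set U, Atm L A E → ∀ x ∈ E, Isd L A x := by
    intro E hE
    induction hE with
    | base =>
      intro x hx
      unfold Isd
      rw [o5 A x hx]
      exact Definable.singleton_of_mem L hx
    | step E y hE' hy ih =>
      intro x hx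
      rcases hx with hx | hx
      · subst hx
        by_contra hn
        obtain ⟨hf, hs⟩ := h1 E hE'
        exact hn ((s3 A E x hs hf (h2 E hE' x hn).1).1.1 hy)
      · exact ih x hx
  exact ⟨h1 D hD, h2 D hD, h3 D hD⟩

end Pool.Agent.WOM
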