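import Pool.Agent.WOM.SDF

/-!
WOM: proof of `St_SBAS`, elementary properties of shifts (helper17).
-/

set_option autoImplicit false
set_option linter.unusedVariables false

namespace Pool.Agent.WOM

open FirstOrder.Language Set
open scoped FirstOrder

section

variable {L : FirstOrder.Language.{0, 0}} {U : Type} [L.Structure U] [LinearOrder U]

theorem SBAS_ext_low {a : U} {u : U → Set U} (hu : ∀ x, Low (u x)) (K : Set U) :
    Low (ext a u K) := by
  rintro x ⟨y, h1, h2, h3⟩ z hz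
  exact ⟨y, h1, h2, hu y x h3 z hz⟩

theorem SBAS_ext_mono {a : U} {u : U → Set U} {K K' : Set U} (h : K ⊆ K') :
    ext a u K ⊆ ext a u K' := by
  rintro x ⟨y, h1, h2, h3⟩
  exact ⟨y, h1, h h2, h3⟩

theorem SBAS_Iic_low (x : U) : Low (Iic x) := fun _ h1 _ h2 => le_trans h2 h1

theorem SBAS_Gn_low {C : Set U} {a : U} {g : U → Set U} (h : Shp L C a g) (n : ℕ) :
    Low (Gn a g n) := by
  cases n with
  | zero => exact SBAS_Iic_low a
  | succ n => exact SBAS_ext_low h.low _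

theorem SBAS_Gn_a {C : Set U} {a : U} {g : U → Set U} (h : Shp L C a g) (n : ℕ) :
    a ∈ Gn a g n := by
  induction n with
  | zero => exact le_refl a
  | succ n ih => exact ⟨a, le_refl a, ih, h.self a⟩

theorem SBAS_Gn_succ {C : Set U} {a : U} {g : U → Set U} (h : Shp L C a g) (n : ℕ) :
    Gn a g n ⊆ Gn a g (n + 1) := by
  intro y hy
  rcases le_or_gt a y with h1 | h1
  · exact ⟨y, h1, hy, h.self y⟩
  · exact ⟨a, le_refl a, SBAS_Gn_a h n, h.low a a (h.self a) y h1.le⟩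

theorem SBAS_Gn_mono {C : Set U} {a : U} {g : U → Set U} (h : Shp L C a g) {m n : ℕ}
    (hmn : m ≤ n) : Gn a g m ⊆ Gn a g n := by
  induction n, hmn using Nat.le_induction with
  | base => exact subset_rfl
  | succ n _ ih => exact ih.trans (SBAS_Gn_succ h n)

theorem SBAS_Gn_sub {C : Set U} {a : U} {g : U → Set U} (h : Shp L C a g) {K : Set U}
    (hK : Low K) (ha : a ∈ K) (hx : ext a g K ⊆ K) (n : ℕ) : Gn a g n ⊆ K := by
  induction n with
  | zero => exact fun y hy => hK a ha y hy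
  | succ n ih => exact (SBAS_ext_mono ih).trans hx

theorem SBAS_tot {K K' : Set U} (hK : Low K) (hK' : Low K') : K ⊆ K' ∨ K' ⊆ K := by
  by_contra hne
  push Not at hne
  obtain ⟨h1, h2⟩ := hne
  obtain ⟨x, hx, hx'⟩ := Set.not_subset.1 h1
  obtain ⟨y, hy, hy'⟩ := Set.not_subset.1 h2
  rcases le_total x y with h | h
  · exact hx' (hK' y hy x h)
  · exact hy' (hK x hx y h)

end

theorem thm_SBAS : St_SBAS := by
  intro L U _ _ hW C a g h
  have p3 : ∀ K, Low K → a ∈ K → Bd a g K → ¬ ext a g K ⊆ K ∧ Bd a g (ext a g K) := by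
    rintro K hK ha ⟨n, hn⟩
    constructor
    · intro hx
      obtain ⟨y, hy, hy'⟩ := h.strict n
      exact hy' (hn (SBAS_Gn_sub h hK ha hx (n + 1) hy))
    · exact ⟨n + 1, SBAS_ext_mono hn⟩
  have p4 : ∀ m, ∃ x, EE a g x ∧ x ∉ Gn a g m := by
    intro m
    obtain ⟨y, hy, hy'⟩ := h.strict m
    refine ⟨y, ⟨?_, m + 1, hy⟩, hy'⟩
    rcases le_or_gt a y with h1 | h1
    · exact h1
    · exact absurd (SBAS_Gn_low h m a (SBAS_Gn_a h m) y h1.le) hy'
  have p7 : ∀ K : Set U, Low K → ¬ Bd a g K → ∀ n, Gn a g n ⊆ K := by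
    intro K hK hB n
    rcases SBAS_tot hK (SBAS_Gn_low h n) with h1 | h1
    · exact absurd ⟨n, h1⟩ hB
    · exact h1
  refine ⟨⟨fun n => ⟨SBAS_Gn_low h n, SBAS_Gn_a h n⟩, fun m n hmn => SBAS_Gn_mono h hmn⟩, ?_, p3, p4,
    ?_, ?_, fun K K' hK hK' => SBAS_tot hK hK', p7, ?_⟩
  · intro x hx
    apply subset_antisymm
    · rintro t ⟨y, h1, h2, h3⟩
      exact h.mono y x h1 h2 h3
    · exact fun t ht => ⟨x, hx, le_refl x, ht⟩
  · intro B hCB
    refine ⟨h.df.mono hCB, h.low, h.self, fun x y hx _ hxy => h.mono x y hx.1 hxy, ?_⟩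
    rintro x ⟨hx, n, hn⟩
    exact ⟨n + 1, fun t ht => ⟨x, hx, hn, ht⟩⟩
  · exact ⟨0, fun K hK h0 hB => (p3 K hK (h0 (le_refl a)) hB).1⟩
  · intro B hB hdef
    set ε : Set U := ⋃ n, Gn a g n with hε
    have hA : (B ∪ C).Finite := hB.union h.fin
    have hsat := hW.mon.sat (B ∪ C) hA (range fun n => ε \ Gn a g n) ?_ ?_
    · obtain ⟨x, hx⟩ := hsat
      have h0 : x ∈ ε := (hx (ε \ Gn a g 0) ⟨0, rfl⟩).1
      obtain ⟨n, hn⟩ := mem_iUnion.1 h0
      exact (hx (ε \ Gn a g n) ⟨n, rfl⟩).2 hn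
    · rintro _ ⟨n, rfl⟩
      have h1 : (B ∪ C).Definable₁ L ε := hdef.mono subset_union_left
      have h2 : (B ∪ C).Definable₁ L (Gn a g n) :=
        df_Gn hW.ord (Or.inr h.aC) (h.df.mono subset_union_right) n
      exact Dx.and h1 (Dx.not h2)
    · intro G hG hGf
      -- an index for every member
      choose! f hf using fun s (hs : s ∈ G) => hG hs
      obtain ⟨m, hm⟩ := (hGf.image f).bddAbove
      obtain ⟨x, ⟨hx1, k, hk⟩, hx2⟩ := p4 m
      refine ⟨x, fun s hs => ?_⟩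
      rw [← hf s hs]
      exact ⟨mem_iUnion.2 ⟨k, hk⟩, fun h3 => hx2 (SBAS_Gn_mono h (hm ⟨s, hs, rfl⟩) h3)⟩

end Pool.Agent.WOM
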