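import Pool.Agent.WOM.SDF

/-!
WOM: proof of `St_SCA`: comparison of `Sp` and non-`Sp` functions.
-/

set_option autoImplicit false
set_option linter.unusedVariables false

namespace Pool.Agent.WOM

open FirstOrder.Language Set
open scoped FirstOrder

theorem SCA_low {U : Type} [LinearOrder U] {a : U} {g : U → Set U} (hg : ∀ x, Low (g x)) (n : ℕ) :
    Low (Gn a g n) := by
  cases n with
  | zero =>
    intro x hx y hy
    exact hy.trans hx
  | succ n =>
    rintro x ⟨z, hz1, hz2, hz3⟩ y hy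
    exact ⟨z, hz1, hz2, hg z x hz3 y hy⟩

theorem SCA_a {U : Type} [LinearOrder U] {a : U} {g : U → Set U} (hs : ∀ x, x ∈ g x) (n : ℕ) :
    a ∈ Gn a g n := by
  induction n with
  | zero => exact le_rfl
  | succ n ih => exact ⟨a, le_rfl, ih, hs a⟩

theorem SCA_step {U : Type} [LinearOrder U] {a : U} {g : U → Set U} (hg : ∀ x, Low (g x))
    (hs : ∀ x, x ∈ g x) (n : ℕ) : Gn a g n ⊆ Gn a g (n + 1) := by
  intro y hy
  rcases le_total a y with h | h
  · exact ⟨y, h, hy, hs y⟩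
  · exact ⟨a, le_rfl, SCA_a hs n, hg a a (hs a) y h⟩

theorem SCA_mono {U : Type} [LinearOrder U] {a : U} {g : U → Set U} (hg : ∀ x, Low (g x))
    (hs : ∀ x, x ∈ g x) {m n : ℕ} (hmn : m ≤ n) : Gn a g m ⊆ Gn a g n :=
  monotone_nat_of_le_succ (f := fun n => Gn a g n) (fun n => SCA_step hg hs n) hmn

theorem SCA_cmp {U : Type} [LinearOrder U] {K K' : Set U} (hK : Low K) (hK' : Low K')
    (h : ¬ K ⊆ K') : K' ⊆ K := by
  obtain ⟨x, hx, hx'⟩ := Set.not_subset.1 h
  intro y hy
  rcases le_total x y with hxy | hxy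
  · exact absurd (hK' y hy x hxy) hx'
  · exact hK x hx y hxy

theorem SCA_sp {L : FirstOrder.Language.{0, 0}} {U : Type} [L.Structure U] [LinearOrder U]
    {C : Set U} {a : U} {g : U → Set U} (hS : Shp L C a g) {B : Set U} {u u' : U → Set U}
    (hu' : MB L a g B u') (hsp : Sp a g u') (hev : Ev a g (fun x => u' x ⊆ u x)) : Sp a g u := by
  obtain ⟨m₁, h1⟩ := hsp
  obtain ⟨m₂, h2⟩ := hev
  refine ⟨max m₁ m₂ + 1, ?_⟩
  intro K hK hGK hbd hext
  have hm1 : Gn a g m₁ ⊆ Gn a g (max m₁ m₂ + 1) :=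
    SCA_mono hS.low hS.self ((le_max_left m₁ m₂).trans (Nat.le_succ _))
  obtain ⟨t, ht, htK⟩ := Set.not_subset.1 (h1 K hK (hm1.trans hGK) hbd)
  obtain ⟨y, hay, hyK, hty⟩ := ht
  obtain ⟨y₁, hy1, hy1'⟩ := hS.strict (max m₁ m₂)
  obtain ⟨n, hn⟩ := hbd
  have hy2K : max y y₁ ∈ K := by
    rcases le_total y y₁ with h | h
    · rw [max_eq_right h]
      exact hGK hy1
    · rw [max_eq_left h]
      exact hyK
  have hE2 : EE a g (max y y₁) := ⟨hay.trans (le_max_left _ _), n, hn hy2K⟩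
  have hE1 : EE a g y := ⟨hay, n, hn hyK⟩
  have h3 : t ∈ u' (max y y₁) := hu'.mono y (max y y₁) hE1 hE2 (le_max_left _ _) hty
  have h4 : max y y₁ ∉ Gn a g m₂ := by
    intro h5
    exact hy1' (SCA_low hS.low _ _ (SCA_mono hS.low hS.self (le_max_right m₁ m₂) h5) y₁
      (le_max_right _ _))
  exact htK (hext ⟨max y y₁, hay.trans (le_max_left _ _), hy2K, h2 _ hE2 h4 h3⟩)

theorem SCA_MB {L : FirstOrder.Language.{0, 0}} {U : Type} [L.Structure U] [LinearOrder U]
    {C : Set U} {a : U} {g : U → Set U} (hS : Shp L C a g) {B : Set U} {u v : U → Set U}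
    (hu : MB L a g B u) (hv : MB L a g B v) : MB L a g B (fun x => u x ∪ v x) where
  df := df_union hu.df hv.df
  low := by
    rintro x t (h | h) s hs
    · exact Or.inl (hu.low x t h s hs)
    · exact Or.inr (hv.low x t h s hs)
  self := fun x => Or.inl (hu.self x)
  mono := fun x y hx hy hxy => union_subset_union (hu.mono x y hx hy hxy) (hv.mono x y hx hy hxy)
  bd := by
    intro x hx
    obtain ⟨m, hm⟩ := hu.bd x hx
    obtain ⟨n, hn⟩ := hv.bd x hx
    refine ⟨max m n, union_subset ?_ ?_⟩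
    · exact hm.trans (SCA_mono hS.low hS.self (le_max_left m n))
    · exact hn.trans (SCA_mono hS.low hS.self (le_max_right m n))

theorem thm_SCA (hSEV : St_SEV) : St_SCA := by
  intro L U _ _ hW C a g hS B hB hCB
  obtain ⟨_, _, hev3, _, hev5⟩ := hSEV L U hW C a g hS B hB
  refine ⟨fun u u' hu hu' hsp hev => SCA_sp hS hu' hsp hev, ?_, ?_⟩
  · intro n d hn hd hnn hdd
    rcases hev3 n d hn.df hd.df with h | h
    · exact h
    · exfalso
      exact hnn (SCA_sp hS hd hdd (hev5 _ _ (fun x hx => SCA_cmp (hn.low x) (hd.low x) hx) h))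
  · intro n n' hn hn' hnn hnn' hsp
    have hMB := SCA_MB hS hn hn'
    rcases hev3 n n' hn.df hn'.df with h | h
    · exact hnn' (SCA_sp hS hMB hsp (hev5 _ _ (fun x hx => union_subset hx (Subset.refl _)) h))
    · exact hnn (SCA_sp hS hMB hsp (hev5 _ _
        (fun x hx => union_subset (Subset.refl _) (SCA_cmp (hn.low x) (hn'.low x) hx)) h))

end Pool.Agent.WOM
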