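import Pool.Agent.WOM.StS

/-!
WOM [SCUT]: types are separated by definable cuts (helper67)
-/

set_option autoImplicit false

namespace Pool.Agent.WOM

open FirstOrder.Language Set
open scoped FirstOrder

theorem thm_SCUT (hORB : St_ORB) (hCNV : St_nCNV) : St_SCUT := by
  intro L U _ _ hW B z z' hB hzz hz'
  obtain ⟨hO1, -, -, -, -, hO6, hO7, hO8, -⟩ := hORB L U hW.mon
  obtain ⟨hC1, hC2⟩ := hCNV L U hW
  have hle : ∀ (σ : U ≃[L] U) (x y : U), x ≤ y ↔ σ x ≤ σ y := by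
    intro σ x y
    rw [← not_lt, ← not_lt, hC1 σ y x]
  obtain ⟨s, hs, hzs, hz's⟩ := hO7 B z z' hB hz'
  have hPs : Orb L B z ⊆ s := hO6 B s hs z hzs
  have hconn := (hC2 B z hB).1
  set K : Set U := {t | ∃ y, t ≤ y ∧ z ≤ y ∧ ∀ u, z ≤ u → u ≤ y → u ∈ s} with hK
  have hzK : z ∈ K := ⟨z, le_rfl, le_rfl, fun u h1 h2 => by rw [le_antisymm h2 h1]; exact hzs⟩
  have hz'K : z' ∉ K := by
    rintro ⟨y, h1, h2, h3⟩
    exact hz's (h3 z' hzz.le h1)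
  have hLow : Low K := by
    rintro x ⟨y, h1, h2, h3⟩ x' hx'
    exact ⟨y, hx'.trans h1, h2, h3⟩
  have hdef : (insert z B).Definable₁ L K := by
    have h1 : B.Definable L {w : Fin 2 → U | ∃ y, w 1 ≤ y ∧ w 0 ≤ y ∧
        ∀ u, w 0 ≤ u → u ≤ y → u ∈ s} := by
      refine Dx.ex (P := fun w : Fin 3 → U => w 2 ≤ w 0 ∧ w 1 ≤ w 0 ∧
        ∀ u, w 1 ≤ u → u ≤ w 0 → u ∈ s) ?_
      refine Dx.and (Dx.le hW.ord B 2 0) (Dx.and (Dx.le hW.ord B 1 0) ?_)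
      refine Dx.all (P := fun w : Fin 4 → U => w 2 ≤ w 0 → w 0 ≤ w 1 → w 0 ∈ s) ?_
      exact Dx.imp (Dx.le hW.ord B 2 0) (Dx.imp (Dx.le hW.ord B 0 1) (Dx.one hs 0))
    have h2 := Dx.par (B := insert z B) (b := z) (P := fun w : Fin 2 → U => ∃ y, w 1 ≤ y ∧ w 0 ≤ y ∧
        ∀ u, w 0 ≤ u → u ≤ y → u ∈ s) h1 (Set.subset_insert z B) (Set.mem_insert z B)
    exact h2
  refine ⟨K, hO8 B (insert z B) K hB (hB.insert z) hdef ?_, hLow, hzK, hz'K⟩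
  rintro x ⟨y, h1, h2, h3⟩ x' ⟨σ, hσ, rfl⟩
  have hσs : ∀ u, u ∈ s → σ u ∈ s := fun u hu => hO6 B s hs u hu ⟨σ, hσ, rfl⟩
  have hσz : σ z ∈ Orb L B z := ⟨σ, hσ, rfl⟩
  have h4 : ∀ u, σ z ≤ u → u ≤ σ y → u ∈ s := by
    intro u hu1 hu2
    have e : σ (σ.symm u) = u := σ.apply_symm_apply u
    have h5 : z ≤ σ.symm u := (hle σ _ _).2 (by rw [e]; exact hu1)
    have h6 : σ.symm u ≤ y := (hle σ _ _).2 (by rw [e]; exact hu2)
    rw [← e]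
    exact hσs _ (h3 _ h5 h6)
  refine ⟨max (σ y) z, ((hle σ _ _).1 h1).trans (le_max_left _ _), le_max_right _ _, ?_⟩
  intro u hu1 hu2
  rcases le_total (σ z) u with h7 | h7
  · rcases le_max_iff.1 hu2 with h8 | h8
    · exact h4 u h7 h8
    · rw [le_antisymm h8 hu1]
      exact hzs
  · exact hPs (hconn.out (hO1 B z) hσz ⟨hu1, h7⟩)

end Pool.Agent.WOM
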