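import Pool.Agent.WOM.SDF

/-!
WOM, shift theorem: the discrete case, first part (proof by helper89 of the statement `St_SDA` of
helper41).
-/

set_option autoImplicit false
set_option linter.unusedVariables false

namespace Pool.Agent.WOM

open FirstOrder.Language Set
open scoped FirstOrder

theorem thm_SDA (hSBAS : St_SBAS) (hSEXT : St_SEXT) (hSEV : St_SEV) (hSEXR : St_SEXR) :
    St_SDA := by
  intro L U _ _ hW C a g hg B hBf hCB n hD
  obtain ⟨hn, hnSp, m, hm⟩ := hD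
  obtain ⟨⟨b1, b1'⟩, b2, b3, b4, b5, b5', b6, b7, b8⟩ := hSBAS L U hW C a g hg
  obtain ⟨e1, e2, e3, e4, e5, e6, e7, e8, e9, e10, e11⟩ := hSEXT L U hW C a g hg B hBf hCB
  obtain ⟨v1, v2, v3, v4, v5⟩ := hSEV L U hW C a g hg B hBf
  obtain ⟨r1, -⟩ := hSEXR L U hW C a g hg B hBf hCB
  have haB : a ∈ B := hCB hg.aC
  have lowc : ∀ K : Set U, Low K → ∀ y ∈ K, ∀ z, z ∉ K → y < z := by
    intro K hK y hy z hz
    by_contra hlt
    exact hz (hK y hy z (not_lt.1 hlt))
  have extm : ∀ (w : U → Set U) (K K' : Set U), K ⊆ K' → ext a w K ⊆ ext a w K' := by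
    rintro w K K' hKK t ⟨y, hay, hyK, hty⟩
    exact ⟨y, hay, hKK hyK, hty⟩
  rcases v3 (fun x => ext a n (n x)) n (df_comp hW.ord haB hn.df hn.df) hn.df with hE | hE
  · exact hE
  exfalso
  obtain ⟨M0, hM0⟩ := hE
  obtain ⟨x, hx, hxM⟩ := b4 (m + M0)
  have hnG : ∀ z, x ≤ z → z ∉ Gn a g M0 := by
    intro z hz hzi
    exact hxM (b1' M0 _ (by omega) ((b1 M0).1 z hzi x hz))
  have hIl : Low (Iic x) := fun y hy z hz => le_trans hz hy
  have hIb : Bd a g (Iic x) := by
    obtain ⟨-, i, hi⟩ := hx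
    exact ⟨i, fun y hy => (b1 i).1 x hi y hy⟩
  obtain ⟨k, hk⟩ : ∃ k : ℕ → Set U, k = fun j => itr a n j (Iic x) := ⟨_, rfl⟩
  have hkk : ∀ j, Low (k j) ∧ a ∈ k j ∧ Bd a g (k j) ∧ Iic x ⊆ k j ∧ ∀ i ≤ j, k i ⊆ k j := by
    intro j
    rw [hk]
    exact e11 n j (Iic x) hn hIl hx.1 hIb
  have hk0 : k 0 = Iic x := by
    rw [hk]
    rfl
  have hks : ∀ j, k (j + 1) = ext a n (k j) := by
    intro j
    rw [hk]
    exact Function.iterate_succ_apply' _ _ _
  have hk1 : k 1 = n x := by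
    rw [hks 0, hk0]
    exact e4 n hn x hx
  -- (1)
  have h1 : ∀ j, ¬ k (j + 1) ⊆ k j := by
    intro j
    induction j with
    | zero =>
      intro hsub
      have h2 : n x = k 0 := by
        apply Subset.antisymm
        · rw [← hk1]
          exact hsub
        · rw [hk0]
          intro y hy
          exact hn.low x x (hn.self x) y hy
      apply hM0 x hx (hnG x le_rfl)
      have h3 : ext a n (n x) = n x := by
        rw [h2, ← hks 0]
        show k 1 = k 0
        rw [hk1, h2]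
      show ext a n (n x) ⊆ n x
      rw [h3]
    | succ i ih =>
      intro hsub
      obtain ⟨x', hx', hx'k⟩ := Set.not_subset.1 ih
      have hxx : x ≤ x' := (lowc _ (hkk i).1 x ((hkk i).2.2.2.1 le_rfl) x' hx'k).le
      have hax' : a ≤ x' := hx.1.trans hxx
      obtain ⟨N, hN⟩ := (hkk (i + 1)).2.2.1
      have hEx' : EE a g x' := ⟨hax', N, hN hx'⟩
      have h2 : n x' ⊆ k (i + 1) := by
        refine Subset.trans ?_ hsub
        rw [hks (i + 1)]
        intro t ht
        exact ⟨x', hax', hx', ht⟩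
      have h3 : k (i + 1) ⊆ n x' := by
        rw [hks i]
        rintro t ⟨y, hay, hyk, hty⟩
        obtain ⟨N', hN'⟩ := (hkk i).2.2.1
        exact hn.mono y x' ⟨hay, N', hN' hyk⟩ hEx' (lowc _ (hkk i).1 y hyk x' hx'k).le hty
      have h4 : n x' = k (i + 1) := Subset.antisymm h2 h3
      apply hM0 x' hEx' (hnG x' hxx)
      show ext a n (n x') ⊆ n x'
      rw [h4, ← hks (i + 1)]
      exact hsub
  -- (2)
  obtain ⟨K, hK⟩ : ∃ K : Set U, K = ⋃ j, k j := ⟨_, rfl⟩
  have hkK : ∀ j, k j ⊆ K := by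
    intro j
    rw [hK]
    exact subset_iUnion k j
  have hKl : Low K := by
    intro t ht s hs
    rw [hK] at ht
    obtain ⟨j, hj⟩ := mem_iUnion.1 ht
    exact hkK j ((hkk j).1 t hj s hs)
  have hKa : a ∈ K := hkK 0 (hkk 0).2.1
  have hKm : Gn a g m ⊆ K := by
    intro y hy
    apply hkK 0
    rw [hk0]
    exact (lowc _ (b1 (m + M0)).1 y (b1' m _ (by omega) hy) x hxM).le
  have hKb : Bd a g K := by
    by_contra hKb
    apply hnSp
    obtain ⟨-, i, hi⟩ := hx
    refine ⟨i, fun K' hK' hiK' hbK' hsub => hKb ?_⟩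
    obtain ⟨N, hN⟩ := hbK'
    refine ⟨N, ?_⟩
    rw [hK]
    refine iUnion_subset fun j => Subset.trans ?_ hN
    induction j with
    | zero =>
      rw [hk0]
      intro y hy
      exact hiK' ((b1 i).1 x hi y hy)
    | succ j ih =>
      rw [hks]
      exact (extm n _ _ ih).trans hsub
  have hne : ¬ exr a g n K ⊆ K := fun h => hm K ⟨hKl, hKa, hKb, h⟩ hKm
  obtain ⟨y, hy, hyK⟩ := Set.not_subset.1 hne
  obtain ⟨q1, q2, N, hN⟩ := r1 n K hn hKl hKa hKb
  -- (3)
  obtain ⟨s, hs⟩ : ∃ s : ℕ → Set U, s = fun j => {z | z ≤ y ∧ z ∉ k j ∧ y ∉ n z} := ⟨_, rfl⟩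
  have hsm : ∀ j z, z ∈ s j ↔ z ≤ y ∧ z ∉ k j ∧ y ∉ n z := by
    intro j z
    rw [hs]
    rfl
  have hsat : (⋂₀ (range s)).Nonempty := by
    apply hW.mon.sat (insert y (insert x B)) ((hBf.insert x).insert y)
    · rintro S ⟨j, rfl⟩
      have hyA : y ∈ insert y (insert x B) := mem_insert _ _
      have hxA : x ∈ insert y (insert x B) := mem_insert_of_mem _ (mem_insert _ _)
      have hBA : B ⊆ insert y (insert x B) := fun z hz =>
        mem_insert_of_mem _ (mem_insert_of_mem _ hz)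
      have d1 : (insert y (insert x B)).Definable L {v : Fin 1 → U | v 0 ≤ y} :=
        df_le_par' hW.ord hyA 0
      have d2 : (insert y (insert x B)).Definable₁ L (k j) := by
        rw [hk]
        exact df_par (df_itr hW.ord haB hn.df j) hBA hxA
      have d3 : (insert y (insert x B)).Definable L {v : Fin 1 → U | v 0 ∉ k j} :=
        Dx.not (Dx.one d2 0)
      have d4 : (insert y (insert x B)).Definable L {v : Fin 1 → U | y ∉ n (v 0)} :=
        Dx.not (Dx.par (P := fun w : Fin 2 → U => w 0 ∈ n (w 1))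
          (Dx.rel (R := fun x y => y ∈ n x) hn.df 1 0) hBA hyA)
      rw [hs]
      exact Dx.and d1 (Dx.and d3 d4)
    · intro G hG hGf
      have hex : ∀ X, ∃ j, X ∈ G → s j = X := by
        intro X
        by_cases hX : X ∈ G
        · obtain ⟨j, hj⟩ := hG hX
          exact ⟨j, fun _ => hj⟩
        · exact ⟨0, fun h => absurd h hX⟩
      choose idx hidx using hex
      obtain ⟨J, hJ⟩ := (hGf.image idx).bddAbove
      obtain ⟨z, hz, hz'⟩ := Set.not_subset.1 (h1 J)
      refine ⟨z, fun X hX => ?_⟩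
      rw [← hidx X hX, hsm]
      refine ⟨?_, ?_, ?_⟩
      · exact (lowc _ (hkk (J + 1)).1 z hz y fun h => hyK (hkK _ h)).le
      · exact fun h => hz' ((hkk J).2.2.2.2 _ (hJ ⟨X, hX, rfl⟩) h)
      · intro h
        apply hyK
        apply hkK (J + 1 + 1)
        rw [hks (J + 1)]
        exact ⟨z, (lowc _ (hkk J).1 a (hkk J).2.1 z hz').le, hz, h⟩
  obtain ⟨z, hz⟩ := hsat
  have hzj : ∀ j, z ≤ y ∧ z ∉ k j ∧ y ∉ n z := fun j => (hsm j z).1 (hz _ ⟨j, rfl⟩)
  have hzK : z ∉ K := by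
    rw [hK]
    intro h
    obtain ⟨j, hj⟩ := mem_iUnion.1 h
    exact (hzj j).2.1 hj
  have haz : a ≤ z := (lowc K hKl a hKa z hzK).le
  exact (hzj 0).2.2 (hy z ⟨haz, N, (b1 N).1 y (hN hy) z (hzj 0).1⟩ hzK)

end Pool.Agent.WOM
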