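import Pool.Agent.WOM.SDF

/-!
WOM: module SDB, the discrete case, second part.
-/

set_option autoImplicit false
set_option linter.unusedVariables false

namespace Pool.Agent.WOM

open FirstOrder.Language Set
open scoped FirstOrder

section

variable {L : FirstOrder.Language.{0, 0}} {U : Type} [L.Structure U] [LinearOrder U]

private theorem SDB_def (hord : (∅ : Set U).Definable L {v : Fin 2 → U | v 0 < v 1}) {B : Set U}
    {a : U} {g n : U → Set U} (ha : a ∈ B) (hg : DF L B g) (hn : DF L B n) :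
    B.Definable₁ L {y : U | ∃ t, a ≤ t ∧ t < y ∧ y ∉ n t ∧
      ∀ z, a ≤ z → z ∈ ext a g (n t) → z ∉ n t → y ∈ n z} := by
  have h0 : DF L B (fun x => ext a g (n x)) := df_comp hord ha hg hn
  have h1 : B.Definable L {w : Fin 3 → U | a ≤ w 0 → w 0 ∈ ext a g (n (w 1)) →
      w 0 ∉ n (w 1) → w 2 ∈ n (w 0)} :=
    Dx.imp (df_le_par hord ha 0) (Dx.imp (Dx.rel (R := fun x y => y ∈ ext a g (n x)) h0 1 0)
      (Dx.imp (Dx.not (Dx.rel (R := fun x y => y ∈ n x) hn 1 0))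
        (Dx.rel (R := fun x y => y ∈ n x) hn 0 2)))
  have h2 : B.Definable L {w : Fin 2 → U | ∀ z, a ≤ z → z ∈ ext a g (n (w 0)) →
      z ∉ n (w 0) → w 1 ∈ n z} :=
    Dx.all (P := fun w : Fin 3 → U => a ≤ w 0 → w 0 ∈ ext a g (n (w 1)) →
      w 0 ∉ n (w 1) → w 2 ∈ n (w 0)) h1
  have h3 : B.Definable L {w : Fin 2 → U | a ≤ w 0 ∧ w 0 < w 1 ∧ w 1 ∉ n (w 0) ∧
      ∀ z, a ≤ z → z ∈ ext a g (n (w 0)) → z ∉ n (w 0) → w 1 ∈ n z} :=
    Dx.and (df_le_par hord ha 0) (Dx.and (Dx.lt hord B 0 1)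
      (Dx.and (Dx.not (Dx.rel (R := fun x y => y ∈ n x) hn 0 1)) h2))
  exact Dx.ex (P := fun w : Fin 2 → U => a ≤ w 0 ∧ w 0 < w 1 ∧ w 1 ∉ n (w 0) ∧
      ∀ z, a ≤ z → z ∈ ext a g (n (w 0)) → z ∉ n (w 0) → w 1 ∈ n z) h3

private theorem SDB_lt {K : Set U} (hK : Low K) {x y : U} (hx : x ∈ K) (hy : y ∉ K) : x < y := by
  by_contra h
  exact hy (hK x hx y (not_lt.1 h))

end

theorem thm_SDB (hSBAS : St_SBAS) (hSEV : St_SEV) (hSEXR : St_SEXR) (hSDA : St_SDA) : St_SDB := by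
  intro L U _ _ hW C a g hS B hB hCB n hD
  obtain ⟨⟨b1, b1'⟩, _, b3, b4, _, _, b7, _, _⟩ := hSBAS L U hW C a g hS
  obtain ⟨e1, _, _, _, _⟩ := hSEV L U hW C a g hS B hB
  obtain ⟨r1, r2, r3, r4, _, _⟩ := hSEXR L U hW C a g hS B hB hCB
  obtain ⟨M0, hM0⟩ := hSDA L U hW C a g hS B hB hCB n hD
  obtain ⟨hMB, hSp, m, hm⟩ := hD
  have haB : a ∈ B := hCB hS.aC
  have hgB : DF L B g := Set.Definable.mono hS.df hCB
  -- the threshold
  set M1 : ℕ := max m M0 with hM1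
  have hlate : ∀ x, EE a g x → x ∉ Gn a g M1 → ext a n (n x) ⊆ n x := fun x hx hx' =>
    hM0 x hx (fun h => hx' (b1' M0 M1 (le_max_right _ _) h))
  -- Fact A
  have factA : ∀ K : Set U, Low K → a ∈ K → Bd a g K → Gn a g M1 ⊆ K → ext a n K ⊆ K →
      Low (exr a g n K) ∧ a ∈ exr a g n K ∧ Bd a g (exr a g n K) ∧ Gn a g M1 ⊆ exr a g n K ∧
      ext a n (exr a g n K) ⊆ exr a g n K ∧ K ⊆ exr a g n K ∧ ¬ exr a g n K ⊆ K ∧
      ∀ y ∈ exr a g n K, y ∉ K → n y = exr a g n K := by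
    intro K hK haK hbK hGK heK
    obtain ⟨q1, q2, q3⟩ := r1 n K hMB hK haK hbK
    have q4 : ¬ exr a g n K ⊆ K := fun h =>
      hm K ⟨hK, haK, hbK, h⟩ ((b1' m M1 (le_max_left _ _)).trans hGK)
    have q5 : ∀ y ∈ exr a g n K, y ∉ K → n y = exr a g n K := by
      intro y hy hyK
      obtain ⟨N, hN⟩ := q3
      have hyE : EE a g y := ⟨(SDB_lt hK haK hyK).le, N, hN hy⟩
      apply Set.Subset.antisymm
      · intro t ht z hz hzK
        rcases le_or_gt y z with hyz | hyz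
        · exact hMB.mono y z hyE hz hyz ht
        · have h1 : y ∈ n z := hy z hz hzK
          exact hlate z hz (fun h => hzK (hGK h)) ⟨y, hyE.1, h1, ht⟩
      · exact r4 n K y hyE hyK
    refine ⟨q1, q2 haK, q3, hGK.trans q2, ?_, q2, q4, q5⟩
    rintro t ⟨w, haw, hw, ht⟩
    by_cases hwK : w ∈ K
    · exact q2 (heK ⟨w, haw, hwK, ht⟩)
    · rw [q5 w hw hwK] at ht
      exact ht
  -- the sequence
  have hseq : ∀ x₀, EE a g x₀ → x₀ ∉ Gn a g M1 → ∃ K : ℕ → Set U, K 0 = n x₀ ∧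
      (∀ i, Low (K i) ∧ a ∈ K i ∧ Bd a g (K i) ∧ Gn a g M1 ⊆ K i ∧ ext a n (K i) ⊆ K i ∧
        K i ⊆ K (i + 1) ∧ ¬ K (i + 1) ⊆ K i ∧ K (i + 1) = exr a g n (K i) ∧
        ∀ x ∈ K (i + 1), x ∉ K i → n x = K (i + 1)) ∧ ∀ i, Iic x₀ ⊆ K i := by
    intro x₀ hx hx'
    have hIic : Iic x₀ ⊆ n x₀ := fun t ht => hMB.low x₀ x₀ (hMB.self x₀) t ht
    let K : ℕ → Set U := fun i => Nat.rec (n x₀) (fun _ S => exr a g n S) i
    have hK0 : K 0 = n x₀ := rfl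
    have hKs : ∀ i, K (i + 1) = exr a g n (K i) := fun i => rfl
    have hinv : ∀ i, Low (K i) ∧ a ∈ K i ∧ Bd a g (K i) ∧ Gn a g M1 ⊆ K i ∧
        ext a n (K i) ⊆ K i := by
      intro i
      induction i with
      | zero =>
        refine ⟨hMB.low x₀, hIic hx.1, hMB.bd x₀ hx, ?_, hlate x₀ hx hx'⟩
        intro t ht
        exact hIic (SDB_lt (b1 M1).1 ht hx').le
      | succ i ih =>
        obtain ⟨i1, i2, i3, i4, i5⟩ := ih
        obtain ⟨f1, f2, f3, f4, f5, _, _, _⟩ := factA (K i) i1 i2 i3 i4 i5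
        exact ⟨f1, f2, f3, f4, f5⟩
    have hstep : ∀ i, K i ⊆ K (i + 1) := by
      intro i
      obtain ⟨i1, i2, i3, i4, i5⟩ := hinv i
      exact (factA (K i) i1 i2 i3 i4 i5).2.2.2.2.2.1
    refine ⟨K, hK0, ?_, ?_⟩
    · intro i
      obtain ⟨i1, i2, i3, i4, i5⟩ := hinv i
      obtain ⟨f1, f2, f3, f4, f5, f6, f7, f8⟩ := factA (K i) i1 i2 i3 i4 i5
      exact ⟨i1, i2, i3, i4, i5, f6, f7, rfl, f8⟩
    · intro i
      induction i with
      | zero => exact hIic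
      | succ i ih => exact ih.trans (hstep i)
  -- the definable set
  have hDd := SDB_def (n := n) hW.ord haB hgB hMB.df
  have hDE : Ev a g (fun y => y ∈ {y : U | ∃ t, a ≤ t ∧ t < y ∧ y ∉ n t ∧
      ∀ z, a ≤ z → z ∈ ext a g (n t) → z ∉ n t → y ∈ n z}) := by
    rcases e1 _ hDd with h | ⟨m', hm'⟩
    · exact h
    · exfalso
      obtain ⟨x₀, hx, hx'⟩ := b4 (max M1 m')
      have hx1 : x₀ ∉ Gn a g M1 := fun h => hx' (b1' _ _ (le_max_left _ _) h)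
      have hx2 : x₀ ∉ Gn a g m' := fun h => hx' (b1' _ _ (le_max_right _ _) h)
      obtain ⟨K, hK0, hK, hI⟩ := hseq x₀ hx hx1
      obtain ⟨i1, i2, i3, i4, i5, i6, i7, i8, i9⟩ := hK 0
      obtain ⟨j1, j2, j3, j4, j5, j6, j7, j8, j9⟩ := hK 1
      obtain ⟨k1, k2, k3, _⟩ := hK 2
      obtain ⟨y, hy2, hy1⟩ := Set.not_subset.1 j7
      obtain ⟨t, ht1, ht0⟩ := Set.not_subset.1 i7
      have hnt : n t = K 1 := i9 t ht1 ht0
      have hat : a ≤ t := (SDB_lt i1 i2 ht0).le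
      have hty : t < y := SDB_lt j1 ht1 hy1
      obtain ⟨N, hN⟩ := k3
      have hyE : EE a g y := ⟨hat.trans hty.le, N, hN hy2⟩
      refine hm' y hyE (fun h => ?_) ⟨t, hat, hty, ?_, ?_⟩
      · exact hy1 (hI 1 (SDB_lt (b1 m').1 h hx2).le)
      · rw [hnt]
        exact hy1
      · have h3 := r3 n (K 1) hMB j1 j2 j3
        have h4 : y ∈ exr a g n (K 1) := by
          rw [← j8]
          exact hy2
        rw [h3] at h4
        rw [hnt]
        exact h4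
  obtain ⟨M2, hM2⟩ := hDE
  refine ⟨max M1 M2, fun x₀ hx hx' => ?_⟩
  have hx1 : x₀ ∉ Gn a g M1 := fun h => hx' (b1' _ _ (le_max_left _ _) h)
  have hx2 : x₀ ∉ Gn a g M2 := fun h => hx' (b1' _ _ (le_max_right _ _) h)
  obtain ⟨K, hK0, hK, hI⟩ := hseq x₀ hx hx1
  refine ⟨K, hK0, fun i => ?_, fun N => ?_⟩
  · obtain ⟨i1, i2, i3, i4, i5, i6, i7, i8, i9⟩ := hK i
    exact ⟨i1, i3, i6, i7, i5, i8, i9⟩
  · by_contra hcon
    push Not at hcon
    have hKN : ∀ i, K i ⊆ Gn a g N := fun i =>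
      (b7 (K i) (Gn a g N) (hK i).1 (b1 N).1).resolve_right (hcon i)
    have hω : ∀ i, K i ⊆ ⋃ j, K j := fun i => Set.subset_iUnion K i
    have w1 : Low (⋃ j, K j) := by
      intro x hx y hy
      obtain ⟨j, hj⟩ := Set.mem_iUnion.1 hx
      exact hω j ((hK j).1 x hj y hy)
    have w2 : a ∈ ⋃ j, K j := hω 0 (hK 0).2.1
    have w3 : Bd a g (⋃ j, K j) := ⟨N, Set.iUnion_subset hKN⟩
    have w4 : Gn a g M1 ⊆ ⋃ j, K j := (hK 0).2.2.2.1.trans (hω 0)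
    have w5 : ext a n (⋃ j, K j) ⊆ ⋃ j, K j := by
      rintro t ⟨w, haw, hw, ht⟩
      obtain ⟨j, hj⟩ := Set.mem_iUnion.1 hw
      exact hω j ((hK j).2.2.2.2.1 ⟨w, haw, hj, ht⟩)
    obtain ⟨f1, f2, f3, f4, f5, f6, f7, f8⟩ := factA _ w1 w2 w3 w4 w5
    obtain ⟨y, hy, hyK⟩ := Set.not_subset.1 f7
    have hay : a < y := SDB_lt w1 w2 hyK
    obtain ⟨N', hN'⟩ := f3
    have hyE : EE a g y := ⟨hay.le, N', hN' hy⟩
    have hyM : y ∉ Gn a g M2 := fun h => hyK (hω 0 (hI 0 (SDB_lt (b1 M2).1 h hx2).le))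
    obtain ⟨t, hat, hty, hyt, hyx⟩ := hM2 y hyE hyM
    have htE : EE a g t := ⟨hat, N', (b1 N').1 y (hN' hy) t hty.le⟩
    by_cases htK : t ∈ ⋃ j, K j
    · obtain ⟨i, hi⟩ := Set.mem_iUnion.1 htK
      have h1 : n t ⊆ K i := fun s hs => (hK i).2.2.2.2.1 ⟨t, hat, hi, hs⟩
      have h2 : Low (n t) := hMB.low t
      have h3 : a ∈ n t := h2 t (hMB.self t) a hat
      have h4 : Bd a g (n t) := hMB.bd t htE
      have h5 : y ∈ exr a g n (n t) := by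
        rw [r3 n (n t) hMB h2 h3 h4]
        exact hyx
      have h6 : y ∈ K (i + 1) := by
        rw [(hK i).2.2.2.2.2.2.2.1]
        exact r2 n (n t) (K i) h1 h5
      exact hyK (hω (i + 1) h6)
    · exact hyt (hy t htE htK)

end Pool.Agent.WOM
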