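import Pool.Agent.WOM.SDF

/-!
WOM: proof of `St_SDC` (in the discrete case nothing dominates; helper38).
-/

set_option autoImplicit false
set_option linter.unusedVariables false

namespace Pool.Agent.WOM

open FirstOrder.Language Set
open scoped FirstOrder

theorem SDC_comb (φ : ℕ → ℕ) (i₃ : ℕ) (h : ∀ i, i₃ ≤ i → φ (i + 1) ≤ φ i + 1)
    (h2 : ∀ k, ∃ i₀, ∀ i, i₀ ≤ i → i + k ≤ φ i) : False := by
  have h3 : ∀ d, φ (i₃ + d) ≤ φ i₃ + d := by
    intro d
    induction d with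
    | zero => exact le_rfl
    | succ d ih =>
      have := h (i₃ + d) (by omega)
      have e : i₃ + (d + 1) = i₃ + d + 1 := by omega
      rw [e]
      omega
  obtain ⟨i₀, h4⟩ := h2 (φ i₃ + 1)
  have h5 := h4 (i₃ + i₀) (by omega)
  have h6 := h3 i₀
  omega

section

variable {L : FirstOrder.Language.{0, 0}} {U : Type} [L.Structure U] [LinearOrder U]

theorem SDC_rel {A : Set U} {u v : U → Set U} (hu : DF L A u) (hv : DF L A v) :
    A.Definable L {w : Fin 2 → U | u (w 0) ⊆ v (w 1)} := by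
  have h1 : A.Definable L {w : Fin 3 → U | w 0 ∈ u (w 1) → w 0 ∈ v (w 2)} :=
    Dx.imp (Dx.rel (R := fun x y => y ∈ u x) hu 1 0) (Dx.rel (R := fun x y => y ∈ v x) hv 2 0)
  exact Dx.all (P := fun w : Fin 3 → U => w 0 ∈ u (w 1) → w 0 ∈ v (w 2)) h1

theorem SDC_A (hord : (∅ : Set U).Definable L {v : Fin 2 → U | v 0 < v 1}) {A : Set U} {a : U}
    {n f : U → Set U} (ha : a ∈ A) (hn : DF L A n) (hf : DF L A f) :
    A.Definable₁ L {x | ∃ x', x < x' ∧ x' ∈ n x ∧ ∃ y, a ≤ y ∧ y ∈ f x' ∧ f x ⊆ n y ∧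
      ¬ f x' ⊆ n y} := by
  have h0 := SDC_rel hf hn
  have h1 : A.Definable L {w : Fin 3 → U | a ≤ w 0 ∧ w 0 ∈ f (w 1) ∧ f (w 2) ⊆ n (w 0) ∧
      ¬ f (w 1) ⊆ n (w 0)} :=
    Dx.and (df_le_par hord ha 0) (Dx.and (Dx.rel (R := fun x y => y ∈ f x) hf 1 0)
      (Dx.and (Dx.rel (R := fun x y => f x ⊆ n y) h0 2 0)
        (Dx.not (Dx.rel (R := fun x y => f x ⊆ n y) h0 1 0))))
  have h2 : A.Definable L {w : Fin 2 → U | w 1 < w 0 ∧ w 0 ∈ n (w 1) ∧ ∃ y, a ≤ y ∧ y ∈ f (w 0) ∧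
      f (w 1) ⊆ n y ∧ ¬ f (w 0) ⊆ n y} :=
    Dx.and (Dx.lt hord A 1 0) (Dx.and (Dx.rel (R := fun x y => y ∈ n x) hn 1 0)
      (Dx.ex (P := fun w : Fin 3 → U => a ≤ w 0 ∧ w 0 ∈ f (w 1) ∧ f (w 2) ⊆ n (w 0) ∧
        ¬ f (w 1) ⊆ n (w 0)) h1))
  exact Dx.ex (P := fun w : Fin 2 → U => w 1 < w 0 ∧ w 0 ∈ n (w 1) ∧ ∃ y, a ≤ y ∧ y ∈ f (w 0) ∧
      f (w 1) ⊆ n y ∧ ¬ f (w 0) ⊆ n y) h2

theorem SDC_Y (hord : (∅ : Set U).Definable L {v : Fin 2 → U | v 0 < v 1}) {A : Set U} {a : U}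
    {n f : U → Set U} (ha : a ∈ A) (hn : DF L A n) (hf : DF L A f) :
    A.Definable₁ L {y | ∃ x, a ≤ x ∧ f x ⊆ n y ∧ ∀ t, a ≤ t → t < y → y ∉ n t → ¬ f x ⊆ n t} := by
  have h0 := SDC_rel hf hn
  have h1 : A.Definable L {w : Fin 3 → U | a ≤ w 0 → w 0 < w 2 → w 2 ∉ n (w 0) →
      ¬ f (w 1) ⊆ n (w 0)} :=
    Dx.imp (df_le_par hord ha 0) (Dx.imp (Dx.lt hord A 0 2)
      (Dx.imp (Dx.not (Dx.rel (R := fun x y => y ∈ n x) hn 0 2))
        (Dx.not (Dx.rel (R := fun x y => f x ⊆ n y) h0 1 0))))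
  have h2 : A.Definable L {w : Fin 2 → U | a ≤ w 0 ∧ f (w 0) ⊆ n (w 1) ∧
      ∀ t, a ≤ t → t < w 1 → w 1 ∉ n t → ¬ f (w 0) ⊆ n t} :=
    Dx.and (df_le_par hord ha 0) (Dx.and (Dx.rel (R := fun x y => f x ⊆ n y) h0 0 1)
      (Dx.all (P := fun w : Fin 3 → U => a ≤ w 0 → w 0 < w 2 → w 2 ∉ n (w 0) →
        ¬ f (w 1) ⊆ n (w 0)) h1))
  exact Dx.ex (P := fun w : Fin 2 → U => a ≤ w 0 ∧ f (w 0) ⊆ n (w 1) ∧
      ∀ t, a ≤ t → t < w 1 → w 1 ∉ n t → ¬ f (w 0) ⊆ n t) h2

end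

theorem thm_SDC (hBAS : St_SBAS) (hEXT : St_SEXT) (hEV : St_SEV) (hCA : St_SCA)
    (hDB : St_SDB) : St_SDC := by
  intro L U _ _ hW C a g hS B hB hCB n u f hn hu hsu hf hdom
  classical
  obtain ⟨s1, s2, s3, s4, s5, s6, s7, s8, s9⟩ := hBAS L U hW C a g hS
  obtain ⟨t1, t2, t3, t4, t5, t6, t7, t8, t9, t10, t11⟩ := hEXT L U hW C a g hS B hB hCB
  obtain ⟨v1, v2, v3, v4, v5⟩ := hEV L U hW C a g hS B hB
  obtain ⟨c1, c2, c3⟩ := hCA L U hW C a g hS B hB hCB
  have haB : a ∈ B := hCB hS.aC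
  have hnM : MB L a g B n := hn.1
  obtain ⟨M, hM⟩ := hDB L U hW C a g hS B hB hCB n hn
  obtain ⟨x₀, hx₀, hx₀M⟩ := s4 M
  obtain ⟨K, hK0, hK, hKC⟩ := hM x₀ hx₀ hx₀M
  have kL : ∀ i, Low (K i) := fun i => (hK i).1
  have kB : ∀ i, Bd a g (K i) := fun i => (hK i).2.1
  have kS : ∀ i, K i ⊆ K (i + 1) := fun i => (hK i).2.2.1
  have kN : ∀ i, ¬ K (i + 1) ⊆ K i := fun i => (hK i).2.2.2.1
  have kE : ∀ i, ext a n (K i) ⊆ K i := fun i => (hK i).2.2.2.2.1
  have kX : ∀ i, ∀ x ∈ K (i + 1), x ∉ K i → n x = K (i + 1) := fun i => (hK i).2.2.2.2.2.2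
  have kmono : ∀ {i j : ℕ}, i ≤ j → K i ⊆ K j := fun h => monotone_nat_of_le_succ kS h
  have kstr : ∀ {i j : ℕ}, K j ⊆ K i → j ≤ i := by
    intro i j h
    by_contra hcon
    exact kN i ((kmono (by omega : i + 1 ≤ j)).trans h)
  have ka : ∀ i, a ∈ K i := by
    intro i
    refine kmono (Nat.zero_le i) ?_
    rw [hK0]
    exact hnM.low x₀ x₀ (hnM.self x₀) a hx₀.1
  have kbd : ∀ V, Bd a g V → ∃ i, V ⊆ K i := by
    rintro V ⟨m, hm⟩
    obtain ⟨i, hi⟩ := hKC m
    exact ⟨i, hm.trans hi⟩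
  let lv : Set U → ℕ := fun V => sInf {i | V ⊆ K i}
  have lv1 : ∀ V, Bd a g V → V ⊆ K (lv V) := fun V hV => Nat.sInf_mem (kbd V hV)
  have lv2 : ∀ V i, V ⊆ K i → lv V ≤ i := fun V i h => Nat.sInf_le h
  let rk : U → ℕ := fun x => lv (Iic x)
  have bdI : ∀ x, EE a g x → Bd a g (Iic x) := by
    rintro x ⟨_, m, hm⟩
    exact ⟨m, fun y hy => (s1.1 m).1 x hm y hy⟩
  have rk1 : ∀ x, EE a g x → x ∈ K (rk x) := fun x hx => lv1 _ (bdI x hx) (mem_Iic.2 le_rfl)
  have rk2 : ∀ x i, x ∈ K i → rk x ≤ i := fun x i h => lv2 _ _ fun y hy => kL i x h y hy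
  have eE : ∀ x V, a ≤ x → x ∈ V → Bd a g V → EE a g x := by
    rintro x V h1 h2 ⟨m, hm⟩
    exact ⟨h1, m, hm h2⟩
  have eN : ∀ x i, x ∉ K i → a < x := by
    intro x i h
    by_contra hcon
    exact h (kL i a (ka i) x (not_lt.1 hcon))
  have nK : ∀ x, EE a g x → 1 ≤ rk x → n x = K (rk x) := by
    intro x hx h
    obtain ⟨i, hi⟩ : ∃ i, rk x = i + 1 := ⟨rk x - 1, by omega⟩
    rw [hi]
    refine kX i x (by rw [← hi]; exact rk1 x hx) fun h' => ?_
    have := rk2 x i h'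
    omega
  have nKle : ∀ x i, a ≤ x → x ∈ K i → n x ⊆ K i := by
    intro x i h1 h2 t ht
    exact kE i ⟨x, h1, h2, ht⟩
  have exk : ∀ i, 1 ≤ i → ∃ x, EE a g x ∧ rk x = i := by
    intro i hi
    obtain ⟨j, rfl⟩ : ∃ j, i = j + 1 := ⟨i - 1, by omega⟩
    obtain ⟨x, hx1, hx2⟩ := not_subset.1 (kN j)
    have hE : EE a g x := eE x _ (eN x j hx2).le hx1 (kB _)
    refine ⟨x, hE, le_antisymm (rk2 x _ hx1) ?_⟩
    by_contra hcon
    exact hx2 (kmono (by omega) (rk1 x hE))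
  have rlt : ∀ x y, EE a g x → EE a g y → rk x < rk y → x < y := by
    intro x y hx hy h
    by_contra hcon
    have := rk2 y (rk x) (kL _ x (rk1 x hx) y (not_lt.1 hcon))
    omega
  have ev2r : ∀ P : U → Prop, Ev a g P → ∃ i₀, ∀ x, EE a g x → i₀ ≤ rk x → P x := by
    rintro P ⟨m, hm⟩
    obtain ⟨i, hi⟩ := hKC m
    refine ⟨i + 1, fun x hx h => hm x hx fun h' => ?_⟩
    have := rk2 x i (hi h')
    omega
  -- the level of `f x`
  let F : U → ℕ := fun x => lv (f x)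
  have F1 : ∀ x, EE a g x → f x ⊆ K (F x) := fun x hx => lv1 _ (hf.bd x hx)
  have F2 : ∀ x i, f x ⊆ K i → F x ≤ i := fun x i h => lv2 _ _ h
  have Fm : ∀ x y, EE a g x → EE a g y → x ≤ y → F x ≤ F y := fun x y hx hy h =>
    F2 x _ ((hf.mono x y hx hy h).trans (F1 y hy))
  have Fr : ∀ x, EE a g x → rk x ≤ F x := fun x hx => rk2 x _ (F1 x hx (hf.self x))
  -- (1) domination
  have h1 : ∀ k, ∃ i₀, ∀ x, EE a g x → i₀ ≤ rk x → rk x + k ≤ F x := by
    obtain ⟨i₁, hi₁⟩ := ev2r _ (c2 n u hnM hu hn.2.1 hsu)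
    obtain ⟨m, hm⟩ := hsu
    obtain ⟨i₂, hi₂⟩ := hKC m
    have hstep : ∀ i, i₁ ≤ i → i₂ ≤ i → K (i + 1) ⊆ ext a u (ext a u (K i)) := by
      intro i h3 h4
      obtain ⟨z, hz1, hz2⟩ := not_subset.1 (hm (K i) (kL i) (hi₂.trans (kmono h4)) (kB i))
      have haz := (eN z i hz2).le
      have hzE : EE a g z := eE z _ haz hz1 (t3 u hu (K i) (kL i) (kB i))
      have hrz : i + 1 ≤ rk z := by
        by_contra hcon
        exact hz2 (kmono (by omega) (rk1 z hzE))
      intro t ht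
      refine ⟨z, haz, hz1, hi₁ z hzE (by omega) ?_⟩
      rw [nK z hzE (by omega)]
      exact kmono hrz ht
    have hiter : ∀ i, i₁ ≤ i → i₂ ≤ i → ∀ k, K (i + k) ⊆ itr a u (2 * k) (K i) := by
      intro i h3 h4 k
      induction k with
      | zero => exact subset_rfl
      | succ k ih =>
        have e : itr a u (2 * (k + 1)) (K i) = itr a u 2 (itr a u (2 * k) (K i)) := by
          unfold itr
          rw [← Function.iterate_add_apply]
          congr 1
          ring_nf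
        rw [e]
        have h5 := hstep (i + k) (by omega) (by omega)
        have h6 := t9 u (K (i + k)) (itr a u (2 * k) (K i)) 2 ih
        exact Subset.trans h5 h6
    intro k
    obtain ⟨i₃, hi₃⟩ := ev2r _ (hdom (2 * k + 1))
    refine ⟨max (max i₁ i₂) (max i₃ 1), fun x hx hr => ?_⟩
    have b1 : i₁ ≤ rk x := le_trans (le_trans (le_max_left _ _) (le_max_left _ _)) hr
    have b2 : i₂ ≤ rk x := le_trans (le_trans (le_max_right _ _) (le_max_left _ _)) hr
    have b3 : i₃ ≤ rk x := le_trans (le_trans (le_max_left _ _) (le_max_right _ _)) hr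
    have b4 : 1 ≤ rk x := le_trans (le_trans (le_max_right _ _) (le_max_right _ _)) hr
    have h5 : K (rk x) ⊆ ext a u (Iic x) := by
      rw [← nK x hx b4, t4 u hu x hx]
      exact hi₁ x hx b1
    have h6 : K (rk x + k) ⊆ f x := by
      refine (hiter (rk x) b1 b2 k).trans ((t9 u _ _ (2 * k) h5).trans ?_)
      have e : itr a u (2 * k) (ext a u (Iic x)) = itr a u (2 * k + 1) (Iic x) := by
        unfold itr
        rw [Function.iterate_succ_apply]
      rw [e]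
      exact hi₃ x hx b3
    exact kstr (h6.trans (F1 x hx))
  -- (2) `F` depends only on the rank
  have h2 : ∃ i₂, 1 ≤ i₂ ∧ ∀ x y, EE a g x → EE a g y → i₂ ≤ rk x → rk x = rk y → F x = F y := by
    have hA := SDC_A (a := a) hW.ord haB hnM.df hf.df
    rcases v1 _ hA with hev | hev
    · exfalso
      obtain ⟨i₀, hi₀⟩ := ev2r _ hev
      set i := max i₀ 1 with hi
      have hi1 : 1 ≤ i := le_max_right _ _
      obtain ⟨z, hzE, hzr⟩ := exk (i + 1) (by omega)
      have hbdd : BddAbove {j | ∃ x, EE a g x ∧ rk x = i ∧ F x = j} := by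
        refine ⟨F z, ?_⟩
        rintro j ⟨x, hxE, hxr, rfl⟩
        exact Fm x z hxE hzE (rlt x z hxE hzE (by omega)).le
      have hne : {j | ∃ x, EE a g x ∧ rk x = i ∧ F x = j}.Nonempty := by
        obtain ⟨x, hxE, hxr⟩ := exk i hi1
        exact ⟨F x, x, hxE, hxr, rfl⟩
      obtain ⟨x, hxE, hxr, hxF⟩ := Nat.sSup_mem hne hbdd
      obtain ⟨x', hlt, hx'n, y, hay, hyf, hfn, hnf⟩ := hi₀ x hxE (by omega)
      rw [nK x hxE (by omega), hxr] at hx'n
      have hx'E : EE a g x' := eE x' _ (hxE.1.trans hlt.le) hx'n (kB i)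
      have hx'r : rk x' = i := by
        refine le_antisymm (rk2 _ _ hx'n) ?_
        rw [← hxr]
        exact rk2 x _ (kL _ x' (rk1 x' hx'E) x hlt.le)
      have hyE : EE a g y := eE y _ hay hyf (hf.bd x' hx'E)
      have hy1 : 1 ≤ rk y := by
        by_contra hcon
        have hy0 : y ∈ K 0 := by
          have := rk1 y hyE
          have e : rk y = 0 := by omega
          rwa [e] at this
        have := rk2 x 0 ((nKle y 0 hay hy0) (hfn (hf.self x)))
        omega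
      rw [nK y hyE hy1] at hfn hnf
      have q1 : F x ≤ rk y := F2 x _ hfn
      have q2 : rk y < F x' := by
        by_contra hcon
        exact hnf ((F1 x' hx'E).trans (kmono (by omega)))
      have q3 : F x' ≤ F x := by
        rw [hxF]
        exact le_csSup hbdd ⟨x', hx'E, hx'r, rfl⟩
      omega
    · obtain ⟨i₀, hi₀⟩ := ev2r _ hev
      refine ⟨max i₀ 1, le_max_right _ _, ?_⟩
      have key : ∀ x y, EE a g x → EE a g y → max i₀ 1 ≤ rk x → rk x = rk y → x ≤ y →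
          F x = F y := by
        intro x x' hx hx' hr hrr hle
        refine le_antisymm (Fm x x' hx hx' hle) ?_
        by_contra hcon
        have hr1 : 1 ≤ rk x := le_trans (le_max_right _ _) hr
        have hlt : x < x' := by
          refine lt_of_le_of_ne hle ?_
          rintro rfl
          omega
        refine hi₀ x hx (le_trans (le_max_left _ _) hr) ?_
        obtain ⟨y, hyE, hyr⟩ := exk (F x) (hr1.trans (Fr x hx))
        have hny : n y = K (F x) := by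
          rw [nK y hyE (by rw [hyr]; exact hr1.trans (Fr x hx)), hyr]
        have hnf : ¬ f x' ⊆ K (F x) := fun h => hcon (F2 x' _ h)
        refine ⟨x', hlt, ?_, y, hyE.1, ?_, ?_, ?_⟩
        · rw [nK x hx hr1, hrr]
          exact rk1 x' hx'
        · rcases s7 (f x') (K (F x)) (hf.low x') (kL _) with h | h
          · exact absurd h hnf
          · refine h ?_
            rw [← hyr]
            exact rk1 y hyE
        · rw [hny]
          exact F1 x hx
        · rw [hny]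
          exact hnf
      intro x y hx hy hr hrr
      rcases le_total x y with h | h
      · exact key x y hx hy hr hrr h
      · exact (key y x hy hx (by rw [← hrr]; exact hr) hrr.symm h).symm
  -- (3) `F` takes all large values
  have h3 : ∃ j₁, ∀ j, j₁ ≤ j → ∃ x, EE a g x ∧ F x = j := by
    have hYd := SDC_Y (a := a) hW.ord haB hnM.df hf.df
    have hY2 : ∀ y, EE a g y → 1 ≤ rk y → (∃ x, EE a g x ∧ F x = rk y) →
        ∃ x, a ≤ x ∧ f x ⊆ n y ∧ ∀ t, a ≤ t → t < y → y ∉ n t → ¬ f x ⊆ n t := by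
      rintro y hy hy1 ⟨x, hx, hxy⟩
      refine ⟨x, hx.1, ?_, ?_⟩
      · rw [nK y hy hy1, ← hxy]
        exact F1 x hx
      · intro t hat hty hyt hft
        have htE : EE a g t := eE t (Iic y) hat hty.le (bdI y hy)
        rcases Nat.eq_zero_or_pos (rk t) with h0 | h0
        · have ht0 : t ∈ K 0 := by
            have := rk1 t htE
            rwa [h0] at this
          have := F2 x 0 (hft.trans (nKle t 0 hat ht0))
          omega
        · rw [nK t htE h0] at hyt hft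
          have q1 := F2 x _ hft
          have q2 : y ∈ K (rk t) := kmono (by omega) (rk1 y hy)
          exact hyt q2
    have hY1 : ∀ y, EE a g y → 2 ≤ rk y → (∃ x, a ≤ x ∧ f x ⊆ n y ∧
        ∀ t, a ≤ t → t < y → y ∉ n t → ¬ f x ⊆ n t) → ∃ x, EE a g x ∧ F x = rk y := by
      rintro y hy hy2 ⟨x, hax, hxy, ht⟩
      rw [nK y hy (by omega)] at hxy
      have hxE : EE a g x := eE x _ hax (hxy (hf.self x)) (kB _)
      refine ⟨x, hxE, le_antisymm (F2 x _ hxy) ?_⟩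
      obtain ⟨t, htE, htr⟩ := exk (rk y - 1) (by omega)
      have hty : t < y := rlt t y htE hy (by omega)
      have hnt : n t = K (rk y - 1) := by
        rw [nK t htE (by omega), htr]
      have q1 : y ∉ n t := by
        rw [hnt]
        intro h
        have := rk2 y _ h
        omega
      have q2 := ht t htE.1 hty q1
      by_contra hcon
      refine q2 ?_
      rw [hnt]
      exact (F1 x hxE).trans (kmono (by omega))
    rcases v1 _ hYd with hev | hev
    · obtain ⟨i₀, hi₀⟩ := ev2r _ hev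
      refine ⟨max i₀ 2, fun j hj => ?_⟩
      have b1 : i₀ ≤ j := le_trans (le_max_left _ _) hj
      have b2 : 2 ≤ j := le_trans (le_max_right _ _) hj
      obtain ⟨y, hyE, hyr⟩ := exk j (by omega)
      obtain ⟨x, hx, hxF⟩ := hY1 y hyE (by omega) (hi₀ y hyE (by omega))
      exact ⟨x, hx, by omega⟩
    · exfalso
      obtain ⟨i₀, hi₀⟩ := ev2r _ hev
      obtain ⟨x, hxE, hxr⟩ := exk (i₀ + 1) (by omega)
      have h4 := Fr x hxE
      obtain ⟨y, hyE, hyr⟩ := exk (F x) (by omega)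
      exact hi₀ y hyE (by omega) (hY2 y hyE (by omega) ⟨x, hxE, by omega⟩)
  -- (4) conclusion
  obtain ⟨i₂, hi₂, hdep⟩ := h2
  obtain ⟨j₁, hj₁⟩ := h3
  choose X hXE hXr using fun i : ℕ => exk (i + 1) (by omega)
  refine SDC_comb (fun i => F (X i)) (max i₂ j₁) ?_ ?_
  · intro i hi
    have b1 : i₂ ≤ i := le_trans (le_max_left _ _) hi
    have b2 : j₁ ≤ i := le_trans (le_max_right _ _) hi
    show F (X (i + 1)) ≤ F (X i) + 1
    by_contra hcon
    have h5 := Fr (X i) (hXE i)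
    rw [hXr i] at h5
    obtain ⟨x, hxE, hxF⟩ := hj₁ (F (X i) + 1) (by omega)
    have e1 := hXr i
    have e2 := hXr (i + 1)
    rcases lt_trichotomy (rk x) (i + 1) with h | h | h
    · have := Fm x (X i) hxE (hXE i) (rlt x (X i) hxE (hXE i) (by omega)).le
      omega
    · have := hdep x (X i) hxE (hXE i) (by omega) (by omega)
      omega
    · rcases Nat.lt_or_ge (i + 2) (rk x) with h' | h'
      · have := Fm (X (i + 1)) x (hXE _) hxE (rlt (X (i + 1)) x (hXE _) hxE (by omega)).le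
        omega
      · have := hdep x (X (i + 1)) hxE (hXE _) (by omega) (by omega)
        omega
  · intro k
    obtain ⟨i₀, hi₀⟩ := h1 k
    refine ⟨i₀, fun i hi => ?_⟩
    have := hi₀ (X i) (hXE i) (by rw [hXr]; omega)
    rw [hXr] at this
    show i + k ≤ F (X i)
    omega

end Pool.Agent.WOM
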