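import Pool.Agent.WOM.StS4

/-!
WOM: the reversed order (helper9).
-/

set_option autoImplicit false

namespace Pool.Agent.WOM

open FirstOrder.Language Set
open scoped FirstOrder

theorem SDL_leS {U : Type} [LinearOrder U] (t : Bool) (x y : U) :
    @leS U (dO U) t x y ↔ leS (!t) x y := by
  cases t
  · show (if false = true then y ≤ x else x ≤ y) ↔ (if (!false) = true then x ≤ y else y ≤ x)
    simp
  · show (if true = true then y ≤ x else x ≤ y) ↔ (if (!true) = true then x ≤ y else y ≤ x)
    simp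

theorem SDL_conn {U : Type} [LinearOrder U] {C : Set U} (h : C.OrdConnected) :
    @Set.OrdConnected U (dO U).toPreorder C :=
  @Set.OrdConnected.mk U (dO U).toPreorder C fun _ hx _ hy _ hz => h.out hy hx ⟨hz.2, hz.1⟩

theorem thm_SDL : St_SDL := by
  intro L U _ _ h
  refine ⟨?_, fun t x y => SDL_leS t x y, ?_, ?_, ?_⟩
  · refine @Wn.mk L U _ (dO U) h.mon ?_ ?_
    · have h1 := h.ord.preimage_comp (![1, 0] : Fin 2 → Fin 2)
      exact h1
    · intro s hs
      obtain ⟨n, C, hC, e⟩ := h.fin s hs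
      exact ⟨n, C, fun i => SDL_conn (hC i), e⟩
  · intro t X Y
    unfold Sd
    exact forall₂_congr fun w _ => exists_congr fun u => and_congr_right fun _ => SDL_leS t w u
  · intro A x t B
    ext u
    show (u ∈ Orb L A x ∧ ∀ w ∈ Orb L A x, ∃ v ∈ Orb L B u, @leS U (dO U) t w v) ↔
      (u ∈ Orb L A x ∧ ∀ w ∈ Orb L A x, ∃ v ∈ Orb L B u, leS (!t) w v)
    exact and_congr_right fun _ => forall₂_congr fun w _ => exists_congr fun v =>
      and_congr_right fun _ => SDL_leS t w v
  · intro K
    show (∀ x ∈ K, ∀ y, x ≤ y → y ∈ K) ↔ ∀ x ∈ K, ∀ y, leS false y x → y ∈ K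
    refine forall₂_congr fun x _ => forall_congr' fun y => ?_
    show (x ≤ y → y ∈ K) ↔ ((if false = true then y ≤ x else x ≤ y) → y ∈ K)
    simp

end Pool.Agent.WOM
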