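import Pool.Agent.WOM.StS

/-!
WOM: proof of `St_SDF` (helper41).
-/

set_option autoImplicit false
set_option linter.unusedVariables false

namespace Pool.Agent.WOM

open FirstOrder.Language Set
open scoped FirstOrder

section

variable {L : FirstOrder.Language.{0, 0}} {U : Type} [L.Structure U] [LinearOrder U]

theorem df_par {A B : Set U} {u : U → Set U} {x : U} (h : DF L A u) (hAB : A ⊆ B) (hx : x ∈ B) :
    B.Definable₁ L (u x) :=
  Dx.par (P := fun w : Fin 2 → U => w 1 ∈ u (w 0)) h hAB hx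

theorem df_le_par (hord : (∅ : Set U).Definable L {v : Fin 2 → U | v 0 < v 1}) {A : Set U} {a : U}
    (ha : a ∈ A) {n : ℕ} (i : Fin n) : A.Definable L {v : Fin n → U | a ≤ v i} :=
  Dx.par (P := fun w : Fin (n + 1) → U => w 0 ≤ w i.succ) (Dx.le hord A 0 i.succ) le_rfl ha

theorem df_le_par' (hord : (∅ : Set U).Definable L {v : Fin 2 → U | v 0 < v 1}) {A : Set U} {a : U}
    (ha : a ∈ A) {n : ℕ} (i : Fin n) : A.Definable L {v : Fin n → U | v i ≤ a} :=
  Dx.par (P := fun w : Fin (n + 1) → U => w i.succ ≤ w 0) (Dx.le hord A i.succ 0) le_rfl ha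

theorem df_comp (hord : (∅ : Set U).Definable L {v : Fin 2 → U | v 0 < v 1}) {A : Set U} {a : U}
    {u v : U → Set U} (ha : a ∈ A) (hu : DF L A u) (hv : DF L A v) :
    DF L A (fun x => ext a u (v x)) := by
  have h1 : A.Definable L {w : Fin 3 → U | a ≤ w 0 ∧ w 0 ∈ v (w 1) ∧ w 2 ∈ u (w 0)} :=
    Dx.and (df_le_par hord ha 0) (Dx.and (Dx.rel (R := fun x y => y ∈ v x) hv 1 0)
      (Dx.rel (R := fun x y => y ∈ u x) hu 0 2))
  exact Dx.ex (P := fun w : Fin 3 → U => a ≤ w 0 ∧ w 0 ∈ v (w 1) ∧ w 2 ∈ u (w 0)) h1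

theorem df_comp1 (hord : (∅ : Set U).Definable L {v : Fin 2 → U | v 0 < v 1}) {A : Set U} {a : U}
    {u : U → Set U} {K : Set U} (ha : a ∈ A) (hu : DF L A u) (hK : A.Definable₁ L K) :
    A.Definable₁ L (ext a u K) := by
  have h1 : A.Definable L {w : Fin 2 → U | a ≤ w 0 ∧ w 0 ∈ K ∧ w 1 ∈ u (w 0)} :=
    Dx.and (df_le_par hord ha 0) (Dx.and (Dx.one hK 0) (Dx.rel (R := fun x y => y ∈ u x) hu 0 1))
  exact Dx.ex (P := fun w : Fin 2 → U => a ≤ w 0 ∧ w 0 ∈ K ∧ w 1 ∈ u (w 0)) h1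

theorem df_Iic (hord : (∅ : Set U).Definable L {v : Fin 2 → U | v 0 < v 1}) (A : Set U) :
    DF L A (fun x : U => Iic x) := Dx.le hord A 1 0

theorem df_union {A : Set U} {u v : U → Set U} (hu : DF L A u) (hv : DF L A v) :
    DF L A (fun x => u x ∪ v x) := Dx.or (n := 2) hu hv

theorem df_inter {A : Set U} {u v : U → Set U} (hu : DF L A u) (hv : DF L A v) :
    DF L A (fun x => u x ∩ v x) := Dx.and (n := 2) hu hv

theorem df_sub {A : Set U} {u v : U → Set U} (hu : DF L A u) (hv : DF L A v) :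
    A.Definable₁ L {x | u x ⊆ v x} := by
  have h1 : A.Definable L {w : Fin 2 → U | w 0 ∈ u (w 1) → w 0 ∈ v (w 1)} :=
    Dx.imp (Dx.rel (R := fun x y => y ∈ u x) hu 1 0) (Dx.rel (R := fun x y => y ∈ v x) hv 1 0)
  exact Dx.all (P := fun w : Fin 2 → U => w 0 ∈ u (w 1) → w 0 ∈ v (w 1)) h1

theorem df_itr (hord : (∅ : Set U).Definable L {v : Fin 2 → U | v 0 < v 1}) {A : Set U} {a : U}
    {u : U → Set U} (ha : a ∈ A) (hu : DF L A u) (k : ℕ) : DF L A (fun x => itr a u k (Iic x)) := by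
  induction k with
  | zero => exact df_Iic hord A
  | succ k ih =>
    have h1 : (fun x => itr a u (k + 1) (Iic x)) = fun x => ext a u (itr a u k (Iic x)) := by
      funext x
      exact Function.iterate_succ_apply' _ _ _
    rw [h1]
    exact df_comp hord ha hu ih

theorem df_Gn (hord : (∅ : Set U).Definable L {v : Fin 2 → U | v 0 < v 1}) {A : Set U} {a : U}
    {u : U → Set U} (ha : a ∈ A) (hu : DF L A u) (k : ℕ) : A.Definable₁ L (Gn a u k) := by
  induction k with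
  | zero => exact df_le_par' hord ha (0 : Fin 1)
  | succ k ih => exact df_comp1 hord ha hu ih

theorem df_single (hord : (∅ : Set U).Definable L {v : Fin 2 → U | v 0 < v 1}) {A : Set U} {a : U}
    (ha : a ∈ A) : A.Definable₁ L ({a} : Set U) := by
  have h1 : A.Definable L {w : Fin 1 → U | w 0 ≤ a ∧ a ≤ w 0} :=
    Dx.and (df_le_par' hord ha 0) (df_le_par hord ha 0)
  have h2 : {w : Fin 1 → U | w 0 ∈ ({a} : Set U)} = {w : Fin 1 → U | w 0 ≤ a ∧ a ≤ w 0} := by
    ext w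
    exact le_antisymm_iff
  show A.Definable L {w : Fin 1 → U | w 0 ∈ ({a} : Set U)}
  rw [h2]
  exact h1

theorem df_fib (hord : (∅ : Set U).Definable L {v : Fin 2 → U | v 0 < v 1}) {A : Set U} {x : U}
    {K : Set U} (hK : (insert x A).Definable₁ L K) (hl : Low K) (hx : x ∈ K) :
    ∃ u : U → Set U, DF L A u ∧ (∀ y, Low (u y)) ∧ (∀ y, y ∈ u y) ∧ u x = K := by
  obtain ⟨u, hu, hux⟩ := Dx.fib hK
  refine ⟨fun y => {t | ∃ s, t ≤ s ∧ (s ∈ u y ∨ s = y)}, ?_, ?_, ?_, ?_⟩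
  · have he : A.Definable L {w : Fin 3 → U | w 0 = w 1} := by
      have h2 : {w : Fin 3 → U | w 0 = w 1} = {w : Fin 3 → U | w 0 ≤ w 1 ∧ w 1 ≤ w 0} := by
        ext w
        exact le_antisymm_iff
      rw [h2]
      exact Dx.and (Dx.le hord A 0 1) (Dx.le hord A 1 0)
    have h1 : A.Definable L {w : Fin 3 → U | w 2 ≤ w 0 ∧ (w 0 ∈ u (w 1) ∨ w 0 = w 1)} :=
      Dx.and (Dx.le hord A 2 0) (Dx.or (Dx.rel (R := fun x y => y ∈ u x) hu 1 0) he)
    exact Dx.ex (P := fun w : Fin 3 → U => w 2 ≤ w 0 ∧ (w 0 ∈ u (w 1) ∨ w 0 = w 1)) h1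
  · rintro y t ⟨s, hs, h⟩ r hr
    exact ⟨s, hr.trans hs, h⟩
  · intro y
    exact ⟨y, le_rfl, Or.inr rfl⟩
  · ext t
    constructor
    · rintro ⟨s, hs, h | h⟩
      · rw [hux] at h
        exact hl s h t hs
      · rw [h] at hs
        exact hl x hx t hs
    · intro ht
      refine ⟨t, le_rfl, Or.inl ?_⟩
      rw [hux]
      exact ht

end

theorem thm_SDF : St_SDF := by
  intro L U _ _ hord
  refine ⟨fun A B u x h hAB hx => df_par h hAB hx, fun A a u v ha hu hv => df_comp hord ha hu hv,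
    fun A u v hu hv => ⟨df_union hu hv, df_inter hu hv, df_Iic hord A⟩,
    fun A u v hu hv => df_sub hu hv,
    fun A a u ha hu k => ⟨df_itr hord ha hu k, df_Gn hord ha hu k⟩,
    fun A B u hu hAB => Set.Definable.mono hu hAB,
    fun A a ha => ⟨df_Gn hord ha (df_Iic hord A) 0, df_single hord ha⟩,
    fun A x K hK hl hx => df_fib hord hK hl hx⟩

end Pool.Agent.WOM
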