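import Pool.Agent.WOM.StS4
import Pool.Agent.WOM.SDF

/-!
WOM: proof of `St_SEA` (iterates with a variable starting point), helper21.
-/

set_option autoImplicit false
set_option linter.unusedVariables false

namespace Pool.Agent.WOM

open FirstOrder.Language Set
open scoped FirstOrder

section

variable {L : FirstOrder.Language.{0, 0}} {U : Type} [L.Structure U] [LinearOrder U]

theorem SEA_sub {a : U} {u : U → Set U} (hl : ∀ x, Low (u x)) (hs : ∀ x, x ∈ u x) {K : Set U}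
    (ha : a ∈ K) : K ⊆ ext a u K := by
  intro y hy
  rcases le_total a y with h | h
  · exact ⟨y, h, hy, hs y⟩
  · exact ⟨a, le_rfl, ha, hl a a (hs a) y h⟩

theorem SEA_low {a : U} {u : U → Set U} (hu : ∀ x, Low (u x)) (K : Set U) : Low (ext a u K) := by
  rintro t ⟨y, h1, h2, h3⟩ s hs
  exact ⟨y, h1, h2, hu y t h3 s hs⟩

theorem SEA_df (hord : (∅ : Set U).Definable L {v : Fin 2 → U | v 0 < v 1}) {A : Set U}
    {g : U → Set U} (hg : DF L A g) (n : ℕ) : DF L A (fun x => Gn x g n) := by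
  induction n with
  | zero => exact df_Iic hord A
  | succ n ih =>
    have h1 : A.Definable L {w : Fin 3 → U | w 1 ≤ w 0 ∧ w 0 ∈ Gn (w 1) g n ∧ w 2 ∈ g (w 0)} :=
      Dx.and (Dx.le hord A 1 0) (Dx.and (Dx.rel (R := fun x y => y ∈ Gn x g n) ih 1 0)
        (Dx.rel (R := fun x y => y ∈ g x) hg 0 2))
    exact Dx.ex (P := fun w : Fin 3 → U => w 1 ≤ w 0 ∧ w 0 ∈ Gn (w 1) g n ∧ w 2 ∈ g (w 0)) h1

theorem SEA_lm {g : U → Set U} (hl : ∀ x, Low (g x)) (hs : ∀ x, x ∈ g x) (x : U) (n : ℕ) :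
    Low (Gn x g n) ∧ x ∈ Gn x g n := by
  induction n with
  | zero =>
    exact ⟨fun y hy z hz => le_trans hz hy, mem_Iic.2 le_rfl⟩
  | succ n ih =>
    exact ⟨SEA_low hl _, x, le_rfl, ih.2, hs x⟩

theorem SEA_mono {g : U → Set U} (hl : ∀ x, Low (g x)) (hs : ∀ x, x ∈ g x) (x : U) (m n : ℕ)
    (hmn : m ≤ n) : Gn x g m ⊆ Gn x g n := by
  induction n, hmn using Nat.le_induction with
  | base => exact Subset.rfl
  | succ n _ ih => exact ih.trans (SEA_sub hl hs (SEA_lm hl hs x n).2)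

theorem SEA_img {g : U → Set U} (σ : U ≃[L] U) (hσ : ∀ x y : U, x < y ↔ σ x < σ y)
    (hg : ∀ x, g (σ x) = σ '' g x) (x : U) (n : ℕ) : Gn (σ x) g n = σ '' Gn x g n := by
  have hle : ∀ x y : U, x ≤ y ↔ σ x ≤ σ y := by
    intro x y
    rw [← not_lt, ← not_lt, hσ y x]
  have hsur : ∀ y : U, ∃ x, σ x = y := fun y => σ.toEquiv.surjective y
  have hinj : ∀ x y : U, σ x = σ y → x = y := fun x y h => σ.toEquiv.injective h
  induction n with
  | zero =>
    ext t
    obtain ⟨s, rfl⟩ := hsur t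
    show σ s ≤ σ x ↔ _
    constructor
    · intro h
      exact ⟨s, (hle s x).2 h, rfl⟩
    · rintro ⟨r, hr, hrs⟩
      have h1 := hinj _ _ hrs
      rw [h1] at hr
      exact (hle s x).1 hr
  | succ n ih =>
    ext t
    obtain ⟨s, rfl⟩ := hsur t
    constructor
    · rintro ⟨y, h1, h2, h3⟩
      obtain ⟨z, rfl⟩ := hsur y
      rw [ih] at h2
      rw [hg] at h3
      obtain ⟨z', hz', hzz⟩ := h2
      obtain ⟨s', hs', hss⟩ := h3
      have e1 := hinj _ _ hzz
      have e2 := hinj _ _ hss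
      rw [e1] at hz'
      rw [e2] at hs'
      exact ⟨s, ⟨z, (hle x z).2 h1, hz', hs'⟩, rfl⟩
    · rintro ⟨s', ⟨y, h1, h2, h3⟩, hss⟩
      have e2 := hinj _ _ hss
      rw [e2] at h3
      refine ⟨σ y, (hle x y).1 h1, ?_, ?_⟩
      · rw [ih]
        exact ⟨y, h2, rfl⟩
      · rw [hg]
        exact ⟨s, h3, rfl⟩

end

theorem thm_SEA (hSFX : St_SFX) (hCNV : St_nCNV) : St_SEA := by
  intro L U _ _ hW A g hA hg hl hs n
  refine ⟨SEA_df hW.ord hg n, fun x => SEA_lm hl hs x n, fun x m hmn => SEA_mono hl hs x m n hmn,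
    ?_, ?_⟩
  · intro x
    ext t
    constructor
    · rintro ⟨y, h1, h2, h3⟩
      have h4 : y = x := le_antisymm h2 h1
      rw [h4] at h3
      exact h3
    · intro ht
      exact ⟨x, le_rfl, mem_Iic.2 le_rfl, ht⟩
  · intro σ hσ x
    exact SEA_img σ ((hCNV L U hW).1 σ) ((hSFX L U hW.mon).1 A g σ hg hσ) x n

end Pool.Agent.WOM
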