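import Pool.Agent.WOM.StS4
import Pool.Agent.WOM.SDF

/-!
WOM: proof of `St_SEB` (bounded cuts in an orbit).
-/

set_option autoImplicit false
set_option linter.unusedVariables false

namespace Pool.Agent.WOM

open FirstOrder.Language Set
open scoped FirstOrder

theorem thm_SEB (hORB : St_ORB) (hCNV : St_nCNV) (hGEX : St_nGEX) (hFAR : St_nFAR) : St_SEB := by
  intro L U _ _ hW A x₀ hA hne
  obtain ⟨O1, O2, -, -, -, O6, -⟩ := hORB L U hW.mon
  obtain ⟨-, C2⟩ := hCNV L U hW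
  have E := hGEX L U hW
  obtain ⟨-, -, F3, -⟩ := hFAR L U hW A x₀ hA hne
  have hcv : (Orb L A x₀).OrdConnected := (C2 A x₀ hA).1
  have p1 : ∀ x ∈ Orb L A x₀, ∀ K : Set U, (insert x A).Definable₁ L K → Low K →
      (∃ y ∈ Orb L A x₀, y ∉ K) → ∀ z, Far L A x z → z ∉ K := by
    rintro x hx K hK hlow ⟨y, hy, hyK⟩ z ⟨hz1, hz2⟩ hzK
    have h1 : Orb L A x = Orb L A x₀ := O2 A x₀ x hx
    rw [h1] at hz2
    obtain ⟨u, hu, hyu⟩ := hz2 y hy
    have hyu' : y ≤ u := hyu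
    exact hyK (hlow u (O6 (insert x A) K hK z hzK hu) y hyu')
  refine ⟨p1, ?_⟩
  intro g hg hlow hself hbd
  have p2 : ∀ x ∈ Orb L A x₀, ∀ K : Set U, Low K → (∃ y ∈ Orb L A x₀, y ∉ K) →
      ∃ y ∈ Orb L A x₀, y ∉ ext x g K := by
    rintro x hx K hK ⟨w, hw, hwK⟩
    have hwe : Orb L A w = Orb L A x₀ := O2 A x₀ w hw
    obtain ⟨z, hz⟩ := (E A (insert w A) w true (Set.subset_insert w A) (hA.insert w)).1
    have hzP : z ∈ Orb L A x₀ := by
      rw [← hwe]
      exact hz.1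
    refine ⟨z, hzP, ?_⟩
    rintro ⟨t, hxt, htK, hzt⟩
    have htw : t ≤ w := by
      by_contra hcon
      exact hwK (hK t htK w (not_le.1 hcon).le)
    have htP : t ∈ Orb L A x₀ := hcv.out hx hw ⟨hxt, htw⟩
    have hfar : Far L A t z := F3 t htP w hw z hzP htw hz
    exact p1 t htP (g t) (df_par hg (Set.subset_insert t A) (Set.mem_insert t A)) (hlow t)
      (hbd t htP) z hfar hzt
  refine ⟨p2, ?_⟩
  intro n
  induction n with
  | zero =>
    intro x hx
    obtain ⟨y, hy, hyg⟩ := hbd x hx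
    exact ⟨y, hy, fun h => hyg (hlow x x (hself x) y h)⟩
  | succ n ih =>
    intro x hx
    refine p2 x hx (Gn x g n) ?_ (ih x hx)
    cases n with
    | zero =>
      intro s hs t hts
      exact le_trans hts hs
    | succ n =>
      rintro s ⟨y, h1, h2, h3⟩ t hts
      exact ⟨y, h1, h2, hlow y s h3 t hts⟩

end Pool.Agent.WOM
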