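import Pool.Agent.WOM.StS4

/-!
WOM, [SEH] EQ for a closed iterate (helper20).
-/

set_option autoImplicit false

namespace Pool.Agent.WOM

open FirstOrder.Language Set
open scoped FirstOrder

theorem thm_SEH (hCNV : St_nCNV) (hEVD : St_nEVD) (hGEX : St_nGEX) (hFFR : St_nFFR)
    (hFAR : St_nFAR) (hORB : St_ORB) (hSEA : St_SEA) (hSEB : St_SEB) : St_SEH := by
  intro L U _ _ hW A x₀ g N hA hne hg hlow hself hbd hcl
  obtain ⟨mono, cnv⟩ := hCNV L U hW
  obtain ⟨hconv, -⟩ := cnv A x₀ hA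
  obtain ⟨o1, o2, -, -, -, -, -, -, -⟩ := hORB L U hW.mon
  obtain ⟨hdf, hL, -, -, hconj⟩ := hSEA L U hW A g hA hg hlow hself N
  obtain ⟨b1, b2⟩ := hSEB L U hW A x₀ hA hne
  have b3 := (b2 g hg hlow hself hbd).2 N
  obtain ⟨-, -, f3, -, -, -, -, -⟩ := hFAR L U hW A x₀ hA hne
  -- (a)
  have ha : ∀ x ∈ Orb L A x₀, ∀ y, x ≤ y → y ∈ Gn x g N →
      y ∈ Orb L A x₀ ∧ Gn y g N ⊆ Gn x g N := by
    intro x hx y hxy hy
    constructor
    · obtain ⟨w, hw, hwn⟩ := b3 x hx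
      have hyw : y ≤ w := by
        by_contra hcon
        exact hwn ((hL x).1 y hy w (le_of_lt (not_le.1 hcon)))
      exact hconv.out hx hw ⟨hxy, hyw⟩
    · have hk : ∀ k : ℕ, Gn y g k ⊆ Gn x g N := by
        intro k
        induction k with
        | zero =>
          intro t ht
          exact (hL x).1 y hy t ht
        | succ k ih =>
          rintro t ⟨s, hys, hs, hts⟩
          exact hcl x hx ⟨s, hxy.trans hys, ih hs, hts⟩
      exact hk N
  -- (b)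
  have hb : ∀ y ∈ Orb L A x₀, (univ : Set U).Definable₁ L
      {x | x ∈ Orb L A x₀ ∧ x ≤ y ∧ y ∈ Gn x g N} := by
    intro y hy
    obtain ⟨p₀, hp⟩ := (hGEX L U hW A (insert y A) y false (subset_insert _ _)
      (hA.insert y)).1
    have hfar : Far L A p₀ y := hFFR L U hW A y p₀ false hA hp
    have hpP : p₀ ∈ Orb L A x₀ := by
      rw [← o2 A x₀ y hy]
      exact hp.1
    have hn : ∀ x ∈ Orb L A x₀, x ≤ p₀ → y ∉ Gn x g N := by
      intro x hx hxp
      have h1 : Far L A x y := f3 x hx p₀ hpP y hy hxp hfar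
      have h2 : (insert x A).Definable₁ L (Gn x g N) :=
        Dx.par (n := 1) (P := fun w => w 1 ∈ Gn (w 0) g N) hdf (subset_insert _ _)
          (mem_insert _ _)
      exact b1 x hx _ h2 (hL x).1 (b3 x hx) y h1
    have hEq : {x | x ∈ Orb L A x₀ ∧ x ≤ y ∧ y ∈ Gn x g N} =
        {x | p₀ ≤ x ∧ x ≤ y ∧ y ∈ Gn x g N} := by
      ext x
      constructor
      · rintro ⟨hx, hxy, hyx⟩
        refine ⟨?_, hxy, hyx⟩
        by_contra hcon
        exact hn x hx (le_of_lt (not_le.1 hcon)) hyx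
      · rintro ⟨hpx, hxy, hyx⟩
        exact ⟨hconv.out hpP hy ⟨hpx, hxy⟩, hxy, hyx⟩
    rw [hEq]
    -- variables: 0 = p₀, 1 = y, 2 = x
    have h3 : (univ : Set U).Definable L
        {w : Fin 3 → U | w 0 ≤ w 2 ∧ w 2 ≤ w 1 ∧ w 1 ∈ Gn (w 2) g N} := by
      refine Dx.and (Dx.le hW.ord univ 0 2) (Dx.and (Dx.le hW.ord univ 2 1) ?_)
      exact Dx.rel (R := fun a b => b ∈ Gn a g N) (hdf.mono (subset_univ A)) 2 1
    have h4 := Dx.par (n := 2) (b := p₀) h3 (subset_univ _) (mem_univ _)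
    have h5 := Dx.par (n := 1) (b := y) h4 (subset_univ _) (mem_univ _)
    exact h5
  -- (c) and (d)
  have hd : ∀ z ∈ Orb L A x₀, ∀ v ∈ Orb L A x₀, v ≤ z → z ∈ Gn v g N → ∀ u, v ≤ u → u ≤ z →
      z ∈ Gn u g N := by
    have hx0 : x₀ ∈ Orb L A x₀ := o1 A x₀
    obtain ⟨z, hz, hzs⟩ : ∃ z ∈ Orb L A x₀, ∀ v ∈ Orb L A x₀, v ≤ z → z ∈ Gn v g N →
        ∀ u, v ≤ u → u ≤ z → z ∈ Gn u g N := by
      rcases hEVD L U hW {u | u ∈ Orb L A x₀ ∧ ∃ v, (v ∈ Orb L A x₀ ∧ v ≤ x₀ ∧ x₀ ∈ Gn v g N) ∧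
          v ≤ u} _ false ⟨x₀, hx0, x₀, ⟨hx0, le_refl _, (hL x₀).2⟩, le_refl _⟩ (hb x₀ hx0) with
        h | h
      · obtain ⟨z, ⟨hz, v₀, hv₀, hvz⟩, hall⟩ := h
        have hzS := hall z ⟨hz, v₀, hv₀, hvz⟩ (le_refl z)
        obtain ⟨-, hzy, hyz⟩ := hzS
        refine ⟨z, hz, ?_⟩
        intro v hv hvz hzv u hvu huz
        have h1 := (ha v hv z hvz hzv).2 hyz
        have huP : u ∈ Orb L A x₀ := hconv.out hv hz ⟨hvu, huz⟩
        have h2 := hall u ⟨huP, v, ⟨hv, hvz.trans hzy, h1⟩, hvu⟩ huz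
        exact (hL u).1 x₀ h2.2.2 z hzy
      · obtain ⟨w, ⟨hw, v, hv, hvw⟩, hall⟩ := h
        exact absurd hv (hall v ⟨hv.1, v, hv, le_refl _⟩ hvw)
    intro z' hz' v hv hvz hzv u hvu huz
    -- `z' = σ z`
    rw [← o2 A x₀ z hz] at hz'
    obtain ⟨σ, hσ, rfl⟩ := hz'
    have hσi : Fx L A σ.symm := by
      intro a haA
      have h1 := hσ a haA
      have h2 : σ.symm (σ a) = a := σ.symm_apply_apply a
      rw [h1] at h2
      exact h2
    have hs : ∀ w : U, σ (σ.symm w) = w := fun w => σ.apply_symm_apply w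
    have hs' : ∀ w : U, σ.symm (σ w) = w := fun w => σ.symm_apply_apply w
    have hle : ∀ a b : U, a ≤ b → σ.symm a ≤ σ.symm b := by
      intro a b hab
      by_contra hcon
      have h1 := (mono σ _ _).1 (not_le.1 hcon)
      rw [hs, hs] at h1
      exact absurd h1 (not_lt.2 hab)
    have hvP : σ.symm v ∈ Orb L A x₀ := by
      rw [← o2 A x₀ v hv]
      exact ⟨σ.symm, hσi, rfl⟩
    have h1 : z ∈ Gn (σ.symm v) g N := by
      rw [hconj σ.symm hσi v]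
      exact ⟨σ z, hzv, hs' z⟩
    have h2 : σ.symm v ≤ z := by
      have := hle _ _ hvz
      rwa [hs'] at this
    have h3 : σ.symm u ≤ z := by
      have := hle _ _ huz
      rwa [hs'] at this
    have h4 := hzs (σ.symm v) hvP h2 h1 (σ.symm u) (hle _ _ hvu) h3
    have h5 := hconj σ hσ (σ.symm u)
    rw [hs] at h5
    rw [h5]
    exact ⟨z, h4, rfl⟩
  -- (e)
  intro x hx y hxy hy
  obtain ⟨hyP, hsub⟩ := ha x hx y hxy hy
  refine ⟨hyP, subset_antisymm hsub ?_⟩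
  intro t ht
  rcases le_or_gt t y with h | h
  · exact (hL y).1 y (hL y).2 t h
  · have htP := (ha x hx t (hxy.trans h.le) ht).1
    exact hd t htP x hx (hxy.trans h.le) ht y hxy h.le

end Pool.Agent.WOM
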