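import Pool.Agent.WOM.StC

/-!
WOM: closure of the definable sets (helper25)
-/

set_option autoImplicit false

namespace Pool.Agent.WOM

open FirstOrder.Language Set
open scoped FirstOrder

section

variable {L : FirstOrder.Language.{0, 0}} {U : Type} [L.Structure U]

theorem DFN_one (A : Set U) (x : U) (s : Set U) (h : (insert x A).Definable₁ L s) :
    ∃ φ : Set (Fin 2 → U), A.Definable L φ ∧ s = {y | ![x, y] ∈ φ} := by
  classical
  obtain ⟨φ, hφ⟩ := definable_iff_exists_formula_sum.1 h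
  let σ : (insert x A : Set U) ⊕ Fin 1 → A ⊕ Fin 2 :=
    Sum.elim (fun a : (insert x A : Set U) =>
      if ha : (a : U) ∈ A then Sum.inl ⟨a, ha⟩ else Sum.inr 0) fun _ => Sum.inr 1
  refine ⟨{v | (φ.relabel σ).Realize (Sum.elim (fun a : A => (a : U)) v)},
    definable_iff_exists_formula_sum.2 ⟨φ.relabel σ, rfl⟩, ?_⟩
  ext y
  have h0 : y ∈ s ↔ ![y] ∈ {v : Fin 1 → U | v 0 ∈ s} := Iff.rfl
  have h1 : (Sum.elim (fun a : A => (a : U)) ![x, y]) ∘ σ =
      Sum.elim (fun a : (insert x A : Set U) => (a : U)) ![y] := by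
    funext z
    rcases z with z | z
    · by_cases ha : (z : U) ∈ A
      · have h2 : σ (Sum.inl z) = Sum.inl ⟨z, ha⟩ := dif_pos ha
        rw [Function.comp_apply, h2]
        rfl
      · have h2 : σ (Sum.inl z) = Sum.inr 0 := dif_neg ha
        rw [Function.comp_apply, h2]
        have h3 : (z : U) = x := (Set.mem_insert_iff.1 z.2).resolve_right ha
        show x = (z : U)
        exact h3.symm
    · have h4 : z = 0 := Subsingleton.elim _ _
      subst h4
      rfl
  rw [h0, hφ, mem_ofPred_eq, mem_ofPred_eq, mem_ofPred_eq,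
    FirstOrder.Language.Formula.realize_relabel, h1]

variable [LinearOrder U]

theorem DFN_le (hord : (∅ : Set U).Definable L {v : Fin 2 → U | v 0 < v 1}) (A : Set U) (t : Bool) :
    A.Definable L {v : Fin 2 → U | leS t (v 0) (v 1)} := by
  have h1 : A.Definable L {v : Fin 2 → U | v 0 < v 1} := hord.mono (Set.empty_subset _)
  cases t with
  | false =>
    have h2 : {v : Fin 2 → U | leS false (v 0) (v 1)} = {v : Fin 2 → U | v 0 < v 1}ᶜ := by
      ext v
      show (if false = true then v 0 ≤ v 1 else v 1 ≤ v 0) ↔ ¬ v 0 < v 1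
      simp
    rw [h2]
    exact h1.compl
  | true =>
    have h2 : {v : Fin 2 → U | leS true (v 0) (v 1)} =
        ((fun g : Fin 2 → U => g ∘ ![1, 0]) ⁻¹' {v : Fin 2 → U | v 0 < v 1})ᶜ := by
      ext v
      show (if true = true then v 0 ≤ v 1 else v 1 ≤ v 0) ↔ ¬ v 1 < v 0
      simp
    rw [h2]
    exact (h1.preimage_comp ![1, 0]).compl

theorem DFN_two (hord : (∅ : Set U).Definable L {v : Fin 2 → U | v 0 < v 1}) (A : Set U)
    (φ : Set (Fin 2 → U)) (P : Set U) (t : Bool) (hφ : A.Definable L φ) (hP : A.Definable₁ L P) :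
    A.Definable₁ L {y | ∃ a ∈ P, ∀ b ∈ P, leS t a b → ![b, y] ∈ φ} := by
  have hP0 : ∀ {n : ℕ} (i : Fin n), A.Definable L {v : Fin n → U | v i ∈ P} := fun {n} i =>
    hP.preimage_comp (fun _ => i)
  have hl : A.Definable L {v : Fin 3 → U | leS t (v 0) (v 1)} :=
    (DFN_le hord A t).preimage_comp ![0, 1]
  have hf : A.Definable L {v : Fin 3 → U | ![v 1, v 2] ∈ φ} := by
    have h1 := hφ.preimage_comp (![1, 2] : Fin 2 → Fin 3)
    have h2 : {v : Fin 3 → U | ![v 1, v 2] ∈ φ} =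
        (fun g : Fin 3 → U => g ∘ ![1, 2]) ⁻¹' φ := by
      ext v
      have h3 : v ∘ ![1, 2] = ![v 1, v 2] := by
        funext i
        fin_cases i <;> rfl
      rw [Set.mem_preimage, h3]
      rfl
    rw [h2]
    exact h1
  have hT := (((hP0 (n := 3) 1).inter hl).inter hf.compl).image_comp (![0, 2] : Fin 2 → Fin 3)
  have hS := ((hP0 (n := 2) 0).inter hT.compl).image_comp (![1] : Fin 1 → Fin 2)
  have key : {v : Fin 1 → U | v 0 ∈ {y | ∃ a ∈ P, ∀ b ∈ P, leS t a b → ![b, y] ∈ φ}} =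
      (fun g : Fin 2 → U => g ∘ ![1]) '' ({v : Fin 2 → U | v 0 ∈ P} ∩
        ((fun g : Fin 3 → U => g ∘ ![0, 2]) '' ({v : Fin 3 → U | v 1 ∈ P} ∩
          {v : Fin 3 → U | leS t (v 0) (v 1)} ∩ {v : Fin 3 → U | ![v 1, v 2] ∈ φ}ᶜ))ᶜ) := by
    ext v
    constructor
    · rintro ⟨a, ha, h⟩
      refine ⟨![a, v 0], ⟨ha, ?_⟩, ?_⟩
      · rintro ⟨w, ⟨⟨hw1, hw2⟩, hw3⟩, hw⟩
        have e0 : w 0 = a := congrFun hw 0
        have e1 : w 2 = v 0 := congrFun hw 1
        apply hw3
        show ![w 1, w 2] ∈ φ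
        rw [e1]
        refine h (w 1) hw1 ?_
        have hw2' : leS t (w 0) (w 1) := hw2
        rw [e0] at hw2'
        exact hw2'
      · funext i
        have h4 : i = 0 := Subsingleton.elim _ _
        subst h4
        rfl
    · rintro ⟨w, ⟨hw1, hw2⟩, rfl⟩
      refine ⟨w 0, hw1, fun b hb hle => ?_⟩
      by_contra hn
      apply hw2
      refine ⟨![w 0, b, w 1], ⟨⟨hb, hle⟩, hn⟩, ?_⟩
      funext i
      fin_cases i <;> rfl
  have goal : A.Definable L
      {v : Fin 1 → U | v 0 ∈ {y | ∃ a ∈ P, ∀ b ∈ P, leS t a b → ![b, y] ∈ φ}} := by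
    rw [key]
    exact hS
  exact goal

theorem DFN_three (hord : (∅ : Set U).Definable L {v : Fin 2 → U | v 0 < v 1}) (A : Set U)
    (X : Set U) (t : Bool) (hX : A.Definable₁ L X) : A.Definable₁ L (Cls t X) := by
  have hX0 : A.Definable L {v : Fin 2 → U | v 1 ∈ X} := hX.preimage_comp (fun _ => 1)
  have hS := (hX0.inter (DFN_le hord A t)).image_comp (![0] : Fin 1 → Fin 2)
  have key : {v : Fin 1 → U | v 0 ∈ Cls t X} =
      (fun g : Fin 2 → U => g ∘ ![0]) '' ({v : Fin 2 → U | v 1 ∈ X} ∩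
        {v : Fin 2 → U | leS t (v 0) (v 1)}) := by
    ext v
    constructor
    · rintro ⟨a, ha, h⟩
      refine ⟨![v 0, a], ⟨ha, h⟩, ?_⟩
      funext i
      have h4 : i = 0 := Subsingleton.elim _ _
      subst h4
      rfl
    · rintro ⟨w, ⟨hw1, hw2⟩, rfl⟩
      exact ⟨w 1, hw1, hw2⟩
  have goal : A.Definable L {v : Fin 1 → U | v 0 ∈ Cls t X} := by
    rw [key]
    exact hS
  exact goal

theorem DFN_four (hord : (∅ : Set U).Definable L {v : Fin 2 → U | v 0 < v 1}) (a : U) (t : Bool) :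
    ({a} : Set U).Definable₁ L {u | leS t a u} := by
  have h1 : ({a} : Set U).Definable L {v : Fin 2 → U | v 0 ∈ ({a} : Set U)} :=
    (Definable.singleton_of_mem (L := L) (Set.mem_singleton a)).preimage_comp (fun _ => 0)
  have hS := (h1.inter (DFN_le hord {a} t)).image_comp (![1] : Fin 1 → Fin 2)
  have key : {v : Fin 1 → U | v 0 ∈ {u | leS t a u}} =
      (fun g : Fin 2 → U => g ∘ ![1]) '' ({v : Fin 2 → U | v 0 ∈ ({a} : Set U)} ∩
        {v : Fin 2 → U | leS t (v 0) (v 1)}) := by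
    ext v
    constructor
    · intro h
      refine ⟨![a, v 0], ⟨rfl, h⟩, ?_⟩
      funext i
      have h4 : i = 0 := Subsingleton.elim _ _
      subst h4
      rfl
    · rintro ⟨w, ⟨hw1, hw2⟩, rfl⟩
      have e : w 0 = a := hw1
      show leS t a (w 1)
      rw [← e]
      exact hw2
  have goal : ({a} : Set U).Definable L {v : Fin 1 → U | v 0 ∈ {u | leS t a u}} := by
    rw [key]
    exact hS
  exact goal

end

theorem thm_DFN : St_DFN := by
  intro L U _ _ hord A
  exact ⟨fun x s h => DFN_one A x s h, fun φ P t hφ hP => DFN_two hord A φ P t hφ hP,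
    fun X t hX => DFN_three hord A X t hX, fun a t => DFN_four hord a t⟩

end Pool.Agent.WOM
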