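import Pool.Agent.WOM.StN

/-!
WOM, [CNV]: orbits are convex and have no endpoints (helper22).
-/

set_option autoImplicit false

namespace Pool.Agent.WOM

open FirstOrder.Language Set
open scoped FirstOrder

private theorem nCNV_lt {L : FirstOrder.Language.{0, 0}} {U : Type} [L.Structure U] [LinearOrder U]
    (h : Wn L U) (σ : U ≃[L] U) (x y : U) : x < y ↔ σ x < σ y := by
  obtain ⟨φ, hφ⟩ := Set.empty_definable_iff.1 h.ord
  have h1 : ∀ v : Fin 2 → U, v 0 < v 1 ↔ φ.Realize v := by
    intro v
    have h0 : v ∈ {v : Fin 2 → U | v 0 < v 1} ↔ φ.Realize v := by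
      rw [hφ]
      exact Iff.rfl
    exact h0
  have h2 := StrongHomClass.realize_formula σ φ (v := ![x, y])
  have h3 := h1 ![x, y]
  have h4 := h1 (σ ∘ ![x, y])
  rw [h2] at h4
  simp only [Function.comp_apply, Matrix.cons_val_zero, Matrix.cons_val_one] at h3 h4
  exact h3.trans h4.symm

private theorem nCNV_fx {L : FirstOrder.Language.{0, 0}} {U : Type} [L.Structure U] {A : Set U}
    {g : U ≃[L] U} (hg : Fx L A g) (n : ℕ) :
    ∃ σ : U ≃[L] U, Fx L A σ ∧ ∀ z, σ z = (g : U → U)^[n] z := by
  induction n with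
  | zero => exact ⟨FirstOrder.Language.Equiv.refl L U, fun a _ => rfl, fun z => rfl⟩
  | succ n ih =>
    obtain ⟨σ, h1, h2⟩ := ih
    refine ⟨σ.comp g, fun a ha => ?_, fun z => ?_⟩
    · rw [FirstOrder.Language.Equiv.comp_apply, hg a ha, h1 a ha]
    · rw [FirstOrder.Language.Equiv.comp_apply, h2, Function.iterate_succ_apply]

theorem thm_nCNV (hORB : St_ORB) : St_nCNV := by
  intro L U _ _ hW
  obtain ⟨o1, o2, -, -, -, o6, o7, -, -⟩ := hORB L U hW.mon
  have hlt := nCNV_lt hW
  refine ⟨hlt, fun A x0 hA => ⟨?_, ?_⟩⟩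
  · constructor
    intro x hx z hz y hy
    by_contra hy0
    have hx0 : Orb L A x = Orb L A x0 := o2 A x0 x hx
    have hyx : y ∉ Orb L A x := by rwa [hx0]
    have hzx : z ∈ Orb L A x := by rwa [hx0]
    obtain ⟨s, hs, hxs, hys⟩ := o7 A x y hA hyx
    obtain ⟨g, hg, rfl⟩ := hzx
    have hxy : x < y := lt_of_le_of_ne hy.1 (by
      rintro rfl
      exact hyx (o1 A x))
    have hyz : y < g x := lt_of_le_of_ne hy.2 (by
      rintro rfl
      exact hyx ⟨g, hg, rfl⟩)
    have hmono : StrictMono (g : U → U) := fun a b hab => (hlt g a b).1 hab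
    have hit : ∀ n : ℕ, StrictMono ((g : U → U)^[n]) := fun n => hmono.iterate n
    have hin : ∀ n : ℕ, (g : U → U)^[n] x ∈ s := by
      intro n
      obtain ⟨σ, h1, h2⟩ := nCNV_fx hg n
      exact o6 A s hs x hxs ⟨σ, h1, h2 x⟩
    have hout : ∀ n : ℕ, (g : U → U)^[n] y ∉ s := by
      intro n hn
      obtain ⟨σ, h1, h2⟩ := nCNV_fx hg n
      have h3 : (g : U → U)^[n] y ∈ Orb L A y := ⟨σ, h1, h2 y⟩
      have h4 := o6 A s hs _ hn
      rw [o2 A y _ h3] at h4
      exact hys (h4 (o1 A y))
    have hlt1 : ∀ n : ℕ, (g : U → U)^[n] x < (g : U → U)^[n] y := fun n => hit n hxy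
    have hlt2 : ∀ n : ℕ, (g : U → U)^[n] y < (g : U → U)^[n + 1] x := fun n => by
      rw [Function.iterate_succ_apply]
      exact hit n hyz
    have hsm : StrictMono (fun n : ℕ => (g : U → U)^[n] x) :=
      strictMono_nat_of_lt_succ fun n => (hlt1 n).trans (hlt2 n)
    obtain ⟨n, C, hC, hsC⟩ := hW.fin s (Set.Definable.mono hs (Set.subset_univ _))
    have hmem : ∀ i : ℕ, ∃ k : Fin n, (g : U → U)^[i] x ∈ C k := fun i => by
      have := hin i
      rw [hsC, Set.mem_iUnion] at this
      exact this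
    choose f hf using hmem
    have key : ∀ i j : ℕ, i < j → f i = f j → False := by
      intro i j hij hfe
      have h1 : (g : U → U)^[i] y ∈ Set.Icc ((g : U → U)^[i] x) ((g : U → U)^[j] x) :=
        ⟨(hlt1 i).le, ((hlt2 i).le).trans (hsm.monotone (by omega : i + 1 ≤ j))⟩
      have h2 : (g : U → U)^[i] y ∈ C (f i) := (hC (f i)).out (hf i) (by
        rw [hfe]
        exact hf j) h1
      apply hout i
      rw [hsC, Set.mem_iUnion]
      exact ⟨_, h2⟩
    obtain ⟨i, j, hij, hfe⟩ := Fintype.exists_ne_map_eq_of_card_lt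
      (fun i : Fin (n + 1) => f i) (by simp)
    rcases lt_or_gt_of_ne (fun h => hij (Fin.ext h) : (i : ℕ) ≠ (j : ℕ)) with h | h
    · exact key _ _ h hfe
    · exact key _ _ h hfe.symm
  · intro hne t w hw
    have hwx : Orb L A w = Orb L A x0 := o2 A x0 w hw
    have hex : ∃ u ∈ Orb L A x0, u ≠ w := by
      by_contra hcon
      push Not at hcon
      apply hne
      ext u
      rw [Set.mem_singleton_iff]
      constructor
      · intro hu
        rw [hcon u hu, hcon x0 (o1 A x0)]
      · rintro rfl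
        exact o1 A u
    obtain ⟨u, hu, huw⟩ := hex
    by_cases hle : leS t w u
    · exact ⟨u, hu, hle, huw⟩
    · rw [← hwx] at hu
      obtain ⟨g, hg, hgw⟩ := hu
      have hgs : g.symm u = w := by
        rw [← hgw]
        exact g.symm_apply_apply w
      have hfx : Fx L A g.symm := fun a ha => by
        have h1 := hg a ha
        have h2 := g.symm_apply_apply a
        rwa [h1] at h2
      refine ⟨g.symm w, ?_, ?_, ?_⟩
      · rw [← hwx]
        exact ⟨g.symm, hfx, rfl⟩
      · unfold leS at hle ⊢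
        split_ifs at hle ⊢ with ht
        · have h1 : u < w := not_le.1 hle
          have h2 := (hlt g.symm u w).1 h1
          rw [hgs] at h2
          exact h2.le
        · have h1 : w < u := not_le.1 hle
          have h2 := (hlt g.symm w u).1 h1
          rw [hgs] at h2
          exact h2.le
      · intro heq
        apply huw
        have h1 : g (g.symm w) = w := g.apply_symm_apply w
        rw [heq, hgw] at h1
        exact h1

end Pool.Agent.WOM
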