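import Pool.Agent.WOM.StN

/-!
WOM [EVD]: a definable set of a weakly o-minimal structure is eventually constant on any nonempty
set (towards each side).
-/

set_option autoImplicit false
set_option linter.unusedVariables false

namespace Pool.Agent.WOM

open FirstOrder.Language Set
open scoped FirstOrder

private theorem nEVD_refl {U : Type} [LinearOrder U] (t : Bool) (x : U) : leS t x x := by
  unfold leS
  split <;> exact le_refl x

private theorem nEVD_trans {U : Type} [LinearOrder U] {t : Bool} {x y z : U}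
    (h1 : leS t x y) (h2 : leS t y z) : leS t x z := by
  unfold leS at *
  by_cases ht : t = true
  · rw [if_pos ht] at *
    exact le_trans h1 h2
  · rw [if_neg ht] at *
    exact le_trans h2 h1

private theorem nEVD_total {U : Type} [LinearOrder U] (t : Bool) (x y : U) :
    leS t x y ∨ leS t y x := by
  unfold leS
  by_cases ht : t = true
  · rw [if_pos ht, if_pos ht]
    exact le_total x y
  · rw [if_neg ht, if_neg ht]
    exact le_total y x

private theorem nEVD_conv {U : Type} [LinearOrder U] {t : Bool} {C : Set U} (hC : C.OrdConnected)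
    {x y z : U} (hx : x ∈ C) (hz : z ∈ C) (h1 : leS t x y) (h2 : leS t y z) : y ∈ C := by
  unfold leS at *
  by_cases ht : t = true
  · rw [if_pos ht] at *
    exact hC.out hx hz ⟨h1, h2⟩
  · rw [if_neg ht] at *
    exact hC.out hz hx ⟨h2, h1⟩

/-- finitely many elements of `Y` have an upper bound in `Y` (towards the side `t`) -/
private theorem nEVD_bound {U : Type} [LinearOrder U] (t : Bool) (Y : Set U) (hY : Y.Nonempty)
    {n : ℕ} (w : Fin n → U) (hw : ∀ i, w i ∈ Y) : ∃ v ∈ Y, ∀ i, leS t (w i) v := by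
  induction n with
  | zero =>
    obtain ⟨y, hy⟩ := hY
    exact ⟨y, hy, fun i => i.elim0⟩
  | succ n ih =>
    obtain ⟨v, hv, h⟩ := ih (fun i => w i.castSucc) (fun i => hw _)
    rcases nEVD_total t v (w (Fin.last n)) with h1 | h1
    · refine ⟨w (Fin.last n), hw _, ?_⟩
      intro i
      refine Fin.lastCases ?_ (fun j => ?_) i
      · exact nEVD_refl t _
      · exact nEVD_trans (h j) h1
    · refine ⟨v, hv, ?_⟩
      intro i
      refine Fin.lastCases ?_ (fun j => ?_) i
      · exact h1
      · exact h j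

/-- [EVD] -/
theorem thm_nEVD : St_nEVD := by
  intro L U _ _ hW Y s t hY hs
  obtain ⟨n, C, hC, rfl⟩ := hW.fin s hs
  by_cases hcof : ∃ i, ∀ w ∈ Y, ∃ u ∈ Y, leS t w u ∧ u ∈ C i
  · obtain ⟨i, hi⟩ := hcof
    left
    obtain ⟨y, hy⟩ := hY
    obtain ⟨w, hw, hyw, hwC⟩ := hi y hy
    refine ⟨w, hw, ?_⟩
    intro u hu hwu
    obtain ⟨v, hv, huv, hvC⟩ := hi u hu
    exact mem_iUnion.2 ⟨i, nEVD_conv (hC i) hwC hvC hwu huv⟩
  · right
    push Not at hcof
    choose w hw hwn using hcof
    obtain ⟨v, hv, hvw⟩ := nEVD_bound t Y hY w hw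
    refine ⟨v, hv, ?_⟩
    intro u hu hvu hmem
    obtain ⟨i, hi⟩ := mem_iUnion.1 hmem
    exact hwn i u hu (nEVD_trans (hvw i) hvu) hi

end Pool.Agent.WOM
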