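import Pool.Agent.WOM.StN

/-! WOM: module FFR, symmetry of the relation far. -/

set_option autoImplicit false

namespace Pool.Agent.WOM

open FirstOrder.Language Set
open scoped FirstOrder

section
variable {L : FirstOrder.Language.{0, 0}} {U : Type} [L.Structure U]

theorem nFFR_image {A : Set U} {σ : U ≃[L] U} (h : Fx L A σ) : σ '' A = A := by
  ext x
  constructor
  · rintro ⟨a, ha, rfl⟩
    rw [h a ha]
    exact ha
  · intro hx
    exact ⟨x, hx, h x hx⟩

theorem nFFR_insert {A : Set U} {σ : U ≃[L] U} (h : Fx L A σ) (x : U) :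
    σ '' (insert x A) = insert (σ x) A := by
  rw [image_insert_eq, nFFR_image h]

theorem nFFR_comp {A : Set U} {σ τ : U ≃[L] U} (h : Fx L A σ) (h' : Fx L A τ) :
    Fx L A (τ.comp σ) := by
  intro a ha
  show τ (σ a) = a
  rw [h a ha, h' a ha]

variable [LinearOrder U]

theorem nFFR_le_total (t : Bool) (x y : U) : leS t x y ∨ leS t y x := by
  unfold leS
  split_ifs
  · exact le_total x y
  · exact le_total y x

theorem nFFR_le_not (t : Bool) (x y : U) : leS (!t) x y ↔ leS t y x := by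
  unfold leS
  cases t <;> simp

theorem nFFR_le_antisymm (t : Bool) {x y : U} (h : leS t x y) (h' : leS t y x) : x = y := by
  unfold leS at h h'
  split_ifs at h h'
  · exact le_antisymm h h'
  · exact le_antisymm h' h

/-- invariance -/
theorem nFFR_inv (hGER : St_nGER) (hW : Wn L U) {A : Set U} {t : Bool} {x y : U} {σ : U ≃[L] U}
    (hσ : Fx L A σ) (h : y ∈ Ge L A x t (insert x A)) :
    σ y ∈ Ge L A (σ x) t (insert (σ x) A) := by
  have h5 := (hGER L U hW).2.2.2.2.1 σ A (insert x A) x t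
  rw [nFFR_image hσ, nFFR_insert hσ] at h5
  rw [h5]
  exact mem_image_of_mem σ h

/-- far pairs are one orbit -/
theorem nFFR_orb (hGEX : St_nGEX) (hGER : St_nGER) (hW : Wn L U) {A : Set U} (hA : A.Finite)
    {t : Bool} {x y x1 y1 : U} (h : y ∈ Ge L A x t (insert x A))
    (h1 : y1 ∈ Ge L A x1 t (insert x1 A)) (hx : x1 ∈ Orb L A x) :
    ∃ σ : U ≃[L] U, Fx L A σ ∧ σ x = x1 ∧ σ y = y1 := by
  obtain ⟨σ, hσ, rfl⟩ := hx
  have h2 := nFFR_inv hGER hW hσ h
  have h3 := (hGEX L U hW A (insert (σ x) A) (σ x) t (subset_insert _ _)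
    (hA.insert _)).2 _ h2
  rw [h3] at h1
  obtain ⟨τ, hτ, h4⟩ := h1
  refine ⟨τ.comp σ, nFFR_comp hσ (fun a ha => hτ a (mem_insert_of_mem _ ha)), ?_, h4⟩
  show τ (σ x) = σ x
  exact hτ _ (mem_insert _ _)

/-- strictness -/
theorem nFFR_strict (hORB : St_ORB) (hGER : St_nGER) (hCNV : St_nCNV) (hW : Wn L U) {A : Set U}
    (hA : A.Finite) {t : Bool} {x y : U} (hne : Orb L A x ≠ {x})
    (h : y ∈ Ge L A x t (insert x A)) : ¬ leS t y x := by
  intro hle
  obtain ⟨hO1, hO2, -, -, hO5, -, -, -, -⟩ := hORB L U hW.mon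
  have h7 := (hGER L U hW).2.2.2.2.2.2.1 A (insert x A) x y x t (subset_insert _ _)
    (hA.insert _) h (hO1 A x) hle
  obtain ⟨u, hu, hu1, hu2⟩ := ((hCNV L U hW).2 A x hA).2 hne t x (hO1 A x)
  obtain ⟨w, hw, hw1⟩ := h7.2 u hu
  rw [hO5 (insert x A) x (mem_insert _ _)] at hw
  rw [mem_singleton_iff.1 hw] at hw1
  exact hu2 (nFFR_le_antisymm t hw1 hu1)

end

theorem thm_nFFR (hORB : St_ORB) (hCNV : St_nCNV) (hGEX : St_nGEX) (hGER : St_nGER) : St_nFFR := by
  intro L U _ _ hW A a b t hA hab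
  obtain ⟨hO1, hO2, hO3, hO4, hO5, hO6, hO7, hO8, hO9⟩ := hORB L U hW.mon
  have hG := hGER L U hW
  have hb : b ∈ Orb L A a := hab.1
  have hOb : Orb L A b = Orb L A a := hO2 A a b hb
  by_cases hne : Orb L A a = {a}
  · -- trivial orbit
    rw [hne] at hb
    have hba : b = a := hb
    subst hba
    refine ⟨hO1 A b, fun w hw => ⟨b, hO1 _ b, ?_⟩⟩
    rw [hne] at hw
    rw [mem_singleton_iff.1 hw]
    rcases nFFR_le_total (!t) b b with h | h <;> exact h
  -- every element of the orbit has a nontrivial orbit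
  have hne' : ∀ x ∈ Orb L A a, Orb L A x ≠ {x} := by
    intro x hx h
    apply hne
    rw [hO2 A a x hx] at h
    have h1 : a ∈ Orb L A a := hO1 A a
    rw [h] at h1
    rw [h, mem_singleton_iff.1 h1]
  -- the orbit of x over A is p
  have hp : ∀ x ∈ Orb L A a, Orb L A x = Orb L A a := fun x hx => hO2 A a x hx
  -- a pair in F₋
  obtain ⟨x0, hx0⟩ := ((hGEX L U hW A (insert b A) b (!t) (subset_insert _ _) (hA.insert _))).1
  have hx0p : x0 ∈ Orb L A a := by
    rw [← hOb]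
    exact hx0.1
  -- it is enough that it is in F₊
  suffices hkey : b ∈ Ge L A x0 t (insert x0 A) by
    obtain ⟨σ, hσ, hσ1, hσ2⟩ := nFFR_orb hGEX hGER hW hA hkey hab (by
      rw [hp x0 hx0p]
      exact hO1 A a)
    have := nFFR_inv hGER hW hσ hx0
    rw [hσ1, hσ2] at this
    exact this
  by_contra hcon
  -- F₊ and F₋ are disjoint
  have hdis : ∀ x ∈ Orb L A a, ∀ y ∈ Orb L A a, y ∈ Ge L A x t (insert x A) →
      x ∈ Ge L A y (!t) (insert y A) → False := by
    intro x hx y hy h1 h2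
    apply hcon
    obtain ⟨σ, hσ, hσ1, hσ2⟩ := nFFR_orb hGEX hGER hW hA h2 hx0 (by
      rw [hp y hy]
      exact hb)
    have := nFFR_inv hGER hW hσ h1
    rw [hσ1, hσ2] at this
    exact this
  -- T is monotone
  have hmono : ∀ x' ∈ Orb L A a, ∀ x1 ∈ Orb L A a, ∀ x2 ∈ Orb L A a, leS t x1 x2 →
      x1 ∈ Ge L A x' t (insert x' A) → x2 ∈ Ge L A x' t (insert x' A) := by
    intro x' hx' x1 hx1 x2 hx2 hle h
    exact hG.2.2.2.2.2.2.1 A (insert x' A) x' x1 x2 t (subset_insert _ _) (hA.insert _) h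
      (by rw [hp x' hx']; exact hx2) hle
  -- x0 is in the first orbit over b, A
  have hlt : ¬ leS (!t) x0 b := nFFR_strict hORB hGER hCNV hW hA (hne' b hb) hx0
  have hle : leS t x0 b := by
    rcases nFFR_le_total t x0 b with h | h
    · exact h
    · exact absurd ((nFFR_le_not t x0 b).2 h) hlt
  -- v ∈ T x0
  obtain ⟨σ, hσ, hσ1⟩ : ∃ σ : U ≃[L] U, Fx L A σ ∧ σ b = x0 := by
    have : x0 ∈ Orb L A b := by rw [hOb]; exact hx0p
    exact this
  have hv := nFFR_inv hGER hW hσ hab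
  rw [hσ1] at hv
  have hvp : σ a ∈ Orb L A a := ⟨σ, hσ, rfl⟩
  have hvlt : ¬ leS t x0 (σ a) := nFFR_strict hORB hGER hCNV hW hA (hne' _ hvp) hv
  -- v ∈ T b
  have hvb := hmono (σ a) hvp x0 hx0p b hb hle hv
  -- x0 < v
  rcases nFFR_le_total t x0 (σ a) with h | h
  · exact hvlt h
  · -- v ≤ x0: v is in the first orbit over b
    apply hdis (σ a) hvp b hb hvb
    exact hG.2.2.2.2.2.2.1 A (insert b A) b x0 (σ a) (!t) (subset_insert _ _) (hA.insert _) hx0
      (by rw [hOb]; exact hvp) ((nFFR_le_not t x0 (σ a)).2 h)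

end Pool.Agent.WOM
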