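import Pool.Agent.WOM.StS5
import Pool.Agent.WOM.nFAR
import Pool.Agent.WOM.nFFR
import Pool.Agent.WOM.nEVD
import Pool.Agent.WOM.nGEX
import Pool.Agent.WOM.nGER
import Pool.Agent.WOM.nCNV
import Pool.Agent.WOM.ORB
import Pool.Agent.WOM.DFN
import Pool.Agent.WOM.DEF1
import Pool.Agent.WOM.DEFF

/-!
WOM, [SEP]: separation of far pairs (helper42 for helper41).
-/

set_option autoImplicit false
set_option linter.unusedVariables false

namespace Pool.Agent.WOM

open FirstOrder.Language Set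
open scoped FirstOrder

theorem thm_SEP : St_SEP := by
  have hORB : St_ORB := thm_ORB (thm_DEF1 thm_DEFF)
  have hCNV : St_nCNV := thm_nCNV hORB
  have hGEX : St_nGEX := thm_nGEX thm_DFN hORB hCNV thm_nEVD
  have hGER : St_nGER := thm_nGER hORB hCNV hGEX
  have hFFR : St_nFFR := thm_nFFR hORB hCNV hGEX hGER
  have hFAR : St_nFAR := thm_nFAR hORB hCNV hGEX hGER hFFR
  intro L U _ _ hU B x c hB hne x₁ hx₁ x₂ hx₂
  obtain ⟨g1, g2, g3, g4, g5, g6, g7, g8⟩ := hGER L U hU
  obtain ⟨f1, f2, f3, f4, f5, f6, f7, f8⟩ := hFAR L U hU B x hB hne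
  obtain ⟨xa, hxa⟩ := (hGEX L U hU B (insert c B) x false (subset_insert _ _) (hB.insert c)).1
  obtain ⟨xb, hxb⟩ := (hGEX L U hU B (insert c (insert xa B)) x true
    ((subset_insert _ _).trans (subset_insert _ _)) ((hB.insert xa).insert c)).1
  have h1 : xb ∈ Ge L B x true (insert c B) :=
    g2 B (insert c B) (insert c (insert xa B)) x true (subset_insert _ _)
      (insert_subset_insert (subset_insert _ _)) ((hB.insert xa).insert c) hxb
  have h2 : Far L B xa xb := by
    show xb ∈ Ge L B xa true (insert xa B)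
    rw [g4 B (insert xa B) x xa true hxa.1]
    exact g2 B (insert xa B) (insert c (insert xa B)) x true (subset_insert _ _)
      (subset_insert _ _) ((hB.insert xa).insert c) hxb
  obtain ⟨σ, hσ, hσ1, hσ2⟩ := f7 xa hxa.1 x₁ hx₁ xb x₂ h2 hx₂
  have h3 : ∀ (t : Bool) (u : U), u ∈ Ge L B x t (insert c B) →
      σ u ∈ Ge L B x t (insert (σ c) B) := by
    intro t u hu
    have h4 : σ u ∈ σ '' Ge L B x t (insert c B) := mem_image_of_mem σ hu
    rw [← g5, nFFR_image hσ, nFFR_insert hσ, g4 B (insert (σ c) B) x (σ x) t ⟨σ, hσ, rfl⟩] at h4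
    exact h4
  refine ⟨σ c, ⟨σ, hσ, rfl⟩, ?_, ?_⟩
  · rw [← hσ1]
    exact h3 false xa hxa
  · rw [← hσ2]
    exact h3 true xb h1

end Pool.Agent.WOM
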