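import Pool.Agent.WOM.StS4
import Pool.Agent.WOM.SDF
import Pool.Agent.WOM.SCUT
import Pool.Agent.WOM.nFAR
import Pool.Agent.WOM.nFFR
import Pool.Agent.WOM.nEVD
import Pool.Agent.WOM.nGEX
import Pool.Agent.WOM.nGER
import Pool.Agent.WOM.nCNV
import Pool.Agent.WOM.ORB
import Pool.Agent.WOM.DFN
import Pool.Agent.WOM.DEF1
import Pool.Agent.WOM.DEFF

/-!
WOM, [SEQ]: EQ for bounded definable cut functions (helper42 for helper41).
-/

set_option autoImplicit false
set_option linter.unusedVariables false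

namespace Pool.Agent.WOM

open FirstOrder.Language Set
open scoped FirstOrder

section

variable {L : FirstOrder.Language.{0, 0}} {U : Type} [L.Structure U] [LinearOrder U]

/-- the fibre in the other variable -/
theorem SEQ_fib {A : Set U} {u : U → Set U} (h : DF L A u) (y : U) :
    (univ : Set U).Definable₁ L {t | y ∈ u t} := by
  have h1 : DF L A (fun y => {t | y ∈ u t}) := h.preimage_comp (![1, 0] : Fin 2 → Fin 2)
  exact df_par h1 (subset_univ _) (mem_univ y)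

/-- a point of a definable cut in no smaller definable cut -/
theorem SEQ_sat (hM : Mon L U) {D : Set U} (hD : D.Finite) {H : Set U} (hH : D.Definable₁ L H)
    (hne : H.Nonempty) :
    ∃ y ∈ H, ∀ K : Set U, D.Definable₁ L K → Low K → ¬ H ⊆ K → y ∉ K := by
  obtain ⟨y, hy⟩ := hM.sat D hD ({H} ∪ {s | ∃ K : Set U, D.Definable₁ L K ∧ Low K ∧ ¬ H ⊆ K ∧ s = Kᶜ})
    (by
      rintro s (hs | ⟨K, hK, -, -, rfl⟩)
      · rw [mem_singleton_iff.1 hs]
        exact hH
      · exact hK.compl) (by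
      intro G hG hGf
      have key : ∃ t ∈ H, ∀ s ∈ G, ∀ t', t ≤ t' → t' ∈ H → t' ∈ s := by
        induction G, hGf using Set.Finite.induction_on with
        | empty =>
          obtain ⟨t, ht⟩ := hne
          exact ⟨t, ht, fun s hs => absurd hs (notMem_empty s)⟩
        | @insert a G' _ _ ih =>
          obtain ⟨t, ht, hts⟩ := ih ((subset_insert a G').trans hG)
          rcases hG (mem_insert a G') with ha | ⟨K, hK, hKl, hKH, rfl⟩
          · refine ⟨t, ht, ?_⟩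
            rintro s (rfl | hs) t' htt' ht'
            · rw [mem_singleton_iff.1 ha]
              exact ht'
            · exact hts s hs t' htt' ht'
          · obtain ⟨r, hr, hrK⟩ := not_subset.1 hKH
            refine ⟨max t r, ?_, ?_⟩
            · rcases max_choice t r with h | h <;> rw [h] <;> assumption
            · rintro s (rfl | hs) t' htt' ht'
              · exact fun h => hrK (hKl t' h r ((le_max_right t r).trans htt'))
              · exact hts s hs t' ((le_max_left t r).trans htt') ht'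
      obtain ⟨t, ht, hts⟩ := key
      exact ⟨t, fun s hs => hts s hs t le_rfl ht⟩)
  refine ⟨y, hy H (Or.inl rfl), fun K hK hKl hKH hyK => ?_⟩
  exact hy Kᶜ (Or.inr ⟨K, hK, hKl, hKH, rfl⟩) hyK

end

theorem thm_SEQ (hSEA : St_SEA) (hSEB : St_SEB) (hSEH : St_SEH) : St_SEQ := by
  have hORB : St_ORB := thm_ORB (thm_DEF1 thm_DEFF)
  have hCNV : St_nCNV := thm_nCNV hORB
  have hGEX : St_nGEX := thm_nGEX thm_DFN hORB hCNV thm_nEVD
  have hGER : St_nGER := thm_nGER hORB hCNV hGEX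
  have hFFR : St_nFFR := thm_nFFR hORB hCNV hGEX hGER
  have hFAR : St_nFAR := thm_nFAR hORB hCNV hGEX hGER hFFR
  have hSCUT : St_SCUT := thm_SCUT hORB hCNV
  intro L U _ _ hU hNS A x₀ g hA hne hdf hlow hself hbd x₁ hx₁ y₁ hxy₁ hy₁
  obtain ⟨o1, o2, o3, o4, o5, o6, o7, o8, o9⟩ := hORB L U hU.mon
  have sea := hSEA L U hU A g hA hdf hlow hself
  -- the least index
  have hex : ∃ n, Gn x₀ g (n + 1) ⊆ Gn x₀ g n := hNS A x₀ g hA hdf hlow hself
  classical
  obtain ⟨N, hN, hmin⟩ : ∃ N, Gn x₀ g (N + 1) ⊆ Gn x₀ g N ∧ ∀ m < N, ¬ Gn x₀ g (m + 1) ⊆ Gn x₀ g m :=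
    ⟨Nat.find hex, Nat.find_spec hex, fun m hm => Nat.find_min hex hm⟩
  have hall : ∀ x ∈ Orb L A x₀, Gn x g (N + 1) ⊆ Gn x g N := by
    rintro x ⟨σ, hσ, rfl⟩
    rw [(sea (N + 1)).2.2.2.2 σ hσ x₀, (sea N).2.2.2.2 σ hσ x₀]
    exact image_mono hN
  have hall' : ∀ x ∈ Orb L A x₀, ∀ m < N, ¬ Gn x g (m + 1) ⊆ Gn x g m := by
    rintro x ⟨σ, hσ, rfl⟩ m hm h
    rw [(sea (m + 1)).2.2.2.2 σ hσ x₀, (sea m).2.2.2.2 σ hσ x₀] at h
    exact hmin m hm ((image_subset_image_iff σ.injective).1 h)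
  have hG1 : ∀ x, Gn x g 1 = g x := (sea 1).2.2.2.1
  have hseh := hSEH L U hU A x₀ g N hA hne hdf hlow hself hbd hall
  rcases Nat.lt_or_ge N 2 with hN2 | hN2
  · interval_cases N
    · -- the case `N = 0`
      have h1 := hall x₁ hx₁
      rw [show (0 : ℕ) + 1 = 1 from rfl, hG1] at h1
      have h2 : y₁ ≤ x₁ := h1 hy₁
      rw [le_antisymm h2 hxy₁]
    · -- the case `N = 1`
      have h1 := hseh x₁ hx₁ y₁ hxy₁ (by rw [hG1]; exact hy₁)
      rw [← hG1, ← hG1]
      exact h1.2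
  · exfalso
    obtain ⟨M, rfl⟩ : ∃ M, N = M + 2 := ⟨N - 2, by omega⟩
    have hx₀ : x₀ ∈ Orb L A x₀ := o1 A x₀
    have hgg : ∀ s, g s ⊆ Gn s g (M + 1) := by
      intro s
      rw [← hG1 s]
      exact (sea (M + 1)).2.2.1 s 1 (by omega)
    have hnot : ∀ x ∈ Orb L A x₀, ¬ Gn x g (M + 2) ⊆ Gn x g (M + 1) := fun x hx =>
      hall' x hx (M + 1) (by omega)
    have hstep : ∀ x, ∀ t ∈ Gn x g (M + 2), ∃ s, x ≤ s ∧ s ∈ Gn x g (M + 1) ∧ t ∈ Gn s g (M + 1) := by
      rintro x t ⟨s, hs1, hs2, hs3⟩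
      exact ⟨s, hs1, hs2, hgg s hs3⟩
    -- the set `D` and the point `y`
    have hD : (insert x₀ A).Finite := hA.insert x₀
    have hHd : (insert x₀ A).Definable₁ L (Gn x₀ g (M + 2)) :=
      df_par (sea (M + 2)).1 (subset_insert _ _) (mem_insert _ _)
    have hLh : ∀ x, Low (Gn x g (M + 2)) := fun x => ((sea (M + 2)).2.1 x).1
    have hLg : ∀ x, Low (Gn x g (M + 1)) := fun x => ((sea (M + 1)).2.1 x).1
    obtain ⟨y, hy, hyK⟩ := SEQ_sat hU.mon hD hHd ⟨x₀, ((sea (M + 2)).2.1 x₀).2⟩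
    have hIic : (insert x₀ A).Definable₁ L (Iic x₀) :=
      df_le_par' hU.ord (mem_insert x₀ A) (0 : Fin 1)
    have hIoi : (insert x₀ A).Definable₁ L (Iic x₀)ᶜ := hIic.compl
    have hIL : Low (Iic x₀) := fun s hs r hr => le_trans hr hs
    have hx₀y : x₀ < y := by
      have h1 := hyK (Iic x₀) hIic hIL (fun h => hnot x₀ hx₀ (h.trans
        ((sea (M + 1)).2.2.1 x₀ 0 (by omega))))
      exact not_le.1 h1
    have hY : ∀ u ∈ Orb L (insert x₀ A) y, x₀ < u ∧ u ∈ Gn x₀ g (M + 2) := by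
      intro u hu
      refine ⟨?_, o6 _ _ hHd y hy hu⟩
      have h1 := o6 _ _ hIoi y (not_le.2 hx₀y) hu
      exact not_le.1 h1
    have hYP : ∀ u ∈ Orb L (insert x₀ A) y, u ∈ Orb L A x₀ ∧ Gn u g (M + 2) = Gn x₀ g (M + 2) :=
      fun u hu => hseh x₀ hx₀ u (hY u hu).1.le (hY u hu).2
    have hup : ∀ w ∈ Gn x₀ g (M + 2), y ≤ w → w ∈ Orb L (insert x₀ A) y := by
      intro w hw hyw
      by_contra hcon
      have h1 : y ≠ w := by
        rintro rfl
        exact hcon (o1 _ _)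
      obtain ⟨K, hK1, hK2, hK3, hK4⟩ := hSCUT L U hU (insert x₀ A) y w hD (lt_of_le_of_ne hyw h1) hcon
      exact hyK K hK1 hK2 (fun h => hK4 (h hw)) hK3
    have hbd' : ∀ u ∈ Orb L (insert x₀ A) y, ∃ v ∈ Orb L (insert x₀ A) y, v ∉ Gn u g (M + 1) := by
      intro u hu
      obtain ⟨v, hv, hv'⟩ := not_subset.1 (hnot u (hYP u hu).1)
      rw [(hYP u hu).2] at hv
      refine ⟨max v y, hup _ ?_ (le_max_right _ _), fun h => hv' (hLg u _ h v (le_max_left _ _))⟩
      rcases max_choice v y with h | h <;> rw [h] <;> assumption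
    have hYne : Orb L (insert x₀ A) y ≠ {y} := by
      intro h
      obtain ⟨v, hv, hv'⟩ := hbd' y (o1 _ _)
      rw [h] at hv
      rw [mem_singleton_iff.1 hv] at hv'
      exact hv' ((sea (M + 1)).2.1 y).2
    have hfar : ∀ u ∈ Orb L (insert x₀ A) y, ∀ v, Far L (insert x₀ A) u v → v ∉ Gn u g (M + 1) := by
      intro u hu v huv
      exact (hSEB L U hU (insert x₀ A) y hD hYne).1 u hu (Gn u g (M + 1))
        (df_par (sea (M + 1)).1 ((subset_insert _ _).trans (subset_insert _ _)) (mem_insert _ _))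
        (hLg u) (hbd' u hu) v huv
    obtain ⟨f1, f2, f3, -⟩ := hFAR L U hU (insert x₀ A) y hD hYne
    -- the sequence
    have hnext : ∀ u : Orb L (insert x₀ A) y, ∃ v : Orb L (insert x₀ A) y,
        Far L (insert x₀ A) v.1 u.1 := by
      rintro ⟨u, hu⟩
      obtain ⟨v, hv⟩ := (hGEX L U hU (insert x₀ A) (insert u (insert x₀ A)) u false
        (subset_insert _ _) (hD.insert u)).1
      have h1 := hFFR L U hU (insert x₀ A) u v false hD hv
      refine ⟨⟨v, ?_⟩, h1⟩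
      rw [← o2 _ _ _ hu]
      exact hv.1
    choose F hF using hnext
    let zz : ℕ → Orb L (insert x₀ A) y := fun n => Nat.rec (motive := fun _ => Orb L (insert x₀ A) y)
      ⟨y, o1 _ _⟩ (fun _ c => F c) n
    let z : ℕ → U := fun n => (zz n).1
    have hzY : ∀ i, z i ∈ Orb L (insert x₀ A) y := fun i => (zz i).2
    have hz0 : z 0 = y := rfl
    have hzF : ∀ i, Far L (insert x₀ A) (z (i + 1)) (z i) := fun i => hF (zz i)
    have hzlt : ∀ i, z (i + 1) < z i := fun i =>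
      f1 (z (i + 1)) (hzY (i + 1)) (z i) (hzY i) (hzF i)
    have hzle : ∀ i, z (i + 1) ≤ z 1 := by
      intro i
      induction i with
      | zero => exact le_rfl
      | succ i ih => exact (hzlt (i + 1)).le.trans ih
    have hzy : ∀ i, Far L (insert x₀ A) (z (i + 1)) y := by
      intro i
      exact f3 (z (i + 1)) (hzY (i + 1)) (z 1) (hzY 1) (z 0) (hzY 0) (hzle i) (hzF 0)
    have hty : ∀ i, ∃ t, z (i + 1) ≤ t ∧ t < z i ∧ y ∈ Gn t g (M + 1) := by
      intro i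
      obtain ⟨t, ht1, ht2, ht3⟩ := hstep (z (i + 1)) y (by
        rw [(hYP _ (hzY (i + 1))).2]
        exact hy)
      refine ⟨t, ht1, ?_, ht3⟩
      by_contra hcon
      exact hfar _ (hzY (i + 1)) _ (hzF i) (hLg _ t ht2 _ (not_lt.1 hcon))
    have hdfb := SEQ_fib (sea (M + 1)).1 y
    rcases thm_nEVD L U hU {u | ∃ i, z i ≤ u} {t | y ∈ Gn t g (M + 1)} false ⟨z 0, 0, le_rfl⟩ hdfb with
      ⟨w, ⟨i, hiw⟩, hw⟩ | ⟨w, ⟨i, hiw⟩, hw⟩
    · have h1 := hw (z (i + 1)) ⟨i + 1, le_rfl⟩ ((hzlt i).le.trans hiw)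
      exact hfar _ (hzY (i + 1)) _ (hzy i) h1
    · obtain ⟨t, ht1, ht2, ht3⟩ := hty i
      exact hw t ⟨i + 1, ht1⟩ (ht2.le.trans hiw) ht3

end Pool.Agent.WOM
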