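import Pool.Agent.WOM.StS
import Pool.Agent.WOM.SDF
import Pool.Agent.WOM.nEVD

/-!
WOM [SEV]: eventual truth along a shift (helper35).
-/

set_option autoImplicit false
set_option linter.unusedVariables false

namespace Pool.Agent.WOM

open FirstOrder.Language Set
open scoped FirstOrder

/-- [SEV] -/
theorem thm_SEV (hSBAS : St_SBAS) : St_SEV := by
  intro L U _ _ hW C a g hS B hB
  obtain ⟨⟨hlow, hmon⟩, -, -, hcof, -⟩ := hSBAS L U hW C a g hS
  have h1 : ∀ D : Set U, B.Definable₁ L D →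
      Ev a g (fun x => x ∈ D) ∨ Ev a g (fun x => x ∉ D) := by
    intro D hD
    have hD' : (univ : Set U).Definable₁ L D := Definable.mono hD (subset_univ _)
    have key : ∀ w : U, EE a g w → ∀ P : U → Prop,
        (∀ u, EE a g u → w ≤ u → P u) → Ev a g P := by
      rintro w ⟨haw, m, hm⟩ P hP
      refine ⟨m, fun x hx hxm => hP x hx ?_⟩
      by_contra hcon
      exact hxm ((hlow m).1 w hm x (not_le.mp hcon).le)
    rcases thm_nEVD L U hW {x | EE a g x} D true ⟨a, le_refl a, 0, le_refl a⟩ hD' with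
      ⟨w, hw, h⟩ | ⟨w, hw, h⟩
    · left
      exact key w hw _ (fun u hu hwu => h u hu hwu)
    · right
      exact key w hw _ (fun u hu hwu => h u hu hwu)
  refine ⟨h1, ?_, ?_, ?_, ?_⟩
  · rintro P ⟨m, hm⟩ ⟨n, hn⟩
    obtain ⟨x, hx, hxm⟩ := hcof (max m n)
    exact hn x hx (fun h => hxm (hmon n _ (le_max_right m n) h))
      (hm x hx (fun h => hxm (hmon m _ (le_max_left m n) h)))
  · intro u v hu hv
    exact h1 {x | u x ⊆ v x} ((thm_SDF L U hW.ord).2.2.2.1 B u v hu hv)
  · rintro P Q ⟨m, hm⟩ ⟨n, hn⟩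
    refine ⟨max m n, fun x hx hxm => ⟨?_, ?_⟩⟩
    · exact hm x hx (fun h => hxm (hmon m _ (le_max_left m n) h))
    · exact hn x hx (fun h => hxm (hmon n _ (le_max_right m n) h))
  · rintro P Q hPQ ⟨m, hm⟩
    exact ⟨m, fun x hx hxm => hPQ x (hm x hx hxm)⟩

end Pool.Agent.WOM
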