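import Pool.Agent.WOM.SDF

/-!
WOM, shift theorem: right extensions (proof by helper89 of the statement `St_SEXR` of helper41).
-/

set_option autoImplicit false
set_option linter.unusedVariables false

namespace Pool.Agent.WOM

open FirstOrder.Language Set
open scoped FirstOrder

theorem thm_SEXR (hSBAS : St_SBAS) (hSEXT : St_SEXT) : St_SEXR := by
  intro L U _ _ hW C a g hg B hBf hCB
  obtain ⟨⟨b1, b1'⟩, b2, b3, b4, b5, b5', b6, b7, b8⟩ := hSBAS L U hW C a g hg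
  obtain ⟨e1, e2, e3, e4, -⟩ := hSEXT L U hW C a g hg B hBf hCB
  -- an element of `E` outside of a bounded set
  have out : ∀ K : Set U, Bd a g K → ∃ z, EE a g z ∧ z ∉ K := by
    rintro K ⟨n, hn⟩
    obtain ⟨z, hz, hz'⟩ := b4 n
    exact ⟨z, hz, fun h => hz' (hn h)⟩
  have lowc : ∀ K : Set U, Low K → ∀ y ∈ K, ∀ z, z ∉ K → y < z := by
    intro K hK y hy z hz
    by_contra hlt
    exact hz (hK y hy z (not_lt.1 hlt))
  refine ⟨?_, ?_, ?_, ?_, ?_, ?_⟩
  · intro u K hu hK ha hb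
    refine ⟨?_, ?_, ?_⟩
    · intro t ht s hs z hz hzK
      exact hu.low z t (ht z hz hzK) s hs
    · intro t ht z hz hzK
      exact hu.low z z (hu.self z) t (lowc K hK t ht z hzK).le
    · obtain ⟨z, hz, hzK⟩ := out K hb
      obtain ⟨n, hn⟩ := hu.bd z hz
      exact ⟨n, fun t ht => hn (ht z hz hzK)⟩
  · intro u K K' hKK t ht z hz hzK
    exact ht z hz fun h => hzK (hKK h)
  · intro u K hu hK ha hb
    obtain ⟨hne, n, hn⟩ := b3 K hK ha hb
    ext t
    constructor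
    · intro ht z hz hzg hzK
      exact ht z ⟨hz, n, hn hzg⟩ hzK
    · intro ht z0 hz0 hzK
      by_cases h0 : z0 ∈ ext a g K
      · exact ht z0 hz0.1 h0 hzK
      · obtain ⟨z1, hz1, hz1K⟩ := Set.not_subset.1 hne
        have ha1 : a ≤ z1 := (lowc K hK a ha z1 hz1K).le
        have hlt : z1 ≤ z0 := (lowc (ext a g K) (e1 g hg.low K) z1 hz1 z0 h0).le
        exact hu.mono z1 z0 ⟨ha1, n, hn hz1⟩ hz0 hlt (ht z1 ha1 hz1 hz1K)
  · intro u K y hy hyK t ht
    exact ht y hy hyK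
  · intro u hu hSp
    obtain ⟨m, hm⟩ := hSp
    refine ⟨m, fun K hK hmK hb => ?_⟩
    obtain ⟨z, hz, hzK⟩ := Set.not_subset.1 (hm K hK hmK hb)
    have haK : a ∈ K := hmK (b1 m).2
    have ha1 : a ≤ z := (lowc K hK a haK z hzK).le
    obtain ⟨n, hn⟩ := e3 u hu K hK hb
    intro t ht
    exact ⟨z, ha1, hz, ht z ⟨ha1, n, hn hz⟩ hzK⟩
  · intro u K hu hK ha hb
    obtain ⟨n, hn⟩ := hb
    rintro t ⟨y, hay, hyK, hty⟩ z hz hzK
    exact hu.mono y z ⟨hay, n, hn hyK⟩ hz (lowc K hK y hyK z hzK).le hty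

end Pool.Agent.WOM
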