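import Pool.Agent.WOM.SDF

/-!
WOM: proof of `St_SEXT` (left extensions), helper21.
-/

set_option autoImplicit false
set_option linter.unusedVariables false

namespace Pool.Agent.WOM

open FirstOrder.Language Set
open scoped FirstOrder

section

variable {U : Type} [LinearOrder U]

theorem SEXT_low {a : U} {u : U → Set U} (hu : ∀ x, Low (u x)) (K : Set U) : Low (ext a u K) := by
  rintro t ⟨y, h1, h2, h3⟩ s hs
  exact ⟨y, h1, h2, hu y t h3 s hs⟩

theorem SEXT_mono {a : U} {u : U → Set U} {K K' : Set U} (h : K ⊆ K') :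
    ext a u K ⊆ ext a u K' := by
  rintro t ⟨y, h1, h2, h3⟩
  exact ⟨y, h1, h h2, h3⟩

theorem SEXT_itr_succ (a : U) (u : U → Set U) (k : ℕ) (K : Set U) :
    itr a u (k + 1) K = ext a u (itr a u k K) := by
  unfold itr
  rw [Function.iterate_succ_apply']

theorem SEXT_itr_mono {a : U} {u : U → Set U} {K K' : Set U} (k : ℕ) (h : K ⊆ K') :
    itr a u k K ⊆ itr a u k K' := by
  induction k with
  | zero => exact h
  | succ k ih =>
    rw [SEXT_itr_succ, SEXT_itr_succ]
    exact SEXT_mono ih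

theorem SEXT_itr_low {a : U} {u : U → Set U} (hu : ∀ x, Low (u x)) {K : Set U} (hK : Low K)
    (k : ℕ) : Low (itr a u k K) := by
  cases k with
  | zero => exact hK
  | succ k =>
    rw [SEXT_itr_succ]
    exact SEXT_low hu _

theorem SEXT_Iic (x : U) : Low (Iic x) := fun y hy z hz => le_trans hz hy

theorem SEXT_sub {a : U} {u : U → Set U} (hl : ∀ x, Low (u x)) (hs : ∀ x, x ∈ u x) {K : Set U}
    (ha : a ∈ K) : K ⊆ ext a u K := by
  intro y hy
  rcases le_total a y with h | h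
  · exact ⟨y, h, hy, hs y⟩
  · exact ⟨a, le_rfl, ha, hl a a (hs a) y h⟩

end

theorem thm_SEXT (hSBAS : St_SBAS) : St_SEXT := by
  intro L U _ _ hW C a g hS B hB hCB
  obtain ⟨hG, -, -, hG4, -, -, -, -, -⟩ := hSBAS L U hW C a g hS
  obtain ⟨-, hD2, hD3, -, hD5, -, -, -⟩ := thm_SDF L U hW.ord
  have haB : a ∈ B := hCB hS.aC
  have hGl : ∀ n, Low (Gn a g n) := fun n => (hG.1 n).1
  -- bounded extensions
  have h3 : ∀ u : U → Set U, MB L a g B u → ∀ K, Low K → Bd a g K → Bd a g (ext a u K) := by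
    intro u hu K hK hb
    obtain ⟨n, hn⟩ := hb
    obtain ⟨z, hz, hzn⟩ := hG4 n
    obtain ⟨m, hm⟩ := hu.bd z hz
    refine ⟨m, ?_⟩
    rintro t ⟨y, hy1, hy2, hy3⟩
    have hy : EE a g y := ⟨hy1, n, hn hy2⟩
    have hyz : y ≤ z := by
      by_contra hcon
      exact hzn (hGl n y (hn hy2) z (le_of_lt (lt_of_not_ge hcon)))
    exact hm (hu.mono y z hy hz hyz hy3)
  have hEle : ∀ x y, EE a g x → a ≤ y → y ≤ x → EE a g y := by
    rintro x y ⟨h1, n, h2⟩ h h'
    exact ⟨h, n, hGl n x h2 y h'⟩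
  have hbI : ∀ x, EE a g x → Bd a g (Iic x) := by
    rintro x ⟨h1, n, h2⟩
    exact ⟨n, fun y hy => hGl n x h2 y hy⟩
  have hbU : ∀ K K' : Set U, Bd a g K → Bd a g K' → Bd a g (K ∪ K') := by
    rintro K K' ⟨n, hn⟩ ⟨m, hm⟩
    refine ⟨max n m, union_subset ?_ ?_⟩
    · exact hn.trans (hG.2 n _ (le_max_left n m))
    · exact hm.trans (hG.2 m _ (le_max_right n m))
  have hlU : ∀ K K' : Set U, Low K → Low K' → Low (K ∪ K') := by
    rintro K K' h h' x (hx | hx) y hy
    · exact Or.inl (h x hx y hy)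
    · exact Or.inr (h' x hx y hy)
  have hitb : ∀ (u : U → Set U) (k : ℕ) (K : Set U), MB L a g B u → Low K → Bd a g K →
      Bd a g (itr a u k K) := by
    intro u k K hu hK hb
    induction k with
    | zero => exact hb
    | succ k ih =>
      rw [SEXT_itr_succ]
      exact h3 u hu _ (SEXT_itr_low hu.low hK k) ih
  have hit : ∀ (u : U → Set U) (k : ℕ) (K : Set U), MB L a g B u → a ∈ K →
      a ∈ itr a u k K ∧ K ⊆ itr a u k K := by
    intro u k K hu ha
    induction k with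
    | zero => exact ⟨ha, Subset.rfl⟩
    | succ k ih =>
      rw [SEXT_itr_succ]
      have h := SEXT_sub hu.low hu.self ih.1
      exact ⟨h ih.1, ih.2.trans h⟩
  refine ⟨fun u hu K => SEXT_low hu K, fun u hu K _ ha => SEXT_sub hu.low hu.self ha, h3, ?_, ?_,
    ?_, ?_, ?_, fun u K K' k h => SEXT_itr_mono k h, ?_, ?_⟩
  · -- 4
    intro u hu x hx
    apply Subset.antisymm
    · rintro t ⟨y, hy1, hy2, hy3⟩
      exact hu.mono y x (hEle x y hx hy1 hy2) hx hy2 hy3
    · intro t ht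
      exact ⟨x, hx.1, le_rfl, ht⟩
  · -- 5
    intro u v hu hv
    refine ⟨?_, ?_, ?_, ?_, ?_⟩
    · exact (hD3 B _ _ (hD2 B a u v haB hu.df hv.df) (hD3 B u v hu.df hv.df).2.2).1
    · intro x
      exact hlU _ _ (SEXT_low hu.low _) (SEXT_Iic x)
    · intro x
      exact Or.inr le_rfl
    · intro x y hx hy hxy
      exact union_subset_union (SEXT_mono (hv.mono x y hx hy hxy)) (Iic_subset_Iic.2 hxy)
    · intro x hx
      exact hbU _ _ (h3 u hu _ (hv.low x) (hv.bd x hx)) (hbI x hx)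
  · -- 6
    intro u v hu hv
    refine ⟨?_, ?_, ?_, ?_, ?_⟩
    · exact (hD3 B u v hu.df hv.df).1
    · intro x
      exact hlU _ _ (hu.low x) (hv.low x)
    · intro x
      exact Or.inl (hu.self x)
    · intro x y hx hy hxy
      exact union_subset_union (hu.mono x y hx hy hxy) (hv.mono x y hx hy hxy)
    · intro x hx
      exact hbU _ _ (hu.bd x hx) (hv.bd x hx)
  · -- 7
    intro u k hu
    refine ⟨?_, ?_, ?_, ?_, ?_⟩
    · exact (hD3 B _ _ (hD5 B a u haB hu.df k).1 (hD3 B u u hu.df hu.df).2.2).1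
    · intro x
      exact hlU _ _ (SEXT_itr_low hu.low (SEXT_Iic x) k) (SEXT_Iic x)
    · intro x
      exact Or.inr le_rfl
    · intro x y hx hy hxy
      exact union_subset_union (SEXT_itr_mono k (Iic_subset_Iic.2 hxy)) (Iic_subset_Iic.2 hxy)
    · intro x hx
      exact hbU _ _ (hitb u k _ hu (SEXT_Iic x) (hbI x hx)) (hbI x hx)
  · -- 8
    intro u K
    apply Subset.antisymm
    · rintro t ⟨y, hy1, hy2, hy3⟩
      obtain ⟨i, hi⟩ := mem_iUnion.1 hy2
      exact mem_iUnion.2 ⟨i, y, hy1, hi, hy3⟩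
    · intro t ht
      obtain ⟨i, y, hy1, hy2, hy3⟩ := mem_iUnion.1 ht
      exact ⟨y, hy1, mem_iUnion.2 ⟨i, hy2⟩, hy3⟩
  · -- 10
    intro u k x hu hx
    exact (hit u k (Iic x) hu hx).2
  · -- 11
    intro u k K hu hK ha hb
    refine ⟨SEXT_itr_low hu.low hK k, (hit u k K hu ha).1, hitb u k K hu hK hb,
      (hit u k K hu ha).2, ?_⟩
    intro j hj
    induction k, hj using Nat.le_induction with
    | base => exact Subset.rfl
    | succ k _ ih =>
      rw [SEXT_itr_succ]
      exact ih.trans (SEXT_sub hu.low hu.self (hit u k K hu ha).1)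

end Pool.Agent.WOM
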