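import Pool.Agent.WOM.StS3

/-!
WOM (helper41): EQ.  In a weakly o-minimal theory without shifts the bounded definable cut functions
on a complete type are constant on the classes `[x, g x)`.  Statements with proofs in the docstrings.
`P` = an orbit over the finite set `A`; it is convex without endpoints (nCNV) if it is not a
singleton.  BOUNDED IN `P` = does not contain `P` (for `Low` sets).  `Gn x g n` is the iterate of `g`
with the STARTING POINT `x`; `fun x => Gn x g n` is again an `A`-definable cut function.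
-/

set_option autoImplicit false
set_option linter.unusedVariables false

namespace Pool.Agent.WOM

open FirstOrder.Language Set
open scoped FirstOrder

/-- [SEA] iterates with a variable starting point.  PROOF.  1: induction: `Gn x g 0 = Iic x`,
`Gn x g (n+1) = {t | ∃ s, x ≤ s ∧ s ∈ Gn x g n ∧ t ∈ g s}` (toolkit `Dx`; `n+1`: quantifier over `s`).  2, 3: induction
(`g s ∋ s`, `Low`).  4: `Gn x g 1 = {t | ∃ s, x ≤ s ∧ s ≤ x ∧ t ∈ g s}`.  5: induction with SFX 1 and the monotony of the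
automorphisms (nCNV). -/
def St_SEA : Prop :=
  ∀ (L : FirstOrder.Language.{0, 0}) (U : Type) [L.Structure U] [LinearOrder U], Wn L U →
    ∀ (A : Set U) (g : U → Set U), A.Finite → DF L A g → (∀ x, Low (g x)) → (∀ x, x ∈ g x) → ∀ n : ℕ,
      DF L A (fun x => Gn x g n) ∧ (∀ x, Low (Gn x g n) ∧ x ∈ Gn x g n) ∧
      (∀ x m, m ≤ n → Gn x g m ⊆ Gn x g n) ∧ (∀ x, Gn x g 1 = g x) ∧
      ∀ σ : U ≃[L] U, Fx L A σ → ∀ x, Gn (σ x) g n = σ '' Gn x g n

/-- [SEB] bounded cuts.  PROOF.  1: `z ∈ Ge L A x true (insert x A)`, so `Orb (insert x A) z` is unbounded in `P`; if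
`z ∈ K` then this orbit is in `K` (ORB 6), so `P ⊆ K` (`Low`): contradiction.  2: let `w ∈ P`, `w ∉ K`, and `z ∈ P` with
`Far A w z` (nFAR 8 / nGEX).  If `x ≤ t ∈ K` then `t < w`, `t ∈ P` (convex), `Far A t z` (nFAR 3), so `z ∉ g t` by 1 (for `t`; `g t` is definable
over `insert t A`).  So `z ∉ ext x g K`.  3: induction with 2 and SEA. -/
def St_SEB : Prop :=
  ∀ (L : FirstOrder.Language.{0, 0}) (U : Type) [L.Structure U] [LinearOrder U], Wn L U →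
    ∀ (A : Set U) (x₀ : U), A.Finite → Orb L A x₀ ≠ {x₀} →
      (∀ x ∈ Orb L A x₀, ∀ K : Set U, (insert x A).Definable₁ L K → Low K →
        (∃ y ∈ Orb L A x₀, y ∉ K) → ∀ z, Far L A x z → z ∉ K) ∧
      (∀ g : U → Set U, DF L A g → (∀ x, Low (g x)) → (∀ x, x ∈ g x) →
        (∀ x ∈ Orb L A x₀, ∃ y ∈ Orb L A x₀, y ∉ g x) →
        (∀ x ∈ Orb L A x₀, ∀ K : Set U, Low K → (∃ y ∈ Orb L A x₀, y ∉ K) →
          ∃ y ∈ Orb L A x₀, y ∉ ext x g K) ∧
        ∀ (n : ℕ), ∀ x ∈ Orb L A x₀, ∃ y ∈ Orb L A x₀, y ∉ Gn x g n)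

/-- [SEH] EQ for a closed iterate.  `P = Orb L A x₀`, `h x = Gn x g N` (all properties: SEA; bounded in `P`: SEB).  PROOF.
(a) if `x ∈ P`, `x ≤ y ∈ h x` then `y ∈ P` (bounded, convex), `h y ⊆ h x`: by induction `Gn y g k ⊆ h x`: `k = 0`: `Low`; step: if `y ≤ s`,
`s ∈ Gn y g k ⊆ h x`, then `g s ⊆ ext x g (h x) = Gn x g (N+1) ⊆ h x`.  (b) For `y ∈ P` let `S y = {x ∈ P | x ≤ y ∧ y ∈ h x}`.  Take
`p₀ ∈ Ge L A y false (insert y A)` (nGEX); `Far A p₀ y` (nFFR), so `Far A x y`, `y ∉ h x` for all `x ∈ P`, `x ≤ p₀` (nFAR 3, SEB 1).  So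
`S y = {x | p₀ ≤ x ∧ x ≤ y ∧ y ∈ h x}` is definable (with the parameters `A, y, p₀`).  (c) nEVD for `Y = {u ∈ P | ∃ v ∈ S y, v ≤ u}`, `s = S y`,
side `false`: the second alternative is impossible (`w ∈ Y`, `v ∈ S y`, `v ≤ w`, `v ∈ Y`), so there is `z ∈ Y` with `u ∈ S y` for all
`u ∈ Y`, `u ≤ z`; `z ∈ S y`.  Claim (*) for `z`: if `v ∈ S z`, `v ≤ u ≤ z` then `u ∈ S z`.  Proof: `z ∈ h v`, so `h z ⊆ h v` by (a); `y ∈ h z`, so
`y ∈ h v`, `v ∈ S y`; so `u ∈ Y`, `u ∈ S y`, `y ∈ h u`, `z ≤ y`: `z ∈ h u`.  (d) by conjugation (SEA 5) (*) holds for all `z ∈ P`.  (e) Let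
`x ∈ P`, `x ≤ y ∈ h x`, `t ∈ h x`.  If `t ≤ y` then `t ∈ h y`; if `y < t` then `t ∈ P` (bounded), `x ∈ S t`, so `y ∈ S t` by (*), `t ∈ h y`.  With (a):
`h y = h x`. -/
def St_SEH : Prop :=
  ∀ (L : FirstOrder.Language.{0, 0}) (U : Type) [L.Structure U] [LinearOrder U], Wn L U →
    ∀ (A : Set U) (x₀ : U) (g : U → Set U) (N : ℕ), A.Finite → Orb L A x₀ ≠ {x₀} → DF L A g →
      (∀ x, Low (g x)) → (∀ x, x ∈ g x) → (∀ x ∈ Orb L A x₀, ∃ y ∈ Orb L A x₀, y ∉ g x) →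
      (∀ x ∈ Orb L A x₀, Gn x g (N + 1) ⊆ Gn x g N) →
      ∀ x ∈ Orb L A x₀, ∀ y, x ≤ y → y ∈ Gn x g N → y ∈ Orb L A x₀ ∧ Gn y g N = Gn x g N

/-- [SEQ] EQ.  PROOF.  `NSh` for one `x` and conjugation (SEA 5): let `N` be the least number such that
`Gn x g (N+1) ⊆ Gn x g N` for one (hence all) `x ∈ P`.  `N = 0`: `g x = Gn x g 1 ⊆ Iic x`, so `y = x`.  `N = 1`: SEH (`Gn x g 1 = g x`).
Let `N ≥ 2`, `g' x = Gn x g (N-1)`, `h x = Gn x g N`.  `¬ h x ⊆ g' x` for all `x ∈ P` (minimality).  (i) for `x ∈ P` and `t ∈ h x` there is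
`s` with `x ≤ s`, `s ∈ g' x`, `t ∈ g' s` (`h x = ext x g (g' x)`, `g s = Gn s g 1 ⊆ g' s`).  (ii) Fix `x₀ ∈ P`, `D = insert x₀ A`.  Saturation: there is `y ∈ h x₀`
which is in no `D`-definable `Low` set `K` with `¬ h x₀ ⊆ K` (finitely many such `K` are contained in the largest one).
`Y = Orb D y`.  `x₀ < y` (`K = Iic x₀ ⊆ g' x₀`).  For `u ∈ Y`: `x₀ < u ∈ h x₀` (ORB 6), so `u ∈ P`, `h u = h x₀` (SEH).  If `y ≤ w ∈ h x₀` then `w ∈ Y`
(otherwise SCUT: `K` `D`-definable, `Low`, `y ∈ K`, `w ∉ K`: contradiction to the choice of `y`).  For `u ∈ Y` there is `v ∈ Y`, `v ∉ g' u` (take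
`v' ∈ h u \ g' u`, `v = max v' y`).  So `Y ≠ {y}`, and `g'` is `D`-definable and bounded on `Y = Orb D y`: by SEB 1 (for `D`, `Y`): if `Far D u v`,
`u ∈ Y`, then `v ∉ g' u`.  (iii) `z_0 = y`, `z_(i+1) ∈ Ge L D y false (insert z_i D)` (nGEX): `Far D z_(i+1) z_i` (nFFR), the sequence is
decreasing in `Y`.  For `i ≥ 1`: `y ∉ g' z_i`, and by (i) (`y ∈ h z_i`) there is `t_i ≥ z_i`, `t_i ∈ g' z_i`, `y ∈ g' t_i`; `t_i < z_(i-1)` since
`z_(i-1) ∉ g' z_i`.  So the definable set `{t | y ∈ g' t}` contains all `t_i` and no `z_i`, `i ≥ 1`, `z_i ≤ t_i < z_(i-1)`: contradiction to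
nEVD (`Y = {u | ∃ i, z_i ≤ u}`, side `false`). -/
def St_SEQ : Prop :=
  ∀ (L : FirstOrder.Language.{0, 0}) (U : Type) [L.Structure U] [LinearOrder U], Wn L U →
    NSh L U → ∀ (A : Set U) (x₀ : U) (g : U → Set U), A.Finite → Orb L A x₀ ≠ {x₀} → DF L A g →
      (∀ x, Low (g x)) → (∀ x, x ∈ g x) → (∀ x ∈ Orb L A x₀, ∃ y ∈ Orb L A x₀, y ∉ g x) →
      ∀ x ∈ Orb L A x₀, ∀ y, x ≤ y → y ∈ g x → g y = g x

/-! ### The reversed order -/

/-- the reversed order on `U` -/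
abbrev dO (U : Type) [LinearOrder U] : LinearOrder U := OrderDual.instLinearOrder U

/-- initial segments for the order `leS s` -/
def LowS {U : Type} [LinearOrder U] (s : Bool) (K : Set U) : Prop := ∀ x ∈ K, ∀ y, leS s y x → y ∈ K

/-- [SDL] the reversed order.  PROOF.  `ord`: `{v | v 1 < v 0}` is definable (permute the variables).  `fin`: the same convex
sets.  The rest: unfold (`simp [leS]`, cases on `t`). -/
def St_SDL : Prop :=
  ∀ (L : FirstOrder.Language.{0, 0}) (U : Type) [L.Structure U] [LinearOrder U], Wn L U →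
    @Wn L U _ (dO U) ∧ (∀ (t : Bool) (x y : U), @leS U (dO U) t x y ↔ leS (!t) x y) ∧
    (∀ (t : Bool) (X Y : Set U), @Sd U (dO U) t X Y ↔ Sd (!t) X Y) ∧
    (∀ (A : Set U) (x : U) (t : Bool) (B : Set U), @Ge L U _ (dO U) A x t B = Ge L A x (!t) B) ∧
    (∀ K : Set U, @Low U (dO U) K ↔ LowS false K)

/-- [SEZ] EQ for both orders.  PROOF.  `s = true`: SNS, SEQ.  `s = false`: SDL, and SNS, SEQ for the order `dO U` (`ScU`,
`Orb`, `DF` do not depend on the order). -/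
def St_SEZ : Prop :=
  ∀ (L : FirstOrder.Language.{0, 0}) [∀ n, IsEmpty (L.Functions n)] (U : Type)
    [S : L.Structure U] [LinearOrder U], Wn L U → ScU L S →
    ∀ (s : Bool) (A : Set U) (x₀ : U) (g : U → Set U), A.Finite → Orb L A x₀ ≠ {x₀} → DF L A g →
      (∀ x, LowS s (g x)) → (∀ x, x ∈ g x) → (∀ x ∈ Orb L A x₀, ∃ y ∈ Orb L A x₀, y ∉ g x) →
      ∀ x ∈ Orb L A x₀, ∀ y, leS s x y → y ∈ g x → g y = g x

end Pool.Agent.WOM
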