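import Mathlib
import Pool.Agent.WOM.StS4

/-! WOM: [SEZ] EQ for both orders (helper25) -/

set_option autoImplicit false
set_option linter.unusedVariables false

namespace Pool.Agent.WOM

open FirstOrder.Language Set
open scoped FirstOrder

/-- [SEZ] -/
theorem thm_SEZ (hSNS : St_SNS) (hSEQ : St_SEQ) (hSDL : St_SDL) : St_SEZ := by
  intro L _ U S _ hW hS s A x₀ g hA hO hg hlow hmem hb x hx y hxy hy
  cases s with
  | true =>
    exact hSEQ L U hW (hSNS L U hW hS) A x₀ g hA hO hg
      (fun z t ht w hw => hlow z t ht w (by simpa [leS] using hw)) hmem hb x hx y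
      (by simpa [leS] using hxy) hy
  | false =>
    obtain ⟨h1, -, -, -, h5⟩ := hSDL L U hW
    have h2 := @hSNS L _ U S (dO U) h1 hS
    have h3 : y ≤ x := by simpa [leS] using hxy
    exact @hSEQ L U S (dO U) h1 h2 A x₀ g hA hO hg (fun z => (h5 (g z)).2 (hlow z)) hmem hb x hx y h3 hy

end Pool.Agent.WOM
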