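import Pool.Agent.WOM.StS3
import Pool.Agent.WOM.SDF

/-!
WOM: proof of `St_SFR`, the far relation (helper87).
-/

set_option autoImplicit false
set_option linter.unusedVariables false

namespace Pool.Agent.WOM

open FirstOrder.Language Set
open scoped FirstOrder

section

variable {U : Type} [LinearOrder U]

private theorem sfr_ext_mono (a : U) (g : U → Set U) : Monotone (ext a g) := by
  rintro K K' hK t ⟨y, h1, h2, h3⟩
  exact ⟨y, h1, hK h2, h3⟩

private theorem sfr_itr_mono (a : U) (g : U → Set U) (n : ℕ) {K K' : Set U} (h : K ⊆ K') :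
    itr a g n K ⊆ itr a g n K' :=
  (sfr_ext_mono a g).iterate n h

private theorem sfr_itr_low {a : U} {g : U → Set U} (hg : ∀ x, Low (g x)) (n : ℕ) (x : U) :
    Low (itr a g n (Iic x)) := by
  cases n with
  | zero =>
    intro y hy z hz
    exact le_trans hz hy
  | succ n =>
    have h1 : itr a g (n + 1) (Iic x) = ext a g (itr a g n (Iic x)) :=
      Function.iterate_succ_apply' _ _ _
    rw [h1]
    rintro y ⟨w, h2, h3, h4⟩ z hz
    exact ⟨w, h2, h3, hg w y h4 z hz⟩

private theorem sfr_itr_add (a : U) (g : U → Set U) (m n : ℕ) (K : Set U) :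
    itr a g (m + n) K = itr a g m (itr a g n K) :=
  Function.iterate_add_apply _ _ _ _

end

theorem thm_SFR (hSFX : St_SFX) : St_SFR := by
  intro L U _ _ hW C a g hS
  have h1 : ∀ x z x' z', Fr a g x z → x' ≤ x → z ≤ z' → Fr a g x' z' := by
    rintro x z x' z' ⟨h2, h3⟩ hx hz
    refine ⟨lt_of_le_of_lt hx (lt_of_lt_of_le h2 hz), fun n hn => h3 n ?_⟩
    have h4 : z' ∈ itr a g n (Iic x) := sfr_itr_mono a g n (Iic_subset_Iic.mpr hx) hn
    exact sfr_itr_low hS.low n x z' h4 z hz
  have h2 : ∀ x y z n, Fr a g x z → y ∈ itr a g n (Iic x) → Fr a g y z := by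
    rintro x y z n ⟨h3, h4⟩ hy
    have h5 : Iic y ⊆ itr a g n (Iic x) := fun t ht => sfr_itr_low hS.low n x y hy t ht
    refine ⟨?_, fun m hm => h4 (m + n) ?_⟩
    · by_contra h6
      exact h4 n (h5 (not_lt.mp h6))
    · rw [sfr_itr_add]
      exact sfr_itr_mono a g m h5 hm
  have hn : ∀ x y, x < y → ¬ Fr a g x y → ∃ n, y ∈ itr a g n (Iic x) := by
    intro x y hxy h
    by_contra h3
    push Not at h3
    exact h ⟨hxy, h3⟩
  refine ⟨h1, h2, ?_, ?_, ?_⟩
  · intro x y z hxy hyz
    exact h1 y z x z hyz hxy.1.le le_rfl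
  · intro x y z hxy hyx
    constructor
    · intro hyz
      rcases le_or_gt x y with h | h
      · exact h1 y z x z hyz h le_rfl
      · obtain ⟨n, h3⟩ := hn y x h hyx
        exact h2 y x z n hyz h3
    · intro hzy
      rcases le_or_gt y x with h | h
      · exact h1 z y z x hzy le_rfl h
      · by_contra h3
        rcases le_or_gt x z with h4 | h4
        · exact hxy (h1 z y x y hzy h4 le_rfl)
        · obtain ⟨n, h5⟩ := hn z x h4 h3
          exact hxy (h2 z x y n hzy h5)
  · intro σ hσ x z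
    have hX := (hSFX L U hW.mon).1
    have h3 : ∀ n x, itr a g n (Iic (σ x)) = σ '' itr a g n (Iic x) := fun n x =>
      hX C (fun x => itr a g n (Iic x)) σ (df_itr hW.ord hS.aC hS.df n) hσ x
    have h4 : ∀ n (x z : U), σ z ∈ itr a g n (Iic (σ x)) ↔ z ∈ itr a g n (Iic x) := by
      intro n x z
      rw [h3]
      constructor
      · rintro ⟨t, ht, h5⟩
        rwa [← σ.injective h5]
      · intro h5
        exact ⟨z, h5, rfl⟩
    have h5 : σ x < σ z ↔ x < z := by
      have h6 := h4 0 x z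
      have h7 : σ z ≤ σ x ↔ z ≤ x := h6
      rw [← not_le, ← not_le, h7]
    unfold Fr
    rw [h5]
    constructor
    · rintro ⟨h6, h7⟩
      exact ⟨h6, fun n hn => h7 n ((h4 n x z).mpr hn)⟩
    · rintro ⟨h6, h7⟩
      exact ⟨h6, fun n hn => h7 n ((h4 n x z).mp hn)⟩

end Pool.Agent.WOM
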