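import Pool.Agent.WOM.StS3
import Pool.Agent.WOM.ORB
import Pool.Agent.WOM.DEF1

/-! WOM: module SFX, automorphisms and definable families (helper44). -/

set_option autoImplicit false
set_option linter.unusedVariables false

namespace Pool.Agent.WOM

open FirstOrder.Language Set
open scoped FirstOrder

section

variable {L : FirstOrder.Language.{0, 0}} {U : Type} [L.Structure U]

/-- invariance of definable relations -/
private theorem sfx_inv {A : Set U} {n : ℕ} {s : Set (Fin n → U)} (hs : A.Definable L s)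
    (σ : U ≃[L] U) (hσ : Fx L A σ) (v : Fin n → U) : v ∈ s ↔ σ ∘ v ∈ s := by
  obtain ⟨φ, hφ⟩ := definable_iff_exists_formula_sum.1 hs
  rw [hφ]
  show φ.Realize (Sum.elim (fun a : A => (a : U)) v) ↔
    φ.Realize (Sum.elim (fun a : A => (a : U)) (σ ∘ v))
  rw [← FirstOrder.Language.StrongHomClass.realize_formula σ φ]
  have h4 : σ ∘ Sum.elim (fun a : A => (a : U)) v =
      Sum.elim (fun a : A => (a : U)) (σ ∘ v) := by
    funext i
    rcases i with i | i
    · exact hσ i i.2
    · rfl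
  rw [h4]

private theorem sfx_one {A : Set U} {u : U → Set U} {σ : U ≃[L] U} (hu : DF L A u)
    (hσ : Fx L A σ) (x : U) : u (σ x) = σ '' u x := by
  have h : ∀ z, z ∈ u x ↔ σ z ∈ u (σ x) := fun z => sfx_inv hu σ hσ ![x, z]
  ext z
  constructor
  · intro hz
    refine ⟨σ.symm z, (h _).2 ?_, σ.apply_symm_apply z⟩
    rw [σ.apply_symm_apply]
    exact hz
  · rintro ⟨w, hw, rfl⟩
    exact (h w).1 hw

private theorem sfx_two {A : Set U} {F : U → U → Set U} {σ : U ≃[L] U}
    (hF : A.Definable L {w : Fin 3 → U | w 2 ∈ F (w 0) (w 1)}) (hσ : Fx L A σ) (x y : U) :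
    F (σ x) (σ y) = σ '' F x y := by
  have h : ∀ z, z ∈ F x y ↔ σ z ∈ F (σ x) (σ y) := fun z => sfx_inv hF σ hσ ![x, y, z]
  ext z
  constructor
  · intro hz
    refine ⟨σ.symm z, (h _).2 ?_, σ.apply_symm_apply z⟩
    rw [σ.apply_symm_apply]
    exact hz
  · rintro ⟨w, hw, rfl⟩
    exact (h w).1 hw

private theorem sfx_set {A s : Set U} {σ : U ≃[L] U} (hs : A.Definable₁ L s) (hσ : Fx L A σ) :
    σ '' s = s := by
  have h : ∀ z, z ∈ s ↔ σ z ∈ s := fun z => sfx_inv (s := {v : Fin 1 → U | v 0 ∈ s}) hs σ hσ ![z]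
  ext z
  constructor
  · rintro ⟨w, hw, rfl⟩
    exact (h w).1 hw
  · intro hz
    refine ⟨σ.symm z, (h _).2 ?_, σ.apply_symm_apply z⟩
    rw [σ.apply_symm_apply]
    exact hz

private theorem sfx_fib {A : Set U} {x y : U} {K : Set U}
    (h : (insert x (insert y A)).Definable₁ L K) :
    ∃ F : U → U → Set U, A.Definable L {w : Fin 3 → U | w 2 ∈ F (w 0) (w 1)} ∧ F x y = K := by
  classical
  obtain ⟨φ, hφ⟩ := definable_iff_exists_formula_sum.1 h
  let σ : (insert x (insert y A) : Set U) ⊕ Fin 1 → A ⊕ Fin 3 :=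
    Sum.elim (fun a : (insert x (insert y A) : Set U) =>
      if ha : (a : U) ∈ A then Sum.inl ⟨a, ha⟩ else if (a : U) = x then Sum.inr 0 else Sum.inr 1)
      fun _ => Sum.inr 2
  have hd : A.Definable L {v : Fin 3 → U | (φ.relabel σ).Realize (Sum.elim (fun a : A => (a : U)) v)} :=
    definable_iff_exists_formula_sum.2 ⟨φ.relabel σ, rfl⟩
  refine ⟨fun p q => {z | (φ.relabel σ).Realize (Sum.elim (fun a : A => (a : U)) ![p, q, z])},
    ?_, ?_⟩
  · have h3 : {w : Fin 3 → U | w 2 ∈ (fun p q => {z | (φ.relabel σ).Realize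
        (Sum.elim (fun a : A => (a : U)) ![p, q, z])}) (w 0) (w 1)} =
        {v : Fin 3 → U | (φ.relabel σ).Realize (Sum.elim (fun a : A => (a : U)) v)} := by
      ext w
      have h4 : ![w 0, w 1, w 2] = w := by
        funext i
        fin_cases i <;> rfl
      show (φ.relabel σ).Realize (Sum.elim (fun a : A => (a : U)) ![w 0, w 1, w 2]) ↔ _
      rw [h4]
      rfl
    rw [h3]
    exact hd
  · ext z
    have h0 : z ∈ K ↔ ![z] ∈ {v : Fin 1 → U | v 0 ∈ K} := Iff.rfl
    have h1 : (Sum.elim (fun a : A => (a : U)) ![x, y, z]) ∘ σ =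
        Sum.elim (fun a : (insert x (insert y A) : Set U) => (a : U)) ![z] := by
      funext t
      rcases t with t | t
      · by_cases ha : (t : U) ∈ A
        · have h2 : σ (Sum.inl t) = Sum.inl ⟨t, ha⟩ := dif_pos ha
          rw [Function.comp_apply, h2]
          rfl
        · by_cases hx : (t : U) = x
          · have h2 : σ (Sum.inl t) = Sum.inr 0 := (dif_neg ha).trans (if_pos hx)
            rw [Function.comp_apply, h2]
            exact hx.symm
          · have h2 : σ (Sum.inl t) = Sum.inr 1 := (dif_neg ha).trans (if_neg hx)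
            rw [Function.comp_apply, h2]
            have h3 : (t : U) = y :=
              (Set.mem_insert_iff.1 ((Set.mem_insert_iff.1 t.2).resolve_left hx)).resolve_right ha
            exact h3.symm
      · have h4 : t = 0 := Subsingleton.elim _ _
        subst h4
        rfl
    rw [h0, hφ]
    show (φ.relabel σ).Realize (Sum.elim (fun a : A => (a : U)) ![x, y, z]) ↔ _
    rw [FirstOrder.Language.Formula.realize_relabel, h1]
    rfl

private theorem sfx_fx_mono {A B : Set U} {σ : U ≃[L] U} (hAB : A ⊆ B) (h : Fx L B σ) :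
    Fx L A σ := fun a ha => h a (hAB ha)

end

theorem thm_SFX : St_SFX := by
  intro L U _ hM
  have hORB := thm_ORB (thm_DEF1 thm_DEFF) L U hM
  have h8 := hORB.2.2.2.2.2.2.2.1
  refine ⟨fun A u σ hu hσ x => sfx_one hu hσ x, fun A F σ hF hσ x y => sfx_two hF hσ x y,
    fun A B s σ hs hσ => sfx_set hs hσ, fun A x y K h => sfx_fib h, ?_, ?_⟩
  · intro A B x y Φ hA hB hΦ hd
    have h1 : (insert x (insert y A)).Definable₁ L (Φ x y) := by
      refine h8 (insert x (insert y A)) B (Φ x y) ((hA.insert y).insert x) hB hd ?_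
      rintro z hz _ ⟨σ, hσ, rfl⟩
      have h2 := hΦ σ (sfx_fx_mono (fun a ha => mem_insert_of_mem _ (mem_insert_of_mem _ ha)) hσ)
      rw [hσ x (mem_insert _ _), hσ y (mem_insert_of_mem _ (mem_insert _ _))] at h2
      rw [h2]
      exact mem_image_of_mem σ hz
    obtain ⟨F, hF, hFK⟩ := sfx_fib h1
    refine ⟨F, hF, fun σ hσ => ?_⟩
    rw [sfx_two hF hσ x y, hFK, hΦ σ hσ]
  · intro A B x Φ hA hB hΦ hd
    have h1 : (insert x A).Definable₁ L (Φ x) := by
      refine h8 (insert x A) B (Φ x) (hA.insert x) hB hd ?_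
      rintro z hz _ ⟨σ, hσ, rfl⟩
      have h2 := hΦ σ (sfx_fx_mono (fun a ha => mem_insert_of_mem _ ha) hσ)
      rw [hσ x (mem_insert _ _)] at h2
      rw [h2]
      exact mem_image_of_mem σ hz
    obtain ⟨F, hF, hFK⟩ := Dx.fib h1
    refine ⟨F, hF, fun σ hσ => ?_⟩
    rw [sfx_one hF hσ x, hFK, hΦ σ hσ]

end Pool.Agent.WOM
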