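import Pool.Agent.WOM.StS2

/-!
WOM, shift theorem, [SHB]: `v` after `w` is below `u`.
-/

set_option autoImplicit false

namespace Pool.Agent.WOM

open FirstOrder.Language Set
open scoped FirstOrder

theorem thm_SHB (hSBAS : St_SBAS) (hSEXT : St_SEXT) (hSLP : St_SLP) : St_SHB := by
  intro L U _ _ hW C a g hS B hB hCB u f hu hSp hf hDom
  obtain ⟨⟨hG, hGm⟩, -, -, -, -, -, hcmp, -, -⟩ := hSBAS L U hW C a g hS
  obtain ⟨hlow, hself, hbd, -, -, -, -, -, -, -, -⟩ := hSEXT L U hW C a g hS B hB hCB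
  obtain ⟨m, hm⟩ := hSLP L U hW C a g hS B hB hCB u f hu hSp hf hDom
  have hmonoE : ∀ (v : U → Set U) (K K' : Set U), K ⊆ K' → ext a v K ⊆ ext a v K' := by
    rintro v K K' h t ⟨y, h1, h2, h3⟩
    exact ⟨y, h1, h h2, h3⟩
  have hEElow : ∀ (K : Set U) (y : U), Bd a g K → y ∈ K → a ≤ y → EE a g y := by
    rintro K y ⟨n, hn⟩ hy hay
    exact ⟨hay, n, hn hy⟩
  refine ⟨m, fun x hx hxm => ?_⟩
  have hP := hm x hx hxm
  have hux : Bd a g (u x) := hu.bd x hx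
  have hfux : Bd a g (ext a f (u x)) := hbd f hf (u x) (hu.low x) hux
  rintro t ⟨y, hay, hyw, htv⟩
  -- a point `z` above `y`
  obtain ⟨z, hyz, haz, hzf, hzn⟩ : ∃ z, y ≤ z ∧ a ≤ z ∧ z ∈ ext a f (u x) ∧
      ¬ ext a f (u x) ⊆ ext a u (f z) := by
    rcases hyw with h | h
    · exact ⟨x, h, hx.1, ⟨x, hx.1, hu.self x, hf.self x⟩, hP⟩
    · exact h
  have hEz : EE a g z := hEElow _ z hfux hzf haz
  have hEy : EE a g y := ⟨hay, by
    obtain ⟨n, hn⟩ := hEz.2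
    exact ⟨n, (hG n).1 z hn y hyz⟩⟩
  have hfz : Bd a g (f z) := hf.bd z hEz
  have hufz : Bd a g (ext a u (f z)) := hbd u hu (f z) (hf.low z) hfz
  have haf : a ∈ f z := hf.low z z (hf.self z) a haz
  obtain ⟨z', htz', haz', hz'u, hfz'⟩ : ∃ z', t ≤ z' ∧ a ≤ z' ∧ z' ∈ ext a u (f z) ∧
      f z' ⊆ ext a u (f z) := by
    rcases htv with h | ⟨z', h1, h2, h3, h4⟩
    · have h5 : f z ⊆ ext a u (f z) := hself u hu (f z) (hf.low z) haf
      exact ⟨z, h.trans hyz, haz, h5 (hf.self z), h5⟩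
    · have h5 : ext a u (f y) ⊆ ext a u (f z) := hmonoE u _ _ (hf.mono y z hEy hEz hyz)
      exact ⟨z', h1, h2, h5 h3, h4.trans h5⟩
  have hEz' : EE a g z' := hEElow _ z' hufz hz'u haz'
  by_contra htu
  have hz'x : z' ∉ u x := fun h => htu (hu.low x z' h t htz')
  refine hzn ?_
  rintro s ⟨y', hay', hy'u, hsy'⟩
  have hlt : y' ≤ z' := by
    by_contra hcon
    exact hz'x (hu.low x y' hy'u z' (not_le.1 hcon).le)
  exact hfz' (hf.mono y' z' (hEElow _ y' hux hy'u hay') hEz' hlt hsy')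

end Pool.Agent.WOM
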