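import Pool.Agent.WOM.StS2

/-!
WOM, shift theorem, [SHC]: `v` is in `Sp` if `v` does not satisfy (DISC).
-/

set_option autoImplicit false

namespace Pool.Agent.WOM

open FirstOrder.Language Set
open scoped FirstOrder

theorem thm_SHC (hSBAS : St_SBAS) (hSEXT : St_SEXT) (hSEXR : St_SEXR) (hSHA : St_SHA) : St_SHC := by
  intro L U _ _ hW C a g hS B hB hCB u f hu hSp hf hDn
  obtain ⟨⟨hG, hGm⟩, -, -, -, -, -, hcmp, -, -⟩ := hSBAS L U hW C a g hS
  obtain ⟨hlow, -, -, -, -, -, -, -, -, -, -⟩ := hSEXT L U hW C a g hS B hB hCB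
  obtain ⟨hR1, -, -, hR4, -, -⟩ := hSEXR L U hW C a g hS B hB hCB
  obtain ⟨hv, -, -, -, -⟩ := hSHA L U hW C a g hS B hB hCB u f hu hf
  by_contra hnS
  obtain ⟨m, hm⟩ := hSp
  have h1 : ¬ ∃ m, ∀ K, Gd a g (vv a f u) K → ¬ Gn a g m ⊆ K := fun h => hDn ⟨hv, hnS, h⟩
  push Not at h1
  obtain ⟨c, ⟨hcl, hca, hcb, hcx⟩, hcm⟩ := h1 m
  obtain ⟨hX1, hX2, hX3⟩ := hR1 f c hf hcl hca hcb
  refine hm (exr a g f c) hX1 (hcm.trans hX2) hX3 ?_
  rintro t ht y hy hyc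
  have h2 : y ∉ exr a g (vv a f u) c := fun h => hyc (hcx h)
  have h3 : ∃ z, EE a g z ∧ z ∉ c ∧ y ∉ vv a f u z := by
    by_contra hcon
    push Not at hcon
    exact h2 fun z hz hzc => hcon z hz hzc
  obtain ⟨z, hz, hzc, hyz⟩ := h3
  have h4 : ext a u (exr a g f c) ⊆ ext a u (f z) := by
    rintro s ⟨r, hr1, hr2, hr3⟩
    exact ⟨r, hr1, hR4 f c z hz hzc hr2, hr3⟩
  have h5 : ext a u (f z) ⊆ f y := by
    by_cases h6 : y ∈ ext a u (f z)
    · have h7 : ¬ f y ⊆ ext a u (f z) := fun h => hyz (Or.inr ⟨y, le_rfl, hy.1, h6, h⟩)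
      exact (hcmp (f y) (ext a u (f z)) (hf.low y) (hlow u hu.low (f z))).resolve_left h7
    · intro s hs
      have h7 : s ≤ y := by
        by_contra hcon
        exact h6 (hlow u hu.low (f z) s hs y (not_le.1 hcon).le)
      exact hf.low y y (hf.self y) s h7
  exact h5 (h4 ht)

end Pool.Agent.WOM
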