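import Pool.Agent.WOM.StS2

/-!
# WOM, shift theorem, module SHD (helper34): a half of `u`
-/

set_option autoImplicit false
set_option linter.unusedVariables false

namespace Pool.Agent.WOM

open FirstOrder.Language Set
open scoped FirstOrder

theorem SHD_ext_mono {U : Type} [LinearOrder U] {a : U} {u : U → Set U} {K K' : Set U}
    (h : K ⊆ K') : ext a u K ⊆ ext a u K' := by
  rintro t ⟨y, h1, h2, h3⟩
  exact ⟨y, h1, h h2, h3⟩

/-- from the late elements to the cuts -/
theorem SHD_cut {L : FirstOrder.Language.{0, 0}} {U : Type} [L.Structure U] [LinearOrder U]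
    {C : Set U} {a : U} {g : U → Set U} (hg : Shp L C a g) {B : Set U} {d u : U → Set U}
    (hd : MB L a g B d) {m : ℕ} (hlow : Low (Gn a g m)) (ham : a ∈ Gn a g m)
    (h1 : ∀ x, EE a g x → x ∉ Gn a g m → ext a d (d x) ⊆ u x) {K : Set U} (hK : Low K)
    (hG : Gn a g (m + 1) ⊆ K) (hb : Bd a g K) : ext a d (ext a d K) ⊆ ext a u K := by
  rintro t ⟨y, hay, ⟨y', hay', hy'K, hyy'⟩, hty⟩
  obtain ⟨n, hn⟩ := hb
  obtain ⟨y₁, hy₁, hy₁m⟩ := hg.strict m
  have hay₁ : a ≤ y₁ := by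
    by_contra hcon
    exact hy₁m (hlow a ham y₁ (not_le.1 hcon).le)
  have hmK : max y' y₁ ∈ K := by
    rcases le_total y' y₁ with h | h
    · rw [max_eq_right h]
      exact hG hy₁
    · rw [max_eq_left h]
      exact hy'K
  have hE' : EE a g y' := ⟨hay', n, hn hy'K⟩
  have hE : EE a g (max y' y₁) := ⟨le_max_of_le_left hay', n, hn hmK⟩
  have hnot : max y' y₁ ∉ Gn a g m := fun h => hy₁m (hlow _ h y₁ (le_max_right _ _))
  refine ⟨max y' y₁, le_max_of_le_left hay', hmK, ?_⟩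
  refine h1 _ hE hnot ⟨y, hay, ?_, hty⟩
  exact hd.mono y' _ hE' hE (le_max_left _ _) hyy'

theorem thm_SHD (hSBAS : St_SBAS) (hSEXT : St_SEXT) (hSEV : St_SEV) (hSHA : St_SHA)
    (hSHB : St_SHB) : St_SHD := by
  intro L U _ _ hW C a g hg B hBf hCB u f hu hSu hf hDom hSv hSw
  obtain ⟨⟨b1, b1'⟩, -, -, -, -, -, b7, -, -⟩ := hSBAS L U hW C a g hg
  obtain ⟨hv, hw, -⟩ := hSHA L U hW C a g hg B hBf hCB u f hu hf
  obtain ⟨-, -, ev3, ev4, -⟩ := hSEV L U hW C a g hg B hBf
  have hB := hSHB L U hW C a g hg B hBf hCB u f hu hSu hf hDom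
  -- step 1
  have step1 : ∃ d : U → Set U, MB L a g B d ∧ Sp a g d ∧
      ∃ m, ∀ x, EE a g x → x ∉ Gn a g m → ext a d (d x) ⊆ u x := by
    rcases ev3 (vv a f u) (ww a f u) hv.df hw.df with h | h
    · obtain ⟨m, hm⟩ := ev4 _ _ h hB
      refine ⟨vv a f u, hv, hSv, m, fun x hx hxm => ?_⟩
      obtain ⟨h1, h2⟩ := hm x hx hxm
      exact (SHD_ext_mono h1).trans h2
    · obtain ⟨m, hm⟩ := ev4 _ _ h hB
      refine ⟨ww a f u, hw, hSw, m, fun x hx hxm => ?_⟩
      obtain ⟨-, h2⟩ := hm x hx hxm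
      refine Subset.trans ?_ h2
      rintro t ⟨y, hay, hyx, hty⟩
      obtain ⟨n, hn⟩ := hw.bd x hx
      have hE : EE a g y := ⟨hay, n, hn hyx⟩
      have hmx : max y x ∈ ww a f u x := by
        rcases le_total y x with h' | h'
        · rw [max_eq_right h']
          exact hw.self x
        · rw [max_eq_left h']
          exact hyx
      have hE' : EE a g (max y x) := ⟨le_max_of_le_left hay, n, hn hmx⟩
      have hnot : max y x ∉ Gn a g m := fun h' => hxm ((b1 m).1 _ h' x (le_max_right _ _))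
      have h3 : ww a f u (max y x) ⊆ vv a f u (max y x) :=
        (b7 _ _ (hv.low _) (hw.low _)).resolve_left (hm _ hE' hnot).1
      exact ⟨max y x, le_max_of_le_left hay, hmx,
        h3 (hw.mono y _ hE hE' (le_max_left _ _) hty)⟩
  obtain ⟨d, hd, hSd, m, hm⟩ := step1
  -- step 2
  have step2 : ∀ K, Low K → Gn a g (m + 1) ⊆ K → Bd a g K →
      ext a d (ext a d K) ⊆ ext a u K := fun K hK hG hb =>
    SHD_cut hg hd (b1 m).1 (b1 m).2 hm hK hG hb
  obtain ⟨-, -, -, -, -, -, -, -, -, -, s11⟩ := hSEXT L U hW C a g hg B hBf hCB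
  have hit : ∀ k K, Low K → Gn a g (m + 1) ⊆ K → Bd a g K →
      itr a d (2 * k) K ⊆ itr a u k K := by
    intro k K hK hG hb
    have haK : a ∈ K := hG (b1 (m + 1)).2
    induction k with
    | zero => exact Subset.rfl
    | succ k ih =>
      have e1 : itr a d (2 * (k + 1)) K = ext a d (ext a d (itr a d (2 * k) K)) := by
        unfold itr
        have h2 : 2 * (k + 1) = 2 * k + 1 + 1 := by ring
        rw [h2, Function.iterate_succ_apply', Function.iterate_succ_apply']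
      have e2 : itr a u (k + 1) K = ext a u (itr a u k K) := by
        unfold itr
        rw [Function.iterate_succ_apply']
      rw [e1, e2]
      obtain ⟨k1, -, k3, k4, -⟩ := s11 u k K hu hK haK hb
      exact (SHD_ext_mono (SHD_ext_mono ih)).trans (step2 _ k1 (hG.trans k4) k3)
  refine ⟨d, hd, hSd, fun k => ?_, m + 1, step2⟩
  obtain ⟨m', hm'⟩ := hDom k
  refine ⟨max (m + 1) m', fun x hx hxm => ?_⟩
  have hx1 : x ∉ Gn a g (m + 1) := fun h => hxm (b1' _ _ (le_max_left _ _) h)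
  have hx2 : x ∉ Gn a g m' := fun h => hxm (b1' _ _ (le_max_right _ _) h)
  have hL : Low (Iic x) := fun y hy z hz => hz.trans hy
  have hGx : Gn a g (m + 1) ⊆ Iic x := by
    intro y hy
    by_contra hcon
    exact hx1 ((b1 (m + 1)).1 y hy x (not_le.1 hcon).le)
  have hbx : Bd a g (Iic x) := by
    obtain ⟨-, n, hn⟩ := hx
    exact ⟨n, fun y hy => (b1 n).1 x hn y hy⟩
  obtain ⟨-, -, -, -, k5⟩ := s11 d (2 * k) (Iic x) hd hL hx.1 hbx
  exact ((k5 k (by omega)).trans (hit k _ hL hGx hbx)).trans (hm' x hx hx2)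

end Pool.Agent.WOM
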