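import Pool.Agent.WOM.StS2

/-!
WOM: proof of `St_SHE` (fixed cuts of `w` and of the flat pieces).
-/

set_option autoImplicit false
set_option linter.unusedVariables false

namespace Pool.Agent.WOM

open FirstOrder.Language Set
open scoped FirstOrder

theorem thm_SHE (hSBAS : St_SBAS) (hSEXT : St_SEXT) : St_SHE := by
  intro L U _ _ hW C a g hS B hB hCB u f hu hf c
  obtain ⟨⟨b1, b1'⟩, -, -, b4, -, -, b7, -, -⟩ := hSBAS L U hW C a g hS
  obtain ⟨e1, e2, e3, -⟩ := hSEXT L U hW C a g hS B hB hCB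
  have hEle : ∀ x y, a ≤ x → x ≤ y → EE a g y → EE a g x := by
    rintro x y hx hxy ⟨_, n, hn⟩
    exact ⟨hx, n, (b1 n).1 y hn x hxy⟩
  have hEbd : ∀ (K : Set U) x, a ≤ x → x ∈ K → Bd a g K → EE a g x := by
    rintro K x hx hxK ⟨n, hn⟩
    exact ⟨hx, n, hn hxK⟩
  -- the elements of a cut which does not contain `b` are smaller than `b`
  have hlt : ∀ (K : Set U) b y, Low K → b ∉ K → y ∈ K → y ≤ b := by
    intro K b y hK hb hy
    by_contra hcon
    exact hb (hK y hy b (not_le.1 hcon).le)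
  have key : Gd a g (nF a u) c → ∀ z, EE a g z → z ∉ c →
      ∃ t, EE a g t ∧ t ∈ u z ∧ t ∉ exr a g u c := by
    rintro ⟨hc1, hc2, hc3, hc4⟩ z hz hzc
    have h1 : z ∉ exr a g (nF a u) c := fun h => hzc (hc4 h)
    have h2 : ∃ z', EE a g z' ∧ z' ∉ c ∧ z ∉ nF a u z' := by
      by_contra hcon
      apply h1
      intro z' hz' hz'c
      by_contra h3
      exact hcon ⟨z', hz', hz'c, h3⟩
    obtain ⟨z', hz', hz'c, hn⟩ := h2
    have h3 : ¬ u z ⊆ u z' := by
      intro h4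
      apply hn
      exact Or.inr ⟨z, le_rfl, hz.1, h4 (hu.self z), h4⟩
    obtain ⟨t, ht, ht'⟩ := Set.not_subset.1 h3
    have h5 : z' ≤ t := hlt (u z') t z' (hu.low z') ht' (hu.self z')
    refine ⟨t, hEbd (u z) t (hz'.1.trans h5) ht (hu.bd z hz), ht, ?_⟩
    intro h6
    exact ht' (h6 z' hz' hz'c)
  refine ⟨key, ?_⟩
  rintro hc hc' s hs b hb hbf
  have h1 : ∃ y, EE a g y ∧ y ∉ c ∧ b ∉ f y := by
    by_contra hcon
    apply hbf
    intro y hy hyc
    by_contra h3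
    exact hcon ⟨y, hy, hyc, h3⟩
  obtain ⟨y, hy, hyc, hby⟩ := h1
  have h2 : ext a u (f y) ⊆ u b := by
    rintro t ⟨y', hy', hy'f, ht⟩
    have h3 : y' ≤ b := hlt (f y) b y' (hf.low y) hby hy'f
    exact hu.mono y' b (hEle y' b hy' h3 hb) hb h3 ht
  have h3 : y ∉ exr a g (ww a f u) c := fun h => hyc (hc'.2.2.2 h)
  have h4 : ∃ z, EE a g z ∧ z ∉ c ∧ y ∉ ww a f u z := by
    by_contra hcon
    apply h3
    intro z hz hzc
    by_contra h5
    exact hcon ⟨z, hz, hzc, h5⟩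
  obtain ⟨z, hz, hzc, hyz⟩ := h4
  have h5 : ext a f (u z) ⊆ ext a u (f y) := by
    by_cases h6 : y ∈ ext a f (u z)
    · by_contra h7
      apply hyz
      exact Or.inr ⟨y, le_rfl, hy.1, h6, h7⟩
    · intro t ht
      have h7 : t ≤ y := hlt (ext a f (u z)) y t (e1 f hf.low (u z)) h6 ht
      have h8 : a ∈ f y := hf.low y y (hf.self y) a hy.1
      exact e2 u hu (f y) (hf.low y) h8 (hf.low y y (hf.self y) t h7)
  obtain ⟨t, ht, htz, htc⟩ := key hc z hz hzc
  have h6 : s ∈ f t := hs t ht htc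
  exact h2 (h5 ⟨t, ht.1, htz, h6⟩)

end Pool.Agent.WOM
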