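import Pool.Agent.WOM.StS2

/-!
WOM: proof of `St_SHF` (going up).
-/

set_option autoImplicit false
set_option linter.unusedVariables false

namespace Pool.Agent.WOM

open FirstOrder.Language Set
open scoped FirstOrder

theorem thm_SHF (hSBAS : St_SBAS) (hSEXR : St_SEXR) (hSHE : St_SHE) : St_SHF := by
  intro L U _ _ hW C a g hS B hB hCB u n hu hn hnF m hm c hc hmc
  obtain ⟨⟨b1, b1'⟩, -⟩ := hSBAS L U hW C a g hS
  obtain ⟨x1, -⟩ := hSEXR L U hW C a g hS B hB hCB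
  obtain ⟨hc1, hc2, hc3, hc4⟩ := hc
  obtain ⟨r1, r2, r3⟩ := x1 u c hu hc1 hc2 hc3
  have hEle : ∀ x y, a ≤ x → x ≤ y → EE a g y → EE a g x := by
    rintro x y hx hxy ⟨_, n, hn⟩
    exact ⟨hx, n, (b1 n).1 y hn x hxy⟩
  have hlt : ∀ (K : Set U) b y, Low K → b ∉ K → y ∈ K → y ≤ b := by
    intro K b y hK hb hy
    by_contra hcon
    exact hb (hK y hy b (not_le.1 hcon).le)
  have hcF : Gd a g (nF a u) c := by
    refine ⟨hc1, hc2, hc3, fun t ht => hc4 ?_⟩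
    intro z hz hzc
    exact hnF z (ht z hz hzc)
  have key := (hSHE L U hW C a g hS B hB hCB u u hu hu c).1 hcF
  refine ⟨r1, r2 hc2, r3, ?_⟩
  intro s hs y hy hyc
  have h3 : y ∉ exr a g n c := fun h => hyc (hc4 h)
  have h4 : ∃ z, EE a g z ∧ z ∉ c ∧ y ∉ n z := by
    by_contra hcon
    apply h3
    intro z hz hzc
    by_contra h5
    exact hcon ⟨z, hz, hzc, h5⟩
  obtain ⟨z, hz, hzc, hyz⟩ := h4
  have h5 : ext a u (n z) ⊆ u y := by
    rintro t ⟨y', hy', hy'n, ht⟩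
    have h6 : y' ≤ y := hlt (n z) y y' (hn.low z) hyz hy'n
    exact hu.mono y' y (hEle y' y hy' h6 hy) hy h6 ht
  obtain ⟨t, ht, htz, htc⟩ := key z hz hzc
  have h6 : s ∈ n t := hs t ht htc
  exact h5 (hm z hz (fun h => hzc (hmc h)) ⟨t, ht.1, htz, h6⟩)

end Pool.Agent.WOM
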