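import Pool.Agent.WOM.StS2

/-!
WOM, module SHG: going down along a half (the cut `c'` with `exr a g u c' = c`).
-/

set_option autoImplicit false
set_option linter.unusedVariables false

namespace Pool.Agent.WOM

open FirstOrder.Language Set
open scoped FirstOrder

theorem thm_SHG (hSBAS : St_SBAS) (hSEXR : St_SEXR) : St_SHG := by
  intro L U _ _ hW C a g hS B hB hCB u n hu hn hJ m hm c hc hGc
  obtain ⟨⟨b1, b2⟩, -, -, -, -, -, b7, -, -⟩ := hSBAS L U hW C a g hS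
  obtain ⟨r1, -⟩ := hSEXR L U hW C a g hS B hB hCB
  obtain ⟨c1, c2, ⟨N, c3⟩, c4⟩ := hc
  -- elements of `E` below elements of `E`
  have hE : ∀ x y, EE a g y → a ≤ x → x ≤ y → EE a g x := by
    rintro x y ⟨-, k, hk⟩ h1 h2
    exact ⟨h1, k, (b1 k).1 y hk x h2⟩
  set c' : Set U := {z | ∃ s, z ≤ s ∧ a ≤ s ∧ u s ⊆ c} with hc'
  have hsub : c' ⊆ c := by
    rintro z ⟨s, h1, h2, h3⟩
    exact c1 s (h3 (hu.self s)) z h1
  have hlow : Low c' := by
    rintro z ⟨s, h1, h2, h3⟩ y hy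
    exact ⟨s, hy.trans h1, h2, h3⟩
  have hiff : ∀ z, EE a g z → z ∈ c' → u z ⊆ c := by
    rintro z hz ⟨s, h1, h2, h3⟩
    have hs : EE a g s := ⟨h2, N, c3 (h3 (hu.self s))⟩
    exact (hu.mono z s hz hs h1).trans h3
  have hmem : ∀ z, a ≤ z → u z ⊆ c → z ∈ c' := fun z h1 h2 => ⟨z, le_rfl, h1, h2⟩
  have hG : Gn a g m ⊆ c' := by
    intro z hz
    rcases le_total a z with h | h
    · exact hmem z h fun t ht => hGc ⟨z, h, hz, ht⟩
    · exact ⟨a, h, le_rfl, fun t ht => hGc ⟨a, le_rfl, (b1 m).2, ht⟩⟩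
  have ha : a ∈ c' := hG (b1 m).2
  have hbd : Bd a g c' := ⟨N, hsub.trans c3⟩
  have hge : ∀ y, y ∉ c' → a ≤ y := by
    intro y hy
    by_contra h
    exact hy (hlow a ha y (not_le.1 h).le)
  have hex : exr a g u c' = c := by
    apply Subset.antisymm
    · intro t ht
      by_contra htc
      have h1 : t ∉ exr a g n c := fun h => htc (c4 h)
      simp only [exr, mem_ofPred_eq, not_forall] at h1
      obtain ⟨s, hs, hsc, hts⟩ := h1
      have h2 : t ∉ nJ a u s := fun h => hts (hJ s h)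
      simp only [nJ, mem_ofPred_eq, not_forall] at h2
      obtain ⟨z, hz1, hz2, hz3, hz4⟩ := h2
      have hz : EE a g z := hE z s hs hz1 hz2
      have hzc : z ∉ c' := fun h => hsc (hiff z hz h hz3)
      exact hz4 (ht z hz hzc)
    · intro t ht z hz hzc
      have h1 : ¬ u z ⊆ c := fun h => hzc (hmem z hz.1 h)
      rcases b7 (u z) c (hu.low z) c1 with h | h
      · exact absurd h h1
      · exact h ht
  refine ⟨c', ⟨hlow, ha, hbd, ?_⟩, hG, hsub, hex⟩
  intro y hy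
  by_contra hyc
  obtain ⟨-, -, k, hk⟩ := r1 n c' hn hlow ha hbd
  have hyE : EE a g y := ⟨hge y hyc, k, hk hy⟩
  have h1 : ¬ u y ⊆ c := fun h => hyc (hmem y hyE.1 h)
  obtain ⟨t, ht, htc⟩ := not_subset.1 h1
  have h2 : t ∉ exr a g n c := fun h => htc (c4 h)
  simp only [exr, mem_ofPred_eq, not_forall] at h2
  obtain ⟨s, hs, hsc, hts⟩ := h2
  have h3 : s ∉ exr a g u c' := by rwa [hex]
  simp only [exr, mem_ofPred_eq, not_forall] at h3
  obtain ⟨z, hz, hzc, hsz⟩ := h3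
  have h4 : t ∈ ext a n (u z) :=
    hm z hz (fun h => hzc (hG h)) ⟨y, hyE.1, hy z hz hzc, ht⟩
  obtain ⟨w, hw1, hw2, hw3⟩ := h4
  have hws : w ≤ s := by
    by_contra h
    exact hsz (hu.low z w hw2 s (not_le.1 h).le)
  exact hts (hn.mono w s (hE w s hs hw1 hws) hs hws hw3)

end Pool.Agent.WOM
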