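import Pool.Agent.WOM.StS2
import Pool.Agent.WOM.SDF

/-!
WOM: proof of `St_SHH`: chains of fixed cuts.
-/

set_option autoImplicit false
set_option linter.unusedVariables false

namespace Pool.Agent.WOM

open FirstOrder.Language Set
open scoped FirstOrder

/-- iterates of the right extension -/
theorem SHH_it {L : FirstOrder.Language.{0, 0}} {U : Type} [L.Structure U] [LinearOrder U] {a : U}
    {g : U → Set U} {B : Set U} {u : U → Set U} (hu : MB L a g B u)
    (h1 : ∀ (u : U → Set U) (K : Set U), MB L a g B u → Low K → a ∈ K → Bd a g K →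
        Low (exr a g u K) ∧ K ⊆ exr a g u K ∧ Bd a g (exr a g u K))
    (h6 : ∀ (u : U → Set U) (K : Set U), MB L a g B u → Low K → a ∈ K → Bd a g K →
        ext a u K ⊆ exr a g u K)
    (h9 : ∀ (u : U → Set U) (K K' : Set U) (k : ℕ), K ⊆ K' → itr a u k K ⊆ itr a u k K')
    {K : Set U} (hK : Low K) (haK : a ∈ K) (hbK : Bd a g K) (i : ℕ) :
    Low ((exr a g u)^[i] K) ∧ a ∈ (exr a g u)^[i] K ∧ Bd a g ((exr a g u)^[i] K) ∧
      K ⊆ (exr a g u)^[i] K ∧ itr a u i K ⊆ (exr a g u)^[i] K := by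
  induction i with
  | zero => exact ⟨hK, haK, hbK, Subset.refl _, Subset.refl _⟩
  | succ i ih =>
    obtain ⟨i1, i2, i3, i4, i5⟩ := ih
    rw [Function.iterate_succ_apply']
    obtain ⟨j1, j2, j3⟩ := h1 u _ hu i1 i2 i3
    refine ⟨j1, j2 i2, j3, i4.trans j2, ?_⟩
    have h7 : itr a u (i + 1) K = ext a u (itr a u i K) := Function.iterate_succ_apply' _ _ _
    rw [h7]
    exact (h9 u _ _ 1 i5).trans (h6 u _ hu i1 i2 i3)

theorem SHH_iter_mono {U : Type} [LinearOrder U] {a : U} {g : U → Set U} {u : U → Set U}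
    {K K' : Set U} (h : K ⊆ K') (i : ℕ) : (exr a g u)^[i] K ⊆ (exr a g u)^[i] K' := by
  induction i with
  | zero => exact h
  | succ i ih =>
    rw [Function.iterate_succ_apply', Function.iterate_succ_apply']
    intro t ht z hz hzK
    exact ht z hz (fun h' => hzK (ih h'))

theorem thm_SHH (hSBAS : St_SBAS) (hSEXT : St_SEXT) (hSEV : St_SEV) (hSEXR : St_SEXR)
    (hSIT : St_SIT) (hSHF : St_SHF) (hSHG : St_SHG) : St_SHH := by
  intro L U _ _ hW C a g hS B hB hCB u n hu hSp hn hnF hnJ hlarge m₀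
  have haB : a ∈ B := hCB hS.aC
  obtain ⟨⟨hG, hGm⟩, -, -, -, -, -, hcmp, -, -⟩ := hSBAS L U hW C a g hS
  obtain ⟨hlow, -, hbd, -, -, -, -, -, h9, -, -⟩ := hSEXT L U hW C a g hS B hB hCB
  obtain ⟨-, -, hev3, -, hev5⟩ := hSEV L U hW C a g hS B hB
  obtain ⟨r1, -, -, -, -, r6⟩ := hSEXR L U hW C a g hS B hB hCB
  obtain ⟨mS, hmS⟩ := hSIT L U hW C a g hS B hB hCB u hu hSp
  have hF := hSHF L U hW C a g hS B hB hCB u n hu hn hnF
  have hJ := hSHG L U hW C a g hS B hB hCB u n hu hn hnJ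
  have hit : ∀ K, Low K → a ∈ K → Bd a g K → ∀ i, Low ((exr a g u)^[i] K) ∧
      a ∈ (exr a g u)^[i] K ∧ Bd a g ((exr a g u)^[i] K) ∧
      K ⊆ (exr a g u)^[i] K ∧ itr a u i K ⊆ (exr a g u)^[i] K :=
    fun K hK haK hbK i => SHH_it hu r1 r6 h9 hK haK hbK i
  have hd1 : DF L B (fun x => ext a n (u x)) := df_comp hW.ord haB hn.df hu.df
  have hd2 : DF L B (fun x => ext a u (n x)) := df_comp hW.ord haB hu.df hn.df
  rcases hev3 _ _ hd1 hd2 with hev | hev
  · -- case F
    obtain ⟨mF, hmF⟩ := hev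
    obtain ⟨c₀, hc₀, hc₀G⟩ := hlarge (max m₀ (max mS mF))
    obtain ⟨hcl, hca, ⟨m₂, hm₂⟩, hcr⟩ := hc₀
    refine ⟨max m₀ (max mS mF), m₂, le_max_left _ _, ?_⟩
    intro M
    have hGS : Gn a g mS ⊆ c₀ :=
      (hGm _ _ ((le_max_left mS mF).trans (le_max_right _ _))).trans hc₀G
    have hGF : Gn a g mF ⊆ c₀ :=
      (hGm _ _ ((le_max_right mS mF).trans (le_max_right _ _))).trans hc₀G
    obtain ⟨k, hk⟩ := hmS c₀ hcl hGS ⟨m₂, hm₂⟩ M
    refine ⟨k, fun j => (exr a g u)^[j] c₀, ?_, ?_, hc₀G, hm₂, ?_⟩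
    · intro j _
      induction j with
      | zero => exact ⟨hcl, hca, ⟨m₂, hm₂⟩, hcr⟩
      | succ j ih =>
        have ih' := ih (by omega)
        change Gd a g n ((exr a g u)^[j + 1] c₀)
        rw [Function.iterate_succ_apply']
        exact hF mF hmF _ ih' (hGF.trans (hit c₀ hcl hca ⟨m₂, hm₂⟩ j).2.2.2.1)
    · intro j _
      exact Function.iterate_succ_apply' _ _ _
    · exact hk.trans (hit c₀ hcl hca ⟨m₂, hm₂⟩ k).2.2.2.2
  · -- case Bk
    have hev' : Ev a g (fun x => ext a u (n x) ⊆ ext a n (u x)) := by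
      apply hev5 _ _ _ hev
      intro x hx
      rcases hcmp _ _ (hlow n hn.low (u x)) (hlow u hu.low (n x)) with h | h
      · exact absurd h hx
      · exact h
    obtain ⟨mB, hmB⟩ := hev'
    set m₁ := max m₀ (max mS mB) with hm₁
    have hmB' : ∀ x, EE a g x → x ∉ Gn a g m₁ → ext a u (n x) ⊆ ext a n (u x) := by
      intro x hx hx'
      apply hmB x hx
      intro h
      exact hx' (hGm _ _ ((le_max_right mS mB).trans (le_max_right _ _)) h)
    obtain ⟨mE, hmE⟩ := hbd u hu (Gn a g m₁) (hG m₁).1 ⟨m₁, Subset.refl _⟩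
    set m₂ := max m₁ mE with hm₂
    have hE2 : ext a u (Gn a g m₁) ⊆ Gn a g m₂ := hmE.trans (hGm _ _ (le_max_right _ _))
    have hGS : Gn a g mS ⊆ Gn a g m₂ :=
      hGm _ _ (((le_max_left mS mB).trans (le_max_right _ _)).trans (le_max_left _ _))
    refine ⟨m₁, m₂, le_max_left _ _, ?_⟩
    intro M
    obtain ⟨c, hc, hcG⟩ := hlarge (max m₂ M)
    have hc2 : Gn a g m₂ ⊆ c := (hGm _ _ (le_max_left _ _)).trans hcG
    have hcM : Gn a g M ⊆ c := (hGm _ _ (le_max_right _ _)).trans hcG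
    by_cases hR : ∃ (j : ℕ) (e : Set U), Gd a g n e ∧ Gn a g m₁ ⊆ e ∧ e ⊆ Gn a g m₂ ∧
        (∀ k ≤ j, Gd a g n ((exr a g u)^[k] e)) ∧ (exr a g u)^[j] e = c
    · obtain ⟨j, e, _, he1, he2, he3, he4⟩ := hR
      refine ⟨j, fun k => (exr a g u)^[k] e, he3, ?_, he1, he2, ?_⟩
      · intro k _
        exact Function.iterate_succ_apply' _ _ _
      · change Gn a g M ⊆ (exr a g u)^[j] e
        rw [he4]
        exact hcM
    · exfalso
      have hQ : ∀ j : ℕ, ∃ e : Set U, Gd a g n e ∧ Gn a g m₂ ⊆ e ∧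
          (∀ k ≤ j, Gd a g n ((exr a g u)^[k] e)) ∧ (exr a g u)^[j] e = c := by
        intro j
        induction j with
        | zero =>
          refine ⟨c, hc, hc2, ?_, rfl⟩
          intro k hk
          have : k = 0 := by omega
          subst this
          exact hc
        | succ j ih =>
          obtain ⟨e, he, heG, hek, hej⟩ := ih
          obtain ⟨e', he', heG', hee, hexr⟩ := hJ m₁ hmB' e he (hE2.trans heG)
          have hk' : ∀ k ≤ j + 1, Gd a g n ((exr a g u)^[k] e') := by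
            intro k hk
            rcases Nat.eq_zero_or_pos k with h0 | h0
            · subst h0
              exact he'
            · obtain ⟨k', rfl⟩ : ∃ k', k = k' + 1 := ⟨k - 1, by omega⟩
              rw [Function.iterate_succ_apply, hexr]
              exact hek k' (by omega)
          have hj' : (exr a g u)^[j + 1] e' = c := by
            rw [Function.iterate_succ_apply, hexr]
            exact hej
          rcases hcmp _ _ (hG m₂).1 he'.1 with h | h
          · exact ⟨e', he', h, hk', hj'⟩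
          · exact absurd ⟨j + 1, e', he', heG', h, hk', hj'⟩ hR
      obtain ⟨N₀, hN₀⟩ := hc.2.2.1
      obtain ⟨i, hi⟩ := hmS (Gn a g m₂) (hG m₂).1 hGS ⟨m₂, Subset.refl _⟩ (N₀ + 1)
      obtain ⟨e, -, heG, -, hei⟩ := hQ i
      obtain ⟨y, hy, hy'⟩ := hS.strict N₀
      apply hy'
      apply hN₀
      rw [← hei]
      apply SHH_iter_mono heG i
      exact (hit (Gn a g m₂) (hG m₂).1 (hG m₂).2 ⟨m₂, Subset.refl _⟩ i).2.2.2.2 (hi hy)

end Pool.Agent.WOM
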