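import Pool.Agent.WOM.SHH

/-!
WOM: proof of `St_SHI`: the function `w` is in `Sp`.
-/

set_option autoImplicit false
set_option linter.unusedVariables false

namespace Pool.Agent.WOM

open FirstOrder.Language Set
open scoped FirstOrder

theorem SHI_gd {U : Type} [LinearOrder U] {a : U} {g : U → Set U} {n n' : U → Set U} {K : Set U}
    (h : ∀ x, n' x ⊆ n x) (hK : Gd a g n K) : Gd a g n' K := by
  obtain ⟨h1, h2, h3, h4⟩ := hK
  refine ⟨h1, h2, h3, ?_⟩
  intro t ht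
  exact h4 (fun z hz hzK => h z (ht z hz hzK))

theorem SHI_exr_mono {U : Type} [LinearOrder U] {a : U} {g : U → Set U} {u : U → Set U}
    {K K' : Set U} (h : K ⊆ K') : exr a g u K ⊆ exr a g u K' := by
  intro t ht z hz hzK
  exact ht z hz (fun h' => hzK (h h'))

theorem thm_SHI (hSBAS : St_SBAS) (hSEXT : St_SEXT) (hSCA : St_SCA) (hSEXR : St_SEXR)
    (hSIT : St_SIT) (hSHA : St_SHA) (hSHE : St_SHE) (hSHH : St_SHH) : St_SHI := by
  intro L U _ _ hW C a g hS B hB hCB hDn u f hu hSp hf hDom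
  by_contra hnw
  obtain ⟨⟨hG, hGm⟩, -, -, -, -, -, hcmp, -, -⟩ := hSBAS L U hW C a g hS
  obtain ⟨hlow, -, hbd, -, -, hun, -, -, h9, -, h11⟩ := hSEXT L U hW C a g hS B hB hCB
  obtain ⟨-, -, hca3⟩ := hSCA L U hW C a g hS B hB hCB
  obtain ⟨r1, -, -, -, r5, r6⟩ := hSEXR L U hW C a g hS B hB hCB
  obtain ⟨-, hw, ⟨hF, hnF⟩, hJ, hnJ⟩ := hSHA L U hW C a g hS B hB hCB u f hu hf
  have hit : ∀ K, Low K → a ∈ K → Bd a g K → ∀ i, Low ((exr a g u)^[i] K) ∧
      a ∈ (exr a g u)^[i] K ∧ Bd a g ((exr a g u)^[i] K) ∧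
      K ⊆ (exr a g u)^[i] K ∧ itr a u i K ⊆ (exr a g u)^[i] K :=
    fun K hK haK hbK i => SHH_it hu r1 r6 h9 hK haK hbK i
  -- the function n
  have hn : MB L a g B (fun x => ww a f u x ∪ (nF a u x ∪ nJ a u x)) :=
    hun _ _ hw (hun _ _ hF hJ)
  have hnn : ¬ Sp a g (fun x => ww a f u x ∪ (nF a u x ∪ nJ a u x)) :=
    hca3 _ _ hw (hun _ _ hF hJ) hnw (hca3 _ _ hF hJ hnF hnJ)
  have hlarge : ∀ m, ∃ c, Gd a g (fun x => ww a f u x ∪ (nF a u x ∪ nJ a u x)) c ∧
      Gn a g m ⊆ c := by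
    intro m
    by_contra hno
    apply hDn (fun x => ww a f u x ∪ (nF a u x ∪ nJ a u x))
    refine ⟨hn, hnn, m, ?_⟩
    intro K hK hGK
    exact hno ⟨K, hK, hGK⟩
  obtain ⟨mI, hmI⟩ := hSIT L U hW C a g hS B hB hCB u hu hSp
  obtain ⟨mR, hmR⟩ := r5 u hu hSp
  obtain ⟨mP, hmP⟩ := hSp
  obtain ⟨m₁, m₂, hm₁, hch⟩ := hSHH L U hW C a g hS B hB hCB u _ hu ⟨mP, hmP⟩ hn
    (fun x => (subset_union_left.trans subset_union_right :
      nF a u x ⊆ ww a f u x ∪ (nF a u x ∪ nJ a u x)))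
    (fun x => (subset_union_right.trans subset_union_right :
      nJ a u x ⊆ ww a f u x ∪ (nF a u x ∪ nJ a u x))) hlarge (max mI (max mR mP))
  have hI1 : Gn a g mI ⊆ Gn a g m₁ := hGm _ _ ((le_max_left _ _).trans hm₁)
  have hR1 : Gn a g mR ⊆ Gn a g m₁ :=
    hGm _ _ (((le_max_left mR mP).trans (le_max_right _ _)).trans hm₁)
  have hP1 : Gn a g mP ⊆ Gn a g m₁ :=
    hGm _ _ (((le_max_right mR mP).trans (le_max_right _ _)).trans hm₁)
  -- the number j
  obtain ⟨N₂, hN₂⟩ := (r1 f (Gn a g m₂) hf (hG m₂).1 (hG m₂).2 ⟨m₂, Subset.refl _⟩).2.2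
  obtain ⟨j, hj⟩ := hmI (Gn a g m₁) (hG m₁).1 hI1 ⟨m₁, Subset.refl _⟩ N₂
  have hj' : exr a g f (Gn a g m₂) ⊆ (exr a g u)^[j] (Gn a g m₁) :=
    (hN₂.trans hj).trans (hit (Gn a g m₁) (hG m₁).1 (hG m₁).2 ⟨m₁, Subset.refl _⟩ j).2.2.2.2
  obtain ⟨M', hM'⟩ := hDom (2 * j + 3)
  obtain ⟨N₃, hN₃⟩ := (r1 u (Gn a g M') hu (hG M').1 (hG M').2 ⟨M', Subset.refl _⟩).2.2
  obtain ⟨K, c, hGd, hstep, hc0, hc0', hcK⟩ := hch (max (N₃ + 1) (m₂ + 1))
  -- the chain is increasing and given by iteration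
  have hcit : ∀ k ≤ K, c k = (exr a g u)^[k] (c 0) := by
    intro k
    induction k with
    | zero => intro _; rfl
    | succ k ih =>
      intro hk
      rw [Function.iterate_succ_apply', ← ih (by omega)]
      exact hstep k (by omega)
  have hc0k : ∀ k ≤ K, c 0 ⊆ c k := by
    intro k hk
    rw [hcit k hk]
    obtain ⟨g1, g2, g3, _⟩ := hGd 0 (by omega)
    exact (hit (c 0) g1 g2 g3 k).2.2.2.1
  -- f⁺ of the chain
  have hfc : ∀ k ≤ K, exr a g f (c k) ⊆ (exr a g u)^[k] (exr a g f (c 0)) := by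
    intro k
    induction k with
    | zero => intro _; exact Subset.refl _
    | succ k ih =>
      intro hk
      rw [Function.iterate_succ_apply', hstep k (by omega)]
      have hgd := hGd k (by omega)
      have h1 := (hSHE L U hW C a g hS B hB hCB u f hu hf (c k)).2
        (SHI_gd (fun x => (subset_union_left.trans subset_union_right :
          nF a u x ⊆ ww a f u x ∪ (nF a u x ∪ nJ a u x))) hgd)
        (SHI_gd (fun x => (subset_union_left :
          ww a f u x ⊆ ww a f u x ∪ (nF a u x ∪ nJ a u x))) hgd)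
      exact h1.trans (SHI_exr_mono (ih (by omega)))
  have hfK : exr a g f (c K) ⊆ (exr a g u)^[j] (c K) := by
    have h1 : exr a g f (c 0) ⊆ (exr a g u)^[j] (c 0) :=
      ((SHI_exr_mono hc0').trans hj').trans (SHH_iter_mono hc0 j)
    have h2 : (exr a g u)^[K] (exr a g f (c 0)) ⊆ (exr a g u)^[K] ((exr a g u)^[j] (c 0)) :=
      SHH_iter_mono h1 K
    rw [← Function.iterate_add_apply, add_comm, Function.iterate_add_apply,
      ← hcit K le_rfl] at h2
    exact (hfc K le_rfl).trans h2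
  -- K is positive
  have hK1 : 1 ≤ K := by
    by_contra hK0
    have : K = 0 := by omega
    subst this
    obtain ⟨y, hy, hy'⟩ := hS.strict m₂
    exact hy' (hc0' (hcK (hGm _ _ (le_max_right _ _) hy)))
  obtain ⟨k, rfl⟩ : ∃ k, K = k + 1 := ⟨K - 1, by omega⟩
  obtain ⟨g1, g2, g3, -⟩ := hGd k (by omega)
  obtain ⟨-, -, ⟨N₄, hN₄⟩, -⟩ := hGd (k + 1) le_rfl
  have hck : c (k + 1) = exr a g u (c k) := hstep k (by omega)
  have hM'k : Gn a g M' ⊆ c k := by
    rcases hcmp _ _ (hG M').1 g1 with h | h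
    · exact h
    · exfalso
      obtain ⟨y, hy, hy'⟩ := hS.strict N₃
      apply hy'
      apply hN₃
      apply SHI_exr_mono h
      rw [← hck]
      exact hcK (hGm _ _ (le_max_left _ _) hy)
  have hm1k : Gn a g m₁ ⊆ c k := hc0.trans (hc0k k (by omega))
  -- the point y
  obtain ⟨y, hy1, hy2⟩ := Set.not_subset.1 (hmP (c k) g1 (hP1.trans hm1k) g3)
  have hyK : y ∈ c (k + 1) := by
    rw [hck]
    exact r6 u (c k) hu g1 g2 g3 hy1
  have hcy : c k ⊆ Iic y := by
    intro z hz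
    by_contra hzy
    exact hy2 (g1 z hz y (le_of_lt (not_le.1 hzy)))
  have hay : a ≤ y := hcy g2
  have hE : EE a g y := ⟨hay, N₄, hN₄ hyK⟩
  have hyM : y ∉ Gn a g M' := fun h => hy2 (hM'k h)
  have hylow : Low (Iic y) := fun s hs t ht => le_trans ht hs
  have hybd : Bd a g (Iic y) := ⟨N₄, fun s hs => (hG N₄).1 y (hN₄ hyK) s hs⟩
  -- comparison of the iterates
  have hcomp : ∀ i, (exr a g u)^[i] (Iic y) ⊆ itr a u (2 * i) (Iic y) := by
    intro i
    induction i with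
    | zero => exact Subset.refl _
    | succ i ih =>
      rw [Function.iterate_succ_apply']
      obtain ⟨i1, i2, i3, i4, -⟩ := hit (Iic y) hylow hay hybd i
      have h1 := hmR ((exr a g u)^[i] (Iic y)) i1 ((hR1.trans (hm1k.trans hcy)).trans i4) i3
      refine h1.trans ?_
      have h2 := h9 u _ _ 2 ih
      have h3 : itr a u (2 * (i + 1)) (Iic y) = itr a u 2 (itr a u (2 * i) (Iic y)) := by
        unfold itr
        rw [← Function.iterate_add_apply]
        have : 2 * (i + 1) = 2 + 2 * i := by ring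
        rw [this]
      rw [h3]
      exact h2
  have hfy : f y ⊆ itr a u (2 * (j + 1)) (Iic y) := by
    have h1 : f y ⊆ ext a f (c (k + 1)) := fun t ht => ⟨y, hay, hyK, ht⟩
    have hgd := hGd (k + 1) le_rfl
    have h2 := r6 f (c (k + 1)) hf hgd.1 hgd.2.1 hgd.2.2.1
    have h3 : (exr a g u)^[j] (c (k + 1)) = (exr a g u)^[j + 1] (c k) := by
      rw [Function.iterate_succ_apply, ← hck]
    have h4 : (exr a g u)^[j + 1] (c k) ⊆ (exr a g u)^[j + 1] (Iic y) := SHH_iter_mono hcy _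
    rw [← h3] at h4
    exact ((h1.trans h2).trans (hfK.trans h4)).trans (hcomp (j + 1))
  obtain ⟨q1, q2, q3, q4, -⟩ := h11 u (2 * (j + 1)) (Iic y) hu hylow hay hybd
  apply hmP (itr a u (2 * (j + 1)) (Iic y)) q1 ((hP1.trans (hm1k.trans hcy)).trans q4) q3
  have h5 : itr a u (2 * j + 3) (Iic y) = ext a u (itr a u (2 * (j + 1)) (Iic y)) := by
    have : 2 * j + 3 = 2 * (j + 1) + 1 := by ring
    rw [this]
    exact Function.iterate_succ_apply' _ _ _
  rw [← h5]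
  exact (hM' y hE hyM).trans hfy

end Pool.Agent.WOM
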