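import Pool.Agent.WOM.StS2
import Pool.Agent.WOM.SDF

/-!
WOM, SHIFT THEOREM, part 2: nothing dominates the shift (proof by helper76 of the statement
`St_SHK` of helper41).
-/

set_option autoImplicit false
set_option linter.unusedVariables false

namespace Pool.Agent.WOM

open FirstOrder.Language Set
open scoped FirstOrder

section

variable {L : FirstOrder.Language.{0, 0}} {U : Type} [L.Structure U] [LinearOrder U]

/-- the cuts of the tree -/
def shk_c (a : U) (D : ℕ → U → Set U) (η : ℕ → Bool) (x : U) : ℕ → Set U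
  | 0 => Iic x
  | k + 1 => if η k = true then ext a (D (k + 1)) (shk_c a D η x k) else shk_c a D η x k

/-- the intervals of the tree -/
def shk_J (a : U) (D : ℕ → U → Set U) (η : ℕ → Bool) (k : ℕ) (x : U) : Set U :=
  ext a (D k) (shk_c a D η x k) \ shk_c a D η x k

theorem shk_c_true {a : U} {D : ℕ → U → Set U} {η : ℕ → Bool} {x : U} {k : ℕ} (h : η k = true) :
    shk_c a D η x (k + 1) = ext a (D (k + 1)) (shk_c a D η x k) := by
  show (if η k = true then _ else _) = _
  rw [if_pos h]

theorem shk_c_false {a : U} {D : ℕ → U → Set U} {η : ℕ → Bool} {x : U} {k : ℕ}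
    (h : η k = false) : shk_c a D η x (k + 1) = shk_c a D η x k := by
  show (if η k = true then _ else _) = _
  rw [if_neg (by rw [h]; exact Bool.false_ne_true)]

theorem shk_dc (hord : (∅ : Set U).Definable L {v : Fin 2 → U | v 0 < v 1}) {B : Set U} {a : U}
    (ha : a ∈ B) {D : ℕ → U → Set U} (hD : ∀ k, DF L B (D k)) (η : ℕ → Bool) (k : ℕ) :
    DF L B (fun x => shk_c a D η x k) := by
  induction k with
  | zero => exact df_Iic hord B
  | succ k ih =>
    cases h : η k with
    | true =>
      have h1 : (fun x => shk_c a D η x (k + 1)) =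
          fun x => ext a (D (k + 1)) (shk_c a D η x k) := funext fun x => shk_c_true h
      rw [h1]
      exact df_comp hord ha (hD (k + 1)) ih
    | false =>
      have h1 : (fun x => shk_c a D η x (k + 1)) = fun x => shk_c a D η x k :=
        funext fun x => shk_c_false h
      rw [h1]
      exact ih

theorem shk_dJ (hord : (∅ : Set U).Definable L {v : Fin 2 → U | v 0 < v 1}) {B : Set U} {a : U}
    (ha : a ∈ B) {D : ℕ → U → Set U} (hD : ∀ k, DF L B (D k)) (η : ℕ → Bool) (k : ℕ) :
    DF L B (shk_J a D η k) :=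
  Dx.and (n := 2) (df_comp hord ha (hD k) (shk_dc hord ha hD η k))
    (Dx.not (n := 2) (shk_dc hord ha hD η k))

theorem shk_agree {a : U} {D : ℕ → U → Set U} {η η' : ℕ → Bool} {x : U} {k : ℕ}
    (h : ∀ j < k, η j = η' j) : shk_c a D η x k = shk_c a D η' x k := by
  induction k with
  | zero => rfl
  | succ k ih =>
    have ih' := ih fun j hj => h j (by omega)
    have h1 := h k (by omega)
    cases h2 : η k with
    | true => rw [shk_c_true h2, shk_c_true (h1.symm.trans h2), ih']
    | false => rw [shk_c_false h2, shk_c_false (h1.symm.trans h2), ih']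

theorem shk_sep {a : U} {D : ℕ → U → Set U} {η η' : ℕ → Bool} {x : U} {k : ℕ}
    (h : ∀ j < k, η j = η' j) (h1 : η k = false) (h2 : η' k = true) {y : U}
    (hy : y ∈ shk_J a D η (k + 1) x) (hy' : y ∈ shk_J a D η' (k + 1) x) : False := by
  have e := shk_agree (a := a) (D := D) (x := x) h
  obtain ⟨hy1, -⟩ := hy
  obtain ⟨-, hy2⟩ := hy'
  rw [shk_c_false h1] at hy1
  rw [shk_c_true h2, ← e] at hy2
  exact hy2 hy1

end

theorem thm_SHK (hSBAS : St_SBAS) (hSEXT : St_SEXT) (hSEV : St_SEV) (hSDC : St_SDC)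
    (hSHC : St_SHC) (hSHD : St_SHD) (hSHI : St_SHI) : St_SHK := by
  intro L U _ _ hW C a g hg B hBf hCB f hf hDom
  obtain ⟨⟨b1, b1'⟩, b2, b3, b4, b5, b5', b6, b7, b8⟩ := hSBAS L U hW C a g hg
  obtain ⟨e1, e2, e3, e4, -⟩ := hSEXT L U hW C a g hg B hBf hCB
  obtain ⟨v1, v2, v3, v4, v5⟩ := hSEV L U hW C a g hg B hBf
  have haB : a ∈ B := hCB hg.aC
  by_cases hex : ∃ n, Dn L a g B n
  · obtain ⟨n, hn⟩ := hex
    exact hSDC L U hW C a g hg B hBf hCB n g f hn (b5 B hCB) b5' hf hDom
  push Not at hex
  -- the sequence of halves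
  have step : ∀ u : {u : U → Set U // MB L a g B u ∧ Sp a g u ∧ Dom a g f u},
      ∃ d : {u : U → Set U // MB L a g B u ∧ Sp a g u ∧ Dom a g f u}, ∃ m, ∀ K, Low K →
        Gn a g m ⊆ K → Bd a g K → ext a d.1 (ext a d.1 K) ⊆ ext a u.1 K := by
    rintro ⟨u, hu, hus, hud⟩
    have h1 := hSHC L U hW C a g hg B hBf hCB u f hu hus hf (hex _)
    have h2 := hSHI L U hW C a g hg B hBf hCB hex u f hu hus hf hud
    obtain ⟨d, hd, hds, hdd, m, hm⟩ := hSHD L U hW C a g hg B hBf hCB u f hu hus hf hud h1 h2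
    exact ⟨⟨d, hd, hds, hdd⟩, m, hm⟩
  choose nx hnx using step
  set s : ℕ → {u : U → Set U // MB L a g B u ∧ Sp a g u ∧ Dom a g f u} :=
    fun k => nx^[k] ⟨g, b5 B hCB, b5', hDom⟩ with hs
  have hss : ∀ k, s (k + 1) = nx (s k) := fun k => Function.iterate_succ_apply' _ _ _
  obtain ⟨D, hD⟩ : ∃ D : ℕ → U → Set U, D = fun k => (s k).1 := ⟨_, rfl⟩
  have hDM : ∀ k, MB L a g B (D k) := fun k => by rw [hD]; exact (s k).2.1
  have hDS : ∀ k, Sp a g (D k) := fun k => by rw [hD]; exact (s k).2.2.1
  have hH : ∀ k, ∃ m, ∀ K, Low K → Gn a g m ⊆ K → Bd a g K →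
      ext a (D (k + 1)) (ext a (D (k + 1)) K) ⊆ ext a (D k) K := by
    intro k
    have h1 := hnx (s k)
    rw [← hss k] at h1
    rw [hD]
    exact h1
  have hDd : ∀ k, DF L B (D k) := fun k => (hDM k).df
  -- late elements
  have late : ∀ m x, x ∉ Gn a g m → Gn a g m ⊆ Iic x := by
    intro m x hx y hy
    by_contra hlt
    exact hx ((b1 m).1 y hy x (not_le.1 hlt).le)
  -- properties of the cuts
  have hc : ∀ η x, EE a g x → ∀ k, Low (shk_c a D η x k) ∧ a ∈ shk_c a D η x k ∧
      Bd a g (shk_c a D η x k) ∧ Iic x ⊆ shk_c a D η x k := by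
    intro η x hx k
    induction k with
    | zero =>
      refine ⟨fun y hy z hz => le_trans hz hy, hx.1, ?_, fun y hy => hy⟩
      obtain ⟨-, i, hi⟩ := hx
      exact ⟨i, fun y hy => (b1 i).1 x hi y hy⟩
    | succ k ih =>
      obtain ⟨i1, i2, i3, i4⟩ := ih
      cases h : η k with
      | true =>
        rw [shk_c_true h]
        have h2 := e2 (D (k + 1)) (hDM _) _ i1 i2
        exact ⟨e1 _ (hDM _).low _, h2 i2, e3 _ (hDM _) _ i1 i3, i4.trans h2⟩
      | false =>
        rw [shk_c_false h]
        exact ⟨i1, i2, i3, i4⟩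
  have hmono : ∀ η x, EE a g x → ∀ k, shk_c a D η x k ⊆ shk_c a D η x (k + 1) := by
    intro η x hx k
    obtain ⟨i1, i2, i3, i4⟩ := hc η x hx k
    cases h : η k with
    | true =>
      rw [shk_c_true h]
      exact e2 (D (k + 1)) (hDM _) _ i1 i2
    | false => rw [shk_c_false h]
  -- eventually
  have ev1 : ∀ η k, Ev a g (fun x => x ∈ {x | ¬ ext a (D k) (shk_c a D η x k) ⊆
      shk_c a D η x k}) := by
    intro η k
    obtain ⟨m, hm⟩ := hDS k
    refine ⟨m, fun x hx hxm => ?_⟩
    obtain ⟨i1, i2, i3, i4⟩ := hc η x hx k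
    exact hm _ i1 ((late m x hxm).trans i4) i3
  have ev2 : ∀ η k, Ev a g (fun x => x ∈ {x | shk_J a D η (k + 1) x ⊆ shk_J a D η k x}) := by
    intro η k
    obtain ⟨m, hm⟩ := hH k
    refine ⟨m, fun x hx hxm => ?_⟩
    obtain ⟨i1, i2, i3, i4⟩ := hc η x hx k
    have h1 := hm _ i1 ((late m x hxm).trans i4) i3
    rintro t ⟨ht, ht'⟩
    refine ⟨?_, fun h => ht' (hmono η x hx k h)⟩
    cases h : η k with
    | true =>
      rw [shk_c_true h] at ht
      exact h1 ht
    | false =>
      rw [shk_c_false h] at ht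
      have h2 := e2 (D (k + 1)) (hDM _) _ i1 i2
      exact h1 (e2 (D (k + 1)) (hDM _) _ (e1 _ (hDM _).low _) (h2 i2) ht)
  -- the limit type is not empty
  have hQ : (⋂₀ {S : Set U | B.Definable₁ L S ∧ Ev a g (fun y => y ∈ S)}).Nonempty := by
    refine hW.mon.sat B hBf _ (fun S hS => hS.1) ?_
    intro G hG hGf
    have h1 : Ev a g (fun x => x ∈ ⋂₀ G) := by
      have h2 : ∀ G : Set (Set U), G.Finite → (∀ S ∈ G, Ev a g (fun y => y ∈ S)) →
          Ev a g (fun x => x ∈ ⋂₀ G) := by
        intro G hGf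
        induction G, hGf using Set.Finite.induction_on with
        | empty =>
          intro _
          exact ⟨0, fun x _ _ => by simp⟩
        | @insert S G _ _ ih =>
          intro h
          have h3 := v4 _ _ (h S (mem_insert _ _)) (ih fun S hS => h S (mem_insert_of_mem _ hS))
          refine v5 _ _ ?_ h3
          rintro x ⟨hx1, hx2⟩
          rw [sInter_insert]
          exact ⟨hx1, hx2⟩
      exact h2 G hGf fun S hS => (hG hS).2
    obtain ⟨m, hm⟩ := h1
    obtain ⟨x, hx, hxm⟩ := b4 m
    exact ⟨x, hm x hx hxm⟩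
  obtain ⟨x, hx⟩ := hQ
  have x1 : ∀ η k, (shk_J a D η k x).Nonempty := by
    intro η k
    have h1 : x ∈ {x | ¬ ext a (D k) (shk_c a D η x k) ⊆ shk_c a D η x k} := by
      refine hx _ ⟨?_, ev1 η k⟩
      exact (df_sub (df_comp hW.ord haB (hDd k) (shk_dc hW.ord haB hDd η k))
        (shk_dc hW.ord haB hDd η k)).compl
    obtain ⟨t, ht, ht'⟩ := Set.not_subset.1 h1
    exact ⟨t, ht, ht'⟩
  have x2 : ∀ η k, shk_J a D η (k + 1) x ⊆ shk_J a D η k x := by
    intro η k
    have h1 : x ∈ {x | shk_J a D η (k + 1) x ⊆ shk_J a D η k x} :=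
      hx _ ⟨df_sub (shk_dJ hW.ord haB hDd η (k + 1)) (shk_dJ hW.ord haB hDd η k), ev2 η k⟩
    exact h1
  have x3 : ∀ η j k, j ≤ k → shk_J a D η k x ⊆ shk_J a D η j x := by
    intro η j k hjk
    induction k, hjk using Nat.le_induction with
    | base => exact fun _ h => h
    | succ k _ ih => exact (x2 η k).trans ih
  -- points in the branches
  have hy : ∀ η : ℕ → Bool, ∃ y, ∀ k, y ∈ shk_J a D η k x := by
    intro η
    have h1 : (⋂₀ {S : Set U | ∃ k, S = shk_J a D η k x}).Nonempty := by
      refine hW.mon.sat (insert x B) (hBf.insert x) _ ?_ ?_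
      · rintro S ⟨k, rfl⟩
        exact df_par (shk_dJ hW.ord haB hDd η k) (subset_insert _ _) (mem_insert _ _)
      · intro G hG hGf
        have h2 : ∃ k, shk_J a D η k x ⊆ ⋂₀ G := by
          induction G, hGf using Set.Finite.induction_on with
          | empty => exact ⟨0, by simp⟩
          | @insert S G _ _ ih =>
            obtain ⟨k, hk⟩ := ih fun S hS => hG (mem_insert_of_mem _ hS)
            obtain ⟨j, hj⟩ := hG (mem_insert S G)
            refine ⟨max j k, ?_⟩
            rw [sInter_insert]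
            refine subset_inter ?_ ((x3 η k _ (le_max_right j k)).trans hk)
            rw [hj]
            exact x3 η j _ (le_max_left j k)
        obtain ⟨k, hk⟩ := h2
        obtain ⟨t, ht⟩ := x1 η k
        exact ⟨t, hk ht⟩
    obtain ⟨y, hy⟩ := h1
    exact ⟨y, fun k => hy _ ⟨k, rfl⟩⟩
  choose y hy using hy
  have hinj : Function.Injective y := by
    intro η η' h
    by_contra hne
    have hex' : ∃ k, η k ≠ η' k := by
      by_contra hcon
      push Not at hcon
      exact hne (funext hcon)
    classical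
    have h1 := Nat.find_spec hex'
    have h2 : ∀ j < Nat.find hex', η j = η' j := fun j hj => by
      by_contra hcon
      exact Nat.find_min hex' hj hcon
    set k := Nat.find hex' with hk
    cases h3 : η k with
    | true =>
      have h4 : η' k = false := by
        cases h5 : η' k with
        | true => exact absurd (h3.trans h5.symm) h1
        | false => rfl
      refine shk_sep (a := a) (D := D) (x := x) (fun j hj => (h2 j hj).symm) h4 h3
        (hy η' (k + 1)) ?_
      rw [← h]
      exact hy η (k + 1)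
    | false =>
      have h4 : η' k = true := by
        cases h5 : η' k with
        | true => rfl
        | false => exact absurd (h3.trans h5.symm) h1
      refine shk_sep (a := a) (D := D) (x := x) h2 h3 h4 (hy η (k + 1)) ?_
      rw [h]
      exact hy η' (k + 1)
  have hctb := hW.mon.ctb
  obtain ⟨ν, hν⟩ := exists_injective_nat U
  classical
  have hdec : Function.Injective (fun (S : Set ℕ) (n : ℕ) => decide (n ∈ S)) := by
    intro S S' h
    ext n
    have h1 := congrFun h n
    simpa using h1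
  exact Function.cantor_injective _ (hν.comp (hinj.comp hdec))

end Pool.Agent.WOM
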