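import Pool.Agent.WOM.StS

/-!
WOM [SIT]: iterates of `Sp` functions are cofinal.
-/

set_option autoImplicit false
set_option linter.unusedVariables false

namespace Pool.Agent.WOM

open FirstOrder.Language Set
open scoped FirstOrder

theorem thm_SIT (hSBAS : St_SBAS) (hSEXT : St_SEXT) : St_SIT := by
  intro L U _ _ hW C a g hS B hB hCB u hu hSp
  obtain ⟨⟨hG, -⟩, -, -, -, -, -, hcmp, -, -⟩ := hSBAS L U hW C a g hS
  obtain ⟨-, -, -, -, -, -, -, hU, -, -, hit⟩ := hSEXT L U hW C a g hS B hB hCB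
  obtain ⟨m, hm⟩ := hSp
  refine ⟨m, fun K hK hmK hbd n => ?_⟩
  by_contra hno
  push Not at hno
  have haK : a ∈ K := hmK (hG m).2
  have hI := fun k => hit u k K hu hK haK hbd
  have hsub : ∀ k, itr a u k K ⊆ Gn a g n := fun k =>
    (hcmp _ _ (hI k).1 (hG n).1).resolve_right (hno k)
  refine hm (⋃ k, itr a u k K) ?_ ?_ ⟨n, iUnion_subset hsub⟩ ?_
  · intro x hx y hy
    obtain ⟨k, hk⟩ := mem_iUnion.1 hx
    exact mem_iUnion.2 ⟨k, (hI k).1 x hk y hy⟩
  · exact fun x hx => mem_iUnion.2 ⟨0, hmK hx⟩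
  · rw [hU]
    refine iUnion_subset fun k x hx => mem_iUnion.2 ⟨k + 1, ?_⟩
    show x ∈ (ext a u)^[k + 1] K
    rw [Function.iterate_succ_apply']
    exact hx

end Pool.Agent.WOM
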