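import Pool.Agent.WOM.StS3
import Pool.Agent.WOM.SDF

/-!
WOM [SKD]: the main lemma for the limit type (helper2).
-/

set_option autoImplicit false
set_option linter.unusedVariables false

namespace Pool.Agent.WOM

open FirstOrder.Language Set
open scoped FirstOrder

private theorem SKD_ext_mono {U : Type} [LinearOrder U] (a : U) (u : U → Set U) {K K' : Set U} (h : K ⊆ K') :
    ext a u K ⊆ ext a u K' := by
  rintro t ⟨y, h1, h2, h3⟩
  exact ⟨y, h1, h h2, h3⟩

private theorem SKD_itr_mono {U : Type} [LinearOrder U] (a : U) (u : U → Set U) (n : ℕ) {K K' : Set U}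
    (h : K ⊆ K') : itr a u n K ⊆ itr a u n K' := by
  induction n with
  | zero => exact h
  | succ n ih =>
    have e : ∀ K : Set U, itr a u (n + 1) K = ext a u (itr a u n K) := fun K =>
      Function.iterate_succ_apply' _ _ _
    rw [e, e]
    exact SKD_ext_mono a u ih

private theorem SKD_itr_low {U : Type} [LinearOrder U] (a : U) {u : U → Set U} (hu : ∀ x, Low (u x)) (n : ℕ)
    {K : Set U} (h : Low K) : Low (itr a u n K) := by
  induction n with
  | zero => exact h
  | succ n ih =>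
    have e : itr a u (n + 1) K = ext a u (itr a u n K) := Function.iterate_succ_apply' _ _ _
    rw [e]
    rintro t ⟨y, h1, h2, h3⟩ s hs
    exact ⟨y, h1, h2, hu y t h3 s hs⟩

/-- [SKD] -/
theorem thm_SKD (hSBAS : St_SBAS) (hSQA : St_SQA) (hSQC : St_SQC) (hSHK : St_SHK) : St_SKD := by
  intro L U _ _ hW C a g hS B hB hCB b hb K hK hlK hbK hex
  obtain ⟨b', hb', hb'K⟩ := hex
  have hord := hW.ord
  have haB : a ∈ B := hCB hS.aC
  obtain ⟨⟨hlow, hmon⟩, -, -, -, -, -, -, -, -⟩ := hSBAS L U hW C a g hS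
  obtain ⟨-, q2, q3, q4, q5, q6, q7, q8, -⟩ := hSQA L U hW C a g hS B hB hCB
  obtain ⟨h, hdf, hhl, hhs, hhb⟩ := df_fib hord hK hlK hbK
  by_contra hcon
  push Not at hcon
  have hgB : DF L B g := Set.Definable.mono hS.df hCB
  -- the iterates are below `h`
  have hD : ∀ n, B.Definable₁ L {x | itr a g n (Iic x) ⊆ h x} := fun n =>
    df_sub (df_itr hord haB hgB n) hdf
  have hbD : ∀ n, itr a g n (Iic b) ⊆ h b := by
    intro n t ht
    rw [hhb]
    by_contra htK
    apply hcon n
    intro s hs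
    have hlI : Low (itr a g n (Iic b)) := SKD_itr_low a hS.low n (fun x hx y hy => hy.trans hx)
    have hst : s ≤ t := by
      by_contra h2
      exact htK (hlK s hs t (not_le.mp h2).le)
    exact hlI t ht s hst
  have hqD : ∀ n, ∀ x ∈ QB L a g B, itr a g n (Iic x) ⊆ h x := by
    intro n x hx
    have h1 := (q2 b hb _ (hD n)).1 (hbD n)
    exact (q2 x hx _ (hD n)).2 h1
  -- the function `f`
  set f : U → Set U := fun x => {t | ∀ y, x ≤ y → t ∈ h y} with hf
  have hfdf : DF L B f := by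
    have h1 : B.Definable L {w : Fin 3 → U | w 1 ≤ w 0 → w 2 ∈ h (w 0)} :=
      Dx.imp (Dx.le hord B 1 0) (Dx.rel (R := fun x y => y ∈ h x) hdf 0 2)
    exact Dx.all (P := fun w : Fin 3 → U => w 1 ≤ w 0 → w 2 ∈ h (w 0)) h1
  have hfl : ∀ x, Low (f x) := by
    intro x t ht s hs y hy
    exact hhl y t (ht y hy) s hs
  have hfs : ∀ x, x ∈ f x := by
    intro x y hy
    exact hhl y y (hhs y) x hy
  have hfm : ∀ x y, x ≤ y → f x ⊆ f y := by
    intro x y hxy t ht z hz
    exact ht z (hxy.trans hz)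
  have hfb : f b ⊆ h b := fun t ht => ht b le_rfl
  -- (i)
  have hbd : ∀ x, EE a g x → Bd a g (f x) := by
    rintro x ⟨hax, m, hxm⟩
    by_contra hnb
    set K' : Set U := {t | ∀ z, a ≤ z → z ∉ Gn a g m → t ∈ f z} with hK'
    have hK'd : B.Definable₁ L K' := by
      have h1 : B.Definable L {w : Fin 2 → U | a ≤ w 0 → (¬ w 0 ∈ Gn a g m → w 1 ∈ f (w 0))} :=
        Dx.imp (df_le_par hord haB 0) (Dx.imp (Dx.not (Dx.one (df_Gn hord haB hgB m) 0))
          (Dx.rel (R := fun x y => y ∈ f x) hfdf 0 1))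
      exact Dx.all (P := fun w : Fin 2 → U => a ≤ w 0 → (¬ w 0 ∈ Gn a g m → w 1 ∈ f (w 0))) h1
    have hK'l : Low K' := by
      intro t ht s hs z hz hzm
      exact hfl z t (ht z hz hzm) s hs
    have hsub : f x ⊆ K' := by
      intro t ht z hz hzm
      have hxz : x ≤ z := by
        by_contra h2
        exact hzm ((hlow m).1 x hxm z (not_le.mp h2).le)
      exact hfm x z hxz ht
    have hK'b : ¬ Bd a g K' := by
      rintro ⟨n, hn⟩
      exact hnb ⟨n, hsub.trans hn⟩
    have h1 : QB L a g B ⊆ K' := (q5 K' hK'd hK'l).1 hK'b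
    obtain ⟨hbn, hab⟩ := q4 b hb
    have h2 : b' ∈ f b := h1 hb' b hab.le (hbn m)
    have h3 : b' ∈ h b := hfb h2
    rw [hhb] at h3
    exact hb'K h3
  have hMB : MB L a g B f := ⟨hfdf, hfl, hfs, fun x y _ _ hxy => hfm x y hxy, hbd⟩
  -- (ii)
  have hDom : Dom a g f g := by
    intro k
    have hDk : B.Definable₁ L {x | itr a g k (Iic x) ⊆ f x} := df_sub (df_itr hord haB hgB k) hfdf
    refine (q2 b hb _ hDk).1 ?_
    intro t ht y hby
    by_cases hy : y ∈ QB L a g B
    · have h1 : itr a g k (Iic b) ⊆ itr a g k (Iic y) := SKD_itr_mono a g k (Iic_subset_Iic.2 hby)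
      exact hqD k y hy (h1 ht)
    · have hyG : ∀ n, y ∉ Gn a g n := fun n hn => (q4 b hb).1 n ((hlow n).1 y hn b hby)
      have hnot : ¬ ∀ K : Set U, B.Definable₁ L K → Low K → ¬ Bd a g K → y ∈ K := fun hall =>
        hy (q6 y hyG hall)
      push Not at hnot
      obtain ⟨K2, hK2d, hK2l, hK2b, hyK2⟩ := hnot
      have h1 := (hSQC L U hW C a g hS B hB hCB b hb k).1 K2 hK2d hK2l hK2b
      have htK2 := h1 ht
      have hty : t ≤ y := by
        by_contra h2
        exact hyK2 (hK2l t htK2 y (not_le.mp h2).le)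
      exact hhl y y (hhs y) t hty
  exact hSHK L U hW C a g hS B hB hCB f hMB hDom

end Pool.Agent.WOM
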