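import Pool.Agent.WOM.StS3
import Pool.Agent.WOM.LV0

/-!
WOM [SLE]: the order is decoded.
-/

set_option autoImplicit false
set_option linter.unusedVariables false
set_option linter.unusedSectionVars false

namespace Pool.Agent.WOM

open FirstOrder.Language Set
open scoped FirstOrder
open Pool.Agent.Helper79.VC

namespace SLE

variable {L : FirstOrder.Language.{0, 0}} {U : Type} [S : L.Structure U] [LinearOrder U]

/-- the element `y` is at the position of `q` -/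
def At (L : FirstOrder.Language.{0, 0}) {U : Type} [L.Structure U] [LinearOrder U] (C : Set U)
    (a : U) (g : U → Set U) (b : ℚ → U) (q : ℚ) (y : U) : Prop :=
  y ∈ QB L a g C ∧ ¬ Fr a g y (b q) ∧ ¬ Fr a g (b q) y

/-- constraints -/
def Cs (k : Bool × (ℚ × ℚ)) (q : ℚ) : Prop := if k.1 = true then k.2.1 < q else q < k.2.1

/-- constraints, the other side -/
def Cs' (k : Bool × (ℚ × ℚ)) (q : ℚ) : Prop := if k.1 = true then k.2.2 < q else q < k.2.2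

/-- compatible constraints -/
def Cpt (L : FirstOrder.Language.{0, 0}) {U : Type} [L.Structure U] [LinearOrder U] (C : Set U)
    (a : U) (g : U → Set U) (b : ℚ → U) (K : Set (Bool × (ℚ × ℚ))) (Γ : Set (U × U)) : Prop :=
  ∀ k ∈ K, ∃ y y', (y, y') ∈ Γ ∧ At L C a g b k.2.1 y ∧ At L C a g b k.2.2 y'

/-- the models -/
def Md (L : FirstOrder.Language.{0, 0}) {U : Type} [L.Structure U] [LinearOrder U] (C : Set U)
    (a : U) (g : U → Set U) (b : ℚ → U) (J : Set ℚ) (M : Set U) : Prop :=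
  IsEl L M ∧ C ⊆ M ∧ (∀ q ∈ J, b q ∈ M) ∧
    ∀ x ∈ M, x ∈ QB L a g C → ∃ q ∈ J, ¬ Fr a g x (b q) ∧ ¬ Fr a g (b q) x

theorem lt_iff (hSFR : St_SFR) (hW : Wn L U) {C : Set U} {a : U} {g : U → Set U}
    (hS : Shp L C a g) {b : ℚ → U} (hb : ∀ q q', q < q' → Fr a g (b q) (b q')) {q q' : ℚ}
    {y y' : U} (hy : At L C a g b q y) (hy' : At L C a g b q' y') : q < q' ↔ Fr a g y y' := by
  obtain ⟨-, -, -, f4, -⟩ := hSFR L U hW C a g hS
  have key : ∀ {q q' : ℚ} {y y' : U}, At L C a g b q y → At L C a g b q' y' → q < q' →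
      Fr a g y y' := by
    intro q q' y y' hy hy' hqq
    have h1 : Fr a g y (b q') := (f4 y (b q) (b q') hy.2.1 hy.2.2).1 (hb q q' hqq)
    exact (f4 y' (b q') y hy'.2.1 hy'.2.2).2 h1
  refine ⟨key hy hy', fun h => ?_⟩
  by_contra hc
  rcases eq_or_lt_of_le (not_lt.mp hc) with h1 | h1
  · subst h1
    exact hy'.2.2 ((f4 (b q') y y' hy.2.2 hy.2.1).1 h)
  · exact lt_asymm h.1 (key hy' hy h1).1

/-- one step -/
theorem step (hSFR : St_SFR) (hSQA : St_SQA) [∀ n, IsEmpty (L.Functions n)] (hW : Wn L U)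
    {C : Set U} {a : U} {g : U → Set U} (hS : Shp L C a g) {b : ℚ → U}
    (hbQ : ∀ q, b q ∈ QB L a g C) (hb : ∀ q q', q < q' → Fr a g (b q) (b q'))
    {J J' : Set ℚ} {M M' : Set U} (hM : Md L C a g b J M) (hM' : Md L C a g b J' M')
    {K : Set (Bool × (ℚ × ℚ))} {Γ : Set (U × U)} (hΓ : Γ.Finite)
    (hΓM : ∀ p ∈ Γ, p.1 ∈ M ∧ p.2 ∈ M') (hΓ0 : ∀ c ∈ C, (c, c) ∈ Γ)
    (hK : Cpt L C a g b K Γ) {δ : Ordinal.{0}} (hδ : Ordinal.omega0 ≤ δ) {q : ℚ} (hq : q ∈ J)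
    (hqK : ∀ k ∈ K, Cs k q) {y' : U} (hy' : y' ∈ M')
    (hB : BFR S S M M' δ (insert (b q, y') Γ)) :
    ∃ q' ∈ J', (∀ k ∈ K, Cs' k q') ∧ At L C a g b q' y' := by
  obtain ⟨-, -, -, -, f5⟩ := hSFR L U hW C a g hS
  have hΓ'M : ∀ p ∈ insert (b q, y') Γ, p.1 ∈ M ∧ p.2 ∈ M' := by
    rintro p (rfl | hp)
    · exact ⟨hM.2.2.1 q hq, hy'⟩
    · exact hΓM p hp
  obtain ⟨σ, hσ⟩ := thm_LV0 L U hW.mon M M' (insert (b q, y') Γ) δ hM.1 hM'.1
    (hΓ.insert _) hΓ'M hδ hB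
  have hσC : Fx L C σ := fun c hc => hσ (c, c) (Or.inr (hΓ0 c hc))
  have hσb : σ (b q) = y' := hσ _ (Or.inl rfl)
  have himg : σ '' C = C := by
    ext x
    constructor
    · rintro ⟨c, hc, rfl⟩
      rw [hσC c hc]
      exact hc
    · intro hx
      exact ⟨x, hx, hσC x hx⟩
  obtain ⟨-, -, -, -, -, -, -, -, s9⟩ := hSQA L U hW C a g hS C hS.fin subset_rfl
  have hyQ : y' ∈ QB L a g C := by
    have h1 := s9 σ hσC
    rw [himg] at h1
    rw [h1]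
    exact ⟨b q, hbQ q, hσb⟩
  obtain ⟨q', hq', hn1, hn2⟩ := hM'.2.2.2 y' hy' hyQ
  have hat' : At L C a g b q' y' := ⟨hyQ, hn1, hn2⟩
  have hat : At L C a g b q (b q) :=
    ⟨hbQ q, fun h => lt_irrefl _ h.1, fun h => lt_irrefl _ h.1⟩
  refine ⟨q', hq', ?_, hat'⟩
  intro k hk
  obtain ⟨y, y1, hyy, hy, hy1⟩ := hK k hk
  have h1 : σ y = y1 := hσ _ (Or.inr hyy)
  have hqk := hqK k hk
  unfold Cs at hqk
  unfold Cs'
  split_ifs at hqk ⊢ with hk1
  · rw [lt_iff hSFR hW hS hb hy1 hat', ← hσb, ← h1, f5 σ hσC]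
    exact (lt_iff hSFR hW hS hb hy hat).mp hqk
  · rw [lt_iff hSFR hW hS hb hat' hy1, ← hσb, ← h1, f5 σ hσC]
    exact (lt_iff hSFR hW hS hb hat hy).mp hqk

/-- the interval given by the constraints -/
theorem main (hSFR : St_SFR) (hSQA : St_SQA) [∀ n, IsEmpty (L.Functions n)] (hW : Wn L U)
    {C : Set U} {a : U} {g : U → Set U} (hS : Shp L C a g) {b : ℚ → U}
    (hbQ : ∀ q, b q ∈ QB L a g C) (hb : ∀ q q', q < q' → Fr a g (b q) (b q'))
    {J J' : Set ℚ} {M M' : Set U} (hM : Md L C a g b J M) (hM' : Md L C a g b J' M')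
    (γ : Ordinal.{0}) :
    ∀ (K : Set (Bool × (ℚ × ℚ))) (Γ : Set (U × U)), Γ.Finite → (∀ p ∈ Γ, p.1 ∈ M ∧ p.2 ∈ M') →
    (∀ c ∈ C, (c, c) ∈ Γ) → Cpt L C a g b K Γ →
    BFR S S M M' (Ordinal.omega0 + γ) Γ →
    HER.LE γ {q | q ∈ J ∧ ∀ k ∈ K, Cs k q} {q | q ∈ J' ∧ ∀ k ∈ K, Cs' k q} := by
  induction γ using WellFoundedLT.induction with
  | _ γ ih =>
    intro K Γ hΓ hΓM hΓ0 hK hB
    rw [HER.LE]
    intro β hβ
    have hlt : Ordinal.omega0 + β < Ordinal.omega0 + γ := by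
      rw [add_lt_add_iff_left]
      exact hβ
    have hδ : Ordinal.omega0 ≤ Ordinal.omega0 + β := le_self_add
    have fin : ∀ (q q' : ℚ) (Γ' : Set (U × U)), Γ ⊆ Γ' → Γ'.Finite →
        (∀ p ∈ Γ', p.1 ∈ M ∧ p.2 ∈ M') → BFR S S M M' (Ordinal.omega0 + β) Γ' →
        (∃ y y', (y, y') ∈ Γ' ∧ At L C a g b q y ∧ At L C a g b q' y') →
        HER.LE β ({q | q ∈ J ∧ ∀ k ∈ K, Cs k q} ∩ Iio q)
          ({q | q ∈ J' ∧ ∀ k ∈ K, Cs' k q} ∩ Iio q') ∧
        HER.LE β ({q | q ∈ J ∧ ∀ k ∈ K, Cs k q} ∩ Ioi q)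
          ({q | q ∈ J' ∧ ∀ k ∈ K, Cs' k q} ∩ Ioi q') := by
      intro q q' Γ' hs hf hM1 hB2 hy
      have hc : ∀ t : Bool, Cpt L C a g b (insert (t, (q, q')) K) Γ' := by
        intro t k hk
        rcases hk with rfl | hk
        · exact hy
        · obtain ⟨y, y', h3, h4, h5⟩ := hK k hk
          exact ⟨y, y', hs h3, h4, h5⟩
      have e1 : ∀ (I : Set ℚ), ({a | a ∈ I ∧ ∀ k ∈ K, Cs k a} ∩ Iio q : Set ℚ) =
          {a | a ∈ I ∧ ∀ k ∈ insert (false, (q, q')) K, Cs k a} := by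
        intro I
        ext a
        simp only [mem_inter_iff, mem_ofPred_eq, mem_Iio, mem_insert_iff, forall_eq_or_imp, Cs]
        simp only [Bool.false_eq_true, if_false]
        tauto
      have e2 : ∀ (I : Set ℚ), ({a | a ∈ I ∧ ∀ k ∈ K, Cs' k a} ∩ Iio q' : Set ℚ) =
          {a | a ∈ I ∧ ∀ k ∈ insert (false, (q, q')) K, Cs' k a} := by
        intro I
        ext a
        simp only [mem_inter_iff, mem_ofPred_eq, mem_Iio, mem_insert_iff, forall_eq_or_imp, Cs']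
        simp only [Bool.false_eq_true, if_false]
        tauto
      have e3 : ∀ (I : Set ℚ), ({a | a ∈ I ∧ ∀ k ∈ K, Cs k a} ∩ Ioi q : Set ℚ) =
          {a | a ∈ I ∧ ∀ k ∈ insert (true, (q, q')) K, Cs k a} := by
        intro I
        ext a
        simp only [mem_inter_iff, mem_ofPred_eq, mem_Ioi, mem_insert_iff, forall_eq_or_imp, Cs]
        simp only [if_true]
        tauto
      have e4 : ∀ (I : Set ℚ), ({a | a ∈ I ∧ ∀ k ∈ K, Cs' k a} ∩ Ioi q' : Set ℚ) =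
          {a | a ∈ I ∧ ∀ k ∈ insert (true, (q, q')) K, Cs' k a} := by
        intro I
        ext a
        simp only [mem_inter_iff, mem_ofPred_eq, mem_Ioi, mem_insert_iff, forall_eq_or_imp, Cs']
        simp only [if_true]
        tauto
      have g0 : ∀ c ∈ C, (c, c) ∈ Γ' := fun c hc => hs (hΓ0 c hc)
      refine ⟨?_, ?_⟩
      · rw [e1 J, e2 J']
        exact ih β hβ _ Γ' hf hM1 g0 (hc false) hB2
      · rw [e3 J, e4 J']
        exact ih β hβ _ Γ' hf hM1 g0 (hc true) hB2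
    have hat : ∀ q, At L C a g b q (b q) := fun q =>
      ⟨hbQ q, fun h => lt_irrefl _ h.1, fun h => lt_irrefl _ h.1⟩
    refine ⟨?_, ?_⟩
    · rintro q ⟨hq, hqK⟩
      obtain ⟨y', hy', hB'⟩ := hB.forth hlt (hM.2.2.1 q hq)
      obtain ⟨q', hq', hqK', hat'⟩ := step hSFR hSQA hW hS hbQ hb hM hM' hΓ hΓM hΓ0 hK hδ hq hqK
        hy' hB'
      refine ⟨q', ⟨hq', hqK'⟩, fin q q' _ (subset_insert _ _) (hΓ.insert _) ?_ hB'
        ⟨b q, y', Or.inl rfl, hat q, hat'⟩⟩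
      rintro p (rfl | hp)
      · exact ⟨hM.2.2.1 q hq, hy'⟩
      · exact hΓM p hp
    · rintro q' ⟨hq', hqK'⟩
      obtain ⟨y, hy, hB'⟩ := hB.back hlt (hM'.2.2.1 q' hq')
      have hΓs : (Prod.swap ⁻¹' Γ).Finite := hΓ.preimage Prod.swap_injective.injOn
      let K' : Set (Bool × (ℚ × ℚ)) := {k | (k.1, (k.2.2, k.2.1)) ∈ K}
      have hK' : Cpt L C a g b K' (Prod.swap ⁻¹' Γ) := by
        intro k hk
        obtain ⟨y, y', h3, h4, h5⟩ := hK _ hk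
        exact ⟨y', y, h3, h5, h4⟩
      have hqK'' : ∀ k ∈ K', Cs k q' := fun k hk => hqK' _ hk
      have hBs : BFR S S M' M (Ordinal.omega0 + β) (insert (b q', y) (Prod.swap ⁻¹' Γ)) := by
        refine BFR.anti ?_ hB'.swap
        rintro p (rfl | hp)
        · exact Or.inl rfl
        · exact Or.inr hp
      obtain ⟨q, hq, hqK, hat1⟩ := step hSFR hSQA hW hS hbQ hb hM' hM hΓs
        (fun p hp => ⟨(hΓM _ hp).2, (hΓM _ hp).1⟩) (fun c hc => hΓ0 c hc) hK' hδ hq' hqK'' hy hBs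
      have hqK2 : ∀ k ∈ K, Cs k q := fun k hk => hqK (k.1, (k.2.2, k.2.1)) hk
      refine ⟨q, ⟨hq, hqK2⟩, fin q q' _ (subset_insert _ _) (hΓ.insert _) ?_ hB'
        ⟨y, b q', Or.inl rfl, hat1, hat q'⟩⟩
      rintro p (rfl | hp)
      · exact ⟨hy, hM'.2.2.1 q' hq'⟩
      · exact hΓM p hp

end SLE

theorem thm_SLE (hSFR : St_SFR) (hSQA : St_SQA) : St_SLE := by
  intro L _ U S _ hW C a g hS b hbQ hb J J' M M' γ hM hM' hB
  have h := SLE.main hSFR hSQA hW hS hbQ hb hM hM' γ ∅ {p | p.1 = p.2 ∧ p.1 ∈ C} ?_ ?_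
    (fun c hc => ⟨rfl, hc⟩) (fun k hk => absurd hk (by simp)) hB
  · simpa using h
  · refine (hS.fin.image fun c => (c, c)).subset ?_
    rintro ⟨x, y⟩ ⟨h1, h2⟩
    exact ⟨x, h2, by simpa using h1⟩
  · rintro ⟨x, y⟩ ⟨h1, h2⟩
    simp only at h1 h2
    subst h1
    exact ⟨hM.2.1 h2, hM'.2.1 h2⟩

end Pool.Agent.WOM
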