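import Pool.Agent.WOM.SDF

/-!
WOM, shift theorem: Lemma P (proof by helper89 of the statement `St_SLP` of helper41).
-/

set_option autoImplicit false
set_option linter.unusedVariables false

namespace Pool.Agent.WOM

open FirstOrder.Language Set
open scoped FirstOrder

theorem thm_SLP (hSBAS : St_SBAS) (hSEXT : St_SEXT) (hSEV : St_SEV) (hSIT : St_SIT) : St_SLP := by
  intro L U _ _ hW C a g hg B hBf hCB u f hu hSp hf hDom
  obtain ⟨⟨b1, b1'⟩, b2, b3, b4, b5, b5', b6, b7, b8⟩ := hSBAS L U hW C a g hg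
  obtain ⟨e1, e2, e3, e4, e5, e6, e7, e8, e9, e10, e11⟩ := hSEXT L U hW C a g hg B hBf hCB
  obtain ⟨v1, v2, v3, v4, v5⟩ := hSEV L U hW C a g hg B hBf
  have haB : a ∈ B := hCB hg.aC
  have lowc : ∀ K : Set U, Low K → ∀ y ∈ K, ∀ z, z ∉ K → y < z := by
    intro K hK y hy z hz
    by_contra hlt
    exact hz (hK y hy z (not_lt.1 hlt))
  have extm : ∀ (w : U → Set U) (K K' : Set U), K ⊆ K' → ext a w K ⊆ ext a w K' := by
    rintro w K K' hKK t ⟨y, hay, hyK, hty⟩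
    exact ⟨y, hay, hKK hyK, hty⟩
  rcases v3 (fun x => ext a f (u x)) (fun x => ext a u (f x)) (df_comp hW.ord haB hf.df hu.df)
    (df_comp hW.ord haB hu.df hf.df) with hE | hE
  swap
  · exact hE
  exfalso
  obtain ⟨m1, hm1⟩ := hE
  obtain ⟨m2, hm2⟩ := hSIT L U hW C a g hg B hBf hCB u hu hSp
  obtain ⟨m3, hm3⟩ := hSp
  obtain ⟨x0, hx0, hx0m⟩ := b4 (m1 + m2 + m3)
  have hGx : ∀ i, i ≤ m1 + m2 + m3 → ∀ x, x0 ≤ x → Gn a g i ⊆ Iic x := by
    intro i hi x hx y hy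
    exact (lowc _ (b1 (m1 + m2 + m3)).1 y (b1' i _ hi hy) x0 hx0m).le.trans hx
  have hnG : ∀ i, i ≤ m1 + m2 + m3 → ∀ x, x0 ≤ x → x ∉ Gn a g i := by
    intro i hi x hx hxi
    exact hx0m (b1' i _ hi ((b1 i).1 x hxi x0 hx))
  have hIl : ∀ x : U, Low (Iic x) := fun x y hy z hz => hz.trans hy
  have hIb : ∀ x : U, EE a g x → Bd a g (Iic x) := by
    rintro x ⟨-, n, hn⟩
    exact ⟨n, fun y hy => (b1 n).1 x hn y hy⟩
  obtain ⟨c, hc⟩ : ∃ c : ℕ → Set U, c = fun k => itr a u k (Iic x0) := ⟨_, rfl⟩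
  have hck : ∀ k, Low (c k) ∧ a ∈ c k ∧ Bd a g (c k) ∧ Iic x0 ⊆ c k ∧ ∀ j ≤ k, c j ⊆ c k := by
    intro k
    rw [hc]
    exact e11 u k (Iic x0) hu (hIl x0) hx0.1 (hIb x0 hx0)
  have hc0 : c 0 = Iic x0 := by
    rw [hc]
    rfl
  have hcs : ∀ k, c (k + 1) = ext a u (c k) := by
    intro k
    rw [hc]
    exact Function.iterate_succ_apply' _ _ _
  have hcof : ∀ n, ∃ k, Gn a g n ⊆ c k := by
    intro n
    rw [hc]
    exact hm2 (Iic x0) (hIl x0) (hGx m2 (by omega) x0 le_rfl) (hIb x0 hx0) n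
  -- (1)
  have h1 : ∀ k, ext a f (c (k + 1)) ⊆ ext a u (ext a f (c k)) := by
    rintro k t ⟨y, hay, hy, hty⟩
    rw [hcs] at hy
    obtain ⟨x, hax, hx, hyx⟩ := hy
    have hmk : max x x0 ∈ c k := by
      rcases max_choice x x0 with h | h
      · rw [h]
        exact hx
      · rw [h]
        exact (hck k).2.2.2.1 le_rfl
    obtain ⟨n, hn⟩ := (hck k).2.2.1
    have hEx : EE a g x := ⟨hax, n, hn hx⟩
    have hEm : EE a g (max x x0) := ⟨hax.trans (le_max_left _ _), n, hn hmk⟩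
    have hym : y ∈ u (max x x0) := hu.mono _ _ hEx hEm (le_max_left _ _) hyx
    have ht : t ∈ ext a u (f (max x x0)) :=
      hm1 _ hEm (hnG m1 (by omega) _ (le_max_right _ _)) ⟨y, hay, hym, hty⟩
    refine extm u _ _ ?_ ht
    intro z hz
    exact ⟨max x x0, hax.trans (le_max_left _ _), hmk, hz⟩
  -- (2)
  obtain ⟨n0, hn0⟩ := e3 f hf (c 0) (hck 0).1 (hck 0).2.2.1
  obtain ⟨j, hj⟩ := hcof n0
  have h2 : ∀ k, ext a f (c k) ⊆ c (k + j) := by
    intro k
    induction k with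
    | zero =>
      rw [Nat.zero_add]
      exact hn0.trans hj
    | succ k ih =>
      have h3 : k + 1 + j = k + j + 1 := by omega
      rw [h3, hcs (k + j)]
      exact (h1 k).trans (extm u _ _ ih)
  -- (3)
  have h3 : ∀ y, EE a g y → y ∉ c 0 → ¬ itr a u (j + 2) (Iic y) ⊆ f y := by
    intro y hy hy0 hsub
    have hex : ∃ k, y ∈ c k := by
      obtain ⟨-, n, hn⟩ := hy
      obtain ⟨k, hk⟩ := hcof n
      exact ⟨k, hk hn⟩
    obtain ⟨k, hk, hk'⟩ : ∃ k, y ∈ c (k + 1) ∧ y ∉ c k := by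
      classical
      have hfd := Nat.find_spec hex
      have hmn := fun i (hi : i < Nat.find hex) => Nat.find_min hex hi
      obtain ⟨i, hi⟩ : ∃ i, i = Nat.find hex := ⟨_, rfl⟩
      rw [← hi] at hfd hmn
      cases i with
      | zero => exact absurd hfd hy0
      | succ i => exact ⟨i, hfd, hmn i (Nat.lt_succ_self i)⟩
    have hxy : x0 ≤ y := (lowc _ (hck k).1 x0 ((hck k).2.2.2.1 le_rfl) y hk').le
    have hcy : c k ⊆ Iic y := fun z hz => (lowc _ (hck k).1 z hz y hk').le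
    have h4 : f y ⊆ c (k + 1 + j) := by
      refine Subset.trans ?_ (h2 (k + 1))
      intro t ht
      exact ⟨y, hy.1, hk, ht⟩
    have h5 : c (k + 1 + j) = itr a u (j + 1) (c k) := by
      have h6 : k + 1 + j = (j + 1) + k := by omega
      rw [h6, hc]
      exact Function.iterate_add_apply _ _ _ _
    have h7 : c (k + 1 + j) ⊆ itr a u (j + 1) (Iic y) := by
      rw [h5]
      exact e9 u _ _ (j + 1) hcy
    obtain ⟨g1, g2, g3, g4, g5⟩ := e11 u (j + 1) (Iic y) hu (hIl y) hy.1 (hIb y hy)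
    refine hm3 (itr a u (j + 1) (Iic y)) g1 ((hGx m3 (by omega) y hxy).trans g4) g3 ?_
    have h8 : itr a u (j + 2) (Iic y) = ext a u (itr a u (j + 1) (Iic y)) :=
      Function.iterate_succ_apply' _ _ _
    rw [← h8]
    exact hsub.trans (h4.trans h7)
  -- (4)
  obtain ⟨m4, hm4⟩ := hDom (j + 2)
  obtain ⟨N, hN⟩ := (hck 0).2.2.1
  obtain ⟨y, hy, hym⟩ := b4 (m4 + N)
  exact h3 y hy (fun h => hym (b1' N _ (by omega) (hN h)))
    (hm4 y hy fun h => hym (b1' m4 _ (by omega) h))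

end Pool.Agent.WOM
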