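import Pool.Agent.WOM.StS3

/-!
WOM, [SMJ]: the models `M_J`.
-/

set_option autoImplicit false

namespace Pool.Agent.WOM

open FirstOrder.Language Set
open scoped FirstOrder

theorem thm_SMJ (hSRF : St_SRF) (hSMM : St_SMM) : St_SMJ := by
  intro L U _ _ hW C a g hS b hb hfar J
  have himg : ∀ F : Set ℚ, ∀ x ∈ b '' F, ∀ y ∈ b '' F, x < y → Fr a g x y := by
    rintro F _ ⟨q, _, rfl⟩ _ ⟨q', _, rfl⟩ hlt
    rcases lt_trichotomy q q' with h | h | h
    · exact hfar q q' h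
    · subst h
      exact absurd hlt (lt_irrefl _)
    · exact absurd hlt (not_lt.2 (hfar q' q h).1.le)
  have hsub : ∀ F : Set ℚ, b '' F ⊆ QB L a g C := by
    rintro F _ ⟨q, _, rfl⟩
    exact hb q
  obtain ⟨M, h1, h2, h3, h4⟩ := hSMM L U hW C b J hS.fin (by
    intro F hF _ q _ hqF
    refine hSRF L U hW C a g hS (b '' F) (hF.image b) (hsub F) (himg F) (b q) (hb q) ?_
    rintro _ ⟨q', hq', rfl⟩
    rcases lt_trichotomy q q' with h | h | h
    · exact Or.inl (hfar q q' h)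
    · exact absurd (h ▸ hq') hqF
    · exact Or.inr (hfar q' q h))
  refine ⟨M, h1, h2, h3, ?_⟩
  intro x hx hxQ
  obtain ⟨F, hF, hFJ, hI⟩ := h4 x hx
  by_contra hcon
  refine hSRF L U hW C a g hS (b '' F) (hF.image b) (hsub F) (himg F) x hxQ ?_ hI
  rintro _ ⟨q, hq, rfl⟩
  by_contra hn
  rw [not_or] at hn
  exact hcon ⟨q, hFJ hq, hn.1, hn.2⟩

end Pool.Agent.WOM
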