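import Pool.Agent.WOM.StS3
import Pool.Agent.WOM.DNS
import Pool.Agent.WOM.ORB
import Pool.Agent.WOM.DEF1
import Pool.Agent.WOM.GNC

/-!
WOM, SHIFT THEOREM, [SMM]: models over a sequence (helper42 for helper41).
-/

set_option autoImplicit false
set_option linter.unusedVariables false
set_option linter.style.haveILetI false

namespace Pool.Agent.WOM

open FirstOrder.Language Set
open scoped FirstOrder

section

variable (L : FirstOrder.Language.{0, 0}) {U : Type} [L.Structure U]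

/-- the invariant of the construction -/
def SMM_P (A₀ : Set U) (b : ℚ → U) (J : Set ℚ) (c : Set ℚ × Set U) : Prop :=
  c.1.Finite ∧ c.1 ⊆ J ∧ Atm L (A₀ ∪ b '' c.1) c.2

/-- what is done for a task -/
def SMM_R (b : ℚ → U) (J : Set ℚ) : ℚ ⊕ (Finset U × U) → Set ℚ × Set U → Set ℚ × Set U → Prop
  | Sum.inl q, _, c' => q ∈ J → b q ∈ c'.2
  | Sum.inr p, c, c' => (p.1 : Set U) ⊆ c.2 → Isd L (p.1 : Set U) p.2 →
      ∃ y ∈ c'.2, y ∈ Orb L (p.1 : Set U) p.2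

end

theorem thm_SMM (hSAT : St_SAT) : St_SMM := by
  intro L U _ _ hU A₀ b J hA₀ hb
  haveI : Countable U := hU.mon.ctb
  haveI : Infinite U := hU.mon.inf
  obtain ⟨o1, o2, o3, o4, o5, o6, o7, o8, o9⟩ := thm_ORB (thm_DEF1 thm_DEFF) L U hU.mon
  have hdns := thm_DNS (thm_ORB (thm_DEF1 thm_DEFF)) L U hU.mon
  have hAf : ∀ F : Set ℚ, F.Finite → (A₀ ∪ b '' F).Finite := fun F hF => hA₀.union (hF.image b)
  have hins : ∀ (F : Set ℚ) (q : ℚ), A₀ ∪ b '' (insert q F) = insert (b q) (A₀ ∪ b '' F) := by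
    intro F q
    rw [image_insert_eq, union_insert]
  have step : ∀ (τ : ℚ ⊕ (Finset U × U)) (c : Set ℚ × Set U), SMM_P L A₀ b J c →
      ∃ c' : Set ℚ × Set U, SMM_P L A₀ b J c' ∧ c.2 ⊆ c'.2 ∧ SMM_R L b J τ c c' := by
    rintro (q | p) ⟨F, D⟩ ⟨hF, hFJ, hD⟩
    · have hS := hSAT L U hU (A₀ ∪ b '' F) (hAf F hF) D hD
      by_cases hq : q ∈ J
      · by_cases hqF : q ∈ F
        · exact ⟨(F, D), ⟨hF, hFJ, hD⟩, Subset.rfl, fun _ => hS.1.2 (Or.inr ⟨q, hqF, rfl⟩)⟩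
        · have h1 := (hS.2.1 (b q) (hb F hF hFJ q hq hqF)).2
          refine ⟨(insert q F, insert (b q) D), ⟨hF.insert q, insert_subset hq hFJ, ?_⟩,
            subset_insert _ _, fun _ => mem_insert _ _⟩
          show Atm L (A₀ ∪ b '' (insert q F)) (insert (b q) D)
          rw [hins]
          exact h1
      · exact ⟨(F, D), ⟨hF, hFJ, hD⟩, Subset.rfl, fun h => absurd h hq⟩
    · have hS := hSAT L U hU (A₀ ∪ b '' F) (hAf F hF) D hD
      by_cases h1 : (p.1 : Set U) ⊆ D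
      · by_cases h2 : Isd L (p.1 : Set U) p.2
        · obtain ⟨y, hy, hyi⟩ := hdns D (Orb L (p.1 : Set U) p.2) hS.1.1
            (Set.Definable.mono h2 h1) ⟨p.2, o1 _ _⟩
          exact ⟨(F, insert y D), ⟨hF, hFJ, Atm.step D y hD hyi⟩, subset_insert _ _,
            fun _ _ => ⟨y, mem_insert _ _, hy⟩⟩
        · exact ⟨(F, D), ⟨hF, hFJ, hD⟩, Subset.rfl, fun _ h => absurd h h2⟩
      · exact ⟨(F, D), ⟨hF, hFJ, hD⟩, Subset.rfl, fun h _ => absurd h h1⟩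
  choose f hf1 hf2 hf3 using step
  obtain ⟨e, he⟩ := GNC_enum (ℚ ⊕ (Finset U × U))
  have h0 : SMM_P L A₀ b J ((∅, A₀) : Set ℚ × Set U) := by
    refine ⟨finite_empty, empty_subset _, ?_⟩
    show Atm L (A₀ ∪ b '' ∅) A₀
    rw [image_empty, union_empty]
    exact Atm.base
  let cc : ℕ → {c : Set ℚ × Set U // SMM_P L A₀ b J c} := fun n =>
    Nat.rec (motive := fun _ => {c : Set ℚ × Set U // SMM_P L A₀ b J c})
      ⟨(∅, A₀), h0⟩ (fun j c => ⟨f (e j) c.1 c.2, hf1 _ _ _⟩) n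
  let c : ℕ → Set ℚ × Set U := fun n => (cc n).1
  have hcP : ∀ j, SMM_P L A₀ b J (c j) := fun j => (cc j).2
  have hc1 : ∀ j, (c j).2 ⊆ (c (j + 1)).2 := fun j => hf2 (e j) (cc j).1 (cc j).2
  have hcR : ∀ j, SMM_R L b J (e j) (c j) (c (j + 1)) := fun j => hf3 (e j) (cc j).1 (cc j).2
  have hD : ∀ i j, i ≤ j → (c i).2 ⊆ (c j).2 := by
    intro i j hij
    induction j, hij using Nat.le_induction with
    | base => exact Subset.rfl
    | succ j _ ih => exact ih.trans (hc1 j)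
  have hfin := GNC_fin (fun j => (c j).2) hD
  refine ⟨⋃ j, (c j).2, ?_, ?_, ?_, ?_⟩
  · intro s hs hne
    obtain ⟨B, hB, hBs⟩ := definable_iff_finitely_definable.1 hs
    obtain ⟨x, hx, hxi⟩ := hdns (B : Set U) s B.finite_toSet hBs hne
    obtain ⟨j, -, hj⟩ := hfin (B : Set U) B.finite_toSet hB 0
    obtain ⟨j', hj', hej⟩ := he (Sum.inr (B, x)) j
    have h1 := hcR j'
    rw [hej] at h1
    obtain ⟨y, hy, hyo⟩ := h1 (hj.trans (hD _ _ hj')) hxi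
    exact ⟨y, o6 _ _ hBs x hx hyo, mem_iUnion.2 ⟨j' + 1, hy⟩⟩
  · exact fun x hx => mem_iUnion.2 ⟨0, hx⟩
  · intro q hq
    obtain ⟨j, -, hj⟩ := he (Sum.inl q) 0
    have h1 := hcR j
    rw [hj] at h1
    exact mem_iUnion.2 ⟨j + 1, h1 hq⟩
  · intro x hx
    obtain ⟨j, hj⟩ := mem_iUnion.1 hx
    obtain ⟨hF, hFJ, hDj⟩ := hcP j
    exact ⟨(c j).1, hF, hFJ, (hSAT L U hU _ (hAf _ hF) _ hDj).2.2 x hj⟩

end Pool.Agent.WOM
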