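import Pool.Agent.WOM.SDF

/-!
WOM: proof of `St_SMOD`: modification of a function which has the properties only eventually.
-/

set_option autoImplicit false
set_option linter.unusedVariables false

namespace Pool.Agent.WOM

open FirstOrder.Language Set
open scoped FirstOrder

theorem SMOD_low {U : Type} [LinearOrder U] {a : U} {g : U → Set U} (hg : ∀ x, Low (g x)) (n : ℕ) :
    Low (Gn a g n) := by
  cases n with
  | zero =>
    intro x hx y hy
    exact hy.trans hx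
  | succ n =>
    rintro x ⟨z, hz1, hz2, hz3⟩ y hy
    exact ⟨z, hz1, hz2, hg z x hz3 y hy⟩

theorem thm_SMOD : St_SMOD := by
  intro L U _ _ hW C a g hS B hB hCB u hu hlow hself m hmono hbd
  classical
  have haB : a ∈ B := hCB hS.aC
  have hgB : DF L B g := Set.Definable.mono hS.df hCB
  have hG : B.Definable₁ L (Gn a g m) := df_Gn hW.ord haB hgB m
  have hGl : ∀ n, Low (Gn a g n) := SMOD_low hS.low
  have hdf : DF L B (fun x => {t | (x ∈ Gn a g m ∧ t ≤ x) ∨ (x ∉ Gn a g m ∧ t ∈ u x)}) := by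
    have h1 : B.Definable L {w : Fin 2 → U |
        (w 0 ∈ Gn a g m ∧ w 1 ≤ w 0) ∨ (¬ w 0 ∈ Gn a g m ∧ w 1 ∈ u (w 0))} :=
      Dx.or (Dx.and (Dx.one hG 0) (Dx.le hW.ord B 1 0)) (Dx.and (Dx.not (Dx.one hG 0)) hu)
    exact h1
  refine ⟨fun x => {t | (x ∈ Gn a g m ∧ t ≤ x) ∨ (x ∉ Gn a g m ∧ t ∈ u x)},
    ⟨hdf, ?_, ?_, ?_, ?_⟩, ?_⟩
  · rintro x t (⟨h1, h2⟩ | ⟨h1, h2⟩) s hs
    · exact Or.inl ⟨h1, hs.trans h2⟩
    · exact Or.inr ⟨h1, hlow x t h2 s hs⟩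
  · intro x
    by_cases hx : x ∈ Gn a g m
    · exact Or.inl ⟨hx, le_rfl⟩
    · exact Or.inr ⟨hx, hself x⟩
  · rintro x y hx hy hxy t (⟨h1, h2⟩ | ⟨h1, h2⟩)
    · by_cases hym : y ∈ Gn a g m
      · exact Or.inl ⟨hym, h2.trans hxy⟩
      · exact Or.inr ⟨hym, hlow y y (hself y) t (h2.trans hxy)⟩
    · exact Or.inr ⟨fun hym => h1 (hGl m y hym x hxy), hmono x y hx hy h1 hxy h2⟩
  · intro x hx
    by_cases hxm : x ∈ Gn a g m
    · obtain ⟨_, n, hn⟩ := hx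
      refine ⟨n, ?_⟩
      rintro t (⟨h1, h2⟩ | ⟨h1, h2⟩)
      · exact hGl n x hn t h2
      · exact absurd hxm h1
    · obtain ⟨n, hn⟩ := hbd x hx hxm
      refine ⟨n, ?_⟩
      rintro t (⟨h1, h2⟩ | ⟨h1, h2⟩)
      · exact absurd h1 hxm
      · exact hn h2
  · intro x hx hxm
    ext t
    constructor
    · rintro (⟨h1, h2⟩ | ⟨h1, h2⟩)
      · exact absurd h1 hxm
      · exact h2
    · intro ht
      exact Or.inr ⟨hxm, ht⟩

end Pool.Agent.WOM
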