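import Pool.Agent.WOM.StS3
import Pool.Agent.HER.LOF

/-! WOM: module SNO, the shift theorem for normalised shifts (helper63). -/

set_option autoImplicit false

namespace Pool.Agent.WOM

open FirstOrder.Language Set
open scoped FirstOrder

theorem thm_SNO (hSRQ : St_SRQ) (hSMJ : St_SMJ) (hSLE : St_SLE) : St_SNO := by
  intro L _ U S _ hW hSc C a g hN
  obtain ⟨b, hb1, hb2⟩ := hSRQ L U hW C a g hN
  obtain ⟨I, γ, hγ, -, hI⟩ := HER.thm_LOF
  choose X hXe hXC hXb hXn using fun f : ℕ → Bool => hSMJ L U hW C a g hN b hb1 hb2 (I f)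
  obtain ⟨n, d, hd⟩ : ∃ (n : ℕ) (d : Fin n → U), range d = C := by
    have := hN.fin.fintype
    refine ⟨Fintype.card C, fun i => ((Fintype.equivFin C).symm i : U), ?_⟩
    ext y
    constructor
    · rintro ⟨i, rfl⟩
      exact ((Fintype.equivFin C).symm i).2
    · intro hy
      exact ⟨Fintype.equivFin C ⟨y, hy⟩, by simp⟩
  have hlt : Ordinal.omega0 + γ < Pool.Agent.Helper79.VC.om1 :=
    Pool.Agent.Helper79.VC.add_lt_om1 Pool.Agent.Helper79.VC.omega_lt_om1 hγ
  obtain ⟨f, h, hfh, hB⟩ := hSc X n d _ hlt fun f => ⟨hXe f, fun i =>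
    hXC f (hd ▸ mem_range_self i)⟩
  apply hfh
  apply hI
  have hp : HERN.prs d d = {p : U × U | p.1 = p.2 ∧ p.1 ∈ C} := by
    ext ⟨x, y⟩
    constructor
    · rintro ⟨i, hi⟩
      have h1 : d i = x := congrArg Prod.fst hi
      have h2 : d i = y := congrArg Prod.snd hi
      refine ⟨h1.symm.trans h2, ?_⟩
      show x ∈ C
      rw [← h1, ← hd]
      exact mem_range_self i
    · rintro ⟨h1, h2⟩
      have h1' : x = y := h1
      have h2' : x ∈ C := h2
      rw [← hd] at h2'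
      obtain ⟨i, hi⟩ := h2'
      exact ⟨i, Prod.ext hi (hi.trans h1')⟩
  rw [hp] at hB
  exact hSLE L U hW C a g hN b hb1 hb2 (I f) (I h) (X f) (X h) γ
    ⟨hXe f, hXC f, hXb f, hXn f⟩ ⟨hXe h, hXC h, hXb h, hXn h⟩ hB

end Pool.Agent.WOM
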