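import Pool.Agent.WOM.StS3
import Pool.Agent.WOM.SDF

/-!
WOM: the shift theorem from the normalised one (proof of `St_SNS`).
-/

set_option autoImplicit false

namespace Pool.Agent.WOM

open FirstOrder.Language Set
open scoped FirstOrder

section

variable {U : Type} [LinearOrder U]

/-- the increasing hull of `g` -/
def SNS_g (a : U) (g : U → Set U) (x : U) : Set U := ext a g (Iic x) ∪ Iic x

theorem SNS_low {a : U} {g : U → Set U} (h : ∀ x, Low (g x)) (K : Set U) : Low (ext a g K) := by
  rintro t ⟨y, h1, h2, h3⟩ s hs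
  exact ⟨y, h1, h2, h y t h3 s hs⟩

theorem SNS_Gn {a : U} {g : U → Set U} (h : ∀ x, Low (g x)) (n : ℕ) : Low (Gn a g n) := by
  cases n with
  | zero => exact fun x hx y hy => le_trans hy hx
  | succ n => exact SNS_low h _

theorem SNS_ext {a : U} {g : U → Set U} (hl : ∀ x, Low (g x)) (hs : ∀ x, x ∈ g x) {K : Set U}
    (hK : Low K) : ext a (SNS_g a g) K = ext a g K := by
  apply Set.Subset.antisymm
  · rintro t ⟨y, h1, h2, h3 | h3⟩
    · obtain ⟨z, h4, h5, h6⟩ := h3
      exact ⟨z, h4, hK y h2 z h5, h6⟩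
    · exact ⟨y, h1, h2, hl y y (hs y) t h3⟩
  · rintro t ⟨y, h1, h2, h3⟩
    exact ⟨y, h1, h2, Or.inl ⟨y, h1, le_refl y, h3⟩⟩

end

theorem thm_SNS (hSNO : St_SNO) : St_SNS := by
  intro L _ U S _ hW hSc A a g hA hdf hlow hself
  by_contra hno
  have hno' : ∀ n, ¬ Gn a g (n + 1) ⊆ Gn a g n := fun n h => hno ⟨n, h⟩
  have hG : ∀ n, Gn a (SNS_g a g) n = Gn a g n := by
    intro n
    induction n with
    | zero => rfl
    | succ n ih =>
      change ext a (SNS_g a g) (Gn a (SNS_g a g) n) = ext a g (Gn a g n)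
      rw [ih]
      exact SNS_ext hlow hself (SNS_Gn hlow n)
  have ha : a ∈ insert a A := Set.mem_insert a A
  have hC : DF L (insert a A) g := Set.Definable.mono hdf (Set.subset_insert a A)
  refine hSNO L U hW hSc (insert a A) a (SNS_g a g)
    { fin := hA.insert a
      aC := ha
      df := df_union (df_comp hW.ord ha hC (df_Iic hW.ord _)) (df_Iic hW.ord _)
      low := ?_
      self := ?_
      mono := ?_
      strict := ?_ }
  · rintro x t (h | h) s hs
    · exact Or.inl (SNS_low hlow _ t h s hs)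
    · exact Or.inr (le_trans hs h)
  · intro x
    exact Or.inr (le_refl x)
  · rintro x y _ hxy t (⟨z, h1, h2, h3⟩ | h)
    · exact Or.inl ⟨z, h1, le_trans h2 hxy, h3⟩
    · exact Or.inr (le_trans h hxy)
  · intro n
    rw [hG, hG]
    exact Set.not_subset.1 (hno' n)

end Pool.Agent.WOM
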