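import Pool.Agent.WOM.StS3
import Pool.Agent.WOM.SDF

/-!
WOM, shift theorem: the limit type `QB` (proof by helper34 of the statement `St_SQA` of helper41).
-/

set_option autoImplicit false
set_option linter.unusedVariables false

namespace Pool.Agent.WOM

open FirstOrder.Language Set
open scoped FirstOrder

theorem thm_SQA (hORB : St_ORB) (hSBAS : St_SBAS) (hSEV : St_SEV) (hSFX : St_SFX) : St_SQA := by
  intro L U _ _ hW C a g hg B hBf hCB
  obtain ⟨⟨b1, b1'⟩, b2, b3, b4, b5, b5', b6, b7, b8⟩ := hSBAS L U hW C a g hg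
  obtain ⟨v1, v2, v3, v4, v5⟩ := hSEV L U hW C a g hg B hBf
  obtain ⟨o1, o2, o3, o4, o5, o6, o7, o8, o9⟩ := hORB L U hW.mon
  obtain ⟨f1, f2, f3, f4, f5, f6⟩ := hSFX L U hW.mon
  -- 1
  have h1 : (QB L a g B).Nonempty := by
    have hfin : ∀ G : Set (Set U), G.Finite →
        G ⊆ {D : Set U | B.Definable₁ L D ∧ Ev a g (fun y => y ∈ D)} →
          Ev a g (fun y => y ∈ ⋂₀ G) := by
      intro G hG
      induction G, hG using Set.Finite.induction_on with
      | empty =>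
        intro _
        exact ⟨0, fun x _ _ s hs => absurd hs (Set.notMem_empty s)⟩
      | @insert D G _ _ ih =>
        intro hsub
        have h2 := ih fun s hs => hsub (Set.mem_insert_of_mem _ hs)
        have h3 := (hsub (Set.mem_insert D G)).2
        refine v5 _ _ ?_ (v4 _ _ h3 h2)
        intro x hx
        rw [Set.sInter_insert]
        exact ⟨hx.1, hx.2⟩
    have h2 := hW.mon.sat B hBf {D : Set U | B.Definable₁ L D ∧ Ev a g (fun y => y ∈ D)}
      (fun s hs => hs.1) (fun G hG hGf => by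
        obtain ⟨m, hm⟩ := hfin G hGf hG
        obtain ⟨x, hx, hxm⟩ := b4 m
        exact ⟨x, hm x hx hxm⟩)
    obtain ⟨x, hx⟩ := h2
    exact ⟨x, fun D hD hE => hx D ⟨hD, hE⟩⟩
  -- 2
  have h2 : ∀ x ∈ QB L a g B, ∀ D : Set U, B.Definable₁ L D →
      (x ∈ D ↔ Ev a g (fun y => y ∈ D)) := by
    intro x hx D hD
    refine ⟨fun hxD => ?_, fun hE => hx D hD hE⟩
    rcases v1 D hD with h | h
    · exact h
    · exact absurd hxD (hx Dᶜ hD.compl h)
  -- 3
  have h3 : ∀ x ∈ QB L a g B, QB L a g B = Orb L B x := by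
    intro x hx
    apply Subset.antisymm
    · intro y hy
      by_contra hyn
      obtain ⟨s, hs, hxs, hys⟩ := o7 B x y hBf hyn
      exact hys (hy s hs ((h2 x hx s hs).1 hxs))
    · intro y hy D hD hE
      exact o6 B D hD x (hx D hD hE) hy
  have hGd : ∀ n, B.Definable₁ L (Gn a g n) := fun n =>
    Set.Definable.mono (df_Gn hW.ord hg.aC hg.df n) hCB
  -- 4
  have h4 : ∀ x ∈ QB L a g B, (∀ n, x ∉ Gn a g n) ∧ a < x := by
    intro x hx
    have hG : ∀ n, x ∉ Gn a g n := by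
      intro n hn
      obtain ⟨m, hm⟩ := (h2 x hx _ (hGd n)).1 hn
      obtain ⟨y, hy, hyn⟩ := b4 (m + n)
      exact hyn (b1' n (m + n) (by omega) (hm y hy fun h => hyn (b1' m (m + n) (by omega) h)))
    exact ⟨hG, lt_of_not_ge fun h => hG 0 h⟩
  -- 5
  have h5 : ∀ K : Set U, B.Definable₁ L K → Low K → (¬ Bd a g K → QB L a g B ⊆ K) ∧
      (Bd a g K → ∀ x ∈ QB L a g B, x ∉ K) := by
    intro K hK hl
    refine ⟨fun hb x hx => ?_, fun hb x hx hxK => ?_⟩
    · refine hx K hK ⟨0, fun y hy _ => ?_⟩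
      obtain ⟨-, n, hn⟩ := hy
      exact b7 K hl hb n hn
    · obtain ⟨n, hn⟩ := hb
      exact (h4 x hx).1 n (hn hxK)
  -- 6
  have h6 : ∀ y, (∀ n, y ∉ Gn a g n) →
      (∀ K : Set U, B.Definable₁ L K → Low K → ¬ Bd a g K → y ∈ K) → y ∈ QB L a g B := by
    intro y hy hK D hD hE
    obtain ⟨m, hm⟩ := hE
    have hd : B.Definable₁ L {t | ∀ s, s ≤ t → s ∉ Gn a g m → s ∈ D} := by
      have h7 : B.Definable L {w : Fin 2 → U | w 0 ≤ w 1 → w 0 ∉ Gn a g m → w 0 ∈ D} :=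
        Dx.imp (Dx.le hW.ord B 0 1) (Dx.imp (Dx.not (Dx.one (hGd m) 0)) (Dx.one hD 0))
      exact Dx.all (P := fun w : Fin 2 → U => w 0 ≤ w 1 → w 0 ∉ Gn a g m → w 0 ∈ D) h7
    have hlow : Low {t | ∀ s, s ≤ t → s ∉ Gn a g m → s ∈ D} := by
      intro t ht t' ht' s hs hsm
      exact ht s (hs.trans ht') hsm
    have hsub : ∀ n, Gn a g n ⊆ {t | ∀ s, s ≤ t → s ∉ Gn a g m → s ∈ D} := by
      intro n t ht s hs hsm
      refine hm s ⟨?_, n, (b1 n).1 t ht s hs⟩ hsm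
      by_contra hlt
      exact hsm ((b1 m).1 a (b1 m).2 s (le_of_lt (not_le.1 hlt)))
    have hnb : ¬ Bd a g {t | ∀ s, s ≤ t → s ∉ Gn a g m → s ∈ D} := by
      rintro ⟨n, hn⟩
      obtain ⟨z, hz, hz'⟩ := hg.strict n
      exact hz' (hn (hsub (n + 1) hz))
    exact hK _ hd hlow hnb y le_rfl (hy m)
  -- 7
  have h7 : ∀ x ∈ QB L a g B, ∀ y, y ≤ x → (∀ n, y ∉ Gn a g n) → y ∈ QB L a g B := by
    intro x hx y hyx hy
    refine h6 y hy fun K hK hl hb => hl x ((h5 K hK hl).1 hb hx) y hyx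
  -- 8
  have h8 : ∀ B' : Set U, B ⊆ B' → QB L a g B' ⊆ QB L a g B := by
    intro B' hB x hx D hD hE
    exact hx D (Set.Definable.mono hD hB) hE
  refine ⟨h1, h2, h3, h4, h5, h6, h7, h8, ?_⟩
  -- 9
  have hGi : ∀ τ : U ≃[L] U, Fx L C τ → ∀ n x, τ x ∈ Gn a g n ↔ x ∈ Gn a g n := by
    intro τ hτ n x
    have h9 : τ '' Gn a g n = Gn a g n :=
      f3 C C _ τ (df_Gn hW.ord hg.aC hg.df n) hτ
    constructor
    · intro hx
      rw [← h9] at hx
      obtain ⟨z, hz, hzx⟩ := hx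
      rw [← τ.injective hzx]
      exact hz
    · intro hx
      rw [← h9]
      exact mem_image_of_mem _ hx
  have hAi : ∀ τ : U ≃[L] U, Fx L C τ → ∀ x, a ≤ τ x ↔ a ≤ x := by
    intro τ hτ x
    have hd : C.Definable₁ L {x | a ≤ x} := df_le_par hW.ord hg.aC (0 : Fin 1)
    have h9 : τ '' {x | a ≤ x} = {x | a ≤ x} := f3 C C _ τ hd hτ
    constructor
    · intro hx
      have hx' : τ x ∈ τ '' {x | a ≤ x} := by
        rw [h9]
        exact hx
      obtain ⟨z, hz, hzx⟩ := hx'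
      rw [← τ.injective hzx]
      exact hz
    · intro hx
      have h10 : τ x ∈ τ '' {x | a ≤ x} := mem_image_of_mem _ hx
      rw [h9] at h10
      exact h10
  have hEi : ∀ τ : U ≃[L] U, Fx L C τ → ∀ x, EE a g (τ x) ↔ EE a g x := by
    intro τ hτ x
    constructor
    · rintro ⟨h, n, hn⟩
      exact ⟨(hAi τ hτ x).1 h, n, (hGi τ hτ n x).1 hn⟩
    · rintro ⟨h, n, hn⟩
      exact ⟨(hAi τ hτ x).2 h, n, (hGi τ hτ n x).2 hn⟩
  have hS : ∀ τ : U ≃[L] U, Fx L C τ → Fx L C τ.symm := by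
    intro τ hτ c hc
    have h := hτ c hc
    calc τ.symm c = τ.symm (τ c) := by rw [h]
      _ = c := τ.symm_apply_apply c
  have key : ∀ τ : U ≃[L] U, Fx L C τ → ∀ B' : Set U, ∀ y ∈ QB L a g (τ '' B'),
      τ.symm y ∈ QB L a g B' := by
    intro τ hτ B' y hy D hD hE
    obtain ⟨m, hm⟩ := hE
    have h9 : y ∈ τ '' D := by
      refine hy (τ '' D) (o9 τ B' D hD) ⟨m, fun x hx hxm => ?_⟩
      refine ⟨τ.symm x, hm (τ.symm x) ?_ ?_, τ.apply_symm_apply x⟩
      · exact (hEi τ.symm (hS τ hτ) x).2 hx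
      · intro h
        exact hxm ((hGi τ.symm (hS τ hτ) m x).1 h)
    obtain ⟨z, hz, rfl⟩ := h9
    rw [τ.symm_apply_apply]
    exact hz
  intro σ hσ
  apply Subset.antisymm
  · intro y hy
    exact ⟨σ.symm y, key σ hσ B y hy, σ.apply_symm_apply y⟩
  · rintro _ ⟨x, hx, rfl⟩
    have h9 : σ.symm '' (σ '' B) = B := by
      ext z
      constructor
      · rintro ⟨_, ⟨w, hw, rfl⟩, rfl⟩
        rw [σ.symm_apply_apply]
        exact hw
      · intro hz
        exact ⟨σ z, mem_image_of_mem _ hz, σ.symm_apply_apply z⟩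
    have h10 : x ∈ QB L a g (σ.symm '' (σ '' B)) := by
      rw [h9]
      exact hx
    exact key σ.symm (hS σ hσ) (σ '' B) x h10

end Pool.Agent.WOM
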