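import Pool.Agent.WOM.StS3
import Pool.Agent.WOM.SDF

/-!
WOM: proof of `St_SQC` (helper33).
-/

set_option autoImplicit false
set_option linter.unusedVariables false

namespace Pool.Agent.WOM

open FirstOrder.Language Set
open scoped FirstOrder

theorem thm_SQC (hORB : St_ORB) (hSBAS : St_SBAS) (hSEXT : St_SEXT) (hSQA : St_SQA) : St_SQC := by
  intro L U _ _ hW C a g hS B hB hCB x hx n
  obtain ⟨-, -, -, -, -, h6, -, h8, -⟩ := hORB L U hW.mon
  obtain ⟨⟨b1, -⟩, -, b3, -, b5, -, -, b8, -⟩ := hSBAS L U hW C a g hS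
  obtain ⟨e1, -, -, -, -, -, -, -, -, e10, e11⟩ := hSEXT L U hW C a g hS B hB hCB
  obtain ⟨-, -, q3, q4, -, q6, -, -, -⟩ := hSQA L U hW C a g hS B hB hCB
  have haB : a ∈ B := hCB hS.aC
  have hg : DF L B g := Set.Definable.mono hS.df hCB
  have hMB : MB L a g B g := b5 B hCB
  have hitr : DF L B (fun z => itr a g n (Iic z)) := df_itr hW.ord haB hg n
  have hitr1 : DF L B (fun z => itr a g (n + 1) (Iic z)) := df_itr hW.ord haB hg (n + 1)
  -- bounded iterates on E
  have hE : ∀ z, EE a g z → Low (itr a g n (Iic z)) ∧ a ∈ itr a g n (Iic z) ∧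
      Bd a g (itr a g n (Iic z)) := by
    rintro z ⟨haz, m, hm⟩
    have h0 : Low (Iic z) := fun s hs t hts => le_trans hts hs
    have h1 : Bd a g (Iic z) := ⟨m, fun t ht => (b1 m).1 z hm t ht⟩
    obtain ⟨c1, c2, c3, -, -⟩ := e11 g n (Iic z) hMB h0 haz h1
    exact ⟨c1, c2, c3⟩
  have hconst : ∀ K : Set U, B.Definable₁ L K → DF L B (fun _ => K) := fun K hK => Dx.one hK 1
  have hP1 : ∀ K : Set U, B.Definable₁ L K → Low K → ¬ Bd a g K → itr a g n (Iic x) ⊆ K := by
    intro K hK hl hb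
    have hD : B.Definable₁ L {z | itr a g n (Iic z) ⊆ K} := df_sub hitr (hconst K hK)
    refine hx _ hD ⟨0, fun z hz _ => ?_⟩
    obtain ⟨-, -, m, hm⟩ := hE z hz
    exact hm.trans (b8 K hl hb m)
  have hP4 : x ∈ itr a g n (Iic x) := e10 g n x hMB (le_of_lt (q4 x hx).2) (le_refl x)
  have hlow : ∀ k, Low (itr a g k (Iic x)) := by
    intro k
    cases k with
    | zero => exact fun s hs t hts => le_trans hts hs
    | succ k =>
      have h1 : itr a g (k + 1) (Iic x) = ext a g (itr a g k (Iic x)) :=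
        Function.iterate_succ_apply' _ _ _
      rw [h1]
      exact e1 g hS.low _
  refine ⟨hP1, ?_, ?_, hP4⟩
  · by_contra hcon
    push Not at hcon
    have hnb : ¬ Bd a g (itr a g n (Iic x)) := by
      rintro ⟨m, hm⟩
      exact (q4 x hx).1 m (hm hP4)
    have hG : ∀ m, Gn a g m ⊆ itr a g n (Iic x) := b8 _ (hlow n) hnb
    have hK0 : (insert x B).Definable₁ L (itr a g n (Iic x)) :=
      df_par hitr (subset_insert x B) (mem_insert x B)
    have horb : ∀ t ∈ itr a g n (Iic x), Orb L B t ⊆ itr a g n (Iic x) := by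
      intro t ht
      by_cases hm : ∃ m, t ∈ Gn a g m
      · obtain ⟨m, hm⟩ := hm
        exact (h6 B _ (df_Gn hW.ord haB hg m) t hm).trans (hG m)
      · push Not at hm
        have ht' : t ∈ QB L a g B := q6 t hm fun K hK hl hb => hP1 K hK hl hb ht
        rw [← q3 t ht']
        exact hcon
    have hKB : B.Definable₁ L (itr a g n (Iic x)) :=
      h8 B (insert x B) _ hB (hB.insert x) hK0 horb
    have hD : B.Definable₁ L {z | itr a g n (Iic x) ⊆ itr a g n (Iic z)}ᶜ :=
      Set.Definable.compl (df_sub (hconst _ hKB) hitr)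
    refine hx _ hD ⟨0, fun z hz _ hsub => ?_⟩ (le_refl (itr a g n (Iic x)))
    obtain ⟨-, -, m, hm⟩ := hE z hz
    exact hnb ⟨m, Subset.trans hsub hm⟩
  · have hD : B.Definable₁ L {z | itr a g (n + 1) (Iic z) ⊆ itr a g n (Iic z)}ᶜ :=
      Set.Definable.compl (df_sub hitr1 hitr)
    refine hx _ hD ⟨0, fun z hz _ hsub => ?_⟩
    obtain ⟨c1, c2, c3⟩ := hE z hz
    have h1 : itr a g (n + 1) (Iic z) = ext a g (itr a g n (Iic z)) :=
      Function.iterate_succ_apply' _ _ _
    have hsub' : itr a g (n + 1) (Iic z) ⊆ itr a g n (Iic z) := hsub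
    rw [h1] at hsub'
    exact (b3 _ c1 c2 c3).1 hsub'

end Pool.Agent.WOM
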