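import Pool.Agent.WOM.StS3
import Pool.Agent.WOM.SDF
import Pool.Agent.WOM.ORB
import Pool.Agent.WOM.DEF1

/-!
WOM: proof of `St_SRB` (one far element), helper21.
-/

set_option autoImplicit false
set_option linter.unusedVariables false

namespace Pool.Agent.WOM

open FirstOrder.Language Set
open scoped FirstOrder

section

variable {U : Type} [LinearOrder U]

theorem SRB_itr_succ (a : U) (u : U → Set U) (k : ℕ) (K : Set U) :
    itr a u (k + 1) K = ext a u (itr a u k K) := by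
  unfold itr
  rw [Function.iterate_succ_apply']

theorem SRB_sub {a : U} {u : U → Set U} (hl : ∀ x, Low (u x)) (hs : ∀ x, x ∈ u x) {K : Set U}
    (ha : a ∈ K) : K ⊆ ext a u K := by
  intro y hy
  rcases le_total a y with h | h
  · exact ⟨y, h, hy, hs y⟩
  · exact ⟨a, le_rfl, ha, hl a a (hs a) y h⟩

theorem SRB_itr_mem {a : U} {u : U → Set U} (hl : ∀ x, Low (u x)) (hs : ∀ x, x ∈ u x) {K : Set U}
    (ha : a ∈ K) (n : ℕ) : a ∈ itr a u n K := by
  induction n with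
  | zero => exact ha
  | succ n ih =>
    rw [SRB_itr_succ]
    exact SRB_sub hl hs ih ih

theorem SRB_itr_le {a : U} {u : U → Set U} (hl : ∀ x, Low (u x)) (hs : ∀ x, x ∈ u x) {K : Set U}
    (ha : a ∈ K) {m n : ℕ} (hmn : m ≤ n) : itr a u m K ⊆ itr a u n K := by
  induction n, hmn using Nat.le_induction with
  | base => exact Subset.rfl
  | succ n _ ih =>
    rw [SRB_itr_succ]
    exact ih.trans (SRB_sub hl hs (SRB_itr_mem hl hs ha n))

end

section

variable {L : FirstOrder.Language.{0, 0}} {U : Type} [L.Structure U] [LinearOrder U]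

/-- part 1 -/
theorem SRB_one (hSCUT : St_SCUT) (hSKD : St_SKD) (hW : Wn L U) {C : Set U} {a : U}
    {g : U → Set U} (hS : Shp L C a g) {B : Set U} (hB : B.Finite) (hCB : C ⊆ B) {x₀ : U}
    (hx₀ : x₀ ∈ QB L a g B) {x z : U} (hx : x ∈ QB L a g B) (hz : z ∈ QB L a g B)
    (hfx : Fr a g x₀ x) (hfz : Fr a g x₀ z) : z ∈ Orb L (insert x₀ B) x := by
  obtain ⟨O1, O2, -⟩ := thm_ORB (thm_DEF1 thm_DEFF) L U hW.mon
  have key : ∀ x z : U, z ∈ QB L a g B → Fr a g x₀ x → x < z → z ∈ Orb L (insert x₀ B) x := by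
    intro x z hz hfx hxz
    by_contra hcon
    obtain ⟨K, hK, hl, hxK, hzK⟩ := hSCUT L U hW (insert x₀ B) x z (hB.insert x₀) hxz hcon
    obtain ⟨n, hn⟩ := hSKD L U hW C a g hS B hB hCB x₀ hx₀ K hK hl
      (hl x hxK x₀ (le_of_lt hfx.1)) ⟨z, hz, hzK⟩
    exact hfx.2 n (hn hxK)
  rcases lt_trichotomy x z with h | h | h
  · exact key x z hz hfx h
  · subst h
    exact O1 _ _
  · have h1 := key z x hx hfz h
    rw [O2 _ _ _ h1]
    exact O1 _ _

/-- part 2 -/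
theorem SRB_two (hSBAS : St_SBAS) (hSQA : St_SQA) (hSQC : St_SQC) (hW : Wn L U) {C : Set U} {a : U}
    {g : U → Set U} (hS : Shp L C a g) {B : Set U} (hB : B.Finite) (hCB : C ⊆ B) {x₀ : U}
    (hx₀ : x₀ ∈ QB L a g B) : ∃ x ∈ QB L a g B, Fr a g x₀ x := by
  obtain ⟨hG, -, -, -, -, -, -, -, -⟩ := hSBAS L U hW C a g hS
  obtain ⟨-, -, -, Q4, Q5, Q6, -, -, -⟩ := hSQA L U hW C a g hS B hB hCB
  have haB : a ∈ B := hCB hS.aC
  have hgB : DF L B g := hS.df.mono hCB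
  have hax : a ≤ x₀ := le_of_lt (Q4 x₀ hx₀).2
  obtain ⟨F, hF⟩ : ∃ F : Set (Set U), F = {s | (insert x₀ B).Definable₁ L s ∧
      ∃ n, ∀ y ∈ QB L a g B, y ∉ itr a g n (Iic x₀) → y ∈ s} := ⟨_, rfl⟩
  have hne : (⋂₀ F).Nonempty := by
    apply hW.mon.sat (insert x₀ B) (hB.insert x₀) F
    · intro s hs
      rw [hF] at hs
      exact hs.1
    · intro G hGF hGf
      have h1 : ∃ N, ∀ s ∈ G, ∀ y ∈ QB L a g B, y ∉ itr a g N (Iic x₀) → y ∈ s := by
        have h2 : ∀ s : Set U, ∃ n, s ∈ G → ∀ y ∈ QB L a g B, y ∉ itr a g n (Iic x₀) → y ∈ s := by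
          intro s
          by_cases hs : s ∈ G
          · have h3 := hGF hs
            rw [hF] at h3
            obtain ⟨-, n, hn⟩ := h3
            exact ⟨n, fun _ => hn⟩
          · exact ⟨0, fun h => absurd h hs⟩
        choose φ hφ using h2
        refine ⟨hGf.toFinset.sup φ, ?_⟩
        intro s hs y hy hyn
        apply hφ s hs y hy
        intro h4
        exact hyn (SRB_itr_le hS.low hS.self (mem_Iic.2 hax)
          (Finset.le_sup (f := φ) (hGf.mem_toFinset.2 hs)) h4)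
      obtain ⟨N, hN⟩ := h1
      obtain ⟨-, ⟨y, hy, hyN⟩, -⟩ := hSQC L U hW C a g hS B hB hCB x₀ hx₀ N
      exact ⟨y, fun s hs => hN s hs y hy hyN⟩
  obtain ⟨x, hx⟩ := hne
  have hfar : ∀ n, x ∉ itr a g n (Iic x₀) := by
    intro n
    have h1 : (itr a g n (Iic x₀))ᶜ ∈ F := by
      rw [hF]
      refine ⟨?_, n, fun y _ h => h⟩
      exact Dx.not (n := 1) (df_par (df_itr hW.ord haB hgB n) (subset_insert x₀ B)
        (mem_insert x₀ B))
    exact hx _ h1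
  have hlt : x₀ < x := lt_of_not_ge (hfar 0)
  have hxG : ∀ n, x ∉ Gn a g n := by
    intro n hn
    exact (Q4 x₀ hx₀).1 n ((hG.1 n).1 x hn x₀ (le_of_lt hlt))
  refine ⟨x, ?_, hlt, hfar⟩
  apply Q6 x hxG
  intro K hK hKl hKb
  have h1 : K ∈ F := by
    rw [hF]
    refine ⟨Set.Definable.mono hK (subset_insert x₀ B), 0, fun y hy _ => ?_⟩
    exact (Q5 K hK hKl).1 hKb hy
  exact hx _ h1

/-- part 3, first inclusion -/
theorem SRB_sub1 (hSBAS : St_SBAS) (hSEXT : St_SEXT) (hSQA : St_SQA) (hW : Wn L U) {C : Set U}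
    {a : U} {g : U → Set U} (hS : Shp L C a g) {B : Set U} (hB : B.Finite) (hCB : C ⊆ B) {x₀ x : U}
    (hx₀ : x₀ ∈ QB L a g B) (hx : x ∈ QB L a g (insert x₀ B)) :
    x ∈ QB L a g B ∧ Fr a g x x₀ := by
  obtain ⟨hG, -, -, -, hgM, -, -, -, -⟩ := hSBAS L U hW C a g hS
  obtain ⟨-, -, -, Q4, -, -, -, Q8, -⟩ := hSQA L U hW C a g hS B hB hCB
  obtain ⟨-, R2, -, R4, R5, -, -, -, -⟩ := hSQA L U hW C a g hS (insert x₀ B) (hB.insert x₀)
    (hCB.trans (subset_insert x₀ B))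
  have haB : a ∈ B := hCB hS.aC
  have hgB : DF L B g := hS.df.mono hCB
  have hGlt : ∀ n, ∀ t ∈ Gn a g n, t < x₀ := by
    intro n t ht
    by_contra hcon
    exact (Q4 x₀ hx₀).1 n ((hG.1 n).1 t ht x₀ (le_of_not_gt hcon))
  refine ⟨Q8 _ (subset_insert x₀ B) hx, ?_, ?_⟩
  · have h1 : (insert x₀ B).Definable₁ L (Iio x₀) := by
      have h2 : (insert x₀ B).Definable L {w : Fin 1 → U | w 0 < x₀} :=
        Dx.par (P := fun w : Fin 2 → U => w 1 < w 0) (Dx.lt hW.ord B 1 0) (subset_insert x₀ B)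
          (mem_insert x₀ B)
      exact h2
    have h3 : Low (Iio x₀) := fun s hs t hts => lt_of_le_of_lt hts hs
    have h4 : ¬ Bd a g (Iio x₀) := by
      rintro ⟨n, hn⟩
      obtain ⟨y, hy, hyn⟩ := hS.strict n
      exact hyn (hn (hGlt (n + 1) y hy))
    exact (R5 _ h1 h3).1 h4 hx
  · intro n
    have h1 : (insert x₀ B).Definable₁ L {y : U | x₀ ∉ itr a g n (Iic y)} := by
      have h2 : B.Definable L {w : Fin 2 → U | w 1 ∈ itr a g n (Iic (w 0))} :=
        df_itr hW.ord haB hgB n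
      have h3 : B.Definable L {w : Fin 2 → U | w 0 ∈ itr a g n (Iic (w 1))} :=
        Dx.rel (R := fun s t => t ∈ itr a g n (Iic s)) h2 1 0
      exact Dx.par (P := fun w : Fin 2 → U => ¬ w 0 ∈ itr a g n (Iic (w 1))) (Dx.not h3)
        (subset_insert x₀ B) (mem_insert x₀ B)
    have h4 : Ev a g (fun y => y ∈ {y : U | x₀ ∉ itr a g n (Iic y)}) := by
      refine ⟨0, ?_⟩
      rintro y ⟨hy1, m, hy2⟩ -
      obtain ⟨-, -, -, -, -, -, -, -, -, -, E11⟩ := hSEXT L U hW C a g hS B hB hCB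
      have h5 : Low (Iic y) := fun s hs t hts => hts.trans hs
      obtain ⟨-, -, ⟨k, hk⟩, -, -⟩ := E11 g n (Iic y) (hgM B hCB) h5 hy1
        ⟨m, fun s hs => (hG.1 m).1 y hy2 s hs⟩
      intro h6
      exact (Q4 x₀ hx₀).1 k (hk h6)
    exact (R2 x hx _ h1).2 h4

/-- part 3, second inclusion -/
theorem SRB_sub2 (hSCUT : St_SCUT) (hSBAS : St_SBAS) (hSFX : St_SFX) (hSQA : St_SQA)
    (hSKD : St_SKD) (hSFR : St_SFR) (hW : Wn L U) {C : Set U}
    {a : U} {g : U → Set U} (hS : Shp L C a g) {B : Set U} (hB : B.Finite) (hCB : C ⊆ B) {x₀ x : U}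
    (hx₀ : x₀ ∈ QB L a g B) (hx : x ∈ QB L a g B) (hfr : Fr a g x x₀) :
    x ∈ QB L a g (insert x₀ B) := by
  obtain ⟨hG, -, -, -, -, -, -, hG8, hG9⟩ := hSBAS L U hW C a g hS
  obtain ⟨-, -, Q3, Q4, -, -, Q7, -, -⟩ := hSQA L U hW C a g hS B hB hCB
  obtain ⟨-, -, -, -, -, R6, -, -, -⟩ := hSQA L U hW C a g hS (insert x₀ B) (hB.insert x₀)
    (hCB.trans (subset_insert x₀ B))
  obtain ⟨F1, -, -, -, F5⟩ := hSFR L U hW C a g hS
  obtain ⟨-, -, -, -, -, O6, -⟩ := thm_ORB (thm_DEF1 thm_DEFF) L U hW.mon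
  obtain ⟨X1, -⟩ := hSFX L U hW.mon
  apply R6 x (Q4 x hx).1
  intro K₀ hK₀ hl hb
  by_contra hxK
  obtain ⟨k, hk, hkx⟩ := Dx.fib hK₀
  -- all elements far above `x`
  have h1 : ∀ z ∈ QB L a g B, Fr a g x z → x ∉ k z := by
    intro z hz hfz
    have h2 : z ∈ Orb L (insert x B) x₀ :=
      SRB_one hSCUT hSKD hW hS hB hCB hx hx₀ hz hfr hfz
    have h3 : (insert x B).Definable₁ L {z : U | x ∉ k z} := by
      have h4 : B.Definable L {w : Fin 2 → U | w 0 ∈ k (w 1)} :=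
        Dx.rel (R := fun s t => t ∈ k s) hk 1 0
      exact Dx.par (P := fun w : Fin 2 → U => ¬ w 0 ∈ k (w 1)) (Dx.not h4)
        (subset_insert x B) (mem_insert x B)
    have h5 : x₀ ∈ {z : U | x ∉ k z} := by
      show x ∉ k x₀
      rw [hkx]
      exact hxK
    exact O6 _ _ h3 x₀ h5 h2
  have h2 : ∀ x' ∈ QB L a g B, ∀ z ∈ QB L a g B, Fr a g x' z → x' ∉ k z := by
    intro x' hx' z hz hf
    have h3 := hx'
    rw [Q3 x hx] at h3
    obtain ⟨σ, hσ, hσx⟩ := h3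
    have hσC : Fx L C σ := fun c hc => hσ c (hCB hc)
    have h4 : σ.symm z ∈ QB L a g B := by
      have h5 := hz
      rw [Q3 x hx] at h5 ⊢
      obtain ⟨τ, hτ, hτx⟩ := h5
      refine ⟨σ.symm.comp τ, ?_, ?_⟩
      · intro b hb
        show σ.symm (τ b) = b
        rw [hτ b hb]
        have h6 := hσ b hb
        have h7 : σ.symm (σ b) = b := σ.toEquiv.symm_apply_apply b
        rw [h6] at h7
        exact h7
      · show σ.symm (τ x) = σ.symm z
        rw [hτx]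
    have h5 : σ (σ.symm z) = z := σ.toEquiv.apply_symm_apply z
    have h6 : Fr a g x (σ.symm z) := by
      rw [← F5 σ hσC, h5, hσx]
      exact hf
    have h7 := h1 _ h4 h6
    have h8 := X1 B k σ hk hσ (σ.symm z)
    rw [h5] at h8
    rw [h8, ← hσx]
    rintro ⟨y, hy, hy'⟩
    have h9 : y = x := σ.toEquiv.injective hy'
    rw [h9] at hy
    exact h7 hy
  have h3 : ∃ t ∈ K₀, ∀ n, t ∉ Gn a g n := by
    by_contra hcon
    push Not at hcon
    apply hG9 (insert x₀ B) (hB.insert x₀)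
    have h4 : (⋃ n, Gn a g n) = K₀ := by
      apply Subset.antisymm
      · exact iUnion_subset fun n => hG8 K₀ hl hb n
      · intro t ht
        exact mem_iUnion.2 (hcon t ht)
    rw [h4]
    exact hK₀
  obtain ⟨t, htK, htG⟩ := h3
  have htx : t ≤ x := by
    by_contra hcon
    exact hxK (hl t htK x (le_of_lt (lt_of_not_ge hcon)))
  have htQ : t ∈ QB L a g B := Q7 x hx t htx htG
  have htf : Fr a g t x₀ := F1 x x₀ t x₀ hfr htx le_rfl
  have h4 := h2 t htQ x₀ hx₀ htf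
  rw [hkx] at h4
  exact h4 htK

end

theorem thm_SRB (hSCUT : St_SCUT) (hSBAS : St_SBAS) (hSEXT : St_SEXT) (hSFX : St_SFX)
    (hSQA : St_SQA) (hSQC : St_SQC) (hSKD : St_SKD) (hSFR : St_SFR) : St_SRB := by
  intro L U _ _ hW C a g hS B hB hCB x₀ hx₀
  refine ⟨fun x hx z hz hfx hfz => SRB_one hSCUT hSKD hW hS hB hCB hx₀ hx hz hfx hfz,
    SRB_two hSBAS hSQA hSQC hW hS hB hCB hx₀, ?_⟩
  apply Subset.antisymm
  · intro x hx
    exact SRB_sub1 hSBAS hSEXT hSQA hW hS hB hCB hx₀ hx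
  · rintro x ⟨hx, hf⟩
    exact SRB_sub2 hSCUT hSBAS hSFX hSQA hSKD hSFR hW hS hB hCB hx₀ hx hf

end Pool.Agent.WOM
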