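import Pool.Agent.WOM.StS3

/-!
WOM, [SRC] far sets, the lowest region (helper20).
-/

set_option autoImplicit false

namespace Pool.Agent.WOM

open FirstOrder.Language Set
open scoped FirstOrder

theorem thm_SRC (hSRB : St_SRB) (hSFR : St_SFR) : St_SRC := by
  intro L U _ _ hW C a g hs
  obtain ⟨f1, -, -, -, -⟩ := hSFR L U hW C a g hs
  have key : ∀ n : ℕ, ∀ F : Set U, F.Finite → F.ncard = n → F ⊆ QB L a g C →
      (∀ x ∈ F, ∀ y ∈ F, x < y → Fr a g x y) →
      QB L a g (C ∪ F) = {x | x ∈ QB L a g C ∧ ∀ y ∈ F, Fr a g x y} := by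
    intro n
    induction n with
    | zero =>
      intro F hF hc _ _
      have h0 : F = ∅ := (ncard_eq_zero hF).1 hc
      subst h0
      ext x
      simp
    | succ n ih =>
      intro F hF hc hQ hfar
      have hne : F.Nonempty := by
        rw [nonempty_iff_ne_empty]
        rintro rfl
        simp at hc
      obtain ⟨x₀, hx₀, hmin⟩ := hF.exists_minimal hne
      have hle : ∀ y ∈ F, x₀ ≤ y := by
        intro y hy
        rcases le_total x₀ y with h | h
        · exact h
        · exact hmin hy h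
      have hlt : ∀ y ∈ F \ {x₀}, x₀ < y := by
        intro y hy
        exact lt_of_le_of_ne (hle y hy.1) (fun e => hy.2 e.symm)
      have hF' : (F \ {x₀}).Finite := hF.subset sdiff_subset
      have hc' : (F \ {x₀}).ncard = n := by
        have h1 := ncard_sdiff_singleton_add_one hx₀ hF
        omega
      have hI := ih (F \ {x₀}) hF' hc' (fun y hy => hQ hy.1)
        (fun x hx y hy h => hfar x hx.1 y hy.1 h)
      have hx₀Q : x₀ ∈ QB L a g (C ∪ F \ {x₀}) := by
        rw [hI]
        exact ⟨hQ hx₀, fun y hy => hfar x₀ hx₀ y hy.1 (hlt y hy)⟩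
      obtain ⟨-, -, h3⟩ := hSRB L U hW C a g hs (C ∪ F \ {x₀}) (hs.fin.union hF')
        subset_union_left x₀ hx₀Q
      have hEq : insert x₀ (C ∪ F \ {x₀}) = C ∪ F := by
        rw [← union_insert, insert_sdiff_singleton, insert_eq_of_mem hx₀]
      rw [hEq, hI] at h3
      rw [h3]
      ext x
      constructor
      · rintro ⟨⟨hxC, hxF⟩, hx⟩
        refine ⟨hxC, fun y hy => ?_⟩
        by_cases h : y = x₀
        · rw [h]; exact hx
        · exact hxF y ⟨hy, h⟩
      · rintro ⟨hxC, hxF⟩
        exact ⟨⟨hxC, fun y hy => hxF y hy.1⟩, hxF x₀ hx₀⟩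
  intro F hF hQ hfar
  exact key _ F hF rfl hQ hfar

end Pool.Agent.WOM
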