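import Pool.Agent.WOM.StS3
import Pool.Agent.WOM.SDF

/-!
WOM [SRD]: the regions of a far set are orbits (helper67)
-/

set_option autoImplicit false

namespace Pool.Agent.WOM

open FirstOrder.Language Set
open scoped FirstOrder

/-- The case of an element `x₀` which is far below the new elements and below the far set `F`:
`x < z` cannot be separated over `x₀`. -/
private theorem SRD_step (hORB : St_ORB) (hSCUT : St_SCUT) (hSBAS : St_SBAS) (hSQA : St_SQA)
    (hSRC : St_SRC) (L : FirstOrder.Language.{0, 0}) (U : Type) [L.Structure U] [LinearOrder U]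
    (hW : Wn L U) (C : Set U) (a : U) (g : U → Set U) (hg : Shp L C a g) (F : Set U)
    (hFf : F.Finite) (hFQ : F ⊆ QB L a g C) (hFF : ∀ x ∈ F, ∀ y ∈ F, x < y → Fr a g x y)
    (x₀ : U) (hx₀ : x₀ ∈ QB L a g C) (hx₀F : ∀ y ∈ F, Fr a g x₀ y)
    (x : U) (hx : x ∈ QB L a g C) (z : U) (hz : z ∈ QB L a g C)
    (hxF : ∀ y ∈ F, Fr a g x y ∨ Fr a g y x) (hzF : ∀ y ∈ F, Fr a g z y ∨ Fr a g y z)
    (hx₀x : Fr a g x₀ x) (hx₀z : Fr a g x₀ z) (hxz : x < z)
    (hih : z ∈ Orb L (C ∪ F) x) : z ∈ Orb L (insert x₀ (C ∪ F)) x := by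
  by_contra hno
  obtain ⟨-, -, -, -, -, hO6, -, -, -⟩ := hORB L U hW.mon
  obtain ⟨⟨hG1, hG2⟩, -⟩ := hSBAS L U hW C a g hg
  have hBfin : (C ∪ F).Finite := hg.fin.union hFf
  obtain ⟨K, hKd, hKl, hxK, hzK⟩ := hSCUT L U hW (insert x₀ (C ∪ F)) x z (hBfin.insert x₀) hxz hno
  have hx₀K : x₀ ∈ K := hKl x hxK x₀ hx₀x.1.le
  obtain ⟨k, hk, -, -, hkK⟩ := df_fib hW.ord hKd hKl hx₀K
  -- far sets with one more element
  have hfar : ∀ w, w ∈ QB L a g C → (∀ y ∈ F, Fr a g w y ∨ Fr a g y w) → Fr a g x₀ w →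
      x₀ ∈ QB L a g (C ∪ insert w F) := by
    intro w hw hwF hxw
    rw [hSRC L U hW C a g hg (insert w F) (hFf.insert w) (Set.insert_subset hw hFQ) ?_]
    · refine ⟨hx₀, ?_⟩
      intro y hy
      rcases Set.mem_insert_iff.1 hy with h | h
      · rw [h]
        exact hxw
      · exact hx₀F y h
    · intro u hu v hv huv
      rcases Set.mem_insert_iff.1 hu with h1 | h1
      · rcases Set.mem_insert_iff.1 hv with h2 | h2
        · rw [h1, h2] at huv
          exact absurd huv (lt_irrefl _)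
        · rcases hwF v h2 with h3 | h3
          · rw [h1]
            exact h3
          · rw [h1] at huv
            exact absurd huv (lt_asymm h3.1)
      · rcases Set.mem_insert_iff.1 hv with h2 | h2
        · rcases hwF u h1 with h3 | h3
          · rw [h2] at huv
            exact absurd huv (lt_asymm h3.1)
          · rw [h2]
            exact h3
        · exact hFF u h1 v h2 huv
  -- definability of the sets of the parameters
  have hdef : ∀ w, (C ∪ insert w F).Definable₁ L {y | w ∈ k y} := by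
    intro w
    have h1 : (C ∪ F).Definable L {v : Fin 2 → U | v 0 ∈ k (v 1)} :=
      Dx.rel (R := fun s t => t ∈ k s) hk 1 0
    exact Dx.par (P := fun v : Fin 2 → U => v 0 ∈ k (v 1)) h1
      (Set.union_subset_union_right C (Set.subset_insert w F)) (Or.inr (Set.mem_insert w F))
  have hfin : ∀ w, (C ∪ insert w F).Finite := fun w => hg.fin.union (hFf.insert w)
  have hEx : Ev a g (fun y => y ∈ {y | x ∈ k y}) := by
    have h1 := (hSQA L U hW C a g hg (C ∪ insert x F) (hfin x) Set.subset_union_left).2.1 x₀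
      (hfar x hx hxF hx₀x) {y | x ∈ k y} (hdef x)
    refine h1.1 ?_
    show x ∈ k x₀
    rw [hkK]
    exact hxK
  have hEz : Ev a g (fun y => y ∈ {y | z ∈ k y}ᶜ) := by
    have h1 := (hSQA L U hW C a g hg (C ∪ insert z F) (hfin z) Set.subset_union_left).2.1 x₀
      (hfar z hz hzF hx₀z) {y | z ∈ k y}ᶜ (hdef z).compl
    refine h1.1 ?_
    show ¬ z ∈ k x₀
    rw [hkK]
    exact hzK
  obtain ⟨m1, hm1⟩ := hEx
  obtain ⟨m2, hm2⟩ := hEz
  set m := max m1 m2 with hm
  have hK1 : (C ∪ F).Definable₁ L {t | ∀ y, a ≤ y → y ∈ Gn a g (m + 1) → y ∉ Gn a g m → t ∈ k y} := by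
    have haB : a ∈ C ∪ F := Or.inl hg.aC
    have hgB : DF L (C ∪ F) g := Set.Definable.mono hg.df Set.subset_union_left
    refine Dx.all (P := fun w : Fin 2 → U => a ≤ w 0 → w 0 ∈ Gn a g (m + 1) → w 0 ∉ Gn a g m →
      w 1 ∈ k (w 0)) ?_
    exact Dx.imp (df_le_par hW.ord haB 0) (Dx.imp (Dx.one (df_Gn hW.ord haB hgB (m + 1)) 0)
      (Dx.imp (Dx.not (Dx.one (df_Gn hW.ord haB hgB m) 0)) (Dx.rel (R := fun s t => t ∈ k s) hk 0 1)))
  have hxK1 : x ∈ {t | ∀ y, a ≤ y → y ∈ Gn a g (m + 1) → y ∉ Gn a g m → t ∈ k y} := by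
    intro y hy1 hy2 hy3
    exact hm1 y ⟨hy1, m + 1, hy2⟩ (fun h => hy3 (hG2 m1 m (le_max_left _ _) h))
  have hzK1 := hO6 _ _ hK1 x hxK1 hih
  obtain ⟨y, hy1, hy2⟩ := hg.strict m
  have hay : a ≤ y := by
    by_contra hlt
    exact hy2 ((hG1 m).1 a (hG1 m).2 y (not_le.1 hlt).le)
  exact hm2 y ⟨hay, m + 1, hy1⟩ (fun h => hy2 (hG2 m2 m (le_max_right _ _) h))
    (hzK1 y hay hy1 hy2)

theorem thm_SRD (hORB : St_ORB) (hSCUT : St_SCUT) (hSBAS : St_SBAS) (hSQA : St_SQA)
    (hSFR : St_SFR) (hSRC : St_SRC) : St_SRD := by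
  intro L U _ _ hW C a g hg F hF
  obtain ⟨S, rfl⟩ := hF.exists_finset_coe
  clear hF
  obtain ⟨-, hO2, -, -, -, -, -, -, -⟩ := hORB L U hW.mon
  have hO1 := (hORB L U hW.mon).1
  obtain ⟨hR1, -, -, -, -⟩ := hSFR L U hW C a g hg
  induction S using Finset.induction_on_min with
  | empty =>
    intro _ _ x hx z hz _
    rw [Finset.coe_empty, Set.union_empty]
    have h := (hSQA L U hW C a g hg C hg.fin (Set.Subset.refl C)).2.2.1 x hx
    rw [← h]
    exact hz
  | insert x₀ S hmin ih =>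
    intro hFQ hFF x hx z hz hpos
    rw [Finset.coe_insert] at hFQ hFF hpos ⊢
    have hSQ : (S : Set U) ⊆ QB L a g C := (Set.subset_insert _ _).trans hFQ
    have hSF : ∀ x ∈ (S : Set U), ∀ y ∈ (S : Set U), x < y → Fr a g x y := fun u hu v hv huv =>
      hFF u (Set.mem_insert_of_mem _ hu) v (Set.mem_insert_of_mem _ hv) huv
    have hx₀ : x₀ ∈ QB L a g C := hFQ (Set.mem_insert _ _)
    have hx₀S : ∀ y ∈ (S : Set U), Fr a g x₀ y := fun y hy =>
      hFF x₀ (Set.mem_insert _ _) y (Set.mem_insert_of_mem _ hy) (hmin y (Finset.mem_coe.1 hy))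
    have hposS : ∀ y ∈ (S : Set U), (Fr a g x y ∧ Fr a g z y) ∨ (Fr a g y x ∧ Fr a g y z) :=
      fun y hy => hpos y (Set.mem_insert_of_mem _ hy)
    have hSfin : (S : Set U).Finite := S.finite_toSet
    rcases hpos x₀ (Set.mem_insert _ _) with ⟨h1, h2⟩ | ⟨h1, h2⟩
    · -- far below `x₀`
      have hmem : ∀ w, w ∈ QB L a g C → Fr a g w x₀ →
          w ∈ QB L a g (C ∪ insert x₀ (S : Set U)) := by
        intro w hw hwx
        rw [hSRC L U hW C a g hg (insert x₀ (S : Set U)) (hSfin.insert x₀) hFQ hFF]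
        refine ⟨hw, ?_⟩
        intro y hy
        rcases Set.mem_insert_iff.1 hy with h | h
        · rw [h]
          exact hwx
        · exact hR1 w x₀ w y hwx le_rfl (hmin y (Finset.mem_coe.1 h)).le
      have h3 := (hSQA L U hW C a g hg (C ∪ insert x₀ (S : Set U))
        (hg.fin.union (hSfin.insert x₀)) Set.subset_union_left).2.2.1 x (hmem x hx h1)
      rw [← h3]
      exact hmem z hz h2
    · have hih := ih hSQ hSF x hx z hz hposS
      have he : C ∪ insert x₀ (S : Set U) = insert x₀ (C ∪ (S : Set U)) := Set.union_insert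
      rw [he]
      rcases lt_trichotomy x z with hxz | hxz | hxz
      · exact SRD_step hORB hSCUT hSBAS hSQA hSRC L U hW C a g hg S hSfin hSQ hSF x₀ hx₀ hx₀S x hx
          z hz (fun y hy => (hposS y hy).imp (fun h => h.1) (fun h => h.1))
          (fun y hy => (hposS y hy).imp (fun h => h.2) (fun h => h.2)) h1 h2 hxz hih
      · rw [hxz]
        exact hO1 _ _
      · have hih' : x ∈ Orb L (C ∪ (S : Set U)) z := by
          rw [hO2 _ _ _ hih]
          exact hO1 _ _
        have h3 := SRD_step hORB hSCUT hSBAS hSQA hSRC L U hW C a g hg S hSfin hSQ hSF x₀ hx₀ hx₀S z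
          hz x hx (fun y hy => (hposS y hy).imp (fun h => h.2) (fun h => h.2))
          (fun y hy => (hposS y hy).imp (fun h => h.1) (fun h => h.1)) h2 h1 hxz hih'
        rw [hO2 _ _ _ h3]
        exact hO1 _ _

end Pool.Agent.WOM
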