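import Pool.Agent.WOM.StS3
import Pool.Agent.WOM.SDF
import Pool.Agent.WOM.ORB
import Pool.Agent.WOM.DEF1

/-!
WOM, SHIFT THEOREM, part 3: the regions are not isolated (proof by helper76 of the statement
`St_SRF` of helper41).
-/

set_option autoImplicit false
set_option linter.unusedVariables false

namespace Pool.Agent.WOM

open FirstOrder.Language Set
open scoped FirstOrder

/-- the set of the elements below a definable set -/
private theorem SRF_below {L : FirstOrder.Language.{0, 0}} {U : Type} [L.Structure U]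
    [LinearOrder U] (hord : (∅ : Set U).Definable L {v : Fin 2 → U | v 0 < v 1}) {B R : Set U}
    (hR : B.Definable₁ L R) : B.Definable₁ L {t | ∀ y, y ∈ R → t < y} := by
  have h1 : B.Definable L {w : Fin 2 → U | w 0 ∈ R → w 1 < w 0} :=
    Dx.imp (Dx.one hR 0) (Dx.lt hord B 1 0)
  exact Dx.all (P := fun w : Fin 2 → U => w 0 ∈ R → w 1 < w 0) h1

theorem thm_SRF (hSBAS : St_SBAS) (hSEXT : St_SEXT) (hSQA : St_SQA) (hSQC : St_SQC)
    (hSFR : St_SFR) (hSRC : St_SRC) (hSRD : St_SRD) : St_SRF := by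
  intro L U _ _ hW C a g hg F hF hFQ hFr x hx hpos hI
  have hCf : C.Finite := hg.fin
  have hBf : (C ∪ F).Finite := hCf.union hF
  have hCB : C ⊆ C ∪ F := subset_union_left
  obtain ⟨⟨b1, b1'⟩, -, -, b4, b5, b5', b6, b7, b8⟩ := hSBAS L U hW C a g hg
  obtain ⟨e1, -, -, -, -, -, -, -, e9, e10, -⟩ := hSEXT L U hW C a g hg C hCf (fun _ h => h)
  obtain ⟨o1, o2, o3, -⟩ := thm_ORB (thm_DEF1 thm_DEFF) L U hW.mon
  obtain ⟨f1, f2, f3, f4, f5⟩ := hSFR L U hW C a g hg
  obtain ⟨-, -, q3, q4, -, -, q7, -, -⟩ := hSQA L U hW C a g hg C hCf (fun _ h => h)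
  obtain ⟨-, -, p3, p4, -, -, p7, -, -⟩ := hSQA L U hW C a g hg (C ∪ F) hBf hCB
  have hxR : x ∈ Orb L (C ∪ F) x := o1 _ x
  have hS : (C ∪ F).Definable₁ L {t | ∀ y, y ∈ Orb L (C ∪ F) x → t < y} := SRF_below hW.ord hI
  by_cases hall : ∀ y ∈ F, Fr a g x y
  · -- the lowest region
    have hxB : x ∈ QB L a g (C ∪ F) := by
      rw [hSRC L U hW C a g hg F hF hFQ hFr]
      exact ⟨hx, hall⟩
    have hQ := p3 x hxB
    have hU : (⋃ n, Gn a g n) = {t | ∀ y, y ∈ Orb L (C ∪ F) x → t < y} := by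
      ext t
      constructor
      · intro ht y hy
        obtain ⟨n, hn⟩ := mem_iUnion.1 ht
        rw [← hQ] at hy
        by_contra hlt
        exact (p4 y hy).1 n ((b1 n).1 t hn y (not_lt.1 hlt))
      · intro ht
        by_contra hcon
        have h1 : ∀ n, t ∉ Gn a g n := fun n hn => hcon (mem_iUnion.2 ⟨n, hn⟩)
        have h2 := p7 x hxB t (ht x hxR).le h1
        rw [hQ] at h2
        exact lt_irrefl _ (ht t h2)
    refine b8 (C ∪ F) hBf ?_
    rw [hU]
    exact hS
  · -- other regions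
    push Not at hall
    obtain ⟨y₀, hy₀F, hy₀⟩ := hall
    have hy₀' : Fr a g y₀ x := (hpos y₀ hy₀F).resolve_left hy₀
    obtain ⟨y₁, ⟨hy₁F, hy₁x⟩, hmax⟩ : ∃ y₁ ∈ {y | y ∈ F ∧ Fr a g y x},
        ∀ y ∈ {y | y ∈ F ∧ Fr a g y x}, y ≤ y₁ := by
      have hfin : {y | y ∈ F ∧ Fr a g y x}.Finite := hF.subset fun y hy => hy.1
      obtain ⟨m, hm, hm'⟩ := Set.exists_max_image _ id hfin ⟨y₀, hy₀F, hy₀'⟩
      exact ⟨m, hm, hm'⟩
    have hy₁Q : y₁ ∈ QB L a g C := hFQ hy₁F
    have hlow : ∀ n, Low (itr a g n (Iic y₁)) := by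
      intro n
      cases n with
      | zero => exact fun y hy z hz => le_trans hz hy
      | succ n =>
        have h1 : itr a g (n + 1) (Iic y₁) = ext a g (itr a g n (Iic y₁)) :=
          Function.iterate_succ_apply' _ _ _
        rw [h1]
        exact e1 g hg.low _
    have hmem : ∀ z, z ∈ Orb L (C ∪ F) x ↔ z ∈ QB L a g C ∧
        ∀ y ∈ F, (Fr a g x y ∧ Fr a g z y) ∨ (Fr a g y x ∧ Fr a g y z) := by
      intro z
      constructor
      · intro hz
        refine ⟨?_, ?_⟩
        · rw [q3 x hx]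
          exact o3 C (C ∪ F) x hCB hz
        · obtain ⟨σ, hσ, rfl⟩ := hz
          intro y hy
          have hσy : σ y = y := hσ y (Or.inr hy)
          have hσC : Fx L C σ := fun c hc => hσ c (Or.inl hc)
          rcases hpos y hy with h | h
          · left
            refine ⟨h, ?_⟩
            have h1 := (f5 σ hσC x y).2 h
            rwa [hσy] at h1
          · right
            refine ⟨h, ?_⟩
            have h1 := (f5 σ hσC y x).2 h
            rwa [hσy] at h1
      · rintro ⟨hz, hzF⟩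
        exact hSRD L U hW C a g hg F hF hFQ hFr x hx z hz hzF
    have hsup : ∀ n, ∀ t ∈ itr a g n (Iic y₁), ∀ z ∈ Orb L (C ∪ F) x, t < z := by
      intro n t ht z hz
      obtain ⟨-, hzF⟩ := (hmem z).1 hz
      have h1 : Fr a g y₁ z := by
        rcases hzF y₁ hy₁F with h | h
        · exfalso
          exact lt_asymm h.1.1 hy₁x.1
        · exact h.2
      by_contra hlt
      exact h1.2 n (hlow n t ht z (not_lt.1 hlt))
    have hsub : ∀ t, (∀ z, z ∈ Orb L (C ∪ F) x → t < z) → ∃ n, t ∈ itr a g n (Iic y₁) := by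
      intro t ht
      by_contra hcon
      push Not at hcon
      have h1 : y₁ < t := by
        by_contra hlt
        exact hcon 0 (not_lt.1 hlt)
      have h2 : Fr a g y₁ t := ⟨h1, hcon⟩
      have h3 : t < x := ht x hxR
      have h4 : t ∈ QB L a g C := by
        refine q7 x hx t h3.le fun n hn => ?_
        exact (q4 y₁ hy₁Q).1 n ((b1 n).1 t hn y₁ h1.le)
      have h5 : t ∈ Orb L (C ∪ F) x := by
        rw [hmem]
        refine ⟨h4, fun y hy => ?_⟩
        rcases hpos y hy with h | h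
        · exact Or.inl ⟨h, f1 x y t y h h3.le le_rfl⟩
        · exact Or.inr ⟨h, f1 y₁ t y t h2 (hmax y ⟨hy, h⟩) le_rfl⟩
      exact lt_irrefl _ (ht t h5)
    have hay₁ : a ≤ y₁ := (q4 y₁ hy₁Q).2.le
    have hstep : ∀ n, itr a g n (Iic y₁) ⊆ itr a g (n + 1) (Iic y₁) := by
      intro n
      have h1 : Iic y₁ ⊆ itr a g 1 (Iic y₁) := e10 g 1 y₁ (b5 C fun _ h => h) hay₁
      have h2 := e9 g _ _ n h1
      have h3 : itr a g (n + 1) (Iic y₁) = itr a g n (itr a g 1 (Iic y₁)) :=
        Function.iterate_add_apply _ _ _ _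
      rw [h3]
      exact h2
    have hmono : ∀ j k, j ≤ k → itr a g j (Iic y₁) ⊆ itr a g k (Iic y₁) := by
      intro j k hjk
      induction k, hjk using Nat.le_induction with
      | base => exact fun _ h => h
      | succ k _ ih => exact ih.trans (hstep k)
    have hsat : (⋂₀ {S : Set U | ∃ n, S = {t | ∀ y, y ∈ Orb L (C ∪ F) x → t < y} \
        itr a g n (Iic y₁)}).Nonempty := by
      refine hW.mon.sat (C ∪ F) hBf _ ?_ ?_
      · rintro S ⟨n, rfl⟩
        exact hS.sdiff (df_par (df_itr hW.ord hg.aC hg.df n) hCB (Or.inr hy₁F))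
      · intro G hG hGf
        have h2 : ∃ n, {t | ∀ y, y ∈ Orb L (C ∪ F) x → t < y} \ itr a g n (Iic y₁) ⊆ ⋂₀ G := by
          induction G, hGf using Set.Finite.induction_on with
          | empty => exact ⟨0, by simp⟩
          | @insert S G _ _ ih =>
            obtain ⟨k, hk⟩ := ih fun S hS => hG (mem_insert_of_mem _ hS)
            obtain ⟨j, hj⟩ := hG (mem_insert S G)
            refine ⟨max j k, ?_⟩
            rw [sInter_insert]
            refine subset_inter ?_ (Subset.trans ?_ hk)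
            · rw [hj]
              exact fun t ht => ⟨ht.1, fun h => ht.2 (hmono j _ (le_max_left j k) h)⟩
            · exact fun t ht => ⟨ht.1, fun h => ht.2 (hmono k _ (le_max_right j k) h)⟩
        obtain ⟨n, hn⟩ := h2
        obtain ⟨-, -, h3, -⟩ := hSQC L U hW C a g hg C hCf (fun _ h => h) y₁ hy₁Q n
        obtain ⟨t, ht, ht'⟩ := Set.not_subset.1 h3
        exact ⟨t, hn ⟨fun z hz => hsup (n + 1) t ht z hz, ht'⟩⟩
    obtain ⟨t, ht⟩ := hsat
    have h0 := ht _ ⟨0, rfl⟩
    obtain ⟨n, hn⟩ := hsub t h0.1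
    exact (ht _ ⟨n, rfl⟩).2 hn

end Pool.Agent.WOM
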