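import Pool.Agent.WOM.StS3

/-!
WOM, module SRQ: far sequences of type `ℚ`.
-/

set_option autoImplicit false
set_option linter.unusedVariables false

namespace Pool.Agent.WOM

open FirstOrder.Language Set
open scoped FirstOrder

/-- the values at the first `n` rational numbers are in `Q` and in the right position -/
def SRQ_good {U : Type} (Q : Set U) (R : U → U → Prop) (i : ℚ → ℕ) (n : ℕ) (b : ℚ → U) : Prop :=
  (∀ q, i q < n → b q ∈ Q) ∧ ∀ q q', i q < n → i q' < n → q < q' → R (b q) (b q')

/-- a family of extensions gives a function on `ℚ` -/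
lemma SRQ_seq {U : Type} (Q : Set U) (R : U → U → Prop) (i : ℚ → ℕ) (b₀ : ℚ → U)
    (h : ∀ n b, SRQ_good Q R i n b →
      ∃ b', SRQ_good Q R i (n + 1) b' ∧ ∀ q, i q < n → b' q = b q) :
    ∃ b : ℚ → U, (∀ q, b q ∈ Q) ∧ ∀ q q', q < q' → R (b q) (b q') := by
  classical
  choose! nx hnx1 hnx2 using h
  set F : ℕ → (ℚ → U) := fun n => Nat.rec b₀ (fun n b => nx n b) n with hF
  have hF1 : ∀ n, F (n + 1) = nx n (F n) := fun n => rfl
  have hg : ∀ n, SRQ_good Q R i n (F n) := by
    intro n
    induction n with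
    | zero => exact ⟨fun q hq => absurd hq (Nat.not_lt_zero _), fun q q' hq => absurd hq (Nat.not_lt_zero _)⟩
    | succ n ih =>
      rw [hF1]
      exact hnx1 n (F n) ih
  have hs : ∀ n k q, i q < n → F (n + k) q = F n q := by
    intro n k q hq
    induction k with
    | zero => rfl
    | succ k ih =>
      rw [← add_assoc, hF1, hnx2 (n + k) (F (n + k)) (hg (n + k)) q (by omega), ih]
  have hval : ∀ n q, i q < n → F (i q + 1) q = F n q := by
    intro n q hq
    obtain ⟨k, rfl⟩ := Nat.exists_eq_add_of_le (Nat.succ_le_of_lt hq)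
    exact (hs (i q + 1) k q (Nat.lt_succ_self _)).symm
  refine ⟨fun q => F (i q + 1) q, fun q => (hg _).1 q (Nat.lt_succ_self _), fun q q' hqq => ?_⟩
  have h1 := (hg (max (i q) (i q') + 1)).2 q q' (by omega) (by omega) hqq
  simp only
  rw [hval (max (i q) (i q') + 1) q (by omega), hval (max (i q) (i q') + 1) q' (by omega)]
  exact h1

theorem thm_SRQ (hSRE : St_SRE) : St_SRQ := by
  intro L U _ _ hW C a g hS
  classical
  set i : ℚ → ℕ := fun q => (Denumerable.eqv ℚ) q with hi
  have hinj : Function.Injective i := (Denumerable.eqv ℚ).injective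
  have hsur : ∀ n, ∃ q, i q = n := fun n => (Denumerable.eqv ℚ).surjective n
  apply SRQ_seq (QB L a g C) (Fr a g) i (fun _ => a)
  intro n b hb
  obtain ⟨hb1, hb2⟩ := hb
  obtain ⟨q₀, hq₀⟩ := hsur n
  have hfin : {q | i q < n}.Finite := (Set.finite_Iio n).preimage hinj.injOn
  -- the order of the values
  have hord : ∀ q q', i q < n → i q' < n → b q < b q' → q < q' := by
    intro q q' h1 h2 h3
    rcases lt_trichotomy q q' with h | h | h
    · exact h
    · rw [h] at h3
      exact absurd h3 (lt_irrefl _)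
    · exact absurd (hb2 q' q h2 h1 h).1 (not_lt.2 h3.le)
  obtain ⟨x, hx, hx1, hx2⟩ := hSRE L U hW C a g hS (b '' {q | i q < n}) (hfin.image b)
    (by
      rintro _ ⟨q, hq, rfl⟩
      exact hb1 q hq)
    (by
      rintro _ ⟨q, hq, rfl⟩ _ ⟨q', hq', rfl⟩ hlt
      exact hb2 q q' hq hq' (hord q q' hq hq' hlt))
    (b '' {q | i q < n ∧ q < q₀})
    (by
      rintro _ ⟨q, hq, rfl⟩
      exact ⟨q, hq.1, rfl⟩)
    (by
      rintro _ ⟨q, hq, rfl⟩ _ ⟨q', hq', rfl⟩ hlt
      exact ⟨q', ⟨hq', (hord q' q hq' hq.1 hlt).trans hq.2⟩, rfl⟩)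
  have hne : ∀ q, i q < n → q ≠ q₀ := by
    intro q hq h
    rw [h, hq₀] at hq
    exact lt_irrefl _ hq
  have hcase : ∀ q, i q < n + 1 → q ≠ q₀ → i q < n := by
    intro q hq h
    have : i q ≠ n := fun h' => h (hinj (h'.trans hq₀.symm))
    omega
  refine ⟨Function.update b q₀ x, ⟨?_, ?_⟩, ?_⟩
  · intro q hq
    by_cases h : q = q₀
    · rw [h, Function.update_self]
      exact hx
    · rw [Function.update_of_ne h]
      exact hb1 q (hcase q hq h)
  · intro q q' hq hq' hlt
    by_cases h : q = q₀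
    · have h' : q' ≠ q₀ := fun h' => by
        rw [h, h'] at hlt
        exact lt_irrefl _ hlt
      rw [h, Function.update_self, Function.update_of_ne h']
      have hi' := hcase q' hq' h'
      apply hx2 _ ⟨q', hi', rfl⟩
      rintro ⟨q'', ⟨h1, h2⟩, h3⟩
      have h4 : q'' < q' := h2.trans (h ▸ hlt)
      have h5 := (hb2 q'' q' h1 hi' h4).1
      rw [h3] at h5
      exact lt_irrefl _ h5
    · rw [Function.update_of_ne h]
      have hi' := hcase q hq h
      by_cases h' : q' = q₀
      · rw [h', Function.update_self]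
        exact hx1 _ ⟨q, ⟨hi', h' ▸ hlt⟩, rfl⟩
      · rw [Function.update_of_ne h']
        exact hb2 q q' hi' (hcase q' hq' h') hlt
  · intro q hq
    exact Function.update_of_ne (hne q hq) _ _

end Pool.Agent.WOM
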