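import Pool.Agent.WOM.StC

/-!
WOM [NSB]: nonorthogonality, elementary facts.
-/

set_option autoImplicit false
set_option linter.unusedVariables false

namespace Pool.Agent.WOM

open FirstOrder.Language Set
open scoped FirstOrder

section nsb

variable {L : FirstOrder.Language.{0, 0}} {U : Type} [L.Structure U]

private theorem nsb_fx_refl (A : Set U) : Fx L A (FirstOrder.Language.Equiv.refl L U) :=
  fun _ _ => rfl

private theorem nsb_fx_symm {A : Set U} {g : U ≃[L] U} (h : Fx L A g) : Fx L A g.symm := by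
  intro a ha
  have := h a ha
  calc g.symm a = g.symm (g a) := by rw [this]
    _ = a := g.symm_apply_apply a

private theorem nsb_fx_comp {A : Set U} {g h : U ≃[L] U} (hg : Fx L A g) (hh : Fx L A h) :
    Fx L A (g.comp h) := by
  intro a ha
  rw [FirstOrder.Language.Equiv.comp_apply, hh a ha, hg a ha]

private theorem nsb_mem (A : Set U) (x : U) : x ∈ Orb L A x :=
  ⟨FirstOrder.Language.Equiv.refl L U, nsb_fx_refl A, rfl⟩

private theorem nsb_symm {A : Set U} {x y : U} (h : y ∈ Orb L A x) : x ∈ Orb L A y := by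
  obtain ⟨g, hg, rfl⟩ := h
  exact ⟨g.symm, nsb_fx_symm hg, g.symm_apply_apply x⟩

private theorem nsb_trans {A : Set U} {x y z : U} (h : y ∈ Orb L A x) (h' : z ∈ Orb L A y) :
    z ∈ Orb L A x := by
  obtain ⟨g, hg, rfl⟩ := h
  obtain ⟨k, hk, rfl⟩ := h'
  exact ⟨k.comp g, nsb_fx_comp hk hg, FirstOrder.Language.Equiv.comp_apply k g x⟩

private theorem nsb_eq {A : Set U} {x y : U} (h : y ∈ Orb L A x) : Orb L A y = Orb L A x := by
  ext z
  exact ⟨fun hz => nsb_trans h hz, fun hz => nsb_trans (nsb_symm h) hz⟩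

private theorem nsb_mono {A B : Set U} (hAB : A ⊆ B) (x : U) : Orb L B x ⊆ Orb L A x := by
  rintro y ⟨g, hg, rfl⟩
  exact ⟨g, fun a ha => hg a (hAB ha), rfl⟩

private theorem nsb_map (σ : U ≃[L] U) (A : Set U) (x : U) :
    Orb L (σ '' A) (σ x) = σ '' Orb L A x := by
  ext y
  constructor
  · rintro ⟨g, hg, rfl⟩
    refine ⟨σ.symm (g (σ x)), ⟨σ.symm.comp (g.comp σ), ?_, ?_⟩, σ.apply_symm_apply _⟩
    · intro a ha
      rw [FirstOrder.Language.Equiv.comp_apply, FirstOrder.Language.Equiv.comp_apply,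
        hg (σ a) ⟨a, ha, rfl⟩, σ.symm_apply_apply]
    · rw [FirstOrder.Language.Equiv.comp_apply, FirstOrder.Language.Equiv.comp_apply]
  · rintro ⟨_, ⟨g, hg, rfl⟩, rfl⟩
    refine ⟨σ.comp (g.comp σ.symm), ?_, ?_⟩
    · rintro _ ⟨a, ha, rfl⟩
      rw [FirstOrder.Language.Equiv.comp_apply, FirstOrder.Language.Equiv.comp_apply,
        σ.symm_apply_apply, hg a ha]
    · rw [FirstOrder.Language.Equiv.comp_apply, FirstOrder.Language.Equiv.comp_apply,
        σ.symm_apply_apply]

private theorem nsb_single {A : Set U} {x : U} (hx : x ∈ A) : Orb L A x = {x} := by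
  ext y
  constructor
  · rintro ⟨g, hg, rfl⟩
    exact hg x hx
  · rintro rfl
    exact nsb_mem A y

/-- weak orthogonality is: every conjugate of `z` over `A` is one over `x, A` -/
private theorem nsb_not {A : Set U} {x z : U} :
    ¬ Nn L A x z ↔ ∀ y ∈ Orb L A z, y ∈ Orb L (insert x A) z := by
  unfold Nn
  rw [not_not]
  constructor
  · intro h y hy
    rw [h]; exact hy
  · intro h
    exact Set.Subset.antisymm (nsb_mono (subset_insert x A) z) h

private theorem nsb_not_symm {A : Set U} {x z : U} (h : ¬ Nn L A z x) : ¬ Nn L A x z := by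
  rw [nsb_not] at h ⊢
  rintro y ⟨g, hg, rfl⟩
  -- `g z` is conjugate to `z` over `A, x`
  have h1 : g.symm x ∈ Orb L (insert z A) x := h _ ⟨g.symm, nsb_fx_symm hg, rfl⟩
  obtain ⟨ρ, hρ, hρx⟩ := h1
  refine ⟨g.comp ρ, ?_, ?_⟩
  · intro a ha
    rw [FirstOrder.Language.Equiv.comp_apply]
    rcases ha with rfl | ha
    · rw [hρx]; exact g.apply_symm_apply a
    · rw [hρ a (mem_insert_of_mem z ha), hg a ha]
  · rw [FirstOrder.Language.Equiv.comp_apply, hρ z (mem_insert z A)]

private theorem nsb_map_not (σ : U ≃[L] U) (A : Set U) (x z : U) (h : Nn L A x z) :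
    Nn L (σ '' A) (σ x) (σ z) := by
  unfold Nn at h ⊢
  intro h'
  apply h
  rw [← image_insert_eq, nsb_map, nsb_map] at h'
  exact (image_injective.mpr σ.injective) h'

private theorem nsb_fix_image {A : Set U} {σ : U ≃[L] U} (h : Fx L A σ) : σ '' A = A := by
  ext y
  constructor
  · rintro ⟨a, ha, rfl⟩
    rw [h a ha]; exact ha
  · intro hy
    exact ⟨y, hy, h y hy⟩

private theorem nsb_left {A : Set U} {x z x' : U} (hx : x' ∈ Orb L A x) (h : Nn L A x z) :
    Nn L A x' z := by
  obtain ⟨σ, hσ, rfl⟩ := hx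
  have h1 := nsb_map_not σ A x z h
  rw [nsb_fix_image hσ] at h1
  have h2 : z ∈ Orb L A (σ z) := nsb_symm ⟨σ, hσ, rfl⟩
  -- change `σ z` to `z`
  intro h3
  apply h1
  apply Set.Subset.antisymm (nsb_mono (subset_insert _ A) _)
  intro y hy
  have h4 : y ∈ Orb L A z := by rw [nsb_eq h2]; exact hy
  have h5 : σ z ∈ Orb L A z := ⟨σ, hσ, rfl⟩
  rw [← h3] at h4 h5
  exact nsb_trans (nsb_symm h5) h4

private theorem nsb_triv {A : Set U} {x z : U} (h : Nn L A x z) : Orb L A z ≠ {z} := by
  intro h1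
  apply h
  apply Set.Subset.antisymm (nsb_mono (subset_insert x A) z)
  rw [h1]
  rintro y rfl
  exact nsb_mem _ _

private theorem nsb_symm' {A : Set U} {x z : U} (h : Nn L A x z) : Nn L A z x := by
  by_contra h'
  exact nsb_not_symm h' h

end nsb

theorem thm_NSB : St_NSB := by
  intro L U _
  refine ⟨fun A x z h => nsb_symm' h, ?_, fun σ A x z h => nsb_map_not σ A x z h, ?_, ?_, ?_⟩
  · intro A x z x' z' hx hz h
    exact nsb_symm' (nsb_left hz (nsb_symm' (nsb_left hx h)))
  · intro A x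
    unfold Nn
    rw [nsb_single (mem_insert x A)]
    exact ⟨fun h h' => h h'.symm, fun h h' => h h'.symm⟩
  · intro A x z h
    exact ⟨nsb_triv (nsb_symm' h), nsb_triv h⟩
  · intro hna A B a c hAB hB h
    have key : ∀ (D : Set U), D.Finite → ¬ Nn L (D ∪ A) a c := by
      intro D hD
      induction D, hD using Set.Finite.induction_on with
      | empty => rw [empty_union]; exact h
      | @insert d D hd hDf ih =>
        rw [insert_union]
        exact hna (D ∪ A) a c d (hDf.union (hB.subset hAB)) ih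
    have := key B hB
    rwa [union_eq_self_of_subset_right hAB] at this

end Pool.Agent.WOM
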