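import Pool.Agent.WOM.StS5
import Pool.Agent.WOM.ORB
import Pool.Agent.WOM.DEF1
import Pool.Agent.WOM.NSB
import Pool.Agent.WOM.nCNV

/-!
WOM, [STA]: homogeneity of the configuration of Lemma T (helper47).
-/

set_option autoImplicit false
set_option linter.unusedVariables false

namespace Pool.Agent.WOM

open FirstOrder.Language Set
open scoped FirstOrder

section STA

variable {L : FirstOrder.Language.{0, 0}} {U : Type} [L.Structure U]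

private theorem STA_fxs {A : Set U} {g : U ≃[L] U} (hg : Fx L A g) : Fx L A g.symm := by
  intro a ha
  have h := hg a ha
  calc g.symm a = g.symm (g a) := by rw [h]
    _ = a := g.symm_apply_apply a

private theorem STA_im {A : Set U} {g : U ≃[L] U} (hg : Fx L A g) : g '' A = A := by
  ext z
  constructor
  · rintro ⟨a, ha, rfl⟩
    rw [hg a ha]
    exact ha
  · intro hz
    exact ⟨z, hz, hg z hz⟩

/-- one half of the homogeneity -/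
private theorem STA_one (hM : Mon L U) {A P Q : Set U}
    (o : ∀ (σ : U ≃[L] U) (A : Set U) (x : U), Orb L (σ '' A) (σ x) = σ '' Orb L A x)
    (hQ : Q.Nonempty) (pq : ∀ y ∈ Q, ∀ x ∈ P, Orb L (insert y A) x = P)
    (qp : ∀ x ∈ P, ∀ y ∈ Q, Orb L (insert x A) y = Q) (σ : U ≃[L] U) (hσ : Fx L A σ) {x : U}
    (hx : x ∈ P) (hsx : σ x ∈ P) : σ '' P = P ∧ σ '' Q = Q := by
  obtain ⟨y, hy⟩ := hQ
  have h1 : σ x ∈ Orb L (insert y A) x := by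
    rw [pq y hy x hx]
    exact hsx
  obtain ⟨ρ, hρ, hρx⟩ := h1
  have h2 : σ y ∈ Orb L (insert (σ x) A) y := by
    refine ⟨σ.comp ρ.symm, ?_, ?_⟩
    · rintro a (rfl | ha)
      · show σ (ρ.symm (σ x)) = σ x
        rw [← hρx, ρ.symm_apply_apply, hρx]
      · show σ (ρ.symm a) = a
        rw [STA_fxs hρ a (mem_insert_of_mem _ ha), hσ a ha]
    · show σ (ρ.symm y) = σ y
      rw [STA_fxs hρ y (mem_insert _ _)]
  rw [qp (σ x) hsx y hy] at h2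
  refine ⟨?_, ?_⟩
  · have h3 := o σ (insert y A) x
    rw [pq y hy x hx, image_insert_eq, STA_im hσ, pq (σ y) h2 (σ x) hsx] at h3
    exact h3.symm
  · have h3 := o σ (insert x A) y
    rw [qp x hx y hy, image_insert_eq, STA_im hσ, qp (σ x) hsx (σ y) h2] at h3
    exact h3.symm

end STA

theorem thm_STA : St_STA := by
  intro L U _ _ hW A P Q R h
  obtain ⟨o1, o2, -, o4, -⟩ := thm_ORB (thm_DEF1 thm_DEFF) L U hW.mon
  obtain ⟨n1, -, -, -, n5, -⟩ := thm_NSB L U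
  obtain ⟨-, hcv⟩ := thm_nCNV (thm_ORB (thm_DEF1 thm_DEFF)) L U hW
  obtain ⟨hfin, ⟨⟨x₀, hx₀⟩, ⟨y₀, hy₀⟩, ⟨c₀, hc₀⟩⟩, pq, qp, rr, rp, rq, nn⟩ := h
  have k1 : ∀ σ : U ≃[L] U, Fx L A σ → ((∃ x ∈ P, σ x ∈ P) ∨ ∃ y ∈ Q, σ y ∈ Q) →
      σ '' P = P ∧ σ '' Q = Q ∧ σ '' R = R := by
    intro σ hσ h
    have hR : σ '' R = R := by
      have h3 := o4 σ A c₀
      have h4 : σ c₀ ∈ Orb L A c₀ := ⟨σ, hσ, rfl⟩
      rw [rr c₀ hc₀] at h3 h4
      rw [STA_im hσ, rr (σ c₀) h4] at h3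
      exact h3.symm
    rcases h with ⟨x, hx, hsx⟩ | ⟨y, hy, hsy⟩
    · obtain ⟨h1, h2⟩ := STA_one hW.mon o4 ⟨y₀, hy₀⟩ pq qp σ hσ hx hsx
      exact ⟨h1, h2, hR⟩
    · obtain ⟨h1, h2⟩ := STA_one hW.mon o4 ⟨x₀, hx₀⟩ qp pq σ hσ hy hsy
      exact ⟨h2, h1, hR⟩
  have k2 : ∀ x ∈ P, ∀ y ∈ Q, ∀ x' ∈ P, ∀ y' ∈ Q, ∃ σ : U ≃[L] U, Fx L A σ ∧ σ x = x' ∧
      σ y = y' := by
    intro x hx y hy x' hx' y' hy'
    have h1 : x' ∈ Orb L (insert y A) x := by rwa [pq y hy x hx]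
    obtain ⟨σ₁, h2, h3⟩ := h1
    have h4 : y' ∈ Orb L (insert x' A) y := by rwa [qp x' hx' y hy]
    obtain ⟨σ₂, h5, h6⟩ := h4
    refine ⟨σ₂.comp σ₁, fun a ha => ?_, ?_, ?_⟩
    · show σ₂ (σ₁ a) = a
      rw [h2 a (mem_insert_of_mem _ ha), h5 a (mem_insert_of_mem _ ha)]
    · show σ₂ (σ₁ x) = x'
      rw [h3, h5 x' (mem_insert _ _)]
    · show σ₂ (σ₁ y) = y'
      rw [h2 y (mem_insert _ _), h6]
  -- the same for `(x, c)`, in general form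
  have kc : ∀ (P Q : Set U), Q.Nonempty → (∀ y ∈ Q, ∀ x ∈ P, Orb L (insert y A) x = P) →
      (∀ x ∈ P, ∀ c ∈ R, Orb L (insert x A) c = R) →
      ∀ x ∈ P, ∀ c ∈ R, ∀ x' ∈ P, ∀ c' ∈ R, ∃ σ : U ≃[L] U, Fx L A σ ∧ σ x = x' ∧ σ c = c' := by
    intro P Q hQ pq rp x hx c hc x' hx' c' hc'
    obtain ⟨y, hy⟩ := hQ
    have h1 : x' ∈ Orb L (insert y A) x := by rwa [pq y hy x hx]
    obtain ⟨σ₁, h2, h3⟩ := h1
    have h7 : σ₁ c ∈ Orb L A c := ⟨σ₁, fun a ha => h2 a (mem_insert_of_mem _ ha), rfl⟩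
    rw [rr c hc] at h7
    have h4 : c' ∈ Orb L (insert x' A) (σ₁ c) := by rwa [rp x' hx' (σ₁ c) h7]
    obtain ⟨σ₂, h5, h6⟩ := h4
    refine ⟨σ₂.comp σ₁, fun a ha => ?_, ?_, ?_⟩
    · show σ₂ (σ₁ a) = a
      rw [h2 a (mem_insert_of_mem _ ha), h5 a (mem_insert_of_mem _ ha)]
    · show σ₂ (σ₁ x) = x'
      rw [h3, h5 x' (mem_insert _ _)]
    · exact h6
  have k3 := kc P Q ⟨y₀, hy₀⟩ pq rp
  have k4 := kc Q P ⟨x₀, hx₀⟩ qp rq
  have k5 : ∀ x ∈ P, ∀ y ∈ Q, ∀ c ∈ R, Orb L (insert c (insert y A)) x ≠ P := by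
    obtain ⟨x₁, hx₁, y₁, hy₁, c₁, hc₁, hn⟩ := nn
    intro x hx y hy c hc he
    obtain ⟨σ, h1, h2, h3⟩ := k4 y₁ hy₁ c₁ hc₁ y hy c hc
    obtain ⟨h4, -, -⟩ := k1 σ h1 (Or.inr ⟨y₁, hy₁, by rw [h2]; exact hy⟩)
    have h5 : σ x₁ ∈ P := by
      rw [← h4]
      exact mem_image_of_mem _ hx₁
    have h6 : σ x₁ ∈ Orb L (insert c (insert y A)) x := by
      rw [he]
      exact h5
    have h7 := o2 _ _ _ h6
    have h8 := o4 σ (insert c₁ (insert y₁ A)) x₁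
    rw [image_insert_eq, image_insert_eq, STA_im h1, h2, h3, h7, he] at h8
    apply hn
    have h9 : σ '' Orb L (insert c₁ (insert y₁ A)) x₁ = σ '' P := by
      rw [← h8, h4]
    exact (image_injective.mpr σ.injective) h9
  have k5' : ∀ x ∈ P, ∀ y ∈ Q, ∀ c ∈ R, Nn L (insert y A) c x := by
    intro x hx y hy c hc
    unfold Nn
    rw [pq y hy x hx]
    exact k5 x hx y hy c hc
  have k6' : ∀ x ∈ P, ∀ y ∈ Q, ∀ c ∈ R, Nn L (insert x A) c y := by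
    intro x hx y hy c hc
    by_contra hcon
    have h1 : ¬ Nn L (insert x A) y c := fun h => hcon (n1 _ _ _ h)
    unfold Nn at h1
    push Not at h1
    rw [rp x hx c hc] at h1
    have h2 : ¬ Nn L (insert y A) x c := by
      unfold Nn
      push Not
      rw [rq y hy c hc, insert_comm]
      exact h1
    exact h2 (n1 _ _ _ (k5' x hx y hy c hc))
  have k6 : ∀ x ∈ P, ∀ y ∈ Q, ∀ c ∈ R, Orb L (insert c (insert x A)) y ≠ Q := by
    intro x hx y hy c hc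
    have h1 := k6' x hx y hy c hc
    unfold Nn at h1
    rwa [qp x hx y hy] at h1
  refine ⟨k1, k2, k3, k4, fun x hx y hy c hc => ⟨k5 x hx y hy c hc, k5' x hx y hy c hc⟩,
    fun x hx y hy c hc => ⟨k6 x hx y hy c hc, k6' x hx y hy c hc⟩, ?_, ?_, ?_, ?_, ?_, ?_⟩
  · rw [← pq y₀ hy₀ x₀ hx₀]
    exact (hcv _ _ (hfin.insert _)).1
  · rw [← qp x₀ hx₀ y₀ hy₀]
    exact (hcv _ _ (hfin.insert _)).1
  · rw [← rr c₀ hc₀]
    exact (hcv _ _ hfin).1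
  · intro x hx
    have h1 := (n5 _ _ _ (k5' x hx y₀ hy₀ c₀ hc₀)).2
    rwa [pq y₀ hy₀ x hx] at h1
  · intro y hy
    have h1 := (n5 _ _ _ (k6' x₀ hx₀ y hy c₀ hc₀)).2
    rwa [qp x₀ hx₀ y hy] at h1
  · intro c hc
    have h1 := (n5 _ _ _ (k5' x₀ hx₀ y₀ hy₀ c hc)).1
    rwa [rq y₀ hy₀ c hc] at h1

end Pool.Agent.WOM
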