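import Pool.Agent.WOM.StS5
import Pool.Agent.WOM.SDF

/-!
WOM: proof of `St_STF` (helper74).
-/

set_option autoImplicit false
set_option linter.unusedVariables false

namespace Pool.Agent.WOM

open FirstOrder.Language Set
open scoped FirstOrder

section

variable {U : Type} [LinearOrder U]

private theorem STF_refl (s : Bool) (x : U) : leS s x x := by
  cases s <;> simp [leS]

private theorem STF_trans {s : Bool} {x y z : U} (h : leS s x y) (h' : leS s y z) : leS s x z := by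
  cases s
  · simp only [leS, Bool.false_eq_true, if_false] at h h' ⊢
    exact h'.trans h
  · simp only [leS, if_true] at h h' ⊢
    exact h.trans h'

private theorem STF_total (s : Bool) (x y : U) : leS s x y ∨ leS s y x := by
  cases s
  · simp only [leS, Bool.false_eq_true, if_false]
    exact le_total y x
  · simp only [leS, if_true]
    exact le_total x y

private theorem STF_conn {s : Bool} {R : Set U} (hR : R.OrdConnected) {x y z : U} (hx : x ∈ R)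
    (hz : z ∈ R) (h : leS s x y) (h' : leS s y z) : y ∈ R := by
  cases s
  · simp only [leS, Bool.false_eq_true, if_false] at h h'
    exact hR.out hz hx ⟨h', h⟩
  · simp only [leS, if_true] at h h'
    exact hR.out hx hz ⟨h, h'⟩

private theorem STF_dle {L : FirstOrder.Language.{0, 0}} [L.Structure U]
    (hord : (∅ : Set U).Definable L {v : Fin 2 → U | v 0 < v 1}) (A : Set U) (s : Bool) {n : ℕ}
    (i j : Fin n) : A.Definable L {v : Fin n → U | leS s (v i) (v j)} := by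
  cases s
  · have h : {v : Fin n → U | leS false (v i) (v j)} = {v : Fin n → U | v j ≤ v i} := by
      ext v
      simp [leS]
    rw [h]
    exact Dx.le hord A j i
  · have h : {v : Fin n → U | leS true (v i) (v j)} = {v : Fin n → U | v i ≤ v j} := by
      ext v
      simp [leS]
    rw [h]
    exact Dx.le hord A i j

private theorem STF_map {L : FirstOrder.Language.{0, 0}} [L.Structure U]
    (hm : ∀ (σ : U ≃[L] U) (x y : U), x < y ↔ σ x < σ y) (σ : U ≃[L] U) {s : Bool} {x y : U} :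
    leS s (σ x) (σ y) ↔ leS s x y := by
  have h1 : ∀ u v : U, σ u ≤ σ v ↔ u ≤ v := by
    intro u v
    rw [← not_lt, ← not_lt, ← hm σ v u]
  cases s
  · simp only [leS, Bool.false_eq_true, if_false]
    exact h1 y x
  · simp only [leS, if_true]
    exact h1 x y

private theorem STF_low {L : FirstOrder.Language.{0, 0}} [L.Structure U]
    (hm : ∀ (σ : U ≃[L] U) (x y : U), x < y ↔ σ x < σ y) (σ : U ≃[L] U) {K : Set U} (hK : Low K) :
    Low (σ '' K) := by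
  rintro _ ⟨k, hk, rfl⟩ y hy
  refine ⟨σ.symm y, hK k hk _ ?_, σ.apply_symm_apply y⟩
  rw [← not_lt] at hy ⊢
  intro h
  apply hy
  have h2 := (hm σ k (σ.symm y)).1 h
  rwa [σ.apply_symm_apply] at h2

end

theorem thm_STF (hORB : St_ORB) (hCNV : St_nCNV) (hSFX : St_SFX) (hGEX : St_nGEX)
    (hGER : St_nGER) (hFFR : St_nFFR) (hFAR : St_nFAR) (hSCUT : St_SCUT) (hSEP : St_SEP)
    (hSTA : St_STA) : St_STF := by
  intro L U _ _ hW A P Q R s hTC hTA
  obtain ⟨o1, o2, o3, o4, -, o6, -, -, -⟩ := hORB L U hW.mon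
  obtain ⟨hm, -⟩ := hCNV L U hW
  obtain ⟨-, f2, -, f4, f5, -⟩ := hSFX L U hW.mon
  have gex := hGEX L U hW
  obtain ⟨-, -, g3, g4, -, -, g7, -⟩ := hGER L U hW
  have ffr := hFFR L U hW
  obtain ⟨t1, -, -, t4, t5, -, -, -, hRc, -, -, hRs⟩ := hSTA L U hW A P Q R hTC
  have hAf := hTC.fin
  obtain ⟨⟨p₀, hp₀⟩, ⟨y₀, hy₀⟩, ⟨c₀, hc₀⟩⟩ := hTC.ne
  have hBf : ∀ z c : U, (insert c (insert z A)).Finite := fun z c => (hAf.insert z).insert c
  -- a separating cut over `c₀`, `y₀`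
  obtain ⟨K₀, hK₀, hK₀l, hK₀1, hK₀2⟩ : ∃ K₀ : Set U, (insert c₀ (insert y₀ A)).Definable₁ L K₀ ∧
      Low K₀ ∧ (∃ x ∈ P, x ∈ K₀) ∧ ∃ x ∈ P, x ∉ K₀ := by
    have h1 := (t5 p₀ hp₀ y₀ hy₀ c₀ hc₀).1
    have h2 : Orb L (insert c₀ (insert y₀ A)) p₀ ⊆ P := by
      have h3 := o3 (insert y₀ A) (insert c₀ (insert y₀ A)) p₀ (subset_insert _ _)
      rwa [hTC.pq y₀ hy₀ p₀ hp₀] at h3
    obtain ⟨x', hx', hx'2⟩ : ∃ x' ∈ P, x' ∉ Orb L (insert c₀ (insert y₀ A)) p₀ := by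
      by_contra hcon
      push Not at hcon
      exact h1 (h2.antisymm hcon)
    have hne : p₀ ≠ x' := by
      rintro rfl
      exact hx'2 (o1 _ _)
    rcases lt_or_gt_of_ne hne with hlt | hlt
    · obtain ⟨K, k1, k2, k3, k4⟩ := hSCUT L U hW _ p₀ x' (hBf y₀ c₀) hlt hx'2
      exact ⟨K, k1, k2, ⟨p₀, hp₀, k3⟩, ⟨x', hx', k4⟩⟩
    · have h3 : p₀ ∉ Orb L (insert c₀ (insert y₀ A)) x' := by
        intro h4
        apply hx'2
        rw [o2 _ _ _ h4]
        exact o1 _ _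
      obtain ⟨K, k1, k2, k3, k4⟩ := hSCUT L U hW _ x' p₀ (hBf y₀ c₀) hlt h3
      exact ⟨K, k1, k2, ⟨x', hx', k3⟩, ⟨p₀, hp₀, k4⟩⟩
  obtain ⟨K, hK, hK0⟩ := f4 A y₀ c₀ K₀ (by rw [insert_comm]; exact hK₀)
  have hKf := fun (σ : U ≃[L] U) (hσ : Fx L A σ) => f2 A K σ hK hσ
  have hKy : ∀ (z : U) (B : Set U), A ⊆ B → z ∈ B → DF L B (K z) := fun z B hAB hzB =>
    Dx.par (P := fun w : Fin 3 → U => w 2 ∈ K (w 0) (w 1)) hK hAB hzB
  have hdef : ∀ z c : U, (insert c (insert z A)).Definable₁ L (K z c) := by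
    intro z c
    exact df_par (hKy z (insert z A) (subset_insert _ _) (mem_insert _ _)) (subset_insert _ _)
      (mem_insert _ _)
  have hKp : ∀ z ∈ Q, ∀ c ∈ R, Low (K z c) ∧ (∃ x ∈ P, x ∈ K z c) ∧ ∃ x ∈ P, x ∉ K z c := by
    intro z hz c hc
    obtain ⟨σ, hσ, hσy, hσc⟩ := t4 y₀ hy₀ c₀ hc₀ z hz c hc
    have h1 : K z c = σ '' K₀ := by
      rw [← hσy, ← hσc, hKf σ hσ, hK0]
    have hP : σ '' P = P := (t1 σ hσ (Or.inr ⟨y₀, hy₀, by rw [hσy]; exact hz⟩)).1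
    rw [h1]
    refine ⟨STF_low hm σ hK₀l, ?_, ?_⟩
    · obtain ⟨x, hx, hx2⟩ := hK₀1
      refine ⟨σ x, ?_, mem_image_of_mem σ hx2⟩
      rw [← hP]
      exact mem_image_of_mem σ hx
    · obtain ⟨x, hx, hx2⟩ := hK₀2
      refine ⟨σ x, ?_, ?_⟩
      · rw [← hP]
        exact mem_image_of_mem σ hx
      · rintro ⟨k, hk, hk2⟩
        exact hx2 (by rwa [← σ.injective hk2])
  -- (E)
  have E1 : ∀ z ∈ Q, ∀ c ∈ R, ∀ x ∈ P, x ∈ Ge L (insert z A) x true (insert c (insert z A)) →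
      x ∉ K z c := by
    intro z hz c hc x hxP hx hxF
    have hP := hTC.pq z hz x hxP
    obtain ⟨hlow, -, ⟨p, hp, hpF⟩⟩ := hKp z hz c hc
    obtain ⟨u, hu, hpu⟩ := hx.2 p (by rw [hP]; exact hp)
    have hpu' : p ≤ u := by simpa [leS] using hpu
    exact hpF (hlow u (o6 _ _ (hdef z c) x hxF hu) p hpu')
  have E2 : ∀ z ∈ Q, ∀ c ∈ R, ∀ x ∈ P, x ∈ Ge L (insert z A) x false (insert c (insert z A)) →
      x ∈ K z c := by
    intro z hz c hc x hxP hx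
    have hP := hTC.pq z hz x hxP
    obtain ⟨hlow, ⟨p, hp, hpF⟩, -⟩ := hKp z hz c hc
    obtain ⟨u, hu, hpu⟩ := hx.2 p (by rw [hP]; exact hp)
    have hpu' : u ≤ p := by simpa [leS] using hpu
    have huF : u ∈ K z c := hlow p hpF u hpu'
    refine o6 _ _ (hdef z c) u huF ?_
    rw [o2 _ _ _ hu]
    exact o1 _ _
  -- the function
  obtain ⟨Φ, hΦ⟩ : ∃ Φ : U → U → Set U, ∀ y c t, t ∈ Φ y c ↔ ∃ c' ∈ R, leS s c c' ∧ t ∈ K y c' :=
    ⟨fun y c => {t | ∃ c' ∈ R, leS s c c' ∧ t ∈ K y c'}, fun _ _ _ => Iff.rfl⟩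
  have hRf : ∀ σ : U ≃[L] U, Fx L A σ → ∀ c ∈ R, σ c ∈ R := by
    intro σ hσ c hc
    rw [← hTC.rr c hc]
    exact ⟨σ, hσ, rfl⟩
  have hsym : ∀ σ : U ≃[L] U, Fx L A σ → Fx L A σ.symm := by
    intro σ hσ a ha
    have h := hσ a ha
    calc σ.symm a = σ.symm (σ a) := by rw [h]
      _ = a := σ.symm_apply_apply a
  have hΦσ : ∀ σ : U ≃[L] U, Fx L A σ → Φ (σ y₀) (σ c₀) = σ '' Φ y₀ c₀ := by
    intro σ hσ
    ext t
    constructor
    · intro ht
      obtain ⟨c', hc', h1, h2⟩ := (hΦ _ _ _).1 ht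
      have h3 : σ (σ.symm c') = c' := σ.apply_symm_apply c'
      rw [← h3, STF_map hm] at h1
      rw [← h3, hKf σ hσ] at h2
      obtain ⟨k, hk, rfl⟩ := h2
      exact ⟨k, (hΦ _ _ _).2 ⟨σ.symm c', hRf _ (hsym σ hσ) c' hc', h1, hk⟩, rfl⟩
    · rintro ⟨k, hk, rfl⟩
      obtain ⟨c', hc', h1, h2⟩ := (hΦ _ _ _).1 hk
      refine (hΦ _ _ _).2 ⟨σ c', hRf σ hσ c' hc', (STF_map hm σ).2 h1, ?_⟩
      rw [hKf σ hσ]
      exact mem_image_of_mem σ h2
  have hGeA : ∀ z ∈ Q, ∀ c ∈ R, ∀ x t, Ge L (insert z A) c t (insert x (insert z A)) =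
      Ge L A c t (insert x (insert z A)) := by
    intro z hz c hc x t
    refine g3 A (insert z A) (insert x (insert z A)) c t (subset_insert _ _) (subset_insert _ _)
      (hBf z x) ?_
    rw [hTC.rq z hz c hc, hTC.rr c hc]
  have hsT : sg s true = s := by cases s <;> rfl
  have hsF : sg s false = !s := by cases s <;> rfl
  -- properties of `Φ`
  have hΦp : ∀ z ∈ Q, ∀ c ∈ R, Low (Φ z c) ∧ (∃ x ∈ P, x ∈ Φ z c) ∧ ∃ x ∈ P, x ∉ Φ z c := by
    intro z hz c hc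
    refine ⟨?_, ?_, ?_⟩
    · intro x hx y hy
      obtain ⟨c', hc', h1, h2⟩ := (hΦ _ _ _).1 hx
      exact (hΦ _ _ _).2 ⟨c', hc', h1, (hKp z hz c' hc').1 x h2 y hy⟩
    · obtain ⟨x, hx, hx2⟩ := (hKp z hz c hc).2.1
      exact ⟨x, hx, (hΦ _ _ _).2 ⟨c, hc, STF_refl s c, hx2⟩⟩
    · obtain ⟨x, hx⟩ := (gex (insert z A) (insert c (insert z A)) p₀ true (subset_insert _ _)
        (hBf z c)).1
      have hxP : x ∈ P := by
        have := hx.1
        rwa [hTC.pq z hz p₀ hp₀] at this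
      rw [← g4 (insert z A) (insert c (insert z A)) p₀ x true hx.1] at hx
      have h1 := (hTA x hxP z hz c hc true).2 hx
      rw [hsT] at h1
      refine ⟨x, hxP, fun hxΦ => ?_⟩
      obtain ⟨c', hc', h2, h3⟩ := (hΦ _ _ _).1 hxΦ
      have hc'o : c' ∈ Orb L A c := by rw [hTC.rr c hc]; exact hc'
      have h4 := g7 A (insert x (insert z A)) c c c' s
        ((subset_insert _ _).trans (subset_insert _ _)) (hBf z x) h1 hc'o h2
      rw [← g4 A (insert x (insert z A)) c c' s hc'o] at h4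
      refine E1 z hz c' hc' x hxP ?_ h3
      refine (hTA x hxP z hz c' hc' true).1 ?_
      rw [hsT]
      exact h4
  -- definability
  have hfar : ∀ z ∈ Q, ∀ c ∈ R, ∀ c' ∈ Ge L (insert z A) c s (insert c (insert z A)),
      K z c' ⊆ K z c := by
    intro z hz c hc c' hc'
    have hoc := hTC.rq z hz c hc
    have hc'R : c' ∈ R := by
      have := hc'.1
      rwa [hoc] at this
    have hne : Orb L (insert z A) c ≠ {c} := by rw [hoc]; exact hRs c hc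
    obtain ⟨x, hxP, hx1, hx2⟩ : ∃ x ∈ P, c ∈ Ge L (insert z A) c (!s) (insert x (insert z A)) ∧
        c' ∈ Ge L (insert z A) c s (insert x (insert z A)) := by
      cases s
      · have h1 := ffr (insert z A) c c' false (hAf.insert z) hc'
        obtain ⟨x, hx, hx1, hx2⟩ := hSEP L U hW (insert z A) c p₀ (hAf.insert z) hne c' hc'.1 c h1
        rw [hTC.pq z hz p₀ hp₀] at hx
        exact ⟨x, hx, hx2, hx1⟩
      · obtain ⟨x, hx, hx1, hx2⟩ := hSEP L U hW (insert z A) c p₀ (hAf.insert z) hne c (o1 _ _) c'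
          hc'
        rw [hTC.pq z hz p₀ hp₀] at hx
        exact ⟨x, hx, hx1, hx2⟩
    rw [hGeA z hz c hc] at hx1 hx2
    have hc'o : c' ∈ Orb L A c := by rw [hTC.rr c hc]; exact hc'R
    rw [← g4 A (insert x (insert z A)) c c' s hc'o] at hx2
    have h3 : x ∈ K z c := E2 z hz c hc x hxP ((hTA x hxP z hz c hc false).1 (by rw [hsF]; exact hx1))
    have h4 : x ∉ K z c' := E1 z hz c' hc'R x hxP
      ((hTA x hxP z hz c' hc'R true).1 (by rw [hsT]; exact hx2))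
    intro t ht
    rcases le_total x t with h5 | h5
    · exact absurd ((hKp z hz c' hc'R).1 t ht x h5) h4
    · exact (hKp z hz c hc).1 x h3 t h5
  obtain ⟨c₁, hc₁⟩ := (gex (insert y₀ A) (insert c₀ (insert y₀ A)) c₀ s (subset_insert _ _)
    (hBf y₀ c₀)).1
  have hoc₀ := hTC.rq y₀ hy₀ c₀ hc₀
  have hc₁R : c₁ ∈ R := by
    have := hc₁.1
    rwa [hoc₀] at this
  have hc₀₁ : leS s c₀ c₁ := by
    have hne : Orb L (insert y₀ A) c₀ ≠ {c₀} := by rw [hoc₀]; exact hRs c₀ hc₀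
    obtain ⟨a1, -, -, -, -, a6, -, -⟩ := hFAR L U hW (insert y₀ A) c₀ (hAf.insert y₀) hne
    obtain ⟨a61, a62⟩ := a6 c₀ (o1 _ _) (insert c₀ (insert y₀ A)) (subset_insert _ _) (hBf y₀ c₀)
      (mem_insert _ _)
    cases s
    · have h1 := a1 c₁ hc₁.1 c₀ (o1 _ _) (a62 c₁ hc₁)
      simp only [leS, Bool.false_eq_true, if_false]
      exact h1.le
    · have h1 := a1 c₀ (o1 _ _) c₁ hc₁.1 (a61 c₁ hc₁)
      simp only [leS, if_true]
      exact h1.le
  have hΦe : Φ y₀ c₀ = {t | ∃ c', leS s c₀ c' ∧ leS s c' c₁ ∧ t ∈ K y₀ c'} := by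
    ext t
    constructor
    · intro ht
      obtain ⟨c', hc', h1, h2⟩ := (hΦ _ _ _).1 ht
      rcases STF_total s c' c₁ with h3 | h3
      · exact ⟨c', h1, h3, h2⟩
      · refine ⟨c₀, STF_refl s c₀, hc₀₁, hfar y₀ hy₀ c₀ hc₀ c' ?_ h2⟩
        refine g7 (insert y₀ A) (insert c₀ (insert y₀ A)) c₀ c₁ c' s (subset_insert _ _)
          (hBf y₀ c₀) hc₁ ?_ h3
        rw [hoc₀]
        exact hc'
    · rintro ⟨c', h1, h2, h3⟩
      exact (hΦ _ _ _).2 ⟨c', STF_conn hRc hc₀ hc₁R h1 h2, h1, h3⟩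
  have hΦd : (insert c₁ (insert c₀ (insert y₀ A))).Definable₁ L (Φ y₀ c₀) := by
    have hord := hW.ord
    have k1 : A.Definable L {w : Fin 5 → U | leS s (w 2) (w 0) ∧ leS s (w 0) (w 3) ∧
        w 4 ∈ K (w 1) (w 0)} :=
      Dx.and (STF_dle hord A s 2 0) (Dx.and (STF_dle hord A s 0 3)
        (Dx.rel3 (R := fun u v t => t ∈ K u v) hK 1 0 4))
    have k2 : A.Definable L {v : Fin 4 → U | ∃ c', leS s (v 1) c' ∧ leS s c' (v 2) ∧
        v 3 ∈ K (v 0) c'} :=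
      Dx.ex (P := fun w : Fin 5 → U => leS s (w 2) (w 0) ∧ leS s (w 0) (w 3) ∧
        w 4 ∈ K (w 1) (w 0)) k1
    have k3 : (insert y₀ A).Definable L {v : Fin 3 → U | ∃ c', leS s (v 0) c' ∧ leS s c' (v 1) ∧
        v 2 ∈ K y₀ c'} :=
      Dx.par (P := fun v : Fin 4 → U => ∃ c', leS s (v 1) c' ∧ leS s c' (v 2) ∧
        v 3 ∈ K (v 0) c') k2 (subset_insert _ _) (mem_insert _ _)
    have k4 : (insert c₀ (insert y₀ A)).Definable L {v : Fin 2 → U | ∃ c', leS s c₀ c' ∧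
        leS s c' (v 0) ∧ v 1 ∈ K y₀ c'} :=
      Dx.par (P := fun v : Fin 3 → U => ∃ c', leS s (v 0) c' ∧ leS s c' (v 1) ∧
        v 2 ∈ K y₀ c') k3 (subset_insert _ _) (mem_insert _ _)
    have k5 : (insert c₁ (insert c₀ (insert y₀ A))).Definable L {v : Fin 1 → U | ∃ c',
        leS s c₀ c' ∧ leS s c' c₁ ∧ v 0 ∈ K y₀ c'} :=
      Dx.par (P := fun v : Fin 2 → U => ∃ c', leS s c₀ c' ∧
        leS s c' (v 0) ∧ v 1 ∈ K y₀ c') k4 (subset_insert _ _) (mem_insert _ _)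
    rw [hΦe]
    exact k5
  obtain ⟨F, hF, hF2⟩ := f5 A (insert c₁ (insert c₀ (insert y₀ A))) y₀ c₀ Φ hAf
    ((hBf y₀ c₀).insert c₁) hΦσ hΦd
  have hFΦ : ∀ z ∈ Q, ∀ c ∈ R, F z c = Φ z c := by
    intro z hz c hc
    obtain ⟨σ, hσ, hσy, hσc⟩ := t4 y₀ hy₀ c₀ hc₀ z hz c hc
    have h1 := hF2 σ hσ
    rwa [hσy, hσc] at h1
  refine ⟨F, hF, fun z hz c hc => ?_⟩
  obtain ⟨q1, q2, q3⟩ := hΦp z hz c hc
  rw [hFΦ z hz c hc]
  refine ⟨q1, q2, q3, fun c' hc' hle => ?_⟩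
  rw [hFΦ z hz c' hc']
  intro t ht
  obtain ⟨c'', hc'', h1, h2⟩ := (hΦ _ _ _).1 ht
  exact (hΦ _ _ _).2 ⟨c'', hc'', STF_trans hle h1, h2⟩

end Pool.Agent.WOM
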