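import Pool.Agent.WOM.StS5
import Pool.Agent.WOM.nSMA
import Pool.Agent.WOM.nFAR
import Pool.Agent.WOM.nFFR
import Pool.Agent.WOM.nEVD
import Pool.Agent.WOM.nGEX
import Pool.Agent.WOM.nGER
import Pool.Agent.WOM.nCNV
import Pool.Agent.WOM.NSB
import Pool.Agent.WOM.ORB
import Pool.Agent.WOM.DFN
import Pool.Agent.WOM.DEF1
import Pool.Agent.WOM.DEFF

/-!
WOM, [STG]: the configuration of Lemma T (helper30 for helper41).
-/

set_option autoImplicit false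
set_option linter.unusedVariables false

namespace Pool.Agent.WOM

open FirstOrder.Language Set
open scoped FirstOrder

theorem thm_STG (hSEP : St_SEP) (hSTA : St_STA) : St_STG := by
  have hORB : St_ORB := thm_ORB (thm_DEF1 thm_DEFF)
  have hCNV : St_nCNV := thm_nCNV hORB
  have hGEX : St_nGEX := thm_nGEX thm_DFN hORB hCNV thm_nEVD
  have hGER : St_nGER := thm_nGER hORB hCNV hGEX
  have hFFR : St_nFFR := thm_nFFR hORB hCNV hGEX hGER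
  have hFAR : St_nFAR := thm_nFAR hORB hCNV hGEX hGER hFFR
  have hSMA : St_nSMA := thm_nSMA hORB thm_NSB hGEX hGER hFFR
  intro L U _ _ hU A P Q R τ hTC hTB hTD
  obtain ⟨o1, o2, o3, o4, o5, o6, o7, o8, o9⟩ := hORB L U hU.mon
  obtain ⟨g1, g2, g3, g4, g5, g6, g7, g8⟩ := hGER L U hU
  obtain ⟨s1, s2, s3, s4, s5, s6, s7, s8, s9, s10, s11, s12⟩ := hSTA L U hU A P Q R hTC
  obtain ⟨⟨x₀, hx₀⟩, ⟨y, hy⟩, ⟨cc, hcc⟩⟩ := hTC.ne
  have hB : (insert y A).Finite := hTC.fin.insert y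
  have hP : ∀ x ∈ P, Orb L (insert y A) x = P := hTC.pq y hy
  have hPne : Orb L (insert y A) x₀ ≠ {x₀} := by
    rw [hP x₀ hx₀]; exact s10 x₀ hx₀
  obtain ⟨f1, f2, f3, f4, f5, f6, f7, f8⟩ := hFAR L U hU (insert y A) x₀ hB hPne
  -- the far points
  obtain ⟨x₁, h01⟩ := (hGEX L U hU (insert y A) (insert x₀ (insert y A)) x₀ true
    (subset_insert _ _) (hB.insert x₀)).1
  have hx₁ : x₁ ∈ P := by
    have := h01.1
    rwa [hP x₀ hx₀] at this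
  obtain ⟨x₂, h12⟩ := (hGEX L U hU (insert y A) (insert x₁ (insert y A)) x₁ true
    (subset_insert _ _) (hB.insert x₁)).1
  have hx₂ : x₂ ∈ P := by
    have := h12.1
    rwa [hP x₁ hx₁] at this
  obtain ⟨x₃, h23⟩ := (hGEX L U hU (insert y A) (insert x₂ (insert y A)) x₂ true
    (subset_insert _ _) (hB.insert x₂)).1
  have hlt : x₁ < x₂ := f1 x₁ (by rw [hP x₀ hx₀]; exact hx₁) x₂ (by rw [hP x₀ hx₀]; exact hx₂) h12
  have hPne₂ : Orb L (insert y A) x₂ ≠ {x₂} := by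
    rw [hP x₂ hx₂]; exact s10 x₂ hx₂
  -- separating parameters
  obtain ⟨c₁, hc₁, hc₁2, -⟩ := hSEP L U hU (insert y A) x₂ cc hB hPne₂ x₂ (o1 _ _) x₃ h23
  rw [hTC.rq y hy cc hcc] at hc₁
  obtain ⟨c₂, hc₂, hc₂0, hc₂1⟩ := hSEP L U hU (insert y A) x₀ cc hB hPne x₀ (o1 _ _) x₁ h01
  rw [hTC.rq y hy cc hcc] at hc₂
  have hc₂1' : x₁ ∈ Ge L (insert y A) x₁ true (insert c₂ (insert y A)) := by
    rw [g4 (insert y A) (insert c₂ (insert y A)) x₀ x₁ true h01.1]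
    exact hc₂1
  -- the generic element of `Q`
  obtain ⟨Bs, hBs, hABs, hyBs, h0Bs, h1Bs, h2Bs, hc1Bs⟩ : ∃ Bs : Set U, Bs.Finite ∧ A ⊆ Bs ∧
      y ∈ Bs ∧ x₀ ∈ Bs ∧ x₁ ∈ Bs ∧ x₂ ∈ Bs ∧ c₁ ∈ Bs := by
    refine ⟨insert y (insert x₀ (insert x₁ (insert x₂ (insert c₁ A)))),
      ((((hTC.fin.insert c₁).insert x₂).insert x₁).insert x₀).insert y, ?_, ?_, ?_, ?_, ?_, ?_⟩
    · intro a ha
      simp [ha]
    all_goals simp
  have hsub2 : ∀ u v : U, u ∈ Bs → v ∈ Bs → insert u (insert v A) ⊆ Bs := by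
    intro u v hu hv w hw
    rcases mem_insert_iff.1 hw with rfl | hw
    · exact hu
    · rcases mem_insert_iff.1 hw with rfl | hw
      · exact hv
      · exact hABs hw
  have hx0Bs : insert x₀ A ⊆ Bs := fun w hw => hsub2 x₀ x₀ h0Bs h0Bs (mem_insert_of_mem _ hw)
  obtain ⟨y₀, hy₀g⟩ := (hGEX L U hU (insert x₀ A) Bs y τ hx0Bs hBs).1
  have hy₀ : y₀ ∈ Q := by
    have := hy₀g.1
    rwa [hTC.qp x₀ hx₀ y hy] at this
  have hSd : Sd τ (Orb L Bs y₀) Q := by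
    have := hy₀g.2
    rwa [hTC.qp x₀ hx₀ y hy] at this
  -- all generic conditions on `y₀`
  have hgen : ∀ (X D : Set U), X ⊆ Q → y₀ ∈ X → D ⊆ Bs → ∀ C : Set U, Orb L C y₀ = X →
      y₀ ∈ Ge L C y₀ τ D := by
    intro X D hX hyX hD C hC
    refine ⟨o1 _ _, ?_⟩
    rw [hC]
    intro w hw
    obtain ⟨u, hu, hwu⟩ := hSd w (hX hw)
    exact ⟨u, o3 D Bs y₀ hD hu, hwu⟩
  have hsgτ : sg τ true = τ := by cases τ <;> rfl
  -- condition 3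
  have h3 : x₀ ∈ Ge L (insert y₀ A) x₀ true (insert c₁ (insert y₀ A)) := by
    refine (hTB x₀ hx₀ y₀ hy₀ c₁ hc₁ true).1 ?_
    rw [hsgτ]
    exact hgen Q _ (subset_refl Q) hy₀ (hsub2 c₁ x₀ hc1Bs h0Bs) _ (hTC.qp x₀ hx₀ y₀ hy₀)
  -- condition 2
  have h2 : TZ L A R y₀ x₁ x₂ := by
    refine hTD x₁ hx₁ x₂ hx₂ ?_ y₀ hy₀ ?_
    · have h := h12.2
      rw [hP x₁ hx₁] at h
      intro w hw
      obtain ⟨u, hu, hwu⟩ := h w hw
      exact ⟨u, o3 _ _ x₂ (insert_subset_insert (subset_insert _ _)) hu, hwu⟩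
    · exact hgen Q _ (subset_refl Q) hy₀ (hsub2 x₂ x₁ h2Bs h1Bs) _ (hTC.qp x₁ hx₁ y₀ hy₀)
  obtain ⟨c₀, hc₀, hc₀1, hc₀2⟩ := h2
  -- condition 6
  have h6 : ∃ t : Bool, c₁ ∈ Ge L A c₁ t (insert y₀ (insert y A)) := by
    have hRA : Orb L (insert y A) c₁ = Orb L A c₁ := by
      rw [hTC.rq y hy c₁ hc₁, hTC.rr c₁ hc₁]
    by_cases hn : Nn L (insert y A) y₀ c₁
    · obtain ⟨e, he, -, -⟩ := hSMA L U hU (insert y A) y₀ c₁ hB hn
      have hyy : Orb L (insert y A) y₀ ⊆ Q := by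
        rintro u ⟨σ, hσ, rfl⟩
        have hσA : Fx L A σ := fun a ha => hσ a (mem_insert_of_mem _ ha)
        have hσy : σ y = y := hσ y (mem_insert _ _)
        obtain ⟨-, hQ, -⟩ := s1 σ hσA (Or.inr ⟨y, hy, by rw [hσy]; exact hy⟩)
        rw [← hQ]
        exact mem_image_of_mem σ hy₀
      have hg : y₀ ∈ Ge L (insert y A) y₀ τ (insert c₁ (insert y A)) :=
        hgen _ _ hyy (o1 _ _) (hsub2 c₁ y hc1Bs hyBs) _ rfl
      refine ⟨!(sg e τ), ?_⟩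
      rw [← g3 A (insert y A) (insert y₀ (insert y A)) c₁ (!(sg e τ)) (subset_insert _ _)
        (subset_insert _ _) (hB.insert y₀) hRA]
      exact he τ c₁ (o1 _ _) y₀ hg
    · refine ⟨true, o1 _ _, ?_⟩
      have hn' : Orb L (insert y₀ (insert y A)) c₁ = Orb L (insert y A) c₁ := by
        by_contra h
        exact hn h
      rw [hn', hRA]
      intro w hw
      exact ⟨w, hw, by simp [leS]⟩
  exact ⟨y, hy, y₀, hy₀, x₀, hx₀, x₁, hx₁, x₂, hx₂, c₀, hc₀, c₁, hc₁, c₂, hc₂, hlt,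
    ⟨hc₀1, hc₀2⟩, h3, hc₁2, ⟨hc₂0, hc₂1'⟩, h6⟩

end Pool.Agent.WOM
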