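import Pool.Agent.WOM.StS5
import Pool.Agent.WOM.SDF

/-!
WOM: proof of `St_STH` (helper33).
-/

set_option autoImplicit false
set_option linter.unusedVariables false

namespace Pool.Agent.WOM

open FirstOrder.Language Set
open scoped FirstOrder

section

variable {U : Type} [LinearOrder U]

private theorem STH_refl (s : Bool) (x : U) : leS s x x := by
  cases s <;> simp [leS]

private theorem STH_trans {s : Bool} {x y z : U} (h : leS s x y) (h' : leS s y z) : leS s x z := by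
  cases s
  · simp only [leS, Bool.false_eq_true, if_false] at h h' ⊢
    exact h'.trans h
  · simp only [leS, if_true] at h h' ⊢
    exact h.trans h'

private theorem STH_total (s : Bool) (x y : U) : leS s x y ∨ leS s y x := by
  cases s
  · simp only [leS, Bool.false_eq_true, if_false]
    exact le_total y x
  · simp only [leS, if_true]
    exact le_total x y

private theorem STH_anti {s : Bool} {x y : U} (h : leS s x y) (h' : leS s y x) : x = y := by
  cases s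
  · simp only [leS, Bool.false_eq_true, if_false] at h h'
    exact le_antisymm h' h
  · simp only [leS, if_true] at h h'
    exact le_antisymm h h'

private theorem STH_flip {s : Bool} {x y : U} (h : leS s x y) : leS (!s) y x := by
  cases s
  · simpa [leS] using h
  · simpa [leS] using h

private theorem STH_conn {s : Bool} {R : Set U} (hR : R.OrdConnected) {x y z : U} (hx : x ∈ R)
    (hz : z ∈ R) (h : leS s x y) (h' : leS s y z) : y ∈ R := by
  cases s
  · simp only [leS, Bool.false_eq_true, if_false] at h h'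
    exact hR.out hz hx ⟨h', h⟩
  · simp only [leS, if_true] at h h'
    exact hR.out hx hz ⟨h, h'⟩

private theorem STH_dle {L : FirstOrder.Language.{0, 0}} [L.Structure U]
    (hord : (∅ : Set U).Definable L {v : Fin 2 → U | v 0 < v 1}) (A : Set U) (s : Bool) {n : ℕ}
    (i j : Fin n) : A.Definable L {v : Fin n → U | leS s (v i) (v j)} := by
  cases s
  · have h : {v : Fin n → U | leS false (v i) (v j)} = {v : Fin n → U | v j ≤ v i} := by
      ext v
      simp [leS]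
    rw [h]
    exact Dx.le hord A j i
  · have h : {v : Fin n → U | leS true (v i) (v j)} = {v : Fin n → U | v i ≤ v j} := by
      ext v
      simp [leS]
    rw [h]
    exact Dx.le hord A i j

end

theorem thm_STH (hORB : St_ORB) (hSFX : St_SFX) (hGEX : St_nGEX) (hGER : St_nGER)
    (hFFR : St_nFFR) (hFAR : St_nFAR) (hSTA : St_STA) (hSTF : St_STF) (hSTG : St_STG)
    (hSEZ : St_SEZ) : St_STH := by
  intro L _ U _ _ hW hSc A P Q R s τ hTC hTA hTB hTD
  obtain ⟨o1, o2, -, -, -, o6, -, -, -⟩ := hORB L U hW.mon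
  obtain ⟨f1, -, -, -, -, -⟩ := hSFX L U hW.mon
  have gex := hGEX L U hW
  obtain ⟨-, g2, -, g4, -, -, g7, -⟩ := hGER L U hW
  have ffr := hFFR L U hW
  obtain ⟨-, -, -, -, -, -, -, -, hRc, -, -, hRs⟩ := hSTA L U hW A P Q R hTC
  obtain ⟨F, hF, hF'⟩ := hSTF L U hW A P Q R s hTC hTA
  obtain ⟨y, hy, y₀, hy₀, x₀, hx₀, x₁, hx₁, x₂, hx₂, c₀, hc₀, c₁, hc₁, c₂, hc₂, h12, ⟨k0f, k0t⟩,
    k1, k2, ⟨k3, k4⟩, t, k5⟩ := hSTG L U hW A P Q R τ hTC hTB hTD
  have hFy : ∀ (z : U) (B : Set U), A ⊆ B → z ∈ B → DF L B (F z) := fun z B hAB hzB =>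
    Dx.par (P := fun w : Fin 3 → U => w 2 ∈ F (w 0) (w 1)) hF hAB hzB
  have hdef : ∀ z c : U, (insert c (insert z A)).Definable₁ L (F z c) := by
    intro z c
    exact df_par (hFy z (insert z A) (subset_insert _ _) (mem_insert _ _)) (subset_insert _ _)
      (mem_insert _ _)
  have E1 : ∀ z ∈ Q, ∀ c ∈ R, ∀ x' ∈ P, ∀ x, x ∈ Ge L (insert z A) x' true (insert c (insert z A)) →
      x ∉ F z c := by
    intro z hz c hc x' hx' x hx hxF
    have hP := hTC.pq z hz x' hx'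
    obtain ⟨hlow, -, ⟨p, hp, hpF⟩, -⟩ := hF' z hz c hc
    obtain ⟨u, hu, hpu⟩ := hx.2 p (by rw [hP]; exact hp)
    have hpu' : p ≤ u := by simpa [leS] using hpu
    exact hpF (hlow u (o6 _ _ (hdef z c) x hxF hu) p hpu')
  have E2 : ∀ z ∈ Q, ∀ c ∈ R, ∀ x' ∈ P, ∀ x, x ∈ Ge L (insert z A) x' false (insert c (insert z A)) →
      x ∈ F z c := by
    intro z hz c hc x' hx' x hx
    have hP := hTC.pq z hz x' hx'
    obtain ⟨hlow, ⟨p, hp, hpF⟩, -, -⟩ := hF' z hz c hc
    obtain ⟨u, hu, hpu⟩ := hx.2 p (by rw [hP]; exact hp)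
    have hpu' : u ≤ p := by simpa [leS] using hpu
    have huF : u ∈ F z c := hlow p hpF u hpu'
    refine o6 _ _ (hdef z c) u huF ?_
    rw [o2 _ _ _ hu]
    exact o1 _ _
  -- the four relations
  have cmp : ∀ K K' : Set U, Low K' → Low K → ∀ x, x ∉ K → x ∈ K' → K ⊆ K' := by
    intro K K' hK' hK x hx hx' u hu
    have hux : u ≤ x := by
      by_contra h
      push Not at h
      exact hx (hK u hu x h.le)
    exact hK' x hx' u hux
  have hA : F y₀ c₀ ⊆ F y c₁ := cmp _ _ (hF' y hy c₁ hc₁).1 (hF' y₀ hy₀ c₀ hc₀).1 x₂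
    (E1 y₀ hy₀ c₀ hc₀ x₁ hx₁ x₂ k0t) (E2 y hy c₁ hc₁ x₂ hx₂ x₂ k2)
  have hB : F y₀ c₁ ⊆ F y c₂ := cmp _ _ (hF' y hy c₂ hc₂).1 (hF' y₀ hy₀ c₁ hc₁).1 x₀
    (E1 y₀ hy₀ c₁ hc₁ x₀ hx₀ x₀ k1) (E2 y hy c₂ hc₂ x₀ hx₀ x₀ k3)
  have hC : ¬ F y₀ c₀ ⊆ F y c₂ := fun h =>
    E1 y hy c₂ hc₂ x₁ hx₁ x₁ k4 (h (E2 y₀ hy₀ c₀ hc₀ x₁ hx₁ x₁ k0f))
  have hD : ¬ F y c₁ ⊆ F y c₂ := fun h =>
    E1 y hy c₂ hc₂ x₁ hx₁ x₁ k4
      (h ((hF' y hy c₁ hc₁).1 x₂ (E2 y hy c₁ hc₁ x₂ hx₂ x₂ k2) x₁ h12.le))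
  -- the function q
  obtain ⟨D', hD'⟩ : ∃ D' : Set U, D' = insert y₀ (insert y A) := ⟨_, rfl⟩
  have hAD : A ⊆ D' := by
    rw [hD']
    exact (subset_insert _ _).trans (subset_insert _ _)
  have hyD : y ∈ D' := by
    rw [hD']
    exact mem_insert_of_mem _ (mem_insert _ _)
  have hy₀D : y₀ ∈ D' := by
    rw [hD']
    exact mem_insert _ _
  have hDfin : D'.Finite := by
    rw [hD']
    exact (hTC.fin.insert y).insert y₀
  obtain ⟨q, hq⟩ : ∃ q : U → Set U, q = fun c => {u | leS s u c ∨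
      ∀ c', leS s c c' → leS s c' u → ∀ v, v ∈ F y₀ c → v ∈ F y c'} := ⟨_, rfl⟩
  have hqm : ∀ c u, u ∈ q c ↔ (leS s u c ∨
      ∀ c', leS s c c' → leS s c' u → ∀ v, v ∈ F y₀ c → v ∈ F y c') := by
    intro c u
    rw [hq]
    rfl
  have hqdef : DF L D' q := by
    rw [hq]
    have h1 : D'.Definable L {w : Fin 4 → U | w 0 ∈ F y₀ (w 2) → w 0 ∈ F y (w 1)} :=
      Dx.imp (Dx.rel (R := fun a b => b ∈ F y₀ a) (hFy y₀ D' hAD hy₀D) 2 0)
        (Dx.rel (R := fun a b => b ∈ F y a) (hFy y D' hAD hyD) 1 0)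
    have h2 : D'.Definable L {w : Fin 3 → U | leS s (w 1) (w 0) → leS s (w 0) (w 2) →
        ∀ v, v ∈ F y₀ (w 1) → v ∈ F y (w 0)} :=
      Dx.imp (STH_dle hW.ord D' s 1 0) (Dx.imp (STH_dle hW.ord D' s 0 2)
        (Dx.all (P := fun w : Fin 4 → U => w 0 ∈ F y₀ (w 2) → w 0 ∈ F y (w 1)) h1))
    have h3 : D'.Definable L {w : Fin 2 → U | leS s (w 1) (w 0) ∨
        ∀ c', leS s (w 0) c' → leS s c' (w 1) → ∀ v, v ∈ F y₀ (w 0) → v ∈ F y c'} :=
      Dx.or (STH_dle hW.ord D' s 1 0)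
        (Dx.all (P := fun w : Fin 3 → U => leS s (w 1) (w 0) → leS s (w 0) (w 2) →
          ∀ v, v ∈ F y₀ (w 1) → v ∈ F y (w 0)) h2)
    exact h3
  have hqlow : ∀ c, LowS s (q c) := by
    intro c u hu v hv
    rw [hqm] at hu ⊢
    rcases hu with hu | hu
    · exact Or.inl (STH_trans hv hu)
    · exact Or.inr fun c' h h' => hu c' h (STH_trans h' hv)
  have hqself : ∀ c, c ∈ q c := by
    intro c
    rw [hqm]
    exact Or.inl (STH_refl s c)
  -- (1)
  have q1 : ∀ c ∈ R, ∀ u ∈ R, leS s c u → u ≠ c → (u ∈ q c ↔ F y₀ c ⊆ F y u) := by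
    intro c hc u hu hcu hne
    rw [hqm]
    constructor
    · rintro (h | h)
      · exact absurd (STH_anti h hcu) hne
      · exact fun v hv => h u hcu (STH_refl s u) v hv
    · intro h
      refine Or.inr fun c' hcc' hc'u v hv => ?_
      have hc' : c' ∈ R := STH_conn hRc hc hu hcc' hc'u
      exact (hF' y hy c' hc').2.2.2 u hu hc'u (h hv)
  -- strict position of far elements
  have hpos : ∀ (b : Bool) (c : U), c ∈ R → ∀ B : Set U, A ⊆ B → B.Finite → c ∈ B →
      ∀ c' ∈ Ge L A c b B, leS b c c' ∧ c' ≠ c := by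
    intro b c hc B hAB hB hcB c' hc'
    have hne : Orb L A c ≠ {c} := by
      rw [hTC.rr c hc]
      exact hRs c hc
    obtain ⟨r1, -, -, -, -, r6, -, -⟩ := hFAR L U hW A c hTC.fin hne
    have hcc : c ∈ Orb L A c := o1 A c
    have hc'o : c' ∈ Orb L A c := hc'.1
    obtain ⟨e1, e2⟩ := r6 c hcc B hAB hB hcB
    cases b
    · have h := r1 c' hc'o c hcc (e2 c' hc')
      refine ⟨?_, h.ne⟩
      simp only [leS, Bool.false_eq_true, if_false]
      exact h.le
    · have h := r1 c hcc c' hc'o (e1 c' hc')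
      refine ⟨?_, h.ne'⟩
      simp only [leS, if_true]
      exact h.le
  -- (2)
  have q2 : ∀ c ∈ R, ∃ c' ∈ R, leS s c c' ∧ c' ∉ q c := by
    intro c hc
    obtain ⟨-, ⟨x, hx, hxF⟩, -, -⟩ := hF' y₀ hy₀ c hc
    have hfin : (insert c (insert x (insert y A))).Finite := ((hTC.fin.insert y).insert x).insert c
    have hsub0 : A ⊆ insert x (insert y A) := (subset_insert _ _).trans (subset_insert _ _)
    have hsub : A ⊆ insert c (insert x (insert y A)) := hsub0.trans (subset_insert _ _)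
    obtain ⟨⟨c', hc'⟩, -⟩ := gex A (insert c (insert x (insert y A))) c s hsub hfin
    obtain ⟨p1, p2⟩ := hpos s c hc _ hsub hfin (mem_insert _ _) c' hc'
    have hc'R : c' ∈ R := by
      rw [← hTC.rr c hc]
      exact hc'.1
    have h1 : c' ∈ Ge L A c s (insert x (insert y A)) :=
      g2 A (insert x (insert y A)) _ c s hsub0 (subset_insert _ _) hfin hc'
    have h2 : c' ∈ Ge L A c' s (insert x (insert y A)) := by
      rw [g4 A _ c c' s hc'.1]
      exact h1
    have hs : sg s true = s := by cases s <;> rfl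
    have h3 : x ∈ Ge L (insert y A) x true (insert c' (insert y A)) :=
      (hTA x hx y hy c' hc'R true).1 (by rw [hs]; exact h2)
    refine ⟨c', hc'R, p1, fun h => ?_⟩
    exact E1 y hy c' hc'R x hx x h3 ((q1 c hc c' hc'R p1 p2).1 h hxF)
  -- (3)
  have q3 : ∀ c' ∈ R, ∃ c ∈ R, leS s c c' ∧ c' ∉ q c := by
    intro c' hc'
    obtain ⟨-, -, ⟨x, hx, hxF⟩, -⟩ := hF' y hy c' hc'
    have hfin : (insert c' (insert x (insert y₀ A))).Finite :=
      ((hTC.fin.insert y₀).insert x).insert c'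
    have hsub0 : A ⊆ insert x (insert y₀ A) := (subset_insert _ _).trans (subset_insert _ _)
    have hsub : A ⊆ insert c' (insert x (insert y₀ A)) := hsub0.trans (subset_insert _ _)
    obtain ⟨⟨c, hc⟩, -⟩ := gex A (insert c' (insert x (insert y₀ A))) c' (!s) hsub hfin
    obtain ⟨p1, p2⟩ := hpos (!s) c' hc' _ hsub hfin (mem_insert _ _) c hc
    have hcR : c ∈ R := by
      rw [← hTC.rr c' hc']
      exact hc.1
    have h1 : c ∈ Ge L A c' (!s) (insert x (insert y₀ A)) :=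
      g2 A (insert x (insert y₀ A)) _ c' (!s) hsub0 (subset_insert _ _) hfin hc
    have h2 : c ∈ Ge L A c (!s) (insert x (insert y₀ A)) := by
      rw [g4 A _ c' c (!s) hc.1]
      exact h1
    have hs : sg s false = !s := by cases s <;> rfl
    have h3 : x ∈ Ge L (insert y₀ A) x false (insert c (insert y₀ A)) :=
      (hTA x hx y₀ hy₀ c hcR false).1 (by rw [hs]; exact h2)
    have p1' : leS s c c' := by
      have := STH_flip p1
      rwa [Bool.not_not] at this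
    refine ⟨c, hcR, p1', fun h => hxF ?_⟩
    exact (q1 c hcR c' hc' p1' (Ne.symm p2)).1 h (E2 y₀ hy₀ c hcR x hx x h3)
  -- (4)
  rw [← hD'] at k5
  have hR' : Ge L A c₁ t D' = Orb L D' c₁ := (gex A D' c₁ t hAD hDfin).2 c₁ k5
  have hRsub : ∀ c ∈ Orb L D' c₁, c ∈ R := by
    intro c hc
    rw [← hR'] at hc
    rw [← hTC.rr c₁ hc₁]
    exact hc.1
  have hmove : ∀ c ∈ Orb L D' c₁, ∀ c' ∈ R, leS t c c' → c' ∈ Orb L D' c₁ := by
    intro c hc c' hc' h
    rw [← hR'] at hc ⊢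
    exact g7 A D' c₁ c c' t hAD hDfin hc (by rw [hTC.rr c₁ hc₁]; exact hc') h
  have hbd : ∀ c ∈ Orb L D' c₁, ∃ c' ∈ Orb L D' c₁, c' ∉ q c := by
    by_cases hts : t = s
    · intro c hc
      obtain ⟨c', hc', h1, h2⟩ := q2 c (hRsub c hc)
      exact ⟨c', hmove c hc c' hc' (by rw [hts]; exact h1), h2⟩
    · have hts' : t = !s := by
        revert hts
        cases t <;> cases s <;> simp
      obtain ⟨c, hcR, h1, h2⟩ := q3 c₁ hc₁
      have hc1 : c₁ ∈ Orb L D' c₁ := o1 _ _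
      have hc : c ∈ Orb L D' c₁ := hmove c₁ hc1 c hcR (by rw [hts']; exact STH_flip h1)
      intro c'' hc''
      rw [← o2 D' c₁ c hc] at hc''
      obtain ⟨σ, hσ, rfl⟩ := hc''
      refine ⟨σ c₁, ⟨σ, hσ, rfl⟩, ?_⟩
      rw [f1 D' q σ hqdef hσ c]
      rintro ⟨w, hw, hw'⟩
      have : w = c₁ := σ.injective hw'
      rw [this] at hw
      exact h2 hw
  have hne : Orb L D' c₁ ≠ {c₁} := by
    intro h
    obtain ⟨c', hc', h2⟩ := hbd c₁ (o1 _ _)
    rw [h] at hc'
    rw [mem_singleton_iff.1 hc'] at h2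
    exact h2 (hqself c₁)
  -- (5)
  have h01 : leS s c₀ c₁ ∧ c₁ ≠ c₀ := by
    have hn : ¬ leS s c₁ c₀ := fun h =>
      hC (((hF' y₀ hy₀ c₁ hc₁).2.2.2 c₀ hc₀ h).trans hB)
    refine ⟨(STH_total s c₀ c₁).resolve_right hn, fun h => hn ?_⟩
    rw [h]
    exact STH_refl s c₀
  have h12' : leS s c₁ c₂ ∧ c₂ ≠ c₁ := by
    have hn : ¬ leS s c₂ c₁ := fun h => hD ((hF' y hy c₂ hc₂).2.2.2 c₁ hc₁ h)
    refine ⟨(STH_total s c₁ c₂).resolve_right hn, fun h => hn ?_⟩
    rw [h]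
    exact STH_refl s c₁
  have h02 : leS s c₀ c₂ ∧ c₂ ≠ c₀ := by
    refine ⟨STH_trans h01.1 h12'.1, fun h => ?_⟩
    have h3 : leS s c₁ c₀ := by
      rw [← h]
      exact h12'.1
    exact h01.2 (STH_anti h3 h01.1)
  have m10 : c₁ ∈ q c₀ := (q1 c₀ hc₀ c₁ hc₁ h01.1 h01.2).2 hA
  have m21 : c₂ ∈ q c₁ := (q1 c₁ hc₁ c₂ hc₂ h12'.1 h12'.2).2 hB
  have m20 : c₂ ∉ q c₀ := fun h => hC ((q1 c₀ hc₀ c₂ hc₂ h02.1 h02.2).1 h)
  -- (6)
  have h6 : c₀ ∈ Orb L D' c₁ := by
    by_cases hts : t = s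
    · by_contra hcon
      have hbef : ∀ r ∈ Orb L D' c₁, leS s c₀ r := by
        intro r hr
        refine (STH_total s c₀ r).resolve_right fun h => hcon ?_
        exact hmove r hr c₀ hc₀ (by rw [hts]; exact h)
      have hfin1 : (insert c₁ D').Finite := hDfin.insert c₁
      obtain ⟨⟨cp, hcp⟩, -⟩ := gex D' (insert c₁ D') c₁ (!s) (subset_insert _ _) hfin1
      have hcp0 : cp ∈ Orb L D' c₁ := hcp.1
      have hback := ffr D' c₁ cp (!s) hDfin hcp
      rw [Bool.not_not] at hback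
      obtain ⟨c', hc', hc'q⟩ := hbd cp hcp0
      have hnot : c₁ ∉ q cp := by
        intro h
        have hqd : (insert cp D').Definable₁ L (q cp) :=
          df_par hqdef (subset_insert _ _) (mem_insert _ _)
        have hc'' : c' ∈ Orb L D' cp := by
          rw [o2 D' c₁ cp hcp0]
          exact hc'
        obtain ⟨u, hu, hle⟩ := hback.2 c' hc''
        exact hc'q (hqlow cp u (o6 _ _ hqd c₁ h hu) c' hle)
      have hle : leS s cp c₁ := by
        refine (STH_total s cp c₁).resolve_right fun h => hnot ?_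
        rw [hqm]
        exact Or.inl h
      have hne' : c₁ ≠ cp := by
        intro h
        rw [← h] at hnot
        exact hnot (hqself c₁)
      have hcpR := hRsub cp hcp0
      refine hnot ((q1 cp hcpR c₁ hc₁ hle hne').2 ?_)
      exact ((hF' y₀ hy₀ c₀ hc₀).2.2.2 cp hcpR (hbef cp hcp0)).trans hA
    · have hts' : t = !s := by
        revert hts
        cases t <;> cases s <;> simp
      exact hmove c₁ (o1 _ _) c₀ hc₀ (by rw [hts']; exact STH_flip h01.1)
  -- (7)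
  have h7 := hSEZ L U hW hSc s D' c₁ q hDfin hne hqdef hqlow hqself hbd c₀ h6 c₁ h01.1 m10
  rw [h7] at m21
  exact m20 m21

end Pool.Agent.WOM
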