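import Pool.Agent.WOM.StS5

/-!
WOM, module STO: orientations for the configuration of Lemma T (helper31).
-/

set_option autoImplicit false
set_option linter.unusedVariables false
set_option linter.unusedSectionVars false

namespace Pool.Agent.WOM

open FirstOrder.Language Set
open scoped FirstOrder

section STO

variable {L : FirstOrder.Language.{0, 0}} {U : Type} [L.Structure U] [LinearOrder U]

theorem STO_img {A : Set U} {σ : U ≃[L] U} (h : Fx L A σ) : σ '' A = A := by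
  ext y
  constructor
  · rintro ⟨a, ha, rfl⟩
    rw [h a ha]
    exact ha
  · intro hy
    exact ⟨y, hy, h y hy⟩

theorem STO_ge (hW : Wn L U) (hGER : St_nGER) (σ : U ≃[L] U) (C D : Set U) (u : U) (t : Bool) :
    σ u ∈ Ge L (σ '' C) (σ u) t (σ '' D) ↔ u ∈ Ge L C u t D := by
  rw [(hGER L U hW).2.2.2.2.1 σ C D u t]
  exact σ.injective.mem_set_image

/-- conjugation, base `A` -/
theorem STO_c1 (hW : Wn L U) (hGER : St_nGER) {A : Set U} {σ : U ≃[L] U} (hσ : Fx L A σ)
    (x y c : U) (t : Bool) :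
    σ c ∈ Ge L A (σ c) t (insert (σ x) (insert (σ y) A)) ↔
      c ∈ Ge L A c t (insert x (insert y A)) := by
  have h := STO_ge hW hGER σ A (insert x (insert y A)) c t
  simp only [Set.image_insert_eq, STO_img hσ] at h
  exact h

/-- conjugation, base `insert y A` -/
theorem STO_c2 (hW : Wn L U) (hGER : St_nGER) {A : Set U} {σ : U ≃[L] U} (hσ : Fx L A σ)
    (x y c : U) (t : Bool) :
    σ x ∈ Ge L (insert (σ y) A) (σ x) t (insert (σ c) (insert (σ y) A)) ↔
      x ∈ Ge L (insert y A) x t (insert c (insert y A)) := by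
  have h := STO_ge hW hGER σ (insert y A) (insert c (insert y A)) x t
  simp only [Set.image_insert_eq, STO_img hσ] at h
  exact h

/-- matching over a base `B` for elements of two orbits -/
theorem STO_ori (hW : Wn L U) (hGER : St_nGER) {B : Set U} {u v : U} {f : Bool}
    (h1 : Ori L B u v f) (h2 : Ori L B v u f) {u' v' : U} (hu : u' ∈ Orb L B u)
    (hv : v' ∈ Orb L B v) (t : Bool) :
    u' ∈ Ge L B u' (!(sg f t)) (insert v' B) ↔ v' ∈ Ge L B v' t (insert u' B) := by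
  have g4 := (hGER L U hW).2.2.2.1
  rw [g4 B (insert v' B) u u' _ hu, g4 B (insert u' B) v v' _ hv]
  constructor
  · intro h
    have := h1 _ v' hv u' h
    have e : (!(sg f (!(sg f t)))) = t := by cases f <;> cases t <;> rfl
    rw [e] at this
    exact this
  · intro h
    exact h2 t u' hu v' h

end STO

theorem thm_STO (hGER : St_nGER) (hSMA : St_nSMA) (hSTA : St_STA) : St_STO := by
  intro L U _ _ hW A P Q R hT
  obtain ⟨h1, h2, h3, h4, h5, h6, -⟩ := hSTA L U hW A P Q R hT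
  obtain ⟨⟨x₀, hx₀⟩, ⟨y₀, hy₀⟩, ⟨c₀, hc₀⟩⟩ := hT.ne
  have g3 := (hGER L U hW).2.2.1
  have hyA : (insert y₀ A).Finite := hT.fin.insert _
  have hxA : (insert x₀ A).Finite := hT.fin.insert _
  -- the orientation of `R` and `P`
  obtain ⟨f, hf1, hf2, -⟩ := hSMA L U hW (insert y₀ A) c₀ x₀ hyA (h5 x₀ hx₀ y₀ hy₀ c₀ hc₀).2
  have hTA : TA L A P Q R (!f) := by
    intro x hx y hy c hc t
    obtain ⟨σ, hσ, hσy, -⟩ := h4 y hy c hc y₀ hy₀ c hc
    have hσP := (h1 σ hσ (Or.inr ⟨y, hy, by rw [hσy]; exact hy₀⟩))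
    have hσx : σ x ∈ P := by
      have h := Set.mem_image_of_mem σ hx
      rwa [hσP.1] at h
    have hσc : σ c ∈ R := by
      have h := Set.mem_image_of_mem σ hc
      rwa [hσP.2.2] at h
    rw [← STO_c1 hW hGER hσ x y c, ← STO_c2 hW hGER hσ x y c, hσy]
    have hux : σ x ∈ Orb L (insert y₀ A) x₀ := by
      rw [hT.pq y₀ hy₀ x₀ hx₀]; exact hσx
    have huc : σ c ∈ Orb L (insert y₀ A) c₀ := by
      rw [hT.rq y₀ hy₀ c₀ hc₀]; exact hσc
    have key := STO_ori hW hGER hf1 hf2 huc hux t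
    have e : (!(sg f t)) = sg (!f) t := by cases f <;> cases t <;> rfl
    rw [e] at key
    rw [← key]
    have := g3 A (insert y₀ A) (insert (σ x) (insert y₀ A)) (σ c) (sg (!f) t)
      (Set.subset_insert _ _) (Set.subset_insert _ _) (hyA.insert _)
      (by rw [hT.rq y₀ hy₀ _ hσc, hT.rr _ hσc])
    rw [this]
  -- the orientation of `Q` and `R`
  obtain ⟨e, he1, he2, -⟩ := hSMA L U hW (insert x₀ A) c₀ y₀ hxA (h6 x₀ hx₀ y₀ hy₀ c₀ hc₀).2
  refine ⟨!f, !(sg e (!f)), hTA, ?_⟩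
  intro x hx y hy c hc t
  obtain ⟨σ, hσ, hσx, -⟩ := h3 x hx c hc x₀ hx₀ c hc
  have hσP := (h1 σ hσ (Or.inl ⟨x, hx, by rw [hσx]; exact hx₀⟩))
  have hσy : σ y ∈ Q := by
    have h := Set.mem_image_of_mem σ hy
    rwa [hσP.2.1] at h
  have hσc : σ c ∈ R := by
    have h := Set.mem_image_of_mem σ hc
    rwa [hσP.2.2] at h
  rw [← STO_c2 hW hGER hσ y x c, ← STO_c2 hW hGER hσ x y c, hσx]
  rw [← hTA x₀ hx₀ (σ y) hσy (σ c) hσc t]
  have huy : σ y ∈ Orb L (insert x₀ A) y₀ := by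
    rw [hT.qp x₀ hx₀ y₀ hy₀]; exact hσy
  have huc : σ c ∈ Orb L (insert x₀ A) c₀ := by
    rw [hT.rp x₀ hx₀ c₀ hc₀]; exact hσc
  have key := STO_ori hW hGER he1 he2 huc huy (sg (!(sg e (!f))) t)
  have e' : (!(sg e (sg (!(sg e (!f))) t))) = sg (!f) t := by
    cases f <;> cases e <;> cases t <;> rfl
  rw [e'] at key
  rw [← key]
  have := g3 A (insert x₀ A) (insert (σ y) (insert x₀ A)) (σ c) (sg (!f) t)
    (Set.subset_insert _ _) (Set.subset_insert _ _) (hxA.insert _)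
    (by rw [hT.rp x₀ hx₀ _ hσc, hT.rr _ hσc])
  rw [this, Set.insert_comm]

end Pool.Agent.WOM
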