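import Pool.Agent.WOM.DefsC

/-!
WOM: frozen statements of the core part (helper85), with proofs in the docstrings.

Conventions: `p`, `q` are orbits `Orb L A x`, `Orb L A z`; an orbit over `B` = `Orb L B _`;
conjugate = image under an automorphism (over the given set).
-/

set_option autoImplicit false
set_option linter.unusedVariables false

namespace Pool.Agent.WOM

open FirstOrder.Language Set
open scoped FirstOrder

/-! ### Definable sets -/

/-- [DFN] closure properties of the definable sets.  PROOF.  (1) `definable_iff_exists_formula_sum`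
(or DEFF of StB): the parameter `x` is replaced by a variable.  (2), (3), (4): write the formulas
(the order is given by a formula without parameters because of `hord`); for `t = false` the same
with the reversed order. -/
def St_DFN : Prop :=
  ∀ (L : FirstOrder.Language.{0, 0}) (U : Type) [L.Structure U] [LinearOrder U],
    (∅ : Set U).Definable L {v : Fin 2 → U | v 0 < v 1} → ∀ A : Set U,
    (∀ (x : U) (s : Set U), (insert x A).Definable₁ L s →
      ∃ φ : Set (Fin 2 → U), A.Definable L φ ∧ s = {y | ![x, y] ∈ φ}) ∧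
    (∀ (φ : Set (Fin 2 → U)) (P : Set U) (t : Bool), A.Definable L φ → A.Definable₁ L P →
      A.Definable₁ L {y | ∃ a ∈ P, ∀ b ∈ P, leS t a b → ![b, y] ∈ φ}) ∧
    (∀ (X : Set U) (t : Bool), A.Definable₁ L X → A.Definable₁ L (Cls t X)) ∧
    (∀ (a : U) (t : Bool), ({a} : Set U).Definable₁ L {u | leS t a u})

/-- [ORB] orbits.  PROOF.  1-5: group properties of the automorphisms.  6: an automorphism over `A`
maps an `A`-definable set onto itself (`StrongHomClass.realize_formula`).  7: if all `A`-definable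
sets contain both or none of `x`, `y` then `snoc a x`, `snoc a y` have the same type
(`A = range a`), use `Mon.hom` (this is AUT of StB).  8: INV of StB.  9: as 6. -/
def St_ORB : Prop :=
  ∀ (L : FirstOrder.Language.{0, 0}) (U : Type) [L.Structure U], Mon L U →
    (∀ (A : Set U) (x : U), x ∈ Orb L A x) ∧
    (∀ (A : Set U) (x y : U), y ∈ Orb L A x → Orb L A y = Orb L A x) ∧
    (∀ (A B : Set U) (x : U), A ⊆ B → Orb L B x ⊆ Orb L A x) ∧
    (∀ (σ : U ≃[L] U) (A : Set U) (x : U), Orb L (σ '' A) (σ x) = σ '' Orb L A x) ∧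
    (∀ (A : Set U) (x : U), x ∈ A → Orb L A x = {x}) ∧
    (∀ (A s : Set U), A.Definable₁ L s → ∀ x ∈ s, Orb L A x ⊆ s) ∧
    (∀ (A : Set U) (x y : U), A.Finite → y ∉ Orb L A x → ∃ s, A.Definable₁ L s ∧ x ∈ s ∧ y ∉ s) ∧
    (∀ (A B s : Set U), A.Finite → B.Finite → B.Definable₁ L s → (∀ x ∈ s, Orb L A x ⊆ s) →
      A.Definable₁ L s) ∧
    (∀ (σ : U ≃[L] U) (A s : Set U), A.Definable₁ L s → (σ '' A).Definable₁ L (σ '' s))

/-- [DNS] isolated types are dense.  PROOF.  Otherwise enumerate `U = {u_0, u_1, ..}` and choose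
nonempty `A`-definable `X_0 = s ⊇ X_1 ⊇ ..` with `u_k ∉ X_(k+1)`: if `u_k ∈ X_k` then
`X_k ≠ Orb u_k` (`u_k` is not isolated), ORB 6 gives `w ∈ X_k` outside of `Orb u_k`, ORB 7 an
`A`-definable set with `w` and without `u_k`.  By saturation the intersection is nonempty. -/
def St_DNS : Prop :=
  ∀ (L : FirstOrder.Language.{0, 0}) (U : Type) [L.Structure U], Mon L U →
    ∀ (A s : Set U), A.Finite → A.Definable₁ L s → s.Nonempty → ∃ x ∈ s, Isd L A x

/-- [NSB] nonorthogonality, elementary facts.  PROOF.  1: suppose `Orb (x,A) z = Orb A z` and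
`x' = σ x`, `σ` over `A`.  `σ⁻¹ z ∈ Orb A z`, so `ρ z = σ⁻¹ z` with `ρ` over `A, x`; `σ ρ` fixes `A`, `z` and
maps `x` to `x'`.  2, 3: conjugation.  4: `Orb (x,A) x = {x}`.  5: from 4-like: if
`Orb A z = {z}` nothing is cut; for `x` use 1.  6: induction on the finite set `B \ A`, `Wm.na`. -/
def St_NSB : Prop :=
  ∀ (L : FirstOrder.Language.{0, 0}) (U : Type) [L.Structure U],
    (∀ (A : Set U) (x z : U), Nn L A x z → Nn L A z x) ∧
    (∀ (A : Set U) (x z x' z' : U), x' ∈ Orb L A x → z' ∈ Orb L A z → Nn L A x z → Nn L A x' z') ∧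
    (∀ (σ : U ≃[L] U) (A : Set U) (x z : U), Nn L A x z → Nn L (σ '' A) (σ x) (σ z)) ∧
    (∀ (A : Set U) (x : U), Nn L A x x ↔ Orb L A x ≠ {x}) ∧
    (∀ (A : Set U) (x z : U), Nn L A x z → Orb L A x ≠ {x} ∧ Orb L A z ≠ {z}) ∧
    ((∀ (A : Set U) (a c d : U), A.Finite → ¬ Nn L A a c → ¬ Nn L (insert d A) a c) →
      ∀ (A B : Set U) (a c : U), A ⊆ B → B.Finite → ¬ Nn L A a c → ¬ Nn L B a c)

/-! ### Convexity, first and last orbits -/

/-- [CNV] orbits are convex and have no endpoints.  PROOF.  Let `x < y < z = g x`, `g` over `A` (all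
in the notation of the orbit), `y ∉ Orb`.  ORB 7: `A`-definable `s` with `x ∈ s`, `y ∉ s`.  `g` is
monotone (it preserves the definable order) and preserves `s`:
`x < y < g x < g y < g² x < ...` are alternately in `s` and not in `s`, contradiction to `Wm.fin`
(two points `g^i x < g^j x` in the same convex set, `g^i y` between them).
Endpoints: if `w` is the last element of the orbit and `u ≠ w` is in it, `g w = u < w` then
`w = g⁻¹ u < g⁻¹ w` is in the orbit. -/
def St_CNV : Prop :=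
  ∀ (L : FirstOrder.Language.{0, 0}) (U : Type) [L.Structure U] [LinearOrder U], Wm L U →
    (∀ (σ : U ≃[L] U) (x y : U), x < y ↔ σ x < σ y) ∧
    ∀ (A : Set U) (x : U), A.Finite → (Orb L A x).OrdConnected ∧
      (Orb L A x ≠ {x} → ∀ (t : Bool), ∀ w ∈ Orb L A x, ∃ u ∈ Orb L A x, leS t w u ∧ u ≠ w)

/-- [EVD] definable sets are eventually constant on an orbit (or on any set).  PROOF.  `s` is a union
of `n` convex sets.  Otherwise one finds an alternating sequence (towards the side `t`)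
`u_0, v_0, u_1, v_1, .., u_n` in `Y`, `u_i ∈ s`, `v_i ∉ s`; two `u_i`, `u_j` are in the same convex set. -/
def St_EVD : Prop :=
  ∀ (L : FirstOrder.Language.{0, 0}) (U : Type) [L.Structure U] [LinearOrder U], Wm L U →
    ∀ (Y s : Set U) (t : Bool), Y.Nonempty → (univ : Set U).Definable₁ L s →
      (∃ w ∈ Y, ∀ u ∈ Y, leS t w u → u ∈ s) ∨ (∃ w ∈ Y, ∀ u ∈ Y, leS t w u → u ∉ s)

/-- [GEX] the last orbit over `B` exists and is unique.  PROOF.  `F` = the `B`-definable sets which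
contain a final part (side `t`) of `p = Orb A x`: finite intersections are in `F` and meet `p`.
Saturation: `u ∈ ⋂ F`.  All `A`-definable sets containing `x` contain `p`, so are in `F`: `u ∈ p` (ORB 7).
Unbounded: let `w ∈ p`.  Every `B`-definable `X ∋ u` is in `F` (EVD: otherwise the complement is in `F`), so
`X ∩ {v | leS t w v}` is nonempty; this set is `B, w`-definable (DFN 4); saturation over `B, w` gives
`v` with `leS t w v` in all `B`-definable `X ∋ u`, i.e. `v ∈ Orb B u` (ORB 7).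
Uniqueness: two unbounded convex sets meet, so two such orbits over `B` are equal; and `Ge` is
invariant over `B`. -/
def St_GEX : Prop :=
  ∀ (L : FirstOrder.Language.{0, 0}) (U : Type) [L.Structure U] [LinearOrder U], Wm L U →
    ∀ (A B : Set U) (x : U) (t : Bool), A ⊆ B → B.Finite → (Ge L A x t B).Nonempty ∧
      ∀ u ∈ Ge L A x t B, Ge L A x t B = Orb L B u

/-- [GER] calculus of first and last orbits (all sets finite).  PROOF.  Directly from the
definitions, GEX and convexity.  1: `v ∈ Ge A x t C` has `Orb B v` unbounded in `Orb A x`, so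
`v ∈ Ge A x t B = Orb B u`.  7: an unbounded convex set contains everything beyond one of its
elements.  8: unbounded on both sides and convex: `Orb B u = Orb A x`. -/
def St_GER : Prop :=
  ∀ (L : FirstOrder.Language.{0, 0}) (U : Type) [L.Structure U] [LinearOrder U], Wm L U →
    (∀ (A B C : Set U) (x u : U) (t : Bool), A ⊆ B → B ⊆ C → C.Finite → u ∈ Ge L A x t B →
      Ge L B u t C = Ge L A x t C) ∧
    (∀ (A B C : Set U) (x : U) (t : Bool), A ⊆ B → B ⊆ C → C.Finite →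
      Ge L A x t C ⊆ Ge L A x t B) ∧
    (∀ (A B C : Set U) (x : U) (t : Bool), A ⊆ B → B ⊆ C → C.Finite → Orb L B x = Orb L A x →
      Ge L B x t C = Ge L A x t C) ∧
    (∀ (A B : Set U) (x x' : U) (t : Bool), x' ∈ Orb L A x → Ge L A x' t B = Ge L A x t B) ∧
    (∀ (σ : U ≃[L] U) (A B : Set U) (x : U) (t : Bool),
      Ge L (σ '' A) (σ x) t (σ '' B) = σ '' Ge L A x t B) ∧
    (∀ (A : Set U) (x : U) (t : Bool), Ge L A x t A = Orb L A x) ∧
    (∀ (A B : Set U) (x u v : U) (t : Bool), A ⊆ B → B.Finite → u ∈ Ge L A x t B →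
      v ∈ Orb L A x → leS t u v → v ∈ Ge L A x t B) ∧
    (∀ (A B : Set U) (x u : U), A ⊆ B → B.Finite → u ∈ Ge L A x true B → u ∈ Ge L A x false B →
      Orb L B x = Orb L A x)

/-! ### Matching -/

/-- [FFR] symmetry of far.  PROOF.  (`t = true`, for `t = false` reverse the order.)  `p = Orb A a`.
`F₊ = {(x,y) ∈ p² : y ∈ Ge A x true (x,A)}`, `F₋ = {(x,y) ∈ p² : x ∈ Ge A y false (y,A)}`: each of them is one
orbit of pairs over `A`.  Claim `F₋ ⊆ F₊` (then they are equal, being orbits).  Suppose not, then they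
are disjoint.  For `x ∈ p` let `V x = p \ Ge A x true (x,A)` (an initial part of `p`); `y ∈ V x` for
`(x,y) ∈ F₋`.  `T x = {x' ∈ p : x' < x, (x',x) ∈ F₊}`: nonempty, invariant over `x, A`, disjoint from the
first orbit over `x, A`, so all elements of the first orbit over `x, A` are `<` all elements of `T x`.
`T` is monotone: `x1 < x2` implies `T x1 ⊆ T x2` (`x1 ∉ V x'` implies `x2 ∉ V x'`).  Let `x1` be in the first orbit
over `x2, A`; then `x1 < x2` and `x1 <` all of `T x2 ⊇ T x1`; but the elements of `T x1 ≠ ∅` are `< x1`. -/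
def St_FFR : Prop :=
  ∀ (L : FirstOrder.Language.{0, 0}) (U : Type) [L.Structure U] [LinearOrder U], Wm L U →
    ∀ (A : Set U) (a b : U) (t : Bool), A.Finite → b ∈ Ge L A a t (insert a A) →
      a ∈ Ge L A b (!t) (insert b A)

/-- [TRA] transitivity of nonorthogonality.  PROOF.  `q = Orb A y`, `K x` = the first orbit over
`x, A` in `q` (`Ge A y false (x,A)`), `K z` likewise: both are initial parts of `q`, nonempty, `≠ q` (GER 8,
`Nn A x y`, `Nn A z y`).  Suppose `¬ Nn A x z`: for all `z' ∈ Orb A z` some `τ` over `x, A` maps `z` to `z'`, so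
`K z' = τ (K z)` and `K x = τ (K x)`.  If `K z ⊆ K x` then `K z' ⊆ K x` for all `z'`; take `y0 ∈ q \ K x`, `y1 ∈ K z`, `σ`
over `A` with `σ y1 = y0`: `y0 ∈ K (σ z)`, contradiction.  If `K x ⊆ K z` then `K x ⊆ K z'` for all `z'`; take
`y0 ∈ K x`, `y1 ∈ q \ K z`, `σ y1 = y0`: `y0 ∉ K (σ z)`, contradiction. -/
def St_TRA : Prop :=
  ∀ (L : FirstOrder.Language.{0, 0}) (U : Type) [L.Structure U] [LinearOrder U], Wm L U →
    ∀ (A : Set U) (x y z : U), A.Finite → Nn L A x y → Nn L A y z → Nn L A x z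

/-- [SMA] matching theorem.  PROOF.  `p = Orb A x`, `q = Orb A z`.  For `x' ∈ p`: `K x'` = first,
`R x'` = last orbit over `x', A` in `q`; disjoint (GER 8, as `q` is cut by `x'`), `K x'` an initial, `R x'` a final
part.  Far pairs `(x1, x2)`, `x2 ∈ Ge A x1 true (x1,A)` (= `x1 ∈ Ge A x2 false (x2,A)`, FFR), are one orbit over
`A`, so one of `K x1 ⊊ K x2`, `K x1 = K x2`, `K x1 ⊋ K x2` holds for all far pairs.  `=` is impossible: then
`K` is constant on `p` (compare `x1`, `x1'` with some `x2` in the last orbit over `A, x1, x1'`), so it is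
a nonempty proper subset of `q` invariant over `A`.  Case `⊊` (`e = true`).  (a) `y ∈ q`,
`x2 ∈ Ge A x true (y,A)`: there is `x'` with `y ∈ K x'` (conjugate); let `x2'` be in the last orbit over
`A, y, x'`: `(x', x2')` is far, `y ∈ K x' ⊆ K x2'`, and `x2'`, `x2` are conjugate over `A, y`: `y ∈ K x2`.  (b) in the same
way `y ∉ K x3` for `x3 ∈ Ge A x false (y,A)`.  The same trichotomy holds for `R`: `R` must decrease
(`R x1 ⊋ R x2`), since otherwise `y ∈ R x2` for `x2` as in (a), but `y ∈ K x2`; so `y ∈ R x3` for `x3` as in (b).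
(a) and this are `Ori A x z true`.  Case `⊋`: the same with `e = false`.
Persistence, `e = true`, `t = true`: let `u ∈ Ge A z true B`, `x'' ∈ Ge A x true (B, u)`: `u ∈ K x''`; an element
`u'` of `Ge A z true (B, x'')` is not in `K x''` (it is in `R x''`); `u, u' ∈ Ge A z true B` (one orbit over `B`) are
not conjugate over `B, x''`: `Nn B x'' u`; by NSB 2 for all `x'`, `z'`.  The other cases are similar:
always `u ∈ Ge A z (sg e t) B`, `x'' ∈ Ge A x t (B, u)`, `u' ∈ Ge A z (sg e t) (B, x'')`; by `Ori` `u` is in the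
first/last orbit over `x'', A` on the side `!(sg e t)`, and `u'` in the one on the side `sg e t`.
`Ori A z x e`: let `Ori A z x e'` (by what was shown and NSB 1).  Suppose `e = true`, `e' = false`: take
`x' ∈ p`, `z' ∈ Ge A z false (x',A)`; by `e' = false`, `x' ∈ Ge A x false (z',A)`; by `e = true` (`y = z'`, `t = false`)
`z' ∈ Ge A z true (x',A)`, contradiction to GER 8.  `e = false`, `e' = true` is symmetric. -/
def St_SMA : Prop :=
  ∀ (L : FirstOrder.Language.{0, 0}) (U : Type) [L.Structure U] [LinearOrder U], Wm L U →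
    ∀ (A : Set U) (x z : U), A.Finite → Nn L A x z → ∃ e : Bool, Ori L A x z e ∧ Ori L A z x e ∧
      ∀ (B : Set U) (t : Bool), B.Finite → A ⊆ B → ∀ x' ∈ Ge L A x t B,
        ∀ z' ∈ Ge L A z (sg e t) B, Nn L B x' z'

/-- [SMB] definable sides are matched.  PROOF.  `t' = sg e t`, `p`, `q` as in SMA.
By `Nn A x z` and GER 8 the orbits `Ge A z t' (x,A)` and `Ge A z (!t') (x,A)` are different; ORB 7, 6: an
`x, A`-definable `X` contains the second and is disjoint from the first; `X = {y | ![x,y] ∈ φ}` (DFN 1);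
`X x' = {y | ![x',y] ∈ φ}`, so `X (σ x) = σ (X x)` for `σ` over `A`.
(i) There is an `A`-definable `Y ⊇ q` such that no element of `Y` strictly beyond `q` (on the side
`t'`) is in any `X x'`, `x' ∈ p`: fix `u' ∈ Ge A z t' (x,A)`; the `A`-definable sets containing `z`, `X` and
`{y | leS t' u' y}` have no common point (it would be in `q`, beyond `u'`, so in `Ge A z t' (x,A)` by GER 7, but
not in `X`); saturation over `A, x, u'`; then conjugate.
(ii) `P = Cls t p` is `A`-definable.  `Z = {y ∈ Y | ∃ a ∈ P, ∀ b ∈ P, leS t a b → ![b,y] ∈ φ}` is `A`-definable (DFN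
2).  `q ⊆ Z`: take `a ∈ Ge A x t (y,A)`; `b ∈ P` beyond `a` is in `p` (convex), so in `Ge A x t (y,A)` (GER 7), and
`Ori` gives `y ∈ Ge A z (!t') (b,A) ⊆ X b`.  An element `y ∈ Z` is not strictly beyond `q`: for such `y` take
`b ∈ p` beyond `a`: `y ∈ X b`, contradiction to (i).  So `Cls t' Z = Cls t' q`; it is `A`-definable (DFN 3). -/
def St_SMB : Prop :=
  ∀ (L : FirstOrder.Language.{0, 0}) (U : Type) [L.Structure U] [LinearOrder U], Wm L U →
    ∀ (A : Set U) (x z : U) (e t : Bool), A.Finite → Nn L A x z → Ori L A x z e → SD L A x t →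
      SD L A z (sg e t)

/-- [SDI] definability of sides.  PROOF.  1: `→` DFN 3; `←`: `Orb = Cls true Orb ∩ Cls false Orb`
(convex).  2: `Cls t (Orb B u) = Cls t (Orb A x)` (unbounded), this set is invariant over `A`, ORB 8.
3: ORB 8.  4: ORB 9.  5: `{x}` is `A`-definable by ORB 8 and then DFN 3. -/
def St_SDI : Prop :=
  ∀ (L : FirstOrder.Language.{0, 0}) (U : Type) [L.Structure U] [LinearOrder U], Wm L U →
    (∀ (A : Set U) (x : U), A.Finite → (Isd L A x ↔ SD L A x true ∧ SD L A x false)) ∧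
    (∀ (A B : Set U) (x u : U) (t : Bool), A ⊆ B → B.Finite → u ∈ Ge L A x t B →
      (SD L B u t ↔ SD L A x t)) ∧
    (∀ (A B : Set U) (x : U), A ⊆ B → B.Finite → Orb L B x = Orb L A x →
      (Isd L B x ↔ Isd L A x) ∧ ∀ t, (SD L B x t ↔ SD L A x t)) ∧
    (∀ (σ : U ≃[L] U) (A : Set U) (x : U), (Isd L (σ '' A) (σ x) ↔ Isd L A x) ∧
      ∀ t, (SD L (σ '' A) (σ x) t ↔ SD L A x t)) ∧
    (∀ (A : Set U) (x : U) (t : Bool), A.Finite → ¬ SD L A x t → Orb L A x ≠ {x})

/-- [ISO] isolated and nonisolated types are weakly orthogonal.  PROOF.  Otherwise SMA, SMB (and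
SDI 1): both sides of `x` are definable, so both sides of `z` (every side is `sg e t` for some `t`). -/
def St_ISO : Prop :=
  ∀ (L : FirstOrder.Language.{0, 0}) (U : Type) [L.Structure U] [LinearOrder U], Wm L U →
    ∀ (A : Set U) (x z : U), A.Finite → Isd L A x → ¬ Isd L A z → ¬ Nn L A x z ∧ ¬ Nn L A z x

/-- [FAR] the weak order far on an orbit.  PROOF.  (`p = Orb A x ≠ {x}`.)  1: if `b ≤ a` then
`a ∈ Ge A a true (a,A) = {a}` by GER 7, so `{a}` is unbounded in `p`, contradiction to CNV.  2: GER 7 and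
FFR.  3: `Far a c`, not `Far a b`.  `O` = first orbit over `c, A`; `a ∈ O` (FFR).  If `b ≤ a` then `b ∈ O`, so
`Far b c` (FFR).  Let `a < b`, `V a = p \ (last orbit over a, A)`, `b ∈ V a`.  Take `c' ∈ O` and `a1` in the first
orbit over `A, c, c'` (`⊆ O`): `τ a = a1` with `τ` over `c, A`.  `Far a1 c'` (5), so `c' ∉ V a1`, and `τ b ∈ V a1`: `τ b < c'`,
so `τ b ∈ O`, `b ∈ O`, `Far b c`.  4: GER 5.  5: GER 2 and FFR.  6: conjugate `a` to `a'`, then GEX.  7: take `c1` in the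
last orbit over `a, A`, `c2` in the last orbit over `a, c1, A`, conjugate `(a, c2)` to `(a, b)`. -/
def St_FAR : Prop :=
  ∀ (L : FirstOrder.Language.{0, 0}) (U : Type) [L.Structure U] [LinearOrder U], Wm L U →
    ∀ (A : Set U) (x : U), A.Finite → Orb L A x ≠ {x} →
      (∀ a ∈ Orb L A x, ∀ b ∈ Orb L A x, Far L A a b → a < b) ∧
      (∀ a ∈ Orb L A x, ∀ b ∈ Orb L A x, ∀ c ∈ Orb L A x, Far L A a b → b ≤ c → Far L A a c) ∧
      (∀ a ∈ Orb L A x, ∀ b ∈ Orb L A x, ∀ c ∈ Orb L A x, a ≤ b → Far L A b c → Far L A a c) ∧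
      (∀ a ∈ Orb L A x, ∀ b ∈ Orb L A x, ∀ c ∈ Orb L A x, Far L A a c → Far L A a b ∨ Far L A b c) ∧
      (∀ a b, ∀ σ : U ≃[L] U, Fx L A σ → (Far L A (σ a) (σ b) ↔ Far L A a b)) ∧
      (∀ a ∈ Orb L A x, ∀ B : Set U, A ⊆ B → B.Finite → a ∈ B →
        (∀ b ∈ Ge L A x true B, Far L A a b) ∧ (∀ b ∈ Ge L A x false B, Far L A b a)) ∧
      (∀ a ∈ Orb L A x, ∀ a' ∈ Orb L A x, ∀ b b', Far L A a b → Far L A a' b' →
        ∃ σ : U ≃[L] U, Fx L A σ ∧ σ a = a' ∧ σ b = b') ∧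
      (∀ a ∈ Orb L A x, ∀ b, Far L A a b → b ∈ Orb L A x ∧
        ∃ c ∈ Orb L A x, Far L A a c ∧ Far L A c b)

/-! ### Germs -/

/-- [EQG] equivalence of germs (finite bases).  PROOF.  1: NSB 1.  2: let `D ⊇ g.1 ∪ k.1`; work over
`D ∪ h.1` (TRA), then NSB 6 (contrapositive) and GER 2 (elements of the type over `D ∪ h.1` are
elements of the type over `D`, which is one orbit; NSB 2).  3: NSB 3, GER 5.  4: GER 1; the
equivalence: `D ∪ E` and NSB 6 as in 2.  5: GER 3 and the same.  6: `gs g D` is one orbit `≠ {u}` (it is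
unbounded in the orbit, CNV), NSB 4.  7: NSB 6 as in 2.  8: GER 4. -/
def St_EQG : Prop :=
  ∀ (L : FirstOrder.Language.{0, 0}) (U : Type) [L.Structure U] [LinearOrder U], Wm L U →
    (∀ g h : Gm U, Eqg L g h → Eqg L h g) ∧
    (∀ g h k : Gm U, h.1.Finite → Eqg L g h → Eqg L h k → Eqg L g k) ∧
    (∀ (σ : U ≃[L] U) (g h : Gm U), Eqg L g h → Eqg L (mg L σ g) (mg L σ h)) ∧
    (∀ (g : Gm U) (D : Set U) (u : U), D.Finite → g.1 ⊆ D → u ∈ gs L g D →
      (∀ E : Set U, D ⊆ E → E.Finite → gs L ((D, u, g.2.2) : Gm U) E = gs L g E) ∧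
      ∀ h : Gm U, h.1.Finite → (Eqg L ((D, u, g.2.2) : Gm U) h ↔ Eqg L g h)) ∧
    (∀ (D D' : Set U) (w : U) (t : Bool) (h : Gm U), D ⊆ D' → D'.Finite → h.1.Finite →
      Orb L D' w = Orb L D w → (Eqg L ((D', w, t) : Gm U) h ↔ Eqg L ((D, w, t) : Gm U) h)) ∧
    (∀ g : Gm U, g.1.Finite → Orb L g.1 g.2.1 ≠ {g.2.1} → Eqg L g g) ∧
    (∀ (g h : Gm U) (D : Set U), D.Finite → g.1 ⊆ D → h.1 ⊆ D →
      (∀ E : Set U, E.Finite → D ⊆ E → ∀ u ∈ gs L g E, ∀ v ∈ gs L h E, Nn L E u v) → Eqg L g h) ∧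
    (∀ (σ : U ≃[L] U) (g : Gm U), Fx L g.1 σ → (mg L σ g).1 = g.1 ∧
      ∀ D : Set U, gs L (mg L σ g) D = gs L g D)

/-- [SMG] matching theorem for germs.  PROOF.  SMA (persistence), EQG 7; definability: SMB in both
directions (`Ori A x z e` and `Ori A z x e`, `sg e (sg e t) = t`). -/
def St_SMG : Prop :=
  ∀ (L : FirstOrder.Language.{0, 0}) (U : Type) [L.Structure U] [LinearOrder U], Wm L U →
    ∀ (D : Set U) (u w : U), D.Finite → Nn L D u w → ∃ e : Bool, ∀ t : Bool,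
      Eqg L ((D, u, t) : Gm U) ((D, w, sg e t) : Gm U) ∧ (SD L D u t ↔ SD L D w (sg e t))

/-! ### Models -/

/-- [LTW] a convex set without points of the model has at most two orbits.  PROOF.  Otherwise
`Orb D u₂` is between `u₁` and `u₃` (convexity).  The `D`-definable sets containing `u₂` and
`{v | v ≤ u₁}` have no common point (it would be in `Orb D u₂`), saturation over `D, u₁`: a `D`-definable
`s₁ ∋ u₂` with all elements `> u₁`; likewise `s₃ ∋ u₂` with all elements `< u₃`.  `s₁ ∩ s₃` is `D`-definable,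
nonempty and contained in `G`, so it has a point in `M`. -/
def St_LTW : Prop :=
  ∀ (L : FirstOrder.Language.{0, 0}) (U : Type) [L.Structure U] [LinearOrder U], Wm L U →
    ∀ (M G D : Set U), IsEl L M → G.OrdConnected → G ∩ M = ∅ → D.Finite → D ⊆ M →
      ∀ u₁ ∈ G, ∀ u₂ ∈ G, ∀ u₃ ∈ G, u₁ < u₂ → u₂ < u₃ → u₂ ∈ Orb L D u₁ ∨ u₃ ∈ Orb L D u₂

/-- [UNG] gaps inside convex sets without points of `M`.  PROOF.  If `G` is one orbit over all
finite `D ⊇ D₀` in `M` take `D = D₀`.  Otherwise take `D` with at least two orbits in `G`; by LTW there are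
exactly two, over `D` and over all larger finite subsets of `M`: so they are not cut.
Last part: let `O₁ < O₂` be the two orbits, `t = false`, `w ∈ O₁`, `u₂ ∈ O₂`.  As in LTW there is a `D`-definable
`s₁ ⊇ O₁` with all elements `< u₂`, so (invariance, convexity) all elements `< O₂`.  `Cls true s₁ = Cls true
O₁` (an element of the difference is between `O₁` and `O₂`, so in `G`).  `t = true`: reverse the order. -/
def St_UNG : Prop :=
  ∀ (L : FirstOrder.Language.{0, 0}) (U : Type) [L.Structure U] [LinearOrder U], Wm L U →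
    ∀ (M G D₀ : Set U), IsEl L M → G.OrdConnected → G.Nonempty → G ∩ M = ∅ → D₀.Finite →
      D₀ ⊆ M → (∀ u ∈ G, Orb L D₀ u ⊆ G) →
      ∃ D : Set U, D.Finite ∧ D₀ ⊆ D ∧ D ⊆ M ∧ (∀ u ∈ G, Unc L D u M) ∧
        ∀ t : Bool, ∃ w ∈ G, Sd t (Orb L D w) G ∧ (Orb L D w = G ∨ SD L D w (!t))

/-- [CLI] closedness depends only on the class of the germ.  PROOF.  Let `D ⊇ g.1 ∪ h.1` be finite in
`M` with `gs g D ∩ M = ∅` (GER 2 for enlarging `D`).  If `h` is not closed take `y₁ ∈ gs h D ∩ M`,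
`y₂ ∈ gs h (D,y₁) ∩ M`, `D'' = D ∪ {y₁,y₂}`.  `p = gs g D` is one convex orbit without points of `M`.
`Nn D u y₁`: `p` is not one orbit over `D, y₁`.  Let `u₁ ∈ gs g (D,y₁) ⊆ p`; `Nn (D,y₁) u₁ y₂`: `Orb (D,y₁) u₁` is not one
orbit over `D''`.  So `p` contains three different orbits over `D''`, contradiction to LTW. -/
def St_CLI : Prop :=
  ∀ (L : FirstOrder.Language.{0, 0}) (U : Type) [L.Structure U] [LinearOrder U], Wm L U →
    ∀ (M : Set U) (g h : Gm U), IsEl L M → g.1 ⊆ M → h.1 ⊆ M → h.1.Finite → Eqg L g h →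
      Clo L g M → Clo L h M

/-- [VDX] adding elements to configurations.  PROOF.  `¬ Nn` means `Orb (b,D) (w i) = Orb D (w i)`; SDI 3;
`Wm.na`.  `Le` is reflexive and transitive. -/
def St_VDX : Prop :=
  ∀ (L : FirstOrder.Language.{0, 0}) (U : Type) [L.Structure U] [LinearOrder U], Wm L U →
    (∀ (c : Cfg L U) (b : U), Vd L c → (∀ i ∈ c.I, ¬ Nn L c.D b (c.w i)) →
      Vd L (c.add L b) ∧ Le L c (c.add L b)) ∧
    (∀ c : Cfg L U, Le L c c) ∧ (∀ c c' c'' : Cfg L U, Le L c c' → Le L c' c'' → Le L c c'')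

/-- [GNC] the general construction.  PROOF.  Countably many tasks, each handled at infinitely many
stages (`U` is countable, so are the finite subsets): (1) `T k`; (2) for `(B, x)`: if `B ⊆ D` and
`Isd B x` add an element of `Orb B x` which is isolated over `D` (DNS; the gaps are not cut, ISO and
`Vd.niso`); (3) for `(B, z, t)`: if `B ⊆ D` take `b ∈ Ge B z t D`; if `¬ Nn D b (w i)` for all `i ∈ I` add `b`,
otherwise do nothing.  `M = ⋃ D_j` is elementary: a nonempty `M`-definable set is definable over a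
finite `B ⊆ M`, it contains an isolated `x` over `B` (DNS), use (2).  A germ for which (3) is successful
at all late stages is open in `M` (`Ge B z t D_j ⊆ Ge B z t D` for `D ⊆ D_j`); if it fails at the stage `j` then
some `i ∈ I_j` has `Nn D_j b (w i)`, for all `u` in the orbit `Ge B z t D_j` of `b` by NSB 2. -/
def St_GNC : Prop :=
  ∀ (L : FirstOrder.Language.{0, 0}) (U : Type) [L.Structure U] [LinearOrder U], Wm L U →
    ∀ (Q : Cfg L U → Prop) (K : Type) [Countable K] (T : K → Cfg L U → Prop) (c₀ : Cfg L U),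
      (∀ c, Q c → Vd L c) → Q c₀ →
      (∀ c b, Q c → (∀ i ∈ c.I, ¬ Nn L c.D b (c.w i)) → Q (c.add L b)) →
      (∀ k c, Q c → ∃ c', Q c' ∧ Le L c c' ∧ T k c') →
      ∃ c : ℕ → Cfg L U, c 0 = c₀ ∧ (∀ j, Q (c j)) ∧ (∀ i j, i ≤ j → Le L (c i) (c j)) ∧
        (∀ k, ∃ j, T k (c j)) ∧ IsEl L (⋃ j, (c j).D) ∧
        (∀ j, ∀ i ∈ (c j).I, Unc L (c j).D ((c j).w i) (⋃ j, (c j).D)) ∧
        ∀ (B : Set U) (z : U) (t : Bool), B.Finite → B ⊆ (⋃ j, (c j).D) →
          (∀ D : Set U, D.Finite → B ⊆ D → D ⊆ (⋃ j, (c j).D) →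
            (Ge L B z t D ∩ ⋃ j, (c j).D).Nonempty) ∨
          ∃ j, B ⊆ (c j).D ∧ ∃ i ∈ (c j).I, ∀ u ∈ Ge L B z t (c j).D, Nn L (c j).D u ((c j).w i)

/-- [OPF] the model with exactly the gaps of a configuration.  PROOF.  GNC with `Q c' =` (`Vd c'`,
`Le c c'`, `c'.I = c.I`), `K` empty. -/
def St_OPF : Prop :=
  ∀ (L : FirstOrder.Language.{0, 0}) (U : Type) [L.Structure U] [LinearOrder U], Wm L U →
    ∀ c : Cfg L U, Vd L c → ∃ M : Set U, IsEl L M ∧ c.D ⊆ M ∧
      (∀ i ∈ c.I, Unc L c.D (c.w i) M) ∧ GP L c M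

/-! ### Finitely many gaps, constant codes -/

/-- [FCG] if all models have finitely many gaps then there are countably many models.  PROOF.
The data `(B, m, v)` are countably many (`U` is countable).  Let `M`, `M'` have the same data.  Back
and forth (BFM of StB or directly) with the pairs `(A, g)`: `B ⊆ A ⊆ M` finite, `g` fixes `B`,
`g '' A ⊆ M'`.  Forth: `a ∈ M`.  If some `a' ∈ M'` is in `Orb (g A) (g a)`, `τ (g a) = a'` with `τ` over `g A`: take
`τ g`.  Suppose not.  `G = Orb (g A) (g a)` is not definable over `g A` (otherwise it meets `M'`).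
UNG (`D₀ = g A`, `t` with `¬ SD (g A) (g a) t`, exists by SDI 1): `D ⊇ g A`, `w ∈ G` unbounded on the side `t`,
`Unc D w M'`, and `w ∈ Ge (g A) (g a) t D`, so `¬ SD D w t` (SDI 2), `¬ Isd D w`.  Covering property of
`M'`: `Nn D w v_j`, so `Nn (g A) w v_j` (NSB 6), `Nn (g A) (g a) v_j` (NSB 2), `Nn A a (g⁻¹ v_j)`.  `g` fixes `B`:
`g⁻¹ v_j ∈ Orb B v_j = Orb A v_j` (`Unc`), so `Nn A a v_j`: `Orb (a,A) v_j ≠ Orb A v_j`, contradiction to `Unc B v_j M`.
Back: symmetric (`g⁻¹`). -/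
def St_FCG : Prop :=
  ∀ (L : FirstOrder.Language.{0, 0}) (U : Type) [L.Structure U] [LinearOrder U], Wm L U →
    (∀ M : Set U, IsEl L M → FinG L M) → CtU L U

/-- [INF] infinitely many gaps.  PROOF.  Recursion: `v_0, .., v_(n-1)` are not cut over `B_(n-1)`; since
`¬ FinG M` there are `B_n ⊇ B_(n-1)` and `v_n`.  (For `n = 0`: `B = ∅`, `m = 0`.) -/
def St_INF : Prop :=
  ∀ (L : FirstOrder.Language.{0, 0}) (U : Type) [L.Structure U] [LinearOrder U], Wm L U →
    ∀ M : Set U, IsEl L M → ¬ FinG L M → ∃ (B : ℕ → Set U) (v : ℕ → U),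
      (∀ n, (B n).Finite ∧ B n ⊆ M ∧ Unc L (B n) (v n) M ∧ ¬ Isd L (B n) (v n)) ∧ Monotone B ∧
      ∀ i n, i < n → ¬ Nn L (B n) (v n) (v i)

/-- [MSX] independent choice of the closed germs.  PROOF.  GNC with `K = ℕ`,
`T k c = (B k ⊆ c.D ∧ (k ∈ S → k ∈ c.I))` and `Q c`: `Vd c`, and there is `n` with `B k ⊆ c.D` for `k < n`,
`c.I = {i < n | i ∈ S}`, `c.w i ∈ Ge (B i) (v i) (s i) c.D` for `i ∈ c.I`.  `c₀`: `D = ∅`, `I = ∅`.
Adding `b`: `Orb (b,D) (w i) = Orb D (w i)`, GER 1, 3.  `T k`: it is enough to pass from `n` to `n + 1`.  Add the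
elements `b` of `B n` one after the other: let `B n = {b_1, .., b_l} ∪ ..`, already
`E = B (n-1) ∪ {b_1,..,b_j} ⊆ D`, `i ∈ c.I`: `Orb E (v i) = Orb (B i) (v i) = Orb (b_(j+1), E) (v i)`: `¬ Nn E b_(j+1) (v i)`;
`w i ∈ Orb (B i) (v i) = Orb E (v i)`, so `¬ Nn E b (w i)` (NSB 2) and `¬ Nn D b (w i)` (NSB 6).  If `n ∈ S` then let
`w n ∈ Ge (B n) (v n) (s n) D`; `¬ SD D (w n) (s n)` (SDI 2), so not isolated; `w n ∈ Orb (B n) (v n)`,
`w i ∈ Orb (B n) (v i)`: `¬ Nn (B n) (w i) (w n)` and `¬ Nn D (w i) (w n)`.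
Result: for `i ∈ S` the germ is closed: `w i` is in its type over `D_j`, which is not cut by `M` and
not isolated, so it has no points in `M` (a point `y ∈ M` of the orbit gives
`Orb (D_j,y) = {y}`).  For `i ∉ S` it is open: otherwise there are `j` with `B i ⊆ D_j`, `k ∈ I_j` (so
`k ∈ S`, `B k ⊆ D_j`) and `Nn D_j u (w k)` for `u ∈ Ge (B i) (v i) (s i) D_j`; with `l = max i k`, `B l ⊆ D_j`:
`u ∈ Orb (B i) (v i) = Orb (B l) (v i)`, `w k ∈ Orb (B k) (v k) = Orb (B l) (v k)`, and `v i`, `v k` are weakly orthogonal over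
`B l`; so `¬ Nn (B l) u (w k)` (NSB 2) and `¬ Nn D_j u (w k)` (NSB 6), contradiction. -/
def St_MSX : Prop :=
  ∀ (L : FirstOrder.Language.{0, 0}) (U : Type) [L.Structure U] [LinearOrder U], Wm L U →
    ∀ (B : ℕ → Set U) (v : ℕ → U) (s : ℕ → Bool), (∀ n, (B n).Finite) → Monotone B →
      (∀ n, ¬ SD L (B n) (v n) (s n)) → (∀ i n, i ≤ n → Orb L (B n) (v i) = Orb L (B i) (v i)) →
      (∀ i n, i < n → ¬ Nn L (B n) (v i) (v n)) → ∀ S : Set ℕ, ∃ M : Set U, IsEl L M ∧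
        (∀ n, B n ⊆ M) ∧ ∀ i, (Clo L ((B i, v i, s i) : Gm U) M ↔ i ∈ S)

/-! ### Levels -/

/-- [LV0] equivalence of level `ω` gives automorphisms.  PROOF.  The atomic level is quantifier free
equivalence (the language is relational).  By induction on formulas: if the tuples are
equivalent at a level `≥ ω` (relative to `M`, `M'`) then they satisfy the same formulas in `U`
(`M`, `M'` are elementary: `IsEl`, Tarski-Vaught, the quantifiers range over `M`, `M'`; a formula with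
`n` quantifiers needs the level `n`).  So they have the same type in `U`; `Mon.hom`. -/
def St_LV0 : Prop :=
  ∀ (L : FirstOrder.Language.{0, 0}) [∀ n, IsEmpty (L.Functions n)] (U : Type)
    [S : L.Structure U], Mon L U →
    ∀ (M M' : Set U) (Γ : Set (U × U)) (γ : Ordinal.{0}), IsEl L M → IsEl L M' → Γ.Finite →
      (∀ p ∈ Γ, p.1 ∈ M ∧ p.2 ∈ M') → Ordinal.omega0 ≤ γ →
      Pool.Agent.Helper79.VC.BFR S S M M' γ Γ → ∃ σ : U ≃[L] U, ∀ p ∈ Γ, σ p.1 = p.2

/-- [LV1] closed germs are decoded at the level `ω + ω`.  PROOF.  `D ⊆ M` finite with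
`gs g D ∩ M = ∅`, `D = {d_1,..,d_l}`.  Forth `l` times: `d'_i ∈ M'`, equivalence of level `ω + 1` for
`Γ' = Γ ∪ {(d_i,d'_i)}`.  LV0: `σ'` for `Γ'`; `D' = σ' D ⊆ M'`.  `σ' σ⁻¹` fixes the base `σ g.1` of `mg σ g`, so `mg σ g`
and `mg σ' g` have the same types (EQG 8).  If `y' ∈ M'` is in `gs (mg σ' g) D' = σ' (gs g D)`: back: `y ∈ M` and
LV0: `σ''` for `Γ' ∪ {(y,y')}`.  `σ'⁻¹ y' ∈ gs g D`, and `y = σ''⁻¹ y'` is conjugate to it over `D`
(`σ''⁻¹ σ'` fixes `D`): `y ∈ gs g D ∩ M`. -/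
def St_LV1 : Prop :=
  ∀ (L : FirstOrder.Language.{0, 0}) [∀ n, IsEmpty (L.Functions n)] (U : Type)
    [S : L.Structure U] [LinearOrder U], Wm L U →
    ∀ (M M' : Set U) (Γ : Set (U × U)) (γ : Ordinal.{0}), IsEl L M → IsEl L M' → Γ.Finite →
      (∀ p ∈ Γ, p.1 ∈ M ∧ p.2 ∈ M') → Ordinal.omega0 + Ordinal.omega0 ≤ γ →
      Pool.Agent.Helper79.VC.BFR S S M M' γ Γ →
      ∀ (σ : U ≃[L] U) (g : Gm U), (∀ p ∈ Γ, σ p.1 = p.2) → g.1 ⊆ Prod.fst '' Γ →
        Clo L g M → Clo L (mg L σ g) M'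

/-- [SCC] constant codes: every model has finitely many gaps.  PROOF.  Otherwise INF, and sides
`s n` with `¬ SD (B n) (v n) (s n)` (SDI 1).  MSX for every `S ⊆ ℕ` (`Unc` gives the hypothesis on orbits,
NSB 1): `X f = M_S`, `S = {n | f n = true}`.  `ScU` with `n = 0`, `γ = ω + ω + ω`: `f ≠ g` with
`BFR (X f) (X g) γ ∅`; let `i ∈ S_f`, `i ∉ S_g` (or conversely, BFR is symmetric).  `B i = {b_1,..,b_l} ⊆ X f`; forth `l`
times: `b'_j ∈ X g`, level `ω + ω`, LV0: `σ`, `σ b_j = b'_j`.  LV1: the germ `mg σ (B i, v i, s i)` is closed in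
`X g`.  By `AllC` (with `C = ∅`, `x` an enumeration of `B i`) it is equivalent to `(B i, v i, s i)`, whose base is in
`X g`; CLI: this one is closed in `X g`, so `i ∈ S_g`. -/
def St_SCC : Prop :=
  ∀ (L : FirstOrder.Language.{0, 0}) [∀ n, IsEmpty (L.Functions n)] (U : Type)
    [S : L.Structure U] [LinearOrder U], Wm L U → ScU L S → (∀ k, AllC L U k) →
    ∀ M : Set U, IsEl L M → FinG L M

/-! ### Nonconstant codes -/

/-- [GAM] the codes of the coordinates are constant.  PROOF.  `AllC (t+1)` for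
`x' j = x j`, `j ≤ t` (`Fin (t+1) → U`): `C ∪ range x' = bs C x t`. -/
def St_GAM : Prop :=
  ∀ (L : FirstOrder.Language.{0, 0}) (U : Type) [L.Structure U] [LinearOrder U], Wm L U →
    ∀ (C : Set U) (m : ℕ) (x : Fin (m + 1) → U) (z : U) (s : Bool), NCx L C x z s →
      ∀ (t : Fin m) (τ : Bool), ¬ SD L (bs C x t) (x t.succ) τ → ∀ σ : U ≃[L] U, Fx L C σ →
        Eqg L ((bs C x t, x t.succ, τ) : Gm U) (mg L σ ((bs C x t, x t.succ, τ) : Gm U))

/-- [KAP] the classes of a minimal nonconstant code.  PROOF.  (a) `AllC m` over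
`C' = C ∪ {ρ (x 0)}` for the tuple `j ↦ ρ (x (j+1))` and the automorphism `ρ' ρ⁻¹`, which fixes `C'`
(`C' ∪ range = ρ (C ∪ range x)`; `¬ SD` by SDI 4).  (b) Suppose `gr ρ`, `gr ρ'` are equivalent for one far
pair.  All far pairs are conjugate (FAR 7), so by (a) and EQG 3 `gr ρ₁`, `gr ρ₂` are equivalent whenever
`ρ₁ (x 0)`, `ρ₂ (x 0)` are a far pair.  For arbitrary `ρ₁`, `ρ₂` over `C` let `a` be in the last orbit over
`C, ρ₁ (x 0), ρ₂ (x 0)` (FAR 6), `a = ρ₃ (x 0)`: all are equivalent, contradiction to `non`.  (In the case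
`Orb C (x 0) = {x 0}` all are equivalent by (a): this is (c).)  (d) `gr ρ'` is the image of `gr ρ` under
`ρ' ρ⁻¹`; so `gr ρ'`, `mg (ρ' ρ⁻¹) h`, `h` are equivalent, for all `ρ'`: contradiction to `non`.
(e) EQG 3 for `σ = ρ⁻¹`-type bookkeeping: `mg σ (gr ρ) = gr (σ ρ)`.  (f) finite base, `¬ SD` (SDI 4). -/
def St_KAP : Prop :=
  ∀ (L : FirstOrder.Language.{0, 0}) (U : Type) [L.Structure U] [LinearOrder U], Wm L U →
    ∀ (C : Set U) (m : ℕ) (x : Fin (m + 1) → U) (z : U) (s : Bool), NCx L C x z s →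
      (∀ ρ ρ' : U ≃[L] U, Fx L C ρ → Fx L C ρ' → ρ (x 0) = ρ' (x 0) →
        Eqg L (gr L C x z s ρ) (gr L C x z s ρ')) ∧
      (∀ ρ ρ' : U ≃[L] U, Fx L C ρ → Fx L C ρ' → Far L C (ρ (x 0)) (ρ' (x 0)) →
        ¬ Eqg L (gr L C x z s ρ) (gr L C x z s ρ')) ∧
      Orb L C (x 0) ≠ {x 0} ∧
      (∀ h : Gm U, h.1.Finite → (∀ σ : U ≃[L] U, Fx L C σ → Eqg L h (mg L σ h)) →
        ∀ ρ : U ≃[L] U, Fx L C ρ → ¬ Eqg L (gr L C x z s ρ) h) ∧
      (∀ σ ρ : U ≃[L] U, mg L σ (gr L C x z s ρ) = gr L C x z s (σ.comp ρ)) ∧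
      (∀ ρ : U ≃[L] U, (gr L C x z s ρ).1.Finite ∧
        ¬ SD L (gr L C x z s ρ).1 (gr L C x z s ρ).2.1 s)

/-- [CDN] density.  PROOF.  Suppose there is no such `y''`.  `p = Orb C (x 0)`, `G = {u ∈ p : Far y u, Far u y'}`
is convex (FAR 2, 3), nonempty (FAR 8), has no point in `M`, and is invariant over `C, y, y'` (FAR 5).  UNG with
`D₀ = c.D ∪ {y, y'}`, `t = false`: `D` and `w ∈ G` with `Orb D w` a left end of `G`, `Unc D u M` for `u ∈ G`.
`Orb D w` has no point in `M`, so it is not definable over `D`; let `τ` be a side with `¬ SD D w τ` (SDI 1).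
`GP` for the germ `(D, w, τ)`: it is not open; so there are `D' ⊇ D ∪ c.D` in `M` and `i ∈ c.I` with
`Nn D' w (c.w i)` (`w` is in the germ over `D'` since `Orb D' w = Orb D w`).  SMG over `D'` for `c.w i` and `w`: sign `e`:
`(D', c.w i, s) ~ (D', w, sg e s)`, and `¬ SD D' (c.w i) s` (`c.w i` is in the germ `gr (r i)` over `c.D`, KAP (f), SDI 2, 3),
so `¬ SD D' w (sg e s)`; `(D', c.w i, s) ~ gr (r i)` (EQG 4, 5).
Case `sg e s = false` (left side).  Let `w₀ ∈ Ge C y true (y,C)` and `δ = (insert y C, w₀, false)`; for `E ⊇ D'`: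
`gs δ E = gs (D', w, false) E` (`G` is an initial part of `Orb (y,C) w₀`, `Orb D w` an initial part of `G`).  So
`gr (r i) ~ δ`, and `δ` is fixed (EQG 8) by all automorphisms over `C, y`.  `a = r i (x 0)` is far from `y`, say
`Far y a`: take `a' ∈ Ge C y true (C,y,a)`, it is conjugate to `a` over `C, y`: `a' = τ a`, so `gr (r i) ~ δ ~ mg τ (gr (r i))
= gr (τ (r i))`; but `Far a a'` (FAR 6), contradiction to KAP (b).  `Far a y`: the same with the first orbit.
Case `sg e s = true`: then `¬ SD D w true` (SDI 3), so `Orb D w = G` (UNG with `t = false`).  Let `w₁ ∈ Ge C y' false (y',C)`,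
`δ = (insert y' C, w₁, true)`: `gs δ E = gs (D', w, true) E` (`G` is a final part of `Orb (y',C) w₁`).  Continue with `y'`
instead of `y`. -/
def St_CDN : Prop :=
  ∀ (L : FirstOrder.Language.{0, 0}) (U : Type) [L.Structure U] [LinearOrder U], Wm L U →
    ∀ (C : Set U) (m : ℕ) (x : Fin (m + 1) → U) (z : U) (s : Bool), NCx L C x z s →
      ∀ (c : Cfg L U) (M : Set U), Vc L C x z s c → IsEl L M → c.D ⊆ M →
        (∀ i ∈ c.I, Unc L c.D (c.w i) M) → GP L c M →
        ∀ y ∈ M, ∀ y' ∈ M, y ∈ Orb L C (x 0) → y' ∈ Orb L C (x 0) → Far L C y y' →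
          (∀ i ∈ c.I, (Far L C y (ps L x c i) ∨ Far L C (ps L x c i) y) ∧
            (Far L C y' (ps L x c i) ∨ Far L C (ps L x c i) y')) →
          ∃ y'' ∈ M, y'' ∈ Orb L C (x 0) ∧ Far L C y y'' ∧ Far L C y'' y'

/-- [COR] the other coordinates exist in the model.  PROOF.  Induction on `t`: `ρ` over `C` with
`ρ (x 0) = a` and `ρ (x j) ∈ M` for `j ≤ t`.  Let `w = ρ (x (t+1))`, `B = ρ (bs C x t) ⊆ M`.  If `Isd B w` then
`Orb B w` is definable, so it has a point `b = τ w` in `M`, `τ` over `B`; take `τ ρ`.  Otherwise let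
`¬ SD B w τ` and consider the germ `h = (B, w, τ) = mg ρ (bs C x t, x (t+1), τ)`.  If it is open then
`Orb B w = Ge B w τ B` has a point in `M`, as before.  Otherwise `GP`: `D' ⊇ B ∪ c.D`, `i ∈ c.I` with `Nn D' u (c.w i)`,
`u ∈ gs h D'`.  SMG: `(D', u, τ) ~ (D', c.w i, sg e τ)`, `(D', u, τ) ~ h` (EQG 4), `(D', c.w i, _) ~ (c.D, c.w i, _)` (EQG
5).  If `sg e τ = s`: `h ~ gr (r i)` (EQG 4, `Vc.ge`), and `h` has a class invariant over `C` (GAM): contradiction to KAP (d).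
If `sg e τ = !s`: `(bs C x t, x (t+1), τ) ~ h ~ (c.D, c.w i, !s)` (GAM), contradiction to `Vc.bf`. -/
def St_COR : Prop :=
  ∀ (L : FirstOrder.Language.{0, 0}) (U : Type) [L.Structure U] [LinearOrder U], Wm L U →
    ∀ (C : Set U) (m : ℕ) (x : Fin (m + 1) → U) (z : U) (s : Bool), NCx L C x z s →
      ∀ (c : Cfg L U) (M : Set U), Vc L C x z s c → IsEl L M → c.D ⊆ M →
        (∀ i ∈ c.I, Unc L c.D (c.w i) M) → GP L c M →
        ∀ a ∈ M, a ∈ Orb L C (x 0) → ∃ ρ : U ≃[L] U, Fx L C ρ ∧ ρ (x 0) = a ∧ ∀ j, ρ (x j) ∈ M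

/-- [VCX] valid configurations, extension by elements.  PROOF.  VDX; `Orb (b,D) (w i) = Orb D (w i)`: GER 1, 3
for `ge`, EQG 5 for `bf` and `Cl`.  Last part: `Le c c'` gives `Orb c'.D (w i) = Orb c.D (w i)`, EQG 5, for
`Cl` and `Ri.two` (the part `no` of `Ri` is not claimed). -/
def St_VCX : Prop :=
  ∀ (L : FirstOrder.Language.{0, 0}) (U : Type) [L.Structure U] [LinearOrder U], Wm L U →
    ∀ (C : Set U) (m : ℕ) (x : Fin (m + 1) → U) (z : U) (s : Bool), NCx L C x z s →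
      (∀ (c : Cfg L U) (b : U), Vc L C x z s c → (∀ i ∈ c.I, ¬ Nn L c.D b (c.w i)) →
        Vc L C x z s (c.add L b) ∧ Le L c (c.add L b)) ∧
      (∀ (c c' : Cfg L U) (t : Bool), Vc L C x z s c → Vc L C x z s c' → Le L c c' → ∀ i ∈ c.I,
        ps L x c' i = ps L x c i ∧ (Cl L C x z s t c' i ↔ Cl L C x z s t c i))

/-- [NEW] a new gap in a rich interval.  PROOF.  `M` from OPF for `c`.  `X = {y ∈ M ∩ Orb C (x 0) : Far u y, Far y
v}`.  All `y ∈ X` are far from all `ps c i` (`Ri.no`, FAR 4).  By CDN between two far elements of `X` there is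
another one; `Ri.two` gives two far elements; so there are `e_1, .., e_(N+4) ∈ X` with `Far e_j e_(j+1)`,
`N = 2 m + 1 + |I|`.  For each `i ∈ c.I` there is at most one `j` such that a germ `gr ρ`, `ρ (x 0) = e_j`, is equivalent
to `(c.D, c.w i, !s)` (KAP (b), EQG).  So at least `2 m + 1` of the `j`, `3 ≤ j ≤ N + 2`, have no such `i`; for these
COR: `ρ_j` over `C`, `ρ_j (x 0) = e_j`, `ρ_j (x l) ∈ M`.  `D' = c.D ∪ {e_j} ∪ {ρ_j (x l)} ⊆ M`, `w_j ∈ gs (gr ρ_j) D'`.
(1) `¬ Nn D' (w_j) (c.w i)`: otherwise SMG: `(D', w_j, s) ~ (D', c.w i, sg e s)`; `(D', w_j, s) ~ gr ρ_j` (EQG 4); if `sg e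
s = s` then `gr ρ_j ~ gr (c.r i)` (EQG 4, 5), contradiction to KAP (b) (`e_j` is far from `ps c i`); if `sg e s = !s` then
`gr ρ_j ~ (c.D, c.w i, !s)`, excluded.  (2) Some `j` satisfies: `¬ ((bs C x t, x (t+1), τ) ~ (D', w_j, !s))` for all `t`, `τ`
with `¬ SD (bs C x t) (x (t+1)) τ`.  Otherwise (pigeonhole, `2 m` pairs `(t,τ)`) there are `j ≠ j'` with the same
`(t,τ)`, so `(D', w_j, !s) ~ (D', w_j', !s)`, in particular `Nn D' w_j w_j'`; SMG: `(D', w_j, s) ~ (D', w_j', sg e s)`; if `sg e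
s = s` then `gr ρ_j ~ gr ρ_j'`, contradiction to KAP (b); otherwise `gr ρ_j ~ (bs C x t, x (t+1), τ)`, contradiction to KAP (d)
and GAM.  Let `c'.D = D'`, `c'.I = insert i c.I`, `w i = w_j`, `r i = ρ_j`.  `Vd`: `w_j` is not isolated over `D'` (KAP (f),
SDI 2, 1), `c.w i` are not cut by `D' ⊆ M`; `ge`, `bf` for old indices: GER 1, 3, EQG 5.
`Ri c' u e_j`: `e_1, e_2 ∈ D'`; `Ri c' e_j v`: `e_(N+3), e_(N+4)`. -/
def St_NEW : Prop :=
  ∀ (L : FirstOrder.Language.{0, 0}) (U : Type) [L.Structure U] [LinearOrder U], Wm L U →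
    ∀ (C : Set U) (m : ℕ) (x : Fin (m + 1) → U) (z : U) (s : Bool), NCx L C x z s →
      ∀ (c : Cfg L U) (u v : U) (i : ℕ), Vc L C x z s c → Ri L C x c u v → i ∉ c.I →
        ∃ c' : Cfg L U, Vc L C x z s c' ∧ Le L c c' ∧ c'.I = insert i c.I ∧
          Ri L C x c' u (ps L x c' i) ∧ Ri L C x c' (ps L x c' i) v

/-- [DIC] one colour.  PROOF.  There are `u₀ << b << b' << v₀` in `Orb C (x 0)` (FAR 6); `c₀.D = C ∪ {u₀, b, b', v₀}`,
`c₀.I = ∅`.  If `CN true c₀ u₀ v₀` we are done.  Otherwise there are `c`, `i ∉ c.I`, `u`, `v` (`Vc c`, `Ri c u v`) such that no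
`c'` has (*): `Vc c'`, `Le c c'`, `c'.I = insert i c.I`, `Ri c' u (ps c' i)`, `Ri c' (ps c' i) v`, `Cl true c' i`.  Claim:
`CN false c u v`.  Let `c₁`, `i₁ ∉ c₁.I`, `u₁`, `v₁` be given, NEW: `c'`.  If `Cl false c' i₁` fails then some `ρ` has
`gr ρ ~ (c'.D, c'.w i₁, !s)` and `Far (ps c' i₁) (ρ (x 0))`; then `Cl true c' i₁` holds: another `ρ'` with
`Far (ρ' (x 0)) (ps c' i₁)` gives `Far (ρ' (x 0)) (ρ (x 0))`, `gr ρ ~ gr ρ'`, contradiction to KAP (b).
Define `c''`: `D = c'.D`, `I = insert i c.I`, the data of `i` are those of `i₁` in `c'`, the others those of `c`.  It has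
(*): valid since `c'` is (only indices were dropped and `i₁` was renamed); `no`: an index `j ∈ c.I` between `u` and
`ps c'' i` would be between `u` and `v`; `two`: from `Ri c' u₁ _`, `u = u₁` or `Far u u₁`, similarly on the right. -/
def St_DIC : Prop :=
  ∀ (L : FirstOrder.Language.{0, 0}) (U : Type) [L.Structure U] [LinearOrder U], Wm L U →
    ∀ (C : Set U) (m : ℕ) (x : Fin (m + 1) → U) (z : U) (s : Bool), NCx L C x z s →
      ∃ (t : Bool) (c₀ : Cfg L U) (u₀ v₀ : U), Vc L C x z s c₀ ∧ Ri L C x c₀ u₀ v₀ ∧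
        CN L C x z s t c₀ u₀ v₀

/-- [MJX] the model for the order `J`.  PROOF.  GNC with `K = J`, `T q c = (e q ∈ c.I)` and `Q c`: `Vc c`, `Le c₀ c`,
`c.I ⊆ c₀.I ∪ e '' J`; `Cl t c i` for `i ∈ c.I \ c₀.I`; for `q < q'` in `J` with `e q, e q' ∈ c.I`:
`Far (ps (e q)) (ps (e q'))`; for `e q ∈ c.I`: `Far u₀ (ps (e q))`, `Far (ps (e q)) v₀`; and (rich) for all `u`, `v`
among `u₀`, `v₀` and the `ps (e q)` (`q ∈ J`, `e q ∈ c.I`) with `Far u v` and no `ps (e q)` far between them: `Ri c u v`.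
Adding `b`: VCX.  `T q`: if `e q ∉ c.I` let `u` be the largest of `u₀` and the `ps (e q')`, `q' < q`, `v` the least of
`v₀` and the `ps (e q')`, `q < q'`: `Ri c u v` by (rich), apply `CN`.  (rich) for `c'`: the new index is only in the interval
`(u, v)`.  Result: `M = ⋃ D_j`, `Dd i` = `D_j` for the first `j` with `i ∈ I_j`; `w i`, `r i` from there. -/
def St_MJX : Prop :=
  ∀ (L : FirstOrder.Language.{0, 0}) (U : Type) [L.Structure U] [LinearOrder U], Wm L U →
    ∀ (C : Set U) (m : ℕ) (x : Fin (m + 1) → U) (z : U) (s : Bool), NCx L C x z s →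
      ∀ (t : Bool) (c₀ : Cfg L U) (u₀ v₀ : U), Vc L C x z s c₀ → Ri L C x c₀ u₀ v₀ →
        CN L C x z s t c₀ u₀ v₀ → ∀ e : ℚ → ℕ, Function.Injective e → (∀ q, e q ∉ c₀.I) →
        ∀ J : Set ℚ, ∃ (M : Set U) (w : ℕ → U) (r : ℕ → (U ≃[L] U)) (Dd : ℕ → Set U),
          MJ L C x z s t c₀ e J M w r Dd

/-- [DCA] closed germs in the model `M_J`.  PROOF.  `Λ = c₀.I ∪ e '' J`.
(1) For `i ∈ Λ` and `D ⊇ Dd i` in `M`: `w i ∈ gs (gr (r i)) D` (`Unc`, GER 1, 3), and `Kc M (r i)`: a point of `M` in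
`Orb (Dd i) (w i)` would cut it (not isolated, so `≠ {w i}`).
(2) Let `Kc M ρ`.  `MJ.gp` for the germ `gr ρ`: it is not open; so `i ∈ Λ`, `D`: `Nn D u (w i)` for `u ∈ gs (gr ρ) D`.  SMG
over `D` (`s` and `sg e s`), EQG 4, 5: `gr ρ ~ (Dd i, w i, s) ~ gr (r i)`, or `gr ρ ~ (Dd i, w i, !s)`.  In both cases
`Aq M ρ (r i)`: let `D₁ ⊆ M`; over `D₂ = D₁ ∪ Dd i ∪ ..` the types of `(Dd i, w i, s)`, `(Dd i, w i, !s)` and of `gr (r i)` are
all `Orb D₂ (w i)`, so `Nn D₂ u' (w i)`; NSB 6 down to `D₁` (GER 2, NSB 2).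
(3) `Aq M ρ (r i)` and `Aq M ρ (r j)` imply `i = j` (TRA over a large `D`, `MJ.wo`, NSB 6). -/
def St_DCA : Prop :=
  ∀ (L : FirstOrder.Language.{0, 0}) (U : Type) [L.Structure U] [LinearOrder U], Wm L U →
    ∀ (C : Set U) (m : ℕ) (x : Fin (m + 1) → U) (z : U) (s : Bool), NCx L C x z s →
      ∀ (t : Bool) (c₀ : Cfg L U) (e : ℚ → ℕ) (J : Set ℚ) (M : Set U) (w : ℕ → U)
        (r : ℕ → (U ≃[L] U)) (Dd : ℕ → Set U), MJ L C x z s t c₀ e J M w r Dd →
        (∀ i ∈ c₀.I ∪ e '' J, Kc L C x z s M (r i)) ∧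
        (∀ ρ : U ≃[L] U, Kc L C x z s M ρ → ∃ i ∈ c₀.I ∪ e '' J, Aq L C x z s M ρ (r i) ∧
          (Eqg L (gr L C x z s ρ) (gr L C x z s (r i)) ∨
            Eqg L (gr L C x z s ρ) ((Dd i, w i, !s) : Gm U))) ∧
        (∀ ρ : U ≃[L] U, Kc L C x z s M ρ → ∀ i ∈ c₀.I ∪ e '' J, ∀ j ∈ c₀.I ∪ e '' J,
          Aq L C x z s M ρ (r i) → Aq L C x z s M ρ (r j) → i = j)

/-- [DCJ] decoding.  PROOF.  DCA.  (A) Let `Kc M ρ` and `Aq M ρ (r (e q))`, `q ∈ J`.  By DCA 2, 3 `gr ρ ~ gr (r (e q))` or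
`gr ρ ~ (Dd (e q), w (e q), !s)`.  In the first case `ρ (x 0)`, `r (e q) (x 0)` are not far (KAP (b)); in the second case
`MJ.cl` holds for `ρ`.  So in both cases the conclusion of `MJ.cl` holds.
(B) `Psi (r (e q))`: `Kc`; `Aq M (r (e q)) (c₀.r i)` for `i ∈ c₀.I` is excluded by DCA 3 (`Aq M (r (e q)) (r (e q))`, `r i =
c₀.r i`); the last condition is (A) (by DCA 3 for `ρ'`).
(C) Let `Psi ρ`.  DCA 2: `i` with `Aq M ρ (r i)`; `i ∉ c₀.I`, so `i = e q`.  The last condition of `Psi ρ` for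
`ρ' = r (e q)` (`Aq` is symmetric) and (A) give both inequalities. -/
def St_DCJ : Prop :=
  ∀ (L : FirstOrder.Language.{0, 0}) (U : Type) [L.Structure U] [LinearOrder U], Wm L U →
    ∀ (C : Set U) (m : ℕ) (x : Fin (m + 1) → U) (z : U) (s : Bool), NCx L C x z s →
      ∀ (t : Bool) (c₀ : Cfg L U) (e : ℚ → ℕ) (J : Set ℚ) (M : Set U) (w : ℕ → U)
        (r : ℕ → (U ≃[L] U)) (Dd : ℕ → Set U), MJ L C x z s t c₀ e J M w r Dd →
        Function.Injective e → (∀ q, e q ∉ c₀.I) →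
        (∀ q ∈ J, Psi L C x z s t c₀ M (r (e q))) ∧
        ∀ ρ : U ≃[L] U, Psi L C x z s t c₀ M ρ → ∃ q ∈ J,
          ¬ Far L C (ρ (x 0)) (r (e q) (x 0)) ∧ ¬ Far L C (r (e q) (x 0)) (ρ (x 0))

/-- [LVP] `Psi` is decoded at the level `ω + ω + ω`.  PROOF.  LV0: `σ` for `Γ`; `ρ' = σ ρ` (it fixes `C`).
`Kc M' ρ'`: LV1.  `Aq M' ρ' (c₀.r i)` implies `Aq M ρ (c₀.r i)`: a finite `D ⊆ M` is moved to `D' ⊆ M'` (level `≥ ω`), LV0: `σ'`
for `Γ ∪ {(d,d')}`, `Nn` and `gs` are preserved (NSB 3, GER 5; `c₀.r i (x j)` and `ρ (x j)` are in `D`).  Last condition: let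
`Kc M' ρ₁'`, `Aq M' ρ₁' ρ'`; back for the `m + 1` elements `ρ₁' (x j)`: `y_j ∈ M`, level `ω + ω`; LV0, `ρ₁ = σ₁⁻¹ ρ₁'`, and
`Kc M ρ₁`, `Aq M ρ₁ ρ` as before (with the roles of `M`, `M'` exchanged); `Far` is preserved (FAR 5). -/
def St_LVP : Prop :=
  ∀ (L : FirstOrder.Language.{0, 0}) [∀ n, IsEmpty (L.Functions n)] (U : Type)
    [S : L.Structure U] [LinearOrder U], Wm L U →
    ∀ (C : Set U) (m : ℕ) (x : Fin (m + 1) → U) (z : U) (s : Bool), NCx L C x z s →
      ∀ (t : Bool) (c₀ : Cfg L U) (M M' : Set U) (Γ : Set (U × U)) (γ : Ordinal.{0}),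
        Vc L C x z s c₀ → IsEl L M → IsEl L M' → Γ.Finite → (∀ p ∈ Γ, p.1 ∈ M ∧ p.2 ∈ M') →
        (∀ a ∈ c₀.D, (a, a) ∈ Γ) → Ordinal.omega0 + Ordinal.omega0 + Ordinal.omega0 ≤ γ →
        Pool.Agent.Helper79.VC.BFR S S M M' γ Γ →
        ∀ (ρ : U ≃[L] U) (y : Fin (m + 1) → U), (∀ j, (ρ (x j), y j) ∈ Γ) →
          Psi L C x z s t c₀ M ρ → ∃ ρ' : U ≃[L] U, (∀ j, ρ' (x j) = y j) ∧
            Psi L C x z s t c₀ M' ρ'

/-- [LEJ] the order is decoded.  PROOF.  Induction on `γ` for intervals: let `Γ` contain `(a,a)` (`a ∈ c₀.D`) and, for the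
endpoints `q_1, ..` of the interval of `J` and `q'_1, ..` of `J'`, the pairs `(r (e q_k) (x j), ρ' (x j))` with
`Psi M' ρ'` at `q'_k`.  Given `q ∈ J` in the interval: forth `m + 1` times for `r (e q) (x j)`: `y_j ∈ M'`, LVP: `ρ'` with
`Psi M' ρ'`, DCJ: `q' ∈ J'` at which `ρ'` is.  `Far` is preserved (LV0, FAR 5) and, by FAR 4, does not change if an
element is replaced by one which is not far from it: so `q'` is in the interval of `J'`; the two subintervals
satisfy the induction hypothesis (level `ω*3 + ω*β`, `β < γ`).  `r (e q)` satisfies `Psi M` by DCJ. -/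
def St_LEJ : Prop :=
  ∀ (L : FirstOrder.Language.{0, 0}) [∀ n, IsEmpty (L.Functions n)] (U : Type)
    [S : L.Structure U] [LinearOrder U], Wm L U →
    ∀ (C : Set U) (m : ℕ) (x : Fin (m + 1) → U) (z : U) (s : Bool), NCx L C x z s →
      ∀ (t : Bool) (c₀ : Cfg L U) (e : ℚ → ℕ) (J J' : Set ℚ) (M M' : Set U) (w w' : ℕ → U)
        (r r' : ℕ → (U ≃[L] U)) (Dd Dd' : ℕ → Set U) (γ : Ordinal.{0}), Vc L C x z s c₀ →
        MJ L C x z s t c₀ e J M w r Dd → MJ L C x z s t c₀ e J' M' w' r' Dd' →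
        Function.Injective e → (∀ q, e q ∉ c₀.I) →
        Pool.Agent.Helper79.VC.BFR S S M M'
          (Ordinal.omega0 + Ordinal.omega0 + Ordinal.omega0 + Ordinal.omega0 * γ)
          {p | p.1 = p.2 ∧ p.1 ∈ c₀.D} → HER.LE γ J J'

/-- [NCF] a nonconstant code contradicts `ScU`.  PROOF.  DIC: `t`, `c₀`, `u₀`, `v₀`.  An injection `e : ℚ → ℕ` avoiding the
finite set `c₀.I`.  `HER.St_LOF`: `I f ⊆ ℚ`, `γ`.  MJX for `J = I f`: `X f = M`.  `ScU` with `d` an enumeration of `c₀.D`, the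
level of LEJ (countable): `f ≠ g` with `BFR`; LEJ: `LE γ (I f) (I g)`, so `f = g`. -/
def St_NCF : Prop :=
  ∀ (L : FirstOrder.Language.{0, 0}) [∀ n, IsEmpty (L.Functions n)] (U : Type)
    [S : L.Structure U] [LinearOrder U], Wm L U → ScU L S →
    ∀ (C : Set U) (m : ℕ) (x : Fin (m + 1) → U) (z : U) (s : Bool), ¬ NCx L C x z s

/-- [CRE] the core theorem.  PROOF.  If `AllC k` for all `k`: SCC and FCG.  Otherwise let `k` be least with
`¬ AllC k`.  `k ≠ 0`: for `k = 0` an automorphism over `C` fixes the base `C ∪ ∅` of the germ, EQG 8, 6 (SDI 5).  So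
`k = m + 1` and `NCx` holds for suitable data: contradiction to NCF. -/
def St_CRE : Prop :=
  ∀ (L : FirstOrder.Language.{0, 0}) [∀ n, IsEmpty (L.Functions n)] (U : Type)
    [S : L.Structure U] [LinearOrder U], Wm L U → ScU L S → CtU L U

end Pool.Agent.WOM
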