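import Pool.Agent.WOM.StB
import Pool.Agent.WOM.StC

/-!
WOM: final assembly, frozen statements (helper85), for relational languages, with the scattered
classes of `Pool/Agent/VB`.
-/

set_option autoImplicit false
set_option linter.unusedVariables false

namespace Pool.Agent.WOM

open FirstOrder.Language Set
open scoped FirstOrder

variable (L : FirstOrder.Language.{0, 0})

/-- weakly orthogonal 1-types over finite sets are orthogonal (elementary form, for every
structure): if the type of `c` over `A` is complete over `A, a`, then the type of `c` over `A, d` is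
complete over `A, d, a`. -/
def SNA (M : Type) [L.Structure M] : Prop :=
  ∀ (A : Set M) (a c d : M), A.Finite → CplE L A (insert a A) c →
    CplE L (insert d A) (insert a (insert d A)) c

/-- the models of `T` on `ℕ` -/
def ModK (T : L.Theory) : Set (L.Structure ℕ) :=
  {S | @FirstOrder.Language.Theory.Model L ℕ S T}

variable {L}

/-- [TRS] as TRW of StB (same proof), for `SNA`. -/
def St_TRS : Prop :=
  ∀ (L : FirstOrder.Language.{0, 0}) (T : L.Theory) (lt : L.Formula (Fin 2)),
    (∀ S : L.Structure ℕ, @FirstOrder.Language.Theory.Model L ℕ S T →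
      @WOMin L ℕ S lt ∧ @SNA L ℕ S) →
    ∀ (U : Type) [L.Structure U], Countable U → Infinite U → U ⊨ T → WOMin U lt ∧ SNA L U

/-- [WMX] the standing hypotheses.  PROOF.  The linear order `x ≤ y := x = y ∨ ltR lt x y` (classical
decidability).  `ord`: the formula `lt`.  `fin`: `WOMin.fin`, `Cnv` is `OrdConnected` for this order.
`na`: CPL of StB and `Eqv L A x y ↔ y ∈ Orb L A x` for finite `A` (AUT of StB, ORB 7, 6):
`¬ Nn L A a c ↔ CplE L A (insert a A) c` for finite `A`. -/
def St_WMX : Prop :=
  ∀ (L : FirstOrder.Language.{0, 0}) (U : Type) [L.Structure U] (lt : L.Formula (Fin 2)),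
    Mon L U → WOMin U lt → SNA L U → ∃ _ : LinearOrder U, Wm L U

/-- [SML] scattered theories are small.  PROOF.  `Scat` at the level `ω` for every `n`: countably many
`(ρ m)`; equivalence of level `ω` of the tuples `v`, `w` in models on `ℕ` implies `tp v = tp w`
(`BFR.bf`, `sat_toI`, `sat_of_BF`, or as in LV0). -/
def St_SML : Prop :=
  ∀ (L : FirstOrder.Language.{0, 0}) [∀ n, IsEmpty (L.Functions n)] (T : L.Theory),
    Pool.Agent.Helper79.VC.Scat (ModK L T) → Small L T

/-- [SCU] PROOF.  Every `X f` is countable and infinite (`U` is infinite and `X f` is elementary);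
`u f : ℕ → U` injective with range `X f`; the pulled back structures `S f` (PULL of StB; or `pl`) are
in `ModK T`.  `v f` = the positions of the `d i`.  `Scat` for `γ`, `n`: `f ↦ m f`; since `ℕ → Bool` is uncountable
there are `f ≠ g` with `m f = m g`; `BFR.symm`, `BFR.trans`; transfer to `U` (`BFR_pl'`, `BFR.of_map`). -/
def St_SCU : Prop :=
  ∀ (L : FirstOrder.Language.{0, 0}) [∀ n, IsEmpty (L.Functions n)] (T : L.Theory) (U : Type)
    [S : L.Structure U], Pool.Agent.Helper79.VC.Scat (ModK L T) → Mon L U → U ⊨ T → ScU L S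

/-- [MSB] the models of `T` are a measurable set of codes.  PROOF.  As in the files of
`Pool/Agent/Results/MP_5df2c5_lc` (`measurableSet_realize`/`measurableSet_sat`, countably many
sentences). -/
def St_MSB : Prop :=
  ∀ (L : FirstOrder.Language.{0, 0}) [∀ n, IsEmpty (L.Functions n)]
    [∀ n, Countable (L.Relations n)] (T : L.Theory),
    MeasurableSet {c : Pool.Agent.Helper6.Str.Code L | Pool.Agent.Helper6.Str.toStr c ∈ ModK L T}

/-- THE THEOREM: countably many models or perfectly many models. -/
def St_NAM : Prop :=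
  ∀ (L : FirstOrder.Language.{0, 0}) [∀ n, IsEmpty (L.Functions n)]
    [∀ n, Countable (L.Relations n)] (T : L.Theory) (lt : L.Formula (Fin 2)),
    (∀ S : L.Structure ℕ, @FirstOrder.Language.Theory.Model L ℕ S T →
      @WOMin L ℕ S lt ∧ @SNA L ℕ S) →
    Pool.Agent.Helper6.Str.CtblK (ModK L T) ∨ Pool.Agent.Helper6.Str.PerfK (ModK L T)

/-- [FAS] assembly.  PROOF.  If `¬ PerfK` then `Scat` (MSB, `scat_of_not_perf`), `Small L T` (SML).  For every
model `S` of `T` on `ℕ`: ULT, SUBM (`Small L (ThS L S)` from `Small L T`), HOMG: `U` with `Mon L U`, `U ⊨ ThS L S`, so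
`U ⊨ T`; TRS, WMX, SCU, CRE: `CtU L U`; TRC: `CtT L (ThS L S)`.  The theories `ThS L S` are countably many
(`Small`, `n = 0`): union of the lists; isomorphisms as in INC. -/
def St_FAS : Prop :=
  St_ULT → St_SUBM → St_HOMG → St_TRC → St_TRS → St_WMX → St_SML → St_SCU → St_MSB → St_CRE →
    St_NAM

end Pool.Agent.WOM
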