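import Pool.Agent.WOM.StS4
import Pool.Agent.WOM.StD

/-!
WOM (helper41): LEMMA T.  Statements with proofs in the docstrings.

Situation (`TC`): `P`, `Q`, `R` sets of elements, all pairs in `P × Q` (`P × R`, `Q × R`) have the same type
over the finite set `A`; `P` is complete over `A, y` (`y ∈ Q`) but not over `A, y, c` (`c ∈ R`), and the same
with the roles exchanged.  Claim: this is impossible in a scattered theory.
(Example: `x = y - c` in a group; there are shifts `x ↦ x + d`.)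
`yA` = `insert y A`, `cyA` = `insert c (insert y A)` etc.  For `x ∈ P`, `y ∈ Q`, `c ∈ R`: `Ge L (yA) x t (cyA)` is the first
(`t = false`) or last (`t = true`) orbit over `cyA` in `P`; `Ge L (xA) y t B` = first or last orbit over `B ⊇ xA`
in `Q`; `Ge L A c t B` = first or last orbit over `B ⊇ A` in `R`.  By nGER 4 `Ge L A x t B` depends only on
`Orb L A x`.  `sg s true = s`, `sg s false = !s`, `!(sg s t) = sg (!s) t = sg s (!t)`.
-/

set_option autoImplicit false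
set_option linter.unusedVariables false

namespace Pool.Agent.WOM

open FirstOrder.Language Set
open scoped FirstOrder

section defs

variable (L : FirstOrder.Language.{0, 0}) {U : Type} [L.Structure U]

/-- the configuration of Lemma T -/
structure TC (A P Q R : Set U) : Prop where
  fin : A.Finite
  ne : P.Nonempty ∧ Q.Nonempty ∧ R.Nonempty
  pq : ∀ y ∈ Q, ∀ x ∈ P, Orb L (insert y A) x = P
  qp : ∀ x ∈ P, ∀ y ∈ Q, Orb L (insert x A) y = Q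
  rr : ∀ c ∈ R, Orb L A c = R
  rp : ∀ x ∈ P, ∀ c ∈ R, Orb L (insert x A) c = R
  rq : ∀ y ∈ Q, ∀ c ∈ R, Orb L (insert y A) c = R
  nn : ∃ x ∈ P, ∃ y ∈ Q, ∃ c ∈ R, Orb L (insert c (insert y A)) x ≠ P

variable [LinearOrder U]

/-- orientation of `R` and `P` -/
def TA (A P Q R : Set U) (s : Bool) : Prop :=
  ∀ x ∈ P, ∀ y ∈ Q, ∀ c ∈ R, ∀ t : Bool, c ∈ Ge L A c (sg s t) (insert x (insert y A)) ↔
    x ∈ Ge L (insert y A) x t (insert c (insert y A))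

/-- orientation of `Q` and `P` -/
def TB (A P Q R : Set U) (τ : Bool) : Prop :=
  ∀ x ∈ P, ∀ y ∈ Q, ∀ c ∈ R, ∀ t : Bool, y ∈ Ge L (insert x A) y (sg τ t) (insert c (insert x A)) ↔
    x ∈ Ge L (insert y A) x t (insert c (insert y A))

/-- some `c` puts `x₁` in the first and `x₂` in the last orbit of `P` over `c, y, A` -/
def TZ (A R : Set U) (y x₁ x₂ : U) : Prop :=
  ∃ c ∈ R, x₁ ∈ Ge L (insert y A) x₁ false (insert c (insert y A)) ∧
    x₂ ∈ Ge L (insert y A) x₁ true (insert c (insert y A))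

/-- direction -/
def TD (A P Q R : Set U) (t : Bool) : Prop :=
  ∀ x₁ ∈ P, ∀ x₂ ∈ P, Sd true (Orb L (insert x₁ A) x₂) P → ∀ y ∈ Q,
    y ∈ Ge L (insert x₁ A) y t (insert x₂ (insert x₁ A)) → TZ L A R y x₁ x₂

/-- direction, mirror form -/
def TD' (A P Q R : Set U) (t : Bool) : Prop :=
  ∀ x₁ ∈ P, ∀ x₂ ∈ P, Sd false (Orb L (insert x₂ A) x₁) P → ∀ y ∈ Q,
    y ∈ Ge L (insert x₁ A) y t (insert x₂ (insert x₁ A)) → TZ L A R y x₁ x₂

end defs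

/-- [SEP] separation of far pairs.  PROOF.  `p = Orb L B x ≠ {x}`.  Take `x_a ∈ Ge L B x false (insert c B)` and
`x_b ∈ Ge L B x true (insert c (insert x_a B))` (nGEX).  nGER 2: `x_b ∈ Ge L B x true (insert c B)` and
`x_b ∈ Ge L B x true (insert x_a B)`, so `Far L B x_a x_b` (nGER 4).  nFAR 7: `σ` over `B` with `σ x_a = x₁`, `σ x_b = x₂`; `c' = σ c`
(nGER 5, 4). -/
def St_SEP : Prop :=
  ∀ (L : FirstOrder.Language.{0, 0}) (U : Type) [L.Structure U] [LinearOrder U], Wn L U →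
    ∀ (B : Set U) (x c : U), B.Finite → Orb L B x ≠ {x} → ∀ x₁ ∈ Orb L B x, ∀ x₂, Far L B x₁ x₂ →
      ∃ c' ∈ Orb L B c, x₁ ∈ Ge L B x false (insert c' B) ∧ x₂ ∈ Ge L B x true (insert c' B)

/-- [STA] homogeneity.  PROOF.  First: (#) if `σ` fixes `A`, `x ∈ P`, `σ x ∈ P`, `y ∈ Q` then `σ y ∈ Q`.  By `pq`, `qp` all pairs in `P × Q`
are conjugate over `A` (`σ₁` over `yA` with `σ₁ x = x'`, `σ₂` over `x'A` with `σ₂ y = y'`), so some `ρ` over `A` maps `(x, y)` to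
`(σ x, y)`; `σ ρ⁻¹` fixes `σ x` and maps `y` to `σ y`, so `σ y ∈ Orb (σ x, A) y = Q`.  Then `σ '' Q = Orb (σ x, A) (σ y) = Q`, `σ '' P =
Orb (σ y, A) (σ x) = P`; `σ '' R = R`.  The same if `y, σ y ∈ Q` for one `y`.  This is 1.  2: shown above.  3: `(x, c)`: `σ₁` over `yA` (any
`y ∈ Q`) with `σ₁ x = x'`; `σ₂` over `x'A` with `σ₂ (σ₁ c) = c'` (`rp`).  4: the same with `rq`.  5: let `nn` hold for `(x₀, y₀, c₀)`.  By 4
and 1 `Orb (c, y, A) x' ≠ P` for all `y`, `c` and one `x' ∈ P`, hence for all `x ∈ P` (if `Orb (cyA) x = P ∋ x'` then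
`Orb (cyA) x' = P`).  So `Nn (yA) c x`.  6: suppose `Orb (c, x, A) y = Q = Orb (xA) y`; NSB 1 (`¬ Nn (xA) y c`): `Orb (y, x, A) c = R = Orb (yA) c`, so
`¬ Nn (yA) x c`, contradiction to 5 by NSB 1.  7: nCNV; `P ≠ {x}` etc. by 5, 6 and NSB 5. -/
def St_STA : Prop :=
  ∀ (L : FirstOrder.Language.{0, 0}) (U : Type) [L.Structure U] [LinearOrder U], Wn L U →
    ∀ A P Q R : Set U, TC L A P Q R →
      (∀ σ : U ≃[L] U, Fx L A σ → ((∃ x ∈ P, σ x ∈ P) ∨ ∃ y ∈ Q, σ y ∈ Q) →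
        σ '' P = P ∧ σ '' Q = Q ∧ σ '' R = R) ∧
      (∀ x ∈ P, ∀ y ∈ Q, ∀ x' ∈ P, ∀ y' ∈ Q, ∃ σ : U ≃[L] U, Fx L A σ ∧ σ x = x' ∧ σ y = y') ∧
      (∀ x ∈ P, ∀ c ∈ R, ∀ x' ∈ P, ∀ c' ∈ R, ∃ σ : U ≃[L] U, Fx L A σ ∧ σ x = x' ∧ σ c = c') ∧
      (∀ y ∈ Q, ∀ c ∈ R, ∀ y' ∈ Q, ∀ c' ∈ R, ∃ σ : U ≃[L] U, Fx L A σ ∧ σ y = y' ∧ σ c = c') ∧
      (∀ x ∈ P, ∀ y ∈ Q, ∀ c ∈ R, Orb L (insert c (insert y A)) x ≠ P ∧ Nn L (insert y A) c x) ∧
      (∀ x ∈ P, ∀ y ∈ Q, ∀ c ∈ R, Orb L (insert c (insert x A)) y ≠ Q ∧ Nn L (insert x A) c y) ∧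
      (P.OrdConnected ∧ Q.OrdConnected ∧ R.OrdConnected ∧ (∀ x ∈ P, P ≠ {x}) ∧
        (∀ y ∈ Q, Q ≠ {y}) ∧ ∀ c ∈ R, R ≠ {c})

/-- [STO] orientations.  PROOF.  `TA`: base `B = yA`; STA 5, nSMA: `f` with `Ori L B c x f`, `Ori L B x c f`.  `Ge L A c t' (xyA) =
Ge L B c t' (insert x B)` (nGER 3, `rq`).  So `c ∈ Ge .. c t' ..` implies `x ∈ Ge L B x (!(sg f t')) (insert c B)` and conversely `x ∈ Ge .. x t ..`
implies `c ∈ Ge .. c (!(sg f t)) ..`.  With `s = !f`: `sg s t = !(sg f t)`, the claim for this `y`, `c` and all `x ∈ P` (nGER 4); for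
other `y`, `c`: conjugation (STA 4, 1, nGER 5).  `TB`: base `B' = xA`; STA 6, nSMA: `e` (independent of `x`, `y`, `c` by conjugation):
`y ∈ Ge L B' y t' (insert c B') ↔ c ∈ Ge L B' c (!(sg e t')) (insert y B')`, and `Ge L B' c t'' (insert y B') = Ge L A c t'' (yxA)`; by `TA`
this is `↔ x ∈ Ge L (yA) x t (cyA)` for `sg s t = !(sg e t')`.  So `τ = !(sg e s)` (check the cases). -/
def St_STO : Prop :=
  ∀ (L : FirstOrder.Language.{0, 0}) (U : Type) [L.Structure U] [LinearOrder U], Wn L U →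
    ∀ A P Q R : Set U, TC L A P Q R → ∃ s τ : Bool, TA L A P Q R s ∧ TB L A P Q R τ

/-- [STD] direction.  PROOF.  (i) For `y ∈ Q`, `x₁ ∈ P`, `x₂ ∈ Ge L (yA) x₁ true (x₁yA)`: `TZ` by SEP for the base `yA` (`rq`).  (ii) Let
`x₁, x₂ ∈ P`, `Sd true (Orb L (x₁A) x₂) P`.  `P' = Orb L (x₁A) x₂ ⊆ P` (STA 1), a final part of `P` (convex).  If `¬ Nn (x₁A) x₂ y` for
`y ∈ Q`: `Orb (y, x₁, A) x₂ = P'`, so `x₂ ∈ Ge L (yA) x₁ true (x₁yA)` (unbounded in `P`) and (i): `t = true` (any `t`) for all `y ∈ Q`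
(NSB 2, `qp`).  Otherwise nSMA over `x₁A`: `Ori L (x₁A) y x₂ ε`; let `t` be such that `!(sg ε t) = true`.  `y ∈ Ge L (x₁A) y t (x₂x₁A)` implies
`x₂ ∈ Ge L (x₁A) x₂ true (y, x₁, A)`: `Orb (y, x₁, A) x₂` is unbounded in `P'`, so in `P`: (i) again.  (iii) `t` is the same for all such
pairs: they are conjugate over `A`: `σ x₁ = x₁'` (STA 2, 1), then `σ x₂` and `x₂'` are both in the last orbit over `x₁'A` in `P`.
(iv) `TD'` with the same `t`: `Sd false (Orb L (x₂A) x₁) P` implies `Sd true (Orb L (x₁A) x₂) P` (as FFR: let `x₂ = s₀`; `P_l(s₀)` = first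
orbit over `s₀A` in `P`; take `s₁ ∈ P_l(s₀)` and `w ∈ P`, `w < s₁`, such that `s₁` is in the last orbit over `wA` (conjugate a pair `(w', s₁')`
with `s₁'` in the last orbit over `w'A`, STA 2, and `w' < s₁'`); then `w ∈ P_l(s₀)` (initial part), `s₀` is in the last orbit over `wA`
(final part, `s₁ < s₀`); all pairs `(w, s₀)`, `w ∈ P_l(s₀)`, are conjugate over `s₀A`). -/
def St_STD : Prop :=
  ∀ (L : FirstOrder.Language.{0, 0}) (U : Type) [L.Structure U] [LinearOrder U], Wn L U →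
    ∀ A P Q R : Set U, TC L A P Q R → ∃ t : Bool, TD L A P Q R t ∧ TD' L A P Q R t

/-- [STF] a monotone definable function.  PROOF.  Fix `y ∈ Q`, `c ∈ R`, `B = cyA`.  By STA 5 there are `x₁ < x₂` in `P` in different
orbits over `B`; SCUT: `K₀` `B`-definable, `Low`, `x₁ ∈ K₀`, `x₂ ∉ K₀`.  SFX 4: `K : U → U → Set U` `A`-definable, `K y c = K₀`.  By
conjugation (STA 4, 1, SFX 2) for all `y ∈ Q`, `c ∈ R`: `K y c` is `Low`, meets `P`, does not contain `P`.  (E) if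
`x ∈ Ge L (yA) x true (cyA)` then `x ∉ K y c`; if `x ∈ Ge L (yA) x false (cyA)` then `x ∈ K y c` (ORB 6).  Let
`Φ y c = {t | ∃ c' ∈ R, leS s c c' ∧ t ∈ K y c'}`.  `Φ (σ y) (σ c) = σ '' Φ y c` for `σ` over `A`; `K y c ⊆ Φ y c`; `leS s c c'` implies
`Φ y c' ⊆ Φ y c`.  Not `P ⊆ Φ y c`: take `x ∈ Ge L (yA) x true (cyA)`; by `TA` (`sg s true = s`) `c ∈ Ge L A c s (xyA)`; if `c' ∈ R`, `leS s c c'`
then `c' ∈ Ge L A c s (xyA)` (nGER 7), by `TA` `x ∈ Ge L (yA) x true (c'yA)`, `x ∉ K y c'` by (E).  Definability of `Φ y c`: take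
`c₁ ∈ Ge L (yA) c s (cyA)`.  Then `Φ y c = {t | ∃ c', leS s c c' ∧ leS s c' c₁ ∧ t ∈ K y c'}`: `⊇`: `R` is convex.  `⊆`: if `c' ∈ R` is beyond `c₁`
(`leS s c₁ c'`) then `c' ∈ Ge L (yA) c s (cyA)`, so (SEP for the base `yA`, the orbit `R` and `x`; for `s = false` with the pair
`(c', c)`, nFFR) there is `x ∈ P` with `c ∈ Ge L (yA) c (!s) (xyA)`, `c' ∈ Ge L (yA) c s (xyA)`; by `TA` and (E) `x ∈ K y c`, `x ∉ K y c'`, so
`K y c' ⊆ K y c`.  So `Φ y c` is definable over `A, y, c, c₁`; SFX 5 gives `F` (for all `y ∈ Q`, `c ∈ R` by STA 4). -/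
def St_STF : Prop :=
  ∀ (L : FirstOrder.Language.{0, 0}) (U : Type) [L.Structure U] [LinearOrder U], Wn L U →
    ∀ (A P Q R : Set U) (s : Bool), TC L A P Q R → TA L A P Q R s →
      ∃ F : U → U → Set U, A.Definable L {w : Fin 3 → U | w 2 ∈ F (w 0) (w 1)} ∧
        ∀ y ∈ Q, ∀ c ∈ R, Low (F y c) ∧ (∃ x ∈ P, x ∈ F y c) ∧ (∃ x ∈ P, x ∉ F y c) ∧
          ∀ c' ∈ R, leS s c c' → F y c' ⊆ F y c

/-- [STG] the configuration.  PROOF.  `y ∈ Q`, `x₀ ∈ P`, `x₁ ∈ Ge L (yA) x₀ true (x₀yA)`, `x₂ ∈ Ge L (yA) x₀ true (x₁yA)`, `x₃ ∈ Ge L (yA) x₀ true (x₂yA)`: so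
`Far L (yA) x₀ x₁` etc.  SEP for the base `yA`: `c₁`: `x₂`, `x₃` in the first / last orbit over `c₁yA`; `c₂`: `x₀`, `x₁` in the first / last orbit
over `c₂yA`.  `B* = A ∪ {y, x₀, x₁, x₂, x₃, c₁, c₂}`, `y₀ ∈ Ge L (x₀A) y τ B*` (nGEX; `y₀ ∈ Q`).  By `TB` (`t = true`, nGER 2)
`x₀ ∈ Ge L (y₀A) x₀ true (c₁y₀A)`.  `x₂ ∈ Ge L (yA) x₁ true (x₁yA)` implies `Sd true (Orb L (x₁A) x₂) P`; `Ge L (x₀A) y τ B* = Ge L (x₁A) y τ B*` (both
orbits are `Q`); `TD`: `TZ y₀ x₁ x₂`: `c₀`.  Last condition: `σ y`-invariance: `Orb L (yA) y₀ ⊆ Q` (STA 1), so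
`y₀ ∈ Ge L (yA) y₀ τ (c₁yA)`.  If `¬ Nn (yA) y₀ c₁`: `Orb (y₀, y, A) c₁ = R`, any `t`.  Otherwise nSMA: `Ori L (yA) y₀ c₁ ε`:
`c₁ ∈ Ge L (yA) c₁ (!(sg ε τ)) (y₀yA)`, and `Ge L (yA) c₁ t B = Ge L A c₁ t B` (nGER 3, `rq`). -/
def St_STG : Prop :=
  ∀ (L : FirstOrder.Language.{0, 0}) (U : Type) [L.Structure U] [LinearOrder U], Wn L U →
    ∀ (A P Q R : Set U) (τ : Bool), TC L A P Q R → TB L A P Q R τ → TD L A P Q R τ →
      ∃ y ∈ Q, ∃ y₀ ∈ Q, ∃ x₀ ∈ P, ∃ x₁ ∈ P, ∃ x₂ ∈ P, ∃ c₀ ∈ R, ∃ c₁ ∈ R, ∃ c₂ ∈ R,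
        x₁ < x₂ ∧
        (x₁ ∈ Ge L (insert y₀ A) x₁ false (insert c₀ (insert y₀ A)) ∧
          x₂ ∈ Ge L (insert y₀ A) x₁ true (insert c₀ (insert y₀ A))) ∧
        x₀ ∈ Ge L (insert y₀ A) x₀ true (insert c₁ (insert y₀ A)) ∧
        x₂ ∈ Ge L (insert y A) x₂ false (insert c₁ (insert y A)) ∧
        (x₀ ∈ Ge L (insert y A) x₀ false (insert c₂ (insert y A)) ∧
          x₁ ∈ Ge L (insert y A) x₁ true (insert c₂ (insert y A))) ∧
        ∃ t : Bool, c₁ ∈ Ge L A c₁ t (insert y₀ (insert y A))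

/-- [STH] the contradiction.  PROOF.  The configuration of STG and `F` of STF.  (E) elements of `P` in the last (first) orbit
over `cyA` are not in (in) `F y c` (ORB 6, `F y c` is `cyA`-definable, `Low`, meets / does not contain `P`).  So
(A) `F y₀ c₀ ⊆ F y c₁` (`x₂`), (B) `F y₀ c₁ ⊆ F y c₂` (`x₀`), (C) `¬ F y₀ c₀ ⊆ F y c₂` (`x₁`), (D) `¬ F y c₁ ⊆ F y c₂` (`x₂ ∈ F y c₁`, `x₁ ∉ F y c₂`).
`D' = insert y₀ (insert y A)`; `q c = {u | leS s u c ∨ ∀ c', leS s c c' → leS s c' u → F y₀ c ⊆ F y c'}`: `D'`-definable, `LowS s`,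
`c ∈ q c`.  (1) for `c, u ∈ R`, `leS s c u`, `u ≠ c`: `u ∈ q c ↔ F y₀ c ⊆ F y u` (`R` convex, monotony of `F`).  (2) for `c ∈ R` there is
`c' ∈ R`, `leS s c c'`, `c' ∉ q c`: take `x ∈ P`, `x ∈ F y₀ c`, and `c' ∈ Ge L A c s (c, x, y, A)`; `c'` is strictly beyond `c` (nFAR 6, 1; for
`s = false` nFFR), by `TA` `x ∈ Ge L (yA) x true (c'yA)`, so `x ∉ F y c'`.  (3) for `c' ∈ R` there is `c ∈ R`, `leS s c c'`, `c' ∉ q c`: take
`x ∈ P`, `x ∉ F y c'`, `c ∈ Ge L A c' (!s) (c', x, y₀, A)`; by `TA` `x ∈ F y₀ c`.  (4) `R' = Ge L A c₁ t D' = Orb L D' c₁` (nGEX) for the `t` of STG.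
`q` is bounded on `R'`: `t = s`: by (2), `c' ∈ R'` by nGER 7.  `t = !s`: take any element `c'` of `R'` and `c` as in (3), `c ∈ R'` by nGER 7; so
`c' ∉ q c`; conjugation over `D'` for all elements of `R'`.  In particular `R' ≠ {c₁}`.  (5) `leS s c₀ c₁`, `c₀ ≠ c₁`: otherwise
`F y₀ c₀ ⊆ F y₀ c₁ ⊆ F y c₂`, contradiction to (C).  `leS s c₁ c₂`, `c₁ ≠ c₂`: otherwise `F y c₁ ⊆ F y c₂`, contradiction to (D).  So by (1)
`c₁ ∈ q c₀`, `c₂ ∈ q c₁`, `c₂ ∉ q c₀`.  (6) `c₀ ∈ R'`: `t = !s`: nGER 7.  `t = s`: suppose not; then `c₀` is before all elements of `R'`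
(nGER 7); take `c₊ ∈ Ge L D' c₁ (!s) (insert c₁ D')` (in `R'`): `c₁` is far from `c₊` on the side `s` over `D'`, so `c₁ ∉ q c₊` (as
SEB 1: `c₁ ∈ Ge L D' c₊ s (insert c₊ D')` by nFFR, so its orbit over `c₊D'` is unbounded in `R'` on the side `s`).  But
`F y₀ c₊ ⊆ F y₀ c₀ ⊆ F y c₁` and (1): contradiction.  (7) SEZ (EQ for the side `s`, the type `R'` over `D'`): `q c₁ = q c₀`: contradiction to (5). -/
def St_STH : Prop :=
  ∀ (L : FirstOrder.Language.{0, 0}) [∀ n, IsEmpty (L.Functions n)] (U : Type)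
    [S : L.Structure U] [LinearOrder U], Wn L U → ScU L S →
    ∀ (A P Q R : Set U) (s τ : Bool), TC L A P Q R → TA L A P Q R s → TB L A P Q R τ →
      ¬ TD L A P Q R τ

/-- [STT] LEMMA T.  PROOF.  STO: `s`, `τ`; STD: `t`.  If `t = τ`: STH.  Otherwise `t = !τ`; pass to the reversed order `dO U` (SDL; `TC`,
`ScU` do not depend on the order): `TA`, `TB` hold with the same `s`, `τ` (replace `t` by `!t`, `sg s (!t) = !(sg s t)`), and `TD L A P Q R τ`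
for the reversed order is `TD' L A P Q R (!τ)` (exchange `x₁` and `x₂`; `insert x₁ (insert x₂ A) = insert x₂ (insert x₁ A)`,
`Ge L (x₁A) y t B = Ge L (x₂A) y t B` for `B ⊇ x₁x₂A` by `qp`; in `TZ` the set `Ge L (yA) x₁ t B` is `Ge L (yA) x₂ t B` by `pq`).  STH for the reversed
order. -/
def St_STT : Prop :=
  ∀ (L : FirstOrder.Language.{0, 0}) [∀ n, IsEmpty (L.Functions n)] (U : Type)
    [S : L.Structure U] [LinearOrder U], Wn L U → ScU L S →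
    ∀ A P Q R : Set U, ¬ TC L A P Q R

/-- [STN] without adic types weak orthogonality persists.  PROOF.  Suppose `¬ Nn A a c`, `Nn (dA) a c`.  By nTRA and NSB 1 not both
`Nn A d a` and `Nn A d c`; the situation is symmetric in `a`, `c` (NSB 1), so let `¬ Nn A d c`.  `P = Orb (dA) a`, `Q = Orb (aA) d`,
`R = Orb A c`.  `TC L A P Q R`: `rr`: ORB 2.  `rp`: `x ∈ P ⊆ Orb A a`, `c' ∈ R`: `¬ Nn A x c'` (NSB 2).  `rq`: the same for `d`.  `nn`: `Nn (dA) c a`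
(NSB 1): `Orb (c, d, A) a ≠ P`.  `pq`, `qp`: if `¬ Nn A a d` then `P = Orb A a`, `Q = Orb A d` and NSB 2, 1.  If `Nn A a d`: let `x ∈ P`; claim:
`Orb (xA) d = Q`.  By the hypothesis (`x ∈ Orb A a`, `¬ Nn A a c`) `Orb (x, a, A) c = R = Orb (aA) c`, so `¬ Nn (aA) x c`.  `Nn (aA) d c`: `Orb (d, a, A) c ≠
Orb (dA) c = R = Orb (aA) c` (as `Nn (dA) a c`).  So `¬ Nn (aA) x d` (nTRA over `aA`): `Orb (x, a, A) d = Orb (aA) d = Q`.  The pair `(x, d)` is conjugate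
to `(a, d)` over `A`, so with `a`, `x` exchanged: `Orb (a, x, A) d = Orb (xA) d`.  So `Orb (xA) d = Q`, and `Orb (xA) y = Q` for all `y ∈ Q` (ORB 2):
`qp`.  `pq` in the same way (exchange the roles of `a` and `d`: `¬ Nn A d c`, `Nn (aA) d c`).  STT. -/
def St_STN : Prop :=
  ∀ (L : FirstOrder.Language.{0, 0}) [∀ n, IsEmpty (L.Functions n)] (U : Type)
    [S : L.Structure U] [LinearOrder U], Wn L U → ScU L S →
    (∀ (A : Set U) (a a' c : U), A.Finite → a' ∈ Orb L A a → ¬ Nn L A a c →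
      Orb L (insert a' (insert a A)) c = Orb L A c) →
    ∀ (A : Set U) (a c d : U), A.Finite → ¬ Nn L A a c → ¬ Nn L (insert d A) a c

/-! ### Assembly -/

/-- [SWM] PROOF.  As WMX of StD: the linear order, `Wn L U`.  The hypothesis of STN from `NoAdic` (CPL of StB and `Eqv L A x y ↔ y ∈ Orb L A x`
for finite `A`: AUT of StB, ORB 7, 6).  STN: `na`. -/
def St_SWM : Prop :=
  ∀ (L : FirstOrder.Language.{0, 0}) [∀ n, IsEmpty (L.Functions n)] (U : Type)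
    [S : L.Structure U] (lt : L.Formula (Fin 2)), Mon L U → WOMin U lt → NoAdic L U → ScU L S →
    ∃ _ : LinearOrder U, Wm L U

/-- THE THEOREM: Vaught's conjecture for weakly o-minimal theories without adic types. -/
def St_NAD : Prop :=
  ∀ (L : FirstOrder.Language.{0, 0}) [∀ n, IsEmpty (L.Functions n)]
    [∀ n, Countable (L.Relations n)] (T : L.Theory) (lt : L.Formula (Fin 2)),
    (∀ S : L.Structure ℕ, @FirstOrder.Language.Theory.Model L ℕ S T →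
      @WOMin L ℕ S lt ∧ @NoAdic L ℕ S) →
    Pool.Agent.Helper6.Str.CtblK (ModK L T) ∨ Pool.Agent.Helper6.Str.PerfK (ModK L T)

end Pool.Agent.WOM
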