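import Mathlib
import Pool.Agent.WOM.StS5

/-! WOM: [STT] Lemma T (helper27) -/

set_option autoImplicit false
set_option linter.unusedVariables false

namespace Pool.Agent.WOM

open FirstOrder.Language Set
open scoped FirstOrder

theorem STT_sg (s t : Bool) : (!(sg s t)) = sg s (!t) := by
  cases s <;> cases t <;> rfl

/-- [STT] -/
theorem thm_STT (hSTO : St_STO) (hSTD : St_STD) (hSTH : St_STH) (hSDL : St_SDL) : St_STT := by
  intro L _ U S _ hW hS A P Q R hTC
  obtain ⟨s, τ, hTA, hTB⟩ := hSTO L U hW A P Q R hTC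
  obtain ⟨t, hTD, hTD'⟩ := hSTD L U hW A P Q R hTC
  by_cases h : t = τ
  · subst h
    exact hSTH L U hW hS A P Q R s t hTC hTA hTB hTD
  · have ht : t = !τ := by
      cases t <;> cases τ <;> simp_all
    subst ht
    obtain ⟨h1, h2, h3, h4, h5⟩ := hSDL L U hW
    have k1 : @TA L U S (dO U) A P Q R s := by
      intro x hx y hy c hc t'
      rw [h4, h4, STT_sg]
      exact hTA x hx y hy c hc (!t')
    have k2 : @TB L U S (dO U) A P Q R τ := by
      intro x hx y hy c hc t'
      rw [h4, h4, STT_sg]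
      exact hTB x hx y hy c hc (!t')
    have k3 : @TD L U S (dO U) A P Q R τ := by
      intro x₁ hx₁ x₂ hx₂ hsd y hy hyG
      rw [h3] at hsd
      rw [h4] at hyG
      have e1 : Orb L (insert x₁ A) y = Q := hTC.qp x₁ hx₁ y hy
      have e2 : Orb L (insert x₂ A) y = Q := hTC.qp x₂ hx₂ y hy
      have e3 : y ∈ Ge L (insert x₂ A) y (!τ) (insert x₁ (insert x₂ A)) := by
        obtain ⟨g1, g2⟩ := hyG
        rw [e1] at g1 g2
        refine ⟨?_, ?_⟩
        · rw [e2]
          exact g1
        · rw [e2, Set.insert_comm]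
          exact g2
      obtain ⟨c, hc, g1, g2⟩ := hTD' x₂ hx₂ x₁ hx₁ hsd y hy e3
      have e4 : Orb L (insert y A) x₁ = P := hTC.pq y hy x₁ hx₁
      have e5 : Orb L (insert y A) x₂ = P := hTC.pq y hy x₂ hx₂
      refine ⟨c, hc, ?_, ?_⟩
      · rw [h4]
        obtain ⟨g3, g4⟩ := g2
        refine ⟨?_, ?_⟩
        · rw [e4, ← e5]
          exact g3
        · rw [e4, ← e5]
          exact g4
      · rw [h4]
        obtain ⟨g3, g4⟩ := g1
        refine ⟨?_, ?_⟩
        · rw [e4, ← e5]
          exact g3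
        · rw [e4, ← e5]
          exact g4
    exact @hSTH L _ U S (dO U) h1 hS A P Q R s τ hTC k1 k2 k3

end Pool.Agent.WOM
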