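import Pool.Agent.WOM.StN

/-!
WOM [TRA] transitivity of nonorthogonality (helper9).
-/

set_option autoImplicit false
set_option linter.unusedVariables false

namespace Pool.Agent.WOM

open FirstOrder.Language Set
open scoped FirstOrder

theorem thm_nTRA (hORB : St_ORB) (hNSB : St_NSB) (hGEX : St_nGEX) (hGER : St_nGER) :
    St_nTRA := by
  intro L U _ _ hW A x y z hA hxy hyz
  obtain ⟨o1, o2, o3, o4, o5, o6, o7, o8, o9⟩ := hORB L U hW.mon
  obtain ⟨n1, n2, n3, n4, n5, n6⟩ := hNSB L U
  obtain ⟨g1, g2, g3, g4, g5, g6, g7, g8⟩ := hGER L U hW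
  by_contra hxz
  have hzy : Nn L A z y := n1 A y z hyz
  have hfin : ∀ w : U, (insert w A).Finite := fun w => hA.insert w
  have hsub : ∀ w : U, A ⊆ insert w A := fun w => subset_insert w A
  -- `K w` is not the whole orbit
  have key : ∀ w, Nn L A w y → ∃ y0 ∈ Orb L A y, y0 ∉ Ge L A y false (insert w A) := by
    intro w hw
    by_contra hcon
    push Not at hcon
    obtain ⟨u, hu⟩ := (hGEX L U hW A (insert w A) y true (hsub w) (hfin w)).1
    exact hw (g8 A (insert w A) y u (hsub w) (hfin w) hu (hcon u hu.1))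
  have kne : ∀ w, (Ge L A y false (insert w A)).Nonempty := fun w =>
    (hGEX L U hW A (insert w A) y false (hsub w) (hfin w)).1
  -- conjugation
  have img : ∀ τ : U ≃[L] U, Fx L A τ → ∀ w,
      Ge L A y false (insert (τ w) A) = τ '' Ge L A y false (insert w A) := by
    intro τ hτ w
    have hAA : τ '' A = A := by
      ext a
      constructor
      · rintro ⟨b, hb, rfl⟩
        rw [hτ b hb]
        exact hb
      · intro ha
        exact ⟨a, ha, hτ a ha⟩
    rw [← g5 τ A (insert w A) y false, image_insert_eq, hAA,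
      g4 A (insert (τ w) A) y (τ y) false ⟨τ, hτ, rfl⟩]
  have hxz' : Orb L (insert x A) z = Orb L A z := not_not.1 hxz
  have tau : ∀ σ : U ≃[L] U, Fx L A σ → ∃ τ : U ≃[L] U, Fx L (insert x A) τ ∧ τ z = σ z := by
    intro σ hσ
    have h1 : σ z ∈ Orb L (insert x A) z := by
      rw [hxz']
      exact ⟨σ, hσ, rfl⟩
    exact h1
  have conj : ∀ y1 ∈ Orb L A y, ∀ y0 ∈ Orb L A y, ∃ σ : U ≃[L] U, Fx L A σ ∧ σ y1 = y0 := by
    intro y1 h1 y0 h0
    rw [← o2 A y y1 h1] at h0
    exact h0
  have ktau : ∀ τ : U ≃[L] U, Fx L (insert x A) τ →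
      τ '' Ge L A y false (insert x A) = Ge L A y false (insert x A) := by
    intro τ hτ
    rw [← img τ (fun a ha => hτ a (mem_insert_of_mem x ha)) x, hτ x (mem_insert x A)]
  by_cases hc : Ge L A y false (insert z A) ⊆ Ge L A y false (insert x A)
  · obtain ⟨y0, h0, h0'⟩ := key x hxy
    obtain ⟨y1, h1⟩ := kne z
    obtain ⟨σ, hσ, hs⟩ := conj y1 h1.1 y0 h0
    obtain ⟨τ, hτ, ht⟩ := tau σ hσ
    apply h0'
    have hy0 : y0 ∈ Ge L A y false (insert (σ z) A) := by
      rw [img σ hσ z]
      exact ⟨y1, h1, hs⟩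
    rw [← ht, img τ (fun a ha => hτ a (mem_insert_of_mem x ha)) z] at hy0
    rw [← ktau τ hτ]
    exact image_mono hc hy0
  · have hc' : Ge L A y false (insert x A) ⊆ Ge L A y false (insert z A) := by
      obtain ⟨b, hb, hb'⟩ := not_subset.1 hc
      intro a ha
      rcases le_total a b with hab | hab
      · exact g7 A (insert z A) y b a false (hsub z) (hfin z) hb ha.1 (by simpa [leS] using hab)
      · exact absurd (g7 A (insert x A) y a b false (hsub x) (hfin x) ha hb.1
          (by simpa [leS] using hab)) hb'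
    obtain ⟨y0, h0⟩ := kne x
    obtain ⟨y1, h1, h1'⟩ := key z hzy
    obtain ⟨σ, hσ, hs⟩ := conj y1 h1 y0 h0.1
    obtain ⟨τ, hτ, ht⟩ := tau σ hσ
    have hy0 : y0 ∈ Ge L A y false (insert (σ z) A) := by
      rw [← ht, img τ (fun a ha => hτ a (mem_insert_of_mem x ha)) z]
      rw [← ktau τ hτ] at h0
      exact image_mono hc' h0
    rw [img σ hσ z] at hy0
    obtain ⟨y2, h2, h2'⟩ := hy0
    have : y2 = y1 := σ.injective (h2'.trans hs.symm)
    exact h1' (this ▸ h2)

end Pool.Agent.WOM
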