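import Pool.Agent.WOM.StB

/-!
WOM, module BFM: back and forth (helper89).
-/

set_option autoImplicit false

namespace Pool.Agent.WOM

open FirstOrder.Language Set
open scoped FirstOrder

theorem thm_BFM (L : FirstOrder.Language.{0, 0}) (U : Type) [L.Structure U] : St_BFM L U := by
  intro M M' hM hM' P h0 h1 h2 h3
  have hcM : Countable M := hM.to_subtype
  have hcM' : Countable M' := hM'.to_subtype
  obtain ⟨f, hf⟩ := exists_surjective_nat (Option M)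
  obtain ⟨f', hf'⟩ := exists_surjective_nat (Option M')
  -- the states
  have hstep : ∀ (s : {p : Set U × (U ≃[L] U) // p.1.Finite ∧ p.1 ⊆ M ∧ P p.1 p.2})
      (n : ℕ), ∃ s' : {p : Set U × (U ≃[L] U) // p.1.Finite ∧ p.1 ⊆ M ∧ P p.1 p.2},
      s.1.1 ⊆ s'.1.1 ∧ (∀ a ∈ s.1.1, s'.1.2 a = s.1.2 a) ∧
      (∀ x, f n = some x → (x : U) ∈ s'.1.1) ∧
      (∀ y, f' n = some y → ∃ x ∈ s'.1.1, s'.1.2 x = y) := by
    rintro ⟨⟨A, g⟩, hA, hAM, hP⟩ n
    obtain ⟨B, g1, hB, hBM, hP1, hAB, hg1, hx1⟩ : ∃ (B : Set U) (g1 : U ≃[L] U), B.Finite ∧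
        B ⊆ M ∧ P B g1 ∧ A ⊆ B ∧ (∀ a ∈ A, g1 a = g a) ∧
        (∀ x, f n = some x → (x : U) ∈ B) := by
      rcases hfn : f n with _ | x
      · exact ⟨A, g, hA, hAM, hP, subset_rfl, fun a _ => rfl, fun x hx => by cases hx⟩
      · obtain ⟨g', hg', hP'⟩ := h2 A g hA hAM hP x x.2
        refine ⟨insert (x : U) A, g', hA.insert _, insert_subset x.2 hAM, hP',
          subset_insert _ _, hg', fun x' hx' => ?_⟩
        rw [Option.some.inj hx']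
        exact mem_insert _ _
    rcases hfn : f' n with _ | y
    · exact ⟨⟨⟨B, g1⟩, hB, hBM, hP1⟩, hAB, hg1, hx1, fun y hy => by cases hy⟩
    · obtain ⟨g', x, hxM, hg', hgx, hP'⟩ := h3 B g1 hB hBM hP1 y y.2
      refine ⟨⟨⟨insert x B, g'⟩, hB.insert _, insert_subset hxM hBM, hP'⟩,
        hAB.trans (subset_insert _ _), fun a ha => ?_, fun z hz => Or.inr (hx1 z hz),
        fun y' hy' => ⟨x, mem_insert _ _, ?_⟩⟩
      · exact (hg' a (hAB ha)).trans (hg1 a ha)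
      · rw [← Option.some.inj hy']
        exact hgx
  choose step hs1 hs2 hs3 hs4 using hstep
  obtain ⟨A0, g0, hA0, hA0M, hP0⟩ := h0
  obtain ⟨sq, hsq0, hsq⟩ : ∃ sq : ℕ → {p : Set U × (U ≃[L] U) // p.1.Finite ∧ p.1 ⊆ M ∧ P p.1 p.2},
      sq 0 = ⟨⟨A0, g0⟩, hA0, hA0M, hP0⟩ ∧ ∀ n, sq (n + 1) = step (sq n) n :=
    ⟨fun n => Nat.rec ⟨⟨A0, g0⟩, hA0, hA0M, hP0⟩ (fun n s => step s n) n, rfl, fun n => rfl⟩
  have hmono : ∀ m n, m ≤ n → (sq m).1.1 ⊆ (sq n).1.1 ∧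
      ∀ a ∈ (sq m).1.1, (sq n).1.2 a = (sq m).1.2 a := by
    intro m n hmn
    induction n, hmn using Nat.le_induction with
    | base => exact ⟨subset_rfl, fun a _ => rfl⟩
    | succ n hmn ih =>
      rw [hsq]
      exact ⟨ih.1.trans (hs1 _ _), fun a ha => (hs2 _ _ a (ih.1 ha)).trans (ih.2 a ha)⟩
  have hmem : ∀ x : M, ∃ n, (x : U) ∈ (sq n).1.1 := by
    intro x
    obtain ⟨n, hn⟩ := hf (some x)
    refine ⟨n + 1, ?_⟩
    rw [hsq]
    exact hs3 _ _ x hn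
  choose N hN using hmem
  have himg : ∀ n, ∀ a ∈ (sq n).1.1, (sq n).1.2 a ∈ M' := fun n a ha =>
    h1 _ _ (sq n).2.1 (sq n).2.2.1 (sq n).2.2.2 ⟨a, ha, rfl⟩
  obtain ⟨φ, hφ⟩ : ∃ φ : M → M', φ = fun x => ⟨(sq (N x)).1.2 x, himg _ _ (hN x)⟩ := ⟨_, rfl⟩
  have hφv : ∀ (x : M) (n : ℕ), (x : U) ∈ (sq n).1.1 → (sq n).1.2 x = φ x := by
    intro x n hn
    rw [hφ]
    rcases le_total (N x) n with h | h
    · exact (hmono _ _ h).2 _ (hN x)
    · exact ((hmono _ _ h).2 _ hn).symm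
  have hinj : Function.Injective φ := by
    intro x x' hxx
    have e1 := hφv x (max (N x) (N x')) ((hmono _ _ (le_max_left _ _)).1 (hN x))
    have e2 := hφv x' (max (N x) (N x')) ((hmono _ _ (le_max_right _ _)).1 (hN x'))
    rw [← hxx, ← e1] at e2
    exact Subtype.ext ((sq (max (N x) (N x'))).1.2.injective e2).symm
  have hsurj : Function.Surjective φ := by
    intro y
    obtain ⟨n, hn⟩ := hf' (some y)
    have h4 := hs4 (sq n) n y hn
    rw [← hsq] at h4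
    obtain ⟨x, hx, hxy⟩ := h4
    refine ⟨⟨x, (sq (n + 1)).2.2.1 hx⟩, Subtype.ext ?_⟩
    rw [← hφv ⟨x, (sq (n + 1)).2.2.1 hx⟩ (n + 1) hx]
    exact hxy
  refine ⟨Equiv.ofBijective φ ⟨hinj, hsurj⟩, fun n a => ?_⟩
  obtain ⟨m, hm⟩ : ∃ m, ∀ i, (a i : U) ∈ (sq m).1.1 :=
    ⟨Finset.univ.sup fun i => N (a i), fun i =>
      (hmono _ _ (Finset.le_sup (f := fun i => N (a i)) (Finset.mem_univ i))).1 (hN (a i))⟩
  have h5 : (fun i => ((Equiv.ofBijective φ ⟨hinj, hsurj⟩ (a i) : M') : U)) =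
      (sq m).1.2 ∘ fun i => (a i : U) := by
    funext i
    exact (hφv (a i) m (hm i)).symm
  rw [h5]
  ext ψ
  exact (FirstOrder.Language.StrongHomClass.realize_formula (sq m).1.2 ψ).symm

end Pool.Agent.WOM
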