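import Pool.Agent.WOM.DefsC

/-!
WOM: toolkit for definability proofs (helper41).  A predicate of `n` variables is written as
`fun v : Fin n → U => P v`; the quantifiers bind the variable `0` of `Fin.cons x v` (so the old
variable `i` becomes `i + 1`; all equations `Fin.cons x v 1 = v 0`, ... are true by `rfl`).
Example: `ext_df` in StS.
-/

set_option autoImplicit false

namespace Pool.Agent.WOM.Dx

open FirstOrder.Language Set
open scoped FirstOrder

variable {L : FirstOrder.Language.{0, 0}} {U : Type} [L.Structure U]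

theorem ex {A : Set U} {n : ℕ} {P : (Fin (n + 1) → U) → Prop}
    (h : A.Definable L {w : Fin (n + 1) → U | P w}) :
    A.Definable L {v : Fin n → U | ∃ x, P (Fin.cons x v)} := by
  have h1 := h.image_comp (fun i : Fin n => i.succ)
  have h2 : {v : Fin n → U | ∃ x, P (Fin.cons x v)} =
      (fun g : Fin (n + 1) → U => g ∘ fun i : Fin n => i.succ) '' {w | P w} := by
    ext v
    constructor
    · rintro ⟨x, hx⟩
      exact ⟨Fin.cons x v, hx, by funext i; simp⟩
    · rintro ⟨w, hw, rfl⟩
      refine ⟨w 0, ?_⟩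
      have h3 : (Fin.cons (w 0) (w ∘ fun i : Fin n => i.succ) : Fin (n + 1) → U) = w := by
        funext i
        refine Fin.cases ?_ (fun j => ?_) i
        · rfl
        · rfl
      rw [h3]
      exact hw
  rw [h2]
  exact h1

theorem and {A : Set U} {n : ℕ} {P Q : (Fin n → U) → Prop}
    (h : A.Definable L {v : Fin n → U | P v}) (h' : A.Definable L {v : Fin n → U | Q v}) :
    A.Definable L {v : Fin n → U | P v ∧ Q v} := h.inter h'

theorem or {A : Set U} {n : ℕ} {P Q : (Fin n → U) → Prop}
    (h : A.Definable L {v : Fin n → U | P v}) (h' : A.Definable L {v : Fin n → U | Q v}) :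
    A.Definable L {v : Fin n → U | P v ∨ Q v} := h.union h'

theorem not {A : Set U} {n : ℕ} {P : (Fin n → U) → Prop}
    (h : A.Definable L {v : Fin n → U | P v}) : A.Definable L {v : Fin n → U | ¬ P v} := h.compl

theorem imp {A : Set U} {n : ℕ} {P Q : (Fin n → U) → Prop}
    (h : A.Definable L {v : Fin n → U | P v}) (h' : A.Definable L {v : Fin n → U | Q v}) :
    A.Definable L {v : Fin n → U | P v → Q v} := by
  have h1 := or (not h) h'
  have h2 : {v : Fin n → U | P v → Q v} = {v : Fin n → U | ¬ P v ∨ Q v} := by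
    ext v
    exact imp_iff_not_or
  rw [h2]
  exact h1

theorem iff {A : Set U} {n : ℕ} {P Q : (Fin n → U) → Prop}
    (h : A.Definable L {v : Fin n → U | P v}) (h' : A.Definable L {v : Fin n → U | Q v}) :
    A.Definable L {v : Fin n → U | P v ↔ Q v} := by
  have h1 := and (imp h h') (imp h' h)
  have h2 : {v : Fin n → U | P v ↔ Q v} = {v : Fin n → U | (P v → Q v) ∧ (Q v → P v)} := by
    ext v
    exact iff_iff_implies_and_implies
  rw [h2]
  exact h1

theorem all {A : Set U} {n : ℕ} {P : (Fin (n + 1) → U) → Prop}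
    (h : A.Definable L {w : Fin (n + 1) → U | P w}) :
    A.Definable L {v : Fin n → U | ∀ x, P (Fin.cons x v)} := by
  have h1 := not (ex (not h))
  have h2 : {v : Fin n → U | ∀ x, P (Fin.cons x v)} =
      {v : Fin n → U | ¬ ∃ x, ¬ P (Fin.cons x v)} := by
    ext v
    show (∀ x, P (Fin.cons x v)) ↔ ¬ ∃ x, ¬ P (Fin.cons x v)
    push Not
    rfl
  rw [h2]
  exact h1

/-- binary relations -/
theorem rel {A : Set U} {n : ℕ} {R : U → U → Prop}
    (h : A.Definable L {w : Fin 2 → U | R (w 0) (w 1)}) (i j : Fin n) :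
    A.Definable L {v : Fin n → U | R (v i) (v j)} := h.preimage_comp ![i, j]

/-- ternary relations -/
theorem rel3 {A : Set U} {n : ℕ} {R : U → U → U → Prop}
    (h : A.Definable L {w : Fin 3 → U | R (w 0) (w 1) (w 2)}) (i j k : Fin n) :
    A.Definable L {v : Fin n → U | R (v i) (v j) (v k)} := h.preimage_comp ![i, j, k]

/-- relations with four places -/
theorem rel4 {A : Set U} {n : ℕ} {R : U → U → U → U → Prop}
    (h : A.Definable L {w : Fin 4 → U | R (w 0) (w 1) (w 2) (w 3)}) (i j k l : Fin n) :
    A.Definable L {v : Fin n → U | R (v i) (v j) (v k) (v l)} := h.preimage_comp ![i, j, k, l]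

/-- unary relations -/
theorem one {A s : Set U} {n : ℕ} (h : A.Definable₁ L s) (i : Fin n) :
    A.Definable L {v : Fin n → U | v i ∈ s} := h.preimage_comp (fun _ : Fin 1 => i)

theorem one' {A : Set U} {P : U → Prop} (h : A.Definable L {v : Fin 1 → U | P (v 0)}) :
    A.Definable₁ L {x | P x} := h

/-- substitution of a parameter for the variable `0` -/
theorem par {A B : Set U} {n : ℕ} {P : (Fin (n + 1) → U) → Prop}
    (h : A.Definable L {w : Fin (n + 1) → U | P w}) (hAB : A ⊆ B) {b : U} (hb : b ∈ B) :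
    B.Definable L {v : Fin n → U | P (Fin.cons b v)} := by
  have h0 : B.Definable L {w : Fin (n + 1) → U | w 0 = b} := by
    refine ⟨((FirstOrder.Language.var (Sum.inl 0) :
      (L[[B]]).Term (Fin (n + 1) ⊕ Fin 0)).bdEqual
        (FirstOrder.Language.Constants.term (L.con (⟨b, hb⟩ : B))) :
          (L[[B]]).BoundedFormula (Fin (n + 1)) 0), ?_⟩
    ext w
    show w 0 = b ↔ _
    simp [FirstOrder.Language.Formula.Realize]
  have h1 := ex (and h0 (h.mono hAB))
  have h2 : {v : Fin n → U | P (Fin.cons b v)} =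
      {v : Fin n → U | ∃ x, (Fin.cons x v : Fin (n + 1) → U) 0 = b ∧ P (Fin.cons x v)} := by
    ext v
    constructor
    · intro hv
      exact ⟨b, rfl, hv⟩
    · rintro ⟨x, hx, hv⟩
      have hx' : x = b := hx
      subst hx'
      exact hv
  rw [h2]
  exact h1

section ord

variable [LinearOrder U]

theorem lt (hord : (∅ : Set U).Definable L {v : Fin 2 → U | v 0 < v 1}) (A : Set U) {n : ℕ}
    (i j : Fin n) : A.Definable L {v : Fin n → U | v i < v j} :=
  (hord.mono (Set.empty_subset _)).preimage_comp ![i, j]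

theorem le (hord : (∅ : Set U).Definable L {v : Fin 2 → U | v 0 < v 1}) (A : Set U) {n : ℕ}
    (i j : Fin n) : A.Definable L {v : Fin n → U | v i ≤ v j} := by
  have h2 : {v : Fin n → U | v i ≤ v j} = {v : Fin n → U | ¬ v j < v i} := by
    ext v
    exact not_lt.symm
  rw [h2]
  exact not (lt hord A j i)

end ord

/-- a set with a parameter is the fibre of a relation -/
theorem fib {A : Set U} {x : U} {s : Set U} (h : (insert x A).Definable₁ L s) :
    ∃ u : U → Set U, A.Definable L {w : Fin 2 → U | w 1 ∈ u (w 0)} ∧ u x = s := by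
  classical
  obtain ⟨φ, hφ⟩ := definable_iff_exists_formula_sum.1 h
  let σ : (insert x A : Set U) ⊕ Fin 1 → A ⊕ Fin 2 :=
    Sum.elim (fun a : (insert x A : Set U) =>
      if ha : (a : U) ∈ A then Sum.inl ⟨a, ha⟩ else Sum.inr 0) fun _ => Sum.inr 1
  have hd : A.Definable L {v : Fin 2 → U | (φ.relabel σ).Realize (Sum.elim (fun a : A => (a : U)) v)} :=
    definable_iff_exists_formula_sum.2 ⟨φ.relabel σ, rfl⟩
  refine ⟨fun z => {y | (φ.relabel σ).Realize (Sum.elim (fun a : A => (a : U)) ![z, y])}, ?_, ?_⟩
  · have h3 : {w : Fin 2 → U | w 1 ∈ (fun z => {y | (φ.relabel σ).Realize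
        (Sum.elim (fun a : A => (a : U)) ![z, y])}) (w 0)} =
        {v : Fin 2 → U | (φ.relabel σ).Realize (Sum.elim (fun a : A => (a : U)) v)} := by
      ext w
      have h4 : ![w 0, w 1] = w := by
        funext i
        fin_cases i <;> rfl
      show (φ.relabel σ).Realize (Sum.elim (fun a : A => (a : U)) ![w 0, w 1]) ↔ _
      rw [h4]
      rfl
    rw [h3]
    exact hd
  · ext y
    have h0 : y ∈ s ↔ ![y] ∈ {v : Fin 1 → U | v 0 ∈ s} := Iff.rfl
    have h1 : (Sum.elim (fun a : A => (a : U)) ![x, y]) ∘ σ =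
        Sum.elim (fun a : (insert x A : Set U) => (a : U)) ![y] := by
      funext z
      rcases z with z | z
      · by_cases ha : (z : U) ∈ A
        · have h2 : σ (Sum.inl z) = Sum.inl ⟨z, ha⟩ := dif_pos ha
          rw [Function.comp_apply, h2]
          rfl
        · have h2 : σ (Sum.inl z) = Sum.inr 0 := dif_neg ha
          rw [Function.comp_apply, h2]
          have h3 : (z : U) = x := (Set.mem_insert_iff.1 z.2).resolve_right ha
          show x = (z : U)
          exact h3.symm
      · have h4 : z = 0 := Subsingleton.elim _ _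
        subst h4
        rfl
    rw [h0, hφ]
    show (φ.relabel σ).Realize (Sum.elim (fun a : A => (a : U)) ![x, y]) ↔ _
    rw [FirstOrder.Language.Formula.realize_relabel, h1]
    rfl

end Pool.Agent.WOM.Dx
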