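import Pool.Agent.WOM.StS5

/-!
WOM (helper41): the weakest hypothesis.  ADIC TYPES: a type `P` over a finite set `A` of the saturated
model with an `A`-definable family `(E_z)`, `z ∈ Q` (`Q` a type over `A` weakly orthogonal to `P`), of convex
equivalence relations on `P` which are pairwise comparable and not all equal.  Vaught's conjecture
for weakly o-minimal theories without adic types.
-/

set_option autoImplicit false
set_option linter.unusedVariables false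

namespace Pool.Agent.WOM

open FirstOrder.Language Set
open scoped FirstOrder

section gen

variable (L : FirstOrder.Language.{0, 0}) (M : Type) [L.Structure M]

/-- `M` is saturated (for types of elements over finite sets, in terms of definable sets) -/
def SatM : Prop :=
  ∀ A : Set M, A.Finite → ∀ F : Set (Set M), (∀ s ∈ F, A.Definable₁ L s) →
    (∀ G ⊆ F, G.Finite → (⋂₀ G).Nonempty) → (⋂₀ F).Nonempty

variable {M} in
/-- `E` is an equivalence relation on `P` with convex classes -/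
def CvE (lt : L.Formula (Fin 2)) (P : Set M) (E : M → M → Prop) : Prop :=
  (∀ x ∈ P, E x x) ∧ (∀ x ∈ P, ∀ y ∈ P, E x y → E y x) ∧
  (∀ x ∈ P, ∀ y ∈ P, ∀ w ∈ P, E x y → E y w → E x w) ∧
  ∀ x ∈ P, ∀ y ∈ P, ∀ w ∈ P, ltR lt x y → ltR lt y w → E x w → E x y

/-- no adic types -/
def NoAd (lt : L.Formula (Fin 2)) : Prop :=
  ∀ (A P Q : Set M) (a c : M) (E : M → M → M → Prop), A.Finite →
    P = {x | Eqv L A a x} → Q = {z | Eqv L A c z} → CplE L A (insert a A) c →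
    A.Definable L {w : Fin 3 → M | E (w 0) (w 1) (w 2)} →
    (∀ z ∈ Q, CvE L lt P (E z)) →
    (∀ z ∈ Q, ∀ z' ∈ Q, (∀ x ∈ P, ∀ y ∈ P, E z x y → E z' x y) ∨
      ∀ x ∈ P, ∀ y ∈ P, E z' x y → E z x y) →
    ∀ z ∈ Q, ∀ z' ∈ Q, ∀ x ∈ P, ∀ y ∈ P, E z x y → E z' x y

end gen

/-- [SGM] a monotone definable function, one parameter.  PROOF (as STF of StS5).  `p = Orb L B x`, `r = Orb L B c`.  nSMA: `f` with
`Ori L B c x f`, `Ori L B x c f`; `s = !f`: (TA) for `c' ∈ r`, `x' ∈ p`, all `t`: `c' ∈ Ge L B c (sg s t) (insert x' B) ↔ x' ∈ Ge L B x t (insert c' B)`.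
`Orb L (cB) x ≠ p`: SCUT for two elements of `p` in different orbits over `cB` gives a `cB`-definable `Low` set `K₀`, strictly inside `p`.
SDF 8 or `Dx.fib`: `K₀ = K c` with `DF L B K`; by conjugation over `B` (SFX 1) all `K c'`, `c' ∈ r`, are `Low`, meet `p`, do not
contain `p`.  (E) `x' ∈ Ge L B x true (insert c' B)` implies `x' ∉ K c'`; `x' ∈ Ge L B x false (insert c' B)` implies `x' ∈ K c'` (ORB 6).
`Φ c = {t | ∃ c' ∈ r, leS s c c' ∧ t ∈ K c'}`: `K c ⊆ Φ c`, monotone.  Not `p ⊆ Φ c`: `x' ∈ Ge L B x true (insert c B)`; by (TA)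
`c ∈ Ge L B c s (insert x' B)`, so all `c' ∈ r` beyond `c` too (nGER 7), so `x' ∈ Ge L B x true (insert c' B)`, `x' ∉ K c'`.  Definability of `Φ c`:
`c₁ ∈ Ge L B c s (insert c B)`; `Φ c = {t | ∃ c', leS s c c' ∧ leS s c' c₁ ∧ t ∈ K c'}`: if `c' ∈ r` is beyond `c₁` then SEP (for the orbit `r`, the
pair `c, c'`, and `x`) gives `x' ∈ p` with `c ∈ Ge L B c (!s) (insert x' B)`, `c' ∈ Ge L B c s (insert x' B)`, so `x' ∈ K c`, `x' ∉ K c'`, `K c' ⊆ K c`.
SFX 6: `F` with `F c' = Φ c'` for all `c' ∈ r`. -/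
def St_SGM : Prop :=
  ∀ (L : FirstOrder.Language.{0, 0}) (U : Type) [L.Structure U] [LinearOrder U], Wn L U →
    ∀ (B : Set U) (x c : U), B.Finite → Nn L B c x → ∃ (s : Bool) (F : U → Set U), DF L B F ∧
      ∀ c' ∈ Orb L B c, Low (F c') ∧ (∃ x' ∈ Orb L B x, x' ∈ F c') ∧ (∃ x' ∈ Orb L B x, x' ∉ F c') ∧
        ∀ c'' ∈ Orb L B c, leS s c' c'' → F c'' ⊆ F c'

/-- [SPA] an arrow gives an adic type.  `P = Orb A a`, `Q = Orb A c`.  PROOF.  `a ≠ a'`.  WLOG `a < a'` (exchange `a` and `a'`: `¬ Nn A a' c` by NSB 2,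
`insert a (insert a' A)`).  `B = insert a A`: `Orb B c = Q`, `Nn B a' c`, so `Nn B c a'` (NSB 1).  `p₁ = Orb B a'`; all its elements are `> a`
(convex, `a ∉ p₁`).  SGM (base `B`, `x = a'`): `s`, `F`.  As `F` is `B`-definable: SFX 4-like (`Dx`): there is `G : U → U → Set U`, `A`-definable
(`{w : Fin 3 → U | w 2 ∈ G (w 0) (w 1)}`), with `G a c' = F c'` for all `c'` (replace the parameter `a` by a variable in the formula of `{(c', t) | t ∈ F c'}`).
All pairs in `P × Q` are conjugate over `A` (`¬ Nn A a c`, NSB 2), so (SFX 2) for all `x ∈ P`, `z ∈ Q`: `G x z` is `Low`, `x ∈ G x z`, some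
`y ∈ P`, `x < y`, is not in `G x z`, and `leS s z z'`, `z' ∈ Q` implies `G x z' ⊆ G x z`.  EQ (SEZ, `s = true`) over `insert z A` (`P = Orb (insert z A) a`, by
NSB 1) for `x ↦ G x z ∪ Iic x`: if `x ∈ P`, `x ≤ y ∈ G x z` then `y ∈ P`, `G y z = G x z`.  Let `E z x y := (x ≤ y ∧ y ∈ G x z) ∨ (y ≤ x ∧ x ∈ G y z)`: it is
`A`-definable, for `z ∈ Q` an equivalence relation on `P` with convex classes, pairwise comparable.  Take `b ∈ p₁`,
`b ∈ G a c`, and `b' ∈ p₁`, `b' ∉ G a c`; `σ` over `B` with `σ b = b'`: `E (σ c) a b'`, `¬ E c a b'`: contradiction to the hypothesis. -/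
def St_SPA : Prop :=
  ∀ (L : FirstOrder.Language.{0, 0}) [∀ n, IsEmpty (L.Functions n)] (U : Type)
    [S : L.Structure U] [LinearOrder U], Wn L U → ScU L S →
    (∀ (A : Set U) (a c : U) (E : U → U → U → Prop), A.Finite → ¬ Nn L A a c →
      A.Definable L {w : Fin 3 → U | E (w 0) (w 1) (w 2)} →
      (∀ z ∈ Orb L A c, (∀ x ∈ Orb L A a, E z x x) ∧
        (∀ x ∈ Orb L A a, ∀ y ∈ Orb L A a, E z x y → E z y x) ∧
        (∀ x ∈ Orb L A a, ∀ y ∈ Orb L A a, ∀ w ∈ Orb L A a, E z x y → E z y w → E z x w) ∧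
        ∀ x ∈ Orb L A a, ∀ y ∈ Orb L A a, ∀ w ∈ Orb L A a, x < y → y < w → E z x w → E z x y) →
      (∀ z ∈ Orb L A c, ∀ z' ∈ Orb L A c,
        (∀ x ∈ Orb L A a, ∀ y ∈ Orb L A a, E z x y → E z' x y) ∨
        ∀ x ∈ Orb L A a, ∀ y ∈ Orb L A a, E z' x y → E z x y) →
      ∀ z ∈ Orb L A c, ∀ z' ∈ Orb L A c, ∀ x ∈ Orb L A a, ∀ y ∈ Orb L A a, E z x y → E z' x y) →
    ∀ (A : Set U) (a a' c : U), A.Finite → a' ∈ Orb L A a → ¬ Nn L A a c →
      Orb L (insert a' (insert a A)) c = Orb L A c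

/-- [SWN] PROOF.  As SWM of StS5: the linear order, `Wn L U`; for finite `A`: `{x | Eqv L A a x} = Orb L A a`, `¬ Nn L A a c ↔ CplE L A (insert a A) c`
(WMX_nn).  SPA, STN. -/
def St_SWN : Prop :=
  ∀ (L : FirstOrder.Language.{0, 0}) [∀ n, IsEmpty (L.Functions n)] (U : Type)
    [S : L.Structure U] (lt : L.Formula (Fin 2)), Mon L U → WOMin U lt → NoAd L U lt → ScU L S →
    ∃ _ : LinearOrder U, Wm L U

/-- [SRW] PROOF.  As TRW.lean: `U` is isomorphic to a structure on `ℕ`; `SatM`, `WOMin`, `NoAd` are invariant under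
isomorphisms. -/
def St_SRW : Prop :=
  ∀ (L : FirstOrder.Language.{0, 0}) (T : L.Theory) (lt : L.Formula (Fin 2)),
    (∀ S : L.Structure ℕ, @FirstOrder.Language.Theory.Model L ℕ S T →
      @WOMin L ℕ S lt ∧ (@SatM L ℕ S → @NoAd L ℕ S lt)) →
    ∀ (U : Type) [L.Structure U], Countable U → Infinite U → U ⊨ T → SatM L U →
      WOMin U lt ∧ NoAd L U lt

/-- THE THEOREM: Vaught's conjecture for weakly o-minimal theories without adic types. -/
def St_NAE : Prop :=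
  ∀ (L : FirstOrder.Language.{0, 0}) [∀ n, IsEmpty (L.Functions n)]
    [∀ n, Countable (L.Relations n)] (T : L.Theory) (lt : L.Formula (Fin 2)),
    (∀ S : L.Structure ℕ, @FirstOrder.Language.Theory.Model L ℕ S T →
      @WOMin L ℕ S lt ∧ (@SatM L ℕ S → @NoAd L ℕ S lt)) →
    Pool.Agent.Helper6.Str.CtblK (ModK L T) ∨ Pool.Agent.Helper6.Str.PerfK (ModK L T)

end Pool.Agent.WOM
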