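import Pool.Agent.WOM.StN

/-! WOM: module UNG (helper99): gaps inside convex sets without points of the model. -/

set_option autoImplicit false
set_option linter.unusedVariables false

namespace Pool.Agent.WOM

open FirstOrder.Language Set
open scoped FirstOrder

section

variable {L : FirstOrder.Language.{0, 0}} {U : Type} [L.Structure U]

private theorem nUNG_mono {A B : Set U} (hAB : A ⊆ B) {s : Set U} (h : A.Definable₁ L s) :
    B.Definable₁ L s :=
  Set.Definable.mono h hAB

/-- separation of an orbit from a definable set -/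
private theorem nUNG_sep (hM : Mon L U)
    (hO : ∀ (A : Set U) (x y : U), A.Finite → y ∉ Orb L A x → ∃ s, A.Definable₁ L s ∧ x ∈ s ∧ y ∉ s)
    {D B P : Set U} (hD : D.Finite) (hB : B.Finite) {w : U} (hP : B.Definable₁ L P)
    (h : ∀ y ∈ P, y ∉ Orb L D w) : ∃ s, D.Definable₁ L s ∧ w ∈ s ∧ ∀ y ∈ s, y ∉ P := by
  by_contra hcon
  push Not at hcon
  obtain ⟨y, hy⟩ := hM.sat (D ∪ B) (hD.union hB) (insert P {s | D.Definable₁ L s ∧ w ∈ s}) (by
    rintro s (rfl | hs)
    · exact nUNG_mono subset_union_right hP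
    · exact nUNG_mono subset_union_left hs.1) (by
    intro G hG hGf
    have hfin : ∀ G : Set (Set U), G.Finite → G ⊆ {s | D.Definable₁ L s ∧ w ∈ s} →
        ∃ s, D.Definable₁ L s ∧ w ∈ s ∧ s ⊆ ⋂₀ G := by
      intro G hGf
      induction G, hGf using Set.Finite.induction_on with
      | empty =>
        intro _
        exact ⟨univ, Set.definable_univ (α := Fin 1), mem_univ _, by rw [sInter_empty]⟩
      | insert _ _ ih =>
        intro hG
        obtain ⟨s, hs, hw, hsG⟩ := ih ((subset_insert _ _).trans hG)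
        obtain ⟨h1, h2⟩ := hG (mem_insert _ _)
        refine ⟨_ ∩ s, Set.Definable.inter h1 hs, ⟨h2, hw⟩, ?_⟩
        rw [sInter_insert]
        exact inter_subset_inter_right _ hsG
    obtain ⟨s, hs, hw, hsG⟩ := hfin (G \ {P}) (hGf.sdiff) (by
      rintro t ⟨ht, htP⟩
      rcases hG ht with h1 | h1
      · exact absurd h1 htP
      · exact h1)
    obtain ⟨z, hz, hzP⟩ := hcon s hs hw
    refine ⟨z, fun t ht => ?_⟩
    by_cases htP : t = P
    · rw [htP]
      exact hzP
    · exact hsG hz t ⟨ht, htP⟩)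
  have hyP : y ∈ P := hy P (mem_insert _ _)
  obtain ⟨s, hs, hws, hys⟩ := hO D w y hD (h y hyP)
  exact hys (hy s (mem_insert_of_mem _ ⟨hs, hws⟩))

variable [LinearOrder U]

private theorem nUNG_refl (t : Bool) (x : U) : leS t x x := by
  unfold leS
  split_ifs <;> exact le_refl x

private theorem nUNG_total (t : Bool) (x y : U) : leS t x y ∨ leS t y x := by
  unfold leS
  split_ifs
  · exact le_total x y
  · exact (le_total y x)

private theorem nUNG_anti {t : Bool} {x y : U} (h : leS t x y) (h' : leS t y x) : x = y := by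
  unfold leS at h h'
  split_ifs at h h'
  · exact le_antisymm h h'
  · exact le_antisymm h' h

private theorem nUNG_trans {t : Bool} {x y z : U} (h : leS t x y) (h' : leS t y z) : leS t x z := by
  unfold leS at h h' ⊢
  split_ifs at h h' ⊢
  · exact h.trans h'
  · exact h'.trans h

private theorem nUNG_not (t : Bool) (x y : U) : leS (!t) x y ↔ leS t y x := by
  cases t <;> simp [leS]

private theorem nUNG_conv {G : Set U} (hG : G.OrdConnected) {t : Bool} {x y z : U} (hx : x ∈ G)
    (hz : z ∈ G) (h : leS t x y) (h' : leS t y z) : y ∈ G := by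
  unfold leS at h h'
  split_ifs at h h'
  · exact hG.out hx hz ⟨h, h'⟩
  · exact hG.out hz hx ⟨h', h⟩

end

theorem thm_nUNG (hDFN : St_DFN) (hORB : St_ORB) (hCNV : St_nCNV) (hLTW : St_nLTW) : St_nUNG := by
  intro L U _ _ hW M G D₀ hM hG hGn hGM hD₀ hD₀M hinv
  obtain ⟨hO1, hO2, hO3, -, -, hO6, hO7, -, hO9⟩ := hORB L U hW.mon
  have hcnv := hCNV L U hW
  by_cases hA : ∀ D : Set U, D.Finite → D₀ ⊆ D → D ⊆ M → ∀ u ∈ G, Orb L D u = G
  · refine ⟨D₀, hD₀, Subset.rfl, hD₀M, fun u hu D hD hDD hDM => ?_, fun t => ?_⟩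
    · rw [hA D hD hDD hDM u hu, hA D₀ hD₀ Subset.rfl hD₀M u hu]
    · obtain ⟨w, hw⟩ := hGn
      have h1 := hA D₀ hD₀ Subset.rfl hD₀M w hw
      refine ⟨w, hw, ?_, Or.inl h1⟩
      rw [h1]
      exact fun v hv => ⟨v, hv, nUNG_refl t v⟩
  · push Not at hA
    obtain ⟨D, hD, hD₀D, hDM, u₀, hu₀, hne⟩ := hA
    have hOG : ∀ E : Set U, D₀ ⊆ E → ∀ u ∈ G, Orb L E u ⊆ G := fun E hE u hu =>
      (hO3 D₀ E u hE).trans (hinv u hu)
    obtain ⟨v₀, hv₀, hv₀'⟩ : ∃ v ∈ G, v ∉ Orb L D u₀ := by
      by_contra hcon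
      push Not at hcon
      exact hne (subset_antisymm (hOG D hD₀D u₀ hu₀) hcon)
    -- at most two orbits
    have hsym : ∀ (E : Set U) (a b : U), b ∈ Orb L E a → a ∈ Orb L E b := by
      intro E a b h
      rw [hO2 E a b h]
      exact hO1 E a
    have hthree : ∀ E : Set U, E.Finite → E ⊆ M → ∀ a ∈ G, ∀ b ∈ G, ∀ c ∈ G,
        b ∉ Orb L E a → c ∉ Orb L E a → c ∉ Orb L E b → False := by
      intro E hE hEM
      have key : ∀ a ∈ G, ∀ b ∈ G, ∀ c ∈ G, a < b → b < c → b ∉ Orb L E a →
          c ∉ Orb L E b → False := by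
        intro a ha b hb c hc hab hbc h1 h2
        rcases hLTW L U hW M G E hM hG hGM hE hEM a ha b hb c hc hab hbc with h | h
        · exact h1 h
        · exact h2 h
      intro a ha b hb c hc hab hac hbc
      have hba : a ∉ Orb L E b := fun h => hab (hsym E b a h)
      have hca : a ∉ Orb L E c := fun h => hac (hsym E c a h)
      have hcb : b ∉ Orb L E c := fun h => hbc (hsym E c b h)
      have nab : a ≠ b := fun h => hab (h ▸ hO1 E a)
      have nac : a ≠ c := fun h => hac (h ▸ hO1 E a)
      have nbc : b ≠ c := fun h => hbc (h ▸ hO1 E b)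
      rcases lt_or_gt_of_ne nab with h1 | h1 <;> rcases lt_or_gt_of_ne nbc with h2 | h2 <;>
        rcases lt_or_gt_of_ne nac with h3 | h3
      · exact key a ha b hb c hc h1 h2 hab hbc
      · exact key a ha b hb c hc h1 h2 hab hbc
      · exact key a ha c hc b hb h3 h2 hac hcb
      · exact key c hc a ha b hb h3 h1 hca hab
      · exact key b hb a ha c hc h1 h3 hba hac
      · exact key b hb c hc a ha h2 h3 hbc hca
      · exact absurd (h2.trans h1) (lt_asymm h3)
      · exact key c hc b hb a ha h2 h1 hcb hba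
    have hunc : ∀ u ∈ G, Unc L D u M := by
      intro w hw E hE hDE hEM
      refine subset_antisymm (hO3 D E w hDE) fun w' hw' => ?_
      by_contra hcon
      have hw'G : w' ∈ G := hOG D hD₀D w hw hw'
      -- an element of the other orbit
      obtain ⟨v, hv, hvw⟩ : ∃ v ∈ G, v ∉ Orb L D w := by
        by_cases h1 : u₀ ∈ Orb L D w
        · refine ⟨v₀, hv₀, fun h2 => hv₀' ?_⟩
          rw [hO2 D w u₀ h1]
          exact h2
        · exact ⟨u₀, hu₀, h1⟩
      refine hthree E hE hEM w hw w' hw'G v hv hcon (fun h => hvw (hO3 D E w hDE h))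
        (fun h => hvw ?_)
      have h3 := hO3 D E w' hDE h
      rw [hO2 D w w' hw'] at h3
      exact h3
    refine ⟨D, hD, hD₀D, hDM, hunc, fun t => ?_⟩
    -- the orbit on the side `t`
    obtain ⟨w, hw, v, hv, hvw, hle⟩ : ∃ w ∈ G, ∃ v ∈ G, v ∉ Orb L D w ∧ leS t v w := by
      rcases nUNG_total t u₀ v₀ with h | h
      · exact ⟨v₀, hv₀, u₀, hu₀, fun h' => hv₀' (hsym D v₀ u₀ h'), h⟩
      · exact ⟨u₀, hu₀, v₀, hv₀, hv₀', h⟩
    have hcw : (Orb L D w).OrdConnected := (hcnv.2 D w hD).1
    have hcv : (Orb L D v).OrdConnected := (hcnv.2 D v hD).1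
    have hdis : ∀ x, x ∈ Orb L D w → x ∈ Orb L D v → False := by
      intro x h1 h2
      have h3 := hO2 D w x h1
      have h4 := hO2 D v x h2
      apply hvw
      rw [← h3, h4]
      exact hO1 D v
    have hor : ∀ x ∈ Orb L D w, ∀ y ∈ Orb L D v, leS t y x := by
      intro x hx y hy
      by_contra hcon
      have h1 : leS t x y := (nUNG_total t x y).resolve_right hcon
      rcases nUNG_total t x v with h2 | h2
      · exact hdis v (nUNG_conv hcw hx (hO1 D w) h2 hle) (hO1 D v)
      · exact hdis x hx (nUNG_conv hcv (hO1 D v) hy h2 h1)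
    have hG2 : ∀ y ∈ G, y ∈ Orb L D w ∨ y ∈ Orb L D v := by
      intro y hy
      by_contra hcon
      push Not at hcon
      exact hthree D hD hDM w hw v hv y hy hvw hcon.1 hcon.2
    refine ⟨w, hw, ?_, Or.inr ?_⟩
    · intro y hy
      rcases hG2 y hy with h | h
      · exact ⟨y, h, nUNG_refl t y⟩
      · exact ⟨w, hO1 D w, hor w (hO1 D w) y h⟩
    · obtain ⟨-, -, hD3, hD4⟩ := hDFN L U hW.ord D
      have hPv' : ({v} : Set U).Definable₁ L {u | leS (!t) v u} := hD4 v (!t)
      obtain ⟨s, hs, hws, hsv⟩ := nUNG_sep hW.mon hO7 hD (finite_singleton v) (w := w) hPv' (by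
        intro y hy hyw
        have h1 : leS t v y := hor y hyw v (hO1 D v)
        have h2 : leS t y v := (nUNG_not t v y).1 hy
        exact hvw ((nUNG_anti h1 h2) ▸ hyw))
      have hOs : Orb L D w ⊆ s := hO6 D s hs w hws
      have hsv' : ∀ v' ∈ Orb L D v, ∀ y ∈ s, ¬ leS (!t) v' y := by
        rintro v' ⟨τ, hτ, rfl⟩ y hy hle'
        -- move back by the inverse of `τ`
        have hτs : Fx L D τ.symm := by
          intro a ha
          have h1 := hτ a ha
          calc τ.symm a = τ.symm (τ a) := by rw [h1]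
            _ = a := FirstOrder.Language.Equiv.symm_apply_apply τ a
        have hy2 : τ.symm y ∈ s := hO6 D s hs y hy ⟨τ.symm, hτs, rfl⟩
        refine hsv _ hy2 ?_
        show leS (!t) v (τ.symm y)
        have hmon : ∀ a b : U, a ≤ b → τ.symm a ≤ τ.symm b := by
          intro a b hab
          rcases hab.lt_or_eq with h | h
          · exact ((hcnv.1 τ.symm a b).1 h).le
          · rw [h]
        have h3 : leS (!t) (τ.symm (τ v)) (τ.symm y) := by
          unfold leS at hle' ⊢
          split_ifs at hle' ⊢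
          · exact hmon _ _ hle'
          · exact hmon _ _ hle'
        rwa [FirstOrder.Language.Equiv.symm_apply_apply] at h3
      have hcl : Cls (!t) (Orb L D w) = Cls (!t) s := by
        apply subset_antisymm
        · rintro u ⟨a, ha, hua⟩
          exact ⟨a, hOs ha, hua⟩
        · rintro u ⟨a, ha, hua⟩
          by_contra hcon
          have h1 : leS t u w := by
            have h2 : ¬ leS (!t) u w := fun h => hcon ⟨w, hO1 D w, h⟩
            rw [nUNG_not] at h2
            exact (nUNG_total t u w).resolve_right h2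
          have h3 : leS t v a := by
            have h4 : ¬ leS (!t) v a := hsv' v (hO1 D v) a ha
            rw [nUNG_not] at h4
            exact (nUNG_total t v a).resolve_right h4
          have h5 : leS t v u := nUNG_trans h3 ((nUNG_not t u a).1 hua)
          have huG : u ∈ G := nUNG_conv hG hv hw h5 h1
          rcases hG2 u huG with h | h
          · exact hcon ⟨u, h, nUNG_refl _ u⟩
          · exact hsv' u h a ha hua
      show D.Definable₁ L (Cls (!t) (Orb L D w))
      rw [hcl]
      exact hD3 s (!t) hs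

end Pool.Agent.WOM
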