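import Pool.Agent.WOM.StS6
import Pool.Agent.WOM.SEP
import Pool.Agent.WOM.SDF
import Pool.Agent.WOM.SFX
import Pool.Agent.WOM.SCUT
import Pool.Agent.WOM.NSB
import Pool.Agent.WOM.nSMA

/-!
WOM [SGM]: a monotone definable function, one parameter (helper72 for helper41).
-/

set_option autoImplicit false
set_option linter.unusedVariables false

namespace Pool.Agent.WOM

open FirstOrder.Language Set
open scoped FirstOrder

section

variable {U : Type} [LinearOrder U]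

private theorem SGM_refl (s : Bool) (x : U) : leS s x x := by
  cases s <;> simp [leS]

private theorem SGM_trans {s : Bool} {x y z : U} (h : leS s x y) (h' : leS s y z) : leS s x z := by
  cases s
  · simp only [leS, Bool.false_eq_true, if_false] at h h' ⊢
    exact h'.trans h
  · simp only [leS, if_true] at h h' ⊢
    exact h.trans h'

private theorem SGM_total (s : Bool) (x y : U) : leS s x y ∨ leS s y x := by
  cases s
  · simp only [leS, Bool.false_eq_true, if_false]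
    exact le_total y x
  · simp only [leS, if_true]
    exact le_total x y

private theorem SGM_conn {s : Bool} {R : Set U} (hR : R.OrdConnected) {x y z : U} (hx : x ∈ R)
    (hz : z ∈ R) (h : leS s x y) (h' : leS s y z) : y ∈ R := by
  cases s
  · simp only [leS, Bool.false_eq_true, if_false] at h h'
    exact hR.out hz hx ⟨h', h⟩
  · simp only [leS, if_true] at h h'
    exact hR.out hx hz ⟨h, h'⟩

private theorem SGM_dle {L : FirstOrder.Language.{0, 0}} [L.Structure U]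
    (hord : (∅ : Set U).Definable L {v : Fin 2 → U | v 0 < v 1}) (A : Set U) (s : Bool) {n : ℕ}
    (i j : Fin n) : A.Definable L {v : Fin n → U | leS s (v i) (v j)} := by
  cases s
  · have h : {v : Fin n → U | leS false (v i) (v j)} = {v : Fin n → U | v j ≤ v i} := by
      ext v
      simp [leS]
    rw [h]
    exact Dx.le hord A j i
  · have h : {v : Fin n → U | leS true (v i) (v j)} = {v : Fin n → U | v i ≤ v j} := by
      ext v
      simp [leS]
    rw [h]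
    exact Dx.le hord A i j

end

theorem thm_SGM : St_SGM := by
  have hORB : St_ORB := thm_ORB (thm_DEF1 thm_DEFF)
  have hCNV : St_nCNV := thm_nCNV hORB
  have hGEX : St_nGEX := thm_nGEX thm_DFN hORB hCNV thm_nEVD
  have hGER : St_nGER := thm_nGER hORB hCNV hGEX
  have hFFR : St_nFFR := thm_nFFR hORB hCNV hGEX hGER
  have hSMA : St_nSMA := thm_nSMA hORB thm_NSB hGEX hGER hFFR
  intro L U _ _ hW B x c hB hN
  obtain ⟨o1, o2, o3, -, -, o6, -, -, -⟩ := hORB L U hW.mon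
  obtain ⟨f1, -, -, -, -, f6⟩ := thm_SFX L U hW.mon
  obtain ⟨d1, -⟩ := thm_SDF L U hW.ord
  obtain ⟨hC1, hC2⟩ := hCNV L U hW
  have gex := hGEX L U hW
  obtain ⟨-, -, -, g4, -, -, g7, -⟩ := hGER L U hW
  have hle : ∀ (σ : U ≃[L] U) (x y : U), x ≤ y ↔ σ x ≤ σ y := by
    intro σ x y
    rw [← not_lt, ← not_lt, hC1 σ y x]
  have hles : ∀ (s : Bool) (σ : U ≃[L] U) (x y : U), leS s x y ↔ leS s (σ x) (σ y) := by
    intro s σ x y
    cases s
    · simp only [leS, Bool.false_eq_true, if_false]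
      exact hle σ y x
    · simp only [leS, if_true]
      exact hle σ x y
  have hcB : (insert c B).Finite := hB.insert c
  have hsub : ∀ z : U, B ⊆ insert z B := fun z => subset_insert z B
  -- orientation
  obtain ⟨f, hf1, hf2, -⟩ := hSMA L U hW B c x hB hN
  have hTA : ∀ c' ∈ Orb L B c, ∀ x' ∈ Orb L B x, ∀ t : Bool,
      c' ∈ Ge L B c (sg (!f) t) (insert x' B) ↔ x' ∈ Ge L B x t (insert c' B) := by
    intro c' hc' x' hx' t
    have e : sg (!f) t = !(sg f t) := by cases f <;> cases t <;> rfl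
    rw [e]
    constructor
    · intro h
      have h3 := hf1 _ x' hx' c' h
      have e2 : (!(sg f (!(sg f t)))) = t := by cases f <;> cases t <;> rfl
      rw [e2] at h3
      exact h3
    · intro h
      exact hf2 t c' hc' x' h
  -- the cut over `c`
  have hcut : ∃ K₀ : Set U, (insert c B).Definable₁ L K₀ ∧ Low K₀ ∧
      (∃ x₁ ∈ Orb L B x, x₁ ∈ K₀) ∧ ∃ x₂ ∈ Orb L B x, x₂ ∉ K₀ := by
    have h1 : ∃ z ∈ Orb L B x, z ∉ Orb L (insert c B) x := by
      by_contra h2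
      push Not at h2
      exact hN (Subset.antisymm (o3 B _ x (hsub c)) h2)
    obtain ⟨z, hz, hz'⟩ := h1
    have hne : x ≠ z := fun h => hz' (h ▸ o1 _ x)
    rcases lt_or_gt_of_ne hne with h | h
    · obtain ⟨K, hK, hKl, hxK, hzK⟩ := thm_SCUT hORB hCNV L U hW (insert c B) x z hcB h hz'
      exact ⟨K, hK, hKl, ⟨x, o1 _ _, hxK⟩, z, hz, hzK⟩
    · have h3 : x ∉ Orb L (insert c B) z := by
        intro h4
        apply hz'
        rw [o2 _ _ _ h4]
        exact o1 _ _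
      obtain ⟨K, hK, hKl, hzK, hxK⟩ := thm_SCUT hORB hCNV L U hW (insert c B) z x hcB h h3
      exact ⟨K, hK, hKl, ⟨z, hz, hzK⟩, x, o1 _ _, hxK⟩
  obtain ⟨K₀, hK₀, hKl, ⟨x₁, hx₁, hx₁K⟩, x₂, hx₂, hx₂K⟩ := hcut
  obtain ⟨K, hKdf, hKc⟩ := Dx.fib hK₀
  have hKdf' : DF L B K := hKdf
  have hKσ : ∀ σ : U ≃[L] U, Fx L B σ → ∀ z, K (σ z) = σ '' K z := fun σ hσ z =>
    f1 B K σ hKdf' hσ z
  have hKall : ∀ c' ∈ Orb L B c, Low (K c') ∧ (∃ p ∈ Orb L B x, p ∈ K c') ∧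
      ∃ p ∈ Orb L B x, p ∉ K c' := by
    rintro c' ⟨σ, hσ, rfl⟩
    rw [hKσ σ hσ, hKc]
    refine ⟨?_, ⟨σ x₁, ?_, mem_image_of_mem σ hx₁K⟩, σ x₂, ?_, ?_⟩
    · rintro _ ⟨u, hu, rfl⟩ y hy
      refine ⟨σ.symm y, hKl u hu _ ?_, σ.apply_symm_apply y⟩
      rw [hle σ, σ.apply_symm_apply]
      exact hy
    · obtain ⟨τ, hτ, rfl⟩ := hx₁
      exact ⟨σ.comp τ, fun a ha => by
        show σ (τ a) = a
        rw [hτ a ha, hσ a ha], rfl⟩
    · obtain ⟨τ, hτ, rfl⟩ := hx₂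
      exact ⟨σ.comp τ, fun a ha => by
        show σ (τ a) = a
        rw [hτ a ha, hσ a ha], rfl⟩
    · rintro ⟨u, hu, hu2⟩
      exact hx₂K (σ.injective hu2 ▸ hu)
  have hdef : ∀ c' : U, (insert c' B).Definable₁ L (K c') := fun c' =>
    d1 B (insert c' B) K c' hKdf' (hsub c') (mem_insert _ _)
  have E1 : ∀ c' ∈ Orb L B c, ∀ x', x' ∈ Ge L B x true (insert c' B) → x' ∉ K c' := by
    intro c' hc' x' hx' hxK
    obtain ⟨hlow, -, p, hp, hpK⟩ := hKall c' hc'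
    obtain ⟨u, hu, hpu⟩ := hx'.2 p hp
    have hpu' : p ≤ u := by simpa [leS] using hpu
    exact hpK (hlow u (o6 _ _ (hdef c') x' hxK hu) p hpu')
  have E2 : ∀ c' ∈ Orb L B c, ∀ x', x' ∈ Ge L B x false (insert c' B) → x' ∈ K c' := by
    intro c' hc' x' hx'
    obtain ⟨hlow, ⟨p, hp, hpK⟩, -⟩ := hKall c' hc'
    obtain ⟨u, hu, hpu⟩ := hx'.2 p hp
    have hpu' : u ≤ p := by simpa [leS] using hpu
    have huK : u ∈ K c' := hlow p hpK u hpu'
    refine o6 _ _ (hdef c') u huK ?_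
    rw [o2 _ _ _ hu]
    exact o1 _ _
  set s : Bool := !f with hs
  -- the monotone function
  set Φ : U → Set U := fun c' => {t | ∃ c'' ∈ Orb L B c, leS s c' c'' ∧ t ∈ K c''} with hΦ
  have hΦσ : ∀ σ : U ≃[L] U, Fx L B σ → Φ (σ c) = σ '' Φ c := by
    intro σ hσ
    have hσ' : Fx L B σ.symm := fun a ha => by
      have h1 : σ.symm (σ a) = a := σ.symm_apply_apply a
      rwa [hσ a ha] at h1
    ext t
    constructor
    · rintro ⟨c'', ⟨τ, hτ, rfl⟩, h2, h3⟩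
      have e : σ (σ.symm (τ c)) = τ c := σ.apply_symm_apply _
      rw [← e, hKσ σ hσ] at h3
      obtain ⟨u, hu, rfl⟩ := h3
      refine ⟨u, ⟨σ.symm (τ c), ⟨σ.symm.comp τ, fun a ha => ?_, rfl⟩, ?_, hu⟩, rfl⟩
      · show σ.symm (τ a) = a
        rw [hτ a ha, hσ' a ha]
      · rw [hles s σ, e]
        exact h2
    · rintro ⟨u, ⟨c'', ⟨τ, hτ, rfl⟩, h2, h3⟩, rfl⟩
      refine ⟨σ (τ c), ⟨σ.comp τ, fun a ha => ?_, rfl⟩, (hles s σ _ _).1 h2, ?_⟩
      · show σ (τ a) = a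
        rw [hτ a ha, hσ a ha]
      · rw [hKσ σ hσ]
        exact mem_image_of_mem σ h3
  -- definability
  obtain ⟨c₁, hc₁⟩ := (gex B (insert c B) c s (hsub c) hcB).1
  have hfar : ∀ c' ∈ Ge L B c s (insert c B), K c' ⊆ K c := by
    intro c' hc'
    have hne : Orb L B c ≠ {c} := ((thm_NSB L U).2.2.2.2.1 B c x hN).1
    have h1 : ∃ x' ∈ Orb L B x, c ∈ Ge L B c (!s) (insert x' B) ∧
        c' ∈ Ge L B c s (insert x' B) := by
      cases hsv : s
      · rw [hsv] at hc'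
        have h2 : c ∈ Ge L B c' true (insert c' B) := hFFR L U hW B c c' false hB hc'
        obtain ⟨x', hx', h3, h4⟩ := thm_SEP L U hW B c x hB hne c' hc'.1 c h2
        exact ⟨x', hx', h4, h3⟩
      · rw [hsv] at hc'
        obtain ⟨x', hx', h3, h4⟩ := thm_SEP L U hW B c x hB hne c (o1 _ _) c' hc'
        exact ⟨x', hx', h3, h4⟩
    obtain ⟨x', hx', h3, h4⟩ := h1
    have e1 : sg s false = !s := by cases s <;> rfl
    have e2 : sg s true = s := by cases s <;> rfl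
    have h5 : x' ∈ K c := E2 c (o1 _ _) x' ((hTA c (o1 _ _) x' hx' false).1 (by rw [e1]; exact h3))
    have h6 : x' ∉ K c' := E1 c' hc'.1 x' ((hTA c' hc'.1 x' hx' true).1 (by rw [e2]; exact h4))
    intro t ht
    rcases le_or_gt t x' with h7 | h7
    · exact (hKall c (o1 _ _)).1 x' h5 t h7
    · exact absurd ((hKall c' hc'.1).1 t ht x' h7.le) h6
  have hΦeq : Φ c = {t | t ∈ K c ∨ ∃ c', leS s c c' ∧ leS s c' c₁ ∧ t ∈ K c'} := by
    ext t
    constructor
    · rintro ⟨c', hc', h2, h3⟩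
      rcases SGM_total s c' c₁ with h4 | h4
      · exact Or.inr ⟨c', h2, h4, h3⟩
      · exact Or.inl (hfar c' (g7 B (insert c B) c c₁ c' s (hsub c) hcB hc₁ hc' h4) h3)
    · rintro (h2 | ⟨c', h2, h3, h4⟩)
      · exact ⟨c, o1 _ _, SGM_refl s c, h2⟩
      · exact ⟨c', SGM_conn (hC2 B c hB).1 (o1 B c) hc₁.1 h2 h3, h2, h4⟩
  have hdefΦ : (insert c₁ (insert c B)).Definable₁ L (Φ c) := by
    rw [hΦeq]
    have h1 : B.Definable L {w : Fin 3 → U | w 2 ∈ K (w 1) ∨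
        ∃ c', leS s (w 1) c' ∧ leS s c' (w 0) ∧ w 2 ∈ K c'} := by
      refine Dx.or (Dx.rel (R := fun a b => b ∈ K a) hKdf 1 2) ?_
      refine Dx.ex (P := fun w : Fin 4 → U => leS s (w 2) (w 0) ∧ leS s (w 0) (w 1) ∧
        w 3 ∈ K (w 0)) ?_
      exact Dx.and (SGM_dle hW.ord B s 2 0) (Dx.and (SGM_dle hW.ord B s 0 1)
        (Dx.rel (R := fun a b => b ∈ K a) hKdf 0 3))
    have h2 := Dx.par (B := insert c₁ (insert c B)) (b := c₁) (P := fun w : Fin 3 → U =>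
      w 2 ∈ K (w 1) ∨ ∃ c', leS s (w 1) c' ∧ leS s c' (w 0) ∧ w 2 ∈ K c') h1
      ((hsub c).trans (subset_insert _ _)) (mem_insert _ _)
    have h3 := Dx.par (B := insert c₁ (insert c B)) (b := c) (P := fun w : Fin 2 → U =>
      w 1 ∈ K (w 0) ∨ ∃ c', leS s (w 0) c' ∧ leS s c' c₁ ∧ w 1 ∈ K c') h2
      Subset.rfl (mem_insert_of_mem _ (mem_insert _ _))
    exact h3
  obtain ⟨F, hF, hF2⟩ := f6 B (insert c₁ (insert c B)) c Φ hB (hcB.insert c₁) hΦσ hdefΦ
  refine ⟨s, F, hF, ?_⟩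
  have hFΦ : ∀ c' ∈ Orb L B c, F c' = Φ c' := by
    rintro c' ⟨σ, hσ, rfl⟩
    exact hF2 σ hσ
  intro c' hc'
  rw [hFΦ c' hc']
  refine ⟨?_, ?_, ?_, ?_⟩
  · rintro t ⟨c'', hc'', h2, h3⟩ y hy
    exact ⟨c'', hc'', h2, (hKall c'' hc'').1 t h3 y hy⟩
  · obtain ⟨-, ⟨p, hp, hpK⟩, -⟩ := hKall c' hc'
    exact ⟨p, hp, c', hc', SGM_refl s c', hpK⟩
  · obtain ⟨x', hx'⟩ := (gex B (insert c' B) x true (hsub c') (hB.insert c')).1
    refine ⟨x', hx'.1, ?_⟩
    rintro ⟨c'', hc'', h2, h3⟩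
    have e2 : sg s true = s := by cases s <;> rfl
    have h4 := (hTA c' hc' x' hx'.1 true).2 hx'
    rw [e2] at h4
    have h5 := g7 B (insert x' B) c c' c'' s (hsub x') (hB.insert x') h4 hc'' h2
    have h6 := (hTA c'' hc'' x' hx'.1 true).1 (by rw [e2]; exact h5)
    exact E1 c'' hc'' x' h6 h3
  · intro c'' hc'' h2
    rw [hFΦ c'' hc'']
    rintro t ⟨c3, hc3, h3, h4⟩
    exact ⟨c3, hc3, SGM_trans h2 h3, h4⟩

end Pool.Agent.WOM
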