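import Pool.Agent.WOM.StS2
import Pool.Agent.WOM.SDF

/-!
WOM: proof of `St_SHA` (the functions `v`, `w`, flat pieces and jumps are in the class).
-/

set_option autoImplicit false
set_option linter.unusedVariables false

namespace Pool.Agent.WOM

open FirstOrder.Language Set
open scoped FirstOrder

section

variable {L : FirstOrder.Language.{0, 0}} {U : Type} [L.Structure U] [LinearOrder U]

theorem SHA_sub2 {A : Set U} {u v : U → Set U} (hu : DF L A u) (hv : DF L A v) :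
    A.Definable L {w : Fin 2 → U | u (w 0) ⊆ v (w 1)} := by
  have h1 : A.Definable L {w : Fin 3 → U | w 0 ∈ u (w 1) → w 0 ∈ v (w 2)} :=
    Dx.imp (Dx.rel (R := fun x y => y ∈ u x) hu 1 0) (Dx.rel (R := fun x y => y ∈ v x) hv 2 0)
  exact Dx.all (P := fun w : Fin 3 → U => w 0 ∈ u (w 1) → w 0 ∈ v (w 2)) h1

theorem SHA_vv (hord : (∅ : Set U).Definable L {v : Fin 2 → U | v 0 < v 1}) {A : Set U} {a : U}
    {f u : U → Set U} (ha : a ∈ A) (hf : DF L A f) (hu : DF L A u) : DF L A (vv a f u) := by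
  have hc : DF L A (fun x => ext a u (f x)) := df_comp hord ha hu hf
  have h1 : A.Definable L {w : Fin 3 → U | w 2 ≤ w 0 ∧ a ≤ w 0 ∧ w 0 ∈ ext a u (f (w 1)) ∧
      f (w 0) ⊆ ext a u (f (w 1))} :=
    Dx.and (Dx.le hord A 2 0) (Dx.and (df_le_par hord ha 0)
      (Dx.and (Dx.rel (R := fun x y => y ∈ ext a u (f x)) hc 1 0)
        (Dx.rel (R := fun z x => f z ⊆ ext a u (f x)) (SHA_sub2 hf hc) 0 1)))
  exact Dx.or (n := 2) (P := fun w => w 1 ≤ w 0) (Dx.le hord A 1 0)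
    (Dx.ex (P := fun w : Fin 3 → U => w 2 ≤ w 0 ∧ a ≤ w 0 ∧ w 0 ∈ ext a u (f (w 1)) ∧
      f (w 0) ⊆ ext a u (f (w 1))) h1)

theorem SHA_ww (hord : (∅ : Set U).Definable L {v : Fin 2 → U | v 0 < v 1}) {A : Set U} {a : U}
    {f u : U → Set U} (ha : a ∈ A) (hf : DF L A f) (hu : DF L A u) : DF L A (ww a f u) := by
  have hc : DF L A (fun x => ext a f (u x)) := df_comp hord ha hf hu
  have hc' : DF L A (fun x => ext a u (f x)) := df_comp hord ha hu hf
  have h1 : A.Definable L {w : Fin 3 → U | w 2 ≤ w 0 ∧ a ≤ w 0 ∧ w 0 ∈ ext a f (u (w 1)) ∧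
      ¬ ext a f (u (w 1)) ⊆ ext a u (f (w 0))} :=
    Dx.and (Dx.le hord A 2 0) (Dx.and (df_le_par hord ha 0)
      (Dx.and (Dx.rel (R := fun x y => y ∈ ext a f (u x)) hc 1 0)
        (Dx.not (Dx.rel (R := fun x z => ext a f (u x) ⊆ ext a u (f z)) (SHA_sub2 hc hc') 1 0))))
  exact Dx.or (n := 2) (P := fun w => w 1 ≤ w 0) (Dx.le hord A 1 0)
    (Dx.ex (P := fun w : Fin 3 → U => w 2 ≤ w 0 ∧ a ≤ w 0 ∧ w 0 ∈ ext a f (u (w 1)) ∧
      ¬ ext a f (u (w 1)) ⊆ ext a u (f (w 0))) h1)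

theorem SHA_nF (hord : (∅ : Set U).Definable L {v : Fin 2 → U | v 0 < v 1}) {A : Set U} {a : U}
    {u : U → Set U} (ha : a ∈ A) (hu : DF L A u) : DF L A (nF a u) := by
  have h1 : A.Definable L {w : Fin 3 → U | w 2 ≤ w 0 ∧ a ≤ w 0 ∧ w 0 ∈ u (w 1) ∧
      u (w 0) ⊆ u (w 1)} :=
    Dx.and (Dx.le hord A 2 0) (Dx.and (df_le_par hord ha 0)
      (Dx.and (Dx.rel (R := fun x y => y ∈ u x) hu 1 0)
        (Dx.rel (R := fun z x => u z ⊆ u x) (SHA_sub2 hu hu) 0 1)))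
  exact Dx.or (n := 2) (P := fun w => w 1 ≤ w 0) (Dx.le hord A 1 0)
    (Dx.ex (P := fun w : Fin 3 → U => w 2 ≤ w 0 ∧ a ≤ w 0 ∧ w 0 ∈ u (w 1) ∧
      u (w 0) ⊆ u (w 1)) h1)

theorem SHA_nJ (hord : (∅ : Set U).Definable L {v : Fin 2 → U | v 0 < v 1}) {A : Set U} {a : U}
    {u : U → Set U} (ha : a ∈ A) (hu : DF L A u) : DF L A (nJ a u) := by
  have h1 : A.Definable L {w : Fin 3 → U | a ≤ w 0 → w 0 ≤ w 1 → w 1 ∈ u (w 0) →
      w 2 ∈ u (w 0)} :=
    Dx.imp (df_le_par hord ha 0) (Dx.imp (Dx.le hord A 0 1)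
      (Dx.imp (Dx.rel (R := fun x y => y ∈ u x) hu 0 1)
        (Dx.rel (R := fun x y => y ∈ u x) hu 0 2)))
  exact Dx.all (P := fun w : Fin 3 → U => a ≤ w 0 → w 0 ≤ w 1 → w 1 ∈ u (w 0) →
      w 2 ∈ u (w 0)) h1

theorem SHA_ext {a : U} {u : U → Set U} {K K' : Set U} (h : K ⊆ K') : ext a u K ⊆ ext a u K' := by
  rintro t ⟨y, h1, h2, h3⟩
  exact ⟨y, h1, h h2, h3⟩

end

theorem thm_SHA (hSBAS : St_SBAS) (hSEXT : St_SEXT) : St_SHA := by
  intro L U _ _ hW C a g hS B hB hCB u f hu hf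
  obtain ⟨⟨b1, b1'⟩, -, -, b4, -, -, b7, -, -⟩ := hSBAS L U hW C a g hS
  obtain ⟨e1, e2, e3, -⟩ := hSEXT L U hW C a g hS B hB hCB
  have hord := hW.ord
  have haB : a ∈ B := hCB hS.aC
  have hEle : ∀ x y, a ≤ x → x ≤ y → EE a g y → EE a g x := by
    rintro x y hx hxy ⟨_, n, hn⟩
    exact ⟨hx, n, (b1 n).1 y hn x hxy⟩
  have hEbd : ∀ (K : Set U) x, a ≤ x → x ∈ K → Bd a g K → EE a g x := by
    rintro K x hx hxK ⟨n, hn⟩
    exact ⟨hx, n, hn hxK⟩
  have hbase : ∀ (p q : U → Set U), MB L a g B p → MB L a g B q → ∀ x, EE a g x →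
      (∀ t, t ≤ x → t ∈ ext a p (q x)) ∧ Low (ext a p (q x)) ∧ Bd a g (ext a p (q x)) := by
    intro p q hp hq x hx
    have h1 : Low (ext a p (q x)) := e1 p hp.low (q x)
    have h2 : a ∈ q x := hq.low x x (hq.self x) a hx.1
    have h3 : x ∈ ext a p (q x) := e2 p hp (q x) (hq.low x) h2 (hq.self x)
    exact ⟨fun t ht => h1 x h3 t ht, h1, e3 p hp (q x) (hq.low x) (hq.bd x hx)⟩
  -- the function v
  have hv : MB L a g B (vv a f u) := by
    refine ⟨SHA_vv hord haB hf.df hu.df, ?_, fun x => Or.inl le_rfl, ?_, ?_⟩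
    · rintro x t ht s hst
      rcases ht with h | ⟨z, h1, h2⟩
      · exact Or.inl (hst.trans h)
      · exact Or.inr ⟨z, hst.trans h1, h2⟩
    · intro x y hx hy hxy t ht
      have hm : ext a u (f x) ⊆ ext a u (f y) := SHA_ext (hf.mono x y hx hy hxy)
      rcases ht with h | ⟨z, h1, h2, h3, h4⟩
      · exact Or.inl (h.trans hxy)
      · exact Or.inr ⟨z, h1, h2, hm h3, h4.trans hm⟩
    · intro x hx
      obtain ⟨c1, c2, n, c3⟩ := hbase u f hu hf x hx
      refine ⟨n, fun t ht => c3 ?_⟩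
      rcases ht with h | ⟨z, h1, h2, h3, h4⟩
      · exact c1 t h
      · exact c2 z h3 t h1
  have hw : MB L a g B (ww a f u) := by
    refine ⟨SHA_ww hord haB hf.df hu.df, ?_, fun x => Or.inl le_rfl, ?_, ?_⟩
    · rintro x t ht s hst
      rcases ht with h | ⟨z, h1, h2⟩
      · exact Or.inl (hst.trans h)
      · exact Or.inr ⟨z, hst.trans h1, h2⟩
    · intro x y hx hy hxy t ht
      have hm : ext a f (u x) ⊆ ext a f (u y) := SHA_ext (hu.mono x y hx hy hxy)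
      rcases ht with h | ⟨z, h1, h2, h3, h4⟩
      · exact Or.inl (h.trans hxy)
      · exact Or.inr ⟨z, h1, h2, hm h3, fun h5 => h4 (hm.trans h5)⟩
    · intro x hx
      obtain ⟨c1, c2, n, c3⟩ := hbase f u hf hu x hx
      refine ⟨n, fun t ht => c3 ?_⟩
      rcases ht with h | ⟨z, h1, h2, h3, h4⟩
      · exact c1 t h
      · exact c2 z h3 t h1
  have hF : MB L a g B (nF a u) := by
    refine ⟨SHA_nF hord haB hu.df, ?_, fun x => Or.inl le_rfl, ?_, ?_⟩
    · rintro x t ht s hst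
      rcases ht with h | ⟨z, h1, h2⟩
      · exact Or.inl (hst.trans h)
      · exact Or.inr ⟨z, hst.trans h1, h2⟩
    · intro x y hx hy hxy t ht
      have hm : u x ⊆ u y := hu.mono x y hx hy hxy
      rcases ht with h | ⟨z, h1, h2, h3, h4⟩
      · exact Or.inl (h.trans hxy)
      · exact Or.inr ⟨z, h1, h2, hm h3, h4.trans hm⟩
    · intro x hx
      obtain ⟨n, c3⟩ := hu.bd x hx
      refine ⟨n, fun t ht => c3 ?_⟩
      rcases ht with h | ⟨z, h1, h2, h3, h4⟩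
      · exact hu.low x x (hu.self x) t h
      · exact hu.low x z h3 t h1
  have hJ : MB L a g B (nJ a u) := by
    refine ⟨SHA_nJ hord haB hu.df, ?_, fun x z _ _ h => h, ?_, ?_⟩
    · intro x t ht s hst z h1 h2 h3
      exact hu.low z t (ht z h1 h2 h3) s hst
    · intro x y hx hy hxy t ht z h1 h2 h3
      rcases le_or_gt z x with h | h
      · exact ht z h1 h (hu.low z y h3 x hxy)
      · have hz : EE a g z := hEle z y h1 h2 hy
        exact hu.mono x z hx hz h.le (ht x hx.1 le_rfl (hu.self x))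
    · intro x hx
      obtain ⟨n, c3⟩ := hu.bd x hx
      exact ⟨n, fun t ht => c3 (ht x hx.1 le_rfl (hu.self x))⟩
  -- a function which has arbitrarily large fixed cuts is not in `Sp`
  have hnot : ∀ p : U → Set U, MB L a g B p → (∀ x, EE a g x → ext a p (p x) ⊆ p x) →
      ¬ Sp a g p := by
    rintro p hp hfix ⟨m, hm⟩
    obtain ⟨x, hx, hxm⟩ := b4 m
    refine hm (p x) (hp.low x) ?_ (hp.bd x hx) (hfix x hx)
    intro y hy
    have hyx : y ≤ x := by
      by_contra hcon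
      exact hxm ((b1 m).1 y hy x (not_le.1 hcon).le)
    exact hp.low x x (hp.self x) y hyx
  refine ⟨hv, hw, ⟨hF, hnot _ hF ?_⟩, hJ, hnot _ hJ ?_⟩
  · rintro x hx t ⟨z', hz', hz'x, ht⟩
    have hz : ∃ z, z' ≤ z ∧ a ≤ z ∧ z ∈ u x ∧ u z ⊆ u x := by
      rcases hz'x with h | h
      · exact ⟨x, h, hx.1, hu.self x, subset_rfl⟩
      · exact h
    obtain ⟨z, c1, c2, c3, c4⟩ := hz
    have hzE : EE a g z := hEbd _ z c2 c3 (hu.bd x hx)
    have hz'E : EE a g z' := hEle z' z hz' c1 hzE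
    have ht' : t ∈ nF a u z := hF.mono z' z hz'E hzE c1 ht
    rcases ht' with h | ⟨s, d1, d2, d3, d4⟩
    · exact Or.inr ⟨z, h, c2, c3, c4⟩
    · exact Or.inr ⟨s, d1, d2, c4 d3, d4.trans c4⟩
  · rintro y hy t ⟨y', hy', hy'y, ht⟩ z hz hzy hyz
    have h1 : y' ∈ u z := hy'y z hz hzy hyz
    rcases le_or_gt z y' with h | h
    · exact ht z hz h h1
    · have hzE : EE a g z := hEle z y hz hzy hy
      have hy'E : EE a g y' := hEle y' z hy' h.le hzE
      exact hu.mono y' z hy'E hzE h.le (ht y' hy' le_rfl (hu.self y'))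

end Pool.Agent.WOM
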