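import Pool.Agent.WOM.StS6

/-!
WOM, module SPA: an arrow gives an adic type (helper31).
-/

set_option autoImplicit false
set_option linter.unusedVariables false
set_option linter.unusedSectionVars false

namespace Pool.Agent.WOM

open FirstOrder.Language Set
open scoped FirstOrder

section SPA

variable {L : FirstOrder.Language.{0, 0}} {U : Type} [L.Structure U]

/-- a parameter becomes a variable -/
theorem SPA_fib {A : Set U} {x : U} {n : ℕ} {P : (Fin n → U) → Prop}
    (h : (insert x A).Definable L {v : Fin n → U | P v}) :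
    ∃ Q : (Fin (n + 1) → U) → Prop, A.Definable L {w : Fin (n + 1) → U | Q w} ∧
      ∀ v, Q (Fin.cons x v) ↔ P v := by
  classical
  obtain ⟨φ, hφ⟩ := definable_iff_exists_formula_sum.1 h
  let σ : (insert x A : Set U) ⊕ Fin n → A ⊕ Fin (n + 1) :=
    Sum.elim (fun a : (insert x A : Set U) =>
      if ha : (a : U) ∈ A then Sum.inl ⟨a, ha⟩ else Sum.inr 0) fun i => Sum.inr i.succ
  refine ⟨fun w => (φ.relabel σ).Realize (Sum.elim (fun a : A => (a : U)) w),
    definable_iff_exists_formula_sum.2 ⟨φ.relabel σ, rfl⟩, fun v => ?_⟩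
  have h1 : (Sum.elim (fun a : A => (a : U)) (Fin.cons x v)) ∘ σ =
      Sum.elim (fun a : (insert x A : Set U) => (a : U)) v := by
    funext z
    rcases z with z | z
    · by_cases ha : (z : U) ∈ A
      · have h2 : σ (Sum.inl z) = Sum.inl ⟨z, ha⟩ := dif_pos ha
        rw [Function.comp_apply, h2]
        rfl
      · have h2 : σ (Sum.inl z) = Sum.inr 0 := dif_neg ha
        rw [Function.comp_apply, h2]
        have h3 : (z : U) = x := (Set.mem_insert_iff.1 z.2).resolve_right ha
        exact h3.symm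
    · rfl
  have h0 : P v ↔ v ∈ {v : Fin n → U | P v} := Iff.rfl
  rw [h0, hφ]
  show (φ.relabel σ).Realize (Sum.elim (fun a : A => (a : U)) (Fin.cons x v)) ↔ _
  rw [FirstOrder.Language.Formula.realize_relabel, h1]
  rfl

end SPA

theorem thm_SPA (hORB : St_ORB) (hNSB : St_NSB) (hCNV : St_nCNV) (hSFX : St_SFX)
    (hSEZ : St_SEZ) (hSGM : St_SGM) : St_SPA := by
  intro L _ U S _ hW hSc hE
  have hord := hW.ord
  obtain ⟨o1, o2, o3, -, o5, -⟩ := hORB L U hW.mon
  obtain ⟨n1, n2, -⟩ := hNSB L U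
  have hmon := (hCNV L U hW).1
  have hle : ∀ (σ : U ≃[L] U) (x y : U), x ≤ y ↔ σ x ≤ σ y := by
    intro σ x y
    rw [← not_lt, ← not_lt, hmon σ y x]
  have hleS : ∀ (σ : U ≃[L] U) (s : Bool) (x y : U), leS s x y → leS s (σ x) (σ y) := by
    intro σ s x y h
    cases s with
    | true => exact (hle σ x y).1 h
    | false => exact (hle σ y x).1 h
  have core : ∀ (A : Set U) (a a' c : U), A.Finite → a' ∈ Orb L A a → ¬ Nn L A a c → a < a' →
      Orb L (insert a' (insert a A)) c = Orb L A c := by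
    intro A a a' c hA ha' hN hlt
    by_contra hne
    have hBc : Orb L (insert a A) c = Orb L A c := by
      by_contra h
      exact hN h
    have hNn : Nn L (insert a A) a' c := fun h => hne (h.trans hBc)
    obtain ⟨s, F, hF, hFp⟩ := hSGM L U hW (insert a A) a' c (hA.insert a) (n1 _ _ _ hNn)
    rw [hBc] at hFp
    have hpa : ∀ y ∈ Orb L (insert a A) a', a < y := by
      rintro y ⟨g, hg, rfl⟩
      have h := (hmon g a a').1 hlt
      rwa [hg a (Set.mem_insert _ _)] at h
    have hpP : ∀ y ∈ Orb L (insert a A) a', y ∈ Orb L A a := by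
      intro y hy
      have h := o3 A (insert a A) a' (Set.subset_insert _ _) hy
      rwa [o2 A a a' ha'] at h
    obtain ⟨Q, hQ, hQF⟩ := SPA_fib (P := fun v : Fin 2 → U => v 1 ∈ F (v 0)) hF
    have hQ3 : A.Definable L {w : Fin 3 → U | Q ![w 0, w 1, w 2]} := by
      have h : {w : Fin 3 → U | Q ![w 0, w 1, w 2]} = {w : Fin 3 → U | Q w} := by
        ext w
        have h2 : ![w 0, w 1, w 2] = w := by
          funext i
          fin_cases i <;> rfl
        show Q ![w 0, w 1, w 2] ↔ Q w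
        rw [h2]
      rw [h]
      exact hQ
    obtain ⟨H, hHd⟩ : ∃ H : U → U → Set U, H = fun x z => {t | t ≤ x ∨ ∃ u, t ≤ u ∧ Q ![x, z, u]} :=
      ⟨_, rfl⟩
    have hH : A.Definable L {w : Fin 3 → U | w 2 ∈ H (w 0) (w 1)} := by
      rw [hHd]
      exact Dx.or (Dx.le hord A 2 0) (Dx.ex (P := fun w : Fin 4 → U => w 3 ≤ w 0 ∧
        Q ![w 1, w 2, w 0]) (Dx.and (Dx.le hord A 3 0)
          (Dx.rel3 (R := fun x z u => Q ![x, z, u]) hQ3 1 2 0)))
    have hHlow : ∀ x z, Low (H x z) := by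
      intro x z
      rw [hHd]
      rintro t (ht | ⟨u, hu, hq⟩) y hy
      · exact Or.inl (hy.trans ht)
      · exact Or.inr ⟨u, hy.trans hu, hq⟩
    have hHself : ∀ x z, x ∈ H x z := by
      intro x z
      rw [hHd]
      exact Or.inl le_rfl
    have hHa : ∀ z ∈ Orb L A c, H a z = F z := by
      intro z hz
      obtain ⟨hl, ⟨x', hx', hxF⟩, -, -⟩ := hFp z hz
      rw [hHd]
      ext t
      constructor
      · rintro (ht | ⟨u, hu, hq⟩)
        · exact hl x' hxF t (ht.trans (hpa x' hx').le)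
        · exact hl u ((hQF ![z, u]).1 hq) t hu
      · intro ht
        exact Or.inr ⟨t, le_rfl, (hQF ![z, t]).2 ht⟩
    have hinv : ∀ σ : U ≃[L] U, Fx L A σ → ∀ x z, H (σ x) (σ z) = σ '' H x z := fun σ hσ =>
      (hSFX L U hW.mon).2.1 A H σ hH hσ
    have hQin : ∀ σ : U ≃[L] U, Fx L A σ → ∀ x y, y ∈ Orb L A x → σ y ∈ Orb L A x := by
      rintro σ hσ x y ⟨g, hg, rfl⟩
      exact ⟨σ.comp g, fun b hb => by
        rw [FirstOrder.Language.Equiv.comp_apply, hg b hb, hσ b hb], rfl⟩
    have hsym : ∀ σ : U ≃[L] U, Fx L A σ → Fx L A σ.symm := by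
      intro σ hσ b hb
      have h := σ.symm_apply_apply b
      rwa [hσ b hb] at h
    have hmonz : ∀ x ∈ Orb L A a, ∀ z ∈ Orb L A c, ∀ z' ∈ Orb L A c, leS s z z' →
        H x z' ⊆ H x z := by
      rintro x ⟨ρ, hρ, rfl⟩ z hz z' hz' hzz
      have key : ∀ w ∈ Orb L A c, ρ.symm w ∈ Orb L A c ∧ H (ρ a) w = ρ '' F (ρ.symm w) := by
        intro w hw
        have h1 := hQin ρ.symm (hsym ρ hρ) c w hw
        refine ⟨h1, ?_⟩
        rw [← hHa _ h1, ← hinv ρ hρ, ρ.apply_symm_apply]
      rw [(key z' hz').2, (key z hz).2]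
      exact Set.image_mono ((hFp (ρ.symm z) (key z hz).1).2.2.2 (ρ.symm z') (key z' hz').1
        (hleS ρ.symm s z z' hzz))
    have hbd : ∀ z ∈ Orb L A c, ∀ x ∈ Orb L A a, ∃ y ∈ Orb L A a, y ∉ H x z := by
      rintro z hz x ⟨ρ, hρ, rfl⟩
      have h1 := hQin ρ.symm (hsym ρ hρ) c z hz
      obtain ⟨-, -, ⟨x', hx', hxF⟩, -⟩ := hFp (ρ.symm z) h1
      refine ⟨ρ x', hQin ρ hρ a x' (hpP x' hx'), ?_⟩
      intro h
      have h2 : H (ρ a) z = ρ '' F (ρ.symm z) := by
        rw [← hHa _ h1, ← hinv ρ hρ, ρ.apply_symm_apply]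
      rw [h2, ρ.injective.mem_set_image] at h
      exact hxF h
    have hPz : ∀ z ∈ Orb L A c, Orb L (insert z A) a = Orb L A a := by
      intro z hz
      by_contra h
      have h1 : Nn L A z a := h
      refine hN (n2 A a z a c (o1 A a) ?_ (n1 A z a h1))
      rw [o2 A c z hz]
      exact o1 A c
    have hEQ : ∀ z ∈ Orb L A c, ∀ x ∈ Orb L A a, ∀ y, x ≤ y → y ∈ H x z → H y z = H x z := by
      intro z hz x hx y hxy hy
      refine hSEZ L U hW hSc true (insert z A) a (fun x => H x z) (hA.insert z) ?_ ?_ ?_ ?_ ?_ x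
        (by rw [hPz z hz]; exact hx) y hxy hy
      · rw [hPz z hz]
        intro h
        rw [h] at ha'
        exact hlt.ne' ha'
      · exact Dx.par (P := fun w : Fin 3 → U => w 2 ∈ H (w 1) (w 0))
          (Dx.rel3 (R := fun x z u => u ∈ H x z) hH 1 0 2) (Set.subset_insert _ _)
          (Set.mem_insert _ _)
      · intro x
        exact hHlow x z
      · intro x
        exact hHself x z
      · intro x hx
        rw [hPz z hz] at hx ⊢
        exact hbd z hz x hx
    obtain ⟨E, hEd⟩ : ∃ E : U → U → U → Prop, E = fun z x y =>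
      (x ≤ y ∧ y ∈ H x z) ∨ (y ≤ x ∧ x ∈ H y z) := ⟨_, rfl⟩
    have hEdef : A.Definable L {w : Fin 3 → U | E (w 0) (w 1) (w 2)} := by
      rw [hEd]
      exact Dx.or (Dx.and (Dx.le hord A 1 2) (Dx.rel3 (R := fun x z u => u ∈ H x z) hH 1 0 2))
        (Dx.and (Dx.le hord A 2 1) (Dx.rel3 (R := fun x z u => u ∈ H x z) hH 2 0 1))
    have hEeq : ∀ z ∈ Orb L A c, ∀ x ∈ Orb L A a, ∀ y ∈ Orb L A a, E z x y ↔ H x z = H y z := by
      intro z hz x hx y hy
      rw [hEd]
      constructor
      · rintro (⟨h1, h2⟩ | ⟨h1, h2⟩)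
        · exact (hEQ z hz x hx y h1 h2).symm
        · exact hEQ z hz y hy x h1 h2
      · intro h
        rcases le_total x y with h1 | h1
        · refine Or.inl ⟨h1, ?_⟩
          rw [h]
          exact hHself y z
        · refine Or.inr ⟨h1, ?_⟩
          rw [← h]
          exact hHself x z
    have hcmp : ∀ z ∈ Orb L A c, ∀ z' ∈ Orb L A c, leS s z z' →
        ∀ x ∈ Orb L A a, ∀ y ∈ Orb L A a, E z' x y → E z x y := by
      intro z hz z' hz' hzz x hx y hy
      rw [hEd]
      rintro (⟨h1, h2⟩ | ⟨h1, h2⟩)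
      · exact Or.inl ⟨h1, hmonz x hx z hz z' hz' hzz h2⟩
      · exact Or.inr ⟨h1, hmonz y hy z hz z' hz' hzz h2⟩
    have hfin := hE A a c E hA hN hEdef (by
      intro z hz
      refine ⟨?_, ?_, ?_, ?_⟩
      · intro x hx
        exact (hEeq z hz x hx x hx).2 rfl
      · intro x hx y hy h
        exact (hEeq z hz y hy x hx).2 ((hEeq z hz x hx y hy).1 h).symm
      · intro x hx y hy w hw h h'
        exact (hEeq z hz x hx w hw).2
          (((hEeq z hz x hx y hy).1 h).trans ((hEeq z hz y hy w hw).1 h'))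
      · intro x hx y hy w hw hxy hyw h
        have h1 := (hEeq z hz x hx w hw).1 h
        have h2 : y ∈ H x z := by
          rw [h1]
          exact hHlow w z w (hHself w z) y hyw.le
        rw [hEd]
        exact Or.inl ⟨hxy.le, h2⟩) (by
      intro z hz z' hz'
      have htot : leS s z z' ∨ leS s z' z := by
        cases s with
        | true => exact le_total z z'
        | false => exact le_total z' z
      rcases htot with h | h
      · exact Or.inr (hcmp z hz z' hz' h)
      · exact Or.inl (hcmp z' hz' z hz h))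
    obtain ⟨-, ⟨b, hb, hbF⟩, ⟨b', hb', hbF'⟩, -⟩ := hFp c (o1 A c)
    have hbb : b' ∈ Orb L (insert a A) b := by
      rw [o2 _ _ _ hb]
      exact hb'
    obtain ⟨σ, hσ, hσb⟩ := hbb
    have hσA : Fx L A σ := fun x hx => hσ x (Set.mem_insert_of_mem _ hx)
    have hσa : σ a = a := hσ a (Set.mem_insert _ _)
    have hσc := hQin σ hσA c c (o1 A c)
    have h1 : E (σ c) a b' := by
      rw [hEd]
      refine Or.inl ⟨(hpa b' hb').le, ?_⟩
      have h2 := hinv σ hσA a c
      rw [hσa] at h2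
      rw [h2, ← hσb, σ.injective.mem_set_image, hHa c (o1 A c)]
      exact hbF
    have h2 := hfin (σ c) hσc c (o1 A c) a (o1 A a) b' (hpP b' hb') h1
    rw [hEd] at h2
    rcases h2 with ⟨-, h3⟩ | ⟨h3, -⟩
    · rw [hHa c (o1 A c)] at h3
      exact hbF' h3
    · exact absurd (hpa b' hb') (not_lt.2 h3)
  intro A a a' c hA ha' hN
  rcases lt_trichotomy a a' with h | h | h
  · exact core A a a' c hA ha' hN h
  · subst h
    rw [Set.insert_idem]
    by_contra h
    exact hN h
  · rw [Set.insert_comm]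
    have h1 : a ∈ Orb L A a' := by
      rw [o2 A a a' ha']
      exact o1 A a
    exact core A a' a c hA h1 (fun h2 => hN (n2 A a' c a c h1 (o1 A c) h2)) h

end Pool.Agent.WOM
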