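import Pool.Agent.WOM.StS3

/-!
WOM, SHIFT THEOREM, part 3: the regions are not empty (proof of the statement `St_SRE` of
helper41).
-/

set_option autoImplicit false
set_option linter.unusedVariables false

namespace Pool.Agent.WOM

open FirstOrder.Language Set
open scoped FirstOrder

theorem thm_SRE (hSQA : St_SQA) (hSFR : St_SFR) (hSRB : St_SRB) (hSRC : St_SRC) : St_SRE := by
  classical
  intro L U _ _ hW C a g hS
  have key : ∀ n : ℕ, ∀ Fs : Finset U, Fs.card = n → (Fs : Set U) ⊆ QB L a g C →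
      (∀ x ∈ Fs, ∀ y ∈ Fs, x < y → Fr a g x y) →
      ∀ I : Set U, I ⊆ Fs → (∀ x ∈ I, ∀ y ∈ Fs, y < x → y ∈ I) →
        ∃ x ∈ QB L a g C, (∀ y ∈ I, Fr a g y x) ∧ ∀ y ∈ Fs, y ∉ I → Fr a g x y := by
    intro n
    induction n with
    | zero =>
      intro Fs hc hFs hfar I hI hlow
      rw [Finset.card_eq_zero] at hc
      subst hc
      obtain ⟨x, hx⟩ := (hSQA L U hW C a g hS C hS.fin Subset.rfl).1
      refine ⟨x, hx, fun y hy => ?_, fun y hy => ?_⟩
      · exact absurd (hI hy) (by simp)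
      · exact absurd hy (by simp)
    | succ n ih =>
      intro Fs hc hFs hfar I hI hlow
      have hne : Fs.Nonempty := Finset.card_pos.1 (by omega)
      set x₀ := Fs.min' hne with hx₀
      have hx₀F : x₀ ∈ Fs := Finset.min'_mem _ _
      have hlt : ∀ y ∈ Fs, y ≠ x₀ → x₀ < y := fun y hy hyne =>
        lt_of_le_of_ne (Finset.min'_le _ _ hy) (Ne.symm hyne)
      set F' := Fs.erase x₀ with hF'
      have hF'sub : (F' : Set U) ⊆ QB L a g C := fun y hy =>
        hFs (Finset.mem_of_mem_erase hy)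
      have hF'far : ∀ x ∈ (F' : Set U), ∀ y ∈ (F' : Set U), x < y → Fr a g x y :=
        fun x hx y hy h => hfar x (Finset.mem_of_mem_erase hx) y (Finset.mem_of_mem_erase hy) h
      have hBfin : (C ∪ (F' : Set U)).Finite := hS.fin.union F'.finite_toSet
      have hRC := hSRC L U hW C a g hS (F' : Set U) F'.finite_toSet hF'sub hF'far
      have hx₀B : x₀ ∈ QB L a g (C ∪ F') := by
        rw [hRC]
        refine ⟨hFs hx₀F, fun y hy => ?_⟩
        have hy' := Finset.mem_erase.1 hy
        exact hfar x₀ hx₀F y hy'.2 (hlt y hy'.2 hy'.1)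
      by_cases h0 : x₀ ∈ I
      · by_cases h1 : (I \ {x₀}).Nonempty
        · obtain ⟨y₁, hy₁, hy₁ne⟩ := h1
          have hy₁ne' : y₁ ≠ x₀ := hy₁ne
          obtain ⟨x, hx, hxI, hxF⟩ := ih F' (by rw [Finset.card_erase_of_mem hx₀F]; omega) hF'sub
            hF'far (I \ {x₀})
            (fun y hy => Finset.mem_erase.2 ⟨hy.2, hI hy.1⟩)
            (fun x hx y hy hyx => ⟨hlow x hx.1 y (Finset.mem_of_mem_erase hy) hyx,
              (Finset.mem_erase.1 hy).1⟩)
          refine ⟨x, hx, fun y hy => ?_, fun y hy hyI => ?_⟩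
          · by_cases hyx : y = x₀
            · rw [hyx]
              exact (hSFR L U hW C a g hS).2.2.1 x₀ y₁ x
                (hfar x₀ hx₀F y₁ (hI hy₁) (hlt y₁ (hI hy₁) hy₁ne')) (hxI y₁ ⟨hy₁, hy₁ne⟩)
            · exact hxI y ⟨hy, hyx⟩
          · have hyx : y ≠ x₀ := fun h => hyI (by rw [h]; exact h0)
            exact hxF y (Finset.mem_erase.2 ⟨hyx, hy⟩) (fun h => hyI h.1)
        · obtain ⟨x, hx, hxf⟩ := (hSRB L U hW C a g hS (C ∪ F') hBfin subset_union_left x₀
            hx₀B).2.1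
          rw [hRC] at hx
          refine ⟨x, hx.1, fun y hy => ?_, fun y hy hyI => ?_⟩
          · have hyx : y = x₀ := by
              by_contra hne'
              exact h1 ⟨y, hy, hne'⟩
            rw [hyx]
            exact hxf
          · have hyx : y ≠ x₀ := fun h => hyI (by rw [h]; exact h0)
            exact hx.2 y (Finset.mem_erase.2 ⟨hyx, hy⟩)
      · have hIe : ∀ y, y ∉ I := by
          intro y hy
          by_cases hyx : y = x₀
          · exact h0 (by rw [← hyx]; exact hy)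
          · exact h0 (hlow y hy x₀ hx₀F (hlt y (hI hy) hyx))
        have hfin : (C ∪ (Fs : Set U)).Finite := hS.fin.union Fs.finite_toSet
        obtain ⟨x, hx⟩ := (hSQA L U hW C a g hS (C ∪ Fs) hfin subset_union_left).1
        rw [hSRC L U hW C a g hS (Fs : Set U) Fs.finite_toSet hFs hfar] at hx
        exact ⟨x, hx.1, fun y hy => absurd hy (hIe y), fun y hy _ => hx.2 y hy⟩
  intro F hF hFs hfar I hI hlow
  obtain ⟨x, hx, h1, h2⟩ := key hF.toFinset.card hF.toFinset rfl
    (by rw [hF.coe_toFinset]; exact hFs)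
    (fun x hx y hy => hfar x (hF.mem_toFinset.1 hx) y (hF.mem_toFinset.1 hy)) I
    (by rw [hF.coe_toFinset]; exact hI)
    (fun x hx y hy => hlow x hx y (hF.mem_toFinset.1 hy))
  exact ⟨x, hx, h1, fun y hy => h2 y (hF.mem_toFinset.2 hy)⟩

end Pool.Agent.WOM
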