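import Pool.Agent.WOM.StS5
import Pool.Agent.WOM.nFFR

/-!
WOM [STD]: the direction in Lemma T (helper2).
-/

set_option autoImplicit false
set_option linter.unusedVariables false

namespace Pool.Agent.WOM

open FirstOrder.Language Set
open scoped FirstOrder

section

variable {L : FirstOrder.Language.{0, 0}} {U : Type} [L.Structure U] [LinearOrder U]

private theorem STD_trans {t : Bool} {x y z : U} (h : leS t x y) (h' : leS t y z) : leS t x z := by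
  unfold leS at h h' ⊢
  split_ifs at h h' ⊢
  · exact h.trans h'
  · exact h'.trans h

private theorem STD_sd_map (hm : ∀ (σ : U ≃[L] U) (x y : U), x < y ↔ σ x < σ y) (σ : U ≃[L] U)
    {t : Bool} {X Y : Set U} (h : Sd t X Y) : Sd t (σ '' X) (σ '' Y) := by
  rintro _ ⟨w, hw, rfl⟩
  obtain ⟨u, hu, hle⟩ := h w hw
  refine ⟨σ u, ⟨u, hu, rfl⟩, ?_⟩
  unfold leS at hle ⊢
  split_ifs at hle ⊢
  · by_contra hcon
    exact absurd ((hm σ u w).2 (not_le.1 hcon)) (not_lt.2 hle)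
  · by_contra hcon
    exact absurd ((hm σ w u).2 (not_le.1 hcon)) (not_lt.2 hle)

private theorem STD_sd_mono {t : Bool} {X X' Y : Set U} (h : X ⊆ X') (h1 : Sd t X Y) :
    Sd t X' Y := by
  intro w hw
  obtain ⟨u, hu, h2⟩ := h1 w hw
  exact ⟨u, h hu, h2⟩

/-- an unbounded convex subset is a final part -/
private theorem STD_final {t : Bool} {X Y : Set U} (hX : X.OrdConnected) (h : Sd t X Y) {u v : U}
    (hu : u ∈ X) (hv : v ∈ Y) (huv : leS t u v) : v ∈ X := by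
  obtain ⟨w, hw, hle⟩ := h v hv
  unfold leS at huv hle
  split_ifs at huv hle
  · exact hX.out hu hw ⟨huv, hle⟩
  · exact hX.out hw hu ⟨hle, huv⟩

omit [LinearOrder U] in
private theorem STD_fx_symm {A : Set U} {g : U ≃[L] U} (h : Fx L A g) : Fx L A g.symm := by
  intro a ha
  have := h a ha
  calc g.symm a = g.symm (g a) := by rw [this]
    _ = a := g.symm_apply_apply a

/-- invariance of `TZ` -/
private theorem STD_tz (hGER : St_nGER) (hW : Wn L U) {A R : Set U} {σ : U ≃[L] U}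
    (hσ : Fx L A σ) (hR : σ '' R = R) {y x₁ x₂ : U} (h : TZ L A R y x₁ x₂) :
    TZ L A R (σ y) (σ x₁) (σ x₂) := by
  obtain ⟨c, hc, h1, h2⟩ := h
  refine ⟨σ c, ?_, ?_, ?_⟩
  · rw [← hR]
    exact mem_image_of_mem σ hc
  · have h5 := (hGER L U hW).2.2.2.2.1 σ (insert y A) (insert c (insert y A)) x₁ false
    rw [image_insert_eq (s := insert y A), nFFR_insert hσ] at h5
    rw [h5]
    exact mem_image_of_mem σ h1
  · have h5 := (hGER L U hW).2.2.2.2.1 σ (insert y A) (insert c (insert y A)) x₁ true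
    rw [image_insert_eq (s := insert y A), nFFR_insert hσ] at h5
    rw [h5]
    exact mem_image_of_mem σ h2

end

/-- [STD] -/
theorem thm_STD (hORB : St_ORB) (hNSB : St_NSB) (hCNV : St_nCNV) (hGEX : St_nGEX)
    (hGER : St_nGER) (hSMA : St_nSMA) (hSEP : St_SEP) (hSTA : St_STA) : St_STD := by
  intro L U _ _ hW A P Q R hT
  obtain ⟨O1, O2, O3, O4, O5, -, -, -, -⟩ := hORB L U hW.mon
  obtain ⟨C1, C2⟩ := hCNV L U hW
  have E := hGEX L U hW
  obtain ⟨-, -, -, G4, G5, -, -, -⟩ := hGER L U hW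
  obtain ⟨N1, N2, -, -, -, -⟩ := hNSB L U
  obtain ⟨S1, S2, -, -, -, -, -, -, -, S7, -, -⟩ := hSTA L U hW A P Q R hT
  obtain ⟨⟨x₀, hx₀⟩, ⟨y₀, hy₀⟩, ⟨c₀, hc₀⟩⟩ := hT.ne
  have hA := hT.fin
  -- (i)
  have hi : ∀ y ∈ Q, ∀ x₁ ∈ P, ∀ x₂ ∈ P, Sd true (Orb L (insert x₁ (insert y A)) x₂) P →
      TZ L A R y x₁ x₂ := by
    intro y hy x₁ hx₁ x₂ hx₂ hs
    have hP : Orb L (insert y A) x₁ = P := hT.pq y hy x₁ hx₁
    have hfar : Far L (insert y A) x₁ x₂ := by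
      show x₂ ∈ Ge L (insert y A) x₁ true (insert x₁ (insert y A))
      refine ⟨?_, ?_⟩
      · rw [hP]
        exact hx₂
      · rw [hP]
        exact hs
    obtain ⟨c, hc, h1, h2⟩ := hSEP L U hW (insert y A) x₁ c₀ (hA.insert y)
      (by rw [hP]; exact S7 x₁ hx₁) x₁ (O1 _ _) x₂ hfar
    rw [hT.rq y hy c₀ hc₀] at hc
    exact ⟨c, hc, h1, h2⟩
  -- (ii)
  have hii : ∀ x₁ ∈ P, ∀ x₂ ∈ P, Sd true (Orb L (insert x₁ A) x₂) P → ∃ t : Bool, ∀ y ∈ Q,
      y ∈ Ge L (insert x₁ A) y t (insert x₂ (insert x₁ A)) → TZ L A R y x₁ x₂ := by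
    intro x₁ hx₁ x₂ hx₂ hs
    have hQ : Orb L (insert x₁ A) y₀ = Q := hT.qp x₁ hx₁ y₀ hy₀
    by_cases hN : Nn L (insert x₁ A) x₂ y₀
    · obtain ⟨e, -, he, -⟩ := hSMA L U hW (insert x₁ A) x₂ y₀ (hA.insert _) hN
      refine ⟨!e, fun y hy hge => ?_⟩
      have hyQ : y ∈ Orb L (insert x₁ A) y₀ := by
        rw [hQ]
        exact hy
      have hge' : y ∈ Ge L (insert x₁ A) y₀ (!e) (insert x₂ (insert x₁ A)) := by
        rw [← G4 (insert x₁ A) (insert x₂ (insert x₁ A)) y₀ y (!e) hyQ]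
        exact hge
      have h1 := he (!e) x₂ (O1 _ _) y hge'
      have h2 : (!(sg e (!e))) = true := by cases e <;> rfl
      rw [h2] at h1
      have h3 : Sd true (Orb L (insert y (insert x₁ A)) x₂) (Orb L (insert x₁ A) x₂) := h1.2
      apply hi y hy x₁ hx₁ x₂ hx₂
      rw [insert_comm]
      intro w hw
      obtain ⟨u, hu, hle⟩ := hs w hw
      obtain ⟨v, hv, hle2⟩ := h3 u hu
      exact ⟨v, hv, STD_trans hle hle2⟩
    · refine ⟨true, fun y hy _ => ?_⟩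
      apply hi y hy x₁ hx₁ x₂ hx₂
      have h1 : ¬ Nn L (insert x₁ A) y x₂ := by
        intro h
        apply hN
        refine N2 (insert x₁ A) x₂ y x₂ y₀ (O1 _ _) ?_ (N1 _ _ _ h)
        rw [hT.qp x₁ hx₁ y hy]
        exact hy₀
      have h2 : Orb L (insert y (insert x₁ A)) x₂ = Orb L (insert x₁ A) x₂ := not_not.1 h1
      rw [insert_comm, h2]
      exact hs
  -- existence of far elements
  have hex : ∀ t : Bool, ∀ z ∈ P, ∃ u ∈ P, ¬ leS t u z ∧ Sd t (Orb L (insert z A) u) P := by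
    intro t z hz
    have hP : Orb L (insert y₀ A) z = P := hT.pq y₀ hy₀ z hz
    obtain ⟨u, hu⟩ := (E (insert y₀ A) (insert z (insert y₀ A)) z t (subset_insert _ _)
      ((hA.insert _).insert _)).1
    refine ⟨u, ?_, ?_, ?_⟩
    · rw [← hP]
      exact hu.1
    · exact nFFR_strict hORB hGER hCNV hW (hA.insert y₀) (by rw [hP]; exact S7 z hz) hu
    · have h1 := hu.2
      rw [hP] at h1
      exact STD_sd_mono (O3 _ _ _ (insert_subset_insert (subset_insert _ _))) h1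
  -- the last orbit is unique
  have hlast : ∀ (t : Bool) (z : U), ∀ u ∈ P, ∀ v ∈ P, Sd t (Orb L (insert z A) u) P →
      Sd t (Orb L (insert z A) v) P → v ∈ Orb L (insert z A) u := by
    intro t z u hu v hv h1 h2
    rcases nFFR_le_total t u v with h | h
    · exact STD_final (C2 _ _ (hA.insert z)).1 h1 (O1 _ _) hv h
    · have h3 := STD_final (C2 _ _ (hA.insert z)).1 h2 (O1 _ _) hu h
      rw [O2 _ _ _ h3]
      exact O1 _ _
  -- conjugation
  have hsd : ∀ (t : Bool) (σ : U ≃[L] U), Fx L A σ → σ '' P = P → ∀ z u : U,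
      Sd t (Orb L (insert z A) u) P → Sd t (Orb L (insert (σ z) A) (σ u)) P := by
    intro t σ hσ hP z u h
    have h1 := STD_sd_map C1 σ h
    rw [hP, ← O4, nFFR_insert hσ] at h1
    exact h1
  -- (iii)
  have hconj : ∀ x₁ ∈ P, ∀ x₂ ∈ P, Sd true (Orb L (insert x₁ A) x₂) P → ∀ x₁' ∈ P, ∀ x₂' ∈ P,
      Sd true (Orb L (insert x₁' A) x₂') P →
      ∃ σ : U ≃[L] U, Fx L A σ ∧ σ x₁ = x₁' ∧ σ x₂ = x₂' := by
    intro x₁ hx₁ x₂ hx₂ hs x₁' hx₁' x₂' hx₂' hs'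
    obtain ⟨σ, hσ, hσ1, -⟩ := S2 x₁ hx₁ y₀ hy₀ x₁' hx₁' y₀ hy₀
    have hP := (S1 σ hσ (Or.inl ⟨x₁, hx₁, by rw [hσ1]; exact hx₁'⟩)).1
    have h1 := hsd true σ hσ hP x₁ x₂ hs
    rw [hσ1] at h1
    have h2 : σ x₂ ∈ P := by
      rw [← hP]
      exact mem_image_of_mem σ hx₂
    obtain ⟨τ, hτ, hτ1⟩ := hlast true x₁' (σ x₂) h2 x₂' hx₂' h1 hs'
    refine ⟨τ.comp σ, nFFR_comp hσ (fun a ha => hτ a (mem_insert_of_mem _ ha)), ?_, ?_⟩
    · rw [FirstOrder.Language.Equiv.comp_apply, hσ1]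
      exact hτ _ (mem_insert _ _)
    · rw [FirstOrder.Language.Equiv.comp_apply, hτ1]
  -- (iv)
  have hiv : ∀ x₁ ∈ P, ∀ x₂ ∈ P, Sd false (Orb L (insert x₂ A) x₁) P →
      Sd true (Orb L (insert x₁ A) x₂) P := by
    intro x₁ hx₁ s₀ hs₀ hs
    obtain ⟨s₁, hs₁, hlt, hsd1⟩ := hex false s₀ hs₀
    have hlt' : s₁ < s₀ := by
      unfold leS at hlt
      simpa using hlt
    obtain ⟨s₁', hs₁', hlt1, hsd2⟩ := hex true s₀ hs₀
    have hlt1' : s₀ < s₁' := by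
      unfold leS at hlt1
      simpa using hlt1
    obtain ⟨σ, hσ, hσ1, -⟩ := S2 s₁' hs₁' y₀ hy₀ s₁ hs₁ y₀ hy₀
    have hP := (S1 σ hσ (Or.inl ⟨s₁', hs₁', by rw [hσ1]; exact hs₁⟩)).1
    have hw : σ s₀ ∈ P := by
      rw [← hP]
      exact mem_image_of_mem σ hs₀
    have hws : σ s₀ < s₁ := by
      rw [← hσ1]
      exact (C1 σ _ _).1 hlt1'
    have hsd3 := hsd true σ hσ hP s₀ s₁' hsd2
    rw [hσ1] at hsd3
    -- `w = σ s₀` is in the first orbit over `s₀`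
    have h1 : σ s₀ ∈ Orb L (insert s₀ A) s₁ :=
      STD_final (C2 _ _ (hA.insert s₀)).1 hsd1 (O1 _ _) hw (by simpa [leS] using hws.le)
    have h2 : s₀ ∈ Orb L (insert (σ s₀) A) s₁ :=
      STD_final (C2 _ _ (hA.insert (σ s₀))).1 hsd3 (O1 _ _) hs₀ (by simpa [leS] using hlt'.le)
    have h3 : Sd true (Orb L (insert (σ s₀) A) s₀) P := by
      rw [O2 _ _ _ h2]
      exact hsd3
    have h4 : Sd false (Orb L (insert s₀ A) (σ s₀)) P := by
      rw [O2 _ _ _ h1]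
      exact hsd1
    obtain ⟨τ, hτ, hτ1⟩ := hlast false s₀ (σ s₀) hw x₁ hx₁ h4 hs
    have hτA : Fx L A τ := fun a ha => hτ a (mem_insert_of_mem _ ha)
    have hτs : τ s₀ = s₀ := hτ _ (mem_insert _ _)
    have hP' := (S1 τ hτA (Or.inl ⟨s₀, hs₀, by rw [hτs]; exact hs₀⟩)).1
    have h5 := hsd true τ hτA hP' (σ s₀) s₀ h3
    rw [hτ1, hτs] at h5
    exact h5
  -- assembly
  obtain ⟨u₀, hu₀, -, hsd0⟩ := hex true x₀ hx₀
  obtain ⟨t, ht⟩ := hii x₀ hx₀ u₀ hu₀ hsd0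
  have hTD : TD L A P Q R t := by
    intro x₁ hx₁ x₂ hx₂ hs y hy hge
    obtain ⟨σ, hσ, hσ1, hσ2⟩ := hconj x₁ hx₁ x₂ hx₂ hs x₀ hx₀ u₀ hu₀ hsd0
    obtain ⟨hP, hQ, hR⟩ := S1 σ hσ (Or.inl ⟨x₁, hx₁, by rw [hσ1]; exact hx₀⟩)
    have hyQ : σ y ∈ Q := by
      rw [← hQ]
      exact mem_image_of_mem σ hy
    have h5 := G5 σ (insert x₁ A) (insert x₂ (insert x₁ A)) y t
    rw [image_insert_eq (s := insert x₁ A), nFFR_insert hσ, hσ1, hσ2] at h5
    have h6 : σ y ∈ Ge L (insert x₀ A) (σ y) t (insert u₀ (insert x₀ A)) := by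
      rw [h5]
      exact mem_image_of_mem σ hge
    have h7 := ht (σ y) hyQ h6
    rw [← hσ1, ← hσ2] at h7
    have hσ' : Fx L A σ.symm := STD_fx_symm hσ
    have hR' : σ.symm '' R = R := by
      ext z
      constructor
      · rintro ⟨w, hw, rfl⟩
        rw [← hR] at hw
        obtain ⟨v, hv, rfl⟩ := hw
        rw [σ.symm_apply_apply]
        exact hv
      · intro hz
        refine ⟨σ z, ?_, σ.symm_apply_apply z⟩
        rw [← hR]
        exact mem_image_of_mem σ hz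
    have h8 := STD_tz hGER hW hσ' hR' h7
    rw [σ.symm_apply_apply, σ.symm_apply_apply, σ.symm_apply_apply] at h8
    exact h8
  refine ⟨t, hTD, ?_⟩
  intro x₁ hx₁ x₂ hx₂ hs y hy hge
  exact hTD x₁ hx₁ x₂ hx₂ (hiv x₁ hx₁ x₂ hx₂ hs) y hy hge

end Pool.Agent.WOM
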