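import Pool.Agent.WOM.StS5
import Pool.Agent.WOM.NSB
import Pool.Agent.WOM.nTRA
import Pool.Agent.WOM.nEVD
import Pool.Agent.WOM.nGEX
import Pool.Agent.WOM.nGER
import Pool.Agent.WOM.nCNV
import Pool.Agent.WOM.ORB
import Pool.Agent.WOM.DFN
import Pool.Agent.WOM.DEF1
import Pool.Agent.WOM.DEFF

/-!
WOM: proof of `St_STN` (without adic types weak orthogonality persists), helper37.
-/

set_option autoImplicit false
set_option linter.unusedVariables false

namespace Pool.Agent.WOM

open FirstOrder.Language Set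
open scoped FirstOrder

section

variable {L : FirstOrder.Language.{0, 0}} {U : Type} [L.Structure U] [LinearOrder U]

/-- one half of the symmetric claim -/
private theorem STN_half (hNSB : St_NSB) (hTRA : St_nTRA) (hORB : St_ORB) (hW : Wn L U)
    (hH : ∀ (A : Set U) (a a' c : U), A.Finite → a' ∈ Orb L A a → ¬ Nn L A a c →
      Orb L (insert a' (insert a A)) c = Orb L A c)
    {A : Set U} {a c d : U} (hA : A.Finite) (hac : ¬ Nn L A a c) (hdc : ¬ Nn L A d c)
    (hn : Nn L (insert d A) a c) {x : U} (hx : x ∈ Orb L A a) :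
    Orb L (insert x (insert a A)) d = Orb L (insert a A) d := by
  have h1 : Orb L (insert a A) c = Orb L A c := not_not.1 hac
  have h2 : Orb L (insert d A) c = Orb L A c := not_not.1 hdc
  have h3 : ¬ Nn L (insert a A) x c := fun h => h ((hH A a x c hA hx hac).trans h1.symm)
  have h4 : Nn L (insert a A) d c := by
    intro h
    apply hn
    show Orb L (insert a (insert d A)) c = Orb L (insert d A) c
    rw [h2, insert_comm, h, h1]
  by_contra h5
  exact h3 (hTRA L U hW (insert a A) x d c (hA.insert a) h5 h4)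

/-- the symmetric claim -/
private theorem STN_claim (hNSB : St_NSB) (hTRA : St_nTRA) (hORB : St_ORB) (hW : Wn L U)
    (hH : ∀ (A : Set U) (a a' c : U), A.Finite → a' ∈ Orb L A a → ¬ Nn L A a c →
      Orb L (insert a' (insert a A)) c = Orb L A c)
    {A : Set U} {a c d : U} (hA : A.Finite) (hac : ¬ Nn L A a c) (hdc : ¬ Nn L A d c)
    (hn : Nn L (insert d A) a c) {x : U} (hx : x ∈ Orb L (insert d A) a) :
    Orb L (insert x A) d = Orb L (insert a A) d := by
  obtain ⟨o1, o2, o3, -⟩ := hORB L U hW.mon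
  obtain ⟨n1, n2, -⟩ := hNSB L U
  have hxA : x ∈ Orb L A a := o3 A (insert d A) a (subset_insert d A) hx
  have haA : a ∈ Orb L A x := by
    rw [o2 A a x hxA]
    exact o1 A a
  have hxc : ¬ Nn L A x c := fun h => hac (n2 A x c a c haA (o1 A c) h)
  have hxn : Nn L (insert d A) x c := n2 (insert d A) a c x c hx (o1 _ c) hn
  have e1 := STN_half hNSB hTRA hORB hW hH hA hac hdc hn hxA
  have e2 := STN_half hNSB hTRA hORB hW hH hA hxc hdc hxn haA
  rw [← e2, insert_comm, e1]

/-- the situation of the lemma of the three types -/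
private theorem STN_TC (hNSB : St_NSB) (hTRA : St_nTRA) (hORB : St_ORB) (hW : Wn L U)
    (hH : ∀ (A : Set U) (a a' c : U), A.Finite → a' ∈ Orb L A a → ¬ Nn L A a c →
      Orb L (insert a' (insert a A)) c = Orb L A c)
    {A : Set U} {a c d : U} (hA : A.Finite) (hac : ¬ Nn L A a c) (hdc : ¬ Nn L A d c)
    (hn : Nn L (insert d A) a c) :
    TC L A (Orb L (insert d A) a) (Orb L (insert a A) d) (Orb L A c) := by
  obtain ⟨o1, o2, o3, -⟩ := hORB L U hW.mon
  obtain ⟨n1, n2, -⟩ := hNSB L U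
  have hn' : Nn L (insert a A) d c := by
    have h1 : Orb L (insert a A) c = Orb L A c := not_not.1 hac
    have h2 : Orb L (insert d A) c = Orb L A c := not_not.1 hdc
    intro h
    apply hn
    show Orb L (insert a (insert d A)) c = Orb L (insert d A) c
    rw [h2, insert_comm, h, h1]
  refine ⟨hA, ⟨⟨a, o1 _ a⟩, ⟨d, o1 _ d⟩, ⟨c, o1 _ c⟩⟩, ?_, ?_, ?_, ?_, ?_, ?_⟩
  · intro y hy x hx
    have e1 : Orb L (insert y A) a = Orb L (insert d A) a :=
      STN_claim hNSB hTRA hORB hW hH hA hdc hac hn' hy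
    rw [← e1] at hx ⊢
    exact o2 _ _ _ hx
  · intro x hx y hy
    have e1 : Orb L (insert x A) d = Orb L (insert a A) d :=
      STN_claim hNSB hTRA hORB hW hH hA hac hdc hn hx
    rw [← e1] at hy ⊢
    exact o2 _ _ _ hy
  · intro c' hc'
    exact o2 _ _ _ hc'
  · intro x hx c' hc'
    have hxA : x ∈ Orb L A a := o3 A (insert d A) a (subset_insert d A) hx
    have h1 : ¬ Nn L A x c' := fun h => hac (n2 A x c' a c (by
      rw [o2 A a x hxA]; exact o1 A a) (by rw [o2 A c c' hc']; exact o1 A c) h)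
    exact (not_not.1 h1).trans (o2 _ _ _ hc')
  · intro y hy c' hc'
    have hyA : y ∈ Orb L A d := o3 A (insert a A) d (subset_insert a A) hy
    have h1 : ¬ Nn L A y c' := fun h => hdc (n2 A y c' d c (by
      rw [o2 A d y hyA]; exact o1 A d) (by rw [o2 A c c' hc']; exact o1 A c) h)
    exact (not_not.1 h1).trans (o2 _ _ _ hc')
  · exact ⟨a, o1 _ a, d, o1 _ d, c, o1 _ c, n1 _ _ _ hn⟩

end

theorem thm_STN (hSTT : St_STT) : St_STN := by
  have hORB : St_ORB := thm_ORB (thm_DEF1 thm_DEFF)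
  have hCNV : St_nCNV := thm_nCNV hORB
  have hGEX : St_nGEX := thm_nGEX thm_DFN hORB hCNV thm_nEVD
  have hGER : St_nGER := thm_nGER hORB hCNV hGEX
  have hNSB : St_NSB := thm_NSB
  have hTRA : St_nTRA := thm_nTRA hORB hNSB hGEX hGER
  intro L _ U S _ hW hS hH A a c d hA hac hn
  obtain ⟨n1, n2, -⟩ := hNSB L U
  by_cases hdc : Nn L A d c
  · have hda : ¬ Nn L A d a := fun h => hac (hTRA L U hW A a d c hA (n1 _ _ _ h) hdc)
    exact hSTT L U hW hS A _ _ _ (STN_TC hNSB hTRA hORB hW hH hA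
      (fun h => hac (n1 _ _ _ h)) hda (n1 _ _ _ hn))
  · exact hSTT L U hW hS A _ _ _ (STN_TC hNSB hTRA hORB hW hH hA hac hdc hn)

end Pool.Agent.WOM
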