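import Pool.Agent.WOM.NAM
import Pool.Agent.WOM.FASE
import Pool.Agent.WOM.nSMB
import Pool.Agent.WOM.nSDI
import Pool.Agent.WOM.nISO
import Pool.Agent.WOM.nTRA
import Pool.Agent.WOM.SCUT
import Pool.Agent.WOM.SBAS
import Pool.Agent.WOM.SEXT
import Pool.Agent.WOM.SEV
import Pool.Agent.WOM.SMOD
import Pool.Agent.WOM.SIT
import Pool.Agent.WOM.SCA
import Pool.Agent.WOM.SEXR
import Pool.Agent.WOM.SLP
import Pool.Agent.WOM.SDA
import Pool.Agent.WOM.SDB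
import Pool.Agent.WOM.SDC
import Pool.Agent.WOM.SHA
import Pool.Agent.WOM.SHB
import Pool.Agent.WOM.SHC
import Pool.Agent.WOM.SHD
import Pool.Agent.WOM.SHE
import Pool.Agent.WOM.SHF
import Pool.Agent.WOM.SHG
import Pool.Agent.WOM.SHH
import Pool.Agent.WOM.SHI
import Pool.Agent.WOM.SHK
import Pool.Agent.WOM.SFX
import Pool.Agent.WOM.SQA
import Pool.Agent.WOM.SQC
import Pool.Agent.WOM.SKD
import Pool.Agent.WOM.SFR
import Pool.Agent.WOM.SRB
import Pool.Agent.WOM.SRC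
import Pool.Agent.WOM.SRD
import Pool.Agent.WOM.SRE
import Pool.Agent.WOM.SRF
import Pool.Agent.WOM.SRQ
import Pool.Agent.WOM.SAT
import Pool.Agent.WOM.SMM
import Pool.Agent.WOM.SMJ
import Pool.Agent.WOM.SLE
import Pool.Agent.WOM.SNO
import Pool.Agent.WOM.SNS
import Pool.Agent.WOM.SEA
import Pool.Agent.WOM.SEB
import Pool.Agent.WOM.SEH
import Pool.Agent.WOM.SEQ
import Pool.Agent.WOM.SDL
import Pool.Agent.WOM.SEZ
import Pool.Agent.WOM.SEP
import Pool.Agent.WOM.STA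
import Pool.Agent.WOM.STO
import Pool.Agent.WOM.STD
import Pool.Agent.WOM.STF
import Pool.Agent.WOM.STG
import Pool.Agent.WOM.STH
import Pool.Agent.WOM.STT
import Pool.Agent.WOM.STN
import Pool.Agent.WOM.SGM
import Pool.Agent.WOM.SPA
import Pool.Agent.WOM.SWN
import Pool.Agent.WOM.SRW

/-!
WOM: assembly, Vaught's conjecture for weakly o-minimal theories without adic types (helper41).
-/

set_option autoImplicit false

namespace Pool.Agent.WOM

open FirstOrder.Language Set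
open scoped FirstOrder

theorem thm_NAE : St_NAE := by
  have hDEF1 := thm_DEF1 thm_DEFF
  have hORB := thm_ORB hDEF1
  have hDFN := thm_DFN
  have hNSB := thm_NSB
  have hnCNV := thm_nCNV hORB
  have hnEVD := thm_nEVD
  have hnGEX := thm_nGEX hDFN hORB hnCNV hnEVD
  have hnGER := thm_nGER hORB hnCNV hnGEX
  have hnFFR := thm_nFFR hORB hnCNV hnGEX hnGER
  have hnTRA := thm_nTRA hORB hNSB hnGEX hnGER
  have hnSMA := thm_nSMA hORB hNSB hnGEX hnGER hnFFR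
  have hnSMB := thm_nSMB hDFN hORB hnCNV hnGEX hnGER
  have hnSDI := thm_nSDI hDFN hORB hnCNV
  have hnISO := thm_nISO hNSB hnSMA hnSMB hnSDI
  have hnFAR := thm_nFAR hORB hnCNV hnGEX hnGER hnFFR
  have hAUT : ∀ (L : FirstOrder.Language.{0, 0}) (U : Type) [L.Structure U], St_AUT L U :=
    fun L U _ => thm_AUT thm_DEFF hDEF1 L U
  have hCPL : ∀ (L : FirstOrder.Language.{0, 0}) (U : Type) [L.Structure U], St_CPL L U :=
    fun L U _ => thm_CPL hAUT L U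
  have hSCUT := thm_SCUT hORB hnCNV
  have hSBAS := thm_SBAS
  have hSEXT := thm_SEXT hSBAS
  have hSEV := thm_SEV hSBAS
  have hSMOD := thm_SMOD
  have hSIT := thm_SIT hSBAS hSEXT
  have hSCA := thm_SCA hSEV
  have hSEXR := thm_SEXR hSBAS hSEXT
  have hSLP := thm_SLP hSBAS hSEXT hSEV hSIT
  have hSDA := thm_SDA hSBAS hSEXT hSEV hSEXR
  have hSDB := thm_SDB hSBAS hSEV hSEXR hSDA
  have hSDC := thm_SDC hSBAS hSEXT hSEV hSCA hSDB
  have hSHA := thm_SHA hSBAS hSEXT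
  have hSHB := thm_SHB hSBAS hSEXT hSLP
  have hSHC := thm_SHC hSBAS hSEXT hSEXR hSHA
  have hSHD := thm_SHD hSBAS hSEXT hSEV hSHA hSHB
  have hSHE := thm_SHE hSBAS hSEXT
  have hSHF := thm_SHF hSBAS hSEXR hSHE
  have hSHG := thm_SHG hSBAS hSEXR
  have hSHH := thm_SHH hSBAS hSEXT hSEV hSEXR hSIT hSHF hSHG
  have hSHI := thm_SHI hSBAS hSEXT hSCA hSEXR hSIT hSHA hSHE hSHH
  have hSHK := thm_SHK hSBAS hSEXT hSEV hSDC hSHC hSHD hSHI
  have hSFX := thm_SFX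
  have hSQA := thm_SQA hORB hSBAS hSEV hSFX
  have hSQC := thm_SQC hORB hSBAS hSEXT hSQA
  have hSKD := thm_SKD hSBAS hSQA hSQC hSHK
  have hSFR := thm_SFR hSFX
  have hSRB := thm_SRB hSCUT hSBAS hSEXT hSFX hSQA hSQC hSKD hSFR
  have hSRC := thm_SRC hSRB hSFR
  have hSRD := thm_SRD hORB hSCUT hSBAS hSQA hSFR hSRC
  have hSRE := thm_SRE hSQA hSFR hSRB hSRC
  have hSRF := thm_SRF hSBAS hSEXT hSQA hSQC hSFR hSRC hSRD
  have hSRQ := thm_SRQ hSRE
  have hSAT := thm_SAT hORB hnSDI hnISO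
  have hSMM := thm_SMM hSAT
  have hSMJ := thm_SMJ hSRF hSMM
  have hSLE := thm_SLE hSFR hSQA
  have hSNO := thm_SNO hSRQ hSMJ hSLE
  have hSNS := thm_SNS hSNO
  have hSEA := thm_SEA hSFX hnCNV
  have hSEB := thm_SEB hORB hnCNV hnGEX hnFAR
  have hSEH := thm_SEH hnCNV hnEVD hnGEX hnFFR hnFAR hORB hSEA hSEB
  have hSEQ := thm_SEQ hSEA hSEB hSEH
  have hSDL := thm_SDL
  have hSEZ := thm_SEZ hSNS hSEQ hSDL
  have hSEP := thm_SEP
  have hSTA := thm_STA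
  have hSTO := thm_STO hnGER hnSMA hSTA
  have hSTD := thm_STD hORB hNSB hnCNV hnGEX hnGER hnSMA hSEP hSTA
  have hSTF := thm_STF hORB hnCNV hSFX hnGEX hnGER hnFFR hnFAR hSCUT hSEP hSTA
  have hSTG := thm_STG hSEP hSTA
  have hSTH := thm_STH hORB hSFX hnGEX hnGER hnFFR hnFAR hSTA hSTF hSTG hSEZ
  have hSTT := thm_STT hSTO hSTD hSTH hSDL
  have hSTN := thm_STN hSTT
  have hSGM := thm_SGM
  have hSPA := thm_SPA hORB hNSB hnCNV hSFX hSEZ hSGM
  have hSWN := thm_SWN hAUT hCPL hSPA hSTN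
  have hSRW := thm_SRW
  exact thm_FASE (thm_ULT hDEF1) (thm_SUBM hDEF1) (thm_HOMG hDEF1) (thm_TRC (thm_EMB hDEF1))
    hSRW hSWN thm_SML (thm_SCU (thm_PULL hDEF1)) thm_MSB thm_CRE'

end Pool.Agent.WOM
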