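import Pool.Agent.WOM.StC

/-!
WOM: proof of `St_CDN` (helper33).
-/

set_option autoImplicit false
set_option linter.unusedVariables false

namespace Pool.Agent.WOM

open FirstOrder.Language Set
open scoped FirstOrder

/-- the class of `gr ρ` is not that of a germ with base `insert b C`, if `b` and `ρ (x 0)` are far
from each other -/
theorem CDN_aux (hORB : St_ORB) (hGEX : St_GEX) (hGER : St_GER) (hFFR : St_FFR) (hFAR : St_FAR)
    (hEQG : St_EQG) (hKAP : St_KAP)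
    (L : FirstOrder.Language.{0, 0}) (U : Type) [L.Structure U] [LinearOrder U] (hW : Wm L U)
    (C : Set U) (m : ℕ) (x : Fin (m + 1) → U) (z : U) (s : Bool) (hN : NCx L C x z s)
    (ρ : U ≃[L] U) (hρ : Fx L C ρ) (b : U) (hb : b ∈ Orb L C (x 0))
    (hfar : Far L C b (ρ (x 0)) ∨ Far L C (ρ (x 0)) b)
    (δ : Gm U) (hδ : δ.1 = insert b C) (hE : Eqg L δ (gr L C x z s ρ)) : False := by
  classical
  obtain ⟨kA, kB, kC, kD, kE, kF⟩ := hKAP L U hW C m x z s hN
  obtain ⟨o1, o2, o3, o4, o5, o6, o7, o8, o9⟩ := hORB L U hW.mon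
  obtain ⟨g1, g2, g3, g4, g5, g6, g7, g8⟩ := hGER L U hW
  obtain ⟨q1, q2, q3, q4, q5, q6, q7, q8⟩ := hEQG L U hW
  obtain ⟨f1, f2, f3, f4, f5, f6, f7, f8⟩ := hFAR L U hW C (x 0) hN.fin kC
  set a : U := ρ (x 0) with ha
  have hCf : C.Finite := hN.fin
  have hCb : C ⊆ insert b C := subset_insert _ _
  have hbf : (insert b C).Finite := hCf.insert b
  have hCa : C ⊆ insert a (insert b C) := fun u hu => mem_insert_of_mem _ (mem_insert_of_mem _ hu)
  have hba : insert b C ⊆ insert a (insert b C) := subset_insert _ _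
  have haf : (insert a (insert b C)).Finite := hbf.insert a
  have hap : a ∈ Orb L C (x 0) := ⟨ρ, hρ, rfl⟩
  -- the invariance step
  have key : ∀ τ : U ≃[L] U, Fx L (insert b C) τ → Eqg L (gr L C x z s ρ) (gr L C x z s (τ.comp ρ)) := by
    intro τ hτ
    have h1 : Eqg L (mg L τ δ) (mg L τ (gr L C x z s ρ)) := q3 τ _ _ hE
    rw [kE τ ρ] at h1
    have hτ' : Fx L δ.1 τ := by rw [hδ]; exact hτ
    obtain ⟨h2, h3⟩ := q8 τ δ hτ'
    have h4 : Eqg L δ (gr L C x z s (τ.comp ρ)) := by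
      intro D hD hD1 hD2 u hu v hv
      refine h1 D hD (by rw [h2]; exact hD1) hD2 u (by rw [h3]; exact hu) v hv
    exact q2 _ _ _ (by rw [hδ]; exact hbf) (q1 _ _ hE) h4
  have hcomp : ∀ τ : U ≃[L] U, Fx L (insert b C) τ → Fx L C (τ.comp ρ) := by
    intro τ hτ u hu
    have : (τ.comp ρ) u = τ (ρ u) := rfl
    rw [this, hρ u hu]
    exact hτ u (hCb hu)
  rcases hfar with h | h
  · -- `a` is in the last orbit over `b, C`
    have ha1 : a ∈ Ge L C b true (insert b C) := h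
    obtain ⟨hne, -⟩ := hGEX L U hW C (insert a (insert b C)) b true hCa haf
    obtain ⟨a', ha'⟩ := hne
    have ha'1 : a' ∈ Ge L C b true (insert b C) := g2 C _ _ b true hCb hba haf ha'
    have heq := (hGEX L U hW C (insert b C) b true hCb hbf).2 a ha1
    rw [heq] at ha'1
    obtain ⟨τ, hτ, hτa⟩ := ha'1
    have hfa : Far L C a a' := by
      refine (f6 a hap (insert a (insert b C)) hCa haf (mem_insert _ _)).1 a' ?_
      rw [← g4 C (insert a (insert b C)) (x 0) b true hb]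
      exact ha'
    refine kB ρ (τ.comp ρ) hρ (hcomp τ hτ) ?_ (key τ hτ)
    have : (τ.comp ρ) (x 0) = a' := by
      have h5 : (τ.comp ρ) (x 0) = τ (ρ (x 0)) := rfl
      rw [h5, ← ha, hτa]
    rw [this]
    exact hfa
  · -- `a` is in the first orbit over `b, C`
    have ha1 : a ∈ Ge L C b false (insert b C) := hFFR L U hW C a b true hCf h
    obtain ⟨hne, -⟩ := hGEX L U hW C (insert a (insert b C)) b false hCa haf
    obtain ⟨a', ha'⟩ := hne
    have ha'1 : a' ∈ Ge L C b false (insert b C) := g2 C _ _ b false hCb hba haf ha'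
    have heq := (hGEX L U hW C (insert b C) b false hCb hbf).2 a ha1
    rw [heq] at ha'1
    obtain ⟨τ, hτ, hτa⟩ := ha'1
    have hfa : Far L C a' a := by
      refine (f6 a hap (insert a (insert b C)) hCa haf (mem_insert _ _)).2 a' ?_
      rw [← g4 C (insert a (insert b C)) (x 0) b false hb]
      exact ha'
    refine kB (τ.comp ρ) ρ (hcomp τ hτ) hρ ?_ (q1 _ _ (key τ hτ))
    have : (τ.comp ρ) (x 0) = a' := by
      have h5 : (τ.comp ρ) (x 0) = τ (ρ (x 0)) := rfl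
      rw [h5, ← ha, hτa]
    rw [this]
    exact hfa

theorem thm_CDN (hORB : St_ORB) (hNSB : St_NSB) (hCNV : St_CNV) (hGEX : St_GEX) (hGER : St_GER)
    (hFFR : St_FFR) (hSDI : St_SDI) (hFAR : St_FAR) (hEQG : St_EQG) (hSMG : St_SMG)
    (hUNG : St_UNG) (hKAP : St_KAP) : St_CDN := by
  classical
  intro L U _ _ hW C m x z s hN c M hV hM hcM hUn hGP y hy y' hy' hyp hyp' hyy hfars
  obtain ⟨kA, kB, kC, kD, kE, kF⟩ := hKAP L U hW C m x z s hN
  obtain ⟨o1, o2, o3, o4, o5, o6, o7, o8, o9⟩ := hORB L U hW.mon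
  obtain ⟨n1, n2, n3, n4, n5, n6⟩ := hNSB L U
  obtain ⟨g1, g2, g3, g4, g5, g6, g7, g8⟩ := hGER L U hW
  obtain ⟨q1, q2, q3, q4, q5, q6, q7, q8⟩ := hEQG L U hW
  obtain ⟨d1, d2, d3, d4, d5⟩ := hSDI L U hW
  obtain ⟨f1, f2, f3, f4, f5, f6, f7, f8⟩ := hFAR L U hW C (x 0) hN.fin kC
  have hCf : C.Finite := hN.fin
  by_contra hno
  push Not at hno
  set G : Set U := {u | u ∈ Orb L C (x 0) ∧ Far L C y u ∧ Far L C u y'} with hG
  have hpc : (Orb L C (x 0)).OrdConnected := ((hCNV L U hW).2 C (x 0) hCf).1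
  have hGc : G.OrdConnected := by
    constructor
    intro a ha b hb u hu
    have hup : u ∈ Orb L C (x 0) := hpc.out ha.1 hb.1 hu
    exact ⟨hup, f2 y hyp a ha.1 u hup ha.2.1 hu.1, f3 u hup b hb.1 y' hyp' hu.2 hb.2.2⟩
  have hGn : G.Nonempty := by
    obtain ⟨_, v, hv, h1, h2⟩ := f8 y hyp y' hyy
    exact ⟨v, hv, h1, h2⟩
  have hGM : G ∩ M = ∅ := by
    rw [eq_empty_iff_forall_notMem]
    rintro u ⟨hu, huM⟩
    exact hno u huM hu.1 hu.2.1 hu.2.2
  have hGinv : ∀ D : Set U, C ⊆ D → y ∈ D → y' ∈ D → ∀ u ∈ G, Orb L D u ⊆ G := by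
    rintro D hCD hyD hy'D u hu v ⟨g, hg, rfl⟩
    have hgC : Fx L C g := fun a ha => hg a (hCD ha)
    refine ⟨?_, ?_, ?_⟩
    · have : g u ∈ Orb L C u := ⟨g, hgC, rfl⟩
      rwa [o2 C (x 0) u hu.1] at this
    · have := (f5 y u g hgC).2 hu.2.1
      rwa [hg y hyD] at this
    · have := (f5 u y' g hgC).2 hu.2.2
      rwa [hg y' hy'D] at this
  set D₀ : Set U := insert y (insert y' c.D) with hD₀
  have hD₀f : D₀.Finite := (hV.vd.fin.insert y').insert y
  have hD₀M : D₀ ⊆ M := by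
    intro u hu
    rcases hu with rfl | rfl | hu
    · exact hy
    · exact hy'
    · exact hcM hu
  have hcD₀ : c.D ⊆ D₀ := fun u hu => mem_insert_of_mem _ (mem_insert_of_mem _ hu)
  have hCD₀ : C ⊆ D₀ := hV.CD.trans hcD₀
  have hyD₀ : y ∈ D₀ := mem_insert _ _
  have hy'D₀ : y' ∈ D₀ := mem_insert_of_mem _ (mem_insert _ _)
  obtain ⟨D, hDf, hD₀D, hDM, hDu, hDt⟩ :=
    hUNG L U hW M G D₀ hM hGc hGn hGM hD₀f hD₀M (hGinv D₀ hCD₀ hyD₀ hy'D₀)
  obtain ⟨w, hwG, hwS, hwO⟩ := hDt false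
  have hOG : Orb L D w ⊆ G :=
    hGinv D (hCD₀.trans hD₀D) (hD₀D hyD₀) (hD₀D hy'D₀) w hwG
  have hwis : ¬ Isd L D w := by
    intro h
    obtain ⟨u, hu, huM⟩ := hM (Orb L D w) (Set.Definable.mono h hDM) ⟨w, o1 D w⟩
    have : u ∈ G ∩ M := ⟨hOG hu, huM⟩
    rw [hGM] at this
    exact this
  have hτ : ∃ τ : Bool, ¬ SD L D w τ := by
    by_contra hcon
    push Not at hcon
    exact hwis ((d1 D w hDf).2 ⟨hcon true, hcon false⟩)
  obtain ⟨τ, hτ⟩ := hτ
  have hgp : ∃ D' : Set U, D'.Finite ∧ D ⊆ D' ∧ c.D ⊆ D' ∧ D' ⊆ M ∧ ∃ i ∈ c.I,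
      ∀ u ∈ Ge L D w τ D', Nn L D' u (c.w i) := by
    rcases hGP D w τ hDf hDM with h | h
    · exfalso
      obtain ⟨u, hu, huM⟩ := h D hDf Subset.rfl hDM
      have : u ∈ G ∩ M := ⟨hOG hu.1, huM⟩
      rw [hGM] at this
      exact this
    · exact h
  obtain ⟨D', hD'f, hDD', hcD', hD'M, i, hi, hnn⟩ := hgp
  have hOw : Orb L D' w = Orb L D w := hDu w hwG D' hD'f hDD' hD'M
  have hleS : ∀ (t : Bool) (u : U), leS t u u := by
    intro t u
    unfold leS
    split_ifs <;> exact le_rfl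
  have hwn : Nn L D' w (c.w i) := by
    refine hnn w ⟨o1 D w, ?_⟩
    intro v hv
    exact ⟨v, by rw [hOw]; exact hv, hleS τ v⟩
  obtain ⟨e, he⟩ := hSMG L U hW D' (c.w i) w hD'f (n1 _ _ _ hwn)
  obtain ⟨he1, he2⟩ := he s
  -- the base of the germ
  set ρ : U ≃[L] U := c.r i with hρ
  have hρC : Fx L C ρ := hV.fx i hi
  have hbase : (gr L C x z s ρ).1 ⊆ c.D := by
    rintro u ⟨v, hv, rfl⟩
    rcases hv with hv | ⟨j, rfl⟩
    · rw [hρC v hv]
      exact hV.CD hv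
    · exact hV.rg i hi j
  have hge : c.w i ∈ gs L (gr L C x z s ρ) c.D := hV.ge i hi
  have hOc : Orb L D' (c.w i) = Orb L c.D (c.w i) := hUn i hi D' hD'f hcD' hD'M
  have hnsd1 : ¬ SD L c.D (c.w i) s := by
    intro h
    exact (kF ρ).2 ((d2 (gr L C x z s ρ).1 c.D (gr L C x z s ρ).2.1 (c.w i) s hbase hV.vd.fin hge).1 h)
  have hnsd2 : ¬ SD L D' (c.w i) s := by
    intro h
    exact hnsd1 (((d3 c.D D' (c.w i) hcD' hD'f hOc).2 s).1 h)
  have hnsd3 : ¬ SD L D' w (sg e s) := fun h => hnsd2 (he2.2 h)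
  have hnsd4 : ¬ SD L D w (sg e s) := fun h => hnsd3 (((d3 D D' w hDD' hD'f hOw).2 _).2 h)
  -- `gr ρ` is equivalent to `(D', w, sg e s)`
  have hE0 : Eqg L (gr L C x z s ρ) ((D', w, sg e s) : Gm U) := by
    have h1 := (q5 c.D D' (c.w i) s ((D', w, sg e s) : Gm U) hcD' hD'f hD'f hOc).1 he1
    exact ((q4 (gr L C x z s ρ) c.D (c.w i) hV.vd.fin hbase hge).2 _ hD'f).1 h1
  have hCD' : C ⊆ D' := hV.CD.trans hcD'
  have hyD' : y ∈ D' := hDD' (hD₀D hyD₀)
  have hy'D' : y' ∈ D' := hDD' (hD₀D hy'D₀)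
  have hyw : Far L C y w := hwG.2.1
  have hwy' : Far L C w y' := hwG.2.2
  -- reduction to a germ with a small base
  have hred : ∀ (b : U) (t : Bool), b ∈ D' → t = sg e s →
      w ∈ Ge L (insert b C) w t D' → Eqg L ((insert b C, w, t) : Gm U) (gr L C x z s ρ) := by
    intro b t hbD' ht hw
    have hsub : (insert b C) ⊆ D' := insert_subset hbD' hCD'
    have h1 : Eqg L ((D', w, t) : Gm U) (gr L C x z s ρ) := by
      rw [ht]
      exact q1 _ _ hE0
    exact ((q4 ((insert b C, w, t) : Gm U) D' w hD'f hsub hw).2 _ (kF ρ).1).1 h1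
  rcases Bool.eq_false_or_eq_true (sg e s) with hs | hs
  · -- right side
    rw [hs] at hnsd4
    have hOG' : Orb L D w = G := by
      rcases hwO with h | h
      · exact h
      · exact absurd h hnsd4
    have hw1 : w ∈ Ge L C y' false (insert y' C) := hFFR L U hW C w y' true hCf hwy'
    have hw2 := (hGEX L U hW C (insert y' C) y' false (subset_insert _ _) (hCf.insert _)).2 w hw1
    refine CDN_aux hORB hGEX hGER hFFR hFAR hEQG hKAP L U hW C m x z s hN ρ hρC y' hyp'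
      (hfars i hi).2 ((insert y' C, w, true) : Gm U) rfl (hred y' true hy'D' hs.symm ?_)
    refine ⟨o1 _ _, ?_⟩
    intro v hv
    rw [← hw2] at hv
    have hvy' : Far L C v y' := hFFR L U hW C y' v false hCf hv
    have hvp : v ∈ Orb L C (x 0) := by
      have := hv.1
      rwa [o2 C (x 0) y' hyp'] at this
    by_cases hyv : Far L C y v
    · refine ⟨v, ?_, hleS true v⟩
      rw [hOw, hOG']
      exact ⟨hvp, hyv, hvy'⟩
    · refine ⟨w, o1 _ _, ?_⟩
      have : ¬ w ≤ v := fun h => hyv (f2 y hyp w hwG.1 v hvp hyw h)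
      simpa [leS] using (not_le.1 this).le
  · -- left side
    have hw1 : w ∈ Ge L C y true (insert y C) := hyw
    have hw2 := (hGEX L U hW C (insert y C) y true (subset_insert _ _) (hCf.insert _)).2 w hw1
    refine CDN_aux hORB hGEX hGER hFFR hFAR hEQG hKAP L U hW C m x z s hN ρ hρC y hyp
      (hfars i hi).1 ((insert y C, w, false) : Gm U) rfl (hred y false hyD' hs.symm ?_)
    refine ⟨o1 _ _, ?_⟩
    intro v hv
    rw [← hw2] at hv
    have hyv : Far L C y v := hv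
    have hvp : v ∈ Orb L C (x 0) := by
      have := hv.1
      rwa [o2 C (x 0) y hyp] at this
    by_cases hvy' : Far L C v y'
    · obtain ⟨u, hu, huv⟩ := hwS v ⟨hvp, hyv, hvy'⟩
      exact ⟨u, by rw [hOw]; exact hu, huv⟩
    · refine ⟨w, o1 _ _, ?_⟩
      have : ¬ v ≤ w := fun h => hvy' (f3 v hvp w hwG.1 y' hyp' h hwy')
      simpa [leS] using (not_le.1 this).le

end Pool.Agent.WOM
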