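import Pool.Agent.WOM.StC

/-! WOM: module CLI, closedness depends only on the class of the germ (helper89). -/

set_option autoImplicit false

namespace Pool.Agent.WOM

open FirstOrder.Language Set
open scoped FirstOrder

theorem thm_CLI (hORB : St_ORB) (hNSB : St_NSB) (hCNV : St_CNV) (hGEX : St_GEX) (hGER : St_GER)
    (hLTW : St_LTW) : St_CLI := by
  intro L U _ _ hW M g h hM hgM hhM hhf hgh hcl
  obtain ⟨o1, o2, o3, -, -, -, -, -, -⟩ := hORB L U hW.mon
  obtain ⟨n1, -, -, -, -, -⟩ := hNSB L U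
  obtain ⟨-, hcv⟩ := hCNV L U hW
  have hgx := hGEX L U hW
  obtain ⟨-, g2, -, -, -, -, -, -⟩ := hGER L U hW
  have hlt := hLTW L U hW
  obtain ⟨D₀, hD₀f, hgD₀, hD₀M, hD₀⟩ := hcl
  by_contra hcon
  unfold Clo at hcon
  push Not at hcon
  obtain ⟨D, hD⟩ : ∃ D : Set U, D = D₀ ∪ h.1 := ⟨_, rfl⟩
  have hDf : D.Finite := by rw [hD]; exact hD₀f.union hhf
  have hDM : D ⊆ M := by rw [hD]; exact union_subset hD₀M hhM
  have hD₀D : D₀ ⊆ D := by rw [hD]; exact subset_union_left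
  have hhD : h.1 ⊆ D := by rw [hD]; exact subset_union_right
  have hgD : g.1 ⊆ D := hgD₀.trans hD₀D
  have hDe : gs L g D ∩ M = ∅ := by
    apply subset_empty_iff.1
    rw [← hD₀]
    exact inter_subset_inter_left M (g2 g.1 D₀ D g.2.1 g.2.2 hgD₀ hD₀D hDf)
  obtain ⟨y₁, hy₁, hy₁M⟩ := hcon D hDf hhD hDM
  obtain ⟨D', hD'⟩ : ∃ D' : Set U, D' = insert y₁ D := ⟨_, rfl⟩
  have hDD' : D ⊆ D' := by rw [hD']; exact subset_insert _ _
  have hD'f : D'.Finite := by rw [hD']; exact hDf.insert _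
  have hD'M : D' ⊆ M := by rw [hD']; exact insert_subset hy₁M hDM
  obtain ⟨y₂, hy₂, hy₂M⟩ := hcon D' hD'f (hhD.trans hDD') hD'M
  obtain ⟨D'', hD''⟩ : ∃ D'' : Set U, D'' = insert y₂ D' := ⟨_, rfl⟩
  have hD'D'' : D' ⊆ D'' := by rw [hD'']; exact subset_insert _ _
  have hD''f : D''.Finite := by rw [hD'']; exact hD'f.insert _
  have hD''M : D'' ⊆ M := by rw [hD'']; exact insert_subset hy₂M hD'M
  -- the point `u`
  obtain ⟨u, hu⟩ := (hgx g.1 D' g.2.1 g.2.2 (hgD.trans hDD') hD'f).1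
  have huD : u ∈ gs L g D := g2 g.1 D D' g.2.1 g.2.2 hgD hDD' hD'f hu
  have hp : gs L g D = Orb L D u := (hgx g.1 D g.2.1 g.2.2 hgD hDf).2 u huD
  have k1 : Orb L D' u ≠ Orb L D u := by
    have h1 := n1 D u y₁ (hgh D hDf hgD hhD u huD y₁ hy₁)
    unfold Nn at h1
    rwa [← hD'] at h1
  have k2 : Orb L D'' u ≠ Orb L D' u := by
    have h1 := n1 D' u y₂ (hgh D' hD'f (hgD.trans hDD') (hhD.trans hDD') u hu y₂ hy₂)
    unfold Nn at h1
    rwa [← hD''] at h1
  obtain ⟨b, hb, hb'⟩ : ∃ b ∈ Orb L D u, b ∉ Orb L D' u := by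
    by_contra h1
    push Not at h1
    exact k1 (Subset.antisymm (o3 D D' u hDD') h1)
  obtain ⟨a, ha, ha'⟩ : ∃ a ∈ Orb L D' u, a ∉ Orb L D'' u := by
    by_contra h1
    push Not at h1
    exact k2 (Subset.antisymm (o3 D' D'' u hD'D'') h1)
  have sym : ∀ (E : Set U) (x y : U), y ∈ Orb L E x → x ∈ Orb L E y := by
    intro E x y hxy
    rw [o2 E x y hxy]
    exact o1 E x
  have e1 : a ∉ Orb L D'' u := ha'
  have e2 : u ∉ Orb L D'' a := fun h1 => e1 (sym _ _ _ h1)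
  have e3 : b ∉ Orb L D'' u := fun h1 => hb' (o3 D' D'' u hD'D'' h1)
  have e4 : u ∉ Orb L D'' b := fun h1 => e3 (sym _ _ _ h1)
  have e5 : b ∉ Orb L D'' a := by
    intro h1
    apply hb'
    have h2 := o3 D' D'' a hD'D'' h1
    rwa [o2 D' u a ha] at h2
  have e6 : a ∉ Orb L D'' b := fun h1 => e5 (sym _ _ _ h1)
  have hap : a ∈ Orb L D u := o3 D D' u hDD' ha
  have hup : u ∈ Orb L D u := o1 D u
  have key : ∀ x ∈ Orb L D u, ∀ y ∈ Orb L D u, ∀ z ∈ Orb L D u, x < y → y < z →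
      y ∈ Orb L D'' x ∨ z ∈ Orb L D'' y := fun x hx y hy z hz hxy hyz =>
    hlt M (Orb L D u) D'' hM (hcv D u hDf).1 (by rw [← hp]; exact hDe) hD''f hD''M x hx y hy z hz
      hxy hyz
  have n12 : u ≠ a := fun h1 => e1 (h1 ▸ o1 D'' u)
  have n13 : u ≠ b := fun h1 => e3 (h1 ▸ o1 D'' u)
  have n23 : a ≠ b := fun h1 => e5 (h1 ▸ o1 D'' a)
  rcases lt_or_gt_of_ne n12 with h12 | h12
  · rcases lt_or_gt_of_ne n23 with h23 | h23
    · rcases key u hup a hap b hb h12 h23 with h1 | h1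
      · exact e1 h1
      · exact e5 h1
    · rcases lt_or_gt_of_ne n13 with h13 | h13
      · rcases key u hup b hb a hap h13 h23 with h1 | h1
        · exact e3 h1
        · exact e6 h1
      · rcases key b hb u hup a hap h13 h12 with h1 | h1
        · exact e4 h1
        · exact e1 h1
  · rcases lt_or_gt_of_ne n13 with h13 | h13
    · rcases key a hap u hup b hb h12 h13 with h1 | h1
      · exact e2 h1
      · exact e3 h1
    · rcases lt_or_gt_of_ne n23 with h23 | h23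
      · rcases key a hap b hb u hup h23 h13 with h1 | h1
        · exact e5 h1
        · exact e4 h1
      · rcases key b hb a hap u hup h23 h12 with h1 | h1
        · exact e6 h1
        · exact e2 h1

end Pool.Agent.WOM
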