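import Pool.Agent.WOM.StC

/-!
WOM [COR]: the other coordinates exist in the model (helper11).
-/

set_option autoImplicit false
set_option linter.unusedVariables false

namespace Pool.Agent.WOM

open FirstOrder.Language Set
open scoped FirstOrder

private theorem cor_mgcomp (L : FirstOrder.Language.{0, 0}) {U : Type} [L.Structure U]
    (σ ρ : U ≃[L] U) (g : Gm U) : mg L σ (mg L ρ g) = mg L (σ.comp ρ) g := by
  unfold mg
  simp only [Prod.mk.injEq]
  refine ⟨?_, rfl, trivial⟩
  rw [← Set.image_comp]
  rfl

theorem thm_COR (hORB : St_ORB) (hGEX : St_GEX) (hGER : St_GER) (hSDI : St_SDI) (hEQG : St_EQG)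
    (hSMG : St_SMG) (hGAM : St_GAM) (hKAP : St_KAP) : St_COR := by
  intro L U _ _ hW C m x z s hN c M hV hM hcM hUnc hGP a haM haO
  obtain ⟨-, -, -, -, -, o6, -, -, -⟩ := hORB L U hW.mon
  have oself := (hORB L U hW.mon).1
  obtain ⟨q1, q2, q3, q4, q5, q6, q7, q8⟩ := hEQG L U hW
  obtain ⟨d1, d2, d3, d4, d5⟩ := hSDI L U hW
  obtain ⟨-, -, -, -, -, g6, -, -⟩ := hGER L U hW
  obtain ⟨-, -, -, kd, -, -⟩ := hKAP L U hW C m x z s hN
  have hgam := hGAM L U hW C m x z s hN
  have key : ∀ t : ℕ, t ≤ m → ∃ ρ : U ≃[L] U, Fx L C ρ ∧ ρ (x 0) = a ∧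
      ∀ j : Fin (m + 1), (j : ℕ) ≤ t → ρ (x j) ∈ M := by
    intro t
    induction t with
    | zero =>
      intro _
      obtain ⟨g, hg, hga⟩ := haO
      refine ⟨g, hg, hga, fun j hj => ?_⟩
      have : j = 0 := by
        apply Fin.ext
        simpa using hj
      rw [this, hga]
      exact haM
    | succ n ih =>
      intro hn
      obtain ⟨ρ, hρ, hρa, hρM⟩ := ih (by omega)
      let t : Fin m := ⟨n, by omega⟩
      have hbsfin : (bs C x t).Finite := hN.fin.union ((Set.toFinite _).image _)
      have hBM : ρ '' (bs C x t) ⊆ M := by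
        rintro _ ⟨y, hy, rfl⟩
        rcases hy with hy | ⟨j, hj, rfl⟩
        · rw [hρ y hy]
          exact hcM (hV.CD hy)
        · apply hρM
          have : (j : ℕ) ≤ (t.castSucc : ℕ) := hj
          simpa using this
      have hBfin : (ρ '' (bs C x t)).Finite := hbsfin.image _
      -- a point of the model in the orbit is enough
      have fin1 : ∀ b ∈ M, b ∈ Orb L (ρ '' (bs C x t)) (ρ (x t.succ)) →
          ∃ ρ' : U ≃[L] U, Fx L C ρ' ∧ ρ' (x 0) = a ∧
            ∀ j : Fin (m + 1), (j : ℕ) ≤ n + 1 → ρ' (x j) ∈ M := by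
        rintro b hbM ⟨τ, hτ, hτb⟩
        have hfix : ∀ y ∈ bs C x t, τ (ρ y) = ρ y := fun y hy => hτ _ ⟨y, hy, rfl⟩
        have hx : ∀ j : Fin (m + 1), (j : ℕ) ≤ n → x j ∈ bs C x t := by
          intro j hj
          refine Or.inr ⟨j, ?_, rfl⟩
          show (j : ℕ) ≤ (t.castSucc : ℕ)
          simpa using hj
        refine ⟨τ.comp ρ, ?_, ?_, ?_⟩
        · intro y hy
          show τ (ρ y) = y
          rw [hfix y (Or.inl hy), hρ y hy]
        · show τ (ρ (x 0)) = a
          rw [hfix _ (hx 0 (by simp)), hρa]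
        · intro j hj
          show τ (ρ (x j)) ∈ M
          by_cases hj2 : (j : ℕ) ≤ n
          · rw [hfix _ (hx j hj2)]
            exact hρM j hj2
          · have : j = t.succ := by
              apply Fin.ext
              simp only [Fin.val_succ]
              show (j : ℕ) = n + 1
              omega
            rw [this, hτb]
            exact hbM
      by_cases hI : Isd L (ρ '' (bs C x t)) (ρ (x t.succ))
      · have hdef : M.Definable₁ L (Orb L (ρ '' (bs C x t)) (ρ (x t.succ))) :=
          Set.Definable.mono hI hBM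
        obtain ⟨b, hb1, hb2⟩ := hM _ hdef ⟨_, oself _ _⟩
        exact fin1 b hb2 hb1
      · have hex : ∃ τ : Bool, ¬ SD L (ρ '' (bs C x t)) (ρ (x t.succ)) τ := by
          by_contra hcon
          push Not at hcon
          exact hI ((d1 _ _ hBfin).2 ⟨hcon true, hcon false⟩)
        obtain ⟨τ, hτ⟩ := hex
        rcases hGP (ρ '' (bs C x t)) (ρ (x t.succ)) τ hBfin hBM with hop | ⟨D', hD'f, hBD', hcD', hD'M, i, hi, hnn⟩
        · obtain ⟨b, hb1, hb2⟩ := hop _ hBfin subset_rfl hBM
          rw [g6] at hb1
          exact fin1 b hb2 hb1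
        · exfalso
          obtain ⟨u, hu⟩ := (hGEX L U hW (ρ '' (bs C x t)) D' (ρ (x t.succ)) τ hBD' hD'f).1
          obtain ⟨e, he⟩ := hSMG L U hW D' u (c.w i) hD'f (hnn u hu)
          have h1 := (he τ).1
          have hcf : c.D.Finite := hV.vd.fin
          -- the germ h
          let h : Gm U := (ρ '' (bs C x t), ρ (x t.succ), τ)
          have h2 : Eqg L h ((D', c.w i, sg e τ) : Gm U) :=
            ((q4 h D' u hD'f hBD' hu).2 _ hD'f).1 h1
          have h3 : Eqg L ((c.D, c.w i, sg e τ) : Gm U) h :=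
            (q5 c.D D' (c.w i) (sg e τ) h hcD' hD'f hBfin (hUnc i hi D' hD'f hcD' hD'M)).1
              (q1 _ _ h2)
          let g1 : Gm U := (bs C x t, x t.succ, τ)
          have hg1h : mg L ρ g1 = h := rfl
          have hsd : ¬ SD L (bs C x t) (x t.succ) τ := by
            intro hc
            exact hτ (((d4 ρ (bs C x t) (x t.succ)).2 τ).2 hc)
          have hg := hgam t τ hsd
          have h4 : Eqg L g1 h := hg ρ hρ
          by_cases hs : sg e τ = s
          · -- same side
            rw [hs] at h3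
            have hbase : (gr L C x z s (c.r i)).1 ⊆ c.D := by
              rintro _ ⟨y, hy, rfl⟩
              rcases hy with hy | ⟨j, rfl⟩
              · show c.r i y ∈ c.D
                rw [hV.fx i hi y hy]
                exact hV.CD hy
              · exact hV.rg i hi j
            have h5 : Eqg L (gr L C x z s (c.r i)) h :=
              ((q4 (gr L C x z s (c.r i)) c.D (c.w i) hcf hbase (hV.ge i hi)).2 h hBfin).1 h3
            refine kd h hBfin ?_ (c.r i) (hV.fx i hi) h5
            intro σ hσ
            have h6 : Eqg L g1 (mg L (σ.comp ρ) g1) := by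
              apply hg
              intro y hy
              show σ (ρ y) = y
              rw [hρ y hy, hσ y hy]
            rw [← hg1h, cor_mgcomp]
            exact q2 _ g1 _ hbsfin (q1 _ _ h4) h6
          · have hs' : sg e τ = !s := by
              revert hs
              cases sg e τ <;> cases s <;> simp
            rw [hs'] at h3
            exact hV.bf i hi t τ hsd (q2 _ h _ hBfin h4 (q1 _ _ h3))
  obtain ⟨ρ, h1, h2, h3⟩ := key m le_rfl
  exact ⟨ρ, h1, h2, fun j => h3 j (by omega)⟩

end Pool.Agent.WOM
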