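import Pool.Agent.WOM.StB

/-! WOM: module CPL (helper35). -/

set_option autoImplicit false

namespace Pool.Agent.WOM

open FirstOrder.Language Set
open scoped FirstOrder

section
variable {L : FirstOrder.Language.{0, 0}} {U : Type} [L.Structure U]

private theorem CPL_compl {A : Set U} {s : Set U} (h : A.Definable₁ L s) : A.Definable₁ L sᶜ :=
  Set.Definable.compl h

private theorem CPL_mono {A B : Set U} (hAB : A ⊆ B) {s : Set U} (h : A.Definable₁ L s) :
    B.Definable₁ L s :=
  Set.Definable.mono h hAB

private theorem CPL_univ (A : Set U) : A.Definable₁ L (univ : Set U) :=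
  Set.definable_univ (α := Fin 1)

private theorem CPL_inter {A : Set U} {s t : Set U} (h : A.Definable₁ L s)
    (h' : A.Definable₁ L t) : A.Definable₁ L (s ∩ t) :=
  Set.Definable.inter h h'

private theorem CPL_sInter {A : Set U} {G : Set (Set U)} (hG : G.Finite)
    (h : ∀ s ∈ G, A.Definable₁ L s) : A.Definable₁ L (⋂₀ G) := by
  induction G, hG using Set.Finite.induction_on with
  | empty =>
    rw [sInter_empty]
    exact CPL_univ A
  | insert _ _ ih =>
    rw [sInter_insert]
    exact CPL_inter (h _ (mem_insert _ _)) (ih fun s hs => h s (mem_insert_of_mem _ hs))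

end

theorem thm_CPL (h1 : ∀ (L : FirstOrder.Language.{0, 0}) (U : Type) [L.Structure U], St_AUT L U)
    (L : FirstOrder.Language.{0, 0}) (U : Type) [L.Structure U] : St_CPL L U := by
  have _ := @h1
  intro hM A B c hA hB hAB
  constructor
  · intro h y hy s hs
    obtain ⟨t, ht, hct, hts⟩ := h s hs
    have hyt : y ∈ t := (hy t ht).1 hct
    rcases hts with hts | hts
    · exact ⟨fun _ => hts hyt, fun _ => hts hct⟩
    · exact ⟨fun h => absurd h (hts hct), fun h => absurd h (hts hyt)⟩
  · intro h
    have key : ∀ s : Set U, B.Definable₁ L s → c ∈ s →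
        ∃ t : Set U, A.Definable₁ L t ∧ c ∈ t ∧ t ⊆ s := by
      intro s hs hcs
      by_contra hcon
      push Not at hcon
      have hne : (⋂₀ ({t | A.Definable₁ L t ∧ c ∈ t} ∪ {sᶜ})).Nonempty → False := by
        rintro ⟨y, hy⟩
        have hys : y ∉ s := hy sᶜ (Or.inr rfl)
        have hE : Eqv L A c y := by
          intro t ht
          refine ⟨fun h => hy t (Or.inl ⟨ht, h⟩), fun h' => ?_⟩
          by_contra hct
          exact hy tᶜ (Or.inl ⟨CPL_compl ht, hct⟩) h'
        exact hys ((h y hE s hs).1 hcs)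
      refine hne (hM.sat B hB ({t | A.Definable₁ L t ∧ c ∈ t} ∪ {sᶜ}) ?_ ?_)
      · rintro t (ht | ht)
        · exact CPL_mono hAB ht.1
        · rw [mem_singleton_iff.1 ht]
          exact CPL_compl hs
      · intro G hG hGf
        have hG' : (G ∩ {t | A.Definable₁ L t ∧ c ∈ t}).Finite := hGf.subset inter_subset_left
        have ht := CPL_sInter (L := L) hG' (fun t ht => ht.2.1)
        have hct : c ∈ ⋂₀ (G ∩ {t | A.Definable₁ L t ∧ c ∈ t}) := fun t ht => ht.2.2
        obtain ⟨z, hz, hzs⟩ := not_subset.1 (hcon _ ht hct)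
        refine ⟨z, fun t ht => ?_⟩
        rcases hG ht with h | h
        · exact hz t ⟨ht, h⟩
        · rw [mem_singleton_iff.1 h]
          exact hzs
    intro s hs
    by_cases hcs : c ∈ s
    · obtain ⟨t, ht, hct, hts⟩ := key s hs hcs
      exact ⟨t, ht, hct, Or.inl hts⟩
    · obtain ⟨t, ht, hct, hts⟩ := key sᶜ (CPL_compl hs) hcs
      exact ⟨t, ht, hct, Or.inr hts⟩

end Pool.Agent.WOM
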