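import Pool.Agent.WOM.StC

/-!
WOM: module CRE (helper85).
-/

set_option autoImplicit false
set_option linter.unusedVariables false

namespace Pool.Agent.WOM

open FirstOrder.Language Set
open scoped FirstOrder

theorem thm_CRE (hSDI : St_SDI) (hEQG : St_EQG) (hFCG : St_FCG) (hSCC : St_SCC)
    (hNCF : St_NCF) : St_CRE := by
  classical
  intro L _ U S _ hW hSc
  by_cases hall : ∀ k, AllC L U k
  · exact hFCG L U hW (hSCC L U hW hSc hall)
  exfalso
  push Not at hall
  obtain ⟨e1, e2, e3, e4, e5, e6, e7, e8⟩ := hEQG L U hW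
  obtain ⟨d1, d2, d3, d4, d5⟩ := hSDI L U hW
  have h0 : AllC L U 0 := by
    intro C x z s hC hsd σ hσ
    have hr : C ∪ range x = C := by rw [range_eq_empty, union_empty]
    rw [hr] at hsd ⊢
    obtain ⟨h1, h2⟩ := e8 σ (C, z, s) hσ
    have h3 := e6 (C, z, s) hC (d5 C z s hC hsd)
    intro D hD hg hh u hu v hv
    rw [h2 D] at hv
    exact h3 D hD hg hg u hu v hv
  obtain ⟨k, hk, hmin⟩ : ∃ k, ¬ AllC L U k ∧ ∀ j < k, AllC L U j :=
    ⟨Nat.find hall, Nat.find_spec hall, fun j hj => not_not.mp (Nat.find_min hall hj)⟩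
  obtain _ | m := k
  · exact hk h0
  unfold AllC at hk
  push Not at hk
  obtain ⟨C, x, z, s, hC, hsd, σ, hσ, hne⟩ := hk
  exact hNCF L U hW hSc C m x z s ⟨hC, hsd, fun j hj => hmin j (Nat.lt_succ_of_le hj), σ, hσ, hne⟩

end Pool.Agent.WOM
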