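import Pool.Agent.WOM.StC

/-!
WOM [DCA]: closed germs in the model `M_J` (helper79).
-/

set_option autoImplicit false
set_option linter.unusedVariables false

namespace Pool.Agent.WOM

open FirstOrder.Language Set
open scoped FirstOrder

namespace DCAaux

variable {L : FirstOrder.Language.{0, 0}} {U : Type} [L.Structure U] [LinearOrder U]

/-- the base of `gr` -/
theorem gr_base (C : Set U) {m : ℕ} (x : Fin (m + 1) → U) (z : U) (s : Bool) (ρ : U ≃[L] U) :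
    (gr L C x z s ρ).1 = ρ '' (C ∪ range x) := rfl

theorem gr_base_sub {C : Set U} {m : ℕ} {x : Fin (m + 1) → U} {z : U} {s : Bool} {ρ : U ≃[L] U}
    {D : Set U} (hC : C ⊆ D) (hf : Fx L C ρ) (hx : ∀ j, ρ (x j) ∈ D) :
    (gr L C x z s ρ).1 ⊆ D := by
  rw [gr_base]
  rintro _ ⟨y, hy, rfl⟩
  rcases hy with hy | ⟨j, rfl⟩
  · rw [hf y hy]; exact hC hy
  · exact hx j

theorem gr_base_fin {C : Set U} {m : ℕ} {x : Fin (m + 1) → U} {z : U} {s : Bool} {ρ : U ≃[L] U}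
    (hC : C.Finite) : (gr L C x z s ρ).1.Finite := by
  rw [gr_base]
  exact (hC.union (finite_range x)).image _

end DCAaux

open DCAaux in
theorem thm_DCA (hORB : St_ORB) (hNSB : St_NSB) (hGEX : St_GEX) (hGER : St_GER) (hTRA : St_TRA)
    (hEQG : St_EQG) (hSMG : St_SMG) : St_DCA := by
  intro L U _ _ hW C m x z s hN t c₀ e J M w r Dd hM
  obtain ⟨O1, O2, O3, O4, O5, O6, O7, O8, O9⟩ := hORB L U hW.mon
  obtain ⟨N1, N2, N3, N4, N5, N6⟩ := hNSB L U
  have N6' := N6 hW.na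
  have GEX := hGEX L U hW
  obtain ⟨G1, G2, G3, G4, G5, G6, G7, G8⟩ := hGER L U hW
  have TRA := hTRA L U hW
  obtain ⟨E1, E2, E3, E4, E5, E6, E7, E8⟩ := hEQG L U hW
  have SMG := hSMG L U hW
  -- bases
  have hbase : ∀ i ∈ c₀.I ∪ e '' J, (gr L C x z s (r i)).1 ⊆ Dd i := by
    intro i hi
    exact gr_base_sub (hM.dd i hi).2.1 (hM.fx i hi).1 (hM.fx i hi).2
  -- the element `w i` is in the germ over all larger sets
  have hw : ∀ i ∈ c₀.I ∪ e '' J, ∀ D : Set U, D.Finite → Dd i ⊆ D → D ⊆ M →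
      w i ∈ gs L (gr L C x z s (r i)) D := by
    intro i hi D hDf hD hDM
    have h1 : Orb L D (w i) = Orb L (Dd i) (w i) := (hM.un i hi).1 D hDf hD hDM
    have h2 : w i ∈ Ge L (Dd i) (w i) s D := by
      refine ⟨O1 _ _, ?_⟩
      rw [h1]
      intro v hv
      exact ⟨v, hv, by unfold leS; split_ifs <;> exact le_rfl⟩
    have h3 := G1 (gr L C x z s (r i)).1 (Dd i) D (gr L C x z s (r i)).2.1 (w i) s
      (hbase i hi) hD hDf (hM.ge i hi)
    rw [h3] at h2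
    exact h2
  have hw' : ∀ i ∈ c₀.I ∪ e '' J, ∀ D : Set U, D.Finite → Dd i ⊆ D → D ⊆ M → ∀ τ : Bool,
      w i ∈ gs L ((Dd i, w i, τ) : Gm U) D := by
    intro i hi D hDf hD hDM τ
    have h1 : Orb L D (w i) = Orb L (Dd i) (w i) := (hM.un i hi).1 D hDf hD hDM
    refine ⟨O1 _ _, ?_⟩
    show Sd τ (Orb L D (w i)) (Orb L (Dd i) (w i))
    rw [h1]
    intro v hv
    exact ⟨v, hv, by unfold leS; split_ifs <;> exact le_rfl⟩
  -- two elements of a germ are conjugate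
  have hgc : ∀ (g : Gm U) (D : Set U), g.1 ⊆ D → D.Finite → ∀ u ∈ gs L g D, ∀ v ∈ gs L g D,
      v ∈ Orb L D u := by
    intro g D hg hD u hu v hv
    have := (GEX g.1 D g.2.1 g.2.2 hg hD).2 u hu
    unfold gs at hv
    rw [this] at hv
    exact hv
  -- from an equivalence to `Aq`
  have hAq : ∀ (ρ : U ≃[L] U), Kc L C x z s M ρ → ∀ i ∈ c₀.I ∪ e '' J, ∀ τ : Bool,
      Eqg L (gr L C x z s ρ) ((Dd i, w i, τ) : Gm U) → Aq L C x z s M ρ (r i) := by
    intro ρ hρ i hi τ hE D₁ hD₁ hD₁M hb1 hb2 u hu v hv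
    have hD₂f : (D₁ ∪ Dd i).Finite := hD₁.union (hM.dd i hi).1
    have hD₂M : D₁ ∪ Dd i ⊆ M := union_subset hD₁M (hM.dd i hi).2.2
    obtain ⟨u', hu'⟩ := (GEX (gr L C x z s ρ).1 (D₁ ∪ Dd i) (gr L C x z s ρ).2.1
      (gr L C x z s ρ).2.2 (hb1.trans subset_union_left) hD₂f).1
    have h1 : Nn L (D₁ ∪ Dd i) u' (w i) :=
      hE (D₁ ∪ Dd i) hD₂f (hb1.trans subset_union_left) subset_union_right u' hu' (w i)
        (hw' i hi _ hD₂f subset_union_right hD₂M τ)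
    have h2 : Nn L D₁ u' (w i) := by
      by_contra hcon
      exact N6' D₁ (D₁ ∪ Dd i) u' (w i) subset_union_left hD₂f hcon h1
    have hu1 : u' ∈ gs L (gr L C x z s ρ) D₁ :=
      G2 _ _ _ _ _ hb1 subset_union_left hD₂f hu'
    have hv1 : w i ∈ gs L (gr L C x z s (r i)) D₁ :=
      G2 _ _ _ _ _ hb2 subset_union_left hD₂f
        (hw i hi (D₁ ∪ Dd i) hD₂f subset_union_right hD₂M)
    exact N2 D₁ u' (w i) u v (hgc _ _ hb1 hD₁ _ hu1 _ hu) (hgc _ _ hb2 hD₁ _ hv1 _ hv) h2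
  refine ⟨?_, ?_, ?_⟩
  · -- (1)
    intro i hi
    refine ⟨(hM.fx i hi).1, fun j => (hM.dd i hi).2.2 ((hM.fx i hi).2 j), ?_⟩
    refine ⟨Dd i, (hM.dd i hi).1, hbase i hi, (hM.dd i hi).2.2, ?_⟩
    by_contra hcon
    obtain ⟨y, hy, hyM⟩ := nonempty_iff_ne_empty.mpr hcon
    have hy1 : y ∈ Orb L (Dd i) (w i) :=
      hgc _ _ (hbase i hi) (hM.dd i hi).1 _
        (hw i hi (Dd i) (hM.dd i hi).1 subset_rfl (hM.dd i hi).2.2) _ hy
    have h1 : Orb L (insert y (Dd i)) (w i) = Orb L (Dd i) (w i) :=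
      (hM.un i hi).1 _ ((hM.dd i hi).1.insert y) (subset_insert _ _)
        (insert_subset hyM (hM.dd i hi).2.2)
    have h2 : y ∈ Orb L (insert y (Dd i)) (w i) := by rw [h1]; exact hy1
    have h3 : Orb L (insert y (Dd i)) y = Orb L (insert y (Dd i)) (w i) := O2 _ _ _ h2
    have h4 : Orb L (insert y (Dd i)) y = {y} := O5 _ _ (mem_insert _ _)
    have h5 : Orb L (Dd i) (w i) = {y} := by rw [← h1, ← h3, h4]
    apply (hM.un i hi).2
    unfold Isd
    rw [h5]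
    refine O8 (Dd i) (insert y (Dd i)) {y} (hM.dd i hi).1 ((hM.dd i hi).1.insert y) ?_ ?_
    · have hs : ({y} : Set U).Definable₁ L {y} := by
        unfold Set.Definable₁
        rw [Set.definable_iff_exists_formula_sum]
        refine ⟨(FirstOrder.Language.Term.var (Sum.inr 0)).equal
          (FirstOrder.Language.Term.var (Sum.inl ⟨y, rfl⟩)), ?_⟩
        ext v
        simp [FirstOrder.Language.Formula.realize_equal]
      exact Set.Definable.mono hs (by simp)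
    · intro a ha
      rw [mem_singleton_iff] at ha
      subst ha
      rw [← h5]
      rw [O2 _ _ _ hy1]
  · -- (2)
    intro ρ hρ
    obtain ⟨hρf, hρx, D₀, hD₀f, hD₀b, hD₀M, hD₀e⟩ := hρ
    have hρ' : Kc L C x z s M ρ := ⟨hρf, hρx, D₀, hD₀f, hD₀b, hD₀M, hD₀e⟩
    have hCf : C.Finite := hN.fin
    rcases hM.gp (gr L C x z s ρ).1 (gr L C x z s ρ).2.1 (gr L C x z s ρ).2.2
      (gr_base_fin hCf) (hD₀b.trans hD₀M) with h | ⟨i, hi, D, hDf, hDb, hDd, hDM, hNn⟩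
    · exfalso
      have := h D₀ hD₀f hD₀b hD₀M
      unfold gs at hD₀e
      rw [hD₀e] at this
      exact not_nonempty_empty this
    · refine ⟨i, hi, ?_⟩
      obtain ⟨u, hu⟩ := (GEX (gr L C x z s ρ).1 D (gr L C x z s ρ).2.1
        (gr L C x z s ρ).2.2 hDb hDf).1
      obtain ⟨ε, hε⟩ := SMG D u (w i) hDf (hNn u hu)
      have h1 : Eqg L ((D, u, s) : Gm U) ((D, w i, sg ε s) : Gm U) := (hε s).1
      have h2 : Eqg L (gr L C x z s ρ) ((D, w i, sg ε s) : Gm U) :=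
        ((E4 (gr L C x z s ρ) D u hDf hDb hu).2 ((D, w i, sg ε s) : Gm U) hDf).1 h1
      have h3 : Eqg L ((Dd i, w i, sg ε s) : Gm U) (gr L C x z s ρ) :=
        (E5 (Dd i) D (w i) (sg ε s) (gr L C x z s ρ) hDd hDf (gr_base_fin hCf)
          ((hM.un i hi).1 D hDf hDd hDM)).1 (E1 _ _ h2)
      have h4 : Eqg L (gr L C x z s ρ) ((Dd i, w i, sg ε s) : Gm U) := E1 _ _ h3
      refine ⟨hAq ρ hρ' i hi _ h4, ?_⟩
      by_cases hs : sg ε s = s
      · left
        rw [hs] at h3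
        have h5 : Eqg L (gr L C x z s (r i)) (gr L C x z s ρ) :=
          ((E4 (gr L C x z s (r i)) (Dd i) (w i) (hM.dd i hi).1 (hbase i hi)
            (hM.ge i hi)).2 (gr L C x z s ρ) (gr_base_fin hCf)).1 h3
        exact E1 _ _ h5
      · right
        have : sg ε s = !s := by
          revert hs; cases ε <;> cases s <;> simp [sg]
        rw [← this]
        exact h4
  · -- (3)
    intro ρ hρ i hi j hj hAi hAj
    by_contra hij
    obtain ⟨D, hDf, hDd, hDM, hNn⟩ := hM.wo i hi j hj hij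
    have hCf : C.Finite := hN.fin
    obtain ⟨hρf, hρx, -⟩ := hρ
    have hρM : (gr L C x z s ρ).1 ⊆ M := gr_base_sub hM.c0.2 hρf hρx
    have hD₂f : (D ∪ (gr L C x z s ρ).1).Finite := hDf.union (gr_base_fin hCf)
    have hD₂M : D ∪ (gr L C x z s ρ).1 ⊆ M := union_subset hDM hρM
    have hdi : Dd i ⊆ D ∪ (gr L C x z s ρ).1 :=
      (subset_union_left.trans hDd).trans subset_union_left
    have hdj : Dd j ⊆ D ∪ (gr L C x z s ρ).1 :=
      (subset_union_right.trans hDd).trans subset_union_left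
    have hNn2 := N6' D (D ∪ (gr L C x z s ρ).1) (w i) (w j) subset_union_left hD₂f hNn
    obtain ⟨u, hu⟩ := (GEX (gr L C x z s ρ).1 (D ∪ (gr L C x z s ρ).1) (gr L C x z s ρ).2.1
      (gr L C x z s ρ).2.2 subset_union_right hD₂f).1
    have h1 := hAi (D ∪ (gr L C x z s ρ).1) hD₂f hD₂M subset_union_right
      ((hbase i hi).trans hdi) u hu (w i) (hw i hi _ hD₂f hdi hD₂M)
    have h2 := hAj (D ∪ (gr L C x z s ρ).1) hD₂f hD₂M subset_union_right
      ((hbase j hj).trans hdj) u hu (w j) (hw j hj _ hD₂f hdj hD₂M)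
    exact hNn2 (TRA _ _ _ _ hD₂f (N1 _ _ _ h1) h2)

end Pool.Agent.WOM
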