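import Pool.Agent.WOM.StC

/-!
WOM: [DCJ] decoding of the order in the model `M_J` (helper41).
-/

set_option autoImplicit false
set_option linter.unusedVariables false

namespace Pool.Agent.WOM

open FirstOrder.Language Set
open scoped FirstOrder

theorem thm_DCJ (hNSB : St_NSB) (hEQG : St_EQG) (hKAP : St_KAP) (hDCA : St_DCA) : St_DCJ := by
  intro L U _ _ hW C m x z s hN t c₀ e J M w r Dd hM he hc₀
  obtain ⟨hN1, -⟩ := hNSB L U
  obtain ⟨hE1, -⟩ := hEQG L U hW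
  obtain ⟨hKa, hKb, -⟩ := hKAP L U hW C m x z s hN
  obtain ⟨hD1, hD2, hD3⟩ := hDCA L U hW C m x z s hN t c₀ e J M w r Dd hM
  have hmem : ∀ q ∈ J, e q ∈ c₀.I ∪ e '' J := fun q hq => Or.inr ⟨q, hq, rfl⟩
  -- (A)
  have hA : ∀ ρ : U ≃[L] U, Kc L C x z s M ρ → ∀ q ∈ J, Aq L C x z s M ρ (r (e q)) →
      if t = true then ¬ Far L C (ρ (x 0)) (r (e q) (x 0))
        else ¬ Far L C (r (e q) (x 0)) (ρ (x 0)) := by
    intro ρ hρ q hq hA
    obtain ⟨i, hi, hAi, hor⟩ := hD2 ρ hρ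
    have hie : i = e q := hD3 ρ hρ i hi (e q) (hmem q hq) hAi hA
    subst hie
    have hfr := (hM.fx (e q) (hmem q hq)).1
    rcases hor with h | h
    · have h1 : ¬ Far L C (ρ (x 0)) (r (e q) (x 0)) := fun hf => hKb _ _ hρ.1 hfr hf h
      have h2 : ¬ Far L C (r (e q) (x 0)) (ρ (x 0)) := fun hf => hKb _ _ hfr hρ.1 hf (hE1 _ _ h)
      split_ifs
      · exact h1
      · exact h2
    · exact hM.cl q hq ρ hρ.1 h
  -- symmetry
  have hsym : ∀ ρ ρ' : U ≃[L] U, Aq L C x z s M ρ ρ' → Aq L C x z s M ρ' ρ := by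
    intro ρ ρ' h D hD hDM h1 h2 u hu v hv
    exact hN1 D v u (h D hD hDM h2 h1 v hv u hu)
  refine ⟨fun q hq => ?_, fun ρ hρ => ?_⟩
  · have hK := hD1 (e q) (hmem q hq)
    have hrefl : Aq L C x z s M (r (e q)) (r (e q)) := by
      intro D hD hDM h1 h2 u hu v hv
      exact hKa (r (e q)) (r (e q)) hK.1 hK.1 rfl D hD h1 h2 u hu v hv
    refine ⟨hK, fun i hi hAi => ?_, fun ρ' hρ' hA' => hA ρ' hρ' q hq hA'⟩
    rw [← hM.r0 i hi] at hAi
    have := hD3 (r (e q)) hK (e q) (hmem q hq) i (Or.inl hi) hrefl hAi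
    exact hc₀ q (this ▸ hi)
  · obtain ⟨hK, hno, hlast⟩ := hρ
    obtain ⟨i, hi, hAi, -⟩ := hD2 ρ hK
    rcases hi with hi | ⟨q, hq, rfl⟩
    · exact absurd (hM.r0 i hi ▸ hAi) (hno i hi)
    · refine ⟨q, hq, ?_⟩
      have h1 := hA ρ hK q hq hAi
      have h2 := hlast (r (e q)) (hD1 (e q) (hmem q hq)) (hsym _ _ hAi)
      by_cases ht : t = true
      · rw [if_pos ht] at h1 h2
        exact ⟨h1, h2⟩
      · rw [if_neg ht] at h1 h2
        exact ⟨h2, h1⟩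

end Pool.Agent.WOM
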