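import Pool.Agent.WOM.StB

/-!
WOM, module DEC: decoding by parameters.
-/

set_option autoImplicit false

namespace Pool.Agent.WOM

open FirstOrder.Language Set
open scoped FirstOrder

theorem thm_DEC (L : FirstOrder.Language.{0, 0}) (U : Type) [L.Structure U] : St_DEC L U := by
  intro _ k Q u hu hinv hdec hmeas
  obtain ⟨g, hg, hgE⟩ := Pool.Agent.Helper6.exists_cantor_of_decode (ι := Fin k → ℕ)
    (fun i n => {y | Q n (range (u y)) (u y ∘ i)}) (fun i n => hmeas n i)
    (fun x y => IsoM L (range (u x)) (range (u y))) (by
      rintro x y ⟨e, he⟩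
      have hch : ∀ j : Fin k, ∃ i : ℕ, u y i = e ⟨u x j, mem_range_self _⟩ := fun j =>
        (e ⟨u x j, mem_range_self _⟩).2
      choose i hi using hch
      refine ⟨i, fun n => ?_⟩
      have hi' : u y ∘ i = fun j : Fin k => (e ⟨u x j, mem_range_self _⟩ : U) := funext hi
      rw [← hdec x n, mem_ofPred_eq, hi']
      constructor
      · intro h
        exact hinv n _ _ e he (fun j => ⟨u x j, mem_range_self _⟩) h
      · intro h
        have he' : ∀ (m : ℕ) (a : Fin m → range (u y)),
            tp (L := L) (fun i => (a i : U)) = tp (fun i => (e.symm (a i) : U)) := by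
          intro m a
          have h1 := he m (fun i => e.symm (a i))
          simp only [Equiv.apply_symm_apply] at h1
          exact h1.symm
        have h2 := hinv n _ _ e.symm he' (fun j => e ⟨u x j, mem_range_self _⟩) h
        simp only [Equiv.symm_apply_apply] at h2
        exact h2)
  refine ⟨u ∘ g, ⟨fun x => hu.inj _, fun x => hu.el _, fun n v => (hu.cont n v).preimage hg⟩,
    fun x y hxy => ?_⟩
  by_contra hne
  exact hgE x y hne hxy

end Pool.Agent.WOM
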