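import Pool.Agent.WOM.StC

/-!
WOM [DIC]: one colour (helper79).
-/

set_option autoImplicit false
set_option linter.unusedVariables false

namespace Pool.Agent.WOM

open FirstOrder.Language Set
open scoped FirstOrder

theorem thm_DIC (hORB : St_ORB) (hGEX : St_GEX) (hFAR : St_FAR) (hEQG : St_EQG) (hKAP : St_KAP)
    (hNEW : St_NEW) : St_DIC := by
  classical
  intro L U _ _ hW C m x z s hN
  obtain ⟨O1, O2, O3, O4, O5, O6, O7, O8, O9⟩ := hORB L U hW.mon
  have GEX := hGEX L U hW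
  obtain ⟨K1, K2, K3, K4, K5, K6⟩ := hKAP L U hW C m x z s hN
  have hCf : C.Finite := hN.fin
  obtain ⟨F1, F2, F3, F4, F5, F6, F7, F8⟩ := hFAR L U hW C (x 0) hCf K3
  obtain ⟨E1, E2, E3, E4, E5, E6, E7, E8⟩ := hEQG L U hW
  have NEW := hNEW L U hW C m x z s hN
  -- transitivity
  have htr : ∀ a b c, a ∈ Orb L C (x 0) → Far L C a b → Far L C b c → Far L C a c := by
    intro a b c ha hab hbc
    have hb := (F8 a ha b hab).1
    have hc := (F8 b hb c hbc).1
    exact F2 a ha b hb c hc hab (F1 b hb c hc hbc).le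
  -- far elements
  have hfar : ∀ a ∈ Orb L C (x 0), ∃ b ∈ Orb L C (x 0), Far L C a b := by
    intro a ha
    obtain ⟨b, hb⟩ := (GEX C (insert a C) (x 0) true (subset_insert _ _) (hCf.insert a)).1
    have h1 := (F6 a ha (insert a C) (subset_insert _ _) (hCf.insert a) (mem_insert _ _)).1 b hb
    exact ⟨b, (F8 a ha b h1).1, h1⟩
  have hx0 : x 0 ∈ Orb L C (x 0) := O1 _ _
  obtain ⟨b, hb, hub⟩ := hfar (x 0) hx0
  obtain ⟨b', hb', hbb⟩ := hfar b hb
  obtain ⟨v₀, hv₀, hbv⟩ := hfar b' hb'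
  -- the first configuration
  let c₀ : Cfg L U :=
    { D := C ∪ {x 0, b, b', v₀}, I := ∅, w := fun _ => x 0,
      r := fun _ => FirstOrder.Language.Equiv.refl L U }
  have hDf : c₀.D.Finite := hCf.union (by simp)
  have hV₀ : Vc L C x z s c₀ := by
    refine ⟨⟨hDf, finite_empty, ?_, ?_⟩, subset_union_left, ?_, ?_, ?_, ?_⟩
    · intro i hi; exact absurd hi (notMem_empty i)
    · intro i hi; exact absurd hi (notMem_empty i)
    · intro i hi; exact absurd hi (notMem_empty i)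
    · intro i hi; exact absurd hi (notMem_empty i)
    · intro i hi; exact absurd hi (notMem_empty i)
    · intro i hi; exact absurd hi (notMem_empty i)
  have hR₀ : Ri L C x c₀ (x 0) v₀ := by
    refine ⟨⟨?_, hx0⟩, ⟨?_, hv₀⟩, ?_, b, ?_, b', ?_, hub, hbb, hbv⟩
    · exact Or.inr (by simp)
    · exact Or.inr (by simp)
    · intro i hi; exact absurd hi (notMem_empty i)
    · exact Or.inr (by simp)
    · exact Or.inr (by simp)
  by_cases hCN : CN L C x z s true c₀ (x 0) v₀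
  · exact ⟨true, c₀, x 0, v₀, hV₀, hR₀, hCN⟩
  · unfold CN at hCN
    push Not at hCN
    obtain ⟨c, hVc, hLe, hcl, i, hi, u, v, hRi, hu, hv, hno⟩ := hCN
    refine ⟨false, c, u, v, hVc, hRi, ?_⟩
    intro c₁ hV₁ hL₁ hcl₁ i₁ hi₁ u₁ v₁ hR₁ hu₁ hv₁
    obtain ⟨c', hV', hL', hI', hRa, hRb⟩ := NEW c₁ u₁ v₁ i₁ hV₁ hR₁ hi₁
    refine ⟨c', hV', hL', hI', hRa, hRb, ?_⟩
    by_contra hCl
    have hi₁' : i₁ ∈ c'.I := by rw [hI']; exact mem_insert _ _
    -- there is `ρ`
    have hps : ps L x c' i₁ ∈ Orb L C (x 0) := ⟨c'.r i₁, hV'.fx i₁ hi₁', rfl⟩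
    have hCl' : ∃ ρ : U ≃[L] U, Fx L C ρ ∧
        Eqg L (gr L C x z s ρ) ((c'.D, c'.w i₁, !s) : Gm U) ∧
        Far L C (ps L x c' i₁) (ρ (x 0)) := by
      unfold Cl at hCl
      push Not at hCl
      obtain ⟨ρ, h1, h2, h3⟩ := hCl
      refine ⟨ρ, h1, h2, ?_⟩
      simpa using h3
    obtain ⟨ρ, hρf, hρE, hρF⟩ := hCl'
    -- the colour is `true`
    have hCt : Cl L C x z s true c' i₁ := by
      intro ρ' hρ'f hρ'E
      rw [if_pos rfl]
      intro hF
      have h1 : Far L C (ρ' (x 0)) (ρ (x 0)) :=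
        htr _ _ _ ⟨ρ', hρ'f, rfl⟩ hF hρF
      refine K2 ρ' ρ hρ'f hρf h1 ?_
      exact E2 _ _ _ hV'.vd.fin hρ'E (E1 _ _ hρE)
    -- the configuration `c''`
    have hcI : c.I ⊆ c'.I := hL₁.I.trans hL'.I
    have hcD : c.D ⊆ c'.D := hL₁.D.trans hL'.D
    have hcw : ∀ j ∈ c.I, c'.w j = c.w j := fun j hj =>
      (hL'.w j (hL₁.I hj)).trans (hL₁.w j hj)
    have hcr : ∀ j ∈ c.I, c'.r j = c.r j := fun j hj =>
      (hL'.r j (hL₁.I hj)).trans (hL₁.r j hj)
    have hco : ∀ j ∈ c.I, Orb L c'.D (c.w j) = Orb L c.D (c.w j) := by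
      intro j hj
      have h1 := hL'.orb j (hL₁.I hj)
      rw [hL₁.w j hj] at h1
      rw [h1, hL₁.orb j hj]
    have hne : ∀ j ∈ c.I, j ≠ i := by
      rintro j hj rfl; exact hi hj
    have hne1 : ∀ j ∈ c.I, j ≠ i₁ := by
      rintro j hj rfl; exact hi₁ (hL₁.I hj)
    let c'' : Cfg L U :=
      { D := c'.D, I := insert i c.I, w := fun j => if j = i then c'.w i₁ else c.w j,
        r := fun j => if j = i then c'.r i₁ else c.r j }
    have hwi : c''.w i = c'.w i₁ := if_pos rfl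
    have hri : c''.r i = c'.r i₁ := if_pos rfl
    have hwj : ∀ j ∈ c.I, c''.w j = c'.w j := fun j hj => by
      show (if j = i then c'.w i₁ else c.w j) = c'.w j
      rw [if_neg (hne j hj), hcw j hj]
    have hrj : ∀ j ∈ c.I, c''.r j = c'.r j := fun j hj => by
      show (if j = i then c'.r i₁ else c.r j) = c'.r j
      rw [if_neg (hne j hj), hcr j hj]
    have hpsi : ps L x c'' i = ps L x c' i₁ := by
      show c''.r i (x 0) = c'.r i₁ (x 0)
      rw [hri]
    have hpsj : ∀ j ∈ c.I, ps L x c'' j = ps L x c j := fun j hj => by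
      show c''.r j (x 0) = c.r j (x 0)
      rw [hrj j hj, hcr j hj]
    have hV'' : Vc L C x z s c'' := by
      refine ⟨⟨hV'.vd.fin, hVc.vd.Ifin.insert i, ?_, ?_⟩, hV'.CD, ?_, ?_, ?_, ?_⟩
      · rintro j (rfl | hj)
        · rw [hwi]; exact hV'.vd.niso i₁ hi₁'
        · rw [hwj j hj]; exact hV'.vd.niso j (hcI hj)
      · rintro j (rfl | hj) k (rfl | hk) hjk
        · exact absurd rfl hjk
        · rw [hwi, hwj k hk]
          exact hV'.vd.wo i₁ hi₁' k (hcI hk) (hne1 k hk).symm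
        · rw [hwi, hwj j hj]
          exact hV'.vd.wo j (hcI hj) i₁ hi₁' (hne1 j hj)
        · rw [hwj j hj, hwj k hk]
          exact hV'.vd.wo j (hcI hj) k (hcI hk) hjk
      · rintro j (rfl | hj)
        · rw [hri]; exact hV'.fx i₁ hi₁'
        · rw [hrj j hj]; exact hV'.fx j (hcI hj)
      · rintro j (rfl | hj)
        · rw [hri]; exact hV'.rg i₁ hi₁'
        · rw [hrj j hj]; exact hV'.rg j (hcI hj)
      · rintro j (rfl | hj)
        · rw [hri, hwi]; exact hV'.ge i₁ hi₁'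
        · rw [hrj j hj, hwj j hj]; exact hV'.ge j (hcI hj)
      · rintro j (rfl | hj)
        · rw [hwi]; exact hV'.bf i₁ hi₁'
        · rw [hwj j hj]; exact hV'.bf j (hcI hj)
    have hL'' : Le L c c'' := by
      refine ⟨hcD, subset_insert _ _, ?_, ?_, ?_⟩
      · intro j hj; rw [hwj j hj, hcw j hj]
      · intro j hj; rw [hrj j hj, hcr j hj]
      · intro j hj; exact hco j hj
    -- the elements `b` of `two`
    obtain ⟨ba, hba, ba', hba', hb1, hb2, hb3⟩ := hRa.two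
    obtain ⟨bc, hbc, bc', hbc', hb4, hb5, hb6⟩ := hRb.two
    have huO : u ∈ Orb L C (x 0) := hRi.hu.2
    have hvO : v ∈ Orb L C (x 0) := hRi.hv.2
    have hua : Far L C u ba := by
      rcases hu₁ with h | h
      · rw [← h]; exact hb1
      · exact htr _ _ _ huO h hb1
    have hbcO : bc ∈ Orb L C (x 0) := (F8 _ hps _ hb4).1
    have hbcO' : bc' ∈ Orb L C (x 0) := (F8 _ hbcO _ hb5).1
    have hvc : Far L C bc' v := by
      rcases hv₁ with h | h
      · rw [← h]; exact hb6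
      · exact htr _ _ _ hbcO' hb6 h
    have hpv : Far L C (ps L x c' i₁) v :=
      htr _ _ _ hps hb4 (htr _ _ _ hbcO hb5 hvc)
    have hbaO : ba ∈ Orb L C (x 0) := (F8 _ huO _ hua).1
    have hbaO' : ba' ∈ Orb L C (x 0) := (F8 _ hbaO _ hb2).1
    have hup : Far L C u (ps L x c' i₁) :=
      htr _ _ _ huO hua (htr _ _ _ hbaO hb2 hb3)
    have hpsD : ps L x c' i₁ ∈ c'.D := hV'.rg i₁ hi₁' 0
    have hirr : ∀ a ∈ Orb L C (x 0), ¬ Far L C a a := fun a ha h =>
      lt_irrefl _ (F1 a ha a ha h)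
    have hRa'' : Ri L C x c'' u (ps L x c'' i) := by
      rw [hpsi]
      refine ⟨⟨hcD hRi.hu.1, huO⟩, ⟨hpsD, hps⟩, ?_, ba, hba, ba', hba', hua, hb2, hb3⟩
      rintro j (rfl | hj) h1 h2
      · rw [hpsi] at h2
        exact hirr _ hps h2
      · rw [hpsj j hj] at h1 h2
        exact hRi.no j hj h1 (htr _ _ _ (F8 _ huO _ h1).1 h2 hpv)
    have hRb'' : Ri L C x c'' (ps L x c'' i) v := by
      rw [hpsi]
      refine ⟨⟨hpsD, hps⟩, ⟨hcD hRi.hv.1, hvO⟩, ?_, bc, hbc, bc', hbc', hb4, hb5, hvc⟩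
      rintro j (rfl | hj) h1 h2
      · rw [hpsi] at h1
        exact hirr _ hps h1
      · rw [hpsj j hj] at h1 h2
        exact hRi.no j hj (htr _ _ _ huO hup h1) h2
    refine hno c'' hV'' hL'' rfl hRa'' hRb'' ?_
    intro ρ' hρ'f hρ'E
    rw [hwi] at hρ'E
    rw [hpsi]
    exact hCt ρ' hρ'f hρ'E

end Pool.Agent.WOM
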