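import Pool.Agent.WOM.Defs
import Pool.Agent.HERN.Defs

/-!
WOM: definitions of the core part (helper85).  `U` is the countable saturated weakly o-minimal
model (`Wm`), everything is expressed by orbits of the automorphisms over finite sets.
-/

set_option autoImplicit false
set_option linter.unusedVariables false

namespace Pool.Agent.WOM

open FirstOrder.Language Set
open scoped FirstOrder

section core

variable (L : FirstOrder.Language.{0, 0}) {U : Type} [L.Structure U]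

/-! ### Orbits -/

/-- `g` fixes `A` pointwise -/
def Fx (A : Set U) (g : U ≃[L] U) : Prop := ∀ a ∈ A, g a = a

/-- the orbit of `x` over `A` (= the set of the realisations of the type of `x` over `A`) -/
def Orb (A : Set U) (x : U) : Set U := {y | ∃ g : U ≃[L] U, Fx L A g ∧ g x = y}

/-- the type of `x` over `A` is isolated -/
def Isd (A : Set U) (x : U) : Prop := A.Definable₁ L (Orb L A x)

/-- `x` cuts the type of `z` over `A` (the types are not weakly orthogonal) -/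
def Nn (A : Set U) (x z : U) : Prop := Orb L (insert x A) z ≠ Orb L A z

/-! ### Order -/

/-- `≤` (towards the side `true`) or `≥` (towards the side `false`) -/
def leS [LinearOrder U] (t : Bool) (x y : U) : Prop := if t = true then x ≤ y else y ≤ x

/-- `X` is unbounded in `Y` on the side `t` -/
def Sd [LinearOrder U] (t : Bool) (X Y : Set U) : Prop := ∀ w ∈ Y, ∃ u ∈ X, leS t w u

/-- the last (`t = true`) or first (`t = false`) orbit over `B` inside the orbit of `x` over `A` -/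
def Ge [LinearOrder U] (A : Set U) (x : U) (t : Bool) (B : Set U) : Set U :=
  {u | u ∈ Orb L A x ∧ Sd t (Orb L B u) (Orb L A x)}

/-- the closure of `X` away from the side `t` -/
def Cls [LinearOrder U] (t : Bool) (X : Set U) : Set U := {u | ∃ v ∈ X, leS t u v}

/-- the side `t` of the type of `x` over `A` is definable -/
def SD [LinearOrder U] (A : Set U) (x : U) (t : Bool) : Prop :=
  A.Definable₁ L (Cls t (Orb L A x))

/-- `b` is far right of `a` (for the type of `a` over `A`) -/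
def Far [LinearOrder U] (A : Set U) (a b : U) : Prop := b ∈ Ge L A a true (insert a A)

/-- composition of signs -/
def sg (e t : Bool) : Bool := if e = true then t else !t

/-- The matching of the types of `x` and `z` over `A` has the orientation `e`: if `x'` goes to the
side `t` then `z` is on the side opposite to `sg e t`. -/
def Ori [LinearOrder U] (A : Set U) (x z : U) (e : Bool) : Prop :=
  ∀ (t : Bool), ∀ y ∈ Orb L A z, ∀ x' ∈ Ge L A x t (insert y A),
    y ∈ Ge L A z (!(sg e t)) (insert x' A)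

variable (U) in
/-- The standing hypotheses: `U` is the countable saturated model, weakly o-minimal, and weakly
orthogonal types over finite sets stay weakly orthogonal over larger finite sets. -/
structure Wm [LinearOrder U] : Prop where
  mon : Mon L U
  ord : (∅ : Set U).Definable L {v : Fin 2 → U | v 0 < v 1}
  fin : ∀ s : Set U, (univ : Set U).Definable₁ L s →
    ∃ (n : ℕ) (C : Fin n → Set U), (∀ i, (C i).OrdConnected) ∧ s = ⋃ i, C i
  na : ∀ (A : Set U) (a c d : U), A.Finite → ¬ Nn L A a c → ¬ Nn L (insert d A) a c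

/-! ### Germs -/

/-- germs: a base, an element and a side -/
abbrev Gm (U : Type) : Type := Set U × U × Bool

/-- the type over `D` of the germ `g` -/
def gs [LinearOrder U] (g : Gm U) (D : Set U) : Set U := Ge L g.1 g.2.1 g.2.2 D

/-- the image of a germ under an automorphism -/
def mg (σ : U ≃[L] U) (g : Gm U) : Gm U := (σ '' g.1, σ g.2.1, g.2.2)

/-- Two germs are equivalent: their types over all finite sets are not weakly orthogonal. -/
def Eqg [LinearOrder U] (g h : Gm U) : Prop :=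
  ∀ D : Set U, D.Finite → g.1 ⊆ D → h.1 ⊆ D → ∀ u ∈ gs L g D, ∀ v ∈ gs L h D, Nn L D u v

/-- the germ `g` is closed in `M` -/
def Clo [LinearOrder U] (g : Gm U) (M : Set U) : Prop :=
  ∃ D : Set U, D.Finite ∧ g.1 ⊆ D ∧ D ⊆ M ∧ gs L g D ∩ M = ∅

/-- the type of `v` over `B` is not cut by `M` -/
def Unc (B : Set U) (v : U) (M : Set U) : Prop :=
  ∀ D : Set U, D.Finite → B ⊆ D → D ⊆ M → Orb L D v = Orb L B v

/-- `M` has finitely many gaps -/
def FinG (M : Set U) : Prop :=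
  ∃ (m : ℕ) (v : Fin m → U) (B : Set U), B.Finite ∧ B ⊆ M ∧
    (∀ j, Unc L B (v j) M ∧ ¬ Isd L B (v j)) ∧
    ∀ (B' : Set U) (w : U), B'.Finite → B ⊆ B' → B' ⊆ M → Unc L B' w M → ¬ Isd L B' w →
      ∃ j, Nn L B' w (v j)

/-- There is no family of elementary submodels, indexed by the subsets of `ℕ`, which is decoded at
a countable level over finitely many constants. -/
def ScU (S : L.Structure U) : Prop :=
  ∀ (X : (ℕ → Bool) → Set U) (n : ℕ) (d : Fin n → U) (γ : Ordinal.{0}),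
    γ < Pool.Agent.Helper79.VC.om1 → (∀ f, IsEl L (X f) ∧ ∀ i, d i ∈ X f) →
    ∃ f g, f ≠ g ∧
      Pool.Agent.Helper79.VC.BFR S S (X f) (X g) γ (HERN.prs d d)

/-! ### Configurations -/

variable (U) in
/-- A configuration: a set `D`, a set `I` of indices of gaps, for every index the gap (the type of
`w i` over `D`) and an automorphism `r i` (for the tuples which give the germs). -/
structure Cfg where
  D : Set U
  I : Set ℕ
  w : ℕ → U
  r : ℕ → (U ≃[L] U)

/-- `b` is added to `D` -/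
def Cfg.add (c : Cfg L U) (b : U) : Cfg L U := { c with D := insert b c.D }

/-- valid configurations: finite, the gaps are nonisolated and pairwise weakly orthogonal -/
structure Vd (c : Cfg L U) : Prop where
  fin : c.D.Finite
  Ifin : c.I.Finite
  niso : ∀ i ∈ c.I, ¬ Isd L c.D (c.w i)
  wo : ∀ i ∈ c.I, ∀ j ∈ c.I, i ≠ j → ¬ Nn L c.D (c.w i) (c.w j)

/-- extension of configurations: the gaps are not cut -/
structure Le (c c' : Cfg L U) : Prop where
  D : c.D ⊆ c'.D
  I : c.I ⊆ c'.I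
  w : ∀ i ∈ c.I, c'.w i = c.w i
  r : ∀ i ∈ c.I, c'.r i = c.r i
  orb : ∀ i ∈ c.I, Orb L c'.D (c.w i) = Orb L c.D (c.w i)

/-- Every germ over `M` is open in `M` or not orthogonal to one of the gaps. -/
def GP [LinearOrder U] (c : Cfg L U) (M : Set U) : Prop :=
  ∀ (B : Set U) (z : U) (t : Bool), B.Finite → B ⊆ M →
    (∀ D : Set U, D.Finite → B ⊆ D → D ⊆ M → (Ge L B z t D ∩ M).Nonempty) ∨
    ∃ D : Set U, D.Finite ∧ B ⊆ D ∧ c.D ⊆ D ∧ D ⊆ M ∧ ∃ i ∈ c.I, ∀ u ∈ Ge L B z t D, Nn L D u (c.w i)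

/-! ### Codes -/

variable (U) in
/-- the codes with `k` coordinates are constant (over every finite set) -/
def AllC [LinearOrder U] (k : ℕ) : Prop :=
  ∀ (C : Set U) (x : Fin k → U) (z : U) (s : Bool), C.Finite → ¬ SD L (C ∪ range x) z s →
    ∀ σ : U ≃[L] U, Fx L C σ →
      Eqg L ((C ∪ range x, z, s) : Gm U) (mg L σ ((C ∪ range x, z, s) : Gm U))

/-- the germ with parameters `ρ x` -/
def gr (C : Set U) {m : ℕ} (x : Fin (m + 1) → U) (z : U) (s : Bool) (ρ : U ≃[L] U) : Gm U :=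
  mg L ρ ((C ∪ range x, z, s) : Gm U)

/-- a nonconstant code with the least number `m + 1` of coordinates -/
structure NCx [LinearOrder U] (C : Set U) {m : ℕ} (x : Fin (m + 1) → U) (z : U) (s : Bool) : Prop
    where
  fin : C.Finite
  nsd : ¬ SD L (C ∪ range x) z s
  low : ∀ j ≤ m, AllC L U j
  non : ∃ σ : U ≃[L] U, Fx L C σ ∧ ¬ Eqg L ((C ∪ range x, z, s) : Gm U) (gr L C x z s σ)

/-- the base of the code of the coordinate `t + 1` -/
def bs (C : Set U) {m : ℕ} (x : Fin (m + 1) → U) (t : Fin m) : Set U :=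
  C ∪ x '' {j | j ≤ t.castSucc}

/-- valid configurations for the nonconstant code -/
structure Vc [LinearOrder U] (C : Set U) {m : ℕ} (x : Fin (m + 1) → U) (z : U) (s : Bool)
    (c : Cfg L U) : Prop where
  vd : Vd L c
  CD : C ⊆ c.D
  fx : ∀ i ∈ c.I, Fx L C (c.r i)
  rg : ∀ i ∈ c.I, ∀ j, c.r i (x j) ∈ c.D
  ge : ∀ i ∈ c.I, c.w i ∈ gs L (gr L C x z s (c.r i)) c.D
  bf : ∀ i ∈ c.I, ∀ (t : Fin m) (τ : Bool), ¬ SD L (bs C x t) (x t.succ) τ →
    ¬ Eqg L ((bs C x t, x t.succ, τ) : Gm U) ((c.D, c.w i, !s) : Gm U)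

/-- the position of the index `i` -/
def ps {m : ℕ} (x : Fin (m + 1) → U) (c : Cfg L U) (i : ℕ) : U := c.r i (x 0)

/-- `(u, v)` is a rich interval of the configuration: no index inside, but two elements of `D`. -/
structure Ri [LinearOrder U] (C : Set U) {m : ℕ} (x : Fin (m + 1) → U) (c : Cfg L U) (u v : U) :
    Prop where
  hu : u ∈ c.D ∧ u ∈ Orb L C (x 0)
  hv : v ∈ c.D ∧ v ∈ Orb L C (x 0)
  no : ∀ i ∈ c.I, Far L C u (ps L x c i) → Far L C (ps L x c i) v → False
  two : ∃ b ∈ c.D, ∃ b' ∈ c.D, Far L C u b ∧ Far L C b b' ∧ Far L C b' v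

/-- The colour of the index `i` is `t`: if the other side of the gap `i` has a class `κ_a` then `a` is
not far left (`t = true`), not far right (`t = false`) of the position of `i`. -/
def Cl [LinearOrder U] (C : Set U) {m : ℕ} (x : Fin (m + 1) → U) (z : U) (s : Bool) (t : Bool)
    (c : Cfg L U) (i : ℕ) : Prop :=
  ∀ ρ : U ≃[L] U, Fx L C ρ → Eqg L (gr L C x z s ρ) ((c.D, c.w i, !s) : Gm U) →
    if t = true then ¬ Far L C (ρ (x 0)) (ps L x c i) else ¬ Far L C (ps L x c i) (ρ (x 0))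

/-- New indices of colour `t` can be added in all rich intervals inside `(u₀, v₀)`. -/
def CN [LinearOrder U] (C : Set U) {m : ℕ} (x : Fin (m + 1) → U) (z : U) (s : Bool) (t : Bool)
    (c₀ : Cfg L U) (u₀ v₀ : U) : Prop :=
  ∀ c : Cfg L U, Vc L C x z s c → Le L c₀ c → (∀ i ∈ c.I, i ∉ c₀.I → Cl L C x z s t c i) →
    ∀ i ∉ c.I, ∀ u v, Ri L C x c u v → (u = u₀ ∨ Far L C u₀ u) → (v = v₀ ∨ Far L C v v₀) →
      ∃ c' : Cfg L U, Vc L C x z s c' ∧ Le L c c' ∧ c'.I = insert i c.I ∧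
        Ri L C x c' u (ps L x c' i) ∧ Ri L C x c' (ps L x c' i) v ∧ Cl L C x z s t c' i

/-- the gaps of the tuples `ρ x`, `ρ' x` are not orthogonal over `M` -/
def Aq [LinearOrder U] (C : Set U) {m : ℕ} (x : Fin (m + 1) → U) (z : U) (s : Bool) (M : Set U)
    (ρ ρ' : U ≃[L] U) : Prop :=
  ∀ D : Set U, D.Finite → D ⊆ M → (gr L C x z s ρ).1 ⊆ D → (gr L C x z s ρ').1 ⊆ D →
    ∀ u ∈ gs L (gr L C x z s ρ) D, ∀ v ∈ gs L (gr L C x z s ρ') D, Nn L D u v

/-- The tuple `ρ x` in `M` gives a closed germ. -/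
def Kc [LinearOrder U] (C : Set U) {m : ℕ} (x : Fin (m + 1) → U) (z : U) (s : Bool) (M : Set U)
    (ρ : U ≃[L] U) : Prop :=
  Fx L C ρ ∧ (∀ j, ρ (x j) ∈ M) ∧ Clo L (gr L C x z s ρ) M

/-- The first coordinate of `ρ x` is the extreme position (on the side opposite to `t`) of its gap,
and the gap is not one of the gaps of `c₀`. -/
def Psi [LinearOrder U] (C : Set U) {m : ℕ} (x : Fin (m + 1) → U) (z : U) (s : Bool) (t : Bool)
    (c₀ : Cfg L U) (M : Set U) (ρ : U ≃[L] U) : Prop :=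
  Kc L C x z s M ρ ∧ (∀ i ∈ c₀.I, ¬ Aq L C x z s M ρ (c₀.r i)) ∧
    ∀ ρ', Kc L C x z s M ρ' → Aq L C x z s M ρ' ρ →
      if t = true then ¬ Far L C (ρ' (x 0)) (ρ (x 0)) else ¬ Far L C (ρ (x 0)) (ρ' (x 0))

/-- The model `M` (with gap data `w`, `r`, `Dd`) has exactly the gaps with indices in
`c₀.I ∪ e '' J`, ordered like `J`, and of colour `t`. -/
structure MJ [LinearOrder U] (C : Set U) {m : ℕ} (x : Fin (m + 1) → U) (z : U) (s : Bool) (t : Bool)
    (c₀ : Cfg L U) (e : ℚ → ℕ) (J : Set ℚ) (M : Set U) (w : ℕ → U) (r : ℕ → (U ≃[L] U))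
    (Dd : ℕ → Set U) : Prop where
  el : IsEl L M
  c0 : c₀.D ⊆ M ∧ C ⊆ M
  r0 : ∀ i ∈ c₀.I, r i = c₀.r i
  fx : ∀ i ∈ c₀.I ∪ e '' J, Fx L C (r i) ∧ ∀ j, r i (x j) ∈ Dd i
  dd : ∀ i ∈ c₀.I ∪ e '' J, (Dd i).Finite ∧ C ⊆ Dd i ∧ Dd i ⊆ M
  ge : ∀ i ∈ c₀.I ∪ e '' J, w i ∈ gs L (gr L C x z s (r i)) (Dd i)
  un : ∀ i ∈ c₀.I ∪ e '' J, Unc L (Dd i) (w i) M ∧ ¬ Isd L (Dd i) (w i)
  wo : ∀ i ∈ c₀.I ∪ e '' J, ∀ j ∈ c₀.I ∪ e '' J, i ≠ j →
    ∃ D : Set U, D.Finite ∧ Dd i ∪ Dd j ⊆ D ∧ D ⊆ M ∧ ¬ Nn L D (w i) (w j)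
  or : ∀ q ∈ J, ∀ q' ∈ J, q < q' → Far L C (r (e q) (x 0)) (r (e q') (x 0))
  cl : ∀ q ∈ J, ∀ ρ : U ≃[L] U, Fx L C ρ →
    Eqg L (gr L C x z s ρ) ((Dd (e q), w (e q), !s) : Gm U) →
    if t = true then ¬ Far L C (ρ (x 0)) (r (e q) (x 0)) else ¬ Far L C (r (e q) (x 0)) (ρ (x 0))
  gp : ∀ (B : Set U) (y : U) (τ : Bool), B.Finite → B ⊆ M →
    (∀ D : Set U, D.Finite → B ⊆ D → D ⊆ M → (Ge L B y τ D ∩ M).Nonempty) ∨
    ∃ i ∈ c₀.I ∪ e '' J, ∃ D : Set U, D.Finite ∧ B ⊆ D ∧ Dd i ⊆ D ∧ D ⊆ M ∧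
      ∀ u ∈ Ge L B y τ D, Nn L D u (w i)

end core

end Pool.Agent.WOM
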