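import Pool.Agent.WOM.StC

/-!
WOM [EQG]: equivalence of germs (helper67).
-/

set_option autoImplicit false

namespace Pool.Agent.WOM

open FirstOrder.Language Set
open scoped FirstOrder

theorem thm_EQG (hNSB : St_NSB) (hCNV : St_CNV) (hGEX : St_GEX) (hGER : St_GER) (hTRA : St_TRA) :
    St_EQG := by
  intro L U _ _ hW
  obtain ⟨n1, n2, n3, n4, -, n6⟩ := hNSB L U
  obtain ⟨-, hc⟩ := hCNV L U hW
  have hX := hGEX L U hW
  obtain ⟨r1, r2, r3, r4, r5, -, -, -⟩ := hGER L U hW
  have hT := hTRA L U hW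
  have n6 := n6 hW.na
  -- the key lemma
  have key : ∀ (g h : Gm U) (D E : Set U), D ⊆ E → E.Finite → g.1 ⊆ D → h.1 ⊆ D →
      (∀ u ∈ gs L g E, ∀ v ∈ gs L h E, Nn L E u v) →
      ∀ u ∈ gs L g D, ∀ v ∈ gs L h D, Nn L D u v := by
    intro g h D E hDE hE hg hh hN u hu v hv
    obtain ⟨u1, hu1⟩ := (hX g.1 E g.2.1 g.2.2 (hg.trans hDE) hE).1
    obtain ⟨v1, hv1⟩ := (hX h.1 E h.2.1 h.2.2 (hh.trans hDE) hE).1
    have h1 : Nn L D u1 v1 := by
      by_contra h2
      exact n6 D E u1 v1 hDE hE h2 (hN u1 hu1 v1 hv1)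
    have hD := hE.subset hDE
    have hu2 : u1 ∈ gs L g D := r2 g.1 D E g.2.1 g.2.2 hg hDE hE hu1
    have hv2 : v1 ∈ gs L h D := r2 h.1 D E h.2.1 h.2.2 hh hDE hE hv1
    have hu3 : gs L g D = Orb L D u1 := (hX g.1 D g.2.1 g.2.2 hg hD).2 u1 hu2
    have hv3 : gs L h D = Orb L D v1 := (hX h.1 D h.2.1 h.2.2 hh hD).2 v1 hv2
    exact n2 D u1 v1 u v (hu3 ▸ hu) (hv3 ▸ hv) h1
  have h4 : ∀ (g : Gm U) (D : Set U) (u : U), D.Finite → g.1 ⊆ D → u ∈ gs L g D →
      ∀ E : Set U, D ⊆ E → E.Finite → gs L ((D, u, g.2.2) : Gm U) E = gs L g E := by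
    intro g D u hD hg hu E hDE hE
    exact r1 g.1 D E g.2.1 u g.2.2 hg hDE hE hu
  refine ⟨?_, ?_, ?_, ?_, ?_, ?_, ?_, ?_⟩
  · intro g h he D hD hh hg v hv u hu
    exact n1 D u v (he D hD hg hh u hu v hv)
  · intro g h k hf he1 he2 D hD hg hk
    have hE : (D ∪ h.1).Finite := hD.union hf
    refine key g k D (D ∪ h.1) subset_union_left hE hg hk ?_
    intro u hu v hv
    obtain ⟨w, hw⟩ := (hX h.1 (D ∪ h.1) h.2.1 h.2.2 subset_union_right hE).1
    exact hT _ u w v hE
      (he1 _ hE (hg.trans subset_union_left) subset_union_right u hu w hw)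
      (he2 _ hE subset_union_right (hk.trans subset_union_left) w hw v hv)
  · intro σ g h he D hD hg hh u hu v hv
    have hD' : D = σ '' (σ.symm '' D) := by
      rw [← Set.image_comp]
      have : (σ ∘ σ.symm : U → U) = id := by
        funext a
        exact σ.apply_symm_apply a
      rw [this, Set.image_id]
    have hsub : ∀ A : Set U, σ '' A ⊆ D → A ⊆ σ.symm '' D := by
      intro A hA a ha
      exact ⟨σ a, hA ⟨a, ha, rfl⟩, σ.symm_apply_apply a⟩
    have e1 : gs L (mg L σ g) D = σ '' gs L g (σ.symm '' D) := by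
      have := r5 σ g.1 (σ.symm '' D) g.2.1 g.2.2
      rw [← hD'] at this
      exact this
    have e2 : gs L (mg L σ h) D = σ '' gs L h (σ.symm '' D) := by
      have := r5 σ h.1 (σ.symm '' D) h.2.1 h.2.2
      rw [← hD'] at this
      exact this
    rw [e1] at hu
    rw [e2] at hv
    obtain ⟨u', hu', rfl⟩ := hu
    obtain ⟨v', hv', rfl⟩ := hv
    have h1 := he (σ.symm '' D) (hD.image _) (hsub _ hg) (hsub _ hh) u' hu' v' hv'
    have h2 := n3 σ _ _ _ h1
    rwa [← hD'] at h2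
  · intro g D u hD hg hu
    refine ⟨h4 g D u hD hg hu, fun h hf => ⟨fun he E hE hgE hhE => ?_, fun he E hE hDE hhE => ?_⟩⟩
    · have hF : (E ∪ D).Finite := hE.union hD
      refine key g h E (E ∪ D) subset_union_left hF hgE hhE ?_
      intro a ha b hb
      rw [← h4 g D u hD hg hu (E ∪ D) subset_union_right hF] at ha
      exact he _ hF subset_union_right (hhE.trans subset_union_left) a ha b hb
    · intro a ha b hb
      rw [h4 g D u hD hg hu E hDE hE] at ha
      exact he E hE (hg.trans hDE) hhE a ha b hb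
  · intro D D' w t h hDD hD' hf ho
    have e : ∀ E : Set U, D' ⊆ E → E.Finite →
        gs L ((D', w, t) : Gm U) E = gs L ((D, w, t) : Gm U) E := fun E h1 h2 =>
      r3 D D' E w t hDD h1 h2 ho
    refine ⟨fun he E hE hDE hhE => ?_, fun he E hE hDE hhE => ?_⟩
    · have hF : (E ∪ D').Finite := hE.union hD'
      refine key (D, w, t) h E (E ∪ D') subset_union_left hF hDE hhE ?_
      intro a ha b hb
      rw [← e (E ∪ D') subset_union_right hF] at ha
      exact he _ hF subset_union_right (hhE.trans subset_union_left) a ha b hb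
    · intro a ha b hb
      rw [e E hDE hE] at ha
      exact he E hE (hDD.trans hDE) hhE a ha b hb
  · intro g hf hne D hD hg _ u hu v hv
    have h1 : gs L g D = Orb L D u := (hX g.1 D g.2.1 g.2.2 hg hD).2 u hu
    have h2 : Nn L D u u := by
      rw [n4]
      intro h3
      obtain ⟨u', hu', hle, hneq⟩ := (hc g.1 g.2.1 hf).2 hne g.2.2 u hu.1
      obtain ⟨u'', hu'', hle'⟩ := hu.2 u' hu'
      rw [h3] at hu''
      rw [mem_singleton_iff.1 hu''] at hle'
      apply hneq
      unfold leS at hle hle'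
      split_ifs at hle hle'
      · exact le_antisymm hle' hle
      · exact le_antisymm hle hle'
    exact n2 D u u u v (h1 ▸ hu) (h1 ▸ hv) h2
  · intro g h D hD hg hh hN D1 hD1 hg1 hh1
    refine key g h D1 (D1 ∪ D) subset_union_left (hD1.union hD) hg1 hh1 ?_
    exact hN _ (hD1.union hD) subset_union_right
  · intro σ g hF
    have h1 : (mg L σ g).1 = g.1 := by
      show σ '' g.1 = g.1
      refine (Set.image_congr hF).trans ?_
      exact Set.image_id _
    refine ⟨h1, fun D => ?_⟩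
    show Ge L (mg L σ g).1 (σ g.2.1) g.2.2 D = Ge L g.1 g.2.1 g.2.2 D
    rw [h1]
    exact r4 g.1 D g.2.1 (σ g.2.1) g.2.2 ⟨σ, hF, rfl⟩

end Pool.Agent.WOM
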