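import Pool.Agent.WOM.StC

/-!
WOM [FAR]: the weak order given by the far pairs of an orbit (helper58).
-/

set_option autoImplicit false

namespace Pool.Agent.WOM

open FirstOrder.Language Set
open scoped FirstOrder

theorem thm_FAR (hORB : St_ORB) (hCNV : St_CNV) (hGEX : St_GEX) (hGER : St_GER)
    (hFFR : St_FFR) : St_FAR := by
  intro L U _ _ hW A x hA hx
  obtain ⟨O1, O2, O3, O4, O5, O6, O7, O8, O9⟩ := hORB L U hW.mon
  obtain ⟨C1, C2⟩ := hCNV L U hW
  have E := hGEX L U hW
  obtain ⟨G1, G2, G3, G4, G5, G6, G7, G8⟩ := hGER L U hW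
  have F := hFFR L U hW
  have hin : ∀ a : U, A ⊆ insert a A := fun a => subset_insert a A
  have hfi : ∀ a : U, (insert a A).Finite := fun a => hA.insert a
  have hp : ∀ a ∈ Orb L A x, Orb L A a = Orb L A x := fun a ha => O2 A x a ha
  have lt_true : ∀ u v : U, leS true u v ↔ u ≤ v := fun u v => by simp [leS]
  have lt_false : ∀ u v : U, leS false u v ↔ v ≤ u := fun u v => by simp [leS]
  -- 1
  have h1 : ∀ a ∈ Orb L A x, ∀ b ∈ Orb L A x, Far L A a b → a < b := by
    intro a ha b _ hab
    by_contra hlt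
    have hba : b ≤ a := not_lt.1 hlt
    have hm : a ∈ Ge L A a true (insert a A) :=
      G7 A (insert a A) a b a true (hin a) (hfi a) hab (O1 A a) ((lt_true b a).2 hba)
    have hS : Sd true (Orb L (insert a A) a) (Orb L A a) := hm.2
    rw [O5 (insert a A) a (mem_insert a A)] at hS
    have hne : Orb L A a ≠ {a} := by
      intro h
      apply hx
      have hxa : x ∈ Orb L A a := by rw [hp a ha]; exact O1 A x
      rw [h] at hxa
      rw [← hp a ha, h, mem_singleton_iff.1 hxa]
    obtain ⟨u, hu, hau, hua⟩ := (C2 A a hA).2 hne true a (O1 A a)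
    obtain ⟨v, hv, huv⟩ := hS u hu
    rw [mem_singleton_iff.1 hv] at huv
    exact hua (le_antisymm ((lt_true u a).1 huv) ((lt_true a u).1 hau))
  -- 2
  have h2 : ∀ a ∈ Orb L A x, ∀ b ∈ Orb L A x, ∀ c ∈ Orb L A x,
      Far L A a b → b ≤ c → Far L A a c := by
    intro a ha b _ c hc hab hbc
    exact G7 A (insert a A) a b c true (hin a) (hfi a) hab (by rw [hp a ha]; exact hc)
      ((lt_true b c).2 hbc)
  -- symmetric form
  have hs1 : ∀ a b : U, Far L A a b → a ∈ Ge L A b false (insert b A) := by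
    intro a b hab
    have := F A a b true hA hab
    simpa using this
  have hs2 : ∀ a b : U, a ∈ Ge L A b false (insert b A) → Far L A a b := by
    intro a b hab
    have h := F A b a false hA hab
    exact h
  -- 3
  have h3 : ∀ a ∈ Orb L A x, ∀ b ∈ Orb L A x, ∀ c ∈ Orb L A x,
      a ≤ b → Far L A b c → Far L A a c := by
    intro a ha b _ c hc hab hbc
    apply hs2
    exact G7 A (insert c A) c b a false (hin c) (hfi c) (hs1 b c hbc)
      (by rw [hp c hc]; exact ha) ((lt_false b a).2 hab)
  -- 5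
  have himA : ∀ σ : U ≃[L] U, Fx L A σ → σ '' A = A := by
    intro σ hσ
    ext y
    constructor
    · rintro ⟨z, hz, rfl⟩
      rw [hσ z hz]
      exact hz
    · intro hy
      exact ⟨y, hy, hσ y hy⟩
  have h5 : ∀ a b, ∀ σ : U ≃[L] U, Fx L A σ → (Far L A (σ a) (σ b) ↔ Far L A a b) := by
    intro a b σ hσ
    have hg := G5 σ A (insert a A) a true
    rw [image_insert_eq, himA σ hσ] at hg
    unfold Far
    rw [hg]
    constructor
    · rintro ⟨z, hz, hzb⟩
      have : z = b := σ.injective hzb
      rw [← this]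
      exact hz
    · intro hb
      exact ⟨b, hb, rfl⟩
  -- 6
  have h6 : ∀ a ∈ Orb L A x, ∀ B : Set U, A ⊆ B → B.Finite → a ∈ B →
      (∀ b ∈ Ge L A x true B, Far L A a b) ∧ (∀ b ∈ Ge L A x false B, Far L A b a) := by
    intro a ha B hAB hB haB
    have hiB : insert a A ⊆ B := insert_subset haB hAB
    constructor
    · intro b hb
      rw [← G4 A B x a true ha] at hb
      exact G2 A (insert a A) B a true (hin a) hiB hB hb
    · intro b hb
      rw [← G4 A B x a false ha] at hb
      exact hs2 b a (G2 A (insert a A) B a false (hin a) hiB hB hb)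
  -- 4
  have h4 : ∀ a ∈ Orb L A x, ∀ b ∈ Orb L A x, ∀ c ∈ Orb L A x,
      Far L A a c → Far L A a b ∨ Far L A b c := by
    intro a ha b hb c hc hac
    by_cases hab : Far L A a b
    · exact Or.inl hab
    right
    apply hs2
    have haO := hs1 a c hac
    rcases le_or_gt b a with hba | hba
    · exact G7 A (insert c A) c a b false (hin c) (hfi c) haO
        (by rw [hp c hc]; exact hb) ((lt_false a b).2 hba)
    · have hO := (E A (insert c A) c false (hin c) (hfi c)).2 a haO
      obtain ⟨a1, ha1⟩ := (E A (insert a (insert c A)) c false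
        ((hin c).trans (subset_insert _ _)) ((hfi c).insert a)).1
      have ha1O : a1 ∈ Ge L A c false (insert c A) :=
        G2 A (insert c A) (insert a (insert c A)) c false (hin c) (subset_insert _ _)
          ((hfi c).insert a) ha1
      have hfar : Far L A a1 a := by
        refine (h6 a ha (insert a (insert c A)) ((hin c).trans (subset_insert _ _))
          ((hfi c).insert a) (mem_insert _ _)).2 a1 ?_
        rw [← G4 A (insert a (insert c A)) x c false hc]
        exact ha1
      rw [hO] at ha1O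
      obtain ⟨τ, hτ, hτa⟩ := ha1O
      have hτA : Fx L A τ := fun y hy => hτ y (mem_insert_of_mem c hy)
      have hτbp : τ b ∈ Orb L A x := by
        rw [← hp b hb]
        exact ⟨τ, hτA, rfl⟩
      have ha1p : a1 ∈ Orb L A x := by
        rw [← hp a ha]
        exact ⟨τ, hτA, hτa⟩
      have hτb : τ b < a := by
        by_contra hn
        have hf := h2 a1 ha1p a ha (τ b) hτbp hfar (not_lt.1 hn)
        rw [← hτa, h5 a b τ hτA] at hf
        exact hab hf
      have hτbO : τ b ∈ Ge L A c false (insert c A) :=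
        G7 A (insert c A) c a (τ b) false (hin c) (hfi c) haO
          (by rw [hp c hc]; exact hτbp) ((lt_false a (τ b)).2 hτb.le)
      rw [hO] at hτbO ⊢
      have h7 := O2 (insert c A) a (τ b) hτbO
      have h8 := O2 (insert c A) b (τ b) ⟨τ, hτ, rfl⟩
      rw [← h7, h8]
      exact O1 (insert c A) b
  -- 7
  have h7 : ∀ a ∈ Orb L A x, ∀ a' ∈ Orb L A x, ∀ b b', Far L A a b → Far L A a' b' →
      ∃ σ : U ≃[L] U, Fx L A σ ∧ σ a = a' ∧ σ b = b' := by
    intro a ha a' ha' b b' hab hab'
    rw [← hp a ha] at ha'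
    obtain ⟨g, hg, hga⟩ := ha'
    have h := (h5 a b g hg).2 hab
    rw [hga] at h
    have hO := (E A (insert a' A) a' true (hin a') (hfi a')).2 (g b) h
    have hb' : b' ∈ Ge L A a' true (insert a' A) := hab'
    rw [hO] at hb'
    obtain ⟨k, hk, hkb⟩ := hb'
    refine ⟨k.comp g, ?_, ?_, ?_⟩
    · intro y hy
      rw [FirstOrder.Language.Equiv.comp_apply, hg y hy, hk y (mem_insert_of_mem _ hy)]
    · rw [FirstOrder.Language.Equiv.comp_apply, hga, hk a' (mem_insert _ _)]
    · rw [FirstOrder.Language.Equiv.comp_apply, hkb]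
  -- 8
  have h8 : ∀ a ∈ Orb L A x, ∀ b, Far L A a b → b ∈ Orb L A x ∧
      ∃ c ∈ Orb L A x, Far L A a c ∧ Far L A c b := by
    intro a ha b hab
    have hbp : b ∈ Orb L A x := by
      rw [← hp a ha]
      exact hab.1
    obtain ⟨c1, hc1⟩ := (E A (insert a A) a true (hin a) (hfi a)).1
    have hc1p : c1 ∈ Orb L A x := by
      rw [← hp a ha]
      exact hc1.1
    obtain ⟨c2, hc2⟩ := (E A (insert c1 (insert a A)) x true
      ((hin a).trans (subset_insert _ _)) ((hfi a).insert c1)).1
    have hf2 : Far L A c1 c2 := (h6 c1 hc1p (insert c1 (insert a A))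
      ((hin a).trans (subset_insert _ _)) ((hfi a).insert c1) (mem_insert _ _)).1 c2 hc2
    have hf3 : Far L A a c2 := (h6 a ha (insert c1 (insert a A))
      ((hin a).trans (subset_insert _ _)) ((hfi a).insert c1)
      (mem_insert_of_mem _ (mem_insert _ _))).1 c2 hc2
    obtain ⟨σ, hσ, hσa, hσb⟩ := h7 a ha a ha c2 b hf3 hab
    have hf1 : Far L A a c1 := hc1
    refine ⟨hbp, σ c1, ?_, ?_, ?_⟩
    · rw [← hp c1 hc1p]
      exact ⟨σ, hσ, rfl⟩
    · have := (h5 a c1 σ hσ).2 hf1
      rwa [hσa] at this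
    · have := (h5 c1 c2 σ hσ).2 hf2
      rwa [hσb] at this
  exact ⟨h1, h2, h3, h4, h5, h6, h7, h8⟩

end Pool.Agent.WOM
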