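import Pool.Agent.WOM.StC
import Pool.Agent.WOM.BFM

/-!
WOM, module FCG: finitely many gaps, countably many models (helper34).
-/

set_option autoImplicit false
set_option linter.unusedVariables false

namespace Pool.Agent.WOM

open FirstOrder.Language Set
open scoped FirstOrder

section

variable (L : FirstOrder.Language.{0, 0}) {U : Type} [L.Structure U]

/-- `M` has the gap data `k` -/
private def FCGdat (M : Set U) (k : (m : ℕ) × ((Fin m → U) × Finset U)) : Prop :=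
  (k.2.2 : Set U) ⊆ M ∧
    (∀ j, Unc L (k.2.2 : Set U) (k.2.1 j) M ∧ ¬ Isd L (k.2.2 : Set U) (k.2.1 j)) ∧
    ∀ (B' : Set U) (w : U), B'.Finite → (k.2.2 : Set U) ⊆ B' → B' ⊆ M → Unc L B' w M →
      ¬ Isd L B' w → ∃ j, Nn L B' w (k.2.1 j)

private theorem FCG_of_finG {M : Set U} (h : FinG L M) : ∃ k, FCGdat L M k := by
  obtain ⟨m, v, B, hB, hBM, h1, h2⟩ := h
  refine ⟨⟨m, v, hB.toFinset⟩, ?_, ?_, ?_⟩
  · simpa using hBM
  · intro j
    simpa using h1 j
  · intro B' w hB' hBB'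
    exact h2 B' w hB' (by simpa using hBB')

end

private theorem FCG_forth (hORB : St_ORB) (hNSB : St_NSB) (hCNV : St_CNV) (hSDI : St_SDI)
    (hUNG : St_UNG) (L : FirstOrder.Language.{0, 0}) (U : Type) [L.Structure U] [LinearOrder U]
    (hU : Wm L U) (M M' : Set U) (k : (m : ℕ) × ((Fin m → U) × Finset U))
    (hM : IsEl L M) (hM' : IsEl L M') (hk : FCGdat L M k) (hk' : FCGdat L M' k)
    (A : Set U) (g : U ≃[L] U) (hA : A.Finite) (hAM : A ⊆ M) (hkA : (k.2.2 : Set U) ⊆ A)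
    (hgk : ∀ b ∈ (k.2.2 : Set U), g b = b) (hgA : g '' A ⊆ M') (a : U) (ha : a ∈ M) :
    ∃ g' : U ≃[L] U, (∀ b ∈ A, g' b = g b) ∧ g' a ∈ M' := by
  obtain ⟨o1, o2, o3, o4, o5, o6, o7, o8, o9⟩ := hORB L U hU.mon
  obtain ⟨n1, n2, n3, n4, n5, n6⟩ := hNSB L U
  obtain ⟨-, c2⟩ := hCNV L U hU
  obtain ⟨s1, s2, s3, s4, s5⟩ := hSDI L U hU
  have hgAf : (g '' A).Finite := hA.image g
  by_cases hex : ∃ a' ∈ M', a' ∈ Orb L (g '' A) (g a)
  · obtain ⟨a', ha', τ, hτ, hτa⟩ := hex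
    refine ⟨τ.comp g, fun b hb => ?_, ?_⟩
    · show τ (g b) = g b
      exact hτ _ (mem_image_of_mem g hb)
    · show τ (g a) ∈ M'
      rw [hτa]
      exact ha'
  exfalso
  have hG : Orb L (g '' A) (g a) ∩ M' = ∅ := by
    rw [Set.eq_empty_iff_forall_notMem]
    rintro u ⟨hu1, hu2⟩
    exact hex ⟨u, hu2, hu1⟩
  have hnI : ¬ Isd L (g '' A) (g a) := by
    intro hI
    obtain ⟨u, hu⟩ := hM' _ (hI.mono hgA) ⟨g a, o1 _ _⟩
    rw [hG] at hu
    exact hu
  obtain ⟨t, ht⟩ : ∃ t, ¬ SD L (g '' A) (g a) t := by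
    by_contra hc
    push Not at hc
    exact hnI ((s1 _ _ hgAf).2 ⟨hc true, hc false⟩)
  obtain ⟨D, hD, hAD, hDM, hunc, hside⟩ := hUNG L U hU M' (Orb L (g '' A) (g a)) (g '' A) hM'
    (c2 _ _ hgAf).1 ⟨g a, o1 _ _⟩ hG hgAf hgA (fun u hu => (o2 _ _ _ hu).subset)
  obtain ⟨w, hwG, hwS, -⟩ := hside t
  have hwGe : w ∈ Ge L (g '' A) (g a) t D := ⟨hwG, hwS⟩
  have hw2 : ¬ SD L D w t := fun h => ht ((s2 _ _ _ _ _ hAD hD hwGe).1 h)
  have hw3 : ¬ Isd L D w := by
    intro h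
    have h4 := (s1 _ _ hD).1 h
    rcases t with _ | _
    · exact hw2 h4.2
    · exact hw2 h4.1
  have hkg : (k.2.2 : Set U) ⊆ g '' A := fun b hb => ⟨b, hkA hb, hgk b hb⟩
  obtain ⟨j, hj⟩ := hk'.2.2 D w hD (hkg.trans hAD) hDM (hunc w hwG) hw3
  have h1 : Nn L (g '' A) w (k.2.1 j) := by
    by_contra hc
    exact n6 hU.na _ _ _ _ hAD hD hc hj
  have h2 : Nn L (g '' A) (g a) (k.2.1 j) := by
    refine n2 _ _ _ _ _ ?_ (o1 _ _) h1
    rw [o2 _ _ _ hwG]
    exact o1 _ _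
  have h3 := n3 g.symm _ _ _ h2
  have e1 : g.symm '' (g '' A) = A := by
    rw [image_image]
    simp
  rw [e1, FirstOrder.Language.Equiv.symm_apply_apply] at h3
  have hU1 := (hk.2.1 j).1
  have hA1 : Orb L A (k.2.1 j) = Orb L (k.2.2 : Set U) (k.2.1 j) := hU1 A hA hkA hAM
  have h4 : g.symm (k.2.1 j) ∈ Orb L (k.2.2 : Set U) (k.2.1 j) := by
    refine ⟨g.symm, fun b hb => ?_, rfl⟩
    have := hgk b hb
    calc g.symm b = g.symm (g b) := by rw [this]
      _ = b := FirstOrder.Language.Equiv.symm_apply_apply _ _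
  have h5 : Nn L A a (k.2.1 j) := by
    refine n2 _ _ _ _ _ (o1 _ _) ?_ h3
    rw [← hA1] at h4
    rw [o2 _ _ _ h4]
    exact o1 _ _
  apply h5
  rw [hA1]
  exact hU1 (insert a A) (hA.insert a) (hkA.trans (subset_insert _ _)) (insert_subset ha hAM)

theorem thm_FCG (hORB : St_ORB) (hNSB : St_NSB) (hCNV : St_CNV) (hSDI : St_SDI)
    (hUNG : St_UNG) : St_FCG := by
  intro L U _ _ hU hfin
  have hcU : Countable U := hU.mon.ctb
  have hiso : ∀ (k : (m : ℕ) × ((Fin m → U) × Finset U)) (M M' : Set U), IsEl L M → IsEl L M' →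
      FCGdat L M k → FCGdat L M' k → IsoM L M M' := by
    intro k M M' hM hM' hk hk'
    refine thm_BFM L U M M' (Set.to_countable _) (Set.to_countable _)
      (fun A g => (k.2.2 : Set U) ⊆ A ∧ (∀ b ∈ (k.2.2 : Set U), g b = b) ∧ g '' A ⊆ M')
      ?_ ?_ ?_ ?_
    · refine ⟨(k.2.2 : Set U), FirstOrder.Language.Equiv.refl L U, Finset.finite_toSet _, hk.1,
        subset_rfl, fun b _ => rfl, ?_⟩
      rintro _ ⟨b, hb, rfl⟩
      exact hk'.1 hb
    · rintro A g hA hAM ⟨-, -, h⟩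
      exact h
    · rintro A g hA hAM ⟨h1, h2, h3⟩ x hx
      obtain ⟨g', hg1, hg2⟩ := FCG_forth hORB hNSB hCNV hSDI hUNG L U hU M M' k hM hM' hk hk'
        A g hA hAM h1 h2 h3 x hx
      refine ⟨g', hg1, h1.trans (subset_insert _ _), fun b hb => ?_, ?_⟩
      · rw [hg1 b (h1 hb)]
        exact h2 b hb
      · rintro _ ⟨b, rfl | hb, rfl⟩
        · exact hg2
        · rw [hg1 b hb]
          exact h3 ⟨b, hb, rfl⟩
    · rintro A g hA hAM ⟨h1, h2, h3⟩ y hy
      have e1 : g.symm '' (g '' A) = A := by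
        rw [image_image]
        simp
      obtain ⟨h, hh1, hh2⟩ := FCG_forth hORB hNSB hCNV hSDI hUNG L U hU M' M k hM' hM hk' hk
        (g '' A) g.symm (hA.image g) h3 (fun b hb => ⟨b, h1 hb, h2 b hb⟩)
        (fun b hb => by
          have := h2 b hb
          calc g.symm b = g.symm (g b) := by rw [this]
            _ = b := FirstOrder.Language.Equiv.symm_apply_apply _ _)
        (by rw [e1]; exact hAM) y hy
      have hga : ∀ a ∈ A, h.symm a = g a := by
        intro a ha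
        have h5 := hh1 (g a) ⟨a, ha, rfl⟩
        rw [FirstOrder.Language.Equiv.symm_apply_apply] at h5
        calc h.symm a = h.symm (h (g a)) := by rw [h5]
          _ = g a := FirstOrder.Language.Equiv.symm_apply_apply _ _
      refine ⟨h.symm, h y, hh2, hga, FirstOrder.Language.Equiv.symm_apply_apply _ _,
        h1.trans (subset_insert _ _), fun b hb => ?_, ?_⟩
      · rw [hga b (h1 hb)]
        exact h2 b hb
      · rintro _ ⟨b, rfl | hb, rfl⟩
        · rw [FirstOrder.Language.Equiv.symm_apply_apply]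
          exact hy
        · rw [hga b hb]
          exact h3 ⟨b, hb, rfl⟩
  classical
  obtain ⟨f, hf⟩ := exists_surjective_nat (Option ((m : ℕ) × ((Fin m → U) × Finset U)))
  refine ⟨fun n => if h : ∃ M : Set U, IsEl L M ∧ ∃ k, f n = some k ∧ FCGdat L M k then h.choose
    else ∅, fun M hM => ?_⟩
  obtain ⟨k, hk⟩ := FCG_of_finG L (hfin M hM)
  obtain ⟨n, hn⟩ := hf (some k)
  refine ⟨n, ?_⟩
  have hex : ∃ M : Set U, IsEl L M ∧ ∃ k, f n = some k ∧ FCGdat L M k := ⟨M, hM, k, hn, hk⟩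
  simp only [dif_pos hex]
  obtain ⟨h1, k', hk', h2⟩ := hex.choose_spec
  have : k' = k := Option.some.inj (hk'.symm.trans hn)
  subst this
  exact hiso k' M _ hM h1 hk h2

end Pool.Agent.WOM
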