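import Pool.Agent.WOM.StC

/-!
WOM [GAM] (helper16): the codes of the coordinates are constant.
-/

set_option autoImplicit false

namespace Pool.Agent.WOM

open FirstOrder.Language Set
open scoped FirstOrder

theorem GAM_bs {U : Type} (C : Set U) {m : ℕ} (x : Fin (m + 1) → U) (t : Fin m) :
    C ∪ range (fun j : Fin ((t : ℕ) + 1) => x ⟨j, by omega⟩) = bs C x t := by
  unfold bs
  congr 1
  ext y
  simp only [mem_range, mem_image, mem_setOf_eq]
  constructor
  · rintro ⟨j, rfl⟩
    refine ⟨_, ?_, rfl⟩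
    rw [Fin.le_def]
    simp only [Fin.val_castSucc]
    omega
  · rintro ⟨j, hj, rfl⟩
    rw [Fin.le_def] at hj
    simp only [Fin.val_castSucc] at hj
    exact ⟨⟨j, by omega⟩, rfl⟩

theorem thm_GAM : St_GAM := by
  intro L U _ _ hW C m x z s hN t τ hsd σ hσ
  have h := hN.low (t + 1) (by omega) C (fun j : Fin ((t : ℕ) + 1) => x ⟨j, by omega⟩) (x t.succ) τ
    hN.fin
  rw [GAM_bs C x t] at h
  exact h hsd σ hσ

end Pool.Agent.WOM
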