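import Pool.Agent.WOM.StC

/-!
WOM, module GER (helper44): calculus of first and last orbits.
-/

set_option autoImplicit false
set_option linter.unusedVariables false

namespace Pool.Agent.WOM

open FirstOrder.Language Set
open scoped FirstOrder

namespace GER

variable {U : Type} [LinearOrder U]

theorem leS_refl (t : Bool) (x : U) : leS t x x := by
  cases t <;> simp [leS]

theorem leS_trans {t : Bool} {x y z : U} (h : leS t x y) (h' : leS t y z) : leS t x z := by
  cases t
  · simp only [leS] at *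
    exact le_trans h' h
  · simp only [leS] at *
    exact le_trans h h'

theorem mem_of_between {p : Set U} (hp : p.OrdConnected) {t : Bool} {a b c : U} (ha : a ∈ p)
    (hc : c ∈ p) (h1 : leS t a b) (h2 : leS t b c) : b ∈ p := by
  cases t
  · simp only [leS] at h1 h2
    exact hp.out hc ha ⟨h2, h1⟩
  · simp only [leS] at h1 h2
    exact hp.out ha hc ⟨h1, h2⟩

end GER

open GER in
theorem thm_GER (hORB : St_ORB) (hCNV : St_CNV) (hGEX : St_GEX) : St_GER := by
  intro L U _ _ W
  obtain ⟨o1, o2, o3, o4, o5, o6, o7, o8, o9⟩ := hORB L U W.mon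
  obtain ⟨c1, c2⟩ := hCNV L U W
  have hgex := hGEX L U W
  have p2 : ∀ (A B C : Set U) (x : U) (t : Bool), A ⊆ B → B ⊆ C → C.Finite →
      Ge L A x t C ⊆ Ge L A x t B := by
    intro A B C x t hAB hBC hC v hv
    refine ⟨hv.1, fun w hw => ?_⟩
    obtain ⟨u, hu, hwu⟩ := hv.2 w hw
    exact ⟨u, o3 B C v hBC hu, hwu⟩
  refine ⟨?_, p2, ?_, ?_, ?_, ?_, ?_, ?_⟩
  · intro A B C x u t hAB hBC hC hu
    have hsub : Orb L B u ⊆ Orb L A x := by
      intro v hv
      have h1 := o3 A B u hAB hv
      rwa [o2 A x u hu.1] at h1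
    apply subset_antisymm
    · intro v hv
      refine ⟨hsub hv.1, fun w hw => ?_⟩
      obtain ⟨u', hu', hwu⟩ := hu.2 w hw
      obtain ⟨v', hv', huv⟩ := hv.2 u' hu'
      exact ⟨v', hv', leS_trans hwu huv⟩
    · intro v hv
      have h1 := p2 A B C x t hAB hBC hC hv
      rw [(hgex A B x t hAB (hC.subset hBC)).2 u hu] at h1
      refine ⟨h1, fun w hw => hv.2 w (hsub hw)⟩
  · intro A B C x t hAB hBC hC h
    unfold Ge
    rw [h]
  · intro A B x x' t hx
    unfold Ge
    rw [o2 A x x' hx]
  · intro σ A B x t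
    have hle : ∀ a b : U, leS t (σ a) (σ b) ↔ leS t a b := by
      intro a b
      cases t
      · simp only [leS]
        have := c1 σ a b
        constructor
        · intro h
          exact not_lt.1 (fun h' => absurd ((c1 σ a b).1 h') (not_lt.2 (by simpa using h)))
        · intro h
          have h2 : b ≤ a := by simpa using h
          simpa using not_lt.1 (fun h' => absurd ((c1 σ a b).2 h') (not_lt.2 h2))
      · simp only [leS]
        constructor
        · intro h
          have h2 : σ a ≤ σ b := by simpa using h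
          simpa using not_lt.1 (fun h' => absurd ((c1 σ b a).1 h') (not_lt.2 h2))
        · intro h
          have h2 : a ≤ b := by simpa using h
          simpa using not_lt.1 (fun h' => absurd ((c1 σ b a).2 h') (not_lt.2 h2))
    ext v
    constructor
    · rintro ⟨hv1, hv2⟩
      rw [o4] at hv1
      obtain ⟨v0, hv0, rfl⟩ := hv1
      refine ⟨v0, ⟨hv0, fun w hw => ?_⟩, rfl⟩
      rw [o4, o4] at hv2
      obtain ⟨u, hu, hwu⟩ := hv2 (σ w) ⟨w, hw, rfl⟩
      obtain ⟨u0, hu0, rfl⟩ := hu
      exact ⟨u0, hu0, (hle w u0).1 hwu⟩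
    · rintro ⟨v0, ⟨hv0, hv0'⟩, rfl⟩
      refine ⟨?_, ?_⟩
      · rw [o4]
        exact ⟨v0, hv0, rfl⟩
      · rw [o4, o4]
        rintro w ⟨w0, hw0, rfl⟩
        obtain ⟨u0, hu0, hwu⟩ := hv0' w0 hw0
        exact ⟨σ u0, ⟨u0, hu0, rfl⟩, (hle w0 u0).2 hwu⟩
  · intro A x t
    apply subset_antisymm
    · intro v hv
      exact hv.1
    · intro v hv
      refine ⟨hv, fun w hw => ⟨w, ?_, leS_refl t w⟩⟩
      rw [o2 A x v hv]
      exact hw
  · intro A B x u v t hAB hB hu hv huv
    rw [(hgex A B x t hAB hB).2 u hu]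
    obtain ⟨u1, hu1, hvu⟩ := hu.2 v hv
    exact mem_of_between (c2 B u hB).1 (o1 B u) hu1 huv hvu
  · intro A B x u hAB hB hu hu'
    have hsub : Orb L A x ⊆ Orb L B u := by
      intro w hw
      obtain ⟨u1, hu1, h1⟩ := hu.2 w hw
      obtain ⟨u2, hu2, h2⟩ := hu'.2 w hw
      simp only [leS] at h1 h2
      exact (c2 B u hB).1.out hu2 hu1 ⟨by simpa using h2, by simpa using h1⟩
    have hx : x ∈ Orb L B u := hsub (o1 A x)
    rw [o2 B u x hx]
    apply subset_antisymm
    · intro v hv
      have h1 := o3 A B u hAB hv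
      rwa [o2 A x u hu.1] at h1
    · exact hsub

end Pool.Agent.WOM
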