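import Pool.Agent.WOM.StC

/-!
WOM, module GEX (helper44): the last orbit over `B` exists and is unique.
-/

set_option autoImplicit false
set_option linter.unusedVariables false

namespace Pool.Agent.WOM

open FirstOrder.Language Set
open scoped FirstOrder

namespace GEX

variable {U : Type} [LinearOrder U]

theorem leS_refl (t : Bool) (x : U) : leS t x x := by
  cases t <;> simp [leS]

theorem leS_trans {t : Bool} {x y z : U} (h : leS t x y) (h' : leS t y z) : leS t x z := by
  cases t
  · simp only [leS] at *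
    exact le_trans h' h
  · simp only [leS] at *
    exact le_trans h h'

theorem leS_total (t : Bool) (x y : U) : leS t x y ∨ leS t y x := by
  cases t
  · simp only [leS]
    exact le_total y x
  · simp only [leS]
    exact le_total x y

/-- the further one of two points -/
theorem exists_far {p : Set U} (t : Bool) {x y : U} (hx : x ∈ p) (hy : y ∈ p) :
    ∃ z ∈ p, leS t x z ∧ leS t y z := by
  rcases leS_total t x y with h | h
  · exact ⟨y, hy, h, leS_refl t y⟩
  · exact ⟨x, hx, leS_refl t x, h⟩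

theorem mem_of_between {p : Set U} (hp : p.OrdConnected) {t : Bool} {a b c : U} (ha : a ∈ p)
    (hc : c ∈ p) (h1 : leS t a b) (h2 : leS t b c) : b ∈ p := by
  cases t
  · simp only [leS] at h1 h2
    exact hp.out hc ha ⟨h2, h1⟩
  · simp only [leS] at h1 h2
    exact hp.out ha hc ⟨h1, h2⟩

end GEX

open GEX in
theorem thm_GEX (hDFN : St_DFN) (hORB : St_ORB) (hCNV : St_CNV) (hEVD : St_EVD) : St_GEX := by
  intro L U _ _ W A B x t hAB hB
  have hA : A.Finite := hB.subset hAB
  obtain ⟨o1, o2, o3, o4, o5, o6, o7, o8, o9⟩ := hORB L U W.mon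
  obtain ⟨-, -, -, d4⟩ := hDFN L U W.ord B
  obtain ⟨c1, c2⟩ := hCNV L U W
  have hev := hEVD L U W
  have hxp : x ∈ Orb L A x := o1 A x
  have hconv : ∀ v : U, (Orb L B v).OrdConnected := fun v => (c2 B v hB).1
  have huniv : ∀ s : Set U, B.Definable₁ L s → (univ : Set U).Definable₁ L s := fun s hs =>
    hs.mono (subset_univ B)
  -- the second claim
  have key : ∀ u ∈ Ge L A x t B, Ge L A x t B = Orb L B u := by
    intro u hu
    obtain ⟨hu1, hu2⟩ := hu
    apply subset_antisymm
    · intro v hv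
      obtain ⟨hv1, hv2⟩ := hv
      obtain ⟨v1, hv1m, hv1l⟩ := hv2 u hu1
      have hv1p : v1 ∈ Orb L A x := by
        have h1 := o3 A B v hAB hv1m
        rw [o2 A x v hv1] at h1
        exact h1
      obtain ⟨u1, hu1m, hu1l⟩ := hu2 v1 hv1p
      have hmeet : v1 ∈ Orb L B u := mem_of_between (hconv u) (o1 B u) hu1m hv1l hu1l
      have e1 := o2 B u v1 hmeet
      have e2 := o2 B v v1 hv1m
      rw [← e1, e2]
      exact o1 B v
    · intro v hv
      have h1 := o3 A B u hAB hv
      rw [o2 A x u hu1] at h1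
      refine ⟨h1, ?_⟩
      rw [o2 B u v hv]
      exact hu2
  refine ⟨?_, key⟩
  -- existence
  set F : Set (Set U) := {s | B.Definable₁ L s ∧ ∃ w ∈ Orb L A x, ∀ u ∈ Orb L A x,
    leS t w u → u ∈ s} with hF
  have hne : (⋂₀ F).Nonempty := by
    apply W.mon.sat B hB F (fun s hs => hs.1)
    intro G hGF hG
    have h1 : ∃ w ∈ Orb L A x, ∀ u ∈ Orb L A x, leS t w u → u ∈ ⋂₀ G := by
      clear key
      induction G, hG using Set.Finite.induction_on with
      | empty => exact ⟨x, hxp, fun u _ _ => by simp⟩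
      | @insert a s ha hs ih =>
        obtain ⟨w1, hw1, hw1'⟩ := ih (fun b hb => hGF (mem_insert_of_mem a hb))
        obtain ⟨-, w2, hw2, hw2'⟩ := hGF (mem_insert a s)
        obtain ⟨w, hw, hwa, hwb⟩ := exists_far t hw1 hw2
        refine ⟨w, hw, fun u hu hwu => ?_⟩
        rw [sInter_insert]
        exact ⟨hw2' u hu (leS_trans hwb hwu), hw1' u hu (leS_trans hwa hwu)⟩
    obtain ⟨w, hw, hw'⟩ := h1
    exact ⟨w, hw' w hw (leS_refl t w)⟩
  obtain ⟨u, hu⟩ := hne
  have hup : u ∈ Orb L A x := by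
    by_contra hn
    obtain ⟨s, hs, hxs, hus⟩ := o7 A x u hA hn
    exact hus (hu s ⟨hs.mono hAB, x, hxp, fun v hv _ => o6 A s hs x hxs hv⟩)
  refine ⟨u, hup, ?_⟩
  intro w hw
  -- every B-definable set containing u contains a final part
  have hfin : ∀ s : Set U, B.Definable₁ L s → u ∈ s →
      ∃ w' ∈ Orb L A x, ∀ v ∈ Orb L A x, leS t w' v → v ∈ s := by
    intro s hs hus
    rcases hev (Orb L A x) s t ⟨x, hxp⟩ (huniv s hs) with h | ⟨w', hw', h⟩
    · exact h
    · exfalso
      have : sᶜ ∈ F := ⟨hs.compl, w', hw', h⟩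
      exact hu _ this hus
  set F' : Set (Set U) := insert {v | leS t w v} {s | B.Definable₁ L s ∧ u ∈ s} with hF'
  have hne' : (⋂₀ F').Nonempty := by
    apply W.mon.sat (insert w B) (hB.insert w) F'
    · intro s hs
      rcases hs with rfl | hs
      · exact (d4 w t).mono (by
          intro y hy
          rw [mem_singleton_iff] at hy
          rw [hy]
          exact mem_insert w B)
      · exact hs.1.mono (subset_insert w B)
    intro G hGF hG
    have h1 : ∃ w' ∈ Orb L A x, leS t w w' ∧ ∀ v ∈ Orb L A x, leS t w' v → v ∈ ⋂₀ G := by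
      induction G, hG using Set.Finite.induction_on with
      | empty => exact ⟨w, hw, leS_refl t w, fun u _ _ => by simp⟩
      | @insert a s ha hs ih =>
        obtain ⟨w1, hw1, hw1l, hw1'⟩ := ih (fun b hb => hGF (mem_insert_of_mem a hb))
        have h2 : ∃ w2 ∈ Orb L A x, ∀ v ∈ Orb L A x, leS t w2 v → v ∈ a := by
          rcases hGF (mem_insert a s) with h | h
          · exact ⟨w, hw, fun v hv hwv => by rw [h]; exact hwv⟩
          · exact hfin a h.1 h.2
        obtain ⟨w2, hw2, hw2'⟩ := h2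
        obtain ⟨w3, hw3, hwa, hwb⟩ := exists_far t hw1 hw2
        refine ⟨w3, hw3, leS_trans hw1l hwa, fun v hv hwv => ?_⟩
        rw [sInter_insert]
        exact ⟨hw2' v hv (leS_trans hwb hwv), hw1' v hv (leS_trans hwa hwv)⟩
    obtain ⟨w', hw', -, h⟩ := h1
    exact ⟨w', h w' hw' (leS_refl t w')⟩
  obtain ⟨v, hv⟩ := hne'
  refine ⟨v, ?_, hv _ (mem_insert _ _)⟩
  by_contra hn
  obtain ⟨s, hs, hus, hvs⟩ := o7 B u v hB hn
  exact hvs (hv s (mem_insert_of_mem _ ⟨hs, hus⟩))

end Pool.Agent.WOM
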