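import Pool.Agent.WOM.StC

/-!
WOM: module INF (helper85).
-/

set_option autoImplicit false
set_option linter.unusedVariables false

namespace Pool.Agent.WOM

open FirstOrder.Language Set
open scoped FirstOrder

theorem thm_INF (hORB : St_ORB) (hSDI : St_SDI) : St_INF := by
  intro L U _ _ hW M hM hF
  obtain ⟨o1, o2, o3, o4, o5, o6, o7, o8, o9⟩ := hORB L U hW.mon
  obtain ⟨d1, d2, d3, d4, d5⟩ := hSDI L U hW
  let P : Set U × U → Prop := fun p =>
    p.1.Finite ∧ p.1 ⊆ M ∧ Unc L p.1 p.2 M ∧ ¬ Isd L p.1 p.2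
  let R : Set U × U → Set U × U → Prop := fun p q => p.1 ⊆ q.1 ∧ ¬ Nn L q.1 q.2 p.2
  have key : ∀ s : Finset (Set U × U), (∀ x ∈ s, P x) → ∃ y, P y ∧ ∀ x ∈ s, R x y := by
    intro s hs
    let B : Set U := ⋃ x ∈ s, x.1
    have hBf : B.Finite := s.finite_toSet.biUnion fun x hx => (hs x hx).1
    have hBM : B ⊆ M := iUnion₂_subset fun x hx => (hs x hx).2.1
    have hsub : ∀ x ∈ s, x.1 ⊆ B := fun x hx => subset_iUnion₂ (s := fun x (_ : x ∈ s) => x.1) x hx
    obtain ⟨m, f, hf⟩ : ∃ (m : ℕ) (f : Fin m → Set U × U), range f = (s : Set (Set U × U)) := by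
      refine ⟨s.card, fun i => (s.equivFin.symm i : Set U × U), ?_⟩
      ext y
      constructor
      · rintro ⟨i, rfl⟩
        exact (s.equivFin.symm i).2
      · intro hy
        exact ⟨s.equivFin ⟨y, hy⟩, by simp⟩
    have hfs : ∀ j, f j ∈ s := fun j => by
      have : f j ∈ (s : Set (Set U × U)) := hf ▸ mem_range_self j
      exact this
    have hcond : ∀ j, Unc L B (f j).2 M ∧ ¬ Isd L B (f j).2 := by
      intro j
      obtain ⟨h1, h2, h3, h4⟩ := hs _ (hfs j)
      have h5 := h3 B hBf (hsub _ (hfs j)) hBM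
      refine ⟨fun D hD hBD hDM => ?_, ?_⟩
      · rw [h3 D hD ((hsub _ (hfs j)).trans hBD) hDM, h5]
      · rw [(d3 (f j).1 B (f j).2 (hsub _ (hfs j)) hBf h5).1]
        exact h4
    by_contra hcon
    apply hF
    refine ⟨m, fun j => (f j).2, B, hBf, hBM, hcond, ?_⟩
    intro B' w hB'f hBB' hB'M hu hi
    by_contra hno
    push Not at hno
    refine hcon ⟨(B', w), ⟨hB'f, hB'M, hu, hi⟩, fun x hx => ⟨(hsub x hx).trans hBB', ?_⟩⟩
    obtain ⟨j, hj⟩ : x ∈ range f := by rw [hf]; exact hx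
    have := hno j
    rw [hj] at this
    exact this
  obtain ⟨f, hf1, hf2⟩ := exists_seq_of_forall_finset_exists P R key
  refine ⟨fun n => (f n).1, fun n => (f n).2, hf1, ?_, fun i n hin => (hf2 i n hin).2⟩
  exact monotone_nat_of_le_succ fun n => (hf2 n (n + 1) (Nat.lt_succ_self n)).1

end Pool.Agent.WOM
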