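import Pool.Agent.WOM.StC

/-!
WOM [ISO]: isolated and nonisolated types are weakly orthogonal (helper87).
-/

set_option autoImplicit false
set_option linter.unusedVariables false

namespace Pool.Agent.WOM

open FirstOrder.Language Set
open scoped FirstOrder

theorem thm_ISO (hNSB : St_NSB) (hSMA : St_SMA) (hSMB : St_SMB) (hSDI : St_SDI) : St_ISO := by
  intro L U _ _ hW A x z hA hx hz
  have key : ¬ Nn L A x z := by
    intro hN
    obtain ⟨e, he, -, -⟩ := hSMA L U hW A x z hA hN
    have hx2 := (((hSDI L U hW).1 A x hA).1 hx)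
    have h1 : SD L A z (sg e true) := hSMB L U hW A x z e true hA hN he hx2.1
    have h2 : SD L A z (sg e false) := hSMB L U hW A x z e false hA hN he hx2.2
    apply hz
    apply ((hSDI L U hW).1 A z hA).2
    cases e
    · simp only [sg, Bool.false_eq_true, if_false, Bool.not_true, Bool.not_false] at h1 h2
      exact ⟨h2, h1⟩
    · simp only [sg, if_true] at h1 h2
      exact ⟨h1, h2⟩
  exact ⟨key, fun h => key ((hNSB L U).1 A z x h)⟩

end Pool.Agent.WOM
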