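import Pool.Agent.WOM.StC

/-!
WOM: classes of a minimal nonconstant code (helper25)
-/

set_option autoImplicit false

namespace Pool.Agent.WOM

open FirstOrder.Language Set
open scoped FirstOrder

section

variable {L : FirstOrder.Language.{0, 0}} {U : Type} [L.Structure U]

theorem KAP_comp (σ ρ : U ≃[L] U) (a : U) : (σ.comp ρ) a = σ (ρ a) := rfl

theorem KAP_ext {ρ ρ' : U ≃[L] U} (h : ∀ a, ρ a = ρ' a) : ρ = ρ' :=
  FirstOrder.Language.Equiv.ext h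

theorem KAP_sym {A : Set U} {ρ : U ≃[L] U} (h : Fx L A ρ) : Fx L A ρ.symm := by
  intro a ha
  have h1 : ρ.symm (ρ a) = a := ρ.symm_apply_apply a
  rw [h a ha] at h1
  exact h1

theorem KAP_mul {A : Set U} {σ ρ : U ≃[L] U} (h : Fx L A σ) (h' : Fx L A ρ) :
    Fx L A (σ.comp ρ) := by
  intro a ha
  rw [KAP_comp, h' a ha, h a ha]

theorem KAP_one (A : Set U) : Fx L A (FirstOrder.Language.Equiv.refl L U) := fun _ _ => rfl

/-- the automorphism `ρ' ρ⁻¹` -/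
theorem KAP_div (ρ ρ' : U ≃[L] U) : ∃ σ : U ≃[L] U, (∀ a, σ (ρ a) = ρ' a) ∧
    (∀ A : Set U, Fx L A ρ → Fx L A ρ' → Fx L A σ) ∧ σ.comp ρ = ρ' := by
  have h1 : ∀ a, (ρ'.comp ρ.symm) (ρ a) = ρ' a := by
    intro a
    rw [KAP_comp, ρ.symm_apply_apply]
  exact ⟨ρ'.comp ρ.symm, h1, fun A h h' => KAP_mul h' (KAP_sym h), KAP_ext h1⟩

theorem KAP_mg (σ ρ : U ≃[L] U) (g : Gm U) : mg L σ (mg L ρ g) = mg L (σ.comp ρ) g := by
  obtain ⟨A, x, t⟩ := g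
  refine Prod.ext ?_ rfl
  show σ '' (ρ '' A) = (σ.comp ρ) '' A
  rw [Set.image_image]
  rfl

theorem KAP_mg_one (g : Gm U) : mg L (FirstOrder.Language.Equiv.refl L U) g = g := by
  obtain ⟨A, x, t⟩ := g
  refine Prod.ext ?_ rfl
  show (FirstOrder.Language.Equiv.refl L U) '' A = A
  exact Set.image_id A

theorem KAP_img {A : Set U} {ρ : U ≃[L] U} (h : Fx L A ρ) : ρ '' A = A := by
  ext a
  constructor
  · rintro ⟨b, hb, rfl⟩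
    rw [h b hb]
    exact hb
  · intro ha
    exact ⟨a, ha, h a ha⟩

end

theorem thm_KAP (hGEX : St_GEX) (hSDI : St_SDI) (hFAR : St_FAR) (hEQG : St_EQG) : St_KAP := by
  intro L U _ _ hw C m x z s hN
  obtain ⟨-, -, -, sdi4, -⟩ := hSDI L U hw
  obtain ⟨eq1, eq2, eq3, -, -, -, -, -⟩ := hEQG L U hw
  have hC := hN.fin
  have hBf : (C ∪ range x).Finite := hC.union (Set.finite_range x)
  -- (f)
  have kf : ∀ ρ : U ≃[L] U, (gr L C x z s ρ).1.Finite ∧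
      ¬ SD L (gr L C x z s ρ).1 (gr L C x z s ρ).2.1 s := by
    intro ρ
    refine ⟨hBf.image ρ, fun h => hN.nsd ?_⟩
    exact ((sdi4 ρ (C ∪ range x) z).2 s).1 h
  -- (e)
  have ke : ∀ σ ρ : U ≃[L] U, mg L σ (gr L C x z s ρ) = gr L C x z s (σ.comp ρ) :=
    fun σ ρ => KAP_mg σ ρ _
  have k1 : gr L C x z s (FirstOrder.Language.Equiv.refl L U) = ((C ∪ range x, z, s) : Gm U) :=
    KAP_mg_one _
  -- (a)
  have ka : ∀ ρ ρ' : U ≃[L] U, Fx L C ρ → Fx L C ρ' → ρ (x 0) = ρ' (x 0) →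
      Eqg L (gr L C x z s ρ) (gr L C x z s ρ') := by
    intro ρ ρ' hρ hρ' h0
    obtain ⟨σ, hσ1, hσ2, hσ3⟩ := KAP_div ρ ρ'
    have hfix : Fx L (insert (ρ (x 0)) C) σ := by
      intro a ha
      rcases Set.mem_insert_iff.1 ha with rfl | ha
      · rw [hσ1, h0]
      · exact hσ2 C hρ hρ' a ha
    have hset : insert (ρ (x 0)) C ∪ range (fun j : Fin m => ρ (x j.succ)) =
        ρ '' (C ∪ range x) := by
      rw [Set.image_union, KAP_img hρ]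
      ext a
      constructor
      · rintro (ha | ⟨j, rfl⟩)
        · rcases Set.mem_insert_iff.1 ha with rfl | ha
          · exact Or.inr ⟨x 0, ⟨0, rfl⟩, rfl⟩
          · exact Or.inl ha
        · exact Or.inr ⟨x j.succ, ⟨j.succ, rfl⟩, rfl⟩
      · rintro (ha | ⟨_, ⟨j, rfl⟩, rfl⟩)
        · exact Or.inl (Set.mem_insert_of_mem _ ha)
        · rcases Fin.eq_zero_or_eq_succ j with rfl | ⟨i, rfl⟩
          · exact Or.inl (Set.mem_insert _ _)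
          · exact Or.inr ⟨i, rfl⟩
    have hsd : ¬ SD L (insert (ρ (x 0)) C ∪ range (fun j : Fin m => ρ (x j.succ))) (ρ z) s := by
      rw [hset]
      exact (kf ρ).2
    have h1 := hN.low m le_rfl (insert (ρ (x 0)) C) (fun j : Fin m => ρ (x j.succ)) (ρ z) s
      (hC.insert _) hsd σ hfix
    rw [hset] at h1
    have h2 : Eqg L (gr L C x z s ρ) (mg L σ (gr L C x z s ρ)) := h1
    rw [ke, hσ3] at h2
    exact h2
  -- (c)
  obtain ⟨σ₀, hσ₀, hnon⟩ := hN.non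
  have kc : Orb L C (x 0) ≠ {x 0} := by
    intro h
    apply hnon
    have h1 : σ₀ (x 0) ∈ Orb L C (x 0) := ⟨σ₀, hσ₀, rfl⟩
    rw [h] at h1
    have h2 := ka (FirstOrder.Language.Equiv.refl L U) σ₀ (KAP_one C) hσ₀
      (Set.mem_singleton_iff.1 h1).symm
    rw [k1] at h2
    exact h2
  obtain ⟨-, -, -, -, -, far6, far7, -⟩ := hFAR L U hw C (x 0) hC kc
  -- (b)
  have kb : ∀ ρ ρ' : U ≃[L] U, Fx L C ρ → Fx L C ρ' → Far L C (ρ (x 0)) (ρ' (x 0)) →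
      ¬ Eqg L (gr L C x z s ρ) (gr L C x z s ρ') := by
    intro ρ ρ' hρ hρ' hfar heq
    have c1 : ∀ ρ₁ ρ₂ : U ≃[L] U, Fx L C ρ₁ → Fx L C ρ₂ → Far L C (ρ₁ (x 0)) (ρ₂ (x 0)) →
        Eqg L (gr L C x z s ρ₁) (gr L C x z s ρ₂) := by
      intro ρ₁ ρ₂ h₁ h₂ hf
      obtain ⟨σ, hσ, hσ1, hσ2⟩ := far7 (ρ (x 0)) ⟨ρ, hρ, rfl⟩ (ρ₁ (x 0)) ⟨ρ₁, h₁, rfl⟩
        (ρ' (x 0)) (ρ₂ (x 0)) hfar hf
      have e1 := eq3 σ _ _ heq
      rw [ke, ke] at e1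
      have e2 : Eqg L (gr L C x z s ρ₁) (gr L C x z s (σ.comp ρ)) :=
        ka _ _ h₁ (KAP_mul hσ hρ) (by rw [KAP_comp, hσ1])
      have e3 : Eqg L (gr L C x z s (σ.comp ρ')) (gr L C x z s ρ₂) :=
        ka _ _ (KAP_mul hσ hρ') h₂ (by rw [KAP_comp, hσ2])
      exact eq2 _ _ _ (kf _).1 (eq2 _ _ _ (kf _).1 e2 e1) e3
    have c2 : ∀ ρ₁ ρ₂ : U ≃[L] U, Fx L C ρ₁ → Fx L C ρ₂ →
        Eqg L (gr L C x z s ρ₁) (gr L C x z s ρ₂) := by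
      intro ρ₁ ρ₂ h₁ h₂
      have hB : (insert (ρ₁ (x 0)) (insert (ρ₂ (x 0)) C)).Finite := (hC.insert _).insert _
      have hCB : C ⊆ insert (ρ₁ (x 0)) (insert (ρ₂ (x 0)) C) :=
        (Set.subset_insert _ _).trans (Set.subset_insert _ _)
      obtain ⟨b, hb⟩ := (hGEX L U hw C _ (x 0) true hCB hB).1
      obtain ⟨ρ₃, h₃, h₃'⟩ := hb.1
      have f1 := (far6 (ρ₁ (x 0)) ⟨ρ₁, h₁, rfl⟩ _ hCB hB (Set.mem_insert _ _)).1 b hb
      have f2 := (far6 (ρ₂ (x 0)) ⟨ρ₂, h₂, rfl⟩ _ hCB hB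
        (Set.mem_insert_of_mem _ (Set.mem_insert _ _))).1 b hb
      rw [← h₃'] at f1 f2
      exact eq2 _ _ _ (kf ρ₃).1 (c1 ρ₁ ρ₃ h₁ h₃ f1) (eq1 _ _ (c1 ρ₂ ρ₃ h₂ h₃ f2))
    apply hnon
    have h2 := c2 (FirstOrder.Language.Equiv.refl L U) σ₀ (KAP_one C) hσ₀
    rw [k1] at h2
    exact h2
  -- (d)
  refine ⟨ka, kb, kc, ?_, ke, kf⟩
  intro h hh hinv ρ hρ heq
  have d1 : ∀ ρ' : U ≃[L] U, Fx L C ρ' → Eqg L (gr L C x z s ρ') h := by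
    intro ρ' hρ'
    obtain ⟨σ, hσ1, hσ2, hσ3⟩ := KAP_div ρ ρ'
    have e1 := eq3 σ _ _ heq
    rw [ke, hσ3] at e1
    exact eq2 _ _ _ (hh.image σ) e1 (eq1 _ _ (hinv σ (hσ2 C hρ hρ')))
  apply hnon
  have h2 := eq2 _ _ _ hh (d1 (FirstOrder.Language.Equiv.refl L U) (KAP_one C))
    (eq1 _ _ (d1 σ₀ hσ₀))
  rw [k1] at h2
  exact h2

end Pool.Agent.WOM
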