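import Pool.Agent.WOM.StC

/-!
WOM: module LEJ (helper85).
-/

set_option autoImplicit false
set_option linter.unusedVariables false
set_option linter.unusedSectionVars false

namespace Pool.Agent.WOM

open FirstOrder.Language Set
open scoped FirstOrder
open Pool.Agent.Helper79.VC

namespace LEJ

variable {L : FirstOrder.Language.{0, 0}} {U : Type} [S : L.Structure U]

/-- several moves -/
theorem fth {M M' : Set U} {δ : Ordinal.{0}} : ∀ (n : ℕ) (Γ : Set (U × U)),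
    BFR S S M M' (δ + n) Γ → ∀ a : Fin n → U, (∀ i, a i ∈ M) →
    ∃ b : Fin n → U, (∀ i, b i ∈ M') ∧ BFR S S M M' δ (Γ ∪ range fun i => (a i, b i)) := by
  intro n
  induction n with
  | zero =>
    intro Γ h a ha
    refine ⟨fun i => i.elim0, fun i => i.elim0, ?_⟩
    have : Γ ∪ range (fun i : Fin 0 => (a i, (fun i => i.elim0 : Fin 0 → U) i)) = Γ := by
      rw [range_eq_empty, union_empty]
    rw [this]
    simpa using h
  | succ n ih =>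
    intro Γ h a ha
    have hlt : δ + (n : Ordinal.{0}) < δ + ((n + 1 : ℕ) : Ordinal.{0}) := by
      rw [add_lt_add_iff_left]
      exact_mod_cast Nat.lt_succ_self n
    obtain ⟨y, hy, h1⟩ := h.forth hlt (ha (Fin.last n))
    obtain ⟨b, hb, h2⟩ := ih _ h1 (fun i => a i.castSucc) (fun i => ha _)
    refine ⟨Fin.snoc b y, ?_, ?_⟩
    · intro i
      refine Fin.lastCases ?_ (fun j => ?_) i
      · simpa using hy
      · simpa using hb j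
    · refine BFR.anti ?_ h2
      rintro p (hp | ⟨i, rfl⟩)
      · exact Or.inl (mem_insert_of_mem _ hp)
      · refine Fin.lastCases ?_ (fun j => ?_) i
        · left
          simp
        · right
          exact ⟨j, by simp⟩

variable [LinearOrder U]

/-- the element `y` is at the position of `q` -/
def At (C : Set U) (x0 : U) (r : ℕ → (U ≃[L] U)) (e : ℚ → ℕ) (q : ℚ) (y : U) : Prop :=
  y ∈ Orb L C x0 ∧ ¬ Far L C y (r (e q) x0) ∧ ¬ Far L C (r (e q) x0) y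

/-- constraints -/
def Cs (k : Bool × (ℚ × ℚ)) (q : ℚ) : Prop := if k.1 = true then k.2.1 < q else q < k.2.1

/-- constraints, the other side -/
def Cs' (k : Bool × (ℚ × ℚ)) (q : ℚ) : Prop := if k.1 = true then k.2.2 < q else q < k.2.2

/-- compatible constraints -/
def Cpt (C : Set U) (x0 : U) (r r' : ℕ → (U ≃[L] U)) (e : ℚ → ℕ) (J J' : Set ℚ)
    (K : Set (Bool × (ℚ × ℚ))) (Γ : Set (U × U)) : Prop :=
  ∀ k ∈ K, k.2.1 ∈ J ∧ k.2.2 ∈ J' ∧ ∃ y y', (y, y') ∈ Γ ∧ At C x0 r e k.2.1 y ∧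
    At C x0 r' e k.2.2 y'

theorem mem_orb {C : Set U} {m : ℕ} {x : Fin (m + 1) → U} {ρ : U ≃[L] U} (h : Fx L C ρ) :
    ρ (x 0) ∈ Orb L C (x 0) := ⟨ρ, h, rfl⟩

theorem lt_iff (hFAR : St_FAR) (hW : Wm L U) {C : Set U} (hC : C.Finite) {m : ℕ}
    {x : Fin (m + 1) → U} {z : U} {s t : Bool} (hne : Orb L C (x 0) ≠ {x 0})
    {c₀ : Cfg L U} {e : ℚ → ℕ} {J : Set ℚ} {M : Set U} {w : ℕ → U}
    {r : ℕ → (U ≃[L] U)} {Dd : ℕ → Set U} (hM : MJ L C x z s t c₀ e J M w r Dd)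
    {a q : ℚ} (ha : a ∈ J) (hq : q ∈ J) {y y2 : U} (hy : At C (x 0) r e a y)
    (hy2 : At C (x 0) r e q y2) : a < q ↔ Far L C y y2 := by
  obtain ⟨f1, f2, f3, f4, f5, f6, f7, f8⟩ := hFAR L U hW C (x 0) hC hne
  have ho : ∀ a ∈ J, r (e a) (x 0) ∈ Orb L C (x 0) := fun a ha =>
    mem_orb (hM.fx (e a) (Or.inr ⟨a, ha, rfl⟩)).1
  have key : ∀ a ∈ J, ∀ q ∈ J, ∀ y y2, At C (x 0) r e a y → At C (x 0) r e q y2 → a < q →
      Far L C y y2 := by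
    intro a ha q hq y y2 hy hy2 h
    have h1 := hM.or a ha q hq h
    have h2 : Far L C y (r (e q) (x 0)) := by
      rcases f4 _ (ho a ha) y hy.1 _ (ho q hq) h1 with h2 | h2
      · exact absurd h2 hy.2.2
      · exact h2
    rcases f4 _ hy.1 y2 hy2.1 _ (ho q hq) h2 with h3 | h3
    · exact h3
    · exact absurd h3 hy2.2.1
  refine ⟨key a ha q hq y y2 hy hy2, fun h => ?_⟩
  by_contra hc
  rcases eq_or_lt_of_le (not_lt.mp hc) with h1 | h1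
  · subst h1
    rcases f4 _ hy.1 _ (ho q hq) _ hy2.1 h with h2 | h2
    · exact hy.2.1 h2
    · exact hy2.2.2 h2
  · have h2 := key q hq a ha y2 y hy2 hy h1
    exact lt_asymm (f1 _ hy.1 _ hy2.1 h) (f1 _ hy2.1 _ hy.1 h2)

/-- one step -/
theorem step (hLV0 : St_LV0) (hFAR : St_FAR) (hDCJ : St_DCJ) (hLVP : St_LVP)
    [∀ n, IsEmpty (L.Functions n)] (hW : Wm L U) {C : Set U} {m : ℕ}
    {x : Fin (m + 1) → U} {z : U} {s t : Bool} (hN : NCx L C x z s) (hne : Orb L C (x 0) ≠ {x 0})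
    {c₀ : Cfg L U} (hc₀ : Vc L C x z s c₀) {e : ℚ → ℕ} (hinj : Function.Injective e)
    (he : ∀ q, e q ∉ c₀.I) {J J' : Set ℚ} {M M' : Set U} {w w' : ℕ → U}
    {r r' : ℕ → (U ≃[L] U)} {Dd Dd' : ℕ → Set U} (hM : MJ L C x z s t c₀ e J M w r Dd)
    (hM' : MJ L C x z s t c₀ e J' M' w' r' Dd') {K : Set (Bool × (ℚ × ℚ))} {Γ : Set (U × U)}
    (hΓ : Γ.Finite) (hΓM : ∀ p ∈ Γ, p.1 ∈ M ∧ p.2 ∈ M') (hΓ0 : ∀ a ∈ c₀.D, (a, a) ∈ Γ)
    (hK : Cpt C (x 0) r r' e J J' K Γ) {δ : Ordinal.{0}}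
    (hδ : Ordinal.omega0 + Ordinal.omega0 + Ordinal.omega0 ≤ δ)
    (hB : BFR S S M M' (δ + ((m + 1 : ℕ) : Ordinal.{0})) Γ) {q : ℚ} (hq : q ∈ J)
    (hqK : ∀ k ∈ K, Cs k q) :
    ∃ q' ∈ J', (∀ k ∈ K, Cs' k q') ∧ ∃ Γ' : Set (U × U), Γ ⊆ Γ' ∧ Γ'.Finite ∧
      (∀ p ∈ Γ', p.1 ∈ M ∧ p.2 ∈ M') ∧ BFR S S M M' δ Γ' ∧
      ∃ y y', (y, y') ∈ Γ' ∧ At C (x 0) r e q y ∧ At C (x 0) r' e q' y' := by
  have hC := hN.fin
  obtain ⟨f1, f2, f3, f4, f5, f6, f7, f8⟩ := hFAR L U hW C (x 0) hC hne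
  have heq : e q ∈ c₀.I ∪ e '' J := Or.inr ⟨q, hq, rfl⟩
  have hr := hM.fx (e q) heq
  have hdd := hM.dd (e q) heq
  obtain ⟨b, hb, hB'⟩ := fth (m + 1) Γ hB (fun j => r (e q) (x j)) (fun j => hdd.2.2 (hr.2 j))
  set Γ' : Set (U × U) := Γ ∪ range fun j => (r (e q) (x j), b j) with hΓ'
  have hΓ'f : Γ'.Finite := hΓ.union (finite_range _)
  have hΓ'M : ∀ p ∈ Γ', p.1 ∈ M ∧ p.2 ∈ M' := by
    rintro p (hp | ⟨j, rfl⟩)
    · exact hΓM p hp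
    · exact ⟨hdd.2.2 (hr.2 j), hb j⟩
  have hmem : ∀ j, (r (e q) (x j), b j) ∈ Γ' := fun j => Or.inr ⟨j, rfl⟩
  have hD := hDCJ L U hW C m x z s hN t c₀ e J M w r Dd hM hinj he
  have hD' := hDCJ L U hW C m x z s hN t c₀ e J' M' w' r' Dd' hM' hinj he
  obtain ⟨ρ', hρ', hPsi⟩ := hLVP L U hW C m x z s hN t c₀ M M' Γ' δ hc₀ hM.el hM'.el hΓ'f hΓ'M
    (fun a ha => Or.inl (hΓ0 a ha)) hδ hB' (r (e q)) b hmem (hD.1 q hq)
  obtain ⟨q', hq', hn1, hn2⟩ := hD'.2 ρ' hPsi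
  have hρ'C : Fx L C ρ' := hPsi.1.1
  have hat' : At C (x 0) r' e q' (b 0) := by
    refine ⟨?_, ?_, ?_⟩
    · rw [← hρ' 0]; exact mem_orb hρ'C
    · rw [← hρ' 0]; exact hn1
    · rw [← hρ' 0]; exact hn2
  have hro : r (e q) (x 0) ∈ Orb L C (x 0) := mem_orb hr.1
  have hat : At C (x 0) r e q (r (e q) (x 0)) :=
    ⟨hro, fun h => lt_irrefl _ (f1 _ hro _ hro h), fun h => lt_irrefl _ (f1 _ hro _ hro h)⟩
  refine ⟨q', hq', ?_, Γ', subset_union_left, hΓ'f, hΓ'M, hB', _, _, hmem 0, hat, hat'⟩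
  intro k hk
  obtain ⟨hkJ, hkJ', y, y', hyy, hy, hy'⟩ := hK k hk
  obtain ⟨σ, hσ⟩ := hLV0 L U hW.mon M M' Γ' δ hM.el hM'.el hΓ'f hΓ'M
    (le_trans (le_trans (le_trans le_self_add le_self_add) le_rfl) hδ) hB'
  have hσC : Fx L C σ := fun a ha => hσ (a, a) (Or.inl (hΓ0 a (hc₀.CD ha)))
  have h0 : σ (r (e q) (x 0)) = b 0 := hσ _ (hmem 0)
  have h1 : σ y = y' := hσ _ (Or.inl hyy)
  have hqk := hqK k hk
  unfold Cs at hqk
  unfold Cs'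
  split_ifs at hqk ⊢ with hk1
  · rw [lt_iff hFAR hW hC hne hM' hkJ' hq' hy' hat', ← h0, ← h1, f5 _ _ σ hσC]
    exact (lt_iff hFAR hW hC hne hM hkJ hq hy hat).mp hqk
  · rw [lt_iff hFAR hW hC hne hM' hq' hkJ' hat' hy', ← h0, ← h1, f5 _ _ σ hσC]
    exact (lt_iff hFAR hW hC hne hM hq hkJ hat hy).mp hqk

theorem level {β γ : Ordinal.{0}} (h : β < γ) (m : ℕ) :
    Ordinal.omega0 + Ordinal.omega0 + Ordinal.omega0 + Ordinal.omega0 * β +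
      ((m + 1 : ℕ) : Ordinal.{0}) ≤
    Ordinal.omega0 + Ordinal.omega0 + Ordinal.omega0 + Ordinal.omega0 * γ := by
  rw [add_assoc (Ordinal.omega0 + Ordinal.omega0 + Ordinal.omega0)]
  refine add_le_add_right ?_ _
  calc Ordinal.omega0 * β + ((m + 1 : ℕ) : Ordinal.{0}) ≤ Ordinal.omega0 * β + Ordinal.omega0 :=
        add_le_add_right (Ordinal.nat_lt_omega0 _).le _
    _ = Ordinal.omega0 * (Order.succ β) := by rw [Ordinal.mul_succ]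
    _ ≤ Ordinal.omega0 * γ := mul_le_mul_right (Order.succ_le_of_lt h) _

/-- the interval given by the constraints -/
theorem main (hLV0 : St_LV0) (hFAR : St_FAR) (hDCJ : St_DCJ) (hLVP : St_LVP)
    [∀ n, IsEmpty (L.Functions n)] (hW : Wm L U) {C : Set U} {m : ℕ}
    {x : Fin (m + 1) → U} {z : U} {s t : Bool} (hN : NCx L C x z s) (hne : Orb L C (x 0) ≠ {x 0})
    {c₀ : Cfg L U} (hc₀ : Vc L C x z s c₀) {e : ℚ → ℕ} (hinj : Function.Injective e)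
    (he : ∀ q, e q ∉ c₀.I) {J J' : Set ℚ} {M M' : Set U} {w w' : ℕ → U}
    {r r' : ℕ → (U ≃[L] U)} {Dd Dd' : ℕ → Set U} (hM : MJ L C x z s t c₀ e J M w r Dd)
    (hM' : MJ L C x z s t c₀ e J' M' w' r' Dd') (γ : Ordinal.{0}) :
    ∀ (K : Set (Bool × (ℚ × ℚ))) (Γ : Set (U × U)), Γ.Finite → (∀ p ∈ Γ, p.1 ∈ M ∧ p.2 ∈ M') →
    (∀ a ∈ c₀.D, (a, a) ∈ Γ) → Cpt C (x 0) r r' e J J' K Γ →
    BFR S S M M' (Ordinal.omega0 + Ordinal.omega0 + Ordinal.omega0 + Ordinal.omega0 * γ) Γ →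
    HER.LE γ {q | q ∈ J ∧ ∀ k ∈ K, Cs k q} {q | q ∈ J' ∧ ∀ k ∈ K, Cs' k q} := by
  induction γ using WellFoundedLT.induction with
  | _ γ ih =>
    intro K Γ hΓ hΓM hΓ0 hK hB
    rw [HER.LE]
    intro β hβ
    have hB1 := hB.mono (level hβ m)
    have hδ : Ordinal.omega0 + Ordinal.omega0 + Ordinal.omega0 ≤
      Ordinal.omega0 + Ordinal.omega0 + Ordinal.omega0 + Ordinal.omega0 * β := le_self_add
    have fin : ∀ (q q' : ℚ) (Γ' : Set (U × U)), q ∈ J → q' ∈ J' → (∀ k ∈ K, Cs k q) →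
        (∀ k ∈ K, Cs' k q') → Γ ⊆ Γ' → Γ'.Finite →
        (∀ p ∈ Γ', p.1 ∈ M ∧ p.2 ∈ M') →
        BFR S S M M' (Ordinal.omega0 + Ordinal.omega0 + Ordinal.omega0 + Ordinal.omega0 * β) Γ' →
        (∃ y y', (y, y') ∈ Γ' ∧ At C (x 0) r e q y ∧ At C (x 0) r' e q' y') →
        HER.LE β ({q | q ∈ J ∧ ∀ k ∈ K, Cs k q} ∩ Iio q) ({q | q ∈ J' ∧ ∀ k ∈ K, Cs' k q} ∩ Iio q') ∧
        HER.LE β ({q | q ∈ J ∧ ∀ k ∈ K, Cs k q} ∩ Ioi q)
          ({q | q ∈ J' ∧ ∀ k ∈ K, Cs' k q} ∩ Ioi q') := by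
      intro q q' Γ' hq hq' hqK hqK' hs hf hM1 hB2 hy
      have hc : ∀ b : Bool, Cpt C (x 0) r r' e J J' (insert (b, (q, q')) K) Γ' := by
        intro b k hk
        rcases hk with rfl | hk
        · exact ⟨hq, hq', hy⟩
        · obtain ⟨h1, h2, y, y', h3, h4, h5⟩ := hK k hk
          exact ⟨h1, h2, y, y', hs h3, h4, h5⟩
      have e1 : ∀ (I : Set ℚ), ({a | a ∈ I ∧ ∀ k ∈ K, Cs k a} ∩ Iio q : Set ℚ) =
          {a | a ∈ I ∧ ∀ k ∈ insert (false, (q, q')) K, Cs k a} := by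
        intro I
        ext a
        simp only [mem_inter_iff, mem_setOf_eq, mem_Iio, mem_insert_iff, forall_eq_or_imp, Cs]
        simp only [Bool.false_eq_true, if_false]
        tauto
      have e2 : ∀ (I : Set ℚ), ({a | a ∈ I ∧ ∀ k ∈ K, Cs' k a} ∩ Iio q' : Set ℚ) =
          {a | a ∈ I ∧ ∀ k ∈ insert (false, (q, q')) K, Cs' k a} := by
        intro I
        ext a
        simp only [mem_inter_iff, mem_setOf_eq, mem_Iio, mem_insert_iff, forall_eq_or_imp, Cs']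
        simp only [Bool.false_eq_true, if_false]
        tauto
      have e3 : ∀ (I : Set ℚ), ({a | a ∈ I ∧ ∀ k ∈ K, Cs k a} ∩ Ioi q : Set ℚ) =
          {a | a ∈ I ∧ ∀ k ∈ insert (true, (q, q')) K, Cs k a} := by
        intro I
        ext a
        simp only [mem_inter_iff, mem_setOf_eq, mem_Ioi, mem_insert_iff, forall_eq_or_imp, Cs]
        simp only [if_true]
        tauto
      have e4 : ∀ (I : Set ℚ), ({a | a ∈ I ∧ ∀ k ∈ K, Cs' k a} ∩ Ioi q' : Set ℚ) =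
          {a | a ∈ I ∧ ∀ k ∈ insert (true, (q, q')) K, Cs' k a} := by
        intro I
        ext a
        simp only [mem_inter_iff, mem_setOf_eq, mem_Ioi, mem_insert_iff, forall_eq_or_imp, Cs']
        simp only [if_true]
        tauto
      have g0 : ∀ a ∈ c₀.D, (a, a) ∈ Γ' := fun a ha => hs (hΓ0 a ha)
      refine ⟨?_, ?_⟩
      · rw [e1 J, e2 J']
        exact ih β hβ _ Γ' hf hM1 g0 (hc false) hB2
      · rw [e3 J, e4 J']
        exact ih β hβ _ Γ' hf hM1 g0 (hc true) hB2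
    refine ⟨?_, ?_⟩
    · rintro q ⟨hq, hqK⟩
      obtain ⟨q', hq', hqK', Γ', h1, h2, h3, h4, h5⟩ := step hLV0 hFAR hDCJ hLVP hW hN hne hc₀
        hinj he hM hM' hΓ hΓM hΓ0 hK hδ hB1 hq hqK
      exact ⟨q', ⟨hq', hqK'⟩, fin q q' Γ' hq hq' hqK hqK' h1 h2 h3 h4 h5⟩
    · rintro q' ⟨hq', hqK'⟩
      have hΓs : (Prod.swap ⁻¹' Γ).Finite := hΓ.preimage Prod.swap_injective.injOn
      let K' : Set (Bool × (ℚ × ℚ)) := {k | (k.1, (k.2.2, k.2.1)) ∈ K}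
      have hK' : Cpt C (x 0) r' r e J' J K' (Prod.swap ⁻¹' Γ) := by
        intro k hk
        obtain ⟨h1, h2, y, y', h3, h4, h5⟩ := hK _ hk
        exact ⟨h2, h1, y', y, h3, h5, h4⟩
      have hqK'' : ∀ k ∈ K', Cs k q' := fun k hk => hqK' _ hk
      obtain ⟨q, hq, hqK, Γ', h1, h2, h3, h4, y, y', h5, h6, h7⟩ :=
        step hLV0 hFAR hDCJ hLVP hW hN hne hc₀
          hinj he hM' hM hΓs (fun p hp => ⟨(hΓM _ hp).2, (hΓM _ hp).1⟩) (fun a ha => hΓ0 a ha) hK' hδ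
          hB1.swap hq' hqK''
      have hqK2 : ∀ k ∈ K, Cs k q := fun k hk => hqK (k.1, (k.2.2, k.2.1)) hk
      refine ⟨q, ⟨hq, hqK2⟩, fin q q' (Prod.swap ⁻¹' Γ') hq hq' hqK2 hqK' ?_
        (h2.preimage Prod.swap_injective.injOn) (fun p hp => ⟨(h3 _ hp).2, (h3 _ hp).1⟩) h4.swap
        ⟨y', y, h5, h7, h6⟩⟩
      intro p hp
      exact h1 (show p.swap.swap ∈ Γ by simpa using hp)

end LEJ

theorem thm_LEJ (hLV0 : St_LV0) (hFAR : St_FAR) (hKAP : St_KAP) (hDCJ : St_DCJ)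
    (hLVP : St_LVP) : St_LEJ := by
  intro L _ U S _ hW C m x z s hN t c₀ e J J' M M' w w' r r' Dd Dd' γ hc₀ hM hM' hinj he hB
  have hne := (hKAP L U hW C m x z s hN).2.2.1
  have h := LEJ.main hLV0 hFAR hDCJ hLVP hW hN hne hc₀ hinj he hM hM' γ ∅
    {p | p.1 = p.2 ∧ p.1 ∈ c₀.D} ?_ ?_ (fun a ha => ⟨rfl, ha⟩) (fun k hk => absurd hk (by simp)) hB
  · simpa using h
  · refine (hc₀.vd.fin.image fun a => (a, a)).subset ?_
    rintro ⟨a, b⟩ ⟨h1, h2⟩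
    exact ⟨a, h2, by simpa using h1⟩
  · rintro ⟨a, b⟩ ⟨h1, h2⟩
    simp only at h1 h2
    subst h1
    exact ⟨hM.c0.1 h2, hM'.c0.1 h2⟩

end Pool.Agent.WOM
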