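import Pool.Agent.WOM.StC

/-!
WOM [LTW]: a convex set without points of the model has at most two orbits (helper67).
-/

set_option autoImplicit false

namespace Pool.Agent.WOM

open FirstOrder.Language Set
open scoped FirstOrder

theorem thm_LTW (hDFN : St_DFN) (hORB : St_ORB) (hCNV : St_CNV) : St_LTW := by
  intro L U _ _ hW M G D hM hG hGM hD hDM u₁ h1 u₂ h2 u₃ h3 h12 h23
  obtain ⟨-, -, -, d4⟩ := hDFN L U hW.ord D
  obtain ⟨o1, o2, -, -, -, -, o7, -, -⟩ := hORB L U hW.mon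
  obtain ⟨-, hc⟩ := hCNV L U hW
  -- the key lemma: saturation
  have key : ∀ (x y : U) (t : Bool), (∀ v ∈ Orb L D x, ¬ leS t y v) →
      ∃ s : Set U, D.Definable₁ L s ∧ x ∈ s ∧ ∀ v ∈ s, ¬ leS t y v := by
    intro x y t hv
    by_contra hne
    push Not at hne
    set F : Set (Set U) := insert {v | leS t y v} {s | D.Definable₁ L s ∧ x ∈ s} with hF
    have hsat := hW.mon.sat (insert y D) (hD.insert y) F ?_ ?_
    · obtain ⟨v, hvF⟩ := hsat
      have hv1 : leS t y v := hvF _ (mem_insert _ _)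
      have hv2 : v ∈ Orb L D x := by
        by_contra hno
        obtain ⟨s, hs, hxs, hvs⟩ := o7 D x v hD hno
        exact hvs (hvF s (mem_insert_of_mem _ ⟨hs, hxs⟩))
      exact hv v hv2 hv1
    · intro s hs
      rcases hs with rfl | ⟨hs, -⟩
      · exact (d4 y t).mono (singleton_subset_iff.2 (mem_insert _ _))
      · exact hs.mono (subset_insert _ _)
    · intro G' hG' hfin
      have : ∃ s : Set U, D.Definable₁ L s ∧ x ∈ s ∧ s ∩ {v | leS t y v} ⊆ ⋂₀ G' := by
        induction G', hfin using Set.Finite.induction_on with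
        | empty =>
          refine ⟨univ, ?_, mem_univ x, by simp⟩
          exact Set.definable_univ
        | @insert a G'' _ _ ih =>
          obtain ⟨s, hs, hxs, hsub⟩ := ih (fun b hb => hG' (mem_insert_of_mem _ hb))
          rcases hG' (mem_insert _ _) with rfl | ⟨ha, hxa⟩
          · refine ⟨s, hs, hxs, ?_⟩
            intro v hv
            rw [sInter_insert]
            exact ⟨hv.2, hsub hv⟩
          · refine ⟨s ∩ a, Set.Definable.inter hs ha, ⟨hxs, hxa⟩, ?_⟩
            intro v hv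
            rw [sInter_insert]
            exact ⟨hv.1.2, hsub ⟨hv.1.1, hv.2⟩⟩
      obtain ⟨s, hs, hxs, hsub⟩ := this
      obtain ⟨v, hvs, hv'⟩ := hne s hs hxs
      exact ⟨v, hsub ⟨hvs, hv'⟩⟩
  by_contra hne
  push Not at hne
  obtain ⟨hn1, hn3⟩ := hne
  have hconv := (hc D u₂ hD).1
  obtain ⟨s₁, hs₁, hx₁, hb₁⟩ := key u₂ u₁ false (by
    intro v hv hle
    have hle' : v ≤ u₁ := by simpa [leS] using hle
    have hu : u₁ ∈ Orb L D u₂ := hconv.out hv (o1 D u₂) ⟨hle', h12.le⟩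
    have he := o2 D u₂ u₁ hu
    exact hn1 (he ▸ o1 D u₂))
  obtain ⟨s₃, hs₃, hx₃, hb₃⟩ := key u₂ u₃ true (by
    intro v hv hle
    have hle' : u₃ ≤ v := by simpa [leS] using hle
    exact hn3 (hconv.out (o1 D u₂) hv ⟨h23.le, hle'⟩))
  have hdef : M.Definable₁ L (s₁ ∩ s₃) := (Set.Definable.inter hs₁ hs₃).mono hDM
  obtain ⟨m, ⟨hm1, hm3⟩, hmM⟩ := hM _ hdef ⟨u₂, hx₁, hx₃⟩
  have hm1' : u₁ < m := by
    have := hb₁ m hm1
    simpa [leS] using this
  have hm3' : m < u₃ := by
    have := hb₃ m hm3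
    simpa [leS] using this
  have hmG : m ∈ G := hG.out h1 h3 ⟨hm1'.le, hm3'.le⟩
  have : m ∈ G ∩ M := ⟨hmG, hmM⟩
  rw [hGM] at this
  exact this

end Pool.Agent.WOM
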