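import Pool.Agent.WOM.StC

/-! WOM: module LV1 (helper99): closed germs are decoded at the level `ω + ω`. -/

set_option autoImplicit false
set_option linter.unusedVariables false

namespace Pool.Agent.WOM

open FirstOrder.Language Set
open scoped FirstOrder

theorem thm_LV1 (hGER : St_GER) (hEQG : St_EQG) (hLV0 : St_LV0) : St_LV1 := by
  intro L _ U S _ hW M M' Γ γ hM hM' hΓ hΓM hγ hB σ g hσ hg hC
  obtain ⟨D, hD, hgD, hDM, hDg⟩ := hC
  obtain ⟨-, -, -, -, hG5, -⟩ := hGER L U hW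
  obtain ⟨-, -, -, -, -, -, -, hE8⟩ := hEQG L U hW
  -- the finite set as a tuple
  obtain ⟨l, d, hd⟩ : ∃ (l : ℕ) (d : Fin l → U), range d = D := by
    have := hD.to_subtype
    obtain ⟨l, ⟨e⟩⟩ := Finite.exists_equiv_fin D
    refine ⟨l, fun i => (e.symm i : U), ?_⟩
    ext x
    constructor
    · rintro ⟨i, rfl⟩
      exact (e.symm i).2
    · intro hx
      exact ⟨e ⟨x, hx⟩, congrArg Subtype.val (e.symm_apply_apply ⟨x, hx⟩)⟩
  have hdD : ∀ i, d i ∈ D := fun i => hd ▸ mem_range_self i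
  -- forth for `D`
  have hlev : (Ordinal.omega0 + 1) + (l : Ordinal.{0}) ≤ γ := by
    refine le_trans ?_ hγ
    rw [add_assoc]
    refine add_le_add_right ?_ _
    have h1 : (1 : Ordinal.{0}) + (l : Ordinal.{0}) = ((1 + l : ℕ) : Ordinal.{0}) := by
      push_cast
      rfl
    rw [h1]
    exact (Ordinal.natCast_lt_omega0 _).le
  obtain ⟨y, hy, hB1⟩ := Pool.Agent.Helper79.VC.BFR.forth_many l (hB.mono hlev) d
    (fun i => hDM (hdD i))
  have hΓ1 : (Γ ∪ range fun i => (d i, y i)).Finite := hΓ.union (finite_range _)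
  have hΓM1 : ∀ p ∈ Γ ∪ range (fun i => (d i, y i)), p.1 ∈ M ∧ p.2 ∈ M' := by
    rintro p (hp | ⟨i, rfl⟩)
    · exact hΓM p hp
    · exact ⟨hDM (hdD i), hy i⟩
  obtain ⟨σ', hσ'⟩ := hLV0 L U hW.mon M M' _ _ hM hM' hΓ1 hΓM1 (le_self_add) hB1
  have hσ'd : ∀ i, σ' (d i) = y i := fun i => hσ' _ (Or.inr ⟨i, rfl⟩)
  have hσ'D : σ' '' D ⊆ M' := by
    rintro _ ⟨x, hx, rfl⟩
    rw [← hd] at hx
    obtain ⟨i, rfl⟩ := hx
    rw [hσ'd i]
    exact hy i
  -- the germs for `σ` and `σ'`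
  have hag : ∀ a ∈ g.1, σ a = σ' a := by
    intro a ha
    obtain ⟨p, hp, rfl⟩ := hg ha
    rw [hσ p hp, hσ' p (Or.inl hp)]
  have hτ : Fx L (mg L σ' g).1 (σ.comp σ'.symm) := by
    rintro _ ⟨a, ha, rfl⟩
    show σ (σ'.symm (σ' a)) = σ' a
    rw [FirstOrder.Language.Equiv.symm_apply_apply, hag a ha]
  have hmg : mg L (σ.comp σ'.symm) (mg L σ' g) = mg L σ g := by
    have h1 : ∀ x, (σ.comp σ'.symm) (σ' x) = σ x := by
      intro x
      show σ (σ'.symm (σ' x)) = σ x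
      rw [FirstOrder.Language.Equiv.symm_apply_apply]
    unfold mg
    refine Prod.ext ?_ (Prod.ext (h1 _) rfl)
    show (σ.comp σ'.symm) '' (σ' '' g.1) = σ '' g.1
    rw [image_image]
    exact image_congr fun x _ => h1 x
  have hgs : gs L (mg L σ g) (σ' '' D) = σ' '' gs L g D := by
    rw [← hmg, (hE8 _ _ hτ).2]
    exact hG5 σ' g.1 D g.2.1 g.2.2
  refine ⟨σ' '' D, hD.image _, ?_, hσ'D, ?_⟩
  · show σ '' g.1 ⊆ σ' '' D
    rintro _ ⟨a, ha, rfl⟩
    exact ⟨a, hgD ha, (hag a ha).symm⟩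
  · rw [hgs]
    by_contra hne
    obtain ⟨y', ⟨u, hu, rfl⟩, hy'⟩ := nonempty_iff_ne_empty.2 hne
    obtain ⟨x, hx, hB2⟩ := hB1.back (β := Ordinal.omega0) (lt_add_one _) hy'
    obtain ⟨σ'', hσ''⟩ := hLV0 L U hW.mon M M' _ _ hM hM' (hΓ1.insert (x, σ' u)) (by
      rintro p (rfl | hp)
      · exact ⟨hx, hy'⟩
      · exact hΓM1 p hp) le_rfl hB2
    have hx' : σ'' x = σ' u := hσ'' _ (Or.inl rfl)
    have hfx : Fx L D (σ''.symm.comp σ') := by
      intro a ha
      rw [← hd] at ha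
      obtain ⟨i, rfl⟩ := ha
      show σ''.symm (σ' (d i)) = d i
      have h1 : σ'' (d i) = y i := hσ'' _ (Or.inr (Or.inr ⟨i, rfl⟩))
      rw [hσ'd i, ← h1, FirstOrder.Language.Equiv.symm_apply_apply]
    have him : (σ''.symm.comp σ') '' D = D := by
      ext b
      constructor
      · rintro ⟨a, ha, rfl⟩
        rw [hfx a ha]
        exact ha
      · intro hb
        exact ⟨b, hb, hfx b hb⟩
    have h1 : gs L (mg L (σ''.symm.comp σ') g) D = gs L g D :=
      (hE8 _ g (fun a ha => hfx a (hgD ha))).2 D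
    have h2 : gs L (mg L (σ''.symm.comp σ') g) D = (σ''.symm.comp σ') '' gs L g D := by
      have h3 := hG5 (σ''.symm.comp σ') g.1 D g.2.1 g.2.2
      rw [him] at h3
      exact h3
    have h4 : x ∈ gs L g D := by
      rw [← h1, h2]
      refine ⟨u, hu, ?_⟩
      show σ''.symm (σ' u) = x
      rw [← hx', FirstOrder.Language.Equiv.symm_apply_apply]
    have h5 : x ∈ gs L g D ∩ M := ⟨h4, hx⟩
    rw [hDg] at h5
    exact h5

end Pool.Agent.WOM
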