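import Pool.Agent.WOM.StC

/-!
WOM [LVP]: `Psi` is decoded at the level `ω + ω + ω`.
-/

set_option autoImplicit false
set_option linter.unusedVariables false

namespace Pool.Agent.WOM

open FirstOrder.Language Set
open scoped FirstOrder

namespace LVP

open Pool.Agent.Helper79.VC

variable {L : FirstOrder.Language.{0, 0}} {U : Type} [S : L.Structure U]

/-- germs of automorphisms which agree on the base -/
theorem gs_congr [LinearOrder U] (hGER : St_GER) (hW : Wm L U) {C : Set U} {m : ℕ}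
    {x : Fin (m + 1) → U} {z : U} {s : Bool} {ρ ρ' : U ≃[L] U}
    (h : ∀ a ∈ C ∪ range x, ρ a = ρ' a) :
    (gr L C x z s ρ).1 = (gr L C x z s ρ').1 ∧
      ∀ D, gs L (gr L C x z s ρ) D = gs L (gr L C x z s ρ') D := by
  have hb : ρ '' (C ∪ range x) = ρ' '' (C ∪ range x) := image_congr h
  refine ⟨hb, fun D => ?_⟩
  have h4 := (hGER L U hW).2.2.2.1
  show Ge L (ρ '' (C ∪ range x)) (ρ z) s D = Ge L (ρ' '' (C ∪ range x)) (ρ' z) s D
  rw [hb]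
  refine h4 _ _ _ _ _ ⟨ρ.comp ρ'.symm, ?_, ?_⟩
  · rintro _ ⟨b, hb, rfl⟩
    rw [FirstOrder.Language.Equiv.comp_apply, FirstOrder.Language.Equiv.symm_apply_apply]
    exact h b hb
  · rw [FirstOrder.Language.Equiv.comp_apply, FirstOrder.Language.Equiv.symm_apply_apply]

theorem clo_congr [LinearOrder U] (hGER : St_GER) (hW : Wm L U) {C : Set U} {m : ℕ}
    {x : Fin (m + 1) → U} {z : U} {s : Bool} {ρ ρ' : U ≃[L] U}
    (h : ∀ a ∈ C ∪ range x, ρ a = ρ' a) {M : Set U} (hc : Clo L (gr L C x z s ρ) M) :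
    Clo L (gr L C x z s ρ') M := by
  obtain ⟨h1, h2⟩ := gs_congr hGER hW (z := z) (s := s) h
  obtain ⟨D, hD, hD1, hD2, hD3⟩ := hc
  refine ⟨D, hD, ?_, hD2, ?_⟩
  · rw [← h1]
    exact hD1
  · rw [← h2]
    exact hD3

theorem mg_gr {C : Set U} {m : ℕ} {x : Fin (m + 1) → U} {z : U} {s : Bool} (σ ρ : U ≃[L] U) :
    mg L σ (gr L C x z s ρ) = gr L C x z s (σ.comp ρ) := by
  show (σ '' (ρ '' (C ∪ range x)), σ (ρ z), s) = ((σ.comp ρ) '' (C ∪ range x), (σ.comp ρ) z, s)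
  rw [image_image]
  rfl

/-- transfer of `Kc` -/
theorem kc_tr [∀ n, IsEmpty (L.Functions n)] [LinearOrder U] (hGER : St_GER) (hLV0 : St_LV0)
    (hLV1 : St_LV1) (hW : Wm L U) {C : Set U} {m : ℕ}
    {x : Fin (m + 1) → U} {z : U} {s : Bool} {M M' : Set U} {Γ : Set (U × U)} {γ : Ordinal.{0}}
    (hM : IsEl L M) (hM' : IsEl L M') (hΓ : Γ.Finite) (hΓM : ∀ p ∈ Γ, p.1 ∈ M ∧ p.2 ∈ M')
    (hγ : Ordinal.omega0 + Ordinal.omega0 ≤ γ) (hb : BFR S S M M' γ Γ) {ρ ρ' : U ≃[L] U}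
    (hρ : ∀ a ∈ C ∪ range x, (ρ a, ρ' a) ∈ Γ) (hC : Fx L C ρ') (hk : Kc L C x z s M ρ) :
    Kc L C x z s M' ρ' := by
  obtain ⟨σ, hσ⟩ := hLV0 L U hW.mon M M' Γ γ hM hM' hΓ hΓM (le_self_add.trans hγ) hb
  refine ⟨hC, fun j => (hΓM _ (hρ (x j) (Or.inr ⟨j, rfl⟩))).2, ?_⟩
  have h1 : Clo L (mg L σ (gr L C x z s ρ)) M' := by
    refine hLV1 L U hW M M' Γ γ hM hM' hΓ hΓM hγ hb σ _ hσ ?_ hk.2.2
    rintro _ ⟨a, ha, rfl⟩
    exact ⟨_, hρ a ha, rfl⟩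
  rw [mg_gr] at h1
  refine clo_congr hGER hW ?_ h1
  intro a ha
  rw [FirstOrder.Language.Equiv.comp_apply]
  exact hσ _ (hρ a ha)

/-- transfer of `Aq` -/
theorem aq_tr [∀ n, IsEmpty (L.Functions n)] [LinearOrder U] (hNSB : St_NSB) (hGER : St_GER)
    (hLV0 : St_LV0) (hW : Wm L U) {C : Set U} {m : ℕ}
    {x : Fin (m + 1) → U} {z : U} {s : Bool} {M M' : Set U} {Γ : Set (U × U)} {γ : Ordinal.{0}}
    (hM : IsEl L M) (hM' : IsEl L M') (hΓ : Γ.Finite) (hΓM : ∀ p ∈ Γ, p.1 ∈ M ∧ p.2 ∈ M')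
    (hγ : Ordinal.omega0 + Ordinal.omega0 ≤ γ) (hb : BFR S S M M' γ Γ) {ρ ρ' τ τ' : U ≃[L] U}
    (hρ : ∀ a ∈ C ∪ range x, (ρ a, ρ' a) ∈ Γ) (hτ : ∀ a ∈ C ∪ range x, (τ a, τ' a) ∈ Γ)
    (hA : Aq L C x z s M' ρ' τ') : Aq L C x z s M ρ τ := by
  intro D hD hDM hD1 hD2 u hu v hv
  obtain ⟨n, d, hd⟩ : ∃ (n : ℕ) (d : Fin n → U), range d = D := by
    have := hD.to_subtype
    obtain ⟨n, ⟨e⟩⟩ := Finite.exists_equiv_fin D
    refine ⟨n, fun i => (e.symm i : U), ?_⟩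
    have h1 : (fun i => (e.symm i : U)) = Subtype.val ∘ e.symm := rfl
    rw [h1, e.symm.surjective.range_comp, Subtype.range_coe]
  have hn : Ordinal.omega0 + (n : Ordinal.{0}) ≤ γ :=
    (add_le_add_right (Ordinal.natCast_lt_omega0 n).le _).trans hγ
  obtain ⟨d', hd', hb'⟩ := BFR.forth_many n (hb.mono hn) d
    (fun i => hDM (hd ▸ ⟨i, rfl⟩))
  have hΓ' : (Γ ∪ range fun i => (d i, d' i)).Finite := hΓ.union (finite_range _)
  have hΓM' : ∀ p ∈ Γ ∪ range (fun i => (d i, d' i)), p.1 ∈ M ∧ p.2 ∈ M' := by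
    rintro p (hp | ⟨i, rfl⟩)
    · exact hΓM p hp
    · exact ⟨hDM (hd ▸ ⟨i, rfl⟩), hd' i⟩
  obtain ⟨σ, hσ⟩ := hLV0 L U hW.mon M M' _ _ hM hM' hΓ' hΓM' le_rfl hb'
  have hσD : σ '' D ⊆ M' := by
    rintro _ ⟨a, ha, rfl⟩
    rw [← hd] at ha
    obtain ⟨i, rfl⟩ := ha
    rw [hσ _ (Or.inr ⟨i, rfl⟩)]
    exact hd' i
  have hρ' : ∀ a ∈ C ∪ range x, (σ.comp ρ) a = ρ' a := fun a ha => by
    rw [FirstOrder.Language.Equiv.comp_apply]
    exact hσ _ (Or.inl (hρ a ha))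
  have hτ' : ∀ a ∈ C ∪ range x, (σ.comp τ) a = τ' a := fun a ha => by
    rw [FirstOrder.Language.Equiv.comp_apply]
    exact hσ _ (Or.inl (hτ a ha))
  obtain ⟨h1, h2⟩ := gs_congr hGER hW (z := z) (s := s) hρ'
  obtain ⟨h3, h4⟩ := gs_congr hGER hW (z := z) (s := s) hτ'
  have h5 := (hGER L U hW).2.2.2.2.1
  have hN := hA (σ '' D) (hD.image _) hσD
    (by
      rw [← h1, ← mg_gr]
      exact image_mono hD1)
    (by
      rw [← h3, ← mg_gr]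
      exact image_mono hD2) (σ u)
    (by
      rw [← h2, ← mg_gr]
      show σ u ∈ Ge L (σ '' (gr L C x z s ρ).1) (σ (gr L C x z s ρ).2.1) s (σ '' D)
      rw [h5]
      exact ⟨u, hu, rfl⟩) (σ v)
    (by
      rw [← h4, ← mg_gr]
      show σ v ∈ Ge L (σ '' (gr L C x z s τ).1) (σ (gr L C x z s τ).2.1) s (σ '' D)
      rw [h5]
      exact ⟨v, hv, rfl⟩)
  have h6 := (hNSB L U).2.2.1 σ.symm _ _ _ hN
  rw [FirstOrder.Language.Equiv.symm_apply_apply, FirstOrder.Language.Equiv.symm_apply_apply,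
    image_image] at h6
  have h7 : (fun a => σ.symm (σ a)) '' D = D := by
    have h8 : (fun a => σ.symm (σ a)) = id := by
      funext a
      exact FirstOrder.Language.Equiv.symm_apply_apply σ a
    rw [h8, image_id]
  rwa [h7] at h6

/-- `Far` is preserved -/
theorem far_tr [LinearOrder U] (hGER : St_GER) (hW : Wm L U) {C : Set U} {σ : U ≃[L] U}
    (hσ : Fx L C σ) {a b : U} (h : Far L C (σ a) (σ b)) : Far L C a b := by
  have h5 := (hGER L U hW).2.2.2.2.1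
  have hC : σ '' C = C := by
    ext c
    constructor
    · rintro ⟨d, hd, rfl⟩
      rw [hσ d hd]
      exact hd
    · intro hc
      exact ⟨c, hc, hσ c hc⟩
  have h1 : σ b ∈ Ge L (σ '' C) (σ a) true (σ '' (insert a C)) := by
    rw [image_insert_eq, hC]
    exact h
  rw [h5] at h1
  obtain ⟨b', hb', hbb⟩ := h1
  have h2 : b' = b := σ.injective hbb
  rw [h2] at hb'
  exact hb'

end LVP

open Pool.Agent.Helper79.VC LVP in
theorem thm_LVP (hNSB : St_NSB) (hGER : St_GER) (hLV0 : St_LV0) (hLV1 : St_LV1) : St_LVP := by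
  intro L _ U S _ hW C m x z s hN t c₀ M M' Γ γ hV hM hM' hΓ hΓM hcΓ hγ hb ρ y hy hP
  have hγ2 : Ordinal.omega0 + Ordinal.omega0 ≤ γ := le_self_add.trans hγ
  have hγ1 : Ordinal.omega0 ≤ γ := le_self_add.trans hγ2
  obtain ⟨σ, hσ⟩ := hLV0 L U hW.mon M M' Γ γ hM hM' hΓ hΓM hγ1 hb
  have hCΓ : ∀ a ∈ C, (a, a) ∈ Γ := fun a ha => hcΓ a (hV.CD ha)
  have hσC : Fx L C σ := fun a ha => hσ _ (hCΓ a ha)
  have hρC := hP.1.1
  have hfx : Fx L C (σ.comp ρ) := fun a ha => by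
    rw [FirstOrder.Language.Equiv.comp_apply, hρC a ha]
    exact hσC a ha
  have hxy : ∀ j, (σ.comp ρ) (x j) = y j := fun j => by
    rw [FirstOrder.Language.Equiv.comp_apply]
    exact hσ _ (hy j)
  have hρΓ : ∀ a ∈ C ∪ range x, (ρ a, (σ.comp ρ) a) ∈ Γ := by
    rintro a (ha | ⟨j, rfl⟩)
    · rw [hρC a ha, hfx a ha]
      exact hCΓ a ha
    · rw [hxy]
      exact hy j
  refine ⟨σ.comp ρ, hxy, kc_tr hGER hLV0 hLV1 hW hM hM' hΓ hΓM hγ2 hb hρΓ hfx hP.1, ?_, ?_⟩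
  · intro i hi hA
    refine hP.2.1 i hi (aq_tr hNSB hGER hLV0 hW hM hM' hΓ hΓM hγ2 hb hρΓ ?_ hA)
    rintro a (ha | ⟨j, rfl⟩)
    · rw [hV.fx i hi a ha]
      exact hCΓ a ha
    · exact hcΓ _ (hV.rg i hi j)
  · intro ρ₁' hk hA
    have hm : (Ordinal.omega0 + Ordinal.omega0) + ((m + 1 : ℕ) : Ordinal.{0}) ≤ γ :=
      (add_le_add_right (Ordinal.natCast_lt_omega0 (m + 1)).le _).trans hγ
    obtain ⟨y', hy', hb'⟩ := BFR.back_many (m + 1) (hb.mono hm) (fun j => ρ₁' (x j)) hk.2.1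
    have hΓ' : (Γ ∪ range fun j => (y' j, ρ₁' (x j))).Finite := hΓ.union (finite_range _)
    have hΓM' : ∀ p ∈ Γ ∪ range (fun j => (y' j, ρ₁' (x j))), p.1 ∈ M ∧ p.2 ∈ M' := by
      rintro p (hp | ⟨i, rfl⟩)
      · exact hΓM p hp
      · exact ⟨hy' i, hk.2.1 i⟩
    obtain ⟨σ₁, hσ₁⟩ := hLV0 L U hW.mon M M' _ _ hM hM' hΓ' hΓM' le_self_add hb'
    have hσ₁C : Fx L C σ₁ := fun a ha => hσ₁ _ (Or.inl (hCΓ a ha))
    have hρ₁x : ∀ j, (σ₁.symm.comp ρ₁') (x j) = y' j := fun j => by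
      rw [FirstOrder.Language.Equiv.comp_apply]
      have h1 := hσ₁ _ (Or.inr ⟨j, rfl⟩)
      have h2 : σ₁ (y' j) = ρ₁' (x j) := h1
      rw [← h2, FirstOrder.Language.Equiv.symm_apply_apply]
    have hρ₁C : Fx L C (σ₁.symm.comp ρ₁') := fun a ha => by
      rw [FirstOrder.Language.Equiv.comp_apply, hk.1 a ha]
      have h2 : σ₁ a = a := hσ₁C a ha
      have h3 : σ₁.symm (σ₁ a) = σ₁.symm a := by rw [h2]
      rw [← h3, FirstOrder.Language.Equiv.symm_apply_apply]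
    have hρ₁Γ : ∀ a ∈ C ∪ range x,
        ((σ₁.symm.comp ρ₁') a, ρ₁' a) ∈ Γ ∪ range (fun j => (y' j, ρ₁' (x j))) := by
      rintro a (ha | ⟨j, rfl⟩)
      · rw [hk.1 a ha, hρ₁C a ha]
        exact Or.inl (hCΓ a ha)
      · rw [hρ₁x]
        exact Or.inr ⟨j, rfl⟩
    have hk₁ : Kc L C x z s M (σ₁.symm.comp ρ₁') := by
      refine kc_tr hGER hLV0 hLV1 hW hM' hM (hΓ'.preimage Prod.swap_injective.injOn)
        (fun p hp => (hΓM' _ hp).symm) le_rfl hb'.swap (ρ := ρ₁') ?_ hρ₁C hk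
      intro a ha
      exact hρ₁Γ a ha
    have hA₁ : Aq L C x z s M (σ₁.symm.comp ρ₁') ρ :=
      aq_tr hNSB hGER hLV0 hW hM hM' hΓ' hΓM' le_rfl hb' hρ₁Γ
        (fun a ha => Or.inl (hρΓ a ha)) hA
    have h3 := hP.2.2 _ hk₁ hA₁
    have e1 : ρ₁' (x 0) = σ₁ ((σ₁.symm.comp ρ₁') (x 0)) :=
      (hσ₁ _ (hρ₁Γ (x 0) (Or.inr ⟨0, rfl⟩))).symm
    have e2 : (σ.comp ρ) (x 0) = σ₁ (ρ (x 0)) :=
      (hσ₁ _ (Or.inl (hρΓ (x 0) (Or.inr ⟨0, rfl⟩)))).symm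
    rw [e1, e2]
    split_ifs with ht
    · rw [if_pos ht] at h3
      exact fun h => h3 (far_tr hGER hW hσ₁C h)
    · rw [if_neg ht] at h3
      exact fun h => h3 (far_tr hGER hW hσ₁C h)

end Pool.Agent.WOM
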