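import Pool.Agent.WOM.StC

/-!
WOM [MJX]: the model for the order `J` (helper88 for helper85).
-/

set_option autoImplicit false
set_option linter.unusedVariables false

namespace Pool.Agent.WOM

open FirstOrder.Language Set
open scoped FirstOrder

section mjx

variable (L : FirstOrder.Language.{0, 0}) {U : Type} [L.Structure U] [LinearOrder U]

/-- the invariant of the construction -/
structure MJXQ (C : Set U) {m : ℕ} (x : Fin (m + 1) → U) (z : U) (s : Bool) (t : Bool)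
    (c₀ : Cfg L U) (u₀ v₀ : U) (e : ℚ → ℕ) (J : Set ℚ) (c : Cfg L U) : Prop where
  vc : Vc L C x z s c
  le : Le L c₀ c
  sub : c.I ⊆ c₀.I ∪ e '' J
  cl : ∀ i ∈ c.I, i ∉ c₀.I → Cl L C x z s t c i
  or : ∀ q ∈ J, ∀ q' ∈ J, q < q' → e q ∈ c.I → e q' ∈ c.I →
    Far L C (ps L x c (e q)) (ps L x c (e q'))
  bd : ∀ q ∈ J, e q ∈ c.I → Far L C u₀ (ps L x c (e q)) ∧ Far L C (ps L x c (e q)) v₀
  ri : ∀ u v, (u = u₀ ∨ u = v₀ ∨ ∃ q ∈ J, e q ∈ c.I ∧ u = ps L x c (e q)) →
    (v = u₀ ∨ v = v₀ ∨ ∃ q ∈ J, e q ∈ c.I ∧ v = ps L x c (e q)) → Far L C u v →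
    (∀ q ∈ J, e q ∈ c.I → Far L C u (ps L x c (e q)) → Far L C (ps L x c (e q)) v → False) →
    Ri L C x c u v

theorem mjx_ps {C : Set U} {m : ℕ} {x : Fin (m + 1) → U} {c c' : Cfg L U} (h : Le L c c') {i : ℕ}
    (hi : i ∈ c.I) : ps L x c' i = ps L x c i := by
  unfold ps
  rw [h.r i hi]

theorem mjx_mem {C : Set U} {m : ℕ} {x : Fin (m + 1) → U} {z : U} {s : Bool} {c : Cfg L U}
    (h : Vc L C x z s c) {i : ℕ} (hi : i ∈ c.I) : ps L x c i ∈ Orb L C (x 0) :=
  ⟨c.r i, h.fx i hi, rfl⟩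

end mjx

theorem thm_MJX (hFAR : St_FAR) (hVDX : St_VDX) (hGNC : St_GNC) (hKAP : St_KAP) (hVCX : St_VCX) :
    St_MJX := by
  intro L U _ _ hW C m x z s hN t c₀ u₀ v₀ hV0 hR0 hCN e he hec J
  have hne : Orb L C (x 0) ≠ {x 0} := (hKAP L U hW C m x z s hN).2.2.1
  obtain ⟨f1, f2, f3, f4, f5, f6, f7, f8⟩ := hFAR L U hW C (x 0) hN.fin hne
  have ftr : ∀ a ∈ Orb L C (x 0), ∀ b ∈ Orb L C (x 0), ∀ d ∈ Orb L C (x 0),
      Far L C a b → Far L C b d → Far L C a d := fun a ha b hb d hd h1 h2 =>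
    f2 a ha b hb d hd h1 (f1 b hb d hd h2).le
  have firr : ∀ a ∈ Orb L C (x 0), ¬ Far L C a a := fun a ha h => lt_irrefl _ (f1 a ha a ha h)
  have fasy : ∀ a ∈ Orb L C (x 0), ∀ b ∈ Orb L C (x 0), Far L C a b → ¬ Far L C b a :=
    fun a ha b hb h1 h2 => lt_asymm (f1 a ha b hb h1) (f1 b hb a ha h2)
  have hRF : ∀ (c : Cfg L U) (u v : U), Ri L C x c u v → Far L C u v := by
    intro c u v h
    obtain ⟨b, hb, b', hb', h1, h2, h3⟩ := h.two
    have hu := h.hu.2
    have hv := h.hv.2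
    have mb := (f8 u hu b h1).1
    have mb' := (f8 b mb b' h2).1
    exact ftr u hu b' mb' v hv (ftr u hu b mb b' mb' h1 h2) h3
  have hu0 := hR0.hu.2
  have hv0 := hR0.hv.2
  have h00 : Far L C u₀ v₀ := hRF c₀ u₀ v₀ hR0
  obtain ⟨hVX1, hVX2⟩ := hVCX L U hW C m x z s hN
  obtain ⟨-, hLr, hLt⟩ := hVDX L U hW
  -- the step: adding an element
  have hadd : ∀ c b, MJXQ L C x z s t c₀ u₀ v₀ e J c → (∀ i ∈ c.I, ¬ Nn L c.D b (c.w i)) →
      MJXQ L C x z s t c₀ u₀ v₀ e J (c.add L b) := by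
    intro c b hc hb
    obtain ⟨hv, hl⟩ := hVX1 c b hc.vc hb
    refine ⟨hv, hLt _ _ _ hc.le hl, hc.sub, ?_, hc.or, hc.bd, ?_⟩
    · intro i hi hi0
      exact ((hVX2 c (c.add L b) t hc.vc hv hl i hi).2).2 (hc.cl i hi hi0)
    · intro u v hu hv' huv hno
      have h := hc.ri u v hu hv' huv hno
      refine ⟨⟨Or.inr h.hu.1, h.hu.2⟩, ⟨Or.inr h.hv.1, h.hv.2⟩, h.no, ?_⟩
      obtain ⟨b1, hb1, b2, hb2, hh⟩ := h.two
      exact ⟨b1, Or.inr hb1, b2, Or.inr hb2, hh⟩
  -- the step: adding an index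
  have hidx : ∀ (q : J) (c : Cfg L U), MJXQ L C x z s t c₀ u₀ v₀ e J c →
      ∃ c', MJXQ L C x z s t c₀ u₀ v₀ e J c' ∧ Le L c c' ∧ e q ∈ c'.I := by
    rintro ⟨q, hq⟩ c hc
    by_cases hmem : e q ∈ c.I
    · exact ⟨c, hc, hLr c, hmem⟩
    have hfin : {q' : ℚ | q' ∈ J ∧ e q' ∈ c.I}.Finite := by
      refine Set.Finite.subset (hc.vc.vd.Ifin.preimage he.injOn) ?_
      rintro q' ⟨-, h⟩
      exact h
    -- the left neighbour
    obtain ⟨u, hu1, hu2, hu3, hu4⟩ : ∃ u, (u = u₀ ∨ ∃ q' ∈ J, e q' ∈ c.I ∧ q' < q ∧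
        u = ps L x c (e q')) ∧ (u = u₀ ∨ Far L C u₀ u) ∧ u ∈ Orb L C (x 0) ∧
        ∀ q' ∈ J, e q' ∈ c.I → q' < q → ps L x c (e q') = u ∨ Far L C (ps L x c (e q')) u := by
      by_cases hex : ∃ q', q' ∈ {q' : ℚ | q' ∈ J ∧ e q' ∈ c.I} ∩ {q' | q' < q}
      · obtain ⟨q₁, hq₁, hmax⟩ := Set.exists_max_image
          ({q' : ℚ | q' ∈ J ∧ e q' ∈ c.I} ∩ {q' | q' < q}) id (hfin.inter_of_left _) hex
        obtain ⟨⟨h1, h2⟩, h3⟩ := hq₁
        refine ⟨ps L x c (e q₁), Or.inr ⟨q₁, h1, h2, h3, rfl⟩, Or.inr (hc.bd q₁ h1 h2).1,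
          mjx_mem L hc.vc h2, ?_⟩
        intro q' hq' hi' hlt
        have hle : q' ≤ q₁ := hmax q' ⟨⟨hq', hi'⟩, hlt⟩
        rcases hle.lt_or_eq with h | h
        · exact Or.inr (hc.or q' hq' q₁ h1 h hi' h2)
        · subst h; exact Or.inl rfl
      · refine ⟨u₀, Or.inl rfl, Or.inl rfl, hu0, ?_⟩
        intro q' hq' hi' hlt
        exact absurd ⟨q', ⟨hq', hi'⟩, hlt⟩ hex
    -- the right neighbour
    obtain ⟨v, hv1, hv2, hv3, hv4⟩ : ∃ v, (v = v₀ ∨ ∃ q' ∈ J, e q' ∈ c.I ∧ q < q' ∧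
        v = ps L x c (e q')) ∧ (v = v₀ ∨ Far L C v v₀) ∧ v ∈ Orb L C (x 0) ∧
        ∀ q' ∈ J, e q' ∈ c.I → q < q' → ps L x c (e q') = v ∨ Far L C v (ps L x c (e q')) := by
      by_cases hex : ∃ q', q' ∈ {q' : ℚ | q' ∈ J ∧ e q' ∈ c.I} ∩ {q' | q < q'}
      · obtain ⟨q₁, hq₁, hmin⟩ := Set.exists_min_image
          ({q' : ℚ | q' ∈ J ∧ e q' ∈ c.I} ∩ {q' | q < q'}) id (hfin.inter_of_left _) hex
        obtain ⟨⟨h1, h2⟩, h3⟩ := hq₁
        refine ⟨ps L x c (e q₁), Or.inr ⟨q₁, h1, h2, h3, rfl⟩, Or.inr (hc.bd q₁ h1 h2).2,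
          mjx_mem L hc.vc h2, ?_⟩
        intro q' hq' hi' hlt
        have hle : q₁ ≤ q' := hmin q' ⟨⟨hq', hi'⟩, hlt⟩
        rcases hle.lt_or_eq with h | h
        · exact Or.inr (hc.or q₁ h1 q' hq' h h2 hi')
        · subst h; exact Or.inl rfl
      · refine ⟨v₀, Or.inl rfl, Or.inl rfl, hv0, ?_⟩
        intro q' hq' hi' hlt
        exact absurd ⟨q', ⟨hq', hi'⟩, hlt⟩ hex
    have huv : Far L C u v := by
      rcases hu1 with rfl | ⟨q₁, g1, g2, g3, rfl⟩
      · rcases hv1 with rfl | ⟨q₂, k1, k2, k3, rfl⟩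
        · exact h00
        · exact (hc.bd q₂ k1 k2).1
      · rcases hv1 with rfl | ⟨q₂, k1, k2, k3, rfl⟩
        · exact (hc.bd q₁ g1 g2).2
        · exact hc.or q₁ g1 q₂ k1 (g3.trans k3) g2 k2
    have hRi : Ri L C x c u v := by
      refine hc.ri u v ?_ ?_ huv ?_
      · rcases hu1 with h | ⟨q₁, g1, g2, g3, h⟩
        · exact Or.inl h
        · exact Or.inr (Or.inr ⟨q₁, g1, g2, h⟩)
      · rcases hv1 with h | ⟨q₁, g1, g2, g3, h⟩
        · exact Or.inr (Or.inl h)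
        · exact Or.inr (Or.inr ⟨q₁, g1, g2, h⟩)
      · intro q' hq' hi' ha hb
        have hp := mjx_mem L hc.vc hi'
        rcases lt_trichotomy q' q with h | h | h
        · rcases hu4 q' hq' hi' h with h' | h'
          · rw [h'] at ha; exact firr _ hu3 ha
          · exact fasy _ hu3 _ hp ha h'
        · subst h; exact hmem hi'
        · rcases hv4 q' hq' hi' h with h' | h'
          · rw [h'] at hb; exact firr _ hv3 hb
          · exact fasy _ hp _ hv3 hb h'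
    obtain ⟨c', hc1, hc2, hc3, hc4, hc5, hc6⟩ :=
      hCN c hc.vc hc.le hc.cl (e q) hmem u v hRi hu2 hv2
    have hin : e q ∈ c'.I := by rw [hc3]; exact Or.inl rfl
    have hPp : ps L x c' (e q) ∈ Orb L C (x 0) := mjx_mem L hc1 hin
    have hold : ∀ i ∈ c.I, ps L x c' i = ps L x c i := fun i hi => mjx_ps (C := C) L hc2 hi
    have hsplit : ∀ q' , e q' ∈ c'.I → q' = q ∨ e q' ∈ c.I := by
      intro q' h
      rw [hc3] at h
      rcases h with h | h
      · exact Or.inl (he h)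
      · exact Or.inr h
    have hup := hRF _ _ _ hc4
    have hpv := hRF _ _ _ hc5
    -- the new position is between the neighbours
    have hL : ∀ q' ∈ J, e q' ∈ c.I → q' < q → Far L C (ps L x c (e q')) (ps L x c' (e q)) := by
      intro q' hq' hi' hlt
      rcases hu4 q' hq' hi' hlt with h' | h'
      · rw [h']; exact hup
      · exact ftr _ (mjx_mem L hc.vc hi') _ hu3 _ hPp h' hup
    have hR : ∀ q' ∈ J, e q' ∈ c.I → q < q' → Far L C (ps L x c' (e q)) (ps L x c (e q')) := by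
      intro q' hq' hi' hlt
      rcases hv4 q' hq' hi' hlt with h' | h'
      · rw [h']; exact hpv
      · exact ftr _ hPp _ hv3 _ (mjx_mem L hc.vc hi') hpv h'
    have hB1 : Far L C u₀ (ps L x c' (e q)) := by
      rcases hu2 with h | h
      · rw [← h]; exact hup
      · exact ftr _ hu0 _ hu3 _ hPp h hup
    have hB2 : Far L C (ps L x c' (e q)) v₀ := by
      rcases hv2 with h | h
      · rw [← h]; exact hpv
      · exact ftr _ hPp _ hv3 _ hv0 hpv h
    refine ⟨c', ⟨hc1, hLt _ _ _ hc.le hc2, ?_, ?_, ?_, ?_, ?_⟩, hc2, hin⟩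
    · rw [hc3]
      rintro i (rfl | hi)
      · exact Or.inr ⟨q, hq, rfl⟩
      · exact hc.sub hi
    · intro i hi hi0
      rw [hc3] at hi
      rcases hi with rfl | hi
      · exact hc6
      · exact ((hVX2 c c' t hc.vc hc1 hc2 i hi).2).2 (hc.cl i hi hi0)
    · intro q₁ hq₁ q₂ hq₂ hlt hi₁ hi₂
      rcases hsplit q₁ hi₁ with h | h
      · subst h
        rcases hsplit q₂ hi₂ with h' | h'
        · exact absurd h' (ne_of_gt hlt)
        · rw [hold _ h']; exact hR q₂ hq₂ h' hlt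
      · rcases hsplit q₂ hi₂ with h' | h'
        · subst h'
          rw [hold _ h]; exact hL q₁ hq₁ h hlt
        · rw [hold _ h, hold _ h']; exact hc.or q₁ hq₁ q₂ hq₂ hlt h h'
    · intro q₁ hq₁ hi₁
      rcases hsplit q₁ hi₁ with h | h
      · subst h; exact ⟨hB1, hB2⟩
      · rw [hold _ h]; exact hc.bd q₁ hq₁ h
    · intro a b ha hb hab hno
      -- nodes are in the orbit
      have hcase : ∀ y, (y = u₀ ∨ y = v₀ ∨ ∃ q' ∈ J, e q' ∈ c'.I ∧ y = ps L x c' (e q')) →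
          y = ps L x c' (e q) ∨ (y = u₀ ∨ y = v₀ ∨ ∃ q' ∈ J, e q' ∈ c.I ∧ y = ps L x c (e q')) := by
        rintro y (h | h | ⟨q', h1, h2, h3⟩)
        · exact Or.inr (Or.inl h)
        · exact Or.inr (Or.inr (Or.inl h))
        · rcases hsplit q' h2 with h | h
          · subst h; exact Or.inl h3
          · rw [hold _ h] at h3; exact Or.inr (Or.inr (Or.inr ⟨q', h1, h, h3⟩))
      have hnoc : ∀ q' ∈ J, e q' ∈ c.I → Far L C a (ps L x c (e q')) →
          Far L C (ps L x c (e q')) b → False := by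
        intro q' hq' hi' h1 h2
        refine hno q' hq' (by rw [hc3]; exact Or.inr hi') ?_ ?_
        · rw [hold _ hi']; exact h1
        · rw [hold _ hi']; exact h2
      rcases hcase a ha with hA | hA
      · -- a is the new position
        subst hA
        have hbv : b = v := by
          rcases hcase b hb with hB | hB
          · rw [hB] at hab; exact absurd hab (firr _ hPp)
          rcases hB with h | h | ⟨q₂, h1, h2, h3⟩
          · rw [h] at hab; exact absurd hab (fasy _ hu0 _ hPp hB1)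
          · rcases hv1 with hv1 | ⟨q₁, g1, g2, g3, g4⟩
            · rw [h, hv1]
            · exfalso
              refine hnoc q₁ g1 g2 (g4 ▸ hpv) ?_
              rw [h]; exact (hc.bd q₁ g1 g2).2
          · rcases lt_trichotomy q₂ q with hlt | hlt | hlt
            · rw [h3] at hab
              exact absurd hab (fasy _ (mjx_mem L hc.vc h2) _ hPp (hL q₂ h1 h2 hlt))
            · subst hlt; exact absurd h2 hmem
            · rcases hv4 q₂ h1 h2 hlt with h' | h'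
              · rw [h3, h']
              · exfalso
                rcases hv1 with hv1 | ⟨q₁, g1, g2, g3, g4⟩
                · rw [hv1] at h'
                  exact fasy _ hv0 _ (mjx_mem L hc.vc h2) h' (hc.bd q₂ h1 h2).2
                · refine hnoc q₁ g1 g2 (g4 ▸ hpv) ?_
                  rw [h3, ← g4]; exact h'
        rw [hbv]; exact hc5
      rcases hcase b hb with hB | hB
      · subst hB
        have hau : a = u := by
          rcases hA with h | h | ⟨q₂, h1, h2, h3⟩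
          · rcases hu1 with hu1 | ⟨q₁, g1, g2, g3, g4⟩
            · rw [h, hu1]
            · exfalso
              refine hnoc q₁ g1 g2 ?_ (g4 ▸ hup)
              rw [h]; exact (hc.bd q₁ g1 g2).1
          · rw [h] at hab; exact absurd hab (fasy _ hPp _ hv0 hB2)
          · rcases lt_trichotomy q₂ q with hlt | hlt | hlt
            · rcases hu4 q₂ h1 h2 hlt with h' | h'
              · rw [h3, h']
              · exfalso
                rcases hu1 with hu1 | ⟨q₁, g1, g2, g3, g4⟩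
                · rw [hu1] at h'
                  exact fasy _ hu0 _ (mjx_mem L hc.vc h2) (hc.bd q₂ h1 h2).1 h'
                · refine hnoc q₁ g1 g2 ?_ (g4 ▸ hup)
                  rw [h3, ← g4]; exact h'
            · subst hlt; exact absurd h2 hmem
            · rw [h3] at hab
              exact absurd hab (fasy _ hPp _ (mjx_mem L hc.vc h2) (hR q₂ h1 h2 hlt))
        rw [hau]; exact hc4
      · have h := hc.ri a b hA hB hab hnoc
        refine ⟨⟨hc2.D h.hu.1, h.hu.2⟩, ⟨hc2.D h.hv.1, h.hv.2⟩, ?_, ?_⟩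
        · intro i hi h1 h2
          rw [hc3] at hi
          rcases hi with rfl | hi
          · exact hno q hq hin h1 h2
          · rw [hold _ hi] at h1 h2
            exact h.no i hi h1 h2
        · obtain ⟨b1, hb1, b2, hb2, hh⟩ := h.two
          exact ⟨b1, hc2.D hb1, b2, hc2.D hb2, hh⟩
  -- the start
  have hstart : MJXQ L C x z s t c₀ u₀ v₀ e J c₀ := by
    refine ⟨hV0, hLr c₀, fun i hi => Or.inl hi, fun i hi hi0 => absurd hi hi0,
      fun q _ q' _ _ h => absurd h (hec q), fun q _ h => absurd h (hec q), ?_⟩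
    intro u v hu hv huv hno
    have hu' : u = u₀ ∨ u = v₀ := by
      rcases hu with h | h | ⟨q, _, h, _⟩
      · exact Or.inl h
      · exact Or.inr h
      · exact absurd h (hec q)
    have hv' : v = u₀ ∨ v = v₀ := by
      rcases hv with h | h | ⟨q, _, h, _⟩
      · exact Or.inl h
      · exact Or.inr h
      · exact absurd h (hec q)
    rcases hu' with rfl | rfl
    · rcases hv' with rfl | rfl
      · exact absurd huv (firr _ hu0)
      · exact hR0
    · rcases hv' with rfl | rfl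
      · exact absurd huv (fasy _ hu0 _ hv0 h00)
      · exact absurd huv (firr _ hv0)
  obtain ⟨c, h0, hQ, hLe, hT, hEl, hUn, hGp⟩ :=
    hGNC L U hW (MJXQ L C x z s t c₀ u₀ v₀ e J) J (fun q c => e q ∈ c.I) c₀
      (fun c hc => hc.vc.vd) hstart hadd hidx
  set M : Set U := ⋃ j, (c j).D with hM
  have hex : ∀ i ∈ c₀.I ∪ e '' J, ∃ j, i ∈ (c j).I := by
    rintro i (hi | ⟨q, hq, rfl⟩)
    · exact ⟨0, by rw [h0]; exact hi⟩
    · exact hT ⟨q, hq⟩
  classical
  let F : ℕ → ℕ := fun i => if h : ∃ j, i ∈ (c j).I then Nat.find h else 0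
  have hF1 : ∀ i j, i ∈ (c j).I → i ∈ (c (F i)).I ∧ F i ≤ j := by
    intro i j hj
    have h : ∃ j, i ∈ (c j).I := ⟨j, hj⟩
    have hFi : F i = Nat.find h := dif_pos h
    rw [hFi]
    exact ⟨Nat.find_spec h, Nat.find_min' h hj⟩
  have hF : ∀ i ∈ c₀.I ∪ e '' J, i ∈ (c (F i)).I := fun i hi => by
    obtain ⟨j, hj⟩ := hex i hi
    exact (hF1 i j hj).1
  have hw : ∀ i j, i ∈ (c j).I → (c (F i)).w i = (c j).w i ∧ (c (F i)).r i = (c j).r i := by
    intro i j hj
    obtain ⟨h1, h2⟩ := hF1 i j hj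
    exact ⟨((hLe _ _ h2).w i h1).symm, ((hLe _ _ h2).r i h1).symm⟩
  have hDM : ∀ j, (c j).D ⊆ M := fun j => subset_iUnion (fun j => (c j).D) j
  have hc0M : c₀.D ⊆ M := by rw [← h0]; exact hDM 0
  refine ⟨M, fun i => (c (F i)).w i, fun i => (c (F i)).r i, fun i => (c (F i)).D, ?_⟩
  refine ⟨hEl, ⟨hc0M, hV0.CD.trans hc0M⟩, ?_, ?_, ?_, ?_, ?_, ?_, ?_, ?_, ?_⟩
  · intro i hi
    have hi' : i ∈ (c 0).I := by rw [h0]; exact hi
    show (c (F i)).r i = c₀.r i
    rw [(hw i 0 hi').2, h0]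
  · intro i hi
    exact ⟨(hQ (F i)).vc.fx i (hF i hi), (hQ (F i)).vc.rg i (hF i hi)⟩
  · intro i hi
    exact ⟨(hQ (F i)).vc.vd.fin, (hQ (F i)).vc.CD, hDM _⟩
  · intro i hi
    exact (hQ (F i)).vc.ge i (hF i hi)
  · intro i hi
    exact ⟨hUn _ i (hF i hi), (hQ (F i)).vc.vd.niso i (hF i hi)⟩
  · intro i hi j hj hij
    have h1 := hF i hi
    have h2 := hF j hj
    have k1 : i ∈ (c (max (F i) (F j))).I := (hLe _ _ (le_max_left _ _)).I h1
    have k2 : j ∈ (c (max (F i) (F j))).I := (hLe _ _ (le_max_right _ _)).I h2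
    refine ⟨(c (max (F i) (F j))).D, (hQ _).vc.vd.fin, ?_, hDM _, ?_⟩
    · exact union_subset (hLe _ _ (le_max_left _ _)).D (hLe _ _ (le_max_right _ _)).D
    · show ¬ Nn L _ ((c (F i)).w i) ((c (F j)).w j)
      rw [(hw i _ k1).1, (hw j _ k2).1]
      exact (hQ _).vc.vd.wo i k1 j k2 hij
  · intro q hq q' hq' hlt
    have h1 := hF (e q) (Or.inr ⟨q, hq, rfl⟩)
    have h2 := hF (e q') (Or.inr ⟨q', hq', rfl⟩)
    have k1 : e q ∈ (c (max (F (e q)) (F (e q')))).I := (hLe _ _ (le_max_left _ _)).I h1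
    have k2 : e q' ∈ (c (max (F (e q)) (F (e q')))).I := (hLe _ _ (le_max_right _ _)).I h2
    show Far L C ((c (F (e q))).r (e q) (x 0)) ((c (F (e q'))).r (e q') (x 0))
    rw [(hw _ _ k1).2, (hw _ _ k2).2]
    exact (hQ _).or q hq q' hq' hlt k1 k2
  · intro q hq ρ hρ hE
    have h1 := hF (e q) (Or.inr ⟨q, hq, rfl⟩)
    exact (hQ _).cl (e q) h1 (hec q) ρ hρ hE
  · intro B y τ hB hBM
    rcases hGp B y τ hB hBM with h | ⟨j, hj1, i, hi, hj2⟩
    · exact Or.inl h
    · right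
      obtain ⟨h1, h2⟩ := hF1 i j hi
      refine ⟨i, (hQ j).sub hi, (c j).D, (hQ j).vc.vd.fin, hj1, (hLe _ _ h2).D, hDM j, ?_⟩
      intro u hu
      show Nn L _ u ((c (F i)).w i)
      rw [(hw i j hi).1]
      exact hj2 u hu

end Pool.Agent.WOM
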