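import Pool.Agent.WOM.StD
import Pool.Agent.Helper6.StructFO

/-!
WOM, module MSB: the models of a theory are a measurable set of codes (helper34).
-/

set_option autoImplicit false
set_option linter.unusedVariables false

namespace Pool.Agent.WOM

open FirstOrder.Language Set
open scoped FirstOrder

theorem thm_MSB : St_MSB := by
  intro L _ _ T
  have hc : Countable L.Symbols :=
    inferInstanceAs (Countable ((Σ l, L.Functions l) ⊕ Σ l, L.Relations l))
  exact Pool.Agent.Helper6.Str.measurableSet_model hc T

end Pool.Agent.WOM
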