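import Pool.Agent.WOM.StC

/-!
WOM [MSX]: independent choice of the closed germs (helper21 for helper85).
-/

set_option autoImplicit false
set_option linter.unusedVariables false

namespace Pool.Agent.WOM

open FirstOrder.Language Set
open scoped FirstOrder

section msx

variable (L : FirstOrder.Language.{0, 0}) {U : Type} [L.Structure U] [LinearOrder U]

/-- the invariant of the construction: the tasks with index `< n` are done -/
structure MSXQ (B : ℕ → Set U) (v : ℕ → U) (s : ℕ → Bool) (S : Set ℕ) (n : ℕ) (c : Cfg L U) :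
    Prop where
  vd : Vd L c
  sub : ∀ k < n, B k ⊆ c.D
  I : c.I = {i | i < n ∧ i ∈ S}
  ge : ∀ i ∈ c.I, c.w i ∈ Ge L (B i) (v i) (s i) c.D

end msx

theorem thm_MSX (hORB : St_ORB) (hNSB : St_NSB) (hGEX : St_GEX) (hGER : St_GER) (hSDI : St_SDI)
    (hVDX : St_VDX) (hGNC : St_GNC) : St_MSX := by
  intro L U _ _ hW B v s hfin hmono hsd horb hwo S
  classical
  obtain ⟨o1, o2, o3, o4, o5, o6, o7, o8, o9⟩ := hORB L U hW.mon
  obtain ⟨n1, n2, n3, n4, n5, n6'⟩ := hNSB L U
  have n6 := n6' hW.na
  have hge := hGEX L U hW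
  obtain ⟨g1, g2, g3, g4, g5, g6, g7, g8⟩ := hGER L U hW
  obtain ⟨d1, d2, d3, d4, d5⟩ := hSDI L U hW
  obtain ⟨x1, x2, x3⟩ := hVDX L U hW
  have osymm : ∀ (A : Set U) (x y : U), y ∈ Orb L A x → x ∈ Orb L A y := fun A x y h => by
    rw [o2 A x y h]; exact o1 A x
  -- weak orthogonality is inherited by conjugates and by larger sets
  have nn : ∀ (A D : Set U) (x z x' z' : U), A ⊆ D → D.Finite → x' ∈ Orb L A x → z' ∈ Orb L A z →
      ¬ Nn L A x z → ¬ Nn L D x' z' := by
    intro A D x z x' z' hAD hD hx hz h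
    refine n6 A D x' z' hAD hD fun h' => h ?_
    exact n2 A x' z' x z (osymm _ _ _ hx) (osymm _ _ _ hz) h'
  -- adding an element
  have hadd : ∀ (n : ℕ) (c : Cfg L U) (b : U), MSXQ L B v s S n c →
      (∀ i ∈ c.I, ¬ Nn L c.D b (c.w i)) →
      MSXQ L B v s S n (c.add L b) ∧ Le L c (c.add L b) := by
    intro n c b hc hb
    obtain ⟨hv, hl⟩ := x1 c b hc.vd hb
    refine ⟨⟨hv, fun k hk => (hc.sub k hk).trans hl.D, hc.I, ?_⟩, hl⟩
    intro i hi
    have hi' : i < n := by
      have := hi
      change i ∈ c.I at this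
      rw [hc.I] at this
      exact this.1
    change c.w i ∈ Ge L (B i) (v i) (s i) (insert b c.D)
    have hf : (insert b c.D).Finite := hc.vd.fin.insert b
    have hsub : c.D ⊆ insert b c.D := subset_insert b c.D
    rw [← g1 (B i) c.D (insert b c.D) (v i) (c.w i) (s i) (hc.sub i hi') hsub hf (hc.ge i hi),
      ← g3 c.D (insert b c.D) (insert b c.D) (c.w i) (s i) hsub subset_rfl hf (hl.orb i hi), g6]
    exact o1 _ _
  -- adding a finite subset of `B n`
  have hset : ∀ (n : ℕ) (c : Cfg L U), MSXQ L B v s S n c → ∀ F : Set U, F.Finite → F ⊆ B n →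
      ∃ c', MSXQ L B v s S n c' ∧ Le L c c' ∧ F ⊆ c'.D := by
    intro n c hc F hF
    induction F, hF using Set.Finite.induction_on with
    | empty => exact fun _ => ⟨c, hc, x2 c, empty_subset _⟩
    | @insert b F hb hF ih =>
      intro hsub
      obtain ⟨c', h1, h2, h3⟩ := ih ((subset_insert b F).trans hsub)
      have hbn : b ∈ B n := hsub (mem_insert b F)
      have hw : ∀ i ∈ c'.I, ¬ Nn L c'.D b (c'.w i) := by
        intro i hi
        have hi' : i < n := by
          have := hi
          rw [h1.I] at this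
          exact this.1
        refine nn (B i) c'.D b (v i) b (c'.w i) (h1.sub i hi') h1.vd.fin (o1 _ _) (h1.ge i hi).1 ?_
        unfold Nn
        rw [not_not]
        apply Subset.antisymm
        · exact o3 _ _ _ (subset_insert b (B i))
        · rw [← horb i n hi'.le]
          exact o3 _ _ _ (insert_subset hbn (hmono hi'.le))
      obtain ⟨h4, h5⟩ := hadd n c' b h1 hw
      refine ⟨c'.add L b, h4, x3 _ _ _ h2 h5, ?_⟩
      exact insert_subset (mem_insert b c'.D) (h3.trans (subset_insert b c'.D))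
  -- the step from `n` to `n + 1`
  have hstep : ∀ (n : ℕ) (c : Cfg L U), MSXQ L B v s S n c →
      ∃ c', MSXQ L B v s S (n + 1) c' ∧ Le L c c' := by
    intro n c hc
    obtain ⟨c', h1, h2, h3⟩ := hset n c hc (B n) (hfin n) subset_rfl
    have hsub : ∀ k < n + 1, B k ⊆ c'.D := by
      intro k hk
      rcases Nat.lt_succ_iff_lt_or_eq.1 hk with h | h
      · exact h1.sub k h
      · rw [h]; exact h3
    by_cases hn : n ∈ S
    · obtain ⟨u, hu⟩ := (hge (B n) c'.D (v n) (s n) h3 h1.vd.fin).1
      have hin : ∀ i ∈ c'.I, i < n := by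
        intro i hi
        rw [h1.I] at hi
        exact hi.1
      have hne : ∀ i ∈ c'.I, i ≠ n := fun i hi => (hin i hi).ne
      have hwi : ∀ i ∈ c'.I, Function.update c'.w n u i = c'.w i := fun i hi =>
        Function.update_of_ne (hne i hi) u c'.w
      have hwn : Function.update c'.w n u n = u := Function.update_self n u c'.w
      have hcross : ∀ i ∈ c'.I, ¬ Nn L c'.D (c'.w i) u := by
        intro i hi
        have hlt := hin i hi
        refine nn (B n) c'.D (v i) (v n) (c'.w i) u h3 h1.vd.fin ?_ hu.1 (hwo i n hlt)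
        rw [horb i n hlt.le]
        exact (h1.ge i hi).1
      have hLe : Le L c' ({ D := c'.D, I := insert n c'.I, w := Function.update c'.w n u,
                            r := c'.r } : Cfg L U) :=
        ⟨subset_rfl, subset_insert _ _, fun i hi => hwi i hi, fun _ _ => rfl, fun _ _ => rfl⟩
      refine ⟨{ D := c'.D, I := insert n c'.I, w := Function.update c'.w n u, r := c'.r },
        ⟨⟨h1.vd.fin, h1.vd.Ifin.insert n, ?_, ?_⟩, hsub, ?_, ?_⟩, x3 _ _ _ h2 hLe⟩
      · rintro i hi
        change ¬ Isd L c'.D (Function.update c'.w n u i)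
        rcases hi with rfl | hi
        · rw [hwn]
          intro hI
          have h' := (d1 c'.D u h1.vd.fin).1 hI
          have h'' : SD L c'.D u (s i) := by
            cases hs : s i
            · exact h'.2
            · exact h'.1
          exact hsd i ((d2 (B i) c'.D (v i) u (s i) h3 h1.vd.fin hu).1 h'')
        · rw [hwi i hi]
          exact h1.vd.niso i hi
      · intro i hi j hj hij
        change ¬ Nn L c'.D (Function.update c'.w n u i) (Function.update c'.w n u j)
        rcases hi with rfl | hi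
        · rcases hj with rfl | hj
          · exact absurd rfl hij
          · rw [hwn, hwi j hj]
            exact fun h => hcross j hj (n1 _ _ _ h)
        · rcases hj with rfl | hj
          · rw [hwn, hwi i hi]
            exact hcross i hi
          · rw [hwi i hi, hwi j hj]
            exact h1.vd.wo i hi j hj hij
      · change insert n c'.I = _
        rw [h1.I]
        ext i
        constructor
        · rintro (rfl | ⟨h, h'⟩)
          · exact ⟨Nat.lt_succ_self i, hn⟩
          · exact ⟨Nat.lt_succ_of_lt h, h'⟩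
        · rintro ⟨h, h'⟩
          rcases Nat.lt_succ_iff_lt_or_eq.1 h with h | h
          · exact Or.inr ⟨h, h'⟩
          · exact Or.inl h
      · rintro i hi
        change Function.update c'.w n u i ∈ Ge L (B i) (v i) (s i) c'.D
        rcases hi with rfl | hi
        · rw [hwn]; exact hu
        · rw [hwi i hi]; exact h1.ge i hi
    · refine ⟨c', ⟨h1.vd, hsub, ?_, h1.ge⟩, h2⟩
      rw [h1.I]
      ext i
      constructor
      · rintro ⟨h, h'⟩
        exact ⟨Nat.lt_succ_of_lt h, h'⟩
      · rintro ⟨h, h'⟩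
        rcases Nat.lt_succ_iff_lt_or_eq.1 h with h | h
        · exact ⟨h, h'⟩
        · exact absurd (h ▸ h') hn
  have hsteps : ∀ (d n : ℕ) (c : Cfg L U), MSXQ L B v s S n c →
      ∃ c', MSXQ L B v s S (n + d) c' ∧ Le L c c' := by
    intro d
    induction d with
    | zero => exact fun n c hc => ⟨c, hc, x2 c⟩
    | succ d ih =>
      intro n c hc
      obtain ⟨c', h1, h2⟩ := ih n c hc
      obtain ⟨c'', h3, h4⟩ := hstep _ c' h1
      exact ⟨c'', h3, x3 _ _ _ h2 h4⟩
  let c₀ : Cfg L U :=
    { D := ∅, I := ∅, w := fun _ => v 0, r := fun _ => FirstOrder.Language.Equiv.refl L U }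
  have h0 : MSXQ L B v s S 0 c₀ := by
    refine ⟨⟨finite_empty, finite_empty, ?_, ?_⟩, ?_, ?_, ?_⟩
    · intro i hi; exact absurd hi (notMem_empty i)
    · intro i hi; exact absurd hi (notMem_empty i)
    · intro k hk; exact absurd hk (Nat.not_lt_zero k)
    · ext i
      constructor
      · intro hi; exact absurd hi (notMem_empty i)
      · rintro ⟨h, _⟩; exact absurd h (Nat.not_lt_zero i)
    · intro i hi; exact absurd hi (notMem_empty i)
  obtain ⟨c, hc0, hQ, hLe, hT, hEl, hUn, hGp⟩ :=
    hGNC L U hW (fun c => ∃ n, MSXQ L B v s S n c) ℕ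
      (fun k c => B k ⊆ c.D ∧ (k ∈ S → k ∈ c.I)) c₀
      (fun c ⟨n, hc⟩ => hc.vd) ⟨0, h0⟩
      (fun c b ⟨n, hc⟩ hb => ⟨n, (hadd n c b hc hb).1⟩)
      (by
        rintro k c ⟨n, hc⟩
        obtain ⟨c', h1, h2⟩ := hsteps (k + 1) n c hc
        refine ⟨c', ⟨_, h1⟩, h2, h1.sub k (by omega), fun hk => ?_⟩
        rw [h1.I]
        exact ⟨by omega, hk⟩)
  have hBM : ∀ n, B n ⊆ ⋃ j, (c j).D := fun n => by
    obtain ⟨j, hj, _⟩ := hT n
    exact hj.trans (subset_iUnion (fun j => (c j).D) j)
  refine ⟨⋃ j, (c j).D, hEl, hBM, fun i => ⟨?_, ?_⟩⟩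
  · rintro ⟨D, hD, hBD, hDM, hemp⟩
    by_contra hiS
    rcases hGp (B i) (v i) (s i) (hfin i) (hBM i) with h | ⟨j, hBj, k, hk, hall⟩
    · have h' := h D hD hBD hDM
      change gs L ((B i, v i, s i) : Gm U) D ∩ _ = ∅ at hemp
      change (gs L ((B i, v i, s i) : Gm U) D ∩ _).Nonempty at h'
      rw [hemp] at h'
      exact not_nonempty_empty h'
    · obtain ⟨n, hQj⟩ := hQ j
      have hk' : k < n ∧ k ∈ S := by
        have := hk
        rw [hQj.I] at this
        exact this
      have hki : k ≠ i := fun h => hiS (h ▸ hk'.2)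
      have hfj := hQj.vd.fin
      obtain ⟨u, hu⟩ := (hge (B i) (c j).D (v i) (s i) hBj hfj).1
      have hwk := hQj.ge k hk
      refine absurd (hall u hu) ?_
      rcases lt_or_gt_of_ne hki with hlt | hlt
      · refine nn (B i) (c j).D (v i) (v k) u _ hBj hfj hu.1 ?_
          (fun h => hwo k i hlt (n1 _ _ _ h))
        rw [horb k i hlt.le]
        exact hwk.1
      · refine nn (B k) (c j).D (v i) (v k) u _ (hQj.sub k hk'.1) hfj ?_ hwk.1 (hwo i k hlt)
        rw [horb i k hlt.le]
        exact hu.1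
  · intro hiS
    obtain ⟨j, hBj, hIj⟩ := hT i
    have hi := hIj hiS
    obtain ⟨n, hQj⟩ := hQ j
    have hfj := hQj.vd.fin
    have hwi := hQj.ge i hi
    have hDM : (c j).D ⊆ ⋃ j, (c j).D := subset_iUnion (fun j => (c j).D) j
    refine ⟨(c j).D, hfj, hBj, hDM, ?_⟩
    rw [eq_empty_iff_forall_notMem]
    rintro y ⟨hy, hyM⟩
    change y ∈ Ge L (B i) (v i) (s i) (c j).D at hy
    rw [(hge (B i) (c j).D (v i) (s i) hBj hfj).2 _ hwi] at hy
    have hun := hUn j i hi (insert y (c j).D) (hfj.insert y) (subset_insert _ _)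
      (insert_subset hyM hDM)
    have hy' : y ∈ Orb L (insert y (c j).D) ((c j).w i) := by rw [hun]; exact hy
    have h1 : Orb L (c j).D ((c j).w i) = {y} := by
      rw [← hun, ← o2 _ _ _ hy']
      exact o5 _ _ (mem_insert _ _)
    have h2 : (c j).w i ∈ Orb L (c j).D ((c j).w i) := o1 _ _
    have h3 : (c j).w i = y := by rw [h1] at h2; exact h2
    have hnsd : ¬ SD L (c j).D ((c j).w i) (s i) := fun h =>
      hsd i ((d2 (B i) (c j).D (v i) _ (s i) hBj hfj hwi).1 h)
    refine d5 (c j).D ((c j).w i) (s i) hfj hnsd ?_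
    rw [h1, h3]

end Pool.Agent.WOM
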