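import Pool.Agent.WOM.StC
import Pool.Agent.HER.LOF

/-! WOM: module NCF, a nonconstant code contradicts `ScU` (helper89). -/

set_option autoImplicit false

namespace Pool.Agent.WOM

open FirstOrder.Language Set
open scoped FirstOrder

private theorem NCF_mul {γ : Ordinal.{0}} (h : γ < Pool.Agent.Helper79.VC.om1) :
    Ordinal.omega0 * γ < Pool.Agent.Helper79.VC.om1 := by
  rw [Pool.Agent.Helper79.VC.lt_om1_iff] at h ⊢
  rw [Ordinal.card_mul, Ordinal.card_omega0]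
  calc Cardinal.aleph0 * γ.card ≤ Cardinal.aleph0 * Cardinal.aleph0 := by gcongr
    _ = Cardinal.aleph0 := Cardinal.aleph0_mul_aleph0

theorem thm_NCF (hDIC : St_DIC) (hMJX : St_MJX) (hLEJ : St_LEJ) : St_NCF := by
  intro L _ U S _ hW hSc C m x z s hN
  obtain ⟨t, c₀, u₀, v₀, hV, hR, hC⟩ := hDIC L U hW C m x z s hN
  obtain ⟨N, hNb⟩ := hV.vd.Ifin.bddAbove
  obtain ⟨f0, hf0⟩ := exists_injective_nat ℚ
  obtain ⟨e, he⟩ : ∃ e : ℚ → ℕ, e = fun q => f0 q + (N + 1) := ⟨_, rfl⟩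
  have hei : Function.Injective e := by
    intro a b hab
    rw [he] at hab
    exact hf0 (Nat.add_right_cancel hab)
  have heI : ∀ q, e q ∉ c₀.I := by
    intro q hq
    have h1 := hNb hq
    rw [he] at h1
    have h2 : f0 q + (N + 1) ≤ N := h1
    omega
  obtain ⟨I, γ, hγ, -, hI⟩ := HER.thm_LOF
  choose X w r Dd hX using fun f : ℕ → Bool =>
    hMJX L U hW C m x z s hN t c₀ u₀ v₀ hV hR hC e hei heI (I f)
  obtain ⟨n, d, hd⟩ : ∃ (n : ℕ) (d : Fin n → U), range d = c₀.D := by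
    have := hV.vd.fin.fintype
    refine ⟨Fintype.card c₀.D, fun i => ((Fintype.equivFin c₀.D).symm i : U), ?_⟩
    ext y
    constructor
    · rintro ⟨i, rfl⟩
      exact ((Fintype.equivFin c₀.D).symm i).2
    · intro hy
      exact ⟨Fintype.equivFin c₀.D ⟨y, hy⟩, by simp⟩
  have hlt : Ordinal.omega0 + Ordinal.omega0 + Ordinal.omega0 + Ordinal.omega0 * γ <
      Pool.Agent.Helper79.VC.om1 :=
    Pool.Agent.Helper79.VC.add_lt_om1 (Pool.Agent.Helper79.VC.add_lt_om1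
      (Pool.Agent.Helper79.VC.add_lt_om1 Pool.Agent.Helper79.VC.omega_lt_om1
        Pool.Agent.Helper79.VC.omega_lt_om1) Pool.Agent.Helper79.VC.omega_lt_om1) (NCF_mul hγ)
  obtain ⟨f, g, hfg, hB⟩ := hSc X n d _ hlt fun f => ⟨(hX f).el, fun i =>
    (hX f).c0.1 (hd ▸ mem_range_self i)⟩
  apply hfg
  apply hI
  have hp : HERN.prs d d = {p : U × U | p.1 = p.2 ∧ p.1 ∈ c₀.D} := by
    ext ⟨a, b⟩
    constructor
    · rintro ⟨i, hi⟩
      have h1 : d i = a := congrArg Prod.fst hi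
      have h2 : d i = b := congrArg Prod.snd hi
      refine ⟨h1.symm.trans h2, ?_⟩
      show a ∈ c₀.D
      rw [← h1, ← hd]
      exact mem_range_self i
    · rintro ⟨h1, h2⟩
      have h1' : a = b := h1
      have h2' : a ∈ c₀.D := h2
      rw [← hd] at h2'
      obtain ⟨i, hi⟩ := h2'
      exact ⟨i, Prod.ext hi (hi.trans h1')⟩
  rw [hp] at hB
  exact hLEJ L U hW C m x z s hN t c₀ e (I f) (I g) (X f) (X g) (w f) (w g) (r f) (r g) (Dd f)
    (Dd g) γ hV (hX f) (hX g) hei heI hB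

end Pool.Agent.WOM
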