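import Pool.Agent.WOM.StC

/-!
WOM, module NEW: a new gap in a rich interval (helper6).
-/

set_option autoImplicit false
set_option linter.unusedVariables false

namespace Pool.Agent.WOM

open FirstOrder.Language Set
open scoped FirstOrder

section

variable {L : FirstOrder.Language.{0, 0}} {U : Type} [L.Structure U] [LinearOrder U]

omit [LinearOrder U] in
theorem NEW_gr1 {C D : Set U} {m : ℕ} {x : Fin (m + 1) → U} {z : U} {s : Bool} {ρ : U ≃[L] U}
    (hC : C ⊆ D) (hf : Fx L C ρ) (hx : ∀ l, ρ (x l) ∈ D) : (gr L C x z s ρ).1 ⊆ D := by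
  rintro y ⟨a, ha | ⟨l, rfl⟩, rfl⟩
  · rw [hf a ha]
    exact hC ha
  · exact hx l

omit [L.Structure U] [LinearOrder U] in
theorem NEW_sg (e s : Bool) (h : ¬ sg e s = s) : sg e s = !s := by
  cases e <;> cases s <;> simp_all [sg]

omit [LinearOrder U] in
/-- descending chain -/
theorem NEW_seq (P : U → Prop) (R : U → U → Prop) (b : U) (hb : P b)
    (hs : ∀ y, P y → ∃ y', P y' ∧ R y' y) :
    ∃ f : ℕ → U, f 0 = b ∧ (∀ n, P (f n)) ∧ ∀ n, R (f (n + 1)) (f n) := by
  choose g hg hR using hs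
  let F : ℕ → {y // P y} := fun n => Nat.rec ⟨b, hb⟩ (fun _ y => ⟨g y.1 y.2, hg y.1 y.2⟩) n
  exact ⟨fun n => (F n).1, rfl, fun n => (F n).2, fun n => hR (F n).1 (F n).2⟩

end

theorem thm_NEW (hGEX : St_GEX) (hGER : St_GER) (hSDI : St_SDI) (hFAR : St_FAR)
    (hEQG : St_EQG) (hSMG : St_SMG) (hNSB : St_NSB) (hORB : St_ORB) (hOPF : St_OPF)
    (hGAM : St_GAM) (hKAP : St_KAP) (hCDN : St_CDN) (hCOR : St_COR) : St_NEW := by
  classical
  intro L U _ _ hW C m x z s hN c u v i hc hri hi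
  obtain ⟨M, hM, hDM, hun, hGP⟩ := hOPF L U hW c hc.vd
  obtain ⟨E1, E2, E3, E4, E5, E6, E7, E8⟩ := hEQG L U hW
  obtain ⟨K1, K2, K3, K4, K5, K6⟩ := hKAP L U hW C m x z s hN
  obtain ⟨O1, O2, O3, O4, O5, O6, O7, O8, O9⟩ := hORB L U hW.mon
  obtain ⟨F1, F2, F3, F4, F5, F6, F7, F8⟩ := hFAR L U hW C (x 0) hN.fin K3
  obtain ⟨S1, S2, S3, S4, S5⟩ := hSDI L U hW
  obtain ⟨G1, G2, G3, G4, G5, G6, G7, G8⟩ := hGER L U hW
  obtain ⟨N1, N2, N3, N4, N5, N6⟩ := hNSB L U
  have N6' := N6 hW.na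
  -- membership in the orbit
  have hfo : ∀ ρ : U ≃[L] U, Fx L C ρ → ρ (x 0) ∈ Orb L C (x 0) := fun ρ hρ => ⟨ρ, hρ, rfl⟩
  have hFo : ∀ a ∈ Orb L C (x 0), ∀ b, Far L C a b → b ∈ Orb L C (x 0) :=
    fun a ha b hab => (F8 a ha b hab).1
  have Ftr : ∀ a ∈ Orb L C (x 0), ∀ b, ∀ d, Far L C a b → Far L C b d → Far L C a d := by
    intro a ha b d hab hbd
    have hb := hFo a ha b hab
    have hd := hFo b hb d hbd
    exact F2 a ha b hb d hd hab (F1 b hb d hd hbd).le
  obtain ⟨b, hbD, b', hb'D, hub, hbb', hb'v⟩ := hri.two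
  have hup := hri.hu.2
  have hvp := hri.hv.2
  have hbp : b ∈ Orb L C (x 0) := hFo u hup b hub
  have hb'p : b' ∈ Orb L C (x 0) := hFo b hbp b' hbb'
  -- points of X are far from the positions
  have hfar : ∀ y ∈ Orb L C (x 0), Far L C u y → Far L C y v → ∀ j ∈ c.I,
      Far L C y (ps L x c j) ∨ Far L C (ps L x c j) y := by
    intro y hy huy hyv j hj
    have hpj : ps L x c j ∈ Orb L C (x 0) := hfo _ (hc.fx j hj)
    rcases F4 u hup _ hpj y hy huy with h | h
    · rcases F4 y hy _ hpj v hvp hyv with h' | h'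
      · exact Or.inl h'
      · exact (hri.no j hj h h').elim
    · exact Or.inr h
  have hbv : Far L C b v := Ftr b hbp b' v hbb' hb'v
  -- the chain
  obtain ⟨f, hf0, hfP, hfR⟩ := NEW_seq
    (fun y => y ∈ M ∧ y ∈ Orb L C (x 0) ∧ Far L C b y ∧ y ≤ b') (fun y' y => Far L C y' y) b'
    ⟨hDM hb'D, hb'p, hbb', le_rfl⟩ (by
      rintro y ⟨hyM, hyp, hby, hyb'⟩
      have huy : Far L C u y := Ftr u hup b y hub hby
      have hyv : Far L C y v := F3 y hyp b' hb'p v hvp hyb' hb'v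
      obtain ⟨y'', h1, h2, h3, h4⟩ := hCDN L U hW C m x z s hN c M hc hM hDM hun hGP b (hDM hbD)
        y hyM hbp hyp hby (fun j hj => ⟨hfar b hbp hub hbv j hj, hfar y hyp huy hyv j hj⟩)
      exact ⟨y'', ⟨h1, h2, h3, (F1 y'' h2 y hyp h4).le.trans hyb'⟩, h4⟩)
  have hfp : ∀ n, f n ∈ Orb L C (x 0) := fun n => (hfP n).2.1
  have hfM : ∀ n, f n ∈ M := fun n => (hfP n).1
  have hfu : ∀ n, Far L C u (f n) := fun n => Ftr u hup b (f n) hub (hfP n).2.2.1
  have hfv : ∀ n, Far L C (f n) v := fun n => F3 (f n) (hfp n) b' hb'p v hvp (hfP n).2.2.2 hb'v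
  have hfR' : ∀ j k, j < k → Far L C (f k) (f j) := by
    intro j k hjk
    induction k, hjk using Nat.le_induction with
    | base => exact hfR j
    | succ k hk ih => exact Ftr _ (hfp _) _ _ (hfR k) ih
  have hne : ∀ j k, j ≠ k → Far L C (f j) (f k) ∨ Far L C (f k) (f j) := by
    intro j k hjk
    rcases lt_or_gt_of_ne hjk with h | h
    · exact Or.inr (hfR' j k h)
    · exact Or.inl (hfR' k j h)
  -- the other coordinates
  have hR : ∀ n, ∃ ρ : U ≃[L] U, Fx L C ρ ∧ ρ (x 0) = f n ∧ ∀ j, ρ (x j) ∈ M := fun n =>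
    hCOR L U hW C m x z s hN c M hc hM hDM hun hGP (f n) (hfM n) (hfp n)
  choose R hRC hR0 hRM using hR
  -- finite data
  set I := hc.vd.Ifin.toFinset with hI
  set n₀ := 2 * m + 1 + I.card with hn₀
  set D' : Set U := c.D ∪ (f '' {j | j < n₀ + 4}) ∪
    ⋃ j ∈ {j : ℕ | j < n₀ + 4}, range (fun l => R j (x l)) with hD'
  have hD'f : D'.Finite := by
    refine ((hc.vd.fin.union ((Set.finite_lt_nat _).image f))).union ?_
    exact (Set.finite_lt_nat _).biUnion fun j _ => Set.finite_range _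
  have hcD' : c.D ⊆ D' := fun a ha => Or.inl (Or.inl ha)
  have hCD' : C ⊆ D' := hc.CD.trans hcD'
  have hfD' : ∀ j, j < n₀ + 4 → f j ∈ D' := fun j hj => Or.inl (Or.inr ⟨j, hj, rfl⟩)
  have hRD' : ∀ j, j < n₀ + 4 → ∀ l, R j (x l) ∈ D' := fun j hj l =>
    Or.inr (Set.mem_biUnion (x := j) hj ⟨l, rfl⟩)
  have hD'M : D' ⊆ M := by
    rintro a ((ha | ⟨j, hj, rfl⟩) | ha)
    · exact hDM ha
    · exact hfM j
    · obtain ⟨j, hj, ⟨l, rfl⟩⟩ := Set.mem_iUnion₂.1 ha
      exact hRM j l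
  have hold : ∀ j ∈ c.I, Orb L D' (c.w j) = Orb L c.D (c.w j) := fun j hj =>
    hun j hj D' hD'f hcD' hD'M
  have hgrD : ∀ j, j < n₀ + 4 → (gr L C x z s (R j)).1 ⊆ D' := fun j hj =>
    NEW_gr1 hCD' (hRC j) (hRD' j hj)
  have hWex : ∀ j, ∃ w, j < n₀ + 4 → w ∈ gs L (gr L C x z s (R j)) D' := by
    intro j
    by_cases hj : j < n₀ + 4
    · obtain ⟨w, hw⟩ := (hGEX L U hW _ D' _ s (hgrD j hj) hD'f).1
      exact ⟨w, fun _ => hw⟩
    · exact ⟨u, fun h => (hj h).elim⟩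
  choose W hWm using hWex
  -- equivalences of the new germs
  have hWe : ∀ j, j < n₀ + 4 → ∀ h : Gm U, h.1.Finite →
      (Eqg L ((D', W j, s) : Gm U) h ↔ Eqg L (gr L C x z s (R j)) h) := by
    intro j hj h hh
    exact (E4 (gr L C x z s (R j)) D' (W j) hD'f (hgrD j hj) (hWm j hj)).2 h hh
  have hgrf : ∀ ρ : U ≃[L] U, (gr L C x z s ρ).1.Finite := fun ρ => (K6 ρ).1
  -- the old gaps
  have hOe : ∀ j ∈ c.I, ∀ (t : Bool) (h : Gm U), h.1.Finite →
      (Eqg L ((D', c.w j, t) : Gm U) h ↔ Eqg L ((c.D, c.w j, t) : Gm U) h) := by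
    intro j hj t h hh
    exact E5 c.D D' (c.w j) t h hcD' hD'f hh (hold j hj)
  have hOs : ∀ j ∈ c.I, ∀ h : Gm U, h.1.Finite →
      (Eqg L ((c.D, c.w j, s) : Gm U) h ↔ Eqg L (gr L C x z s (c.r j)) h) := by
    intro j hj h hh
    exact (E4 (gr L C x z s (c.r j)) c.D (c.w j) hc.vd.fin
      (NEW_gr1 hc.CD (hc.fx j hj) (hc.rg j hj)) (hc.ge j hj)).2 h hh
  -- candidates
  set cand := Finset.Ico 2 (2 + n₀) with hcand
  have hcl : ∀ j ∈ cand, j < n₀ + 4 := by
    intro j hj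
    have := Finset.mem_Ico.1 hj
    omega
  set bad := cand.filter (fun j => ∃ k ∈ c.I,
    Eqg L (gr L C x z s (R j)) ((c.D, c.w k, !s) : Gm U)) with hbad
  have hbadc : bad.card ≤ I.card := by
    have hch : ∀ j, ∃ k, j ∈ bad → k ∈ c.I ∧
        Eqg L (gr L C x z s (R j)) ((c.D, c.w k, !s) : Gm U) := by
      intro j
      by_cases hj : j ∈ bad
      · obtain ⟨k, hk, hk'⟩ := (Finset.mem_filter.1 hj).2
        exact ⟨k, fun _ => ⟨hk, hk'⟩⟩
      · exact ⟨0, fun h => (hj h).elim⟩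
    choose κ hκ using hch
    refine Finset.card_le_card_of_injOn κ (fun j hj => ?_) ?_
    · rw [hI]
      exact (Set.Finite.mem_toFinset _).2 (hκ j hj).1
    · intro j hj j' hj' hjj'
      by_contra hne'
      have h1 := (hκ j hj).2
      have h2 := (hκ j' hj').2
      rw [← hjj'] at h2
      have h3 := E2 _ _ _ hc.vd.fin h1 (E1 _ _ h2)
      rcases hne j j' hne' with h | h
      · exact K2 (R j) (R j') (hRC j) (hRC j') (by rw [hR0, hR0]; exact h) h3
      · exact K2 (R j') (R j) (hRC j') (hRC j) (by rw [hR0, hR0]; exact h) (E1 _ _ h3)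
  set good := cand \ bad with hgood
  have hgc : 2 * m < good.card := by
    have h1 : cand.card - bad.card ≤ good.card := Finset.le_card_sdiff _ _
    have h2 : cand.card = n₀ := by rw [hcand, Nat.card_Ico]; omega
    omega
  have hgl : ∀ j ∈ good, j < n₀ + 4 := fun j hj => hcl j (Finset.mem_sdiff.1 hj).1
  -- (1)
  have hwo : ∀ j ∈ good, ∀ k ∈ c.I, ¬ Nn L D' (W j) (c.w k) := by
    intro j hj k hk hnn
    obtain ⟨e, he⟩ := hSMG L U hW D' (W j) (c.w k) hD'f hnn
    have h1 := (he s).1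
    have h2 : Eqg L (gr L C x z s (R j)) ((D', c.w k, sg e s) : Gm U) :=
      (hWe j (hgl j hj) _ hD'f).1 h1
    have h3 : Eqg L ((c.D, c.w k, sg e s) : Gm U) (gr L C x z s (R j)) :=
      (hOe k hk _ _ (hgrf _)).1 (E1 _ _ h2)
    by_cases hes : sg e s = s
    · rw [hes] at h3
      have h4 := (hOs k hk _ (hgrf _)).1 h3
      rcases hfar (f j) (hfp j) (hfu j) (hfv j) k hk with h | h
      · exact K2 (R j) (c.r k) (hRC j) (hc.fx k hk) (by rw [hR0]; exact h) (E1 _ _ h4)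
      · exact K2 (c.r k) (R j) (hc.fx k hk) (hRC j) (by rw [hR0]; exact h) h4
    · have hes' : sg e s = !s := NEW_sg e s hes
      rw [hes'] at h3
      refine (Finset.mem_sdiff.1 hj).2 (Finset.mem_filter.2 ⟨(Finset.mem_sdiff.1 hj).1, k, hk, ?_⟩)
      exact E1 _ _ h3
  -- (2)
  have hbsf : ∀ t : Fin m, (bs C x t).Finite := fun t =>
    hN.fin.union ((Set.toFinite _).image _)
  have hex : ∃ j ∈ good, ∀ (t : Fin m) (τ : Bool), ¬ SD L (bs C x t) (x t.succ) τ →
      ¬ Eqg L ((bs C x t, x t.succ, τ) : Gm U) ((D', W j, !s) : Gm U) := by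
    by_contra hcon
    push Not at hcon
    have hch : ∀ j, ∃ a : Fin m × Bool, j ∈ good → ¬ SD L (bs C x a.1) (x a.1.succ) a.2 ∧
        Eqg L ((bs C x a.1, x a.1.succ, a.2) : Gm U) ((D', W j, !s) : Gm U) := by
      intro j
      by_cases hj : j ∈ good
      · obtain ⟨t, τ, h1, h2⟩ := hcon j hj
        exact ⟨(t, τ), fun _ => ⟨h1, h2⟩⟩
      · by_cases hm : m = 0
        · exfalso
          subst hm
          have : 0 < good.card := by omega
          obtain ⟨j₀, hj₀⟩ := Finset.card_pos.1 this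
          obtain ⟨t, _⟩ := hcon j₀ hj₀
          exact t.elim0
        · exact ⟨(⟨0, Nat.pos_of_ne_zero hm⟩, true), fun h => (hj h).elim⟩
    choose κ hκ using hch
    have hcard : (Finset.univ : Finset (Fin m × Bool)).card < good.card := by
      rw [Finset.card_univ, Fintype.card_prod, Fintype.card_fin, Fintype.card_bool]
      omega
    obtain ⟨j, hj, j', hj', hjj', hkk⟩ := Finset.exists_ne_map_eq_of_card_lt_of_maps_to hcard
      (f := κ) (fun j _ => Finset.mem_univ _)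
    obtain ⟨h1, h2⟩ := hκ j hj
    obtain ⟨h1', h2'⟩ := hκ j' hj'
    rw [← hkk] at h2'
    have h3 : Eqg L ((D', W j, !s) : Gm U) ((D', W j', !s) : Gm U) :=
      E2 _ _ _ (hbsf _) (E1 _ _ h2) h2'
    have h4 : Nn L D' (W j) (W j') := by
      refine h3 D' hD'f (le_refl _) (le_refl _) (W j) ?_ (W j') ?_
      · show W j ∈ Ge L D' (W j) (!s) D'
        rw [G6]
        exact O1 _ _
      · show W j' ∈ Ge L D' (W j') (!s) D'
        rw [G6]
        exact O1 _ _
    obtain ⟨e, he⟩ := hSMG L U hW D' (W j) (W j') hD'f h4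
    have h5 := (he s).1
    have h6 : Eqg L (gr L C x z s (R j)) ((D', W j', sg e s) : Gm U) :=
      (hWe j (hgl j hj) _ hD'f).1 h5
    by_cases hes : sg e s = s
    · rw [hes] at h6
      have h7 := (hWe j' (hgl j' hj') _ (hgrf _)).1 (E1 _ _ h6)
      rcases hne j j' hjj' with h | h
      · exact K2 (R j) (R j') (hRC j) (hRC j') (by rw [hR0, hR0]; exact h) (E1 _ _ h7)
      · exact K2 (R j') (R j) (hRC j') (hRC j) (by rw [hR0, hR0]; exact h) h7
    · have hes' : sg e s = !s := NEW_sg e s hes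
      rw [hes'] at h6
      have h7 : Eqg L (gr L C x z s (R j))
          ((bs C x (κ j).1, x (κ j).1.succ, (κ j).2) : Gm U) :=
        E2 _ _ _ hD'f h6 (E1 _ _ h2')
      exact K4 _ (hbsf _) (fun σ hσ => hGAM L U hW C m x z s hN _ _ h1 σ hσ) (R j) (hRC j) h7
  obtain ⟨j, hj, hjbf⟩ := hex
  have hjc := Finset.mem_Ico.1 (Finset.mem_sdiff.1 hj).1
  have hjn : j < n₀ + 4 := hgl j hj
  -- the new configuration
  let w' : ℕ → U := Function.update c.w i (W j)
  let r' : ℕ → (U ≃[L] U) := Function.update c.r i (R j)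
  let c' : Cfg L U := { D := D', I := insert i c.I, w := w', r := r' }
  have hwi : c'.w i = W j := Function.update_self _ _ _
  have hri' : c'.r i = R j := Function.update_self _ _ _
  have hki : ∀ k ∈ c.I, k ≠ i := by
    rintro k hk rfl
    exact hi hk
  have hwk : ∀ k ∈ c.I, c'.w k = c.w k := fun k hk => Function.update_of_ne (hki k hk) _ _
  have hrk : ∀ k ∈ c.I, c'.r k = c.r k := fun k hk => Function.update_of_ne (hki k hk) _ _
  have hnisoW : ¬ Isd L D' (W j) := by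
    intro h
    have h1 := ((S1 D' (W j) hD'f).1 h)
    have h2 : SD L D' (W j) s := by
      cases s
      · exact h1.2
      · exact h1.1
    exact (K6 (R j)).2 ((S2 _ D' _ (W j) s (hgrD j hjn) hD'f (hWm j hjn)).1 h2)
  have hniso : ∀ k ∈ c.I, ¬ Isd L D' (c.w k) := by
    intro k hk h
    exact hc.vd.niso k hk (((S3 c.D D' (c.w k) hcD' hD'f (hold k hk)).1).1 h)
  have hVd : Vd L c' := by
    refine ⟨hD'f, hc.vd.Ifin.insert i, ?_, ?_⟩
    · rintro k (rfl | hk)
      · rw [hwi]; exact hnisoW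
      · rw [hwk k hk]; exact hniso k hk
    · rintro k (rfl | hk) l (rfl | hl) hkl
      · exact (hkl rfl).elim
      · rw [hwi, hwk l hl]
        exact hwo j hj l hl
      · rw [hwi, hwk k hk]
        exact fun h => hwo j hj k hk (N1 _ _ _ h)
      · rw [hwk k hk, hwk l hl]
        exact N6' c.D D' _ _ hcD' hD'f (hc.vd.wo k hk l hl hkl)
  have hLe : Le L c c' := ⟨hcD', Set.subset_insert _ _, hwk, hrk, hold⟩
  have hps : ps L x c' i = f j := by
    show c'.r i (x 0) = f j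
    rw [hri', hR0]
  have hpsk : ∀ k ∈ c.I, ps L x c' k = ps L x c k := by
    intro k hk
    show c'.r k (x 0) = c.r k (x 0)
    rw [hrk k hk]
  have hVc : Vc L C x z s c' := by
    refine ⟨hVd, hCD', ?_, ?_, ?_, ?_⟩
    · rintro k (rfl | hk)
      · rw [hri']; exact hRC j
      · rw [hrk k hk]; exact hc.fx k hk
    · rintro k (rfl | hk) l
      · rw [hri']; exact hRD' j hjn l
      · rw [hrk k hk]; exact hcD' (hc.rg k hk l)
    · rintro k (rfl | hk)
      · rw [hwi, hri']; exact hWm j hjn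
      · rw [hwk k hk, hrk k hk]
        have h1 := hc.ge k hk
        have hsub : (gr L C x z s (c.r k)).1 ⊆ c.D := NEW_gr1 hc.CD (hc.fx k hk) (hc.rg k hk)
        show c.w k ∈ Ge L (gr L C x z s (c.r k)).1 (gr L C x z s (c.r k)).2.1
          (gr L C x z s (c.r k)).2.2 D'
        have h2 := G1 _ c.D D' _ (c.w k) _ hsub hcD' hD'f h1
        rw [← h2]
        refine ⟨O1 _ _, ?_⟩
        rw [hold k hk]
        intro a ha
        exact ⟨a, ha, by cases (gr L C x z s (c.r k)).2.2 <;> simp [leS]⟩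
    · rintro k (rfl | hk) t τ hsd
      · rw [hwi]; exact hjbf t τ hsd
      · rw [hwk k hk]
        intro h
        exact hc.bf k hk t τ hsd (E1 _ _ ((hOe k hk _ _ (hbsf t)).1 (E1 _ _ h)))
  have hnolt : ∀ a ∈ Orb L C (x 0), ¬ Far L C a a := fun a ha h => lt_irrefl _ (F1 a ha a ha h)
  refine ⟨c', hVc, hLe, rfl, ?_, ?_⟩
  · refine ⟨⟨hcD' hri.hu.1, hup⟩, ⟨?_, ?_⟩, ?_, ?_⟩
    · rw [hps]; exact hfD' j hjn
    · rw [hps]; exact hfp j
    · rintro k (rfl | hk) h1 h2
      · rw [hps] at h2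
        exact hnolt _ (hfp j) h2
      · rw [hpsk k hk] at h1 h2
        rw [hps] at h2
        exact hri.no k hk h1 (Ftr _ (hfo _ (hc.fx k hk)) _ _ h2 (hfv j))
    · rw [hps]
      refine ⟨f (j + 2), hfD' _ (by omega), f (j + 1), hfD' _ (by omega), hfu _,
        hfR' _ _ (by omega), hfR' _ _ (by omega)⟩
  · refine ⟨⟨?_, ?_⟩, ⟨hcD' hri.hv.1, hvp⟩, ?_, ?_⟩
    · rw [hps]; exact hfD' j hjn
    · rw [hps]; exact hfp j
    · rintro k (rfl | hk) h1 h2
      · rw [hps] at h1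
        exact hnolt _ (hfp j) h1
      · rw [hpsk k hk] at h1 h2
        rw [hps] at h1
        exact hri.no k hk (Ftr u hup _ _ (hfu j) h1) h2
    · rw [hps]
      refine ⟨f 1, hfD' _ (by omega), f 0, hfD' _ (by omega), hfR' _ _ (by omega),
        hfR' _ _ (by omega), hfv _⟩

end Pool.Agent.WOM
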