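import Pool.Agent.WOM.StC

/-! WOM: module SCC (helper93): constant codes. -/

set_option autoImplicit false
set_option linter.unusedVariables false

namespace Pool.Agent.WOM

open FirstOrder.Language Set
open scoped FirstOrder

theorem thm_SCC (hNSB : St_NSB) (hSDI : St_SDI) (hEQG : St_EQG) (hCLI : St_CLI) (hINF : St_INF)
    (hMSX : St_MSX) (hLV0 : St_LV0) (hLV1 : St_LV1) : St_SCC := by
  classical
  intro L _ U S _ hW hSc hall M hM
  by_contra hF
  obtain ⟨n1, -⟩ := hNSB L U
  obtain ⟨d1, -⟩ := hSDI L U hW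
  obtain ⟨e1, -⟩ := hEQG L U hW
  obtain ⟨B, v, hB, hmono, hnn⟩ := hINF L U hW M hM hF
  have hs : ∀ n, ∃ t : Bool, ¬ SD L (B n) (v n) t := by
    intro n
    by_contra hcon
    push Not at hcon
    exact (hB n).2.2.2 ((d1 (B n) (v n) (hB n).1).2 ⟨hcon true, hcon false⟩)
  choose s hs using hs
  have hX := hMSX L U hW B v s (fun n => (hB n).1) hmono hs
    (fun i n hin => (hB i).2.2.1 (B n) (hB n).1 (hmono hin) (hB n).2.1)
    (fun i n hin h => hnn i n hin (n1 _ _ _ h))
  choose X hXel hXB hXC using hX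
  -- decoding
  have key : ∀ f g : ℕ → Bool,
      Pool.Agent.Helper79.VC.BFR S S (X {n | f n = true}) (X {n | g n = true})
        (Ordinal.omega0 + Ordinal.omega0 + Ordinal.omega0)
        (HERN.prs (fun i : Fin 0 => (i.elim0 : U)) (fun i : Fin 0 => (i.elim0 : U))) →
      ∀ i, f i = true → g i = true := by
    intro f g hfg i hfi
    have hclo : Clo L ((B i, v i, s i) : Gm U) (X {n | f n = true}) :=
      (hXC {n | f n = true} i).2 hfi
    obtain ⟨l, b, hb⟩ : ∃ (l : ℕ) (b : Fin l → U), range b = B i := by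
      have := (hB i).1.to_subtype
      obtain ⟨l, ⟨e⟩⟩ := Finite.exists_equiv_fin (B i)
      refine ⟨l, fun j => (e.symm j : U), ?_⟩
      ext x
      constructor
      · rintro ⟨j, rfl⟩
        exact (e.symm j).2
      · intro hx
        exact ⟨e ⟨x, hx⟩, congrArg Subtype.val (e.symm_apply_apply ⟨x, hx⟩)⟩
    have hbB : ∀ j, b j ∈ B i := fun j => hb ▸ mem_range_self j
    have hlev : (Ordinal.omega0 + Ordinal.omega0) + (l : Ordinal.{0}) ≤
        Ordinal.omega0 + Ordinal.omega0 + Ordinal.omega0 :=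
      add_le_add_right (Ordinal.natCast_lt_omega0 _).le _
    obtain ⟨y, hy, hB1⟩ := Pool.Agent.Helper79.VC.BFR.forth_many l (hfg.mono hlev) b
      (fun j => hXB _ i (hbB j))
    have hΓ : (HERN.prs (fun i : Fin 0 => (i.elim0 : U)) (fun i : Fin 0 => (i.elim0 : U)) ∪
        range fun j => (b j, y j)).Finite := (finite_range _).union (finite_range _)
    have hΓM : ∀ p ∈ HERN.prs (fun i : Fin 0 => (i.elim0 : U)) (fun i : Fin 0 => (i.elim0 : U)) ∪
        range (fun j => (b j, y j)), p.1 ∈ X {n | f n = true} ∧ p.2 ∈ X {n | g n = true} := by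
      rintro p (⟨j, -⟩ | ⟨j, rfl⟩)
      · exact j.elim0
      · exact ⟨hXB _ i (hbB j), hy j⟩
    obtain ⟨σ, hσ⟩ := hLV0 L U hW.mon _ _ _ _ (hXel _) (hXel _) hΓ hΓM le_self_add hB1
    have hσb : ∀ j, σ (b j) = y j := fun j => hσ _ (Or.inr ⟨j, rfl⟩)
    have hclo' : Clo L (mg L σ ((B i, v i, s i) : Gm U)) (X {n | g n = true}) := by
      refine hLV1 L U hW _ _ _ _ (hXel _) (hXel _) hΓ hΓM le_rfl hB1 σ _ hσ ?_ hclo
      intro a ha
      have ha' : a ∈ range b := by
        rw [hb]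
        exact ha
      obtain ⟨j, rfl⟩ := ha'
      exact ⟨(b j, y j), Or.inr ⟨j, rfl⟩, rfl⟩
    have hEq : Eqg L ((B i, v i, s i) : Gm U) (mg L σ ((B i, v i, s i) : Gm U)) := by
      have h0 : (∅ : Set U) ∪ range b = B i := by
        rw [empty_union, hb]
      have h1 := hall l ∅ b (v i) (s i) finite_empty (by rw [h0]; exact hs i) σ
        (fun a ha => ha.elim)
      rw [h0] at h1
      exact h1
    have hfin : Clo L ((B i, v i, s i) : Gm U) (X {n | g n = true}) := by
      refine hCLI L U hW (X {n | g n = true}) (mg L σ ((B i, v i, s i) : Gm U)) _ (hXel _) ?_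
        (hXB _ i) (hB i).1 (e1 _ _ hEq) hclo'
      rintro _ ⟨a, ha, rfl⟩
      have ha' : a ∈ range b := by
        rw [hb]
        exact ha
      obtain ⟨j, rfl⟩ := ha'
      rw [hσb j]
      exact hy j
    exact (hXC {n | g n = true} i).1 hfin
  obtain ⟨f, g, hne, hfg⟩ := hSc (fun f => X {n | f n = true}) 0 (fun i => i.elim0)
    (Ordinal.omega0 + Ordinal.omega0 + Ordinal.omega0)
    (Pool.Agent.Helper79.VC.add_lt_om1 (Pool.Agent.Helper79.VC.add_lt_om1
      Pool.Agent.Helper79.VC.omega_lt_om1 Pool.Agent.Helper79.VC.omega_lt_om1)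
      Pool.Agent.Helper79.VC.omega_lt_om1)
    (fun f => ⟨hXel _, fun i => i.elim0⟩)
  refine hne (funext fun i => ?_)
  have h1 := key f g hfg i
  have h2 := key g f (hfg.symm (by
    rintro _ ⟨j, -⟩
    exact j.elim0)) i
  cases hf : f i <;> cases hg : g i
  · rfl
  · exact absurd (h2 hg) (by rw [hf]; decide)
  · exact absurd (h1 hf) (by rw [hg]; decide)
  · rfl

end Pool.Agent.WOM
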