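import Pool.Agent.WOM.StD
import Pool.Agent.WOM.TRP

/-!
WOM, module SCU: scattered theories have no decoded families of elementary submodels (helper2).
-/

set_option autoImplicit false

namespace Pool.Agent.WOM

open FirstOrder.Language Set
open scoped FirstOrder

/-- elementary submodels of an infinite structure are infinite -/
theorem SCU_inf (L : FirstOrder.Language.{0, 0}) (U : Type) [L.Structure U] (hU : Infinite U)
    (M : Set U) (hM : IsEl L M) : M.Infinite := by
  intro hf
  have h1 : M.Definable₁ L M := by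
    have h3 : {x : Fin 1 → U | x 0 ∈ M} =
        ⋃ a ∈ hf.toFinset, {x : Fin 1 → U | a ∈ M ∧ x 0 = a} := by
      ext x
      simp only [mem_iUnion, Finite.mem_toFinset, mem_ofPred_eq]
      constructor
      · intro h
        exact ⟨x 0, h, h, rfl⟩
      · rintro ⟨a, _, ha, hx⟩
        rw [hx]
        exact ha
    have h4 : M.Definable L (⋃ a ∈ hf.toFinset, {x : Fin 1 → U | a ∈ M ∧ x 0 = a}) := by
      refine definable_biUnion_finset (fun a => ?_) _
      by_cases ha : a ∈ M
      · have h5 := Definable.singleton_of_mem L ha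
        have h6 : {x : Fin 1 → U | a ∈ M ∧ x 0 = a} = {x : Fin 1 → U | x 0 ∈ ({a} : Set U)} := by
          ext x
          simp [ha]
        rw [h6]
        exact h5
      · have h6 : {x : Fin 1 → U | a ∈ M ∧ x 0 = a} = ∅ := by
          ext x
          simp [ha]
        rw [h6]
        exact definable_empty
    rw [← h3] at h4
    exact h4
  have h2 : M.Definable₁ L Mᶜ := h1.compl
  have h3 : (Mᶜ).Nonempty := by
    by_contra h
    rw [not_nonempty_iff_eq_empty, compl_empty_iff] at h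
    rw [h] at hf
    exact infinite_univ hf
  obtain ⟨x, hx, hx'⟩ := hM _ h2 h3
  exact hx hx'

theorem thm_SCU (hP : St_PULL) : St_SCU := by
  intro L _ T U S hS hM hT X n d γ hγ hX
  by_contra hne
  have hne' : ∀ f g, f ≠ g → ¬ Pool.Agent.Helper79.VC.BFR S S (X f) (X g) γ (HERN.prs d d) := by
    intro f g hfg h
    exact hne ⟨f, g, hfg, h⟩
  have hu : ∀ f, ∃ u : ℕ → U, Function.Injective u ∧ range u = X f := by
    intro f
    have h1 : (X f).Infinite := SCU_inf L U hM.inf _ (hX f).1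
    have h2 : Countable U := hM.ctb
    have h3 : Infinite (X f) := h1.to_subtype
    obtain ⟨e⟩ : Nonempty (ℕ ≃ X f) := by
      obtain ⟨hd⟩ := nonempty_denumerable (X f)
      exact ⟨(Denumerable.eqv (X f)).symm⟩
    refine ⟨fun k => (e k : U), fun a b hab => e.injective (Subtype.ext hab), ?_⟩
    ext y
    constructor
    · rintro ⟨k, rfl⟩
      exact (e k).2
    · intro hy
      exact ⟨e.symm ⟨y, hy⟩, by simp⟩
  choose u hu1 hu2 using hu
  have hpull : ∀ f, ∃ S' : L.Structure ℕ, ∀ (n : ℕ) (a : Fin n → ℕ),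
      @tp L ℕ S' n a = tp (L := L) (u f ∘ a) := by
    intro f
    refine hP L U (u f) (hu1 f) ?_
    rw [hu2]
    exact (hX f).1
  choose S' hS' using hpull
  have hK : ∀ f, S' f ∈ ModK L T := by
    intro f
    show @FirstOrder.Language.Theory.Model L ℕ (S' f) T
    refine @FirstOrder.Language.Theory.Model.mk L ℕ (S' f) T ?_
    intro φ hφ
    rw [TRP_sent (S' f) (u f) (hS' f) φ]
    exact hT.realize_of_mem φ hφ
  have hv : ∀ f, ∃ v : Fin n → ℕ, ∀ i, u f (v i) = d i := by
    intro f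
    have h1 : ∀ i, ∃ k, u f k = d i := by
      intro i
      have h2 := (hX f).2 i
      rw [← hu2 f] at h2
      exact h2
    choose v hv using h1
    exact ⟨v, hv⟩
  choose v hv using hv
  obtain ⟨ρ, hρ⟩ := hS γ hγ n
  have hm : ∀ f, ∃ m, Pool.Agent.Helper79.VC.BFR (S' f) (ρ m).1 univ univ γ
      (Pool.Agent.Helper5.DU.pr (v f) (ρ m).2) := by
    intro f
    obtain ⟨m, _, h⟩ := hρ (S' f) (hK f) (v f)
    exact ⟨m, h⟩
  choose m hm using hm
  obtain ⟨f, g, hfg, hmfg⟩ : ∃ f g : ℕ → Bool, f ≠ g ∧ m f = m g := by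
    by_contra h
    have hinj : Function.Injective m := by
      intro a b hab
      by_contra hne
      exact h ⟨a, b, hne, hab⟩
    have h1 : Countable (ℕ → Bool) := hinj.countable
    have h2 : ¬ Countable (ℕ → Bool) := by
      intro h3
      obtain ⟨e, he⟩ := exists_surjective_nat (ℕ → Bool)
      obtain ⟨k, hk⟩ := he fun n => !(e n n)
      have h4 := congrFun hk k
      simp at h4
    exact h2 h1
  refine hne' f g hfg ?_
  have hr : ∀ f, Pool.Agent.Helper79.VC.BFR (S' f) S univ (X f) γ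
      (Pool.Agent.Helper5.DU.pr (v f) d) := by
    intro f
    refine Pool.Agent.Helper79.VC.BFR.of_map (u f) (hu1 f).injOn ?_ ?_ γ ?_
    · rw [image_univ, hu2]
    · intro k R w _
      have h1 := TRP_mem (S' f) (u f) (hS' f) k
        (FirstOrder.Language.Relations.formula R fun i => FirstOrder.Language.Term.var i) w
      rw [@FirstOrder.Language.Formula.realize_rel L ℕ (S' f), FirstOrder.Language.Formula.realize_rel] at h1
      exact h1
    · rintro _ ⟨i, rfl⟩
      exact ⟨mem_univ _, (hv f i).symm⟩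
  have h1 : Pool.Agent.Helper79.VC.BFR (S' f) (S' g) univ univ γ
      (Pool.Agent.Helper5.DU.pr (v f) (v g)) := by
    have h2 := hm g
    rw [← hmfg] at h2
    refine (hm f).trans (h2.symm (q := Pool.Agent.Helper5.DU.pr (ρ (m f)).2 (v g)) ?_) ?_
    · rintro _ ⟨i, rfl⟩
      exact ⟨i, rfl⟩
    · rintro _ ⟨i, rfl⟩
      exact ⟨(ρ (m f)).2 i, ⟨i, rfl⟩, ⟨i, rfl⟩⟩
  have h2 : Pool.Agent.Helper79.VC.BFR (S' f) S univ (X g) γ
      (Pool.Agent.Helper5.DU.pr (v f) d) := by
    refine h1.trans (hr g) ?_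
    rintro _ ⟨i, rfl⟩
    exact ⟨v g i, ⟨i, rfl⟩, ⟨i, rfl⟩⟩
  refine ((hr f).symm (q := Pool.Agent.Helper5.DU.pr d (v f)) ?_).trans h2 ?_
  · rintro _ ⟨i, rfl⟩
    exact ⟨i, rfl⟩
  · rintro _ ⟨i, rfl⟩
    exact ⟨v f i, ⟨i, rfl⟩, ⟨i, rfl⟩⟩

end Pool.Agent.WOM
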