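import Pool.Agent.WOM.StC

/-!
WOM [SDI]: definability of sides (helper29).
-/

set_option autoImplicit false
set_option linter.unusedVariables false

namespace Pool.Agent.WOM

open FirstOrder.Language Set
open scoped FirstOrder

section

variable {L : FirstOrder.Language.{0, 0}} {U : Type} [L.Structure U] [LinearOrder U]

private theorem SDI_leS_refl (t : Bool) (x : U) : leS t x x := by
  unfold leS; split <;> exact le_refl _

private theorem SDI_leS_trans {t : Bool} {x y z : U} (h1 : leS t x y) (h2 : leS t y z) :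
    leS t x z := by
  unfold leS at *
  split at h1
  · rename_i h
    rw [if_pos h] at h2 ⊢
    exact le_trans h1 h2
  · rename_i h
    rw [if_neg h] at h2 ⊢
    exact le_trans h2 h1

private theorem SDI_leS_map (σ : U ≃[L] U) (hσ : ∀ x y : U, x < y ↔ σ x < σ y) (t : Bool) (x y : U) :
    leS t (σ x) (σ y) ↔ leS t x y := by
  unfold leS
  split
  · rw [← not_lt, ← not_lt, hσ y x]
  · rw [← not_lt, ← not_lt, hσ x y]

/-- `Cls` of the image -/
private theorem SDI_Cls_image (σ : U ≃[L] U) (hσ : ∀ x y : U, x < y ↔ σ x < σ y) (t : Bool)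
    (X : Set U) : Cls t (σ '' X) = σ '' Cls t X := by
  ext u
  constructor
  · rintro ⟨v, ⟨w, hw, rfl⟩, huv⟩
    refine ⟨σ.symm u, ⟨w, hw, ?_⟩, σ.apply_symm_apply u⟩
    rw [← SDI_leS_map σ hσ, σ.apply_symm_apply]
    exact huv
  · rintro ⟨w, ⟨v, hv, hwv⟩, rfl⟩
    exact ⟨σ v, ⟨v, hv, rfl⟩, (SDI_leS_map σ hσ t w v).2 hwv⟩

end

/-- [SDI] -/
theorem thm_SDI (hDFN : St_DFN) (hORB : St_ORB) (hCNV : St_CNV) : St_SDI := by
  intro L U _ _ hW
  obtain ⟨o1, o2, o3, o4, o5, o6, o7, o8, o9⟩ := hORB L U hW.mon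
  obtain ⟨c1, c2⟩ := hCNV L U hW
  have d3 : ∀ (A : Set U) (X : Set U) (t : Bool), A.Definable₁ L X → A.Definable₁ L (Cls t X) :=
    fun A => (hDFN L U hW.ord A).2.2.1
  -- the closures of the orbits are invariant
  have inv : ∀ (A : Set U) (x : U) (t : Bool), ∀ y ∈ Cls t (Orb L A x), Orb L A y ⊆ Cls t (Orb L A x) := by
    rintro A x t y ⟨v, hv, hyv⟩ y' ⟨g, hg, rfl⟩
    refine ⟨g v, ?_, (SDI_leS_map g (c1 g) t y v).2 hyv⟩
    rw [← o2 A x v hv]
    exact ⟨g, hg, rfl⟩
  have invO : ∀ (A : Set U) (x : U), ∀ y ∈ Orb L A x, Orb L A y ⊆ Orb L A x := by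
    intro A x y hy
    rw [o2 A x y hy]
  have sdσ : ∀ (σ : U ≃[L] U) (A : Set U) (x : U) (t : Bool),
      SD L A x t → SD L (σ '' A) (σ x) t := by
    intro σ A x t h
    unfold SD at h ⊢
    rw [o4, SDI_Cls_image σ (c1 σ)]
    exact o9 σ _ _ h
  have isσ : ∀ (σ : U ≃[L] U) (A : Set U) (x : U), Isd L A x → Isd L (σ '' A) (σ x) := by
    intro σ A x h
    unfold Isd at h ⊢
    rw [o4]
    exact o9 σ _ _ h
  have bk : ∀ (σ : U ≃[L] U) (A : Set U), σ.symm '' (σ '' A) = A := by
    intro σ A
    rw [image_image]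
    simp
  refine ⟨?_, ?_, ?_, ?_, ?_⟩
  · -- 1
    intro A x hA
    constructor
    · intro h
      exact ⟨d3 A _ true h, d3 A _ false h⟩
    · rintro ⟨h1, h2⟩
      have hE : Orb L A x = Cls true (Orb L A x) ∩ Cls false (Orb L A x) := by
        apply Subset.antisymm
        · intro y hy
          exact ⟨⟨y, hy, SDI_leS_refl _ _⟩, ⟨y, hy, SDI_leS_refl _ _⟩⟩
        · rintro y ⟨⟨v, hv, hyv⟩, ⟨w, hw, hyw⟩⟩
          have e1 : y ≤ v := by simpa [leS] using hyv
          have e2 : w ≤ y := by simpa [leS] using hyw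
          exact (c2 A x hA).1.out hw hv ⟨e2, e1⟩
      unfold Isd
      rw [hE]
      exact h1.inter h2
  · -- 2
    intro A B x u t hAB hB hu
    have hE : Cls t (Orb L B u) = Cls t (Orb L A x) := by
      apply Subset.antisymm
      · rintro w ⟨v, hv, hwv⟩
        refine ⟨v, ?_, hwv⟩
        have := o3 A B u hAB hv
        rwa [o2 A x u hu.1] at this
      · rintro w ⟨v, hv, hwv⟩
        obtain ⟨v', hv', hvv'⟩ := hu.2 v hv
        exact ⟨v', hv', SDI_leS_trans hwv hvv'⟩
    unfold SD
    rw [hE]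
    constructor
    · intro h
      exact o8 A B _ (hB.subset hAB) hB h (inv A x t)
    · intro h
      exact Set.Definable.mono h hAB
  · -- 3
    intro A B x hAB hB hE
    have hA := hB.subset hAB
    refine ⟨?_, ?_⟩
    · unfold Isd
      rw [hE]
      exact ⟨fun h => o8 A B _ hA hB h (invO A x), fun h => Set.Definable.mono h hAB⟩
    · intro t
      unfold SD
      rw [hE]
      exact ⟨fun h => o8 A B _ hA hB h (inv A x t), fun h => Set.Definable.mono h hAB⟩
  · -- 4
    intro σ A x
    refine ⟨⟨fun h => ?_, isσ σ A x⟩, fun t => ⟨fun h => ?_, sdσ σ A x t⟩⟩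
    · have := isσ σ.symm _ _ h
      rwa [bk, σ.symm_apply_apply] at this
    · have := sdσ σ.symm _ _ t h
      rwa [bk, σ.symm_apply_apply] at this
  · -- 5
    intro A x t hA h hE
    apply h
    unfold SD
    apply d3
    have h1 : ({x} : Set U).Definable₁ L ({x} : Set U) := by
      have h0 := (hDFN L U hW.ord ({x} : Set U)).2.2.2 x
      have hx : ({x} : Set U) = {u | leS true x u} ∩ {u | leS false x u} := by
        ext u
        simp only [mem_singleton_iff, mem_inter_iff, mem_ofPred_eq]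
        constructor
        · rintro rfl
          exact ⟨SDI_leS_refl _ _, SDI_leS_refl _ _⟩
        · rintro ⟨e1, e2⟩
          have e1 : x ≤ u := by simpa [leS] using e1
          have e2 : u ≤ x := by simpa [leS] using e2
          exact le_antisymm e2 e1
      have h2 : ({x} : Set U).Definable₁ L ({u | leS true x u} ∩ {u | leS false x u}) :=
        (h0 true).inter (h0 false)
      rw [← hx] at h2
      exact h2
    rw [hE]
    refine o8 A {x} {x} hA (finite_singleton x) h1 ?_
    rintro y hy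
    rw [mem_singleton_iff] at hy
    subst hy
    rw [hE]

end Pool.Agent.WOM
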