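import Pool.Agent.WOM.StC

/-!
WOM, module SMA: the matching theorem (helper49).
-/

set_option autoImplicit false
set_option linter.unusedVariables false
set_option linter.unusedSectionVars false

namespace Pool.Agent.WOM

open FirstOrder.Language Set
open scoped FirstOrder

section SMA

variable {L : FirstOrder.Language.{0, 0}} {U : Type} [L.Structure U] [LinearOrder U]

theorem SMA_image {A : Set U} {σ : U ≃[L] U} (h : Fx L A σ) : σ '' A = A := by
  ext y
  constructor
  · rintro ⟨a, ha, rfl⟩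
    rw [h a ha]
    exact ha
  · intro hy
    exact ⟨y, hy, h y hy⟩

theorem SMA_comp {A : Set U} {σ τ : U ≃[L] U} (hσ : Fx L A σ) (hτ : Fx L A τ) :
    Fx L A (τ.comp σ) := by
  intro a ha
  rw [FirstOrder.Language.Equiv.comp_apply, hσ a ha, hτ a ha]

theorem SMA_mono {A B : Set U} (h : A ⊆ B) {σ : U ≃[L] U} (hσ : Fx L B σ) : Fx L A σ :=
  fun a ha => hσ a (h ha)

theorem SMA_ins {A B : Set U} (h : A ⊆ B) (y : U) : insert y A ⊆ insert y B :=
  Set.insert_subset_insert h

/-- the two orbits at the ends are disjoint -/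
theorem SMA_disj (hW : Wm L U) (hORB : St_ORB) (hNSB : St_NSB) (hGER : St_GER)
    {A : Set U} {x z x' u : U} (hA : A.Finite) (h : Nn L A x z) (hx' : x' ∈ Orb L A x) (c : Bool)
    (h1 : u ∈ Ge L A z c (insert x' A)) (h2 : u ∈ Ge L A z (!c) (insert x' A)) : False := by
  have o1 := (hORB L U hW.mon).1
  have n2 := (hNSB L U).2.1
  have g8 := (hGER L U hW).2.2.2.2.2.2.2
  have hN : Nn L A x' z := n2 A x z x' z hx' (o1 A z) h
  have hsub : A ⊆ insert x' A := Set.subset_insert _ _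
  cases c with
  | true => exact hN (g8 A (insert x' A) z u hsub (hA.insert x') h1 h2)
  | false => exact hN (g8 A (insert x' A) z u hsub (hA.insert x') h2 h1)

/-- conjugation of the orbits at the ends -/
theorem SMA_conj (hW : Wm L U) (hGER : St_GER) {A : Set U} {σ : U ≃[L] U} (hσ : Fx L A σ)
    (z y : U) (c : Bool) :
    Ge L A z c (insert (σ y) A) = σ '' Ge L A z c (insert y A) := by
  have g4 := (hGER L U hW).2.2.2.1
  have g5 := (hGER L U hW).2.2.2.2.1
  have h1 := g5 σ A (insert y A) z c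
  rw [SMA_image hσ, Set.image_insert_eq, SMA_image hσ] at h1
  rw [← h1]
  exact (g4 A (insert (σ y) A) z (σ z) c ⟨σ, hσ, rfl⟩).symm

theorem SMA_cmp (hW : Wm L U) (hGER : St_GER) {A : Set U} (hA : A.Finite) (z x1 x2 : U)
    (c : Bool) : Ge L A z c (insert x1 A) ⊆ Ge L A z c (insert x2 A) ∨
      Ge L A z c (insert x2 A) ⊆ Ge L A z c (insert x1 A) := by
  have g7 := (hGER L U hW).2.2.2.2.2.2.1
  by_contra hcon
  rw [not_or, Set.not_subset, Set.not_subset] at hcon
  obtain ⟨⟨u, hu1, hu2⟩, ⟨v, hv1, hv2⟩⟩ := hcon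
  have htot : leS c u v ∨ leS c v u := by
    unfold leS
    cases c with
    | true => simpa using le_total u v
    | false => simpa using le_total v u
  rcases htot with h | h
  · exact hv2 (g7 A (insert x1 A) z u v c (Set.subset_insert _ _) (hA.insert x1) hu1 hv1.1 h)
  · exact hu2 (g7 A (insert x2 A) z v u c (Set.subset_insert _ _) (hA.insert x2) hv1 hu1.1 h)

/-- a far pair -/
def SMA_far (L : FirstOrder.Language.{0, 0}) {U : Type} [L.Structure U] [LinearOrder U]
    (A : Set U) (x x1 x2 : U) : Prop :=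
  x1 ∈ Orb L A x ∧ x2 ∈ Ge L A x true (insert x1 A)

/-- the key step: monotonicity for far pairs gives the position of `y` -/
theorem SMA_key (hW : Wm L U) (hORB : St_ORB) (hGEX : St_GEX) (hGER : St_GER) (hFFR : St_FFR)
    {A : Set U} (hA : A.Finite) (x z : U) (c t : Bool)
    (h : ∀ x1 x2, SMA_far L A x x1 x2 → if t = true then
      Ge L A z c (insert x1 A) ⊆ Ge L A z c (insert x2 A) else
      Ge L A z c (insert x2 A) ⊆ Ge L A z c (insert x1 A)) :
    ∀ y ∈ Orb L A z, ∀ x2 ∈ Ge L A x t (insert y A), y ∈ Ge L A z c (insert x2 A) := by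
  intro y hy x2 hx2
  have o1 := (hORB L U hW.mon).1
  have o2 := (hORB L U hW.mon).2.1
  have g2 := (hGER L U hW).2.1
  have g4 := (hGER L U hW).2.2.2.1
  -- some `x'` with `y` in its orbit
  obtain ⟨y0, hy0⟩ := (hGEX L U hW A (insert x A) z c (Set.subset_insert _ _) (hA.insert x)).1
  have hyy : y ∈ Orb L A y0 := by
    rw [o2 A z y0 hy0.1]
    exact hy
  obtain ⟨σ, hσ, hσy⟩ := hyy
  have hx' : σ x ∈ Orb L A x := ⟨σ, hσ, rfl⟩
  have hyx' : y ∈ Ge L A z c (insert (σ x) A) := by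
    rw [SMA_conj hW hGER hσ, ← hσy]
    exact Set.mem_image_of_mem _ hy0
  have hfin : (insert (σ x) (insert y A)).Finite := (hA.insert y).insert _
  have hs0 : A ⊆ insert y A := Set.subset_insert _ _
  have hs1 : insert y A ⊆ insert (σ x) (insert y A) := Set.subset_insert _ _
  have hs2 : insert (σ x) A ⊆ insert (σ x) (insert y A) := SMA_ins hs0 _
  have hs3 : A ⊆ insert (σ x) A := Set.subset_insert _ _
  obtain ⟨w, hw⟩ := (hGEX L U hW A (insert (σ x) (insert y A)) x t (hs0.trans hs1) hfin).1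
  have hw1 : w ∈ Ge L A x t (insert (σ x) A) := g2 A _ _ x t hs3 hs2 hfin hw
  have hw2 : w ∈ Ge L A x t (insert y A) := g2 A _ _ x t hs0 hs1 hfin hw
  have hyw : y ∈ Ge L A z c (insert w A) := by
    cases t with
    | true =>
      have h1 := h (σ x) w ⟨hx', hw1⟩
      simp only [if_true] at h1
      exact h1 hyx'
    | false =>
      have h2 : w ∈ Ge L A (σ x) false (insert (σ x) A) := by
        rw [g4 A _ x (σ x) false hx']
        exact hw1
      have h3 := hFFR L U hW A (σ x) w false hA h2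
      have h4 : σ x ∈ Ge L A x true (insert w A) := by
        rw [← g4 A _ x w true hw1.1]
        exact h3
      have h1 := h w (σ x) ⟨hw1.1, h4⟩
      rw [if_neg (by decide)] at h1
      exact h1 hyx'
  -- `w` and `x2` are conjugate over `y`, `A`
  have hcon : x2 ∈ Orb L (insert y A) w := by
    rw [← (hGEX L U hW A (insert y A) x t hs0 (hA.insert y)).2 w hw2]
    exact hx2
  obtain ⟨τ, hτ, hτw⟩ := hcon
  rw [← hτw, SMA_conj hW hGER (SMA_mono hs0 hτ)]
  exact ⟨y, hyw, hτ y (Set.mem_insert _ _)⟩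

/-- two far pairs are conjugate -/
theorem SMA_two (hW : Wm L U) (hORB : St_ORB) (hGEX : St_GEX) (hGER : St_GER)
    {A : Set U} (hA : A.Finite) (x : U) {x1 x2 y1 y2 : U} (h : SMA_far L A x x1 x2)
    (h' : SMA_far L A x y1 y2) : ∃ σ : U ≃[L] U, Fx L A σ ∧ σ x1 = y1 ∧ σ x2 = y2 := by
  have o2 := (hORB L U hW.mon).2.1
  have h1 : y1 ∈ Orb L A x1 := by
    rw [o2 A x x1 h.1]
    exact h'.1
  obtain ⟨σ, hσ, hσ1⟩ := h1
  have h2 : σ x2 ∈ Ge L A x true (insert y1 A) := by
    rw [← hσ1, SMA_conj hW hGER hσ]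
    exact Set.mem_image_of_mem _ h.2
  have h3 : y2 ∈ Orb L (insert y1 A) (σ x2) := by
    rw [← (hGEX L U hW A (insert y1 A) x true (Set.subset_insert _ _) (hA.insert y1)).2 _ h2]
    exact h'.2
  obtain ⟨τ, hτ, hτ2⟩ := h3
  refine ⟨τ.comp σ, SMA_comp hσ (SMA_mono (Set.subset_insert _ _) hτ), ?_, ?_⟩
  · rw [FirstOrder.Language.Equiv.comp_apply, hσ1]
    exact hτ y1 (Set.mem_insert _ _)
  · rw [FirstOrder.Language.Equiv.comp_apply, hτ2]

theorem SMA_mono2 (hW : Wm L U) (hORB : St_ORB) (hGEX : St_GEX) (hGER : St_GER)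
    {A : Set U} (hA : A.Finite) (x z : U) (c : Bool) : ∃ t : Bool,
    ∀ x1 x2, SMA_far L A x x1 x2 → if t = true then
      Ge L A z c (insert x1 A) ⊆ Ge L A z c (insert x2 A) else
      Ge L A z c (insert x2 A) ⊆ Ge L A z c (insert x1 A) := by
  have o1 := (hORB L U hW.mon).1
  obtain ⟨w, hw⟩ := (hGEX L U hW A (insert x A) x true (Set.subset_insert _ _) (hA.insert x)).1
  have hf : SMA_far L A x x w := ⟨o1 A x, hw⟩
  rcases SMA_cmp hW hGER hA z x w c with h | h
  · refine ⟨true, fun x1 x2 h12 => ?_⟩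
    obtain ⟨σ, hσ, h1, h2⟩ := SMA_two hW hORB hGEX hGER hA x hf h12
    simp only [if_true]
    rw [← h1, ← h2, SMA_conj hW hGER hσ, SMA_conj hW hGER hσ]
    exact Set.image_mono h
  · refine ⟨false, fun x1 x2 h12 => ?_⟩
    obtain ⟨σ, hσ, h1, h2⟩ := SMA_two hW hORB hGEX hGER hA x hf h12
    rw [if_neg (by decide)]
    rw [← h1, ← h2, SMA_conj hW hGER hσ, SMA_conj hW hGER hσ]
    exact Set.image_mono h

theorem SMA_ori (hW : Wm L U) (hORB : St_ORB) (hNSB : St_NSB) (hGEX : St_GEX) (hGER : St_GER)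
    (hFFR : St_FFR) {A : Set U} (hA : A.Finite) {x z : U} (h : Nn L A x z) :
    ∃ e : Bool, Ori L A x z e := by
  have o1 := (hORB L U hW.mon).1
  have hQ : ∀ c : Bool, ∃ t : Bool, ∀ y ∈ Orb L A z, ∀ x2 ∈ Ge L A x t (insert y A),
      y ∈ Ge L A z c (insert x2 A) := by
    intro c
    obtain ⟨t, ht⟩ := SMA_mono2 hW hORB hGEX hGER hA x z c
    exact ⟨t, SMA_key hW hORB hGEX hGER hFFR hA x z c t ht⟩
  obtain ⟨t1, h1⟩ := hQ false
  obtain ⟨t2, h2⟩ := hQ true
  have hne : t1 ≠ t2 := by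
    rintro rfl
    obtain ⟨w, hw⟩ := (hGEX L U hW A (insert z A) x t1 (Set.subset_insert _ _) (hA.insert z)).1
    exact SMA_disj hW hORB hNSB hGER hA h hw.1 true (h2 z (o1 A z) w hw) (h1 z (o1 A z) w hw)
  cases t1 with
  | true =>
    cases t2 with
    | true => exact absurd rfl hne
    | false =>
      refine ⟨true, fun t y hy x' hx' => ?_⟩
      cases t with
      | true => exact h1 y hy x' hx'
      | false => exact h2 y hy x' hx'
  | false =>
    cases t2 with
    | false => exact absurd rfl hne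
    | true =>
      refine ⟨false, fun t y hy x' hx' => ?_⟩
      cases t with
      | true => exact h2 y hy x' hx'
      | false => exact h1 y hy x' hx'

theorem SMA_per (hW : Wm L U) (hORB : St_ORB) (hNSB : St_NSB) (hGEX : St_GEX) (hGER : St_GER)
    {A : Set U} (hA : A.Finite) {x z : U} (h : Nn L A x z) {e : Bool} (he : Ori L A x z e)
    (B : Set U) (t : Bool) (hB : B.Finite) (hAB : A ⊆ B) :
    ∀ x' ∈ Ge L A x t B, ∀ z' ∈ Ge L A z (sg e t) B, Nn L B x' z' := by
  intro x' hx' z' hz'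
  have o3 := (hORB L U hW.mon).2.2.1
  have n2 := (hNSB L U).2.1
  have g2 := (hGER L U hW).2.1
  obtain ⟨w, hw⟩ := (hGEX L U hW A (insert z' B) x t (hAB.trans (Set.subset_insert _ _))
    (hB.insert z')).1
  have hA1 : ∀ y : U, A ⊆ insert y A := fun y => Set.subset_insert _ _
  have hw1 : w ∈ Ge L A x t (insert z' A) :=
    g2 A _ _ x t (hA1 z') (SMA_ins hAB z') (hB.insert z') hw
  have hw2 : w ∈ Ge L A x t B := g2 A _ _ x t hAB (Set.subset_insert _ _) (hB.insert z') hw
  have h1 : z' ∈ Ge L A z (!(sg e t)) (insert w A) := he t z' hz'.1 w hw1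
  obtain ⟨u', hu'⟩ := (hGEX L U hW A (insert w B) z (sg e t) (hAB.trans (Set.subset_insert _ _))
    (hB.insert w)).1
  have hu1 : u' ∈ Ge L A z (sg e t) (insert w A) :=
    g2 A _ _ z _ (hA1 w) (SMA_ins hAB w) (hB.insert w) hu'
  have hu2 : u' ∈ Ge L A z (sg e t) B :=
    g2 A _ _ z _ hAB (Set.subset_insert _ _) (hB.insert w) hu'
  have hNw : Nn L B w z' := by
    intro hcon
    have h2 : u' ∈ Orb L B z' := by
      rw [← (hGEX L U hW A B z (sg e t) hAB hB).2 z' hz']
      exact hu2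
    rw [← hcon] at h2
    have h3 : u' ∈ Orb L (insert w A) z' := o3 _ _ z' (SMA_ins hAB w) h2
    rw [← (hGEX L U hW A (insert w A) z (!(sg e t)) (hA1 w) (hA.insert w)).2 z' h1] at h3
    exact SMA_disj hW hORB hNSB hGER hA h hw.1 (sg e t) hu1 h3
  refine n2 B w z' x' z' ?_ ((hORB L U hW.mon).1 B z') hNw
  rw [← (hGEX L U hW A B x t hAB hB).2 w hw2]
  exact hx'

theorem thm_SMA (hORB : St_ORB) (hNSB : St_NSB) (hGEX : St_GEX) (hGER : St_GER)
    (hFFR : St_FFR) : St_SMA := by
  intro L U _ _ hW A x z hA h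
  obtain ⟨e, he⟩ := SMA_ori hW hORB hNSB hGEX hGER hFFR hA h
  have hzx : Nn L A z x := (hNSB L U).1 A x z h
  obtain ⟨e', he'⟩ := SMA_ori hW hORB hNSB hGEX hGER hFFR hA hzx
  have hee : e' = e := by
    by_contra hne
    have o1 := (hORB L U hW.mon).1
    obtain ⟨w, hw⟩ := (hGEX L U hW A (insert x A) z true (Set.subset_insert _ _) (hA.insert x)).1
    have h1 := he' true x (o1 A x) w hw
    have h2 := he (!(sg e' true)) w hw.1 x h1
    have h3 : (!(sg e (!(sg e' true)))) = false := by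
      cases e <;> cases e' <;> simp_all [sg]
    rw [h3] at h2
    exact SMA_disj hW hORB hNSB hGER hA h (o1 A x) true hw h2
  subst hee
  exact ⟨e', he, he', fun B t hB hAB => SMA_per hW hORB hNSB hGEX hGER hA h he B t hB hAB⟩

end SMA

end Pool.Agent.WOM
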