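import Pool.Agent.WOM.StC

/-!
WOM, [SMB] (helper77): definable sides are matched.
-/

set_option autoImplicit false

namespace Pool.Agent.WOM

open FirstOrder.Language Set
open scoped FirstOrder

section

variable {L : FirstOrder.Language.{0, 0}} {U : Type} [L.Structure U]

/-- automorphisms over `A` preserve the `A`-definable relations -/
theorem SMB_inv {A : Set U} {φ : Set (Fin 2 → U)} (h : A.Definable L φ) {σ : U ≃[L] U}
    (hσ : Fx L A σ) (a b : U) (hab : ![a, b] ∈ φ) : ![σ a, σ b] ∈ φ := by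
  obtain ⟨ψ, rfl⟩ := Set.definable_iff_exists_formula_sum.1 h
  change ψ.Realize (Sum.elim (fun y : A => (y : U)) ![a, b]) at hab
  change ψ.Realize (Sum.elim (fun y : A => (y : U)) ![σ a, σ b])
  have h1 : (Sum.elim (fun y : A => (y : U)) ![σ a, σ b]) =
      σ ∘ (Sum.elim (fun y : A => (y : U)) ![a, b]) := by
    funext j
    rcases j with j | j
    · exact (hσ j.1 j.2).symm
    · refine Fin.cases ?_ (fun j => ?_) j
      · rfl
      · rw [Fin.fin_one_eq_zero j]
        rfl
  rw [h1]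
  exact (StrongHomClass.realize_formula σ ψ).2 hab

theorem SMB_mono {A B : Set U} (h : A ⊆ B) {s : Set U} (hs : A.Definable₁ L s) :
    B.Definable₁ L s := Set.Definable.mono hs h

theorem SMB_inter {A s t : Set U} (hs : A.Definable₁ L s) (ht : A.Definable₁ L t) :
    A.Definable₁ L (s ∩ t) := Set.Definable.inter hs ht

theorem SMB_univ (A : Set U) : A.Definable₁ L (univ : Set U) := by
  have h : A.Definable L (univ : Set (Fin 1 → U)) := Set.definable_univ
  exact h

/-- finite intersections -/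
theorem SMB_fin {A : Set U} {z : U} {G : Set (Set U)} (hG : G.Finite)
    (h : ∀ s ∈ G, A.Definable₁ L s ∧ z ∈ s) : A.Definable₁ L (⋂₀ G) ∧ z ∈ ⋂₀ G := by
  induction G, hG using Set.Finite.induction_on with
  | empty =>
    rw [sInter_empty]
    exact ⟨SMB_univ A, mem_univ z⟩
  | insert _ _ ih =>
    rw [sInter_insert]
    have h1 := h _ (mem_insert _ _)
    have h2 := ih fun s hs => h s (mem_insert_of_mem _ hs)
    exact ⟨SMB_inter h1.1 h2.1, h1.2, h2.2⟩

variable [LinearOrder U]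

theorem SMB_refl (t : Bool) (x : U) : leS t x x := by
  unfold leS
  split_ifs
  · exact le_rfl
  · exact le_rfl

theorem SMB_trans {t : Bool} {x y z : U} (h : leS t x y) (h' : leS t y z) : leS t x z := by
  unfold leS at h h' ⊢
  split_ifs at h h' ⊢
  · exact h.trans h'
  · exact h'.trans h

theorem SMB_total (t : Bool) (x y : U) : leS t x y ∨ leS t y x := by
  unfold leS
  split_ifs
  · exact le_total x y
  · exact le_total y x

end

theorem thm_SMB (hDFN : St_DFN) (hORB : St_ORB) (hCNV : St_CNV) (hGEX : St_GEX)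
    (hGER : St_GER) : St_SMB := by
  intro L U _ _ hW A x z e t hA hN hOri hSD
  obtain ⟨d1, d2, d3, d4⟩ := hDFN L U hW.ord A
  obtain ⟨o1, o2, o3, o4, o5, o6, o7, -, -⟩ := hORB L U hW.mon
  obtain ⟨c1, c2⟩ := hCNV L U hW
  have gex := hGEX L U hW
  obtain ⟨-, -, -, g4, g5, -, g7, g8⟩ := hGER L U hW
  set t' := sg e t with ht'
  have hB : (insert x A).Finite := hA.insert x
  have hAB : A ⊆ insert x A := subset_insert x A
  obtain ⟨⟨u₁, hu₁⟩, -⟩ := gex A (insert x A) z t' hAB hB
  obtain ⟨⟨u₂, hu₂⟩, -⟩ := gex A (insert x A) z (!t') hAB hB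
  have e1 := (gex A (insert x A) z t' hAB hB).2 u₁ hu₁
  have e2 := (gex A (insert x A) z (!t') hAB hB).2 u₂ hu₂
  -- the two end orbits are different
  have hne : u₁ ∉ Orb L (insert x A) u₂ := by
    intro h
    rw [← e2] at h
    apply hN
    rcases Bool.eq_false_or_eq_true t' with ht | ht
    · rw [ht] at hu₁ h
      exact g8 A (insert x A) z u₁ hAB hB hu₁ h
    · rw [ht] at hu₁ h
      exact g8 A (insert x A) z u₁ hAB hB h hu₁
  obtain ⟨X, hX, hX2, hX1⟩ := o7 (insert x A) u₂ u₁ hB hne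
  have hXsub : Ge L A z (!t') (insert x A) ⊆ X := by
    rw [e2]
    exact o6 (insert x A) X hX u₂ hX2
  have hXdis : ∀ v ∈ Ge L A z t' (insert x A), v ∉ X := by
    intro v hv hvX
    rw [e1] at hv
    have h := o6 (insert x A) X hX v hvX
    rw [o2 (insert x A) u₁ v hv] at h
    exact hX1 (h (o1 (insert x A) u₁))
  obtain ⟨φ, hφ, hXφ⟩ := d1 x X hX
  have hXm : ∀ y, y ∈ X ↔ ![x, y] ∈ φ := by
    intro y
    rw [hXφ]
    rfl
  -- step (i)
  obtain ⟨Y, hY, hzY, hYe⟩ : ∃ Y : Set U, A.Definable₁ L Y ∧ z ∈ Y ∧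
      ∀ y ∈ Y, y ∈ X → leS t' u₁ y → False := by
    by_contra hcon
    push Not at hcon
    have hsat := hW.mon.sat (insert u₁ (insert x A)) (hB.insert u₁)
      ({s | A.Definable₁ L s ∧ z ∈ s} ∪ {X, {y | leS t' u₁ y}}) (by
        rintro s (hs | hs)
        · exact SMB_mono (hAB.trans (subset_insert _ _)) hs.1
        · rw [mem_insert_iff, mem_singleton_iff] at hs
          rcases hs with rfl | rfl
          · exact SMB_mono (subset_insert _ _) hX
          · exact SMB_mono (singleton_subset_iff.2 (mem_insert _ _)) (d4 u₁ t')) (by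
        intro G hG hGf
        have h1 := SMB_fin (L := L) (A := A) (z := z)
          (G := G ∩ {s | A.Definable₁ L s ∧ z ∈ s}) (hGf.subset inter_subset_left)
          fun s hs => hs.2
        obtain ⟨y, hy1, hy2, hy3, -⟩ := hcon _ h1.1 h1.2
        refine ⟨y, fun s hs => ?_⟩
        rcases hG hs with h | h
        · exact hy1 s ⟨hs, h⟩
        · rw [mem_insert_iff, mem_singleton_iff] at h
          rcases h with rfl | rfl
          · exact hy2
          · exact hy3)
    obtain ⟨w, hw⟩ := hsat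
    have hwq : w ∈ Orb L A z := by
      by_contra hc
      obtain ⟨s, hs1, hs2, hs3⟩ := o7 A z w hA hc
      exact hs3 (hw s (Or.inl ⟨hs1, hs2⟩))
    have hwX : w ∈ X := hw X (Or.inr (mem_insert _ _))
    have hwl : leS t' u₁ w := hw {y | leS t' u₁ y} (Or.inr (mem_insert_of_mem _ rfl))
    exact hXdis w (g7 A (insert x A) z u₁ w t' hAB hB hu₁ hwq hwl) hwX
  have hqY : Orb L A z ⊆ Y := o6 A Y hY z hzY
  have hstep : ∀ y ∈ Y, (∀ w ∈ Orb L A z, leS t' w y) → ∀ b ∈ Orb L A x, ![b, y] ∉ φ := by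
    rintro y hy hbey b ⟨σ, hσ, rfl⟩ hbφ
    have hσ' : Fx L A σ.symm := fun a ha => by
      have := hσ a ha
      calc σ.symm a = σ.symm (σ a) := by rw [this]
        _ = a := σ.symm_apply_apply a
    have h1 := SMB_inv hφ hσ' (σ x) y hbφ
    rw [σ.symm_apply_apply] at h1
    have hy' : σ.symm y ∈ Y := o6 A Y hY y hy ⟨σ.symm, hσ', rfl⟩
    refine hYe (σ.symm y) hy' ((hXm _).2 h1) ?_
    have hu₁q : σ u₁ ∈ Orb L A z := by
      have h2 := o2 A z u₁ hu₁.1
      rw [← h2]
      exact ⟨σ, hσ, rfl⟩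
    have h3 := hbey (σ u₁) hu₁q
    have hmono : ∀ a b : U, σ a ≤ b → a ≤ σ.symm b := by
      intro a b hab
      by_contra hc
      rw [not_le] at hc
      have := (c1 σ (σ.symm b) a).1 hc
      rw [σ.apply_symm_apply] at this
      exact absurd hab (not_le.2 this)
    have hmono' : ∀ a b : U, b ≤ σ a → σ.symm b ≤ a := by
      intro a b hab
      by_contra hc
      rw [not_le] at hc
      have := (c1 σ a (σ.symm b)).1 hc
      rw [σ.apply_symm_apply] at this
      exact absurd hab (not_le.2 this)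
    unfold leS at h3 ⊢
    split_ifs at h3 ⊢
    · exact hmono _ _ h3
    · exact hmono' _ _ h3
  -- step (ii)
  set P : Set U := Cls t (Orb L A x) with hP
  have hpP : Orb L A x ⊆ P := fun a ha => ⟨a, ha, SMB_refl t a⟩
  have hPd : A.Definable₁ L P := hSD
  set Z : Set U := Y ∩ {y | ∃ a ∈ P, ∀ b ∈ P, leS t a b → ![b, y] ∈ φ} with hZ
  have hZd : A.Definable₁ L Z := SMB_inter hY (d2 φ P t hφ hPd)
  have hσA : ∀ σ : U ≃[L] U, Fx L A σ → σ '' A = A := by
    intro σ hσ
    ext a
    constructor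
    · rintro ⟨b, hb, rfl⟩
      rw [hσ b hb]
      exact hb
    · intro ha
      exact ⟨a, ha, hσ a ha⟩
  have hqZ : Orb L A z ⊆ Z := by
    intro y hy
    refine ⟨hqY hy, ?_⟩
    obtain ⟨⟨a, ha⟩, -⟩ := gex A (insert y A) x t (subset_insert y A) (hA.insert y)
    refine ⟨a, hpP ha.1, ?_⟩
    rintro b ⟨v, hv, hbv⟩ hab
    have hbp : b ∈ Orb L A x := by
      have hoc := (c2 A x hA).1
      unfold leS at hbv hab
      split_ifs at hbv hab
      · exact hoc.out ha.1 hv ⟨hab, hbv⟩
      · exact hoc.out hv ha.1 ⟨hbv, hab⟩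
    have hbG : b ∈ Ge L A x t (insert y A) :=
      g7 A (insert y A) x a b t (subset_insert y A) (hA.insert y) ha hbp hab
    have hyG := hOri t y hy b hbG
    obtain ⟨σ, hσ, rfl⟩ := hbp
    have h5 := g5 σ A (insert x A) z (!t')
    rw [hσA σ hσ, image_insert_eq, hσA σ hσ, g4 A (insert (σ x) A) z (σ z) (!t')
      ⟨σ, hσ, rfl⟩] at h5
    rw [h5] at hyG
    obtain ⟨y₀, hy₀, rfl⟩ := hyG
    exact SMB_inv hφ hσ x y₀ ((hXm y₀).1 (hXsub hy₀))
  have hZq : ∀ y ∈ Z, ∃ w ∈ Orb L A z, leS t' y w := by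
    rintro y ⟨hyY, a, ⟨b, hb, hab⟩, hall⟩
    by_contra hcon
    push Not at hcon
    refine hstep y hyY (fun w hw => ?_) b hb (hall b (hpP hb) hab)
    rcases SMB_total t' w y with h | h
    · exact h
    · exact absurd h (hcon w hw)
  have hfin : Cls t' (Orb L A z) = Cls t' Z := by
    ext u
    constructor
    · rintro ⟨v, hv, huv⟩
      exact ⟨v, hqZ hv, huv⟩
    · rintro ⟨v, hv, huv⟩
      obtain ⟨w, hw, hvw⟩ := hZq v hv
      exact ⟨w, hw, SMB_trans huv hvw⟩
  show A.Definable₁ L (Cls t' (Orb L A z))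
  rw [hfin]
  exact d3 Z t' hZd

end Pool.Agent.WOM
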