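import Pool.Agent.WOM.StC

/-!
WOM, module SMG: the matching theorem for germs (helper34).
-/

set_option autoImplicit false
set_option linter.unusedVariables false

namespace Pool.Agent.WOM

open FirstOrder.Language Set
open scoped FirstOrder

theorem thm_SMG (hNSB : St_NSB) (hSMA : St_SMA) (hSMB : St_SMB) : St_SMG := by
  intro L U _ _ hU D u w hD hn
  obtain ⟨e, h1, h2, h3⟩ := hSMA L U hU D u w hD hn
  refine ⟨e, fun t => ⟨?_, ?_, ?_⟩⟩
  · intro E hE hg hh x' hx' z' hz'
    exact h3 E t hE hg x' hx' z' hz'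
  · exact hSMB L U hU D u w e t hD hn h1
  · intro h
    have h4 := hSMB L U hU D w u e (sg e t) hD ((hNSB L U).1 _ _ _ hn) h2 h
    have h5 : sg e (sg e t) = t := by
      cases e <;> cases t <;> rfl
    rwa [h5] at h4

end Pool.Agent.WOM
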