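import Pool.Agent.WOM.StD

/-! WOM: module SML (helper99): scattered theories are small. -/

set_option autoImplicit false
set_option linter.unusedVariables false

namespace Pool.Agent.WOM

open FirstOrder.Language Set
open scoped FirstOrder

open Pool.Agent.Helper79.VC in
/-- equivalence of finite level preserves a formula -/
private theorem SML_fo {L : FirstOrder.Language.{0, 0}} [hL : ∀ n, IsEmpty (L.Functions n)] {n : ℕ} :
    ∀ {k : ℕ} (φ : L.BoundedFormula (Fin n) k), ∃ q : ℕ, ∀ (M N : Type) (S : L.Structure M)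
      (S' : L.Structure N) (v : Fin n → M) (v' : Fin n → N) (xs : Fin k → M) (xs' : Fin k → N)
      (γ : Ordinal.{0}) (p : Set (M × N)), (q : Ordinal.{0}) ≤ γ →
      BFR S S' univ univ γ p → (∀ i, (v i, v' i) ∈ p) → (∀ i, (xs i, xs' i) ∈ p) →
      (@FirstOrder.Language.BoundedFormula.Realize L M S (Fin n) k φ v xs ↔
        @FirstOrder.Language.BoundedFormula.Realize L N S' (Fin n) k φ v' xs') := by
  have hterm : ∀ {k : ℕ} (t : L.Term (Fin n ⊕ Fin k)) (M N : Type) (S : L.Structure M)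
      (S' : L.Structure N) (v : Fin n → M) (v' : Fin n → N) (xs : Fin k → M) (xs' : Fin k → N)
      (p : Set (M × N)), (∀ i, (v i, v' i) ∈ p) → (∀ i, (xs i, xs' i) ∈ p) →
      (@FirstOrder.Language.Term.realize L M S _ (Sum.elim v xs) t,
        @FirstOrder.Language.Term.realize L N S' _ (Sum.elim v' xs') t) ∈ p := by
    intro k t M N S S' v v' xs xs' p h1 h2
    match t with
    | .var (.inl i) => exact h1 i
    | .var (.inr i) => exact h2 i
    | .func f _ => exact (hL _).elim f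
  intro k φ
  induction φ with
  | falsum =>
    exact ⟨0, fun M N S S' v v' xs xs' γ p _ _ _ _ => Iff.rfl⟩
  | equal t₁ t₂ =>
    refine ⟨0, fun M N S S' v v' xs xs' γ p _ h h1 h2 => ?_⟩
    exact h.atEq.1 _ (hterm t₁ M N S S' v v' xs xs' p h1 h2) _
      (hterm t₂ M N S S' v v' xs xs' p h1 h2)
  | rel R ts =>
    refine ⟨0, fun M N S S' v v' xs xs' γ p _ h h1 h2 => ?_⟩
    exact h.atEq.2 _ R (fun i => (@FirstOrder.Language.Term.realize L M S _ (Sum.elim v xs) (ts i),
      @FirstOrder.Language.Term.realize L N S' _ (Sum.elim v' xs') (ts i)))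
      (fun i => hterm (ts i) M N S S' v v' xs xs' p h1 h2)
  | imp φ ψ ih1 ih2 =>
    obtain ⟨q1, hq1⟩ := ih1
    obtain ⟨q2, hq2⟩ := ih2
    refine ⟨max q1 q2, fun M N S S' v v' xs xs' γ p hγ h h1 h2 => ?_⟩
    have a1 : (q1 : Ordinal.{0}) ≤ γ := le_trans (by exact_mod_cast le_max_left q1 q2) hγ
    have a2 : (q2 : Ordinal.{0}) ≤ γ := le_trans (by exact_mod_cast le_max_right q1 q2) hγ
    exact imp_congr (hq1 M N S S' v v' xs xs' γ p a1 h h1 h2)
      (hq2 M N S S' v v' xs xs' γ p a2 h h1 h2)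
  | @all k φ ih =>
    obtain ⟨q, hq⟩ := ih
    refine ⟨q + 1, fun M N S S' v v' xs xs' γ p hγ h h1 h2 => ?_⟩
    have hlt : (q : Ordinal.{0}) < γ := lt_of_lt_of_le (by exact_mod_cast Nat.lt_succ_self q) hγ
    have hsn : ∀ (a : M) (b : N) (i : Fin (k + 1)),
        ((Fin.snoc xs a : Fin (k + 1) → M) i, (Fin.snoc xs' b : Fin (k + 1) → N) i) ∈
          insert (a, b) p := by
      intro a b i
      refine Fin.lastCases ?_ (fun j => ?_) i
      · rw [Fin.snoc_last, Fin.snoc_last]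
        exact mem_insert _ _
      · rw [Fin.snoc_castSucc, Fin.snoc_castSucc]
        exact mem_insert_of_mem _ (h2 j)
    constructor
    · intro hr b
      obtain ⟨a, -, hab⟩ := h.back hlt (mem_univ b)
      exact (hq M N S S' v v' (Fin.snoc xs a) (Fin.snoc xs' b) _ _ le_rfl hab
        (fun i => mem_insert_of_mem _ (h1 i)) (hsn a b)).1 (hr a)
    · intro hr a
      obtain ⟨b, -, hab⟩ := h.forth hlt (mem_univ a)
      exact (hq M N S S' v v' (Fin.snoc xs a) (Fin.snoc xs' b) _ _ le_rfl hab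
        (fun i => mem_insert_of_mem _ (h1 i)) (hsn a b)).2 (hr b)

theorem thm_SML : St_SML := by
  intro L _ T hS
  have hsc := hS Ordinal.omega0 Pool.Agent.Helper79.VC.omega_lt_om1
  choose ρ hρ using hsc
  refine Set.Countable.mono ?_ (countable_range (fun km : ℕ × ℕ =>
    (⟨km.1, @tp L ℕ (ρ km.1 km.2).1 km.1 (ρ km.1 km.2).2⟩ : (n : ℕ) × Set (L.Formula (Fin n)))))
  rintro ⟨n, X⟩ ⟨S, hST, a, ha⟩
  obtain ⟨m, -, hm⟩ := hρ n S hST a
  refine ⟨(n, m), ?_⟩
  have h1 : @tp L ℕ (ρ n m).1 n (ρ n m).2 = X := by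
    rw [show X = @tp L ℕ S n a from ha]
    ext φ
    obtain ⟨q, hq⟩ := SML_fo (L := L) φ
    simp only [tp, mem_ofPred_eq]
    unfold FirstOrder.Language.Formula.Realize
    exact (hq ℕ ℕ S (ρ n m).1 a (ρ n m).2 _ _ Ordinal.omega0 _
      (Ordinal.natCast_lt_omega0 q).le hm (fun i => mem_range_self i) (fun i => i.elim0)).symm
  show (⟨n, @tp L ℕ (ρ n m).1 n (ρ n m).2⟩ : (n : ℕ) × Set (L.Formula (Fin n))) = ⟨n, X⟩
  rw [h1]

end Pool.Agent.WOM
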