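import Pool.Agent.WOM.StD
import Pool.Agent.WOM.TRW

/-!
WOM, module TRS: the strong absence of adic types is invariant under isomorphism.
-/

set_option autoImplicit false

namespace Pool.Agent.WOM

open FirstOrder.Language Set
open scoped FirstOrder

section

variable {L : FirstOrder.Language.{0, 0}} {M N : Type} [L.Structure M] [L.Structure N]

theorem TRS_na (g : M ≃[L] N) (h : SNA L N) : SNA L M := by
  intro A a c d hA hc
  have h1 := TRW_cpl g A _ c hc
  rw [image_insert_eq] at h1
  have h2 := h (g '' A) (g a) (g c) (g d) (hA.image g) h1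
  have h4 : insert (g d) (g '' A) = g '' insert d A := image_insert_eq.symm
  rw [h4] at h2
  have h5 : insert (g a) (g '' insert d A) = g '' insert a (insert d A) := image_insert_eq.symm
  rw [h5] at h2
  have h3 := TRW_cpl g.symm _ _ _ h2
  rwa [TRW_sym, TRW_sym, g.symm_apply_apply] at h3

end

theorem thm_TRS : St_TRS := by
  intro L T lt h U _ hc hi hT
  obtain ⟨e⟩ : Nonempty (U ≃ ℕ) := nonempty_equiv_of_countable
  let S : L.Structure ℕ := e.inducedStructure
  let g : U ≃[L] ℕ := e.inducedStructureEquiv
  have h1 : ℕ ⊨ T := FirstOrder.Language.StrongHomClass.theory_model g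
  obtain ⟨h2, h3⟩ := h S h1
  exact ⟨TRW_wo g lt h2, TRS_na g h3⟩

end Pool.Agent.WOM
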