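import Pool.Agent.WOM.StC

/-! WOM: module VCX, valid configurations for the nonconstant code (helper89). -/

set_option autoImplicit false

namespace Pool.Agent.WOM

open FirstOrder.Language Set
open scoped FirstOrder

theorem thm_VCX (hORB : St_ORB) (hGER : St_GER) (hEQG : St_EQG) (hVDX : St_VDX) : St_VCX := by
  intro L U _ _ hW C m x z s hN
  obtain ⟨o1, -, -, -, -, -, -, -, -⟩ := hORB L U hW.mon
  obtain ⟨g1, -, g3, -, -, g6, -, -⟩ := hGER L U hW
  obtain ⟨q1, -, -, -, q5, -, -, -⟩ := hEQG L U hW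
  obtain ⟨v1, -, -⟩ := hVDX L U hW
  have hgrf : ∀ ρ : U ≃[L] U, (gr L C x z s ρ).1.Finite := fun ρ =>
    Set.Finite.image _ (hN.fin.union (finite_range x))
  refine ⟨?_, ?_⟩
  · intro c b hc hb
    obtain ⟨hv, hle⟩ := v1 c b hc.vd hb
    have hDf : (insert b c.D).Finite := hc.vd.fin.insert b
    have horb : ∀ i ∈ c.I, Orb L (insert b c.D) (c.w i) = Orb L c.D (c.w i) := by
      intro i hi
      have h1 := hb i hi
      unfold Nn at h1
      exact not_not.1 h1
    refine ⟨?_, hle⟩
    refine { vd := hv, CD := ?_, fx := hc.fx, rg := ?_, ge := ?_, bf := ?_ }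
    · exact hc.CD.trans (subset_insert _ _)
    · intro i hi j
      exact mem_insert_of_mem _ (hc.rg i hi j)
    · intro i hi
      have h1 : (gr L C x z s (c.r i)).1 ⊆ c.D := by
        rintro _ ⟨a, ha, rfl⟩
        rcases ha with ha | ⟨j, rfl⟩
        · rw [hc.fx i hi a ha]
          exact hc.CD ha
        · exact hc.rg i hi j
      have h2 := g1 _ c.D (insert b c.D) _ (c.w i) _ h1 (subset_insert _ _) hDf (hc.ge i hi)
      have h3 := g3 c.D (insert b c.D) (insert b c.D) (c.w i) (gr L C x z s (c.r i)).2.2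
        (subset_insert _ _) Subset.rfl hDf (horb i hi)
      show c.w i ∈ Ge L (gr L C x z s (c.r i)).1 (gr L C x z s (c.r i)).2.1
        (gr L C x z s (c.r i)).2.2 (insert b c.D)
      rw [← h2, ← h3, g6]
      exact o1 _ _
    · intro i hi t τ hsd hE
      apply hc.bf i hi t τ hsd
      have hf : ((bs C x t, x t.succ, τ) : Gm U).1.Finite :=
        hN.fin.union ((Set.toFinite _).image x)
      exact q1 _ _ ((q5 c.D (insert b c.D) (c.w i) (!s) _ (subset_insert _ _) hDf hf
        (horb i hi)).1 (q1 _ _ hE))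
  · intro c c' t hc hc' hle i hi
    have hps : ps L x c' i = ps L x c i := by
      unfold ps
      rw [hle.r i hi]
    refine ⟨hps, ?_⟩
    have key : ∀ ρ : U ≃[L] U, Eqg L (gr L C x z s ρ) ((c'.D, c'.w i, !s) : Gm U) ↔
        Eqg L (gr L C x z s ρ) ((c.D, c.w i, !s) : Gm U) := by
      intro ρ
      have h1 := q5 c.D c'.D (c.w i) (!s) (gr L C x z s ρ) hle.D hc'.vd.fin (hgrf ρ) (hle.orb i hi)
      rw [hle.w i hi]
      exact ⟨fun h => q1 _ _ (h1.1 (q1 _ _ h)), fun h => q1 _ _ (h1.2 (q1 _ _ h))⟩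
    unfold Cl
    rw [hps]
    constructor
    · intro h ρ hρ hE
      exact h ρ hρ ((key ρ).2 hE)
    · intro h ρ hρ hE
      exact h ρ hρ ((key ρ).1 hE)

end Pool.Agent.WOM
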