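import Pool.Agent.WOM.ORB
import Pool.Agent.WOM.DNS
import Pool.Agent.WOM.DFN
import Pool.Agent.WOM.NSB
import Pool.Agent.WOM.CNV
import Pool.Agent.WOM.EVD
import Pool.Agent.WOM.GEX
import Pool.Agent.WOM.GER
import Pool.Agent.WOM.FFR
import Pool.Agent.WOM.TRA
import Pool.Agent.WOM.SMA
import Pool.Agent.WOM.SMB
import Pool.Agent.WOM.SDI
import Pool.Agent.WOM.ISO
import Pool.Agent.WOM.FAR
import Pool.Agent.WOM.EQG
import Pool.Agent.WOM.SMG
import Pool.Agent.WOM.LTW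
import Pool.Agent.WOM.UNG
import Pool.Agent.WOM.CLI
import Pool.Agent.WOM.VDX
import Pool.Agent.WOM.GNC
import Pool.Agent.WOM.OPF
import Pool.Agent.WOM.FCG
import Pool.Agent.WOM.INF
import Pool.Agent.WOM.MSX
import Pool.Agent.WOM.LV0
import Pool.Agent.WOM.LV1
import Pool.Agent.WOM.SCC
import Pool.Agent.WOM.GAM
import Pool.Agent.WOM.KAP
import Pool.Agent.WOM.CDN
import Pool.Agent.WOM.COR
import Pool.Agent.WOM.VCX
import Pool.Agent.WOM.NEW
import Pool.Agent.WOM.DIC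
import Pool.Agent.WOM.MJX
import Pool.Agent.WOM.DCA
import Pool.Agent.WOM.DCJ
import Pool.Agent.WOM.LVP
import Pool.Agent.WOM.LEJ
import Pool.Agent.WOM.NCF
import Pool.Agent.WOM.CRE
import Pool.Agent.WOM.TRS
import Pool.Agent.WOM.WMX
import Pool.Agent.WOM.SML
import Pool.Agent.WOM.SCU
import Pool.Agent.WOM.MSB
import Pool.Agent.WOM.FAS
import Pool.Agent.WOM.DEF1
import Pool.Agent.WOM.CPL
import Pool.Agent.WOM.ULT
import Pool.Agent.WOM.SUBM
import Pool.Agent.WOM.HOMG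
import Pool.Agent.WOM.EMB
import Pool.Agent.WOM.PULL
import Pool.Agent.WOM.TRC

/-!
WOM: assembly (helper85).
-/

set_option autoImplicit false

namespace Pool.Agent.WOM

open FirstOrder.Language Set
open scoped FirstOrder

theorem thm_CRE' : St_CRE := by
  have hDEF1 := thm_DEF1 thm_DEFF
  have hORB := thm_ORB hDEF1
  have hDFN := thm_DFN
  have hDNS := thm_DNS hORB
  have hNSB := thm_NSB
  have hCNV := thm_CNV hORB
  have hEVD := thm_EVD
  have hGEX := thm_GEX hDFN hORB hCNV hEVD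
  have hGER := thm_GER hORB hCNV hGEX
  have hFFR := thm_FFR hORB hCNV hGEX hGER
  have hTRA := thm_TRA hORB hNSB hGEX hGER
  have hSMA := thm_SMA hORB hNSB hGEX hGER hFFR
  have hSMB := thm_SMB hDFN hORB hCNV hGEX hGER
  have hSDI := thm_SDI hDFN hORB hCNV
  have hISO := thm_ISO hNSB hSMA hSMB hSDI
  have hFAR := thm_FAR hORB hCNV hGEX hGER hFFR
  have hEQG := thm_EQG hNSB hCNV hGEX hGER hTRA
  have hSMG := thm_SMG hNSB hSMA hSMB
  have hLTW := thm_LTW hDFN hORB hCNV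
  have hUNG := thm_UNG hDFN hORB hCNV hLTW
  have hCLI := thm_CLI hORB hNSB hCNV hGEX hGER hLTW
  have hVDX := thm_VDX hSDI
  have hGNC := thm_GNC hORB hDNS hNSB hGEX hGER hISO hVDX
  have hOPF := thm_OPF hGNC hVDX
  have hFCG := thm_FCG hORB hNSB hCNV hSDI hUNG
  have hINF := thm_INF hORB hSDI
  have hMSX := thm_MSX hORB hNSB hGEX hGER hSDI hVDX hGNC
  have hLV0 := thm_LV0
  have hLV1 := thm_LV1 hGER hEQG hLV0
  have hSCC := thm_SCC hNSB hSDI hEQG hCLI hINF hMSX hLV0 hLV1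
  have hGAM := thm_GAM
  have hKAP := thm_KAP hGEX hSDI hFAR hEQG
  have hCDN := thm_CDN hORB hNSB hCNV hGEX hGER hFFR hSDI hFAR hEQG hSMG hUNG hKAP
  have hCOR := thm_COR hORB hGEX hGER hSDI hEQG hSMG hGAM hKAP
  have hVCX := thm_VCX hORB hGER hEQG hVDX
  have hNEW := thm_NEW hGEX hGER hSDI hFAR hEQG hSMG hNSB hORB hOPF hGAM hKAP hCDN hCOR
  have hDIC := thm_DIC hORB hGEX hFAR hEQG hKAP hNEW
  have hMJX := thm_MJX hFAR hVDX hGNC hKAP hVCX
  have hDCA := thm_DCA hORB hNSB hGEX hGER hTRA hEQG hSMG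
  have hDCJ := thm_DCJ hNSB hEQG hKAP hDCA
  have hLVP := thm_LVP hNSB hGER hLV0 hLV1
  have hLEJ := thm_LEJ hLV0 hFAR hKAP hDCJ hLVP
  have hNCF := thm_NCF hDIC hMJX hLEJ
  exact thm_CRE hSDI hEQG hFCG hSCC hNCF

theorem thm_NAM : St_NAM := by
  have hDEF1 := thm_DEF1 thm_DEFF
  have hAUT : ∀ (L : FirstOrder.Language.{0, 0}) (U : Type) [L.Structure U], St_AUT L U :=
    fun L U _ => thm_AUT thm_DEFF hDEF1 L U
  have hCPL : ∀ (L : FirstOrder.Language.{0, 0}) (U : Type) [L.Structure U], St_CPL L U :=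
    fun L U _ => thm_CPL hAUT L U
  exact thm_FAS (thm_ULT hDEF1) (thm_SUBM hDEF1) (thm_HOMG hDEF1) (thm_TRC (thm_EMB hDEF1))
    thm_TRS (thm_WMX hAUT hCPL) thm_SML (thm_SCU (thm_PULL hDEF1)) thm_MSB thm_CRE'

end Pool.Agent.WOM
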