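import Pool.Agent.WOM.NAM

/-!
# Vaught's conjecture for weakly o-minimal theories with persistent weak orthogonality

Let `T` be a first-order theory in a countable relational language all of whose countable models
are weakly o-minimal with respect to a fixed formula `lt`.  Assume that in the countable models of
`T` weakly orthogonal 1-types over finite sets stay weakly orthogonal over larger finite sets.
Then the models of `T` on `ℕ` fall into countably many isomorphism types, or there are perfectly
many of them.  No bound on the arity of the definable relations is assumed.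
-/

set_option autoImplicit false

namespace Pool.Agent.Results.MP_5df2c5_lc.WeaklyOMinimal

section

variable (L : FirstOrder.Language.{0, 0}) (M : Type) [L.Structure M]

/-- `M` is weakly o-minimal with respect to the formula `lt`: `lt` defines a strict linear order,
and every subset of `M` definable with parameters is a finite union of convex sets. -/
def IsWeaklyOMinimal (lt : L.Formula (Fin 2)) : Prop :=
  (∀ x : M, ¬ lt.Realize ![x, x]) ∧
  (∀ x y z : M, lt.Realize ![x, y] → lt.Realize ![y, z] → lt.Realize ![x, z]) ∧
  (∀ x y : M, x ≠ y → lt.Realize ![x, y] ∨ lt.Realize ![y, x]) ∧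
  ∀ s : Set M, (Set.univ : Set M).Definable₁ L s →
    ∃ (n : ℕ) (C : Fin n → Set M),
      (∀ i, ∀ x ∈ C i, ∀ z ∈ C i, ∀ y, lt.Realize ![x, y] → lt.Realize ![y, z] → y ∈ C i) ∧
      s = ⋃ i, C i

variable {M}

/-- The type of `c` over `A` implies its type over `B`: every `B`-definable set contains or avoids
some `A`-definable set around `c`. -/
def Implies (A B : Set M) (c : M) : Prop :=
  ∀ s : Set M, B.Definable₁ L s → ∃ t : Set M, A.Definable₁ L t ∧ c ∈ t ∧ (t ⊆ s ∨ t ⊆ sᶜ)

variable (M)

/-- Weakly orthogonal 1-types over finite sets stay weakly orthogonal over larger finite sets: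
if the type of `c` over `A` implies its type over `A, a`, then the type of `c` over `A, d` implies
its type over `A, d, a`. -/
def OrthogonalityPersists : Prop :=
  ∀ (A : Set M) (a c d : M), A.Finite → Implies L A (insert a A) c →
    Implies L (insert d A) (insert a (insert d A)) c

end

/-- **Vaught's conjecture (perfect set form) for weakly o-minimal theories with persistent weak
orthogonality.** -/
theorem result (L : FirstOrder.Language.{0, 0}) (hc : Countable L.Symbols)
    (hrel : ∀ n, IsEmpty (L.Functions n)) (T : L.Theory) (lt : L.Formula (Fin 2))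
    (h : ∀ S : L.Structure ℕ, @FirstOrder.Language.Theory.Model L ℕ S T →
      @IsWeaklyOMinimal L ℕ S lt ∧ @OrthogonalityPersists L ℕ S) :
    (∃ g : ℕ → L.Structure ℕ, ∀ S : L.Structure ℕ,
        @FirstOrder.Language.Theory.Model L ℕ S T →
          ∃ n : ℕ, Nonempty (@FirstOrder.Language.Equiv L ℕ ℕ S (g n))) ∨
    (∃ f : (ℕ → Bool) → L.Structure ℕ,
        (∀ x : ℕ → Bool, @FirstOrder.Language.Theory.Model L ℕ (f x) T) ∧
        (∀ x y : ℕ → Bool,
            Nonempty (@FirstOrder.Language.Equiv L ℕ ℕ (f x) (f y)) → x = y) ∧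
        (∀ (n : ℕ) (R : L.Relations n) (a : Fin n → ℕ),
            IsClopen {x : ℕ → Bool | @FirstOrder.Language.Structure.RelMap L ℕ (f x) n R a})) := by
  have : ∀ n, IsEmpty (L.Functions n) := hrel
  have : ∀ n, Countable (L.Relations n) := fun n =>
    Function.Injective.countable (β := L.Symbols) (f := fun R => Sum.inr ⟨n, R⟩)
      (fun R R' hR => by simpa using hR)
  have key := WOM.thm_NAM L T lt (fun S hS => by
    obtain ⟨⟨h1, h2, h3, h4⟩, h5⟩ := h S hS
    exact ⟨@WOM.WOMin.mk L ℕ S lt h1 h2 h3 h4, h5⟩)
  rcases key with ⟨g, hg⟩ | ⟨f, hf1, hf2, hf3⟩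
  · refine Or.inl ⟨g, fun S hS => ?_⟩
    obtain ⟨n, hn⟩ := hg S hS
    exact ⟨n, (Helper6.Str.nonempty_equiv_iff S (g n)).mpr hn⟩
  · exact Or.inr ⟨f, hf1,
      fun x y hxy => hf2 x y ((Helper6.Str.nonempty_equiv_iff _ _).mp hxy), hf3⟩

end Pool.Agent.Results.MP_5df2c5_lc.WeaklyOMinimal
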