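import Pool.Agent.WOM.StS5
import Pool.Agent.WOM.WMX

/-!
WOM: without adic types the standing hypotheses hold (helper80)
-/

set_option autoImplicit false

namespace Pool.Agent.WOM

open FirstOrder.Language Set
open scoped FirstOrder

theorem SWM_orb {L : FirstOrder.Language.{0, 0}} {U : Type} [L.Structure U]
    (hAUT : St_AUT L U) (hCPL : St_CPL L U) (hM : Mon L U) (A B : Set U) (c : U)
    (hA : A.Finite) (hB : B.Finite) (hAB : A ⊆ B) : CplE L A B c ↔ Orb L B c = Orb L A c := by
  have h1 := (hAUT hM).2.2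
  rw [hCPL hM A B c hA hB hAB]
  constructor
  · intro h
    apply Set.Subset.antisymm
    · rintro y ⟨g, hg, hy⟩
      exact ⟨g, fun b hb => hg b (hAB hb), hy⟩
    · intro y hy
      exact (h1 B c y hB).1 (h y ((h1 A c y hA).2 hy))
  · intro h y hy
    have h2 : y ∈ Orb L A c := (h1 A c y hA).1 hy
    rw [← h] at h2
    exact (h1 B c y hB).2 h2

theorem thm_SWM (hAUT : ∀ (L : FirstOrder.Language.{0, 0}) (U : Type) [L.Structure U], St_AUT L U)
    (hCPL : ∀ (L : FirstOrder.Language.{0, 0}) (U : Type) [L.Structure U], St_CPL L U)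
    (hSTN : St_STN) : St_SWM := by
  intro L _ U S lt hM hW hN hSc
  let _ := WMX_ord lt hW
  have hord : (∅ : Set U).Definable L {v : Fin 2 → U | v 0 < v 1} := by
    rw [Set.empty_definable_iff]
    refine ⟨lt, ?_⟩
    ext v
    have h1 : (![v 0, v 1] : Fin 2 → U) = v := by
      funext i
      fin_cases i <;> rfl
    show lt.Realize ![v 0, v 1] ↔ lt.Realize v
    rw [h1]
  have hfin : ∀ s : Set U, (univ : Set U).Definable₁ L s →
      ∃ (n : ℕ) (C : Fin n → Set U), (∀ i, (C i).OrdConnected) ∧ s = ⋃ i, C i := by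
    intro s hs
    obtain ⟨n, C, hC, hs'⟩ := hW.fin s hs
    refine ⟨n, C, fun i => ?_, hs'⟩
    refine ⟨fun x hx z hz y hy => ?_⟩
    rcases hy.1 with h1 | h1
    · rw [← h1]
      exact hx
    · rcases hy.2 with h2 | h2
      · rw [h2]
        exact hz
      · exact hC i x hx z hz y h1 h2
  have hWn : Wn L U := { mon := hM, ord := hord, fin := hfin }
  have key := hSTN L U hWn hSc (by
    intro A a a' c hA ha' hn
    have hc := (SWM_orb (hAUT L U) (hCPL L U) hM A (insert a A) c hA (hA.insert a)
      (Set.subset_insert _ _)).2 (not_not.1 hn)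
    have he := ((hAUT L U hM).2.2 A a a' hA).2 ha'
    exact (SWM_orb (hAUT L U) (hCPL L U) hM A (insert a' (insert a A)) c hA
      ((hA.insert a).insert a')
      ((Set.subset_insert _ _).trans (Set.subset_insert _ _))).1 (hN A a a' c hA he hc))
  exact ⟨WMX_ord lt hW, { mon := hM, ord := hord, fin := hfin, na := key }⟩

end Pool.Agent.WOM
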