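import Pool.Agent.WOM.StC

/-!
WOM: the weakly o-minimal countable saturated model without any orthogonality hypothesis, and the
basic statements for it (helper41; the statements and proofs are those of StC by helper85 for the
structure `Wm`, whose field `na` is not used).
-/

set_option autoImplicit false
set_option linter.unusedVariables false

namespace Pool.Agent.WOM

open FirstOrder.Language Set
open scoped FirstOrder

variable (L : FirstOrder.Language.{0, 0}) in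
variable (U : Type) in
/-- `U` is the countable saturated model of a weakly o-minimal theory. -/
structure Wn [L.Structure U] [LinearOrder U] : Prop where
  mon : Mon L U
  ord : (∅ : Set U).Definable L {v : Fin 2 → U | v 0 < v 1}
  fin : ∀ s : Set U, (univ : Set U).Definable₁ L s →
    ∃ (n : ℕ) (C : Fin n → Set U), (∀ i, (C i).OrdConnected) ∧ s = ⋃ i, C i

/-- [CNV] as in StC, for `Wn`. -/
def St_nCNV : Prop :=
  ∀ (L : FirstOrder.Language.{0, 0}) (U : Type) [L.Structure U] [LinearOrder U], Wn L U →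
    (∀ (σ : U ≃[L] U) (x y : U), x < y ↔ σ x < σ y) ∧
    ∀ (A : Set U) (x : U), A.Finite → (Orb L A x).OrdConnected ∧
      (Orb L A x ≠ {x} → ∀ (t : Bool), ∀ w ∈ Orb L A x, ∃ u ∈ Orb L A x, leS t w u ∧ u ≠ w)

/-- [EVD] as in StC, for `Wn`. -/
def St_nEVD : Prop :=
  ∀ (L : FirstOrder.Language.{0, 0}) (U : Type) [L.Structure U] [LinearOrder U], Wn L U →
    ∀ (Y s : Set U) (t : Bool), Y.Nonempty → (univ : Set U).Definable₁ L s →
      (∃ w ∈ Y, ∀ u ∈ Y, leS t w u → u ∈ s) ∨ (∃ w ∈ Y, ∀ u ∈ Y, leS t w u → u ∉ s)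

/-- [GEX] as in StC, for `Wn`. -/
def St_nGEX : Prop :=
  ∀ (L : FirstOrder.Language.{0, 0}) (U : Type) [L.Structure U] [LinearOrder U], Wn L U →
    ∀ (A B : Set U) (x : U) (t : Bool), A ⊆ B → B.Finite → (Ge L A x t B).Nonempty ∧
      ∀ u ∈ Ge L A x t B, Ge L A x t B = Orb L B u

/-- [GER] as in StC, for `Wn`. -/
def St_nGER : Prop :=
  ∀ (L : FirstOrder.Language.{0, 0}) (U : Type) [L.Structure U] [LinearOrder U], Wn L U →
    (∀ (A B C : Set U) (x u : U) (t : Bool), A ⊆ B → B ⊆ C → C.Finite → u ∈ Ge L A x t B →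
      Ge L B u t C = Ge L A x t C) ∧
    (∀ (A B C : Set U) (x : U) (t : Bool), A ⊆ B → B ⊆ C → C.Finite →
      Ge L A x t C ⊆ Ge L A x t B) ∧
    (∀ (A B C : Set U) (x : U) (t : Bool), A ⊆ B → B ⊆ C → C.Finite → Orb L B x = Orb L A x →
      Ge L B x t C = Ge L A x t C) ∧
    (∀ (A B : Set U) (x x' : U) (t : Bool), x' ∈ Orb L A x → Ge L A x' t B = Ge L A x t B) ∧
    (∀ (σ : U ≃[L] U) (A B : Set U) (x : U) (t : Bool),
      Ge L (σ '' A) (σ x) t (σ '' B) = σ '' Ge L A x t B) ∧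
    (∀ (A : Set U) (x : U) (t : Bool), Ge L A x t A = Orb L A x) ∧
    (∀ (A B : Set U) (x u v : U) (t : Bool), A ⊆ B → B.Finite → u ∈ Ge L A x t B →
      v ∈ Orb L A x → leS t u v → v ∈ Ge L A x t B) ∧
    (∀ (A B : Set U) (x u : U), A ⊆ B → B.Finite → u ∈ Ge L A x true B → u ∈ Ge L A x false B →
      Orb L B x = Orb L A x)

/-- [FFR] as in StC, for `Wn`. -/
def St_nFFR : Prop :=
  ∀ (L : FirstOrder.Language.{0, 0}) (U : Type) [L.Structure U] [LinearOrder U], Wn L U →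
    ∀ (A : Set U) (a b : U) (t : Bool), A.Finite → b ∈ Ge L A a t (insert a A) →
      a ∈ Ge L A b (!t) (insert b A)

/-- [TRA] as in StC, for `Wn`. -/
def St_nTRA : Prop :=
  ∀ (L : FirstOrder.Language.{0, 0}) (U : Type) [L.Structure U] [LinearOrder U], Wn L U →
    ∀ (A : Set U) (x y z : U), A.Finite → Nn L A x y → Nn L A y z → Nn L A x z

/-- [SMA] as in StC, for `Wn`. -/
def St_nSMA : Prop :=
  ∀ (L : FirstOrder.Language.{0, 0}) (U : Type) [L.Structure U] [LinearOrder U], Wn L U →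
    ∀ (A : Set U) (x z : U), A.Finite → Nn L A x z → ∃ e : Bool, Ori L A x z e ∧ Ori L A z x e ∧
      ∀ (B : Set U) (t : Bool), B.Finite → A ⊆ B → ∀ x' ∈ Ge L A x t B,
        ∀ z' ∈ Ge L A z (sg e t) B, Nn L B x' z'

/-- [SMB] as in StC, for `Wn`. -/
def St_nSMB : Prop :=
  ∀ (L : FirstOrder.Language.{0, 0}) (U : Type) [L.Structure U] [LinearOrder U], Wn L U →
    ∀ (A : Set U) (x z : U) (e t : Bool), A.Finite → Nn L A x z → Ori L A x z e → SD L A x t →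
      SD L A z (sg e t)

/-- [SDI] as in StC, for `Wn`. -/
def St_nSDI : Prop :=
  ∀ (L : FirstOrder.Language.{0, 0}) (U : Type) [L.Structure U] [LinearOrder U], Wn L U →
    (∀ (A : Set U) (x : U), A.Finite → (Isd L A x ↔ SD L A x true ∧ SD L A x false)) ∧
    (∀ (A B : Set U) (x u : U) (t : Bool), A ⊆ B → B.Finite → u ∈ Ge L A x t B →
      (SD L B u t ↔ SD L A x t)) ∧
    (∀ (A B : Set U) (x : U), A ⊆ B → B.Finite → Orb L B x = Orb L A x →
      (Isd L B x ↔ Isd L A x) ∧ ∀ t, (SD L B x t ↔ SD L A x t)) ∧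
    (∀ (σ : U ≃[L] U) (A : Set U) (x : U), (Isd L (σ '' A) (σ x) ↔ Isd L A x) ∧
      ∀ t, (SD L (σ '' A) (σ x) t ↔ SD L A x t)) ∧
    (∀ (A : Set U) (x : U) (t : Bool), A.Finite → ¬ SD L A x t → Orb L A x ≠ {x})

/-- [ISO] as in StC, for `Wn`. -/
def St_nISO : Prop :=
  ∀ (L : FirstOrder.Language.{0, 0}) (U : Type) [L.Structure U] [LinearOrder U], Wn L U →
    ∀ (A : Set U) (x z : U), A.Finite → Isd L A x → ¬ Isd L A z → ¬ Nn L A x z ∧ ¬ Nn L A z x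

/-- [FAR] as in StC, for `Wn`. -/
def St_nFAR : Prop :=
  ∀ (L : FirstOrder.Language.{0, 0}) (U : Type) [L.Structure U] [LinearOrder U], Wn L U →
    ∀ (A : Set U) (x : U), A.Finite → Orb L A x ≠ {x} →
      (∀ a ∈ Orb L A x, ∀ b ∈ Orb L A x, Far L A a b → a < b) ∧
      (∀ a ∈ Orb L A x, ∀ b ∈ Orb L A x, ∀ c ∈ Orb L A x, Far L A a b → b ≤ c → Far L A a c) ∧
      (∀ a ∈ Orb L A x, ∀ b ∈ Orb L A x, ∀ c ∈ Orb L A x, a ≤ b → Far L A b c → Far L A a c) ∧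
      (∀ a ∈ Orb L A x, ∀ b ∈ Orb L A x, ∀ c ∈ Orb L A x, Far L A a c → Far L A a b ∨ Far L A b c) ∧
      (∀ a b, ∀ σ : U ≃[L] U, Fx L A σ → (Far L A (σ a) (σ b) ↔ Far L A a b)) ∧
      (∀ a ∈ Orb L A x, ∀ B : Set U, A ⊆ B → B.Finite → a ∈ B →
        (∀ b ∈ Ge L A x true B, Far L A a b) ∧ (∀ b ∈ Ge L A x false B, Far L A b a)) ∧
      (∀ a ∈ Orb L A x, ∀ a' ∈ Orb L A x, ∀ b b', Far L A a b → Far L A a' b' →
        ∃ σ : U ≃[L] U, Fx L A σ ∧ σ a = a' ∧ σ b = b') ∧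
      (∀ a ∈ Orb L A x, ∀ b, Far L A a b → b ∈ Orb L A x ∧
        ∃ c ∈ Orb L A x, Far L A a c ∧ Far L A c b)

/-- [LTW] as in StC, for `Wn`. -/
def St_nLTW : Prop :=
  ∀ (L : FirstOrder.Language.{0, 0}) (U : Type) [L.Structure U] [LinearOrder U], Wn L U →
    ∀ (M G D : Set U), IsEl L M → G.OrdConnected → G ∩ M = ∅ → D.Finite → D ⊆ M →
      ∀ u₁ ∈ G, ∀ u₂ ∈ G, ∀ u₃ ∈ G, u₁ < u₂ → u₂ < u₃ → u₂ ∈ Orb L D u₁ ∨ u₃ ∈ Orb L D u₂

/-- [UNG] as in StC, for `Wn`. -/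
def St_nUNG : Prop :=
  ∀ (L : FirstOrder.Language.{0, 0}) (U : Type) [L.Structure U] [LinearOrder U], Wn L U →
    ∀ (M G D₀ : Set U), IsEl L M → G.OrdConnected → G.Nonempty → G ∩ M = ∅ → D₀.Finite →
      D₀ ⊆ M → (∀ u ∈ G, Orb L D₀ u ⊆ G) →
      ∃ D : Set U, D.Finite ∧ D₀ ⊆ D ∧ D ⊆ M ∧ (∀ u ∈ G, Unc L D u M) ∧
        ∀ t : Bool, ∃ w ∈ G, Sd t (Orb L D w) G ∧ (Orb L D w = G ∨ SD L D w (!t))

end Pool.Agent.WOM
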