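import Pool.Agent.WOM.StN
import Pool.Agent.WOM.DFX

/-!
WOM, SHIFT THEOREM (helper41): in the countable saturated model `U` of a scattered (`ScU`) weakly
o-minimal theory there are no shifts.  Frozen statements with proofs in the docstrings.

Conventions.  A CUT is an initial segment (`Low`) of `U`; any two cuts are comparable.  `u : U → Set U`
is a `B`-definable cut function if `DF L B u` and all `u x` are `Low`.  `g` is the shift, `a` its
starting point, `G n = Gn a g n`, `ε` = the union of the `G n`, `E` = the elements `x ≥ a` of `ε`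
(`EE a g x`).  BOUNDED (`Bd`) = contained in some `G n`.  EVENTUALLY (`Ev`) = for all `x` in
`E \ G m`, for some `m`.  `ext a u K` = left extension `u⁻(K)`, `exr a g u K` = right extension `u⁺(K)`,
`itr a u k K = (u⁻)^k (K)`.  Definability proofs: use the toolkit `Dx` of DFX.lean (see
`Pool/Agent/WOM/SDF.lean` for examples; it contains the closure lemmas for `ext`, `itr`, ..).
Every `St_X` may use all earlier statements (as hypotheses of `thm_X`) and the modules of StN.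
-/

set_option autoImplicit false
set_option linter.unusedVariables false

namespace Pool.Agent.WOM

open FirstOrder.Language Set
open scoped FirstOrder

section defs

variable {U : Type}

/-- initial segments (cuts) -/
def Low [LinearOrder U] (K : Set U) : Prop := ∀ x ∈ K, ∀ y, y ≤ x → y ∈ K

/-- `u` is a `B`-definable function with values in the subsets of `U` -/
def DF (L : FirstOrder.Language.{0, 0}) [L.Structure U] (B : Set U) (u : U → Set U) : Prop :=
  B.Definable L {w : Fin 2 → U | w 1 ∈ u (w 0)}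

/-- left extension of `u` to `K` -/
def ext [LinearOrder U] (a : U) (u : U → Set U) (K : Set U) : Set U :=
  {t | ∃ y, a ≤ y ∧ y ∈ K ∧ t ∈ u y}

/-- the cuts `G n` -/
def Gn [LinearOrder U] (a : U) (g : U → Set U) : ℕ → Set U
  | 0 => Iic a
  | n + 1 => ext a g (Gn a g n)

/-- the elements of `E` -/
def EE [LinearOrder U] (a : U) (g : U → Set U) (x : U) : Prop := a ≤ x ∧ ∃ n, x ∈ Gn a g n

/-- bounded sets -/
def Bd [LinearOrder U] (a : U) (g : U → Set U) (K : Set U) : Prop := ∃ n, K ⊆ Gn a g n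

/-- eventually -/
def Ev [LinearOrder U] (a : U) (g : U → Set U) (P : U → Prop) : Prop :=
  ∃ m, ∀ x, EE a g x → x ∉ Gn a g m → P x

/-- right extension of `u` to `K` -/
def exr [LinearOrder U] (a : U) (g : U → Set U) (u : U → Set U) (K : Set U) : Set U :=
  {t | ∀ z, EE a g z → z ∉ K → t ∈ u z}

/-- iterated left extension -/
def itr [LinearOrder U] (a : U) (u : U → Set U) (k : ℕ) (K : Set U) : Set U := (ext a u)^[k] K

/-- `f` dominates all iterates of `u` -/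
def Dom [LinearOrder U] (a : U) (g f u : U → Set U) : Prop :=
  ∀ k, Ev a g fun x => itr a u k (Iic x) ⊆ f x

/-- `u` moves all large bounded cuts -/
def Sp [LinearOrder U] (a : U) (g u : U → Set U) : Prop :=
  ∃ m, ∀ K, Low K → Gn a g m ⊆ K → Bd a g K → ¬ ext a u K ⊆ K

/-- bounded cuts which are fixed by the right extension of `n` -/
def Gd [LinearOrder U] (a : U) (g n : U → Set U) (K : Set U) : Prop :=
  Low K ∧ a ∈ K ∧ Bd a g K ∧ exr a g n K ⊆ K

/-- normalised shifts over `C` with the starting point `a` -/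
structure Shp (L : FirstOrder.Language.{0, 0}) [L.Structure U] [LinearOrder U] (C : Set U) (a : U)
    (g : U → Set U) : Prop where
  fin : C.Finite
  aC : a ∈ C
  df : DF L C g
  low : ∀ x, Low (g x)
  self : ∀ x, x ∈ g x
  mono : ∀ x y, a ≤ x → x ≤ y → g x ⊆ g y
  strict : ∀ n, ∃ y ∈ Gn a g (n + 1), y ∉ Gn a g n

/-- the class `M_B` of cut functions -/
structure MB (L : FirstOrder.Language.{0, 0}) [L.Structure U] [LinearOrder U] (a : U)
    (g : U → Set U) (B : Set U) (u : U → Set U) : Prop where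
  df : DF L B u
  low : ∀ x, Low (u x)
  self : ∀ x, x ∈ u x
  mono : ∀ x y, EE a g x → EE a g y → x ≤ y → u x ⊆ u y
  bd : ∀ x, EE a g x → Bd a g (u x)

/-- condition (DISC) for `n` and `B` -/
def Dn (L : FirstOrder.Language.{0, 0}) [L.Structure U] [LinearOrder U] (a : U)
    (g : U → Set U) (B : Set U) (n : U → Set U) : Prop :=
  MB L a g B n ∧ ¬ Sp a g n ∧ ∃ m, ∀ K, Gd a g n K → ¬ Gn a g m ⊆ K

/-- the limit type over `B` (immediately to the right of `ε`) -/
def QB (L : FirstOrder.Language.{0, 0}) [L.Structure U] [LinearOrder U] (a : U)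
    (g : U → Set U) (B : Set U) : Set U :=
  {x | ∀ D : Set U, B.Definable₁ L D → Ev a g (fun y => y ∈ D) → x ∈ D}

/-- `x` is far below `z` -/
def Fr [LinearOrder U] (a : U) (g : U → Set U) (x z : U) : Prop :=
  x < z ∧ ∀ n, z ∉ itr a g n (Iic x)

/-- `D` is obtained from `A` by adding finitely many elements, each isolated over the previous
ones -/
inductive Atm (L : FirstOrder.Language.{0, 0}) [L.Structure U] (A : Set U) : Set U → Prop
  | base : Atm L A A
  | step (D : Set U) (y : U) : Atm L A D → Isd L D y → Atm L A (insert y D)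

end defs

/-! ### Definability and cuts -/

/-- [SDF] definability (proved in `SDF.lean` by helper41).  1: parameters.  2: `ext` of a composition.
3: unions.  4: comparison.  5: iterates.  6: `{y | P y}` for the set `{x | u x ⊆ v x}`.  7: singletons.
8: fibres: a `Low` set definable over `x, A` is the value at `x` of an `A`-definable cut function `u`
with `y ∈ u y` for all `y` (if `x` is in the set). -/
def St_SDF : Prop :=
  ∀ (L : FirstOrder.Language.{0, 0}) (U : Type) [L.Structure U] [LinearOrder U],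
    (∅ : Set U).Definable L {v : Fin 2 → U | v 0 < v 1} →
    (∀ (A B : Set U) (u : U → Set U) (x : U), DF L A u → A ⊆ B → x ∈ B → B.Definable₁ L (u x)) ∧
    (∀ (A : Set U) (a : U) (u v : U → Set U), a ∈ A → DF L A u → DF L A v →
      DF L A (fun x => ext a u (v x))) ∧
    (∀ (A : Set U) (u v : U → Set U), DF L A u → DF L A v → DF L A (fun x => u x ∪ v x) ∧
      DF L A (fun x => u x ∩ v x) ∧ DF L A (fun x => Iic x)) ∧
    (∀ (A : Set U) (u v : U → Set U), DF L A u → DF L A v → A.Definable₁ L {x | u x ⊆ v x}) ∧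
    (∀ (A : Set U) (a : U) (u : U → Set U), a ∈ A → DF L A u → ∀ k,
      DF L A (fun x => itr a u k (Iic x)) ∧ A.Definable₁ L (Gn a u k)) ∧
    (∀ (A B : Set U) (u : U → Set U), DF L A u → A ⊆ B → DF L B u) ∧
    (∀ (A : Set U) (a : U), a ∈ A → A.Definable₁ L (Iic a) ∧ A.Definable₁ L ({a} : Set U)) ∧
    (∀ (A : Set U) (x : U) (K : Set U), (insert x A).Definable₁ L K → Low K → x ∈ K →
      ∃ u : U → Set U, DF L A u ∧ (∀ y, Low (u y)) ∧ (∀ y, y ∈ u y) ∧ u x = K)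

/-- [SCUT] types are separated by definable cuts.  PROOF.  `z < z'`, `z' ∉ P = Orb B z`.  ORB 7: `s`
`B`-definable, `z ∈ s`, `z' ∉ s`; `P ⊆ s` (ORB 6).  `K = {t | ∃ y, t ≤ y ∧ z ≤ y ∧ Icc z y ⊆ s}` (all `t` which are
`≤` an element of the convex component of `s` to the right of `z`).  `K` is `Low`, contains `z`, does
not contain `z'` (`z < z' ≤ y`, `Icc z y ⊆ s` would give `z' ∈ s`).  `K` is definable over `B, z` (toolkit
`Dx`).  `K` is invariant under the automorphisms `σ` over `B`: `σ z ∈ P`; `σ K = {t | ∃ y, t ≤ y ∧ σ z ≤ y ∧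
Icc (σ z) y ⊆ s}`, and this is `K` since the interval between `z` and `σ z` is contained in `P ⊆ s` (CNV:
orbits are convex).  ORB 8 (`∀ x ∈ K, Orb B x ⊆ K`): `K` is `B`-definable.  Second part (`z' < z`): pass
to the complement of the cut obtained for the pair `z' < z`, `z ∉ Orb B z'` (ORB 2). -/
def St_SCUT : Prop :=
  ∀ (L : FirstOrder.Language.{0, 0}) (U : Type) [L.Structure U] [LinearOrder U], Wn L U →
    ∀ (B : Set U) (z z' : U), B.Finite → z < z' → z' ∉ Orb L B z →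
      ∃ K : Set U, B.Definable₁ L K ∧ Low K ∧ z ∈ K ∧ z' ∉ K

/-! ### Elementary properties of shifts -/

/-- [SBAS] PROOF.  1: `G n ⊆ G (n+1)`: let `y ∈ G n`; if `a ≤ y` use `self`; if `y < a` use `g a ∋ y` (`self`,
`low`) and `a ∈ G n` (induction).  `Low`: from `low`.  2: `⊇`: take `y = x`; `⊆`: `mono`.  3: let `K` be `Low`, `a ∈ K`,
`ext a g K ⊆ K`: by induction `G n ⊆ K` for all `n`; if `K ⊆ G n` this contradicts `strict`.  `Bd`: monotony
of `ext` in `K`.  4: `strict` gives `y ∈ G (m+1) \ G m`; `a ≤ y` since `y ∉ G m ⊇ Iic a`.  5: `u = g` satisfies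
all conditions (`bd`: `x ∈ G n` gives `g x ⊆ G (n+1)`); `Sp`: 3 with `m = 0`.  6: totality of the order.
7: `K` is `Low` and not bounded: `G n ⊆ K` by 6.  8: if `ε` were definable over the finite set `B` then the
sets `{x ∈ ε | x ∉ G n}` (definable over `B ∪ C`, SDF 5) would be decreasing and nonempty (4), so by
saturation (`Wn.mon.sat`) have a common point, contradiction. -/
def St_SBAS : Prop :=
  ∀ (L : FirstOrder.Language.{0, 0}) (U : Type) [L.Structure U] [LinearOrder U], Wn L U →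
    ∀ (C : Set U) (a : U) (g : U → Set U), Shp L C a g →
      ((∀ n, Low (Gn a g n) ∧ a ∈ Gn a g n) ∧ ∀ m n, m ≤ n → Gn a g m ⊆ Gn a g n) ∧
      (∀ x, a ≤ x → ext a g (Iic x) = g x) ∧
      (∀ K, Low K → a ∈ K → Bd a g K → ¬ ext a g K ⊆ K ∧ Bd a g (ext a g K)) ∧
      (∀ m, ∃ x, EE a g x ∧ x ∉ Gn a g m) ∧
      (∀ B, C ⊆ B → MB L a g B g) ∧ Sp a g g ∧
      (∀ K K' : Set U, Low K → Low K' → K ⊆ K' ∨ K' ⊆ K) ∧
      (∀ K : Set U, Low K → ¬ Bd a g K → ∀ n, Gn a g n ⊆ K) ∧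
      (∀ B : Set U, B.Finite → ¬ B.Definable₁ L (⋃ n, Gn a g n))

/-- [SEXT] left extensions.  PROOF.  Elementary.  1: `Low`: unions of `Low` sets.  2: `y ∈ K`: if `a ≤ y` then
`y ∈ u y`; if `y < a` then `y ∈ u a` (`self`, `low`).  3: `Bd K`, `a ∈ K`, `K ⊆ G n`: take `n` with `G n ⊇ K` and `z ∈ E \ G n` (SBAS 4):
all `y ∈ K`, `a ≤ y` satisfy `EE y`, `y ≤ z`, so `u y ⊆ u z` (`mono`), which is bounded.  4: `⊇`: `y = x`, `⊆`: `mono`
(all `y ≤ x`, `a ≤ y` are in `E`).  5, 6: composition and union (definability: SDF; `self`, `mono`, `bd` from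
1-4; comparability for the union: `u x ∪ v x` is one of them).  7: induction with 5 (`itr (k+1) (Iic x) =
ext a u (itr k (Iic x))`, `Function.iterate_succ_apply'`).  8: clear.  9: if `K ⊆ K'` then
`ext a u K ⊆ ext a u K'`, induction. -/
def St_SEXT : Prop :=
  ∀ (L : FirstOrder.Language.{0, 0}) (U : Type) [L.Structure U] [LinearOrder U], Wn L U →
    ∀ (C : Set U) (a : U) (g : U → Set U), Shp L C a g → ∀ B : Set U, B.Finite → C ⊆ B →
      (∀ u : U → Set U, (∀ x, Low (u x)) → ∀ K, Low (ext a u K)) ∧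
      (∀ u : U → Set U, MB L a g B u → ∀ K, Low K → a ∈ K → K ⊆ ext a u K) ∧
      (∀ u : U → Set U, MB L a g B u → ∀ K, Low K → Bd a g K → Bd a g (ext a u K)) ∧
      (∀ u : U → Set U, MB L a g B u → ∀ x, EE a g x → ext a u (Iic x) = u x) ∧
      (∀ u v : U → Set U, MB L a g B u → MB L a g B v → MB L a g B (fun x => ext a u (v x) ∪ Iic x)) ∧
      (∀ u v : U → Set U, MB L a g B u → MB L a g B v → MB L a g B (fun x => u x ∪ v x)) ∧
      (∀ (u : U → Set U) (k : ℕ), MB L a g B u → MB L a g B (fun x => itr a u k (Iic x) ∪ Iic x)) ∧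
      (∀ (u : U → Set U) (K : ℕ → Set U), ext a u (⋃ i, K i) = ⋃ i, ext a u (K i)) ∧
      (∀ (u : U → Set U) (K K' : Set U) (k : ℕ), K ⊆ K' → itr a u k K ⊆ itr a u k K') ∧
      (∀ (u : U → Set U) (k : ℕ) (x : U), MB L a g B u → a ≤ x → Iic x ⊆ itr a u k (Iic x)) ∧
      (∀ (u : U → Set U) (k : ℕ) (K : Set U), MB L a g B u → Low K → a ∈ K → Bd a g K →
        Low (itr a u k K) ∧ a ∈ itr a u k K ∧ Bd a g (itr a u k K) ∧ K ⊆ itr a u k K ∧
        ∀ j ≤ k, itr a u j K ⊆ itr a u k K)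

/-- [SEV] eventual truth.  PROOF.  1: EVD of StN for `Y = {x | EE a g x}` and `t = true` (`Y` is nonempty; `D` is
definable over `univ`: `Definable.mono`); the point `w ∈ Y` is in some `G m`; `x ∈ E \ G m` implies `w ≤ x`.
2: both cannot hold: SBAS 4 for the maximum of the thresholds.  3: 1 for the set of SDF 4.  4: finitely
many / two eventual statements: maximum of the thresholds (`G m ⊆ G n` for `m ≤ n`). -/
def St_SEV : Prop :=
  ∀ (L : FirstOrder.Language.{0, 0}) (U : Type) [L.Structure U] [LinearOrder U], Wn L U →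
    ∀ (C : Set U) (a : U) (g : U → Set U), Shp L C a g → ∀ B : Set U, B.Finite →
      (∀ D : Set U, B.Definable₁ L D → Ev a g (fun x => x ∈ D) ∨ Ev a g (fun x => x ∉ D)) ∧
      (∀ P : U → Prop, Ev a g P → ¬ Ev a g (fun x => ¬ P x)) ∧
      (∀ u v : U → Set U, DF L B u → DF L B v → Ev a g (fun x => u x ⊆ v x) ∨
        Ev a g (fun x => ¬ u x ⊆ v x)) ∧
      (∀ P Q : U → Prop, Ev a g P → Ev a g Q → Ev a g (fun x => P x ∧ Q x)) ∧
      (∀ P Q : U → Prop, (∀ x, P x → Q x) → Ev a g P → Ev a g Q)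

/-- [SMOD] modification of a function which has the properties only eventually.  PROOF.  `u' x = Iic x`
for `x ∈ G m`, `u' x = u x` otherwise (definable: SDF 5 and the toolkit).  `mono`: for `x ∈ G m`, `y ∉ G m`:
`Iic x ⊆ Iic y ⊆ u y`. -/
def St_SMOD : Prop :=
  ∀ (L : FirstOrder.Language.{0, 0}) (U : Type) [L.Structure U] [LinearOrder U], Wn L U →
    ∀ (C : Set U) (a : U) (g : U → Set U), Shp L C a g → ∀ B : Set U, B.Finite → C ⊆ B →
      ∀ u : U → Set U, DF L B u → (∀ x, Low (u x)) → (∀ x, x ∈ u x) → ∀ m : ℕ,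
        (∀ x y, EE a g x → EE a g y → x ∉ Gn a g m → x ≤ y → u x ⊆ u y) →
        (∀ x, EE a g x → x ∉ Gn a g m → Bd a g (u x)) →
        ∃ u' : U → Set U, MB L a g B u' ∧ ∀ x, EE a g x → x ∉ Gn a g m → u' x = u x

/-- [SIT] iterates of `Sp` functions are cofinal.  PROOF.  `m` as in `Sp`, take `m' = m`.  `K_ω = ⋃ k, itr u k K` is
`Low`, contains `G m`, and `ext a u K_ω ⊆ K_ω` (SEXT 8).  By `Sp` it is not bounded.  So it is not contained in
`G n`: some `itr u k K ⊄ G n`, and `G n ⊆ itr u k K` by comparability (SBAS 7). -/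
def St_SIT : Prop :=
  ∀ (L : FirstOrder.Language.{0, 0}) (U : Type) [L.Structure U] [LinearOrder U], Wn L U →
    ∀ (C : Set U) (a : U) (g : U → Set U), Shp L C a g → ∀ B : Set U, B.Finite → C ⊆ B →
      ∀ u : U → Set U, MB L a g B u → Sp a g u →
        ∃ m, ∀ K, Low K → Gn a g m ⊆ K → Bd a g K → ∀ n, ∃ k, Gn a g n ⊆ itr a u k K

/-- [SCA] comparison of `Sp` and non-`Sp` functions.  PROOF.  1: let `m` be a threshold for `Sp u'` and for the
inclusion, `m₁ = m + 1`.  Let `K ⊇ G m₁` be `Low` and bounded, `t ∈ ext a u' K`, `t ∉ K`: `t ∈ u' y`, `a ≤ y ∈ K` (so `EE y`).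
Take `y₁ ∈ G (m+1) \ G m ⊆ K` (`strict`), `y₂ = max y y₁ ∈ K`: `t ∈ u' y ⊆ u' y₂ ⊆ u y₂` since `y₂ ∉ G m`.  So
`t ∈ ext a u K`.  2: otherwise (SEV 3) eventually `¬ n x ⊆ d x`, so `d x ⊆ n x` (SBAS 7), and 1 gives `Sp n`.
3: by SEV 3 eventually `n x ⊆ n' x` or eventually `n' x ⊆ n x`; in the first case `n x ∪ n' x ⊆ n' x` eventually
and 1 gives `Sp n'` if `Sp (n ∪ n')`. -/
def St_SCA : Prop :=
  ∀ (L : FirstOrder.Language.{0, 0}) (U : Type) [L.Structure U] [LinearOrder U], Wn L U →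
    ∀ (C : Set U) (a : U) (g : U → Set U), Shp L C a g → ∀ B : Set U, B.Finite → C ⊆ B →
      (∀ u u' : U → Set U, MB L a g B u → MB L a g B u' → Sp a g u' →
        Ev a g (fun x => u' x ⊆ u x) → Sp a g u) ∧
      (∀ n d : U → Set U, MB L a g B n → MB L a g B d → ¬ Sp a g n → Sp a g d →
        Ev a g (fun x => n x ⊆ d x)) ∧
      (∀ n n' : U → Set U, MB L a g B n → MB L a g B n' → ¬ Sp a g n → ¬ Sp a g n' →
        ¬ Sp a g (fun x => n x ∪ n' x))

/-- [SEXR] right extensions.  PROOF.  Elementary (`u ∈ MB`; `K` is `Low`, `a ∈ K`, bounded).  1: `Low`: intersection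
of `Low` sets (there is `z ∈ E \ K`, SBAS 4).  `K ⊆ exr K`: for `z ∉ K`, `K ⊆ Iic z ⊆ u z`.  Bounded: `exr K ⊆ u z` for one
`z ∈ E \ K`.  2: monotone in `K` (fewer `z`).  3: (definable form) let `z₀ ∈ E \ K`; there is `z₁ ∈ ext a g K \ K` (SBAS 3),
`a ≤ z₁`, `z₁ ∈ E`; if `z₀ ∈ ext a g K` take `z₀` itself, otherwise `z₁ ≤ z₀` and `u z₁ ⊆ u z₀`.  4: `y ∈ E \ K`: `exr K ⊆ u y` by
definition.  5: `g` itself: `K ⊇ G 0`: for `z ∈ ext a g K \ K` (exists), `exr K ⊆ g z ⊆ ext a g (ext a g K)`.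
6: iterates of `exr` of `g`: `exr a g g K ⊇ ext a g K` (for `y ∈ K`, `z ∉ K`: `g y ⊆ g z`), so `(exr)^[k] K ⊇ itr a g k K` and they
are cofinal. -/
def St_SEXR : Prop :=
  ∀ (L : FirstOrder.Language.{0, 0}) (U : Type) [L.Structure U] [LinearOrder U], Wn L U →
    ∀ (C : Set U) (a : U) (g : U → Set U), Shp L C a g → ∀ B : Set U, B.Finite → C ⊆ B →
      (∀ (u : U → Set U) (K : Set U), MB L a g B u → Low K → a ∈ K → Bd a g K →
        Low (exr a g u K) ∧ K ⊆ exr a g u K ∧ Bd a g (exr a g u K)) ∧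
      (∀ (u : U → Set U) (K K' : Set U), K ⊆ K' → exr a g u K ⊆ exr a g u K') ∧
      (∀ (u : U → Set U) (K : Set U), MB L a g B u → Low K → a ∈ K → Bd a g K →
        exr a g u K = {t | ∀ z, a ≤ z → z ∈ ext a g K → z ∉ K → t ∈ u z}) ∧
      (∀ (u : U → Set U) (K : Set U) (y : U), EE a g y → y ∉ K → exr a g u K ⊆ u y) ∧
      (∀ u : U → Set U, MB L a g B u → Sp a g u → ∃ m, ∀ K, Low K → Gn a g m ⊆ K → Bd a g K →
        exr a g u K ⊆ ext a u (ext a u K)) ∧
      (∀ (u : U → Set U) (K : Set U), MB L a g B u → Low K → a ∈ K → Bd a g K →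
        ext a u K ⊆ exr a g u K)

/-- [SLP] Lemma P.  PROOF.  Suppose not: by SEV (the set of `x` with `ext a f (u x) ⊆ ext a u (f x)` is `B`-definable, SDF)
eventually `ext a f (u x) ⊆ ext a u (f x)`, say for `x ∈ E \ G m`, `m` also as in SIT for `u`.  Take `x₀ ∈ E \ G m`,
`c_0 = Iic x₀`, `c_(k+1) = ext a u c_k`; the `c_k` are increasing and cofinal (SIT).  (1) `ext a f c_(k+1) ⊆
ext a u (ext a f c_k)`: let `t ∈ f y`, `a ≤ y ∈ u x`, `a ≤ x ∈ c_k`; WLOG `x₀ ≤ x` (replace `x` by `max x x₀ ∈ c_k`; `mono`), so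
`x ∉ G m` and `t ∈ ext a f (u x) ⊆ ext a u (f x) ⊆ ext a u (ext a f c_k)`.  (2) Let `ext a f c_0 ⊆ c_j` (bounded, cofinality).
By (1) and monotony `ext a f c_k ⊆ itr a u k (ext a f c_0) ⊆ c_(k+j)`.  (3) For `y ∈ c_(k+1) \ c_k`: `f y ⊆ ext a f c_(k+1) ⊆
c_(k+1+j) = itr a u (j+1) c_k ⊆ itr a u (j+1) (Iic y)`, strictly contained in `itr a u (j+2) (Iic y)` by `Sp` (`Iic y ⊇ G m`).
So for all `y ∈ E \ c_0` not `itr a u (j+2) (Iic y) ⊆ f y`; contradiction to `Dom` for `k = j+2` (SEV 2). -/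
def St_SLP : Prop :=
  ∀ (L : FirstOrder.Language.{0, 0}) (U : Type) [L.Structure U] [LinearOrder U], Wn L U →
    ∀ (C : Set U) (a : U) (g : U → Set U), Shp L C a g → ∀ B : Set U, B.Finite → C ⊆ B →
      ∀ u f : U → Set U, MB L a g B u → Sp a g u → MB L a g B f → Dom a g f u →
        Ev a g (fun x => ¬ ext a f (u x) ⊆ ext a u (f x))

/-! ### The discrete case -/

/-- [SDA] (DISC), first part.  PROOF.  Let `m` be as in `Dn` and suppose not: by SEV 1 eventually `¬ ext a n (n x) ⊆ n x`, say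
for `x ∈ E \ G M`, `m ≤ M`.  Take `x ∈ E \ G M`, `k_j = itr a n j (Iic x)` (increasing, `k_0 = Iic x`, `k_1 = n x` by SEXT 4).
(1) `¬ k_(j+1) ⊆ k_j` for all `j`.  Otherwise take the least such `j`.  `j = 0`: `n x = Iic x`, so `ext a n (n x) = n x`,
contradiction.  `j ≥ 1`: take `x' ∈ k_j \ k_(j-1)`; `x < x'`, `x' ∈ E` (bounded), `x' ∉ G M`.  `n x' ⊆ ext a n k_j = k_(j+1) ⊆ k_j`
and `n x' ⊇ ext a n k_(j-1) = k_j` (all `y ∈ k_(j-1)` are `≤ x'`).  So `n x' = k_j`, `ext a n (n x') = k_(j+1) ⊆ n x'`,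
contradiction.  (2) `K = ⋃ k_j` is `Low`, `a ∈ K`, `G m ⊆ K` (since `x ∈ K`, `x ∉ G m`), and bounded: by `¬ Sp n` there is a
bounded `Low` `K''` with `G i ⊆ K''` (`x ∈ G i`) and `ext a n K'' ⊆ K''`, so all `k_j ⊆ K''`.  By the choice of `m`, `K` is not `Gd`:
there is `y ∈ exr a g n K`, `y ∉ K`.  (3) Saturation: the sets `{z | z ≤ y ∧ z ∉ k_j ∧ y ∉ n z}` (definable over `B, x, y`) are
decreasing in `j` and nonempty: take `z ∈ k_(j+1) \ k_j`; `a ≤ z`, `z ≤ y` (`y ∉ K`), `n z ⊆ k_(j+2) ⊆ K` does not contain `y`.  So there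
is `z ≤ y`, `z ∉ K`, `y ∉ n z`.  `y` is in `ε` (`exr K` is bounded), so `z ∈ E \ K` and `y ∈ n z` by the definition of
`exr`: contradiction. -/
def St_SDA : Prop :=
  ∀ (L : FirstOrder.Language.{0, 0}) (U : Type) [L.Structure U] [LinearOrder U], Wn L U →
    ∀ (C : Set U) (a : U) (g : U → Set U), Shp L C a g → ∀ B : Set U, B.Finite → C ⊆ B →
      ∀ n : U → Set U, Dn L a g B n → Ev a g (fun x => ext a n (n x) ⊆ n x)

/-- [SDB] (DISC), second part.  `K_0 = n x₀`, `K_(i+1) = exr a g n K_i`.  PROOF.  `m` as in `Dn`, `M₁ ≥ m` a threshold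
for SDA.  FACT A.  Let `K` be `Low`, `a ∈ K`, bounded, `G M₁ ⊆ K`, `ext a n K ⊆ K`, `K¹ = exr a g n K`.  Then `¬ K¹ ⊆ K`,
`ext a n K¹ ⊆ K¹`, `K¹` is bounded, and `n y = K¹` for all `y ∈ K¹ \ K`.  Proof: `K` is not `Gd`, so `¬ K¹ ⊆ K`.  Let `y ∈ K¹ \ K`
(so `y ∈ E`, `y ∉ G M₁`).  `K¹ ⊆ n y` (SEXR 4).  `n y ⊆ K¹`: let `z ∈ E \ K`; if `y ≤ z` then `n y ⊆ n z`; if `z < y` then `y ∈ K¹ ⊆ n z`,
so `n y ⊆ ext a n (n z) ⊆ n z`.  `ext a n K¹`: `t ∈ n w`, `w ∈ K¹`: if `w ∈ K` then `t ∈ ext a n K ⊆ K`; otherwise `n w = K¹`. []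
Take `x₀ ∉ G M₁`: `K_0 = n x₀` satisfies the hypotheses of Fact A (`G M₁ ⊆ Iic x₀ ⊆ n x₀`), so do all `K_i`; this gives
1 and 3.  COFINALITY.  Let `D = {y | ∃ t, a ≤ t ∧ t < y ∧ y ∉ n t ∧ y ∈ exr a g n (n t)}`, with `exr` in the definable
form of SEXR 3 (so `D` is `B`-definable).  All `y ∈ K_(i+1) \ K_i`, `i ≥ 1`, are in `D` (take `t ∈ K_i \ K_(i-1)`, `n t = K_i`).  Since
`x₀` can be arbitrarily late, `D` is not eventually false, so it is eventually true (SEV): threshold `M₂`.  Let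
`M = max M₁ M₂`, `x₀ ∈ E \ G M`.  Suppose `¬ G N ⊆ K_i` for all `i`: all `K_i ⊆ G N`.  `K_ω = ⋃ K_i` satisfies the hypotheses of
Fact A (`ext a n K_ω ⊆ K_ω`).  So there is `y ∈ exr a g n K_ω`, `y ∉ K_ω`, `y ∈ E \ G M`; `y ∈ D`, let `t` be as in `D`.  If `t ∉ K_ω`
then `y ∈ n t` (definition of `exr K_ω`), contradiction.  If `t ∈ K_i` then `n t ⊆ ext a n K_i ⊆ K_i`, `y ∈ exr (n t) ⊆
exr K_i = K_(i+1) ⊆ K_ω`, contradiction. -/
def St_SDB : Prop :=
  ∀ (L : FirstOrder.Language.{0, 0}) (U : Type) [L.Structure U] [LinearOrder U], Wn L U →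
    ∀ (C : Set U) (a : U) (g : U → Set U), Shp L C a g → ∀ B : Set U, B.Finite → C ⊆ B →
      ∀ n : U → Set U, Dn L a g B n → ∃ M, ∀ x₀, EE a g x₀ → x₀ ∉ Gn a g M → ∃ K : ℕ → Set U,
        K 0 = n x₀ ∧ (∀ i, Low (K i) ∧ Bd a g (K i) ∧ K i ⊆ K (i + 1) ∧ ¬ K (i + 1) ⊆ K i ∧
          ext a n (K i) ⊆ K i ∧ K (i + 1) = exr a g n (K i) ∧
          ∀ x ∈ K (i + 1), x ∉ K i → n x = K (i + 1)) ∧ ∀ N, ∃ i, Gn a g N ⊆ K i

/-- [SDC] in the discrete case nothing dominates.  PROOF.  Fix `x₀` late and `K` as in SDB.  For `x ∈ E` let `|x|` be the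
least `i` with `x ∈ K_i`, for a bounded cut `V` let `|V|` be the least `i` with `V ⊆ K_i`.  For `x ∈ E \ K_0`: `n x = K_|x|`.
(1) For every `k` eventually `|f x| ≥ |x| + k`.  [By SCA 2 eventually `n x ⊆ u x`, so `K_|x| ⊆ u x`; for `i` large
`ext a u K_i` contains some `z ∉ K_i` (`Sp u`), so `ext a u (ext a u K_i) ⊇ u z ⊇ n z = K_|z| ⊇ K_(i+1)`.  So
`itr a u (1+2k) (Iic x) ⊇ K_(|x|+k)` eventually, and `Dom`; finally, if `f x ⊇ K_(|x|+k)` then `|f x| ≥ |x| + k`.]
(2) `A = {x | ∃ x', x < x' ∧ x' ∈ n x ∧ ∃ y ∈ f x', f x ⊆ n y ∧ ¬ f x' ⊆ n y}` is `B`-definable; for `x` late and `x' > x`,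
`x' ∈ n x`: the last condition says `|f x'| > |f x|`.  [If `|f x'| > |f x| = i` then `¬ f x' ⊆ K_i`, so `K_i ⊆ f x'`; take
`y ∈ K_i \ K_(i-1)`, `n y = K_i`.  Conversely `y ∉ K_0` since `n y ⊆ K_0` for `y ∈ K_0` and `¬ f x ⊆ K_0`; so `n y = K_|y|` and
`|f x| ≤ |y| < |f x'|`.]  For no late `i` all `x ∈ K_i \ K_(i-1)` are in `A`: otherwise there is a chain `x < x' < x'' < ..` in
`K_i \ K_(i-1)` (`x' ∈ n x = K_i`) with `|f x| < |f x'| < ..`, but all are `≤ |f z|` for `z ∈ K_(i+1) \ K_i`.  So `A` is not eventually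
true, hence eventually false: for late `x < x'` both in `K_i \ K_(i-1)`: `|f x'| = |f x|` (`≥` by `mono`).  So `|f x| = φ |x|` for
all `x` with `|x| ≥ i₀`, `φ` nondecreasing.  (3) `Y = {y | ∃ x, a ≤ x ∧ f x ⊆ n y ∧ ∀ t, a ≤ t → t < y → y ∉ n t → ¬ f x ⊆ n t}` is
`B`-definable; for late `y` it says: there is `x ∈ E` with `|f x| = |y|`.  [`f x ⊆ n y` is bounded, so `x ∈ E`; `|f x| ≤ |y|`;
`t ∈ K_(|y|-1) \ K_(|y|-2)` satisfies `t < y`, `y ∉ n t = K_(|y|-1)`, so `|f x| ≥ |y|`.  Conversely for `t < y`, `y ∉ n t`: `n t ⊆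
K_(|y|-1)`.]  Taking `y` with `|y| = |f x|`, `x` late, `Y` holds arbitrarily late, so eventually: for every large `j`
there is `x ∈ E` with `|f x| = j`; `|x| ≥ i₀` if `j` is large (`f` is bounded on `K_(i₀)`).  So `φ` takes all large values;
as it is nondecreasing, `φ (i+1) ≤ φ i + 1` for large `i`, so `φ i - i` is bounded above: contradiction to (1). -/
def St_SDC : Prop :=
  ∀ (L : FirstOrder.Language.{0, 0}) (U : Type) [L.Structure U] [LinearOrder U], Wn L U →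
    ∀ (C : Set U) (a : U) (g : U → Set U), Shp L C a g → ∀ B : Set U, B.Finite → C ⊆ B →
      ∀ n u f : U → Set U, Dn L a g B n → MB L a g B u → Sp a g u → MB L a g B f → ¬ Dom a g f u

end Pool.Agent.WOM
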