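import Pool.Agent.WOM.StS

/-!
WOM, SHIFT THEOREM, part 2 (helper41): HALVING.  Conventions: StS.lean.  Here `u` is a function of
class `Sp` (in the application an iterated half of the shift `g`) and `f` dominates all its iterates.
`E`, bounded, eventually always refer to the shift `g`.  All cuts which occur are `Low`, so of two
cuts one is contained in the other (SBAS 7); `¬ K ⊆ K'` implies `K' ⊆ K`.
-/

set_option autoImplicit false
set_option linter.unusedVariables false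

namespace Pool.Agent.WOM

open FirstOrder.Language Set
open scoped FirstOrder

section defs

variable {U : Type} [LinearOrder U]

/-- the function `v` -/
def vv (a : U) (f u : U → Set U) (x : U) : Set U :=
  {t | t ≤ x ∨ ∃ z, t ≤ z ∧ a ≤ z ∧ z ∈ ext a u (f x) ∧ f z ⊆ ext a u (f x)}

/-- the function `w` -/
def ww (a : U) (f u : U → Set U) (x : U) : Set U :=
  {t | t ≤ x ∨ ∃ z, t ≤ z ∧ a ≤ z ∧ z ∈ ext a f (u x) ∧ ¬ ext a f (u x) ⊆ ext a u (f z)}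

/-- the flat pieces of `u` -/
def nF (a : U) (u : U → Set U) (x : U) : Set U :=
  {t | t ≤ x ∨ ∃ z, t ≤ z ∧ a ≤ z ∧ z ∈ u x ∧ u z ⊆ u x}

/-- the jumps of `u` -/
def nJ (a : U) (u : U → Set U) (y : U) : Set U := {t | ∀ z, a ≤ z → z ≤ y → y ∈ u z → t ∈ u z}

end defs

/-- [SHA] the functions are in the class.  PROOF.  Definability: toolkit `Dx` and the lemmas `df_..` of
`SDF.lean`.  `Low`, self: clear.  `bd`: SEXT 3, 4 (`nJ y ⊆ u y`: take `z = y`).  `mono` (let `x ≤ y` be in `E`): `vv`,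
`nF`: all sets increase.  `ww`: `ext a f (u x) ⊆ ext a f (u y)`, and if `¬ ext a f (u x) ⊆ K` then `¬ ext a f (u y) ⊆ K`.
`nJ`: let `t ∈ nJ x`, `a ≤ z ≤ y`, `y ∈ u z`: if `z ≤ x` then `x ∈ u z` (`x ≤ y`), so `t ∈ u z`; if `x < z` then `t ∈ u x ⊆ u z`.
`¬ Sp`: first `ext a (nF a u) (nF a u x) ⊆ nF a u x` for `x ∈ E`: let `t ∈ nF z'`, `a ≤ z' ∈ nF x`.  There is `z ≥ z'` (`z ∈ E`) with
`z = x` or `z ∈ u x`, `u z ⊆ u x`; in both cases `z ∈ u x`, `u z ⊆ u x`.  `t ∈ nF z` (`mono`): `t ≤ z`, or `t ≤ s ∈ u z ⊆ u x`, `u s ⊆ u z ⊆ u x`; so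
`t ∈ nF x`.  Also `ext a (nJ a u) (nJ a u y) ⊆ nJ a u y`: let `t ∈ nJ y'`, `a ≤ y' ∈ nJ y`, and let `a ≤ z ≤ y`, `y ∈ u z`; so
`y' ∈ u z`; if `z ≤ y'` then `t ∈ u z`; if `y' < z` then `t ∈ nJ y' ⊆ u y' ⊆ u z`.  Now for every `m` take `x ∈ E \ G m` (SBAS 4): the cut
`K = nF a u x` (`nJ a u x`) contains `G m`, is bounded, `ext a _ K ⊆ K`. -/
def St_SHA : Prop :=
  ∀ (L : FirstOrder.Language.{0, 0}) (U : Type) [L.Structure U] [LinearOrder U], Wn L U →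
    ∀ (C : Set U) (a : U) (g : U → Set U), Shp L C a g → ∀ B : Set U, B.Finite → C ⊆ B →
      ∀ u f : U → Set U, MB L a g B u → MB L a g B f →
        MB L a g B (vv a f u) ∧ MB L a g B (ww a f u) ∧
        (MB L a g B (nF a u) ∧ ¬ Sp a g (nF a u)) ∧ MB L a g B (nJ a u) ∧ ¬ Sp a g (nJ a u)

/-- [SHB] `v` after `w` is below `u`.  PROOF.  By SLP eventually `¬ ext a f (u x) ⊆ ext a u (f x)`; let `x` be that
late.  `t ∈ ext a v (w x)`: `t ∈ v y`, `a ≤ y ∈ w x`.  There is `z ≥ y`, `a ≤ z`, `z ∈ ext a f (u x)` (so `z ∈ E`) with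
`¬ ext a f (u x) ⊆ ext a u (f z)` (if `y ≤ x` take `z = x`; `x ∈ ext a f (u x)`).  By `mono` (SHA) `t ∈ v z`: there is `z' ≥ t`, `a ≤ z'`,
`z' ∈ ext a u (f z)`, `f z' ⊆ ext a u (f z)` (if `t ≤ z` take `z' = z`: `z ∈ f z ⊆ ext a u (f z)`).  If `z' ∉ u x` then all `y' ∈ u x`,
`a ≤ y'`, satisfy `y' < z'`, `f y' ⊆ f z'`, so `ext a f (u x) ⊆ f z' ⊆ ext a u (f z)`: contradiction.  So `z' ∈ u x` and `t ∈ u x`. -/
def St_SHB : Prop :=
  ∀ (L : FirstOrder.Language.{0, 0}) (U : Type) [L.Structure U] [LinearOrder U], Wn L U →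
    ∀ (C : Set U) (a : U) (g : U → Set U), Shp L C a g → ∀ B : Set U, B.Finite → C ⊆ B →
      ∀ u f : U → Set U, MB L a g B u → Sp a g u → MB L a g B f → Dom a g f u →
        Ev a g (fun x => ext a (vv a f u) (ww a f u x) ⊆ u x)

/-- [SHC] `v` is in `Sp` if `v` does not satisfy (DISC).  PROOF.  Otherwise (MB by SHA) for every `m` there is
`K`, `Gd a g (vv a f u) K`, `G m ⊆ K`.  Let `m` be a threshold for `Sp u`, `c` such a `K`.  For `y ∈ E \ c`: `y ∉ exr a g v c`, so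
there is `z ∈ E \ c` with `y ∉ v z`: so `z < y`, and (take `z' = y` in the definition of `v z`) `y ∉ ext a u (f z)` or
`¬ f y ⊆ ext a u (f z)`; in both cases `ext a u (f z) ⊆ f y` (in the first case `ext a u (f z) ⊆ Iic y ⊆ f y`).  `exr a g f c ⊆ f z`,
so `ext a u (exr a g f c) ⊆ f y`.  As this holds for all `y ∈ E \ c`: `ext a u (exr a g f c) ⊆ exr a g f c`, and `exr a g f c` is
`Low`, bounded, contains `c ⊇ G m` (SEXR 1): contradiction. -/
def St_SHC : Prop :=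
  ∀ (L : FirstOrder.Language.{0, 0}) (U : Type) [L.Structure U] [LinearOrder U], Wn L U →
    ∀ (C : Set U) (a : U) (g : U → Set U), Shp L C a g → ∀ B : Set U, B.Finite → C ⊆ B →
      ∀ u f : U → Set U, MB L a g B u → Sp a g u → MB L a g B f → ¬ Dn L a g B (vv a f u) →
        Sp a g (vv a f u)

/-- [SHD] if `v` and `w` are in `Sp` then there is a half of `u`.  PROOF.  SEV 3: eventually `v x ⊆ w x` (then let `d = v`)
or eventually `w x ⊆ v x` (let `d = w`).  1: for `x` late: `itr a d 2 (Iic x) = ext a d (d x)` (SEXT 4) `⊆ ext a v (w x) ⊆ u x`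
(SHB).  [`d = v`: clear.  `d = w`: `y ∈ w x`: `w y ⊆ w (max y x) ⊆ v (max y x)`, `max y x ∈ w x`.]  2: let `m` be a threshold of 1.
For bounded `Low` sets `K` with `G (m+1) ⊆ K`: `ext a d (ext a d K) ⊆ ext a u K` [`t ∈ d y`, `y ∈ d y'`, `y' ∈ K`; replace `y'` by
`y'' = max y' y₁ ∈ K`, `y₁ ∈ G (m+1) \ G m`; `t ∈ ext a d (d y'') ⊆ u y''`].  By induction `itr a d (2*k) K ⊆ itr a u k K`.  So for
`x` late `itr a d k (Iic x) ⊆ itr a d (2*k) (Iic x) ⊆ itr a u k (Iic x) ⊆ f x`. -/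
def St_SHD : Prop :=
  ∀ (L : FirstOrder.Language.{0, 0}) (U : Type) [L.Structure U] [LinearOrder U], Wn L U →
    ∀ (C : Set U) (a : U) (g : U → Set U), Shp L C a g → ∀ B : Set U, B.Finite → C ⊆ B →
      ∀ u f : U → Set U, MB L a g B u → Sp a g u → MB L a g B f → Dom a g f u →
        Sp a g (vv a f u) → Sp a g (ww a f u) →
        ∃ d : U → Set U, MB L a g B d ∧ Sp a g d ∧ Dom a g f d ∧
          ∃ m, ∀ K, Low K → Gn a g m ⊆ K → Bd a g K → ext a d (ext a d K) ⊆ ext a u K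

/-- [SHE] fixed cuts of `w` and of the flat pieces.  PROOF.  `c` is `Low`, bounded, `a ∈ c`.  1: `z ∉ exr a g (nF a u) c`, so
there is `z' ∈ E \ c` with `z ∉ nF a u z'`.  `z ∉ u z'` or `¬ u z ⊆ u z'`; in the first case also `¬ u z ⊆ u z'` (`z ∈ u z`).  Let
`t ∈ u z`, `t ∉ u z'`: `t ∈ E`, `t ∉ exr a g u c` (`exr a g u c ⊆ u z'`).  2: let `b ∈ E`, `b ∉ exr a g f c`; to show: `exr a g f (exr a g u c) ⊆ u b`.
There is `y ∈ E \ c` with `b ∉ f y`; `ext a u (f y) ⊆ u b`.  `y ∉ exr a g w c`: there is `z ∈ E \ c` with `y ∉ w z`: so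
`y ∉ ext a f (u z)` or `ext a f (u z) ⊆ ext a u (f y)`; in the first case `ext a f (u z) ⊆ Iic y ⊆ f y ⊆ ext a u (f y)`.  Let `t` be as in 1.
`exr a g f (exr a g u c) ⊆ f t ⊆ ext a f (u z) ⊆ ext a u (f y) ⊆ u b`. -/
def St_SHE : Prop :=
  ∀ (L : FirstOrder.Language.{0, 0}) (U : Type) [L.Structure U] [LinearOrder U], Wn L U →
    ∀ (C : Set U) (a : U) (g : U → Set U), Shp L C a g → ∀ B : Set U, B.Finite → C ⊆ B →
      ∀ u f : U → Set U, MB L a g B u → MB L a g B f → ∀ c : Set U,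
        (Gd a g (nF a u) c → ∀ z, EE a g z → z ∉ c → ∃ t, EE a g t ∧ t ∈ u z ∧ t ∉ exr a g u c) ∧
        (Gd a g (nF a u) c → Gd a g (ww a f u) c →
          exr a g f (exr a g u c) ⊆ exr a g u (exr a g f c))

/-- [SHF] going up.  `n` is any function in the class which contains the flat pieces.  PROOF.
`Low`, `a ∈`, bounded: SEXR 1.  `Gd a g (nF a u) c` since `exr` is monotone in the function.  Let `y ∈ E`, `y ∉ c`; to show:
`exr a g n (exr a g u c) ⊆ u y`.  `y ∉ exr a g n c`: `z ∈ E \ c` with `y ∉ n z`; so `ext a u (n z) ⊆ u y`.  `t` as in SHE 1: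
`exr a g n (exr a g u c) ⊆ n t ⊆ ext a n (u z) ⊆ ext a u (n z) ⊆ u y` (hypothesis for `z`, `z ∉ G m`).  Hence
`exr a g n (exr a g u c) ⊆ exr a g u c`. -/
def St_SHF : Prop :=
  ∀ (L : FirstOrder.Language.{0, 0}) (U : Type) [L.Structure U] [LinearOrder U], Wn L U →
    ∀ (C : Set U) (a : U) (g : U → Set U), Shp L C a g → ∀ B : Set U, B.Finite → C ⊆ B →
      ∀ u n : U → Set U, MB L a g B u → MB L a g B n → (∀ x, nF a u x ⊆ n x) → ∀ m : ℕ,
        (∀ x, EE a g x → x ∉ Gn a g m → ext a n (u x) ⊆ ext a u (n x)) →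
        ∀ c : Set U, Gd a g n c → Gn a g m ⊆ c → Gd a g n (exr a g u c)

/-- [SHG] going down.  `n` contains the jumps of `u`.  PROOF.  Let `c' = {z | ∃ s, z ≤ s ∧ a ≤ s ∧ u s ⊆ c}`.  `Low`.
`c' ⊆ c` (`z ≤ s ∈ u s ⊆ c`), so bounded; for `z ∈ E`: `z ∈ c' ↔ u z ⊆ c` (`mono`).  `G m ⊆ c'`: `a ∈ c'` since
`u a ⊆ ext a u (G m) ⊆ c`, and for `z ∈ G m`, `a ≤ z`: `u z ⊆ ext a u (G m) ⊆ c`.  `exr a g u c' = c`: `⊇`: `z ∈ E \ c'`: `¬ u z ⊆ c`, so
`c ⊆ u z`.  `⊆`: let `t ∈ exr a g u c'`, `t ∉ c`: `t ∉ exr a g (nJ a u) c` (`nJ ⊆ n`, `Gd n c`), so there are `s ∈ E \ c` with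
`t ∉ nJ a u s`, so `z` with `a ≤ z ≤ s`, `s ∈ u z`, `t ∉ u z`; `¬ u z ⊆ c`, so `z ∈ E \ c'` and `t ∈ u z`: contradiction.
`exr a g n c' ⊆ c'`: let `y ∈ exr a g n c'`, `y ∉ c'`; `y ∈ E` (SEXR 1).  There is `t ∈ u y`, `t ∉ c`; `t ∉ exr a g n c`: `s ∈ E \ c` with
`t ∉ n s`.  `s ∉ c = exr a g u c'`: `z ∈ E \ c'` with `s ∉ u z`, so `ext a n (u z) ⊆ n s` (`mono`), `t ∉ ext a n (u z)`.  But
`y ∈ exr a g n c' ⊆ n z`, `t ∈ u y ⊆ ext a u (n z) ⊆ ext a n (u z)` (`z ∉ G m`): contradiction. -/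
def St_SHG : Prop :=
  ∀ (L : FirstOrder.Language.{0, 0}) (U : Type) [L.Structure U] [LinearOrder U], Wn L U →
    ∀ (C : Set U) (a : U) (g : U → Set U), Shp L C a g → ∀ B : Set U, B.Finite → C ⊆ B →
      ∀ u n : U → Set U, MB L a g B u → MB L a g B n → (∀ x, nJ a u x ⊆ n x) → ∀ m : ℕ,
        (∀ x, EE a g x → x ∉ Gn a g m → ext a u (n x) ⊆ ext a n (u x)) →
        ∀ c : Set U, Gd a g n c → ext a u (Gn a g m) ⊆ c →
          ∃ c' : Set U, Gd a g n c' ∧ Gn a g m ⊆ c' ∧ c' ⊆ c ∧ exr a g u c' = c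

/-- [SHH] chains.  `n` contains flat pieces and jumps; `n` has arbitrarily large fixed cuts.  PROOF.  Let
`m₁ ≥ m₀`, `m₁ ≥` the threshold of SIT for `u`.  The sets `{x | ext a n (u x) ⊆ ext a u (n x)}` are `B`-definable: SEV 3: eventually
`ext a n (u x) ⊆ ext a u (n x)` (CASE F) or eventually `ext a u (n x) ⊆ ext a n (u x)` (CASE Bk; SBAS 7); `m₁ ≥` this threshold.
(*) `itr a u i K ⊆ (exr a g u)^[i] K` (SEXR 6, monotony).  CASE F: take one `c₀`, `Gd n`, `G m₁ ⊆ c₀ ⊆ G m₂`.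
`c k = (exr a g u)^[k] c₀`, all are `Gd n` (SHF; `c₀ ⊆ c k`, SEXR 1), by (*) and SIT `G M ⊆ c k` for some `k`.  CASE Bk: let
`m₂` be such that `ext a u (G m₁) ⊆ G m₂` (SEXT 3).  Given `M` (WLOG `m₂ ≤ M`) let `c` be `Gd n` with `G M ⊆ c`.
Put `e 0 = c`, `e (i+1) = (e i)'` of SHG as long as `G m₂ ⊆ e i`.  This stops: otherwise by induction
`(exr a g u)^[i] (G m₂) ⊆ c` for all `i` (`G m₂ ⊆ e i`, `exr a g u (e (i+1)) = e i`), and by (*) and SIT `c` is not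
bounded.  Let `i` be the first index with `¬ G m₂ ⊆ e i`: `i ≥ 1`, `e i ⊆ G m₂`, `G m₁ ⊆ e i` (SHG).  `c k = e (i-k)`, `K = i`. -/
def St_SHH : Prop :=
  ∀ (L : FirstOrder.Language.{0, 0}) (U : Type) [L.Structure U] [LinearOrder U], Wn L U →
    ∀ (C : Set U) (a : U) (g : U → Set U), Shp L C a g → ∀ B : Set U, B.Finite → C ⊆ B →
      ∀ u n : U → Set U, MB L a g B u → Sp a g u → MB L a g B n → (∀ x, nF a u x ⊆ n x) →
        (∀ x, nJ a u x ⊆ n x) → (∀ m, ∃ c, Gd a g n c ∧ Gn a g m ⊆ c) → ∀ m₀ : ℕ,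
        ∃ m₁ m₂ : ℕ, m₀ ≤ m₁ ∧ ∀ M : ℕ, ∃ (K : ℕ) (c : ℕ → Set U), (∀ k ≤ K, Gd a g n (c k)) ∧
          (∀ k < K, c (k + 1) = exr a g u (c k)) ∧ Gn a g m₁ ⊆ c 0 ∧ c 0 ⊆ Gn a g m₂ ∧
          Gn a g M ⊆ c K

/-- [SHI] `w` is in `Sp`.  PROOF.  Suppose not.  `n x = ww a f u x ∪ (nF a u x ∪ nJ a u x)` is in the class and not in `Sp` (SHA,
SEXT 6, SCA 3), and not `Dn`: so it has arbitrarily large `Gd` cuts, which are also `Gd` for `ww`, `nF` (monotony of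
`exr` in the function).  SHH with `m₀` ≥ the thresholds of SIT, `Sp` and SEXR 5 for `u`.  Write `u⁺ = exr a g u`, `f⁺ = exr a g f`
(monotone, SEXR 2).  By SHE 2 and induction `f⁺ (c K) ⊆ u⁺^[K] (f⁺ (c 0))`.  `f⁺ (c 0) ⊆ f⁺ (G m₂)` is bounded (SEXR 1), so contained in
`u⁺^[j] (G m₁)` for some `j` (SIT, SEXR 6), independent of `M`, so `f⁺ (c K) ⊆ u⁺^[K+j] (c 0) = u⁺^[j] (c K)`.  Given `M'` take `M` such
that `¬ G M ⊆ exr a g u (G M')`, `m₂ < M`, `M' ≤ M`.  Then `K ≥ 1` and `G M' ⊆ c (K-1)`.  There is `y ∈ c K \ c (K-1)` (`u⁺ K ⊇ ext a u K`, `Sp`), `y ∈ E \ G M'`.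
`f y ⊆ ext a f (c K) ⊆ f⁺ (c K)` (SEXR 6) `⊆ u⁺^[j] (c K) = u⁺^[j+1] (c (K-1)) ⊆ u⁺^[j+1] (Iic y) ⊆ itr a u (2*j+2) (Iic y)` (SEXR 5, induction;
`ext` is monotone).  By `Sp` `¬ itr a u (2*j+3) (Iic y) ⊆ itr a u (2*j+2) (Iic y)`, so `¬ itr a u (2*j+3) (Iic y) ⊆ f y`, for arbitrarily late
`y`: contradiction to `Dom` for `k = 2*j+3`. -/
def St_SHI : Prop :=
  ∀ (L : FirstOrder.Language.{0, 0}) (U : Type) [L.Structure U] [LinearOrder U], Wn L U →
    ∀ (C : Set U) (a : U) (g : U → Set U), Shp L C a g → ∀ B : Set U, B.Finite → C ⊆ B →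
      (∀ n, ¬ Dn L a g B n) →
      ∀ u f : U → Set U, MB L a g B u → Sp a g u → MB L a g B f → Dom a g f u →
        Sp a g (ww a f u)

/-- [SHK] nothing dominates the shift.  PROOF.  If some `n` satisfies `Dn`: SDC (`u = g`, SBAS 5).  Otherwise by
SHC, SHI, SHD, starting with `g` (SBAS 5), there is a sequence `d 0 = g`, `d (i+1)` = a half of `d i`: all `d i` are in
`MB`, `Sp`, `Dom a g f (d i)`, and (H) for all `K` late: `ext a (d (i+1)) (ext a (d (i+1)) K) ⊆ ext a (d i) K`.  For `η : ℕ → Bool` let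
`c η x 0 = Iic x`, `c η x (k+1) = if η k then ext a (d (k+1)) (c η x k) else c η x k`, `J η x k = ext a (d k) (c η x k) \ c η x k`.
For `x ∈ E` all are `Low`, bounded.  For fixed `η`, `k`: eventually `J η x k` is nonempty (`Sp`, `Iic x ⊆ c η x k`) and
`J η x (k+1) ⊆ J η x k` (H; if `η k` is false: `ext a (d (k+1)) K ⊆ ext a (d (k+1)) (ext a (d (k+1)) K) ⊆ ext a (d k) K`).  These are
`B`-definable conditions on `x` (SDF: `c η · k` is a `DF`), so they hold for every `x ∈ QB L a g B`.  `QB` is not empty: the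
`B`-definable sets which hold eventually have the finite intersection property (SEV, SBAS 4), `Mon.sat`.  Fix
`x ∈ QB L a g B`.  For every `η` the sets `J η x k` (definable over `B ∪ {x}`) are nonempty and decreasing: by saturation
there is `y η` in all of them.  `y` is injective: if `k` is least with `η k ≠ η' k`, say `η k = false`, `η' k = true`, `K = c η x k = c η' x k`,
`u = d (k+1)`: `J η x (k+1) = ext a u K \ K`, `J η' x (k+1) = ext a u (ext a u K) \ ext a u K`: disjoint.  But `U` is countable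
and `ℕ → Bool` is not. -/
def St_SHK : Prop :=
  ∀ (L : FirstOrder.Language.{0, 0}) (U : Type) [L.Structure U] [LinearOrder U], Wn L U →
    ∀ (C : Set U) (a : U) (g : U → Set U), Shp L C a g → ∀ B : Set U, B.Finite → C ⊆ B →
      ∀ f : U → Set U, MB L a g B f → ¬ Dom a g f g

end Pool.Agent.WOM
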