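import Pool.Agent.WOM.StS2

/-!
WOM, SHIFT THEOREM, part 3 (helper41): the limit type `QB`, far relation, regions, models, decoding.
Conventions: StS.lean.
-/

set_option autoImplicit false
set_option linter.unusedVariables false

namespace Pool.Agent.WOM

open FirstOrder.Language Set
open scoped FirstOrder

/-- [SFX] automorphisms and definable families; definability by invariance.  PROOF.  1, 2: an
automorphism over `A` preserves `A`-definable relations (`definable_iff_exists_formula_sum`,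
`StrongHomClass.realize_formula`, as in ORB 6).  3: `σ a = a`.  4: as `Dx.fib` in DFX.lean with one more
parameter (replace `x`, `y` by the variables `0`, `1`; if `x = y` or `x ∈ A` choose one of them).  5: `Φ x y` is
invariant under the automorphisms over `A ∪ {x, y}`, so definable over this set (ORB 8); 4: `F`; for `σ` over
`A`: `F (σ x) (σ y) = σ '' F x y = σ '' Φ x y = Φ (σ x) (σ y)`.  6: the same with one variable (`Dx.fib`). -/
def St_SFX : Prop :=
  ∀ (L : FirstOrder.Language.{0, 0}) (U : Type) [L.Structure U], Mon L U →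
    (∀ (A : Set U) (u : U → Set U) (σ : U ≃[L] U), DF L A u → Fx L A σ → ∀ x, u (σ x) = σ '' u x) ∧
    (∀ (A : Set U) (F : U → U → Set U) (σ : U ≃[L] U),
      A.Definable L {w : Fin 3 → U | w 2 ∈ F (w 0) (w 1)} → Fx L A σ →
      ∀ x y, F (σ x) (σ y) = σ '' F x y) ∧
    (∀ (A B s : Set U) (σ : U ≃[L] U), A.Definable₁ L s → Fx L A σ → σ '' s = s) ∧
    (∀ (A : Set U) (x y : U) (K : Set U), (insert x (insert y A)).Definable₁ L K →
      ∃ F : U → U → Set U, A.Definable L {w : Fin 3 → U | w 2 ∈ F (w 0) (w 1)} ∧ F x y = K) ∧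
    (∀ (A B : Set U) (x y : U) (Φ : U → U → Set U), A.Finite → B.Finite →
      (∀ σ : U ≃[L] U, Fx L A σ → Φ (σ x) (σ y) = σ '' Φ x y) → B.Definable₁ L (Φ x y) →
      ∃ F : U → U → Set U, A.Definable L {w : Fin 3 → U | w 2 ∈ F (w 0) (w 1)} ∧
        ∀ σ : U ≃[L] U, Fx L A σ → F (σ x) (σ y) = Φ (σ x) (σ y)) ∧
    (∀ (A B : Set U) (x : U) (Φ : U → Set U), A.Finite → B.Finite →
      (∀ σ : U ≃[L] U, Fx L A σ → Φ (σ x) = σ '' Φ x) → B.Definable₁ L (Φ x) →
      ∃ F : U → Set U, DF L A F ∧ ∀ σ : U ≃[L] U, Fx L A σ → F (σ x) = Φ (σ x))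

/-- [SQA] the limit type.  PROOF.  1: the `B`-definable sets which hold eventually have the finite
intersection property (SEV 4, SBAS 4): `Mon.sat`.  2: if `x ∈ D` and not `Ev D` then `Ev (· ∉ D)` (SEV 1), so
`x ∉ D`.  3: for `x, y ∈ QB B`, `y ∉ Orb B x`: ORB 7 gives a `B`-definable set which contradicts 2; `Orb B x ⊆ QB B` by
ORB 6.  4: `Gn n` is `C`-definable (SDF 5).  5: if `K` is not bounded then all `Gn n ⊆ K` (SBAS 7), so `Ev (· ∈ K)`.  The
second part: 4.  6: let `D` be `B`-definable, `Ev D` with the threshold `m`.  `K = {t | ∀ s, s ≤ t → s ∉ Gn a g m → s ∈ D}` is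
`B`-definable, `Low`, contains all `Gn n` (`s ≤ t ∈ Gn n`, `s ∉ Gn m`: `EE s`), so it is not bounded (`strict`).  So `y ∈ K`,
`y ∉ Gn m`, hence `y ∈ D`.  7: from 6 and 5 (`y ≤ x ∈ K`).  8: clear.  9: `σ` fixes `C`, so it fixes the sets `Gn n` and `E`; `D` is
`B`-definable iff `σ '' D` is `σ '' B`-definable (ORB 9). -/
def St_SQA : Prop :=
  ∀ (L : FirstOrder.Language.{0, 0}) (U : Type) [L.Structure U] [LinearOrder U], Wn L U →
    ∀ (C : Set U) (a : U) (g : U → Set U), Shp L C a g → ∀ B : Set U, B.Finite → C ⊆ B →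
      (QB L a g B).Nonempty ∧
      (∀ x ∈ QB L a g B, ∀ D : Set U, B.Definable₁ L D → (x ∈ D ↔ Ev a g (fun y => y ∈ D))) ∧
      (∀ x ∈ QB L a g B, QB L a g B = Orb L B x) ∧
      (∀ x ∈ QB L a g B, (∀ n, x ∉ Gn a g n) ∧ a < x) ∧
      (∀ K : Set U, B.Definable₁ L K → Low K → (¬ Bd a g K → QB L a g B ⊆ K) ∧
        (Bd a g K → ∀ x ∈ QB L a g B, x ∉ K)) ∧
      (∀ y, (∀ n, y ∉ Gn a g n) → (∀ K : Set U, B.Definable₁ L K → Low K → ¬ Bd a g K → y ∈ K) →
        y ∈ QB L a g B) ∧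
      (∀ x ∈ QB L a g B, ∀ y, y ≤ x → (∀ n, y ∉ Gn a g n) → y ∈ QB L a g B) ∧
      (∀ B' : Set U, B ⊆ B' → QB L a g B' ⊆ QB L a g B) ∧
      (∀ σ : U ≃[L] U, Fx L C σ → QB L a g (σ '' B) = σ '' QB L a g B)

/-- [SQC] iterates of the shift on the limit type.  PROOF.  1: `{x | itr a g n (Iic x) ⊆ K}` is `B`-definable (SDF) and
holds on `E` (`itr a g n (Iic x)` is bounded, all `Gn m ⊆ K`).  2: suppose `QB B ⊆ K := itr a g n (Iic x)`.  Then
`K = {t | (∃ m, t ∈ Gn m) ∨ t ∈ QB B}` (`⊇`: `Low`; `⊆`: SQA 6 and 1), so `K` is invariant under the automorphisms over `B`,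
hence `B`-definable (ORB 8).  `{x' | ¬ K ⊆ itr a g n (Iic x')}` is `B`-definable and holds on `E` (`itr ..` is bounded, `K` is
not), so it holds at `x`: contradiction.  3: holds on `E` (SBAS 3: `itr` of bounded cuts), so on `QB`. -/
def St_SQC : Prop :=
  ∀ (L : FirstOrder.Language.{0, 0}) (U : Type) [L.Structure U] [LinearOrder U], Wn L U →
    ∀ (C : Set U) (a : U) (g : U → Set U), Shp L C a g → ∀ B : Set U, B.Finite → C ⊆ B →
      ∀ x ∈ QB L a g B, ∀ n,
      (∀ K : Set U, B.Definable₁ L K → Low K → ¬ Bd a g K → itr a g n (Iic x) ⊆ K) ∧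
      (∃ y ∈ QB L a g B, y ∉ itr a g n (Iic x)) ∧
      (¬ itr a g (n + 1) (Iic x) ⊆ itr a g n (Iic x)) ∧ x ∈ itr a g n (Iic x)

/-- [SKD] the main lemma for the limit type.  PROOF.  SDF 8: `K = h b`, `h` a `B`-definable cut function, `y ∈ h y`.
Suppose for all `n` not `K ⊆ itr a g n (Iic b)`, so `itr a g n (Iic b) ⊆ h b`; as `{x | itr a g n (Iic x) ⊆ h x}` is `B`-definable, this
holds for all `x ∈ QB B` and eventually (SQA 3, 2).  Let `f x = {t | ∀ y, x ≤ y → t ∈ h y}`: `B`-definable, `Low`, `x ∈ f x` (`x ≤ y ∈ h y`),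
increasing.  (i) `f x` is bounded for `x ∈ E`: otherwise `x ∈ Gn m`, `K' = {t | ∀ z, a ≤ z → z ∉ Gn m → t ∈ f z}` is a `B`-definable
`Low` set containing `f x` (`x ≤ z`), so not bounded, so `QB B ⊆ K' ⊆ f b ⊆ h b` (SQA 5, 4): contradiction to `b' ∉ K`.
So `MB L a g B f`.  (ii) `Dom a g f g`: by SQA 2 (`{x | itr a g k (Iic x) ⊆ f x}` is `B`-definable) it suffices that
`itr a g k (Iic b) ⊆ h y` for `b ≤ y`.  If `y ∈ QB B`: `itr a g k (Iic b) ⊆ itr a g k (Iic y) ⊆ h y`.  Otherwise `y` is in no `Gn m` and by SQA 6 there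
is a `B`-definable unbounded `Low` set `K''` with `y ∉ K''`; by SQC 1 `itr a g k (Iic b) ⊆ K'' ⊆ Iic y ⊆ h y`.  Contradiction to SHK. -/
def St_SKD : Prop :=
  ∀ (L : FirstOrder.Language.{0, 0}) (U : Type) [L.Structure U] [LinearOrder U], Wn L U →
    ∀ (C : Set U) (a : U) (g : U → Set U), Shp L C a g → ∀ B : Set U, B.Finite → C ⊆ B →
      ∀ b ∈ QB L a g B, ∀ K : Set U, (insert b B).Definable₁ L K → Low K → b ∈ K →
        (∃ b' ∈ QB L a g B, b' ∉ K) → ∃ n, K ⊆ itr a g n (Iic b)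

/-- [SFR] the far relation.  PROOF.  1: `itr a g n (Iic x') ⊆ itr a g n (Iic x)` (monotone), `itr a g n (Iic x)` is `Low` (SEXT 1).
2: `Iic y ⊆ itr a g n (Iic x)`, so `itr a g m (Iic y) ⊆ itr a g (m+n) (Iic x)`.  3: by 1.  4: (`x`, `y` are near.)  First part: if
`x ≤ y`: 1.  If `y < x` then `x ∈ itr a g n (Iic y)` for some `n`: 2.  Second part: if `y ≤ x`: 1.  Let `x < y`; if `¬ Fr z x` then
`z < x` (if `x ≤ z` then `Fr x y` by 1), so `x ∈ itr a g n (Iic z)` and `Fr x y` by 2: contradiction.  5: SFX 1: `σ` maps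
`itr a g n (Iic x)` onto `itr a g n (Iic (σ x))`. -/
def St_SFR : Prop :=
  ∀ (L : FirstOrder.Language.{0, 0}) (U : Type) [L.Structure U] [LinearOrder U], Wn L U →
    ∀ (C : Set U) (a : U) (g : U → Set U), Shp L C a g →
      (∀ x z x' z', Fr a g x z → x' ≤ x → z ≤ z' → Fr a g x' z') ∧
      (∀ x y z n, Fr a g x z → y ∈ itr a g n (Iic x) → Fr a g y z) ∧
      (∀ x y z, Fr a g x y → Fr a g y z → Fr a g x z) ∧
      (∀ x y z, ¬ Fr a g x y → ¬ Fr a g y x →
        (Fr a g y z → Fr a g x z) ∧ (Fr a g z y → Fr a g z x)) ∧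
      (∀ σ : U ≃[L] U, Fx L C σ → ∀ x z, Fr a g (σ x) (σ z) ↔ Fr a g x z)

/-- [SRB] one far element.  `B₀ = insert x₀ B`.  PROOF.  1: let `z ∉ Orb B₀ x`, `x < z` (WLOG, ORB 2).  SCUT: `K`
`B₀`-definable, `Low`, `x ∈ K`, `z ∉ K`; `x₀ ∈ K`.  SKD (`b = x₀`, `b' = z`): `K ⊆ itr a g n (Iic x₀)`, contradiction to `Fr x₀ x`.
2: saturation: the `B`-definable unbounded `Low` sets and the complements of the `itr a g n (Iic x₀)` (definable over
`B₀`): a finite part is satisfied by the `y` of SQC 2 for the largest `n`.  A common point `x` satisfies `x₀ < x`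
(`x ∉ Iic x₀`), so `x` is in no `Gn m`, `x ∈ QB B` by SQA 6, `Fr x₀ x`.  3: `⊆`: `x ∈ QB B₀ ⊆ QB B`.  `Iio x₀` is a `B₀`-definable
unbounded `Low` set, so `x < x₀`; `{x | x₀ ∉ itr a g n (Iic x)}` is `B₀`-definable and holds on `E`, so at `x`.  `⊇`: let `x ∈ QB B`,
`Fr x x₀`, `x ∉ QB B₀`.  SQA 6: a `B₀`-definable unbounded `Low` `K₀` with `x ∉ K₀`.  `K₀ = k x₀`, `k` with `DF L B k` (`Dx.fib`).  The set
`{z | x ∉ k z}` is definable over `insert x B` and contains `x₀`; by 1 (with `x` instead of `x₀`) all `z ∈ QB B` with `Fr x z` are in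
one orbit over `insert x B`: so `x ∉ k z` for these `z`.  By conjugation over `B` (`QB B` is an orbit, SFX 1, SFR 5): (*) `x' ∉ k z` for all
`x', z ∈ QB B` with `Fr x' z`.  `K₀` is not the union of the `Gn n` (SBAS 9): there is `t ∈ K₀` in no `Gn n` (SBAS 7); `t ≤ x` (`K₀`
is `Low`), so `t ∈ QB B` (SQA 7) and `Fr t x₀` (SFR 1): contradiction to (*). -/
def St_SRB : Prop :=
  ∀ (L : FirstOrder.Language.{0, 0}) (U : Type) [L.Structure U] [LinearOrder U], Wn L U →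
    ∀ (C : Set U) (a : U) (g : U → Set U), Shp L C a g → ∀ B : Set U, B.Finite → C ⊆ B →
      ∀ x₀ ∈ QB L a g B,
      (∀ x ∈ QB L a g B, ∀ z ∈ QB L a g B, Fr a g x₀ x → Fr a g x₀ z → z ∈ Orb L (insert x₀ B) x) ∧
      (∃ x ∈ QB L a g B, Fr a g x₀ x) ∧
      QB L a g (insert x₀ B) = {x | x ∈ QB L a g B ∧ Fr a g x x₀}

/-- [SRC] far sets, the lowest region.  PROOF.  Induction on the number of elements of `F`.  `F = F' ∪ {x₀}`, `x₀` the
least element: `x₀ ∈ QB (C ∪ F')` by the induction hypothesis; SRB 3 for `B = C ∪ F'`, and `Fr x x₀` implies `Fr x y` for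
`y ∈ F'` (SFR 1). -/
def St_SRC : Prop :=
  ∀ (L : FirstOrder.Language.{0, 0}) (U : Type) [L.Structure U] [LinearOrder U], Wn L U →
    ∀ (C : Set U) (a : U) (g : U → Set U), Shp L C a g → ∀ F : Set U, F.Finite →
      F ⊆ QB L a g C → (∀ x ∈ F, ∀ y ∈ F, x < y → Fr a g x y) →
      QB L a g (C ∪ F) = {x | x ∈ QB L a g C ∧ ∀ y ∈ F, Fr a g x y}

/-- [SRD] the regions are orbits.  PROOF.  Induction on the number of elements of `F`; `F = ∅`: SQA 3.  `F = F' ∪ {x₀}`,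
`x₀` the least element; `B = C ∪ F'`, `x₀ ∈ QB B` (SRC).  (i) `x`, `z` far below `x₀`: both in `QB (C ∪ F)` (SRC), SQA 3.
(ii) `x`, `z` far above `x₀` and far below `F'`: both in `QB B`: SRB 1.  (iii) some `y₁ ∈ F'` is far below `x` (and `z`).  Suppose
`z ∉ Orb (C ∪ F) x`, WLOG `x < z`.  SCUT: `K` definable over `insert x₀ B`, `Low`, `x ∈ K`, `z ∉ K`; `x₀ ∈ K`, SDF 8: `K = k x₀`.  By SRC
for the far sets `F' ∪ {x}`, `F' ∪ {z}`: `QB (B ∪ {x}) = QB B = QB (B ∪ {z})` (far below `y₁` implies far below `x`, `z`).  `{y | x ∈ k y}` is definable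
over `B ∪ {x}` and contains `x₀ ∈ QB (B ∪ {x})`, so `x ∈ k y` eventually (SQA 2); in the same way `z ∉ k y` eventually; let
`m` be a common threshold.  `K₁ = {t | ∀ y, a ≤ y → y ∈ Gn a g (m+1) → y ∉ Gn a g m → t ∈ k y}` is `B`-definable, `x ∈ K₁`,
`z ∉ K₁` (`strict`); but `z ∈ Orb B x` by the induction hypothesis: contradiction (ORB 6). -/
def St_SRD : Prop :=
  ∀ (L : FirstOrder.Language.{0, 0}) (U : Type) [L.Structure U] [LinearOrder U], Wn L U →
    ∀ (C : Set U) (a : U) (g : U → Set U), Shp L C a g → ∀ F : Set U, F.Finite →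
      F ⊆ QB L a g C → (∀ x ∈ F, ∀ y ∈ F, x < y → Fr a g x y) →
      ∀ x ∈ QB L a g C, ∀ z ∈ QB L a g C,
        (∀ y ∈ F, (Fr a g x y ∧ Fr a g z y) ∨ (Fr a g y x ∧ Fr a g y z)) → z ∈ Orb L (C ∪ F) x

/-- [SRE] the regions are not empty.  PROOF.  Induction on the number of elements of `F`, `F = F' ∪ {x₀}`, `x₀` the
least element, `B = C ∪ F'`.  If `x₀ ∉ I` then `I = ∅`: take `x ∈ QB (C ∪ F)` (SQA 1, SRC).  If `I = {x₀}`: SRB 2 for `x₀ ∈ QB B`, and `x ∈ QB B` is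
far below `F'` (SRC).  Otherwise the induction hypothesis for `F'`, `I \ {x₀}`; `Fr x₀ y`, `Fr y x` give `Fr x₀ x`. -/
def St_SRE : Prop :=
  ∀ (L : FirstOrder.Language.{0, 0}) (U : Type) [L.Structure U] [LinearOrder U], Wn L U →
    ∀ (C : Set U) (a : U) (g : U → Set U), Shp L C a g → ∀ F : Set U, F.Finite →
      F ⊆ QB L a g C → (∀ x ∈ F, ∀ y ∈ F, x < y → Fr a g x y) →
      ∀ I : Set U, I ⊆ F → (∀ x ∈ I, ∀ y ∈ F, y < x → y ∈ I) →
        ∃ x ∈ QB L a g C, (∀ y ∈ I, Fr a g y x) ∧ ∀ y ∈ F, y ∉ I → Fr a g x y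

/-- [SRF] the regions are not isolated.  PROOF.  `B = C ∪ F`; suppose `R = Orb B x` is `B`-definable.  (i) `x` is far below all
`y ∈ F`: `R = QB B` (SRC, SQA 3), and the union of the `Gn n` is `{t | ∀ y ∈ R, t < y}` (SQA 7), so `B`-definable:
contradiction to SBAS 9.  (ii) otherwise let `y₁` be the largest `y ∈ F` with `Fr y x`.  `R` is the set of the `z ∈ QB C` in the
same position as `x` (SRD, SFR 5).  `S = {t | ∀ z ∈ R, t < z}` is `B`-definable, and `S` is the union of the `itr a g n (Iic y₁)`: `⊇`: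
`Fr y₁ z`.  `⊆`: let `t ∈ S` be in no `itr a g n (Iic y₁)`: `Fr y₁ t`, `t ≤ x`, so `t ∈ QB C` (SQA 7: `y₁ < t`), and `t` is in the position of `x`
(SFR 1; `y ≤ y₁` or `Fr x y` for `y ∈ F`), so `t ∈ R`, contradiction.  Now the sets `S \ itr a g n (Iic y₁)` are definable over
`B`, decreasing, not empty (SQC 3), with empty intersection: contradiction to saturation. -/
def St_SRF : Prop :=
  ∀ (L : FirstOrder.Language.{0, 0}) (U : Type) [L.Structure U] [LinearOrder U], Wn L U →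
    ∀ (C : Set U) (a : U) (g : U → Set U), Shp L C a g → ∀ F : Set U, F.Finite →
      F ⊆ QB L a g C → (∀ x ∈ F, ∀ y ∈ F, x < y → Fr a g x y) →
      ∀ x ∈ QB L a g C, (∀ y ∈ F, Fr a g x y ∨ Fr a g y x) → ¬ Isd L (C ∪ F) x

/-- [SRQ] far sequences of type `ℚ`.  PROOF.  Enumerate `ℚ` and choose the values one after another by SRE (`F` = the
values already chosen, `I` = those with a smaller index). -/
def St_SRQ : Prop :=
  ∀ (L : FirstOrder.Language.{0, 0}) (U : Type) [L.Structure U] [LinearOrder U], Wn L U →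
    ∀ (C : Set U) (a : U) (g : U → Set U), Shp L C a g →
      ∃ b : ℚ → U, (∀ q, b q ∈ QB L a g C) ∧ ∀ q q', q < q' → Fr a g (b q) (b q')

/-! ### Models -/

/-- [SAT] atomic extensions.  PROOF.  1: induction.  2: induction.  Let `D' = insert y D`, `Isd D y`, `Orb D z = Orb A z`.
nSDI 3: `¬ Isd D z`.  nISO: `¬ Nn D y z`, `¬ Nn D z y`, so `Orb D' z = Orb D z` and `Orb (insert z D) y = Orb D y`, so
`Isd (insert z D) y` (`Definable.mono`).  3: if `¬ Isd A x` then by 2 `Orb A x = Orb D x = {x}`; `{x}` is definable over `D` and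
invariant over `A`, so `A`-definable (ORB 8): contradiction.  4: `Orb A x` is `A`-definable, so definable over `B`. -/
def St_SAT : Prop :=
  ∀ (L : FirstOrder.Language.{0, 0}) (U : Type) [L.Structure U] [LinearOrder U], Wn L U →
    ∀ A : Set U, A.Finite → ∀ D : Set U, Atm L A D →
      (D.Finite ∧ A ⊆ D) ∧
      (∀ z, ¬ Isd L A z → Orb L D z = Orb L A z ∧ Atm L (insert z A) (insert z D)) ∧
      (∀ x ∈ D, Isd L A x)

/-- [SMM] models over a sequence.  PROOF.  Construct finite sets `F_n ⊆ J` (increasing) and `D_n` (increasing) with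
`Atm L (A₀ ∪ b '' F_n) D_n`.  Step (q), `q ∈ J`: if `q ∉ F_n` let `F_(n+1) = insert q F_n`, `D_(n+1) = insert (b q) D_n` (SAT 2: `b q` is not
isolated).  Step (m, z), `m ≤ n`, `z ∈ U` with `Isd D_m z`: `Orb D_m z` is `D_n`-definable and not empty: DNS gives `y ∈ Orb D_m z` with
`Isd D_n y`, `D_(n+1) = insert y D_n`.  Every step (there are countably many, `U` is countable) is done after the
stage `m`.  `M` = union of the `D_n`.  `IsEl`: let `s` be definable over `M`, nonempty: definable over a finite subset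
(as in the earlier modules, e.g. MJX.lean / EMB.lean), so over some `D_m`; DNS: `z ∈ s` with `Isd D_m z`; the step (m, z) puts an element of
`Orb D_m z ⊆ s` (ORB 6) into `M`.  Last condition: SAT 3. -/
def St_SMM : Prop :=
  ∀ (L : FirstOrder.Language.{0, 0}) (U : Type) [L.Structure U] [LinearOrder U], Wn L U →
    ∀ (A₀ : Set U) (b : ℚ → U) (J : Set ℚ), A₀.Finite →
      (∀ F : Set ℚ, F.Finite → F ⊆ J → ∀ q ∈ J, q ∉ F → ¬ Isd L (A₀ ∪ b '' F) (b q)) →
      ∃ M : Set U, IsEl L M ∧ A₀ ⊆ M ∧ (∀ q ∈ J, b q ∈ M) ∧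
        ∀ x ∈ M, ∃ F : Set ℚ, F.Finite ∧ F ⊆ J ∧ Isd L (A₀ ∪ b '' F) x

/-- [SMJ] the models `M_J`.  PROOF.  SMM (`A₀ = C`): SRF for the far set `b '' F`, `x = b q`.  Last condition: `x ∈ M ∩ QB C`; `F` as in
SMM; by SRF `x` is not far from all `b q`, `q ∈ F`. -/
def St_SMJ : Prop :=
  ∀ (L : FirstOrder.Language.{0, 0}) (U : Type) [L.Structure U] [LinearOrder U], Wn L U →
    ∀ (C : Set U) (a : U) (g : U → Set U), Shp L C a g → ∀ b : ℚ → U,
      (∀ q, b q ∈ QB L a g C) → (∀ q q', q < q' → Fr a g (b q) (b q')) → ∀ J : Set ℚ,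
      ∃ M : Set U, IsEl L M ∧ C ⊆ M ∧ (∀ q ∈ J, b q ∈ M) ∧
        ∀ x ∈ M, x ∈ QB L a g C → ∃ q ∈ J, ¬ Fr a g x (b q) ∧ ¬ Fr a g (b q) x

/-- [SLE] the order is decoded (as LEJ of StC, easier).  PROOF.  Induction on `γ` for intervals of `J`, `J'`: let `Γ` be finite,
contain the pairs `(c, c)`, `c ∈ C`, and for the endpoints `q_1, ..` of the interval of `J` and `q'_1, ..` of the interval of `J'`
pairs `(y_k, y'_k)`, `y_k ∈ M` near `b q_k`, `y'_k ∈ M'` near `b q'_k` (near = neither `Fr`), `BFR S S M M' (ω + γ) Γ`.  Given `β < γ` and `q ∈ J` in the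
interval: forth for `b q ∈ M`: `y' ∈ M'` with `BFR (ω + β) (insert (b q, y') Γ)`.  LV0: `σ` with `σ (b q) = y'`, `σ c = c`, `σ y_k = y'_k`;
`y' ∈ QB C` (SQA 9 for `B = C`), so `y'` is near some `b q'`, `q' ∈ J'`.  `Fr` is preserved by `σ` (SFR 5) and by replacing an element by a
near one (SFR 4), and `q < q'' ↔ Fr (b q) (b q'')`: so `q'` is in the interval of `J'`, and the two subintervals satisfy the
induction hypothesis.  The other direction: back, symmetric. -/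
def St_SLE : Prop :=
  ∀ (L : FirstOrder.Language.{0, 0}) [∀ n, IsEmpty (L.Functions n)] (U : Type)
    [S : L.Structure U] [LinearOrder U], Wn L U →
    ∀ (C : Set U) (a : U) (g : U → Set U), Shp L C a g → ∀ b : ℚ → U,
      (∀ q, b q ∈ QB L a g C) → (∀ q q', q < q' → Fr a g (b q) (b q')) →
      ∀ (J J' : Set ℚ) (M M' : Set U) (γ : Ordinal.{0}),
        (IsEl L M ∧ C ⊆ M ∧ (∀ q ∈ J, b q ∈ M) ∧
          ∀ x ∈ M, x ∈ QB L a g C → ∃ q ∈ J, ¬ Fr a g x (b q) ∧ ¬ Fr a g (b q) x) →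
        (IsEl L M' ∧ C ⊆ M' ∧ (∀ q ∈ J', b q ∈ M') ∧
          ∀ x ∈ M', x ∈ QB L a g C → ∃ q ∈ J', ¬ Fr a g x (b q) ∧ ¬ Fr a g (b q) x) →
        Pool.Agent.Helper79.VC.BFR S S M M' (Ordinal.omega0 + γ) {p | p.1 = p.2 ∧ p.1 ∈ C} →
        HER.LE γ J J'

/-- [SNO] THE SHIFT THEOREM, normalised shifts.  PROOF.  As NCF of StC: `HER.St_LOF` (`HER.thm_LOF`): `I f ⊆ ℚ`, `γ`.  SRQ: `b`.
SMJ for `J = I f`: `X f = M`.  `ScU` with `d` an enumeration of the finite set `C` and the level `ω + γ` (countable): `f ≠ g` with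
`BFR`; SLE: `LE γ (I f) (I g)`, so `f = g`. -/
def St_SNO : Prop :=
  ∀ (L : FirstOrder.Language.{0, 0}) [∀ n, IsEmpty (L.Functions n)] (U : Type)
    [S : L.Structure U] [LinearOrder U], Wn L U → ScU L S →
    ∀ (C : Set U) (a : U) (g : U → Set U), ¬ Shp L C a g

/-- there are no shifts -/
def NSh (L : FirstOrder.Language.{0, 0}) (U : Type) [L.Structure U] [LinearOrder U] : Prop :=
  ∀ (A : Set U) (a : U) (g : U → Set U), A.Finite → DF L A g → (∀ x, Low (g x)) → (∀ x, x ∈ g x) →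
    ∃ n, Gn a g (n + 1) ⊆ Gn a g n

/-- [SNS] THE SHIFT THEOREM.  PROOF.  Otherwise let `g' x = {t | t ≤ x ∨ ∃ y, a ≤ y ∧ y ≤ x ∧ t ∈ g y}`, `C = insert a A`.  `Gn a g' n = Gn a g n`
for all `n` (induction: `ext a g' K = ext a g K` for `Low` `K` with `a ∈ K`).  So `Shp L C a g'`: contradiction to SNO. -/
def St_SNS : Prop :=
  ∀ (L : FirstOrder.Language.{0, 0}) [∀ n, IsEmpty (L.Functions n)] (U : Type)
    [S : L.Structure U] [LinearOrder U], Wn L U → ScU L S → NSh L U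

end Pool.Agent.WOM
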