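import Pool.Agent.WOM.StB

/-! WOM: module WO (helper40). -/

set_option autoImplicit false

namespace Pool.Agent.WOM

open FirstOrder.Language Set
open scoped FirstOrder

private theorem WO_symm {L : FirstOrder.Language.{0, 0}} {U : Type} [L.Structure U] {A : Set U}
    {x y : U} (h : Eqv L A x y) : Eqv L A y x := fun s hs => (h s hs).symm

theorem thm_WO (h1 : ∀ (L : FirstOrder.Language.{0, 0}) (U : Type) [L.Structure U], St_AUT L U)
    (h2 : ∀ (L : FirstOrder.Language.{0, 0}) (U : Type) [L.Structure U], St_CPL L U)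
    (L : FirstOrder.Language.{0, 0}) (U : Type) [L.Structure U] : St_WO L U := by
  intro hM A a c hA hc
  have haut := (h1 L U hM).2.2
  rw [h2 L U hM A (insert a A) c hA (hA.insert a) (subset_insert a A)] at hc
  rw [h2 L U hM A (insert c A) a hA (hA.insert c) (subset_insert c A)]
  intro a' ha'
  obtain ⟨g, hgA, hga⟩ := (haut A a' a hA).1 (WO_symm ha')
  have h3 : Eqv L A c (g c) := (haut A c (g c) hA).2 ⟨g, hgA, rfl⟩
  obtain ⟨h, hhA, hhc⟩ := (haut (insert a A) (g c) c (hA.insert a)).1 (WO_symm (hc _ h3))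
  apply WO_symm
  refine (haut (insert c A) a' a (hA.insert c)).2 ⟨h.comp g, ?_, ?_⟩
  · intro x hx
    rcases mem_insert_iff.1 hx with rfl | hx
    · exact hhc
    · show h (g x) = x
      rw [hgA x hx]
      exact hhA x (mem_insert_of_mem _ hx)
  · show h (g a') = a
    rw [hga]
    exact hhA a (mem_insert _ _)

end Pool.Agent.WOM
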